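import Mathlib

/-! # Stable rational curves through cross ratios: definitions

`P^1(Ω)` is `OnePoint Ω`.  A system `L : V → V → V → V → OnePoint Ω` on a finite set `S` of labels
records, for distinct `i j k ∈ S`, the coordinate `L i j k l` of the label `l` on the component of the
stable curve on which `i, j, k` are separated, normalised by `i ↦ 0, j ↦ ∞, k ↦ 1`. -/

noncomputable section

namespace Pool.Agent.Mbar

open OnePoint Polynomial

open scoped Classical

/-! ### the equations of the moduli space -/

/-- homogeneous coordinates of a point of the projective line -/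
def hc {Ω : Type} [Field Ω] : OnePoint Ω → Ω × Ω
  | ∞ => (1, 0)
  | (x : Ω) => (x, 1)

/-- `i, j, k` are distinct -/
def Dist3 {V : Type} (i j k : V) : Prop := i ≠ j ∧ i ≠ k ∧ j ≠ k

/-- `l` is different from `i, j, k` -/
def Out {V : Type} (l i j k : V) : Prop := l ≠ i ∧ l ≠ j ∧ l ≠ k

/-- The equations of the moduli space of stable rational curves with labels in `R` in a product of
projective lines: `lam i j k l` is the cross ratio of four distinct labels. -/
structure IsCR {Ω : Type} [Field Ω] {R : Type} (lam : R → R → R → R → OnePoint Ω) : Prop where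
  /-- values that do not matter are normalised to be `∞` -/
  junk : ∀ i j k l, ¬ (Dist3 i j k ∧ Out l i j k) → lam i j k l = ∞
  /-- `lam j i k l = 1 / lam i j k l` -/
  inv : ∀ i j k l, Dist3 i j k → Out l i j k →
    (hc (lam j i k l)).1 * (hc (lam i j k l)).1 = (hc (lam j i k l)).2 * (hc (lam i j k l)).2
  /-- `lam i j l k = 1 / lam i j k l` -/
  swap : ∀ i j k l, Dist3 i j k → Out l i j k →
    (hc (lam i j l k)).1 * (hc (lam i j k l)).1 = (hc (lam i j l k)).2 * (hc (lam i j k l)).2
  /-- `lam k j i l = 1 - lam i j k l` -/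
  one_sub : ∀ i j k l, Dist3 i j k → Out l i j k →
    (hc (lam k j i l)).1 * (hc (lam i j k l)).2 =
      (hc (lam k j i l)).2 * ((hc (lam i j k l)).2 - (hc (lam i j k l)).1)
  /-- `lam i j k l * lam i j l m = lam i j k m` -/
  mul : ∀ i j k l m, Dist3 i j k → Out l i j k → Out m i j k → m ≠ l →
    (hc (lam i j k l)).1 * (hc (lam i j l m)).1 * (hc (lam i j k m)).2 =
      (hc (lam i j k l)).2 * (hc (lam i j l m)).2 * (hc (lam i j k m)).1

/-- The number of points over the field with `q` elements of the twist by the permutation `τ` of the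
moduli space of stable rational curves with labels in `R`; `Ω` is an algebraic closure of that field. -/
def crCount (Ω : Type) [Field Ω] (q : ℕ) {R : Type} (τ : Equiv.Perm R) : ℕ :=
  Nat.card {lam : R → R → R → R → OnePoint Ω // IsCR lam ∧
    ∀ i j k l, lam (τ i) (τ j) (τ k) (τ l) = OnePoint.map (fun x => x ^ q) (lam i j k l)}

/-! ### systems of coordinates -/

section systems

variable {Ω : Type} [Field Ω] {V : Type}

/-- `L` is a system on the finite set `S` of labels. -/
structure IsSys (S : Finset V) (L : V → V → V → V → OnePoint Ω) : Prop where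
  junk : ∀ i j k l, ¬ (i ∈ S ∧ j ∈ S ∧ k ∈ S ∧ l ∈ S ∧ Dist3 i j k) → L i j k l = ∞
  zero : ∀ i j k, i ∈ S → j ∈ S → k ∈ S → Dist3 i j k → L i j k i = ((0 : Ω) : OnePoint Ω)
  infty : ∀ i j k, i ∈ S → j ∈ S → k ∈ S → Dist3 i j k → L i j k j = ∞
  one : ∀ i j k, i ∈ S → j ∈ S → k ∈ S → Dist3 i j k → L i j k k = ((1 : Ω) : OnePoint Ω)
  comp : ∀ i j k, i ∈ S → j ∈ S → k ∈ S → Dist3 i j k → ∀ a b c, a ∈ S → b ∈ S → c ∈ S →
    Dist3 (L i j k a) (L i j k b) (L i j k c) →
    ∃ g : GL (Fin 2) Ω, ∀ l ∈ S, L a b c l = g • L i j k l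

/-- `φ` and `ψ` agree on `S` up to a change of coordinate -/
def Sim (S : Finset V) (φ ψ : V → OnePoint Ω) : Prop :=
  ∃ g : GL (Fin 2) Ω, ∀ l ∈ S, ψ l = g • φ l

/-- `φ` separates some three labels of `S` -/
def Sep3 (S : Finset V) (φ : V → OnePoint Ω) : Prop :=
  ∃ a ∈ S, ∃ b ∈ S, ∃ c ∈ S, Dist3 (φ a) (φ b) (φ c)

/-- `φ` is a coordinate of a component of the curve `L` -/
def VMap (S : Finset V) (L : V → V → V → V → OnePoint Ω) (φ : V → OnePoint Ω) : Prop :=
  Sep3 S φ ∧ ∀ a ∈ S, ∀ b ∈ S, ∀ c ∈ S, Dist3 (φ a) (φ b) (φ c) → Sim S φ (L a b c)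

/-- the fibre of `φ` over `α` in `S` -/
def fib (S : Finset V) (φ : V → OnePoint Ω) (α : OnePoint Ω) : Finset V :=
  S.filter (fun x => φ x = α)

/-- the system `L` is equivariant for the permutation `τ` of the labels and the `q`-power map -/
def Equi (q : ℕ) (τ : Equiv.Perm V) (L : V → V → V → V → OnePoint Ω) : Prop :=
  ∀ i j k l, L (τ i) (τ j) (τ k) (τ l) = OnePoint.map (fun x => x ^ q) (L i j k l)

/-- the map `φ` is equivariant on `S` and `∞` outside `S` -/
def EquiMap (q : ℕ) (τ : Equiv.Perm V) (S : Finset V) (φ : V → OnePoint Ω) : Prop :=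
  (∀ x, x ∉ S → φ x = ∞) ∧ ∀ x, φ (τ x) = OnePoint.map (fun y => y ^ q) (φ x)

end systems

/-- the set of equivariant systems on `S` -/
def SysSet (Ω : Type) [Field Ω] (q : ℕ) {V : Type} (τ : Equiv.Perm V) (S : Finset V) :
    Set (V → V → V → V → OnePoint Ω) :=
  {L | IsSys S L ∧ Equi q τ L}

/-- the `q`-power map on the projective line -/
def fr {Ω : Type} [Field Ω] (q : ℕ) (x : OnePoint Ω) : OnePoint Ω := OnePoint.map (fun y => y ^ q) x

/-- the labels `x : R` with `some x ∈ S` and `φ (some x) = α` -/
def blk {Ω R : Type} [Fintype R] (S : Finset (Option R)) (φ : Option R → OnePoint Ω)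
    (α : OnePoint Ω) : Finset R :=
  Finset.univ.filter (fun x => Option.some x ∈ S ∧ φ (Option.some x) = α)

/-- the values of `φ` on the labels in `R` -/
abbrev Val {Ω R : Type} (S : Finset (Option R)) (φ : Option R → OnePoint Ω) : Type :=
  {α : OnePoint Ω // ∃ x : R, Option.some x ∈ S ∧ φ (Option.some x) = α}

/-- all labels -/
def allS (R : Type) [Fintype R] : Finset (Option R) := Finset.univ.map Function.Embedding.some

/-- the system of coordinates of a system of cross ratios -/
def sysOf {Ω R : Type} [Field Ω] (lam : R → R → R → R → OnePoint Ω) :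
    Option R → Option R → Option R → Option R → OnePoint Ω
  | Option.some i, Option.some j, Option.some k, Option.some l =>
      if Dist3 i j k then
        (if l = i then ((0 : Ω) : OnePoint Ω) else if l = j then ∞ else
          if l = k then ((1 : Ω) : OnePoint Ω) else lam i j k l)
      else ∞
  | _, _, _, _ => ∞

/-- the number of rooted systems -/
def Kc (Ω : Type) [Field Ω] (q : ℕ) {R : Type} [Fintype R] (σ : Equiv.Perm R) (J : Finset R) : ℕ :=
  (SysSet Ω q (Equiv.optionCongr σ) (Finset.insertNone J)).ncard

/-- the systems with a block containing exactly one half of the labels -/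
def HalfSet (Ω : Type) [Field Ω] (q : ℕ) {R : Type} [Fintype R] (τ : Equiv.Perm R) :
    Set (Option R → Option R → Option R → Option R → OnePoint Ω) :=
  {L | L ∈ SysSet Ω q (Equiv.optionCongr τ) (allS R) ∧
    ∃ i ∈ allS R, ∃ j ∈ allS R, ∃ k ∈ allS R, Dist3 i j k ∧ ∃ a ∈ allS R,
      2 * ((allS R).filter (fun x => L i j k x = L i j k a)).card = Fintype.card R}

/-- equivariant maps to the projective line -/
def EMaps (Ω : Type) [Field Ω] (q : ℕ) {P : Type} (σ : Equiv.Perm P) : Set (P → OnePoint Ω) :=
  {ψ | ∀ x, ψ (σ x) = OnePoint.map (fun y => y ^ q) (ψ x)}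

/-! ### forests -/

section forests

variable {R : Type} [Fintype R]

/-- blocks of `m`: singletons and sets with `m A ≠ 0` -/
def IsBlk (m : Finset R → ℕ) (A : Finset R) : Prop := m A ≠ 0 ∨ A.card = 1

/-- the maximal blocks of `m` contained in `J` -/
def roots (m : Finset R → ℕ) (J : Finset R) : Finset (Finset R) :=
  J.powerset.filter (fun A => IsBlk m A ∧ ∀ B ⊆ J, IsBlk m B → A ⊆ B → B = A)

/-- the maximal blocks of `m` strictly contained in `A` -/
def childs (m : Finset R → ℕ) (A : Finset R) : Finset (Finset R) :=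
  A.powerset.filter (fun B => B ≠ A ∧ IsBlk m B ∧ ∀ C, C ⊆ A → C ≠ A → IsBlk m C → B ⊆ C → C = B)

/-- `m` is a forest on `J`: the sets `A` with `m A ≠ 0` are contained in `J` and pairwise nested or
disjoint, and `1 ≤ m A ≤ (number of children of A) - 2` for them. -/
structure IsForest (J : Finset R) (m : Finset R → ℕ) : Prop where
  supp : ∀ A, m A ≠ 0 → A ⊆ J
  laminar : ∀ A B, m A ≠ 0 → m B ≠ 0 → A ⊆ B ∨ B ⊆ A ∨ Disjoint A B
  bound : ∀ A, m A ≠ 0 → m A + 2 ≤ (childs m A).card

/-- the degree of a forest -/
def deg (m : Finset R → ℕ) : ℕ := ∑ A, m A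

/-- `m` is invariant under the permutation `σ` -/
def Inv (σ : Equiv.Perm R) (m : Finset R → ℕ) : Prop := ∀ A, m (A.map σ.toEmbedding) = m A

/-- the invariant forests on `J` -/
def forests (σ : Equiv.Perm R) (J : Finset R) : Finset (Finset R → ℕ) :=
  (Fintype.piFinset fun A : Finset R => Finset.range (A.card + 1)).filter
    (fun m => IsForest J m ∧ Inv σ m)

end forests

/-- `q` is a power of the characteristic and the ground field `Ω` is algebraically closed. -/
structure Setup (Ω : Type) [Field Ω] (q : ℕ) : Prop where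
  closed : IsAlgClosed Ω
  power : ∃ p e : ℕ, p.Prime ∧ CharP Ω p ∧ 1 ≤ e ∧ q = p ^ e

/-- **The formula for rooted systems.** -/
def KFormula (Ω : Type) [Field Ω] (q : ℕ) {R : Type} [Fintype R]
    (σ : Equiv.Perm R) (J : Finset R) : Prop :=
  (SysSet Ω q (Equiv.optionCongr σ) (Finset.insertNone J)).Finite ∧
  (SysSet Ω q (Equiv.optionCongr σ) (Finset.insertNone J)).ncard = ∑ m ∈ forests σ J, q ^ deg m

/-! ### centre spaces -/

section centre

variable {P : Type} [Fintype P]

/-- total weight of a set of blocks -/
def wt (w : P → ℕ) (S : Finset P) : ℕ := ∑ x ∈ S, w x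

/-- `1 + X + ... + X^(k-1)` -/
def geo (k : ℕ) : ℤ[X] := ∑ i ∈ Finset.range k, X ^ i

/-- sets of blocks stable under `σ` -/
def stab (σ : Equiv.Perm P) : Finset (Finset P) :=
  Finset.univ.filter (fun S => S.map σ.toEmbedding = S)

/-- sets of blocks mapped to their complement by `σ` -/
def anti (σ : Equiv.Perm P) : Finset (Finset P) :=
  Finset.univ.filter (fun S => S.map σ.toEmbedding = Sᶜ)

/-- Twice the number of equivariant maps from the blocks to the projective line all of whose fibres
have less than half of the total weight, as a polynomial in the number of elements of the field. -/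
def numV (σ : Equiv.Perm P) (w : P → ℕ) : ℤ[X] :=
  2 * ∑ S ∈ stab σ, X ^ S.card
    - 2 * (X + 1) * ∑ S ∈ (stab σ).filter (fun S => wt w Finset.univ ≤ 2 * wt w S),
        X ^ (Fintype.card P - S.card)
    + (X ^ 2 + X) * (((stab σ).filter (fun S => 2 * wt w S = wt w Finset.univ)).card : ℤ[X])
    - (X ^ 2 - X) * (((anti σ).filter (fun S => 2 * wt w S = wt w Finset.univ)).card : ℤ[X])

/-- Twice the contribution of the curves with a node splitting the weight into two halves. -/
def exc (σ : Equiv.Perm P) (w : P → ℕ) : ℤ[X] :=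
  ∑ S ∈ (stab σ).filter (fun S => 2 * wt w S = wt w Finset.univ),
      geo (S.card - 1) * geo (Fintype.card P - S.card - 1)
    + ∑ S ∈ (anti σ).filter (fun S => 2 * wt w S = wt w Finset.univ),
      (geo (S.card - 1)).comp (X ^ 2)

end centre

section rootcontrib

variable {R : Type} [Fintype R]

omit [Fintype R] in
theorem isBlk_map {τ : Equiv.Perm R} {m : Finset R → ℕ} (hm : Inv τ m) (A : Finset R) :
    IsBlk m (A.map τ.toEmbedding) ↔ IsBlk m A := by
  unfold IsBlk
  rw [hm A, Finset.card_map]

omit [Fintype R] in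
theorem mem_roots_map {σ : Equiv.Perm R} {m : Finset R → ℕ} {J : Finset R} (hm : Inv σ m)
    (hJ : J.map σ.toEmbedding = J) (A : Finset R) :
    A ∈ roots m J ↔ A.map σ.toEmbedding ∈ roots m J := by
  unfold roots
  have hsub : ∀ B : Finset R, B.map σ.toEmbedding ⊆ J ↔ B ⊆ J := fun B => by
    conv_lhs => rw [← hJ]
    exact Finset.map_subset_map
  simp only [Finset.mem_filter, Finset.mem_powerset]
  rw [isBlk_map hm, hsub]
  refine and_congr_right fun _ => and_congr_right fun _ =>
    ⟨fun h B hBJ hB hAB => ?_, fun h B hBJ hB hAB => ?_⟩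
  · have h1 : B = (B.map σ.symm.toEmbedding).map σ.toEmbedding := by
      ext x; simp
    have h2 : IsBlk m (B.map σ.symm.toEmbedding) := by
      rw [← isBlk_map hm, ← h1]; exact hB
    have h3 : A ⊆ B.map σ.symm.toEmbedding := by
      intro x hx
      have := hAB (Finset.mem_map_of_mem σ.toEmbedding hx)
      simp only [Finset.mem_map_equiv, Equiv.symm_symm]
      simpa using this
    have h4 : B.map σ.symm.toEmbedding ⊆ J := by
      rw [← hsub, ← h1]; exact hBJ
    rw [h1, h _ h4 h2 h3]
  · have h1 := h (B.map σ.toEmbedding) ((hsub B).mpr hBJ) (by rw [isBlk_map hm]; exact hB)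
      (Finset.map_subset_map.mpr hAB)
    exact Finset.map_injective σ.toEmbedding h1

/-- a permutation preserving the forest `m` on `J` permutes the roots of `m` -/
def rootPerm (σ : Equiv.Perm R) (m : Finset R → ℕ) (J : Finset R) (hm : Inv σ m)
    (hJ : J.map σ.toEmbedding = J) : Equiv.Perm {A : Finset R // A ∈ roots m J} :=
  Equiv.Perm.subtypePerm (Equiv.finsetCongr σ : Equiv.Perm (Finset R)) (fun A => by
    rw [Equiv.finsetCongr_apply]; exact (mem_roots_map hm hJ A).symm)

omit [Fintype R] in
theorem rootPerm_coe (σ : Equiv.Perm R) (m : Finset R → ℕ) (J : Finset R) (hm : Inv σ m)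
    (hJ : J.map σ.toEmbedding = J) (A : {A : Finset R // A ∈ roots m J}) :
    ((rootPerm σ m J hm hJ A : {A : Finset R // A ∈ roots m J}) : Finset R)
      = A.1.map σ.toEmbedding := rfl

theorem univ_stable (τ : Equiv.Perm R) :
    (Finset.univ : Finset R).map τ.toEmbedding = Finset.univ := Finset.map_univ_equiv τ

/-- the contribution of the forest `m`, component part -/
def contribV (τ : Equiv.Perm R) (m : Finset R → ℕ) : ℤ[X] :=
  if hm : Inv τ m then numV (rootPerm τ m Finset.univ hm (univ_stable τ)) (fun A => A.1.card) else 0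

/-- the contribution of the forest `m`, node part -/
def contribE (τ : Equiv.Perm R) (m : Finset R → ℕ) : ℤ[X] :=
  if hm : Inv τ m then exc (rootPerm τ m Finset.univ hm (univ_stable τ)) (fun A => A.1.card) else 0

/-- all roots of `m` have less than half of the labels -/
def Small (m : Finset R → ℕ) : Prop :=
  ∀ A ∈ roots m Finset.univ, 2 * A.card < Fintype.card R

end rootcontrib

/-! ### subsets of a set with a group action -/

section action

variable {H : Type} [Group H] {P : Type} [Fintype P] [MulAction H P]

/-- the permutation of `P` defined by `g` -/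
abbrev pm (P : Type) [MulAction H P] (g : H) : Equiv.Perm P := MulAction.toPerm g

/-- `U` is stable under `H` -/
def HStable (H : Type) [Group H] {P : Type} [MulAction H P] (U : Finset P) : Prop :=
  ∀ (g : H), ∀ x, x ∈ U ↔ g • x ∈ U

/-- subsets of `U` fixed by `g` -/
def fx (U : Finset P) (g : H) : Finset (Finset P) :=
  U.powerset.filter (fun S => S.map (pm P g).toEmbedding = S)

/-- subsets of `U` mapped to their complement in `U` by `g` -/
def ax (U : Finset P) (g : H) : Finset (Finset P) :=
  U.powerset.filter (fun S => S.map (pm P g).toEmbedding = U \ S)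

/-- the number of `a`-subsets of `U` fixed by `g` -/
def Mx (U : Finset P) (a : ℕ) (g : H) : ℤ := (((fx U g).filter (fun S => S.card = a)).card : ℤ)

/-- the number of subsets of `U` mapped to their complement -/
def Ax (U : Finset P) (g : H) : ℤ := ((ax U g).card : ℤ)

/-- `(1+X)^U` -/
def Fx (U : Finset P) (g : H) : ℤ[X] := ∑ S ∈ fx U g, X ^ S.card

/-- the union of a list of sets -/
def uni {P : Type} : List (Finset P) → Finset P
  | [] => ∅
  | U :: l => U ∪ uni l

/-- the list consists of non-empty `H`-stable pairwise disjoint sets -/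
structure GoodList (H : Type) [Group H] {P : Type} [Fintype P] [MulAction H P]
    (l : List (Finset P)) : Prop where
  stable : ∀ U ∈ l, HStable H U
  nonempty : ∀ U ∈ l, U.Nonempty
  disj : l.Pairwise Disjoint

/-- lexicographic sign of `S` (first the head of the list): negative, zero or positive according to
the first `U` in the list in which `S` does not contain exactly half of the elements. -/
def lexs {P : Type} : List (Finset P) → Finset P → ℤ
  | [], _ => 0
  | U :: l, S => if 2 * (S ∩ U).card = U.card then lexs l S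
      else 2 * ((S ∩ U).card : ℤ) - (U.card : ℤ)

/-- sum over the short sets of `X^|S|` -/
def Lam (l : List (Finset P)) (g : H) : ℤ[X] :=
  ∑ S ∈ (fx (uni l) g).filter (fun S => lexs l S < 0), X ^ S.card

/-- numerator of the centre space of the lexicographic order -/
def numL (l : List (Finset P)) (g : H) : ℤ[X] :=
  ∑ S ∈ (fx (uni l) g).filter (fun S => lexs l S < 0),
    (X ^ ((uni l).card - S.card) - X ^ (S.card + 1))

/-- the number of perfect halves fixed by `g` -/
def Tf (l : List (Finset P)) (g : H) : ℤ := (((fx (uni l) g).filter (fun S => lexs l S = 0)).card : ℤ)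

/-- the number of perfect halves mapped to their complement by `g` -/
def Ta (l : List (Finset P)) (g : H) : ℤ := (((ax (uni l) g).filter (fun S => lexs l S = 0)).card : ℤ)

/-- numerator of an abstract centre space: `s S < 0` means that `S` is short -/
def numS (s : Finset P → ℤ) (g : H) : ℤ[X] :=
  ∑ S ∈ (fx (Finset.univ : Finset P) g).filter (fun S => s S < 0),
    (X ^ (Fintype.card P - S.card) - X ^ (S.card + 1))

/-- the classes of equal weight, in decreasing order of the weight -/
def classes (w : P → ℕ) : List (Finset P) :=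
  ((Finset.univ.image w).sort (fun a b => b ≤ a)).map (fun v => Finset.univ.filter (fun x => w x = v))

/-- the sign function at the threshold `θ`, ties broken lexicographically -/
def sgW (w : P → ℕ) (θ : ℕ) (S : Finset P) : ℤ :=
  if (∑ x, if θ < w x then ((w x : ℤ) - θ) * (if x ∈ S then 1 else -1) else 0) = 0 then
    lexs (classes w) S
  else ∑ x, if θ < w x then ((w x : ℤ) - θ) * (if x ∈ S then 1 else -1) else 0

end action

end Pool.Agent.Mbar
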