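import Mathlib
import Pool.Agent.Mbar.Defs

/-! # Cross ratios satisfy the compatibility of coordinates -/

noncomputable section

namespace Pool.Agent.Mbar

open OnePoint Polynomial Matrix

open scoped Classical

namespace CRS1aux

section pgl

variable {Ω : Type} [Field Ω]

@[simp] theorem hc_infty : hc (∞ : OnePoint Ω) = (1, 0) := rfl
@[simp] theorem hc_coe (x : Ω) : hc ((x : Ω) : OnePoint Ω) = (x, 1) := rfl

/-- `x ↦ 1 / x` -/
def gInv : GL (Fin 2) Ω := GeneralLinearGroup.mkOfDetNeZero !![0, 1; 1, 0] (by simp)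

/-- `x ↦ 1 - x` -/
def gOne : GL (Fin 2) Ω := GeneralLinearGroup.mkOfDetNeZero !![-1, 1; 0, 1] (by simp)

/-- `z ↦ z / x` -/
def gScale (x : Ω) (hx : x ≠ 0) : GL (Fin 2) Ω :=
  GeneralLinearGroup.mkOfDetNeZero !![1, 0; 0, x] (by simpa using hx)

theorem gInv_infty : (gInv : GL (Fin 2) Ω) • (∞ : OnePoint Ω) = ((0 : Ω) : OnePoint Ω) := by
  rw [smul_infty_eq_ite]
  simp [gInv, GeneralLinearGroup.mkOfDetNeZero]

theorem gInv_coe (x : Ω) : (gInv : GL (Fin 2) Ω) • ((x : Ω) : OnePoint Ω) =
    if x = 0 then ∞ else ((x⁻¹ : Ω) : OnePoint Ω) := by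
  rw [smul_some_eq_ite]
  simp [gInv, GeneralLinearGroup.mkOfDetNeZero]

theorem gOne_infty : (gOne : GL (Fin 2) Ω) • (∞ : OnePoint Ω) = ∞ := by
  rw [smul_infty_eq_ite]
  simp [gOne, GeneralLinearGroup.mkOfDetNeZero]

theorem gOne_coe (x : Ω) : (gOne : GL (Fin 2) Ω) • ((x : Ω) : OnePoint Ω) = ((1 - x : Ω) : OnePoint Ω) := by
  rw [smul_some_eq_ite]
  simp [gOne, GeneralLinearGroup.mkOfDetNeZero]
  ring_nf

theorem gScale_infty (x : Ω) (hx : x ≠ 0) : gScale x hx • (∞ : OnePoint Ω) = ∞ := by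
  rw [smul_infty_eq_ite]
  simp [gScale, GeneralLinearGroup.mkOfDetNeZero]

theorem gScale_coe (x : Ω) (hx : x ≠ 0) (z : Ω) :
    gScale x hx • ((z : Ω) : OnePoint Ω) = ((z / x : Ω) : OnePoint Ω) := by
  rw [smul_some_eq_ite]
  simp [gScale, GeneralLinearGroup.mkOfDetNeZero, hx]

theorem inv_spec {x y : OnePoint Ω} (h : (hc y).1 * (hc x).1 = (hc y).2 * (hc x).2) :
    y = (gInv : GL (Fin 2) Ω) • x := by
  induction x using OnePoint.rec with
  | infty =>
    induction y using OnePoint.rec with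
    | infty => simp at h
    | coe y => rw [gInv_infty]; simp at h; rw [h]
  | coe x =>
    induction y using OnePoint.rec with
    | infty => rw [gInv_coe, if_pos]; simpa using h
    | coe y =>
      have h' : y * x = 1 := by simpa using h
      have hx : x ≠ 0 := by rintro rfl; simp at h'
      rw [gInv_coe, if_neg hx]
      rw [eq_inv_of_mul_eq_one_left h']

theorem one_spec {x y : OnePoint Ω} (h : (hc y).1 * (hc x).2 = (hc y).2 * ((hc x).2 - (hc x).1)) :
    y = (gOne : GL (Fin 2) Ω) • x := by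
  induction x using OnePoint.rec with
  | infty =>
    induction y using OnePoint.rec with
    | infty => rw [gOne_infty]
    | coe y => simp at h
  | coe x =>
    induction y using OnePoint.rec with
    | infty => simp at h
    | coe y =>
      have h' : y = 1 - x := by simpa using h
      rw [gOne_coe, h']

theorem scale_spec {x : Ω} (hx : x ≠ 0) {y z : OnePoint Ω}
    (h : x * (hc y).1 * (hc z).2 = 1 * (hc y).2 * (hc z).1) : y = gScale x hx • z := by
  induction z using OnePoint.rec with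
  | infty =>
    induction y using OnePoint.rec with
    | infty => rw [gScale_infty]
    | coe y => simp at h
  | coe z =>
    induction y using OnePoint.rec with
    | infty => simp at h; exact absurd h hx
    | coe y =>
      have h' : x * y = z := by simpa using h
      rw [gScale_coe, ← h', mul_div_cancel_left₀ _ hx]

end pgl

section sys

variable {Ω : Type} [Field Ω] {R : Type} [Fintype R] {lam : R → R → R → R → OnePoint Ω}

theorem mem_allS (x : R) : Option.some x ∈ allS R := by simp [allS]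

theorem mem_allS_iff {x : Option R} : x ∈ allS R ↔ ∃ y : R, Option.some y = x := by simp [allS]

theorem sys_some {i j k : R} (h : Dist3 i j k) (l : R) :
    sysOf lam (Option.some i) (Option.some j) (Option.some k) (Option.some l) =
      (if l = i then ((0 : Ω) : OnePoint Ω) else if l = j then ∞ else
          if l = k then ((1 : Ω) : OnePoint Ω) else lam i j k l) := by
  simp [sysOf, h]

theorem sys_zero {i j k : R} (h : Dist3 i j k) :
    sysOf lam (Option.some i) (Option.some j) (Option.some k) (Option.some i) = ((0 : Ω) : OnePoint Ω) := by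
  rw [sys_some h, if_pos rfl]

theorem sys_infty {i j k : R} (h : Dist3 i j k) :
    sysOf lam (Option.some i) (Option.some j) (Option.some k) (Option.some j) = (∞ : OnePoint Ω) := by
  rw [sys_some h, if_neg (Ne.symm h.1), if_pos rfl]

theorem sys_one {i j k : R} (h : Dist3 i j k) :
    sysOf lam (Option.some i) (Option.some j) (Option.some k) (Option.some k) = ((1 : Ω) : OnePoint Ω) := by
  rw [sys_some h, if_neg (Ne.symm h.2.1), if_neg (Ne.symm h.2.2), if_pos rfl]

theorem sys_out {i j k l : R} (h : Dist3 i j k) (hl : Out l i j k) :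
    sysOf lam (Option.some i) (Option.some j) (Option.some k) (Option.some l) = lam i j k l := by
  rw [sys_some h, if_neg hl.1, if_neg hl.2.1, if_neg hl.2.2]

/-- similarity of the coordinates -/
def SimR (φ ψ : Option R → OnePoint Ω) : Prop :=
  ∃ g : GL (Fin 2) Ω, ∀ l : R, ψ (Option.some l) = g • φ (Option.some l)

theorem SimR.trans {φ ψ χ : Option R → OnePoint Ω} (h : SimR φ ψ) (h' : SimR ψ χ) : SimR φ χ := by
  obtain ⟨g, hg⟩ := h
  obtain ⟨k, hk⟩ := h'
  exact ⟨k * g, fun l => by rw [hk l, hg l, mul_smul]⟩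

theorem SimR.symm {φ ψ : Option R → OnePoint Ω} (h : SimR φ ψ) : SimR ψ φ := by
  obtain ⟨g, hg⟩ := h
  exact ⟨g⁻¹, fun l => by rw [hg l, inv_smul_smul]⟩

theorem SimR.eq_iff {φ ψ : Option R → OnePoint Ω} (h : SimR φ ψ) (x y : R) :
    φ (Option.some x) = φ (Option.some y) ↔ ψ (Option.some x) = ψ (Option.some y) := by
  obtain ⟨g, hg⟩ := h
  rw [hg x, hg y]
  exact (MulAction.injective g).eq_iff.symm

theorem perm12 (hlam : IsCR lam) {i j k : R} (h : Dist3 i j k) :
    SimR (sysOf lam (Option.some i) (Option.some j) (Option.some k)) (sysOf lam (Option.some j) (Option.some i) (Option.some k)) := by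
  have h' : Dist3 j i k := ⟨h.1.symm, h.2.2, h.2.1⟩
  refine ⟨gInv, fun l => ?_⟩
  by_cases hi : l = i
  · subst hi
    rw [sys_zero h, sys_infty h', gInv_coe, if_pos rfl]
  by_cases hj : l = j
  · subst hj
    rw [sys_infty h, sys_zero h', gInv_infty]
  by_cases hk : l = k
  · subst hk
    rw [sys_one h, sys_one h', gInv_coe, if_neg one_ne_zero, inv_one]
  · rw [sys_out h ⟨hi, hj, hk⟩, sys_out h' ⟨hj, hi, hk⟩]
    exact inv_spec (hlam.inv i j k l h ⟨hi, hj, hk⟩)

theorem perm13 (hlam : IsCR lam) {i j k : R} (h : Dist3 i j k) :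
    SimR (sysOf lam (Option.some i) (Option.some j) (Option.some k)) (sysOf lam (Option.some k) (Option.some j) (Option.some i)) := by
  have h' : Dist3 k j i := ⟨h.2.2.symm, h.2.1.symm, h.1.symm⟩
  refine ⟨gOne, fun l => ?_⟩
  by_cases hi : l = i
  · subst hi
    rw [sys_zero h, sys_one h', gOne_coe, sub_zero]
  by_cases hj : l = j
  · subst hj
    rw [sys_infty h, sys_infty h', gOne_infty]
  by_cases hk : l = k
  · subst hk
    rw [sys_one h, sys_zero h', gOne_coe, sub_self]
  · rw [sys_out h ⟨hi, hj, hk⟩, sys_out h' ⟨hk, hj, hi⟩]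
    exact one_spec (hlam.one_sub i j k l h ⟨hi, hj, hk⟩)

theorem perm23 (hlam : IsCR lam) {i j k : R} (h : Dist3 i j k) :
    SimR (sysOf lam (Option.some i) (Option.some j) (Option.some k)) (sysOf lam (Option.some i) (Option.some k) (Option.some j)) := by
  have h1 : Dist3 k j i := ⟨h.2.2.symm, h.2.1.symm, h.1.symm⟩
  have h2 : Dist3 j k i := ⟨h.2.2, h.1.symm, h.2.1.symm⟩
  exact ((perm13 hlam h).trans (perm12 hlam h1)).trans (perm13 hlam h2)

theorem repl3 (hlam : IsCR lam) {i j k l : R} (h : Dist3 i j k)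
    (h1 : sysOf lam (Option.some i) (Option.some j) (Option.some k) (Option.some l) ≠
      sysOf lam (Option.some i) (Option.some j) (Option.some k) (Option.some i))
    (h2 : sysOf lam (Option.some i) (Option.some j) (Option.some k) (Option.some l) ≠
      sysOf lam (Option.some i) (Option.some j) (Option.some k) (Option.some j)) :
    SimR (sysOf lam (Option.some i) (Option.some j) (Option.some k)) (sysOf lam (Option.some i) (Option.some j) (Option.some l)) := by
  have hli : l ≠ i := fun e => h1 (by rw [e])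
  have hlj : l ≠ j := fun e => h2 (by rw [e])
  by_cases hlk : l = k
  · subst hlk
    exact ⟨1, fun m => (one_smul _ _).symm⟩
  have h' : Dist3 i j l := ⟨h.1, hli.symm, hlj.symm⟩
  have hout : Out l i j k := ⟨hli, hlj, hlk⟩
  rw [sys_out h hout, sys_zero h] at h1
  rw [sys_out h hout, sys_infty h] at h2
  obtain ⟨x, hx⟩ : ∃ x : Ω, lam i j k l = ((x : Ω) : OnePoint Ω) := by
    induction hl : lam i j k l using OnePoint.rec with
    | infty => exact absurd hl h2
    | coe x => exact ⟨x, rfl⟩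
  have hx0 : x ≠ 0 := by rintro rfl; exact h1 hx
  refine ⟨gScale x hx0, fun m => ?_⟩
  by_cases hi : m = i
  · subst hi
    rw [sys_zero h, sys_zero h', gScale_coe, zero_div]
  by_cases hj : m = j
  · subst hj
    rw [sys_infty h, sys_infty h', gScale_infty]
  by_cases hk : m = k
  · subst hk
    rw [sys_one h, sys_out h' ⟨hi, hj, Ne.symm hlk⟩, gScale_coe]
    have e := inv_spec (hlam.swap i j m l h hout)
    rw [e, hx, gInv_coe, if_neg hx0, one_div]
  by_cases hl : m = l
  · subst hl
    rw [sys_one h', sys_out h ⟨hi, hj, hk⟩, hx, gScale_coe, div_self hx0]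
  · rw [sys_out h ⟨hi, hj, hk⟩, sys_out h' ⟨hi, hj, hl⟩]
    have e := hlam.mul i j k l m h hout ⟨hi, hj, hk⟩ hl
    rw [hx] at e
    exact scale_spec hx0 e

theorem step (hlam : IsCR lam) {φ : Option R → OnePoint Ω} {i j k l : R} (h : Dist3 i j k)
    (hs : SimR φ (sysOf lam (Option.some i) (Option.some j) (Option.some k)))
    (h1 : φ (Option.some l) ≠ φ (Option.some i)) (h2 : φ (Option.some l) ≠ φ (Option.some j)) :
    SimR φ (sysOf lam (Option.some i) (Option.some j) (Option.some l)) ∧ Dist3 i j l := by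
  refine ⟨hs.trans (repl3 hlam h ?_ ?_), h.1, fun e => h1 (by rw [e]), fun e => h2 (by rw [e])⟩
  · rwa [Ne, ← hs.eq_iff]
  · rwa [Ne, ← hs.eq_iff]

theorem reach (hlam : IsCR lam) {φ : Option R → OnePoint Ω} {i j k : R} (h : Dist3 i j k)
    (hs : SimR φ (sysOf lam (Option.some i) (Option.some j) (Option.some k))) {a b c : R}
    (habc : Dist3 (φ (Option.some a)) (φ (Option.some b)) (φ (Option.some c))) :
    SimR φ (sysOf lam (Option.some a) (Option.some b) (Option.some c)) := by
  -- the values at `i, j, k` are distinct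
  have hd : Dist3 (φ (Option.some i)) (φ (Option.some j)) (φ (Option.some k)) := by
    have e1 := hs.eq_iff i j
    have e2 := hs.eq_iff i k
    have e3 := hs.eq_iff j k
    rw [sys_zero h, sys_infty h] at e1
    rw [sys_zero h, sys_one h] at e2
    rw [sys_infty h, sys_one h] at e3
    refine ⟨fun e => OnePoint.coe_ne_infty 0 (e1.1 e), fun e => ?_, fun e => ?_⟩
    · exact zero_ne_one (OnePoint.coe_injective (e2.1 e))
    · exact OnePoint.coe_ne_infty 1 (e3.1 e).symm
  have h231 : Dist3 j k i := ⟨h.2.2, h.1.symm, h.2.1.symm⟩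
  have h132 : Dist3 i k j := ⟨h.2.1, h.1, h.2.2.symm⟩
  -- first step
  obtain ⟨u, v, hua, hva, huv, hsa⟩ : ∃ u v : R, φ (Option.some a) ≠ φ (Option.some u) ∧
      φ (Option.some a) ≠ φ (Option.some v) ∧ φ (Option.some u) ≠ φ (Option.some v) ∧
      (SimR φ (sysOf lam (Option.some u) (Option.some v) (Option.some a)) ∧ Dist3 u v a) := by
    by_cases e1 : φ (Option.some a) = φ (Option.some i)
    · have n1 : φ (Option.some a) ≠ φ (Option.some j) := by rw [e1]; exact hd.1
      have n2 : φ (Option.some a) ≠ φ (Option.some k) := by rw [e1]; exact hd.2.1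
      exact ⟨j, k, n1, n2, hd.2.2, step hlam h231
        ((hs.trans (perm12 hlam h)).trans (perm23 hlam ⟨h.1.symm, h.2.2, h.2.1⟩)) n1 n2⟩
    · by_cases e2 : φ (Option.some a) = φ (Option.some j)
      · have n2 : φ (Option.some a) ≠ φ (Option.some k) := by rw [e2]; exact hd.2.2
        exact ⟨i, k, e1, n2, hd.2.1, step hlam h132 (hs.trans (perm23 hlam h)) e1 n2⟩
      · exact ⟨i, j, e1, e2, hd.1, step hlam h hs e1 e2⟩
  obtain ⟨hsa, hda⟩ := hsa
  -- second step
  have hdau : Dist3 a u v := ⟨hda.2.1.symm, hda.2.2.symm, hda.1⟩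
  have hsau : SimR φ (sysOf lam (Option.some a) (Option.some u) (Option.some v)) :=
    (hsa.trans (perm13 hlam hda)).trans (perm23 hlam ⟨hda.2.2.symm, hda.2.1.symm, hda.1.symm⟩)
  obtain ⟨w, hwa, hwb, hsb, hdb⟩ : ∃ w : R, φ (Option.some a) ≠ φ (Option.some w) ∧ φ (Option.some b) ≠ φ (Option.some w) ∧
      SimR φ (sysOf lam (Option.some a) (Option.some w) (Option.some b)) ∧ Dist3 a w b := by
    by_cases e1 : φ (Option.some b) = φ (Option.some u)
    · have n1 : φ (Option.some b) ≠ φ (Option.some v) := by rw [e1]; exact huv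
      have hdav : Dist3 a v u := ⟨hdau.2.1, hdau.1, hdau.2.2.symm⟩
      obtain ⟨q1, q2⟩ := step hlam hdav (hsau.trans (perm23 hlam hdau)) habc.1.symm n1
      exact ⟨v, hva, n1, q1, q2⟩
    · obtain ⟨q1, q2⟩ := step hlam hdau hsau habc.1.symm e1
      exact ⟨u, hua, e1, q1, q2⟩
  -- third step
  have hdab : Dist3 a b w := ⟨hdb.2.1, hdb.1, hdb.2.2.symm⟩
  exact (step hlam hdab (hsb.trans (perm23 hlam hdb)) habc.2.1.symm habc.2.2.symm).1

end sys

end CRS1aux

open CRS1aux

theorem isSys_sysOf {Ω : Type} [Field Ω] {R : Type} [Fintype R]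
    {lam : R → R → R → R → OnePoint Ω} (h : IsCR lam) : IsSys (allS R) (sysOf lam) where
  junk i j k l hn := by
    rcases i with _ | i
    · rfl
    rcases j with _ | j
    · rfl
    rcases k with _ | k
    · rfl
    rcases l with _ | l
    · rfl
    have hn' : ¬ Dist3 i j k := fun hd => hn ⟨mem_allS i, mem_allS j, mem_allS k, mem_allS l,
      by simpa using hd.1, by simpa using hd.2.1, by simpa using hd.2.2⟩
    simp [sysOf, hn']
  zero i j k hi hj hk hd := by
    obtain ⟨i, rfl⟩ := mem_allS_iff.1 hi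
    obtain ⟨j, rfl⟩ := mem_allS_iff.1 hj
    obtain ⟨k, rfl⟩ := mem_allS_iff.1 hk
    exact sys_zero ⟨by simpa using hd.1, by simpa using hd.2.1, by simpa using hd.2.2⟩
  infty i j k hi hj hk hd := by
    obtain ⟨i, rfl⟩ := mem_allS_iff.1 hi
    obtain ⟨j, rfl⟩ := mem_allS_iff.1 hj
    obtain ⟨k, rfl⟩ := mem_allS_iff.1 hk
    exact sys_infty ⟨by simpa using hd.1, by simpa using hd.2.1, by simpa using hd.2.2⟩
  one i j k hi hj hk hd := by
    obtain ⟨i, rfl⟩ := mem_allS_iff.1 hi
    obtain ⟨j, rfl⟩ := mem_allS_iff.1 hj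
    obtain ⟨k, rfl⟩ := mem_allS_iff.1 hk
    exact sys_one ⟨by simpa using hd.1, by simpa using hd.2.1, by simpa using hd.2.2⟩
  comp i j k hi hj hk hd a b c ha hb hc habc := by
    obtain ⟨i, rfl⟩ := mem_allS_iff.1 hi
    obtain ⟨j, rfl⟩ := mem_allS_iff.1 hj
    obtain ⟨k, rfl⟩ := mem_allS_iff.1 hk
    obtain ⟨a, rfl⟩ := mem_allS_iff.1 ha
    obtain ⟨b, rfl⟩ := mem_allS_iff.1 hb
    obtain ⟨c, rfl⟩ := mem_allS_iff.1 hc
    have hd' : Dist3 i j k := ⟨by simpa using hd.1, by simpa using hd.2.1, by simpa using hd.2.2⟩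
    obtain ⟨g, hg⟩ := reach h hd' (φ := sysOf lam (Option.some i) (Option.some j) (Option.some k))
      ⟨1, fun m => (one_smul _ _).symm⟩ habc
    refine ⟨g, fun l hl => ?_⟩
    obtain ⟨l, rfl⟩ := mem_allS_iff.1 hl
    exact hg l

end Pool.Agent.Mbar
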