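import Mathlib
import Pool.Agent.Mbar.Defs

set_option autoImplicit false

/-! # The projective line and its Frobenius -/

noncomputable section

namespace Pool.Agent.Mbar

open OnePoint Polynomial

open scoped Classical

section ONE

variable {Ω : Type} [Field Ω]

lemma glm_det {a b c d : Ω} (h : a * d - b * c ≠ 0) :
    (!![a, b; c, d] : Matrix (Fin 2) (Fin 2) Ω).det ≠ 0 := by
  rw [Matrix.det_fin_two_of]; exact h

/-- The element of `GL₂` with given entries. -/
def glm (a b c d : Ω) (h : a * d - b * c ≠ 0) : GL (Fin 2) Ω :=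
  Matrix.GeneralLinearGroup.mkOfDetNeZero !![a, b; c, d] (glm_det h)

lemma glm_smul_some (a b c d : Ω) (h : a * d - b * c ≠ 0) (x : Ω) :
    glm a b c d h • (x : OnePoint Ω) =
      if c * x + d = 0 then ∞ else (((a * x + b) / (c * x + d) : Ω) : OnePoint Ω) := by
  rw [OnePoint.smul_some_eq_ite]
  rfl

lemma glm_smul_infty (a b c d : Ω) (h : a * d - b * c ≠ 0) :
    glm a b c d h • (∞ : OnePoint Ω) = if c = 0 then ∞ else ((a / c : Ω) : OnePoint Ω) := by
  rw [OnePoint.smul_infty_eq_ite]
  rfl

/-- the same map, inverse direction -/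
theorem exists_gl' {a b c : OnePoint Ω} (h : Dist3 a b c) :
    ∃ g : GL (Fin 2) Ω, g • a = ((0 : Ω) : OnePoint Ω) ∧ g • b = ∞ ∧
      g • c = ((1 : Ω) : OnePoint Ω) := by
  obtain ⟨hab, hac, hbc⟩ := h
  induction a using OnePoint.rec with
  | infty =>
    induction b using OnePoint.rec with
    | infty => exact absurd rfl hab
    | coe b =>
      induction c using OnePoint.rec with
      | infty => exact absurd rfl hac
      | coe c =>
        have hbc' : b ≠ c := fun e => hbc (by rw [e])
        have h1 : c - b ≠ 0 := sub_ne_zero.mpr (Ne.symm hbc')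
        refine ⟨glm 0 (c - b) 1 (-b) (by
          have : (0 : Ω) * -b - (c - b) * 1 = -(c - b) := by ring
          rw [this]; exact neg_ne_zero.mpr h1), ?_, ?_, ?_⟩
        · rw [glm_smul_infty, if_neg one_ne_zero, zero_div]
        · rw [glm_smul_some, if_pos (by ring)]
        · rw [glm_smul_some, if_neg (by rw [one_mul, ← sub_eq_add_neg]; exact h1)]
          congr 1
          rw [zero_mul, zero_add, one_mul, ← sub_eq_add_neg, div_self h1]
  | coe a =>
    induction b using OnePoint.rec with
    | infty =>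
      induction c using OnePoint.rec with
      | infty => exact absurd rfl hbc
      | coe c =>
        have hac' : a ≠ c := fun e => hac (by rw [e])
        have h1 : c - a ≠ 0 := sub_ne_zero.mpr (Ne.symm hac')
        refine ⟨glm 1 (-a) 0 (c - a) (by simpa using h1), ?_, ?_, ?_⟩
        · rw [glm_smul_some, if_neg (by simpa using h1)]
          congr 1
          simp
        · rw [glm_smul_infty, if_pos rfl]
        · rw [glm_smul_some, if_neg (by simpa using h1)]
          congr 1
          rw [one_mul, ← sub_eq_add_neg, zero_mul, zero_add, div_self h1]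
    | coe b =>
      have hab' : a ≠ b := fun e => hab (by rw [e])
      have h1 : a - b ≠ 0 := sub_ne_zero.mpr hab'
      induction c using OnePoint.rec with
      | infty =>
        refine ⟨glm 1 (-a) 1 (-b) (by
          have : (1 : Ω) * -b - -a * 1 = a - b := by ring
          rw [this]; exact h1), ?_, ?_, ?_⟩
        · rw [glm_smul_some, if_neg (by rw [one_mul, ← sub_eq_add_neg]; exact h1)]
          congr 1
          simp
        · rw [glm_smul_some, if_pos (by ring)]
        · rw [glm_smul_infty, if_neg one_ne_zero, div_one]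
      | coe c =>
        have hac' : a ≠ c := fun e => hac (by rw [e])
        have hbc' : b ≠ c := fun e => hbc (by rw [e])
        have h2 : c - a ≠ 0 := sub_ne_zero.mpr (Ne.symm hac')
        have h3 : c - b ≠ 0 := sub_ne_zero.mpr (Ne.symm hbc')
        have hd : (c - b) * (-b * (c - a)) - -a * (c - b) * (c - a) ≠ 0 := by
          have : (c - b) * (-b * (c - a)) - -a * (c - b) * (c - a) = (c - b) * (c - a) * (a - b) := by
            ring
          rw [this]
          exact mul_ne_zero (mul_ne_zero h3 h2) h1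
        refine ⟨glm (c - b) (-a * (c - b)) (c - a) (-b * (c - a)) hd, ?_, ?_, ?_⟩
        · rw [glm_smul_some, if_neg (by
            have : (c - a) * a + -b * (c - a) = (c - a) * (a - b) := by ring
            rw [this]; exact mul_ne_zero h2 h1)]
          congr 1
          have : (c - b) * a + -a * (c - b) = 0 := by ring
          rw [this, zero_div]
        · rw [glm_smul_some, if_pos (by ring)]
        · have e1 : (c - a) * c + -b * (c - a) = (c - a) * (c - b) := by ring
          rw [glm_smul_some, if_neg (by rw [e1]; exact mul_ne_zero h2 h3), e1]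
          congr 1
          have e2 : (c - b) * c + -a * (c - b) = (c - a) * (c - b) := by ring
          rw [e2, div_self (mul_ne_zero h2 h3)]

theorem exists_gl {a b c : OnePoint Ω} (h : Dist3 a b c) :
    ∃ g : GL (Fin 2) Ω, g • ((0 : Ω) : OnePoint Ω) = a ∧ g • (∞ : OnePoint Ω) = b ∧
      g • ((1 : Ω) : OnePoint Ω) = c := by
  obtain ⟨g, h1, h2, h3⟩ := exists_gl' h
  exact ⟨g⁻¹, by rw [← h1, inv_smul_smul], by rw [← h2, inv_smul_smul],
    by rw [← h3, inv_smul_smul]⟩

theorem gl_inj (g : GL (Fin 2) Ω) : Function.Injective (fun x : OnePoint Ω => g • x) :=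
  MulAction.injective g

lemma gl_triv {m : GL (Fin 2) Ω} (h0 : m • ((0 : Ω) : OnePoint Ω) = ((0 : Ω) : OnePoint Ω))
    (h1 : m • (∞ : OnePoint Ω) = ∞) (h2 : m • ((1 : Ω) : OnePoint Ω) = ((1 : Ω) : OnePoint Ω))
    (x : OnePoint Ω) : m • x = x := by
  have e10 : m 1 0 = 0 := OnePoint.smul_infty_eq_self_iff.mp h1
  rw [OnePoint.smul_some_eq_ite] at h0 h2
  simp only [e10, zero_add, mul_zero, mul_one] at h0 h2
  have e11 : m 1 1 ≠ 0 := by
    intro h
    rw [if_pos h] at h0
    exact OnePoint.infty_ne_coe _ h0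
  rw [if_neg e11, OnePoint.coe_eq_coe] at h0 h2
  have e01 : m 0 1 = 0 := by
    rcases div_eq_zero_iff.mp h0 with h | h
    · exact h
    · exact absurd h e11
  rw [e01, add_zero, div_eq_one_iff_eq e11] at h2
  induction x using OnePoint.rec with
  | infty => exact h1
  | coe x =>
    rw [OnePoint.smul_some_eq_ite, e10, e01, h2]
    simp only [zero_mul, zero_add, add_zero]
    rw [if_neg e11, mul_div_cancel_left₀ _ e11]

theorem gl_ext {g h : GL (Fin 2) Ω} {a b c : OnePoint Ω} (h3 : Dist3 a b c)
    (ha : g • a = h • a) (hb : g • b = h • b) (hc : g • c = h • c) (x : OnePoint Ω) :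
    g • x = h • x := by
  obtain ⟨u, u0, u1, u2⟩ := exists_gl h3
  have key : ∀ y : OnePoint Ω, (u⁻¹ * (h⁻¹ * g) * u) • y = y := by
    apply gl_triv
    · rw [mul_smul, mul_smul, mul_smul, u0, ha, inv_smul_smul, ← u0, inv_smul_smul]
    · rw [mul_smul, mul_smul, mul_smul, u1, hb, inv_smul_smul, ← u1, inv_smul_smul]
    · rw [mul_smul, mul_smul, mul_smul, u2, hc, inv_smul_smul, ← u2, inv_smul_smul]
  have h1 := key (u⁻¹ • x)
  rw [mul_smul, mul_smul, mul_smul, smul_inv_smul] at h1
  have h2 : h⁻¹ • g • x = x := (gl_inj u⁻¹) (by simpa only [mul_smul] using h1)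
  calc g • x = h • h⁻¹ • g • x := by rw [smul_inv_smul]
    _ = h • x := by rw [h2]

theorem fr_bij {q : ℕ} (hs : Setup Ω q) : Function.Bijective (fr (Ω := Ω) q) := by
  obtain ⟨hcl, p, e, hp, hchar, he, rfl⟩ := hs
  have := hcl
  have := hchar
  have : Fact p.Prime := ⟨hp⟩
  have : ExpChar Ω p := ExpChar.prime hp
  have hb : Function.Bijective (fun y : Ω => y ^ p ^ e) := by
    have h1 : (fun y : Ω => y ^ p ^ e) = iterateFrobenius Ω p e := by
      funext y; rw [iterateFrobenius_def]
    rw [h1]
    refine ⟨iterateFrobenius_inj Ω p e, fun y => ?_⟩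
    obtain ⟨z, hz⟩ := IsAlgClosed.exists_pow_nat_eq y (n := p ^ e) (pow_pos hp.pos e)
    exact ⟨z, by rw [iterateFrobenius_def]; exact hz⟩
  constructor
  · intro x y hxy
    induction x using OnePoint.rec with
    | infty =>
      induction y using OnePoint.rec with
      | infty => rfl
      | coe y => exact absurd hxy (by simp [fr])
    | coe x =>
      induction y using OnePoint.rec with
      | infty => exact absurd hxy (by simp [fr])
      | coe y =>
        simp only [fr, OnePoint.map_some, OnePoint.coe_eq_coe] at hxy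
        rw [hb.1 hxy]
  · intro y
    induction y using OnePoint.rec with
    | infty => exact ⟨∞, by simp [fr]⟩
    | coe y =>
      obtain ⟨z, hz⟩ := hb.2 y
      exact ⟨(z : OnePoint Ω), by simpa [fr] using hz⟩

theorem fr_smul {q : ℕ} (hs : Setup Ω q) (g : GL (Fin 2) Ω) :
    ∃ g' : GL (Fin 2) Ω, ∀ x : OnePoint Ω, fr q (g • x) = g' • fr q x := by
  obtain ⟨hcl, p, e, hp, hchar, he, rfl⟩ := hs
  have := hchar
  have : ExpChar Ω p := ExpChar.prime hp
  refine ⟨g.map (iterateFrobenius Ω p e), fun x => ?_⟩
  have h1 := OnePoint.map_smul (iterateFrobenius Ω p e) g x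
  have h2 : ∀ y : OnePoint Ω, OnePoint.map (iterateFrobenius Ω p e) y = fr (p ^ e) y := by
    intro y
    unfold fr
    congr 1
  rw [← h2, ← h2]
  exact h1

theorem fr_iterate {q : ℕ} (d : ℕ) (x : OnePoint Ω) : (fr q)^[d] x = fr (q ^ d) x := by
  induction d with
  | zero =>
    induction x using OnePoint.rec with
    | infty => simp [fr]
    | coe x => simp [fr]
  | succ d ih =>
    rw [Function.iterate_succ_apply', ih]
    induction x using OnePoint.rec with
    | infty => simp [fr]
    | coe x => simp [fr, pow_succ, pow_mul]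

theorem Setup.pow {q : ℕ} (hs : Setup Ω q) {d : ℕ} (hd : 1 ≤ d) : Setup Ω (q ^ d) := by
  obtain ⟨hcl, p, e, hp, hchar, he, rfl⟩ := hs
  exact ⟨hcl, p, e * d, hp, hchar, Nat.mul_pos he hd, by rw [pow_mul]⟩

theorem Setup.one_lt {q : ℕ} (hs : Setup Ω q) : 1 < q := by
  obtain ⟨hcl, p, e, hp, hchar, he, rfl⟩ := hs
  exact Nat.one_lt_pow (by omega) hp.one_lt

theorem card_fixed {q : ℕ} (hs : Setup Ω q) :
    {x : Ω | x ^ q = x}.Finite ∧ {x : Ω | x ^ q = x}.ncard = q := by
  have hq := hs.one_lt
  obtain ⟨hcl, p, e, hp, hchar, he, hpe⟩ := hs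
  have := hcl
  have := hchar
  set P : Polynomial Ω := X ^ q - X with hP
  have hdeg : P.natDegree = q := FiniteField.X_pow_card_sub_X_natDegree_eq Ω hq
  have hP0 : P ≠ 0 := FiniteField.X_pow_card_sub_X_ne_zero Ω hq
  have hsep : P.Separable := galois_poly_separable p q (by rw [hpe]; exact dvd_pow_self p (by omega))
  have hset : {x : Ω | x ^ q = x} = (P.roots.toFinset : Set Ω) := by
    ext x
    rw [Finset.mem_coe, Multiset.mem_toFinset, mem_roots hP0, IsRoot.def, hP]
    simp only [Set.mem_ofPred_eq, eval_sub, eval_pow, eval_X, sub_eq_zero]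
  rw [hset]
  refine ⟨Finset.finite_toSet _, ?_⟩
  rw [Set.ncard_coe_finset, Multiset.toFinset_card_of_nodup (nodup_roots hsep),
    IsAlgClosed.card_roots_eq_natDegree, hdeg]

end ONE

end Pool.Agent.Mbar
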