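import Mathlib
import Pool.Agent.Mbar.Defs
import Pool.Agent.Mbar.ONE

/-! # Basic lemmas on systems of coordinates -/

noncomputable section

namespace Pool.Agent.Mbar

open OnePoint Polynomial

open scoped Classical

section DLEM

variable {Ω : Type} [Field Ω] {V : Type} {S : Finset V} {L : V → V → V → V → OnePoint Ω}

theorem sim_refl (φ : V → OnePoint Ω) : Sim S φ φ :=
  ⟨1, fun l _ => (one_smul _ (φ l)).symm⟩

theorem sim_symm {φ ψ : V → OnePoint Ω} (h : Sim S φ ψ) : Sim S ψ φ := by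
  obtain ⟨g, hg⟩ := h
  exact ⟨g⁻¹, fun l hl => by rw [hg l hl, inv_smul_smul]⟩

theorem sim_trans {φ ψ χ : V → OnePoint Ω} (h : Sim S φ ψ) (h' : Sim S ψ χ) : Sim S φ χ := by
  obtain ⟨g, hg⟩ := h
  obtain ⟨k, hk⟩ := h'
  exact ⟨k * g, fun l hl => by rw [hk l hl, hg l hl, mul_smul]⟩

/-- `Sim` maps have the same fibres -/
theorem sim_eq_iff {φ ψ : V → OnePoint Ω} (h : Sim S φ ψ) {x y : V} (hx : x ∈ S) (hy : y ∈ S) :
    φ x = φ y ↔ ψ x = ψ y := by
  obtain ⟨g, hg⟩ := h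
  rw [hg x hx, hg y hy]
  exact (MulAction.injective g).eq_iff.symm

namespace DLEMaux

theorem dist3_iff {φ ψ : V → OnePoint Ω} (h : Sim S φ ψ) {a b c : V} (ha : a ∈ S) (hb : b ∈ S)
    (hc : c ∈ S) : Dist3 (φ a) (φ b) (φ c) ↔ Dist3 (ψ a) (ψ b) (ψ c) := by
  unfold Dist3
  rw [Ne, Ne, Ne, sim_eq_iff h ha hb, sim_eq_iff h ha hc, sim_eq_iff h hb hc]

theorem dist3_of {φ : V → OnePoint Ω} {a b c : V} (h : Dist3 (φ a) (φ b) (φ c)) : Dist3 a b c :=
  ⟨fun e => h.1 (by rw [e]), fun e => h.2.1 (by rw [e]), fun e => h.2.2 (by rw [e])⟩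

theorem zero_ne_infty : ((0 : Ω) : OnePoint Ω) ≠ ∞ := OnePoint.coe_ne_infty 0

theorem one_ne_infty : ((1 : Ω) : OnePoint Ω) ≠ ∞ := OnePoint.coe_ne_infty 1

theorem zero_ne_one : ((0 : Ω) : OnePoint Ω) ≠ ((1 : Ω) : OnePoint Ω) := fun h =>
  _root_.zero_ne_one (OnePoint.coe_injective h)

theorem dist3_self (hL : IsSys S L) {i j k : V} (hi : i ∈ S) (hj : j ∈ S) (hk : k ∈ S)
    (h : Dist3 i j k) : Dist3 (L i j k i) (L i j k j) (L i j k k) := by
  rw [hL.zero i j k hi hj hk h, hL.infty i j k hi hj hk h, hL.one i j k hi hj hk h]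
  exact ⟨zero_ne_infty, zero_ne_one, fun h => one_ne_infty h.symm⟩

end DLEMaux

open DLEMaux

theorem vmap_self (hL : IsSys S L) {i j k : V} (hi : i ∈ S) (hj : j ∈ S) (hk : k ∈ S)
    (h : Dist3 i j k) : VMap S L (L i j k) :=
  ⟨⟨i, hi, j, hj, k, hk, dist3_self hL hi hj hk h⟩,
    fun a ha b hb c hc habc => hL.comp i j k hi hj hk h a b c ha hb hc habc⟩

theorem vmap_sim {φ ψ : V → OnePoint Ω} (hL : VMap S L φ) (h : Sim S φ ψ) : VMap S L ψ := by
  obtain ⟨⟨a, ha, b, hb, c, hc, habc⟩, h2⟩ := hL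
  refine ⟨⟨a, ha, b, hb, c, hc, (dist3_iff h ha hb hc).1 habc⟩, ?_⟩
  intro x hx y hy z hz hxyz
  exact sim_trans (sim_symm h) (h2 x hx y hy z hz ((dist3_iff h hx hy hz).2 hxyz))

/-- two coordinates separating a common triple agree -/
theorem vmap_unique {φ ψ : V → OnePoint Ω} (h1 : VMap S L φ) (h2 : VMap S L ψ)
    {a b c : V} (ha : a ∈ S) (hb : b ∈ S) (hc : c ∈ S) (hφ : Dist3 (φ a) (φ b) (φ c))
    (hψ : Dist3 (ψ a) (ψ b) (ψ c)) : Sim S φ ψ :=
  sim_trans (h1.2 a ha b hb c hc hφ) (sim_symm (h2.2 a ha b hb c hc hψ))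

/-- the system in terms of the normalisation of a coordinate -/
theorem sys_normal (hL : IsSys S L) {φ : V → OnePoint Ω} (h1 : VMap S L φ)
    {a b c : V} (ha : a ∈ S) (hb : b ∈ S) (hc : c ∈ S) (hφ : Dist3 (φ a) (φ b) (φ c))
    {g : GL (Fin 2) Ω} (g1 : g • φ a = ((0 : Ω) : OnePoint Ω)) (g2 : g • φ b = ∞)
    (g3 : g • φ c = ((1 : Ω) : OnePoint Ω)) : ∀ l ∈ S, L a b c l = g • φ l := by
  obtain ⟨k, hk⟩ := h1.2 a ha b hb c hc hφ
  have hd := dist3_of hφ
  have e1 : k • φ a = g • φ a := by rw [← hk a ha, hL.zero a b c ha hb hc hd, g1]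
  have e2 : k • φ b = g • φ b := by rw [← hk b hb, hL.infty a b c ha hb hc hd, g2]
  have e3 : k • φ c = g • φ c := by rw [← hk c hc, hL.one a b c ha hb hc hd, g3]
  intro l hl
  rw [hk l hl]
  exact gl_ext hφ e1 e2 e3 (φ l)

namespace DLEMaux

/-- first case of Lemma D -/
theorem lemma_D1 (hL : IsSys S L) {φ : V → OnePoint Ω} (hφ : VMap S L φ) {a b c m : V}
    (ha : a ∈ S) (hb : b ∈ S) (hc : c ∈ S) (hm : m ∈ S) (hab : a ≠ b) (h1 : φ a = φ b)
    (h2 : φ c ≠ φ a) (h3 : φ m ≠ φ a) (hcm : φ c ≠ φ m) : L a b c m = L a b c c := by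
  by_contra hne
  have hd : Dist3 a b c := ⟨hab, fun e => h2 (by rw [e]), fun e => h2 (by rw [h1, e])⟩
  have hs := dist3_self hL ha hb hc hd
  have hψ := vmap_self hL ha hb hc hd
  have key : ∀ x, x ∈ S → φ x = φ a → L a b c x ≠ L a b c c → L a b c x ≠ L a b c m → False := by
    intro x hx hxa hxc hxm
    have s1 : Dist3 (L a b c x) (L a b c c) (L a b c m) := ⟨hxc, hxm, fun e => hne e.symm⟩
    have s2 : Dist3 (φ x) (φ c) (φ m) :=
      ⟨by rw [hxa]; exact h2.symm, by rw [hxa]; exact h3.symm, hcm⟩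
    have := vmap_unique hφ hψ hx hc hm s2 s1
    exact hs.1 ((sim_eq_iff this ha hb).1 h1)
  by_cases h : L a b c a = L a b c m
  · exact key b hb h1.symm hs.2.2 (fun e => hs.1 (h.trans e.symm))
  · exact key a ha rfl hs.2.1 h

end DLEMaux

/-- Lemma D -/
theorem lemma_D (hL : IsSys S L) {φ : V → OnePoint Ω} (hφ : VMap S L φ) {a b c m : V}
    (ha : a ∈ S) (hb : b ∈ S) (hc : c ∈ S) (hm : m ∈ S) (hab : a ≠ b) (h1 : φ a = φ b)
    (h2 : φ c ≠ φ a) (h3 : φ m ≠ φ a) : L a b c m = ((1 : Ω) : OnePoint Ω) := by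
  have hd : Dist3 a b c := ⟨hab, fun e => h2 (by rw [e]), fun e => h2 (by rw [h1, e])⟩
  have hdm : Dist3 a b m := ⟨hab, fun e => h3 (by rw [e]), fun e => h3 (by rw [h1, e])⟩
  have hs := dist3_self hL ha hb hc hd
  have hψ := vmap_self hL ha hb hc hd
  rw [← hL.one a b c ha hb hc hd]
  by_cases hcm : φ c = φ m
  swap
  · exact lemma_D1 hL hφ ha hb hc hm hab h1 h2 h3 hcm
  -- a third value
  obtain ⟨y, hy, hya, hyc⟩ : ∃ y ∈ S, φ y ≠ φ a ∧ φ y ≠ φ c := by
    obtain ⟨u, hu, v, hv, w, hw, huv, huw, hvw⟩ := hφ.1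
    by_contra hno
    push Not at hno
    have hu' := hno u hu
    have hv' := hno v hv
    have hw' := hno w hw
    by_cases eu : φ u = φ a
    · have ev : φ v = φ c := hv' (fun e => huv (eu.trans e.symm))
      have ew : φ w = φ c := hw' (fun e => huw (eu.trans e.symm))
      exact hvw (ev.trans ew.symm)
    · have eu' := hu' eu
      have ev : φ v = φ a := by
        by_contra e
        exact huv (eu'.trans (hv' e).symm)
      have ew : φ w = φ a := by
        by_contra e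
        exact huw (eu'.trans (hw' e).symm)
      exact hvw (ev.trans ew.symm)
  have hy1 : L a b c y = L a b c c :=
    lemma_D1 hL hφ ha hb hc hy hab h1 h2 hya (fun e => hyc e.symm)
  have hy2 : L a b m y = L a b m m :=
    lemma_D1 hL hφ ha hb hm hy hab h1 h3 hya (fun e => hyc (by rw [hcm, e]))
  by_contra hne
  have hcm' : c ≠ m := fun e => hne (by rw [e])
  by_cases hma : L a b c m = L a b c a
  · -- the label `m` falls together with `a`
    have s1 : Dist3 (L a b c m) (L a b c b) (L a b c c) := by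
      rw [hma]; exact hs
    have hd1 := dist3_of s1
    have v1 := vmap_self hL hm hb hc hd1
    have sim1 := vmap_unique hψ v1 hm hb hc s1 (dist3_self hL hm hb hc hd1)
    have e1 : L m b c y = L m b c c := (sim_eq_iff sim1 hy hc).1 hy1
    have hd2 : Dist3 m c b := ⟨hcm'.symm, hd1.1, fun e => hd1.2.2 e.symm⟩
    have e2 : L m c b y = L m c b b :=
      lemma_D1 hL hφ hm hc hb hy hcm'.symm hcm.symm (by rw [← hcm, ← h1]; exact h2.symm)
        (by rw [← hcm]; exact hyc) (by rw [← h1]; exact hya.symm)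
    have v2 := vmap_self hL hm hc hb hd2
    have s2 := dist3_self hL hm hc hb hd2
    have s3 := dist3_self hL hm hb hc hd1
    have sim2 := vmap_unique v2 v1 hm hc hb s2 ⟨s3.2.1, s3.1, fun e => s3.2.2 e.symm⟩
    have e3 : L m b c y = L m b c b := (sim_eq_iff sim2 hy hb).1 e2
    exact s3.2.2 (e3.symm.trans e1)
  by_cases hmb : L a b c m = L a b c b
  · -- the label `m` falls together with `b`
    have s1 : Dist3 (L a b c a) (L a b c m) (L a b c c) := by
      rw [hmb]; exact hs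
    have hd1 := dist3_of s1
    have v1 := vmap_self hL ha hm hc hd1
    have sim1 := vmap_unique hψ v1 ha hm hc s1 (dist3_self hL ha hm hc hd1)
    have e1 : L a m c y = L a m c c := (sim_eq_iff sim1 hy hc).1 hy1
    have hd2 : Dist3 m c a := ⟨hcm'.symm, hd1.1.symm, fun e => hd1.2.1 e.symm⟩
    have e2 : L m c a y = L m c a a :=
      lemma_D1 hL hφ hm hc ha hy hcm'.symm hcm.symm (by rw [← hcm]; exact h2.symm)
        (by rw [← hcm]; exact hyc) hya.symm
    have v2 := vmap_self hL hm hc ha hd2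
    have s2 := dist3_self hL hm hc ha hd2
    have s3 := dist3_self hL ha hm hc hd1
    have sim2 := vmap_unique v2 v1 hm hc ha s2 ⟨s3.2.2, s3.1.symm, s3.2.1.symm⟩
    have e3 : L a m c y = L a m c a := (sim_eq_iff sim2 hy ha).1 e2
    exact s3.2.1 (e3.symm.trans e1)
  · -- the label `m` is separated from `a` and `b`
    have s1 : Dist3 (L a b c a) (L a b c b) (L a b c m) := ⟨hs.1, Ne.symm hma, Ne.symm hmb⟩
    have v1 := vmap_self hL ha hb hm hdm
    have sim1 := vmap_unique v1 hψ ha hb hm (dist3_self hL ha hb hm hdm) s1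
    have e1 : L a b c y = L a b c m := (sim_eq_iff sim1 hy hm).1 hy2
    exact hne (e1.symm.trans hy1)

/-- Lemma 3: a component which does not separate `a, b, c` collapses the complement of a block
containing two of them. -/
theorem lemma_3 (hL : IsSys S L) {φ : V → OnePoint Ω} (hφ : VMap S L φ) {a b c m m' : V}
    (ha : a ∈ S) (hb : b ∈ S) (hc : c ∈ S) (hm : m ∈ S) (hm' : m' ∈ S) (h : Dist3 a b c)
    (h1 : φ a = φ b) (h2 : φ m ≠ φ a) (h3 : φ m' ≠ φ a) : L a b c m = L a b c m' := by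
  by_cases hca : φ c = φ a
  swap
  · rw [lemma_D hL hφ ha hb hc hm h.1 h1 hca h2, lemma_D hL hφ ha hb hc hm' h.1 h1 hca h3]
  have hs := dist3_self hL ha hb hc h
  have hψ := vmap_self hL ha hb hc h
  have key : ∀ x x', x ∈ S → x' ∈ S → φ x = φ a → φ x' = φ a → L a b c x ≠ L a b c x' →
      L a b c x ≠ L a b c m → L a b c x' ≠ L a b c m → L a b c m = L a b c m' := by
    intro x x' hx hx' hxa hxa' hxx hxm hxm'
    have s1 : Dist3 (L a b c x) (L a b c x') (L a b c m) := ⟨hxx, hxm, hxm'⟩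
    have hd1 := dist3_of s1
    have v1 := vmap_self hL hx hx' hm hd1
    have sim1 := vmap_unique v1 hψ hx hx' hm (dist3_self hL hx hx' hm hd1) s1
    have e1 : L x x' m m' = ((1 : Ω) : OnePoint Ω) :=
      lemma_D hL hφ hx hx' hm hm' hd1.1 (hxa.trans hxa'.symm) (by rw [hxa]; exact h2)
        (by rw [hxa]; exact h3)
    have e2 : L x x' m m = ((1 : Ω) : OnePoint Ω) := hL.one x x' m hx hx' hm hd1
    exact (sim_eq_iff sim1 hm hm').1 (e2.trans e1.symm)
  by_cases hma : L a b c a = L a b c m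
  · exact key b c hb hc h1.symm hca hs.2.2 (fun e => hs.1 (hma.trans e.symm))
      (fun e => hs.2.1 (hma.trans e.symm))
  by_cases hmb : L a b c b = L a b c m
  · exact key a c ha hc rfl hca hs.2.1 hma (fun e => hs.2.2 (hmb.trans e.symm))
  · exact key a b ha hb rfl h1.symm hs.1 hma hmb

/-- for two different components the complement of some block of the first one is contained in a
block of the second one -/
theorem vmap_compare (hL : IsSys S L) {φ ψ : V → OnePoint Ω} (h1 : VMap S L φ) (h2 : VMap S L ψ) :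
    Sim S φ ψ ∨ ∃ a ∈ S, ∀ m ∈ S, ∀ m' ∈ S, φ m ≠ φ a → φ m' ≠ φ a → ψ m = ψ m' := by
  obtain ⟨a, ha, b, hb, c, hc, habc⟩ := h2.1
  have key : ∀ x y z, x ∈ S → y ∈ S → z ∈ S → Dist3 (ψ x) (ψ y) (ψ z) → φ x = φ y →
      ∃ a ∈ S, ∀ m ∈ S, ∀ m' ∈ S, φ m ≠ φ a → φ m' ≠ φ a → ψ m = ψ m' := by
    intro x y z hx hy hz hxyz hxy
    refine ⟨x, hx, fun m hm m' hm' hmx hmx' => ?_⟩
    have e := lemma_3 hL h1 hx hy hz hm hm' (dist3_of hxyz) hxy hmx hmx'
    exact (sim_eq_iff (h2.2 x hx y hy z hz hxyz) hm hm').2 e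
  by_cases hab : φ a = φ b
  · exact Or.inr (key a b c ha hb hc habc hab)
  by_cases hac : φ a = φ c
  · exact Or.inr (key a c b ha hc hb ⟨habc.2.1, habc.1, habc.2.2.symm⟩ hac)
  by_cases hbc : φ b = φ c
  · exact Or.inr (key b c a hb hc ha ⟨habc.2.2, habc.1.symm, habc.2.1.symm⟩ hbc)
  · exact Or.inl (vmap_unique h1 h2 ha hb hc ⟨hab, hac, hbc⟩ habc)

end DLEM

end Pool.Agent.Mbar
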