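import Mathlib
import Pool.Agent.Mbar.Defs
import Pool.Agent.Mbar.ONE
import Pool.Agent.Mbar.DLEM
import Pool.Agent.Mbar.CRS1

/-! # Systems of coordinates are systems of cross ratios -/

noncomputable section

namespace Pool.Agent.Mbar

open OnePoint Polynomial Matrix

open scoped Classical

namespace CRS2aux

open CRS1aux

section pgl

variable {Ω : Type} [Field Ω]

theorem inv_id (x : OnePoint Ω) : (hc ((gInv : GL (Fin 2) Ω) • x)).1 * (hc x).1 =
    (hc ((gInv : GL (Fin 2) Ω) • x)).2 * (hc x).2 := by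
  induction x using OnePoint.rec with
  | infty => rw [gInv_infty]; simp
  | coe x =>
    rw [gInv_coe]
    by_cases hx : x = 0
    · rw [if_pos hx]; simp [hx]
    · rw [if_neg hx]; simp [hx]

theorem one_id (x : OnePoint Ω) : (hc ((gOne : GL (Fin 2) Ω) • x)).1 * (hc x).2 =
    (hc ((gOne : GL (Fin 2) Ω) • x)).2 * ((hc x).2 - (hc x).1) := by
  induction x using OnePoint.rec with
  | infty => rw [gOne_infty]; simp
  | coe x => rw [gOne_coe]; simp

theorem scale_id {x : Ω} (hx : x ≠ 0) (z : OnePoint Ω) :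
    x * (hc (gScale x hx • z)).1 * (hc z).2 = 1 * (hc (gScale x hx • z)).2 * (hc z).1 := by
  induction z using OnePoint.rec with
  | infty => rw [gScale_infty]; simp
  | coe z => rw [gScale_coe]; simp; field_simp

end pgl

section sys

variable {Ω : Type} [Field Ω] {V : Type} {S : Finset V} {L : V → V → V → V → OnePoint Ω}

theorem d3 {i j k : V} (hL : IsSys S L) (hi : i ∈ S) (hj : j ∈ S) (hk : k ∈ S)
    (h : Dist3 i j k) : Dist3 (L i j k i) (L i j k j) (L i j k k) := by
  rw [hL.zero i j k hi hj hk h, hL.infty i j k hi hj hk h, hL.one i j k hi hj hk h]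
  exact ⟨OnePoint.coe_ne_infty 0, fun e => zero_ne_one (OnePoint.coe_injective e),
    (OnePoint.coe_ne_infty 1).symm⟩

theorem c12 {i j k l : V} (hL : IsSys S L) (hi : i ∈ S) (hj : j ∈ S) (hk : k ∈ S) (hl : l ∈ S)
    (h : Dist3 i j k) : L j i k l = (gInv : GL (Fin 2) Ω) • L i j k l := by
  have h' : Dist3 j i k := ⟨h.1.symm, h.2.2, h.2.1⟩
  have hd := d3 hL hi hj hk h
  obtain ⟨g, hg⟩ := hL.comp i j k hi hj hk h j i k hj hi hk ⟨hd.1.symm, hd.2.2, hd.2.1⟩
  rw [hg l hl]
  refine gl_ext hd ?_ ?_ ?_ _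
  · rw [← hg i hi, hL.infty j i k hj hi hk h', hL.zero i j k hi hj hk h, gInv_coe, if_pos rfl]
  · rw [← hg j hj, hL.zero j i k hj hi hk h', hL.infty i j k hi hj hk h, gInv_infty]
  · rw [← hg k hk, hL.one j i k hj hi hk h', hL.one i j k hi hj hk h, gInv_coe,
      if_neg one_ne_zero, inv_one]

theorem c13 {i j k l : V} (hL : IsSys S L) (hi : i ∈ S) (hj : j ∈ S) (hk : k ∈ S) (hl : l ∈ S)
    (h : Dist3 i j k) : L k j i l = (gOne : GL (Fin 2) Ω) • L i j k l := by
  have h' : Dist3 k j i := ⟨h.2.2.symm, h.2.1.symm, h.1.symm⟩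
  have hd := d3 hL hi hj hk h
  obtain ⟨g, hg⟩ := hL.comp i j k hi hj hk h k j i hk hj hi
    ⟨hd.2.2.symm, hd.2.1.symm, hd.1.symm⟩
  rw [hg l hl]
  refine gl_ext hd ?_ ?_ ?_ _
  · rw [← hg i hi, hL.one k j i hk hj hi h', hL.zero i j k hi hj hk h, gOne_coe, sub_zero]
  · rw [← hg j hj, hL.infty k j i hk hj hi h', hL.infty i j k hi hj hk h, gOne_infty]
  · rw [← hg k hk, hL.zero k j i hk hj hi h', hL.one i j k hi hj hk h, gOne_coe, sub_self]

/-- a component which identifies two of the labels `a, b, c` -/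
theorem collapse {φ : V → OnePoint Ω} (hL : IsSys S L) (hφ : VMap S L φ) {a b c x y z m m' : V}
    (hx : x ∈ S) (hy : y ∈ S) (hz : z ∈ S) (hm : m ∈ S) (hm' : m' ∈ S) (h : Dist3 x y z)
    (ha : a = x ∨ a = y ∨ a = z) (hb : b = x ∨ b = y ∨ b = z) (hc : c = x ∨ c = y ∨ c = z)
    (habc : Dist3 a b c)
    (h1 : φ x = φ y) (h2 : φ m ≠ φ x) (h3 : φ m' ≠ φ x) : L a b c m = L a b c m' := by
  have haS : a ∈ S := by rcases ha with rfl | rfl | rfl <;> assumption
  have hbS : b ∈ S := by rcases hb with rfl | rfl | rfl <;> assumption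
  have hcS : c ∈ S := by rcases hc with rfl | rfl | rfl <;> assumption
  have e := lemma_3 hL hφ hx hy hz hm hm' h h1 h2 h3
  have hd := d3 hL hx hy hz h
  have key : ∀ u v : V, (u = x ∨ u = y ∨ u = z) → (v = x ∨ v = y ∨ v = z) → u ≠ v →
      L x y z u ≠ L x y z v := by
    intro u v hu hv huv
    rcases hu with rfl | rfl | rfl <;> rcases hv with rfl | rfl | rfl <;>
      first
        | exact absurd rfl huv
        | exact hd.1
        | exact hd.2.1
        | exact hd.2.2
        | exact hd.1.symm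
        | exact hd.2.1.symm
        | exact hd.2.2.symm
  obtain ⟨g, hg⟩ := hL.comp x y z hx hy hz h a b c haS hbS hcS
    ⟨key a b ha hb habc.1, key a c ha hc habc.2.1, key b c hb hc habc.2.2⟩
  rw [hg m hm, hg m' hm', e]

theorem mul_id (hL : IsSys S L) {i j k l m : V} (hi : i ∈ S) (hj : j ∈ S) (hk : k ∈ S)
    (hl : l ∈ S) (hm : m ∈ S) (h : Dist3 i j k) (h' : Dist3 i j l) :
    (hc (L i j k l)).1 * (hc (L i j l m)).1 * (hc (L i j k m)).2 =
      (hc (L i j k l)).2 * (hc (L i j l m)).2 * (hc (L i j k m)).1 := by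
  have hφ : VMap S L (L i j k) := vmap_self hL hi hj hk h
  have hd := d3 hL hi hj hk h
  by_cases h0 : L i j k l = ((0 : Ω) : OnePoint Ω)
  · rw [h0]
    by_cases hz : L i j k m = ((0 : Ω) : OnePoint Ω)
    · rw [hz]; simp
    · have e : L i j l m = L i j l j := by
        refine collapse hL hφ (x := i) (y := l) (z := j) hi hl hj hm hj
          ⟨h'.2.1, h'.1, h'.2.2.symm⟩ (Or.inl rfl) (Or.inr (Or.inr rfl)) (Or.inr (Or.inl rfl)) h'
          ?_ ?_ hd.1.symm
        · rw [h0, hL.zero i j k hi hj hk h]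
        · rw [hL.zero i j k hi hj hk h]; exact hz
      rw [e, hL.infty i j l hi hj hl h']
      simp
  by_cases h1 : L i j k l = ∞
  · rw [h1]
    by_cases hz : L i j k m = ∞
    · rw [hz]; simp
    · have e : L i j l m = L i j l i := by
        refine collapse hL hφ (x := j) (y := l) (z := i) hj hl hi hm hi
          ⟨h'.2.2, h'.1.symm, h'.2.1.symm⟩ (Or.inr (Or.inr rfl)) (Or.inl rfl) (Or.inr (Or.inl rfl))
          h' ?_ ?_ hd.1
        · rw [h1, hL.infty i j k hi hj hk h]
        · rw [hL.infty i j k hi hj hk h]; exact hz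
      rw [e, hL.zero i j l hi hj hl h']
      simp
  obtain ⟨x, hx⟩ : ∃ x : Ω, L i j k l = ((x : Ω) : OnePoint Ω) := by
    induction hl : L i j k l using OnePoint.rec with
    | infty => exact absurd hl h1
    | coe x => exact ⟨x, rfl⟩
  have hx0 : x ≠ 0 := by rintro rfl; exact h0 hx
  have hz := hL.zero i j k hi hj hk h
  have hin := hL.infty i j k hi hj hk h
  have hd2 : Dist3 (L i j k i) (L i j k j) (L i j k l) := by
    refine ⟨hd.1, ?_, ?_⟩
    · rw [hz]; exact fun e => h0 e.symm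
    · rw [hin]; exact fun e => h1 e.symm
  obtain ⟨g, hg⟩ := hL.comp i j k hi hj hk h i j l hi hj hl hd2
  have e : L i j l m = gScale x hx0 • L i j k m := by
    rw [hg m hm]
    refine gl_ext hd2 ?_ ?_ ?_ _
    · rw [← hg i hi, hL.zero i j l hi hj hl h', hz, gScale_coe, zero_div]
    · rw [← hg j hj, hL.infty i j l hi hj hl h', hin, gScale_infty]
    · rw [← hg l hl, hL.one i j l hi hj hl h', hx, gScale_coe, div_self hx0]
  rw [e, hx]
  have := scale_id hx0 (L i j k m)
  simpa using this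

end sys

theorem some_dist {R : Type} {i j k : R} (h : Dist3 i j k) :
    Dist3 (Option.some i) (Option.some j) (Option.some k) :=
  ⟨by simpa using h.1, by simpa using h.2.1, by simpa using h.2.2⟩

end CRS2aux

open CRS1aux CRS2aux

theorem isCR_of_isSys {Ω : Type} [Field Ω] {R : Type} [Fintype R]
    {L : Option R → Option R → Option R → Option R → OnePoint Ω} (h : IsSys (allS R) L) :
    ∃ lam : R → R → R → R → OnePoint Ω, IsCR lam ∧ sysOf lam = L := by
  refine ⟨fun i j k l => if Dist3 i j k ∧ Out l i j k then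
    L (Option.some i) (Option.some j) (Option.some k) (Option.some l) else ∞, ?_, ?_⟩
  · constructor
    · intro i j k l hn
      exact if_neg hn
    · intro i j k l hd ho
      have hd' : Dist3 j i k := ⟨hd.1.symm, hd.2.2, hd.2.1⟩
      have ho' : Out l j i k := ⟨ho.2.1, ho.1, ho.2.2⟩
      simp only [if_pos (⟨hd, ho⟩ : Dist3 i j k ∧ Out l i j k),
        if_pos (⟨hd', ho'⟩ : Dist3 j i k ∧ Out l j i k)]
      rw [c12 h (mem_allS i) (mem_allS j) (mem_allS k) (mem_allS l) (some_dist hd)]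
      exact inv_id _
    · intro i j k l hd ho
      have hd' : Dist3 i j l := ⟨hd.1, ho.1.symm, ho.2.1.symm⟩
      have ho' : Out k i j l := ⟨hd.2.1.symm, hd.2.2.symm, ho.2.2.symm⟩
      simp only [if_pos (⟨hd, ho⟩ : Dist3 i j k ∧ Out l i j k),
        if_pos (⟨hd', ho'⟩ : Dist3 i j l ∧ Out k i j l)]
      have e := mul_id h (mem_allS i) (mem_allS j) (mem_allS k) (mem_allS l) (mem_allS k)
        (some_dist hd) (some_dist hd')
      rw [h.one _ _ _ (mem_allS i) (mem_allS j) (mem_allS k) (some_dist hd)] at e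
      simp only [hc_coe, mul_one] at e
      rw [mul_comm, e, mul_comm]
    · intro i j k l hd ho
      have hd' : Dist3 k j i := ⟨hd.2.2.symm, hd.2.1.symm, hd.1.symm⟩
      have ho' : Out l k j i := ⟨ho.2.2, ho.2.1, ho.1⟩
      simp only [if_pos (⟨hd, ho⟩ : Dist3 i j k ∧ Out l i j k),
        if_pos (⟨hd', ho'⟩ : Dist3 k j i ∧ Out l k j i)]
      rw [c13 h (mem_allS i) (mem_allS j) (mem_allS k) (mem_allS l) (some_dist hd)]
      exact one_id _
    · intro i j k l m hd ho hm hml
      have hd' : Dist3 i j l := ⟨hd.1, ho.1.symm, ho.2.1.symm⟩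
      have ho' : Out m i j l := ⟨hm.1, hm.2.1, hml⟩
      simp only [if_pos (⟨hd, ho⟩ : Dist3 i j k ∧ Out l i j k),
        if_pos (⟨hd', ho'⟩ : Dist3 i j l ∧ Out m i j l),
        if_pos (⟨hd, hm⟩ : Dist3 i j k ∧ Out m i j k)]
      exact mul_id h (mem_allS i) (mem_allS j) (mem_allS k) (mem_allS l) (mem_allS m)
        (some_dist hd) (some_dist hd')
  · funext i j k l
    rcases i with _ | i
    · rw [h.junk _ _ _ _ (fun e => by simpa [allS] using e.1)]; rfl
    rcases j with _ | j
    · rw [h.junk _ _ _ _ (fun e => by simpa [allS] using e.2.1)]; rfl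
    rcases k with _ | k
    · rw [h.junk _ _ _ _ (fun e => by simpa [allS] using e.2.2.1)]; rfl
    rcases l with _ | l
    · rw [h.junk _ _ _ _ (fun e => by simpa [allS] using e.2.2.2.1)]; rfl
    by_cases hd : Dist3 i j k
    · rw [sys_some hd]
      by_cases hi : l = i
      · subst hi
        rw [if_pos rfl]
        exact (h.zero _ _ _ (mem_allS _) (mem_allS _) (mem_allS _) (some_dist hd)).symm
      by_cases hj : l = j
      · subst hj
        rw [if_neg hi, if_pos rfl]
        exact (h.infty _ _ _ (mem_allS _) (mem_allS _) (mem_allS _) (some_dist hd)).symm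
      by_cases hk : l = k
      · subst hk
        rw [if_neg hi, if_neg hj, if_pos rfl]
        exact (h.one _ _ _ (mem_allS _) (mem_allS _) (mem_allS _) (some_dist hd)).symm
      · rw [if_neg hi, if_neg hj, if_neg hk, if_pos ⟨hd, hi, hj, hk⟩]
    · rw [h.junk _ _ _ _ (fun e => hd ⟨fun e1 => e.2.2.2.2.1 (by rw [e1]),
        fun e1 => e.2.2.2.2.2.1 (by rw [e1]), fun e1 => e.2.2.2.2.2.2 (by rw [e1])⟩)]
      simp [sysOf, hd]

theorem crCount_eq {Ω : Type} [Field Ω] {q : ℕ} (hs : Setup Ω q) {R : Type} [Fintype R]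
    (τ : Equiv.Perm R) :
    crCount Ω q τ = (SysSet Ω q (Equiv.optionCongr τ) (allS R)).ncard := by
  have hq : q ≠ 0 := by have := hs.one_lt; omega
  have hdτ : ∀ {i j k : R}, Dist3 (τ i) (τ j) (τ k) ↔ Dist3 i j k := by
    intro i j k
    simp [Dist3]
  have hoτ : ∀ {l i j k : R}, Out (τ l) (τ i) (τ j) (τ k) ↔ Out l i j k := by
    intro l i j k
    simp [Out]
  have hinj : ∀ lam lam' : R → R → R → R → OnePoint Ω, IsCR lam → IsCR lam' →
      sysOf lam = sysOf lam' → lam = lam' := by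
    intro lam lam' h h' e
    funext i j k l
    by_cases hn : Dist3 i j k ∧ Out l i j k
    · rw [← sys_out hn.1 hn.2 (lam := lam), e, sys_out hn.1 hn.2]
    · rw [h.junk i j k l hn, h'.junk i j k l hn]
  have hmap : ∀ lam : R → R → R → R → OnePoint Ω,
      (∀ i j k l, lam (τ i) (τ j) (τ k) (τ l) = OnePoint.map (fun x => x ^ q) (lam i j k l)) →
      Equi q (Equiv.optionCongr τ) (sysOf lam) := by
    intro lam h i j k l
    rcases i with _ | i
    · rfl
    rcases j with _ | j
    · rfl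
    rcases k with _ | k
    · rfl
    rcases l with _ | l
    · rfl
    simp only [Equiv.optionCongr_apply, Option.map_some]
    by_cases hd : Dist3 i j k
    · rw [sys_some hd, sys_some (hdτ.2 hd)]
      by_cases hi : l = i
      · rw [if_pos hi, if_pos (by rw [hi]), OnePoint.map_some, zero_pow hq]
      have hi' : τ l ≠ τ i := fun e => hi (τ.injective e)
      by_cases hj : l = j
      · rw [if_neg hi, if_pos hj, if_neg hi', if_pos (by rw [hj]), OnePoint.map_infty]
      have hj' : τ l ≠ τ j := fun e => hj (τ.injective e)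
      by_cases hk : l = k
      · rw [if_neg hi, if_neg hj, if_pos hk, if_neg hi', if_neg hj', if_pos (by rw [hk]),
          OnePoint.map_some, one_pow]
      have hk' : τ l ≠ τ k := fun e => hk (τ.injective e)
      rw [if_neg hi, if_neg hj, if_neg hk, if_neg hi', if_neg hj', if_neg hk', h]
    · have hd' : ¬ Dist3 (τ i) (τ j) (τ k) := fun e => hd (hdτ.1 e)
      simp [sysOf, hd, hd']
  have hback : ∀ lam : R → R → R → R → OnePoint Ω, IsCR lam →
      Equi q (Equiv.optionCongr τ) (sysOf lam) →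
      (∀ i j k l, lam (τ i) (τ j) (τ k) (τ l) = OnePoint.map (fun x => x ^ q) (lam i j k l)) := by
    intro lam hlam h i j k l
    by_cases hn : Dist3 i j k ∧ Out l i j k
    · rw [← sys_out hn.1 hn.2 (lam := lam),
        ← sys_out (hdτ.2 hn.1) (hoτ.2 hn.2) (lam := lam)]
      exact h (Option.some i) (Option.some j) (Option.some k) (Option.some l)
    · rw [hlam.junk i j k l hn, hlam.junk (τ i) (τ j) (τ k) (τ l)
        (fun e => hn ⟨hdτ.1 e.1, hoτ.1 e.2⟩), OnePoint.map_infty]
  rw [crCount, ← Nat.card_coe_set_eq]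
  refine Nat.card_congr (Equiv.ofBijective
    (fun lam => ⟨sysOf lam.1, isSys_sysOf lam.2.1, hmap lam.1 lam.2.2⟩) ⟨?_, ?_⟩)
  · rintro ⟨lam, h1, h2⟩ ⟨lam', h1', h2'⟩ e
    exact Subtype.ext (hinj lam lam' h1 h1' (congrArg Subtype.val e))
  · rintro ⟨L, h1, h2⟩
    obtain ⟨lam, h3, rfl⟩ := isCR_of_isSys h1
    exact ⟨⟨lam, h3, hback lam h3 h2⟩, rfl⟩

end Pool.Agent.Mbar
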