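import Mathlib
import Pool.Agent.Mbar.Defs

/-! # Roots of forests -/

noncomputable section

namespace Pool.Agent.Mbar

open OnePoint Polynomial

open scoped Classical

section FORA

variable {R : Type} [Fintype R]

theorem IsForest.empty {J : Finset R} {m : Finset R → ℕ} (hm : IsForest J m) : m ∅ = 0 := by
  by_contra h
  have h1 := hm.bound ∅ h
  have h2 : childs m (∅ : Finset R) = ∅ := by
    unfold childs
    apply Finset.filter_eq_empty_iff.mpr
    intro B hB hB'
    rw [Finset.mem_powerset, Finset.subset_empty] at hB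
    exact hB'.1 hB
  rw [h2, Finset.card_empty] at h1
  omega

theorem IsForest.blk_nonempty {J : Finset R} {m : Finset R → ℕ} (hm : IsForest J m)
    {A : Finset R} (hA : IsBlk m A) : A.Nonempty := by
  rcases hA with h | h
  · rw [Finset.nonempty_iff_ne_empty]
    rintro rfl
    exact h hm.empty
  · exact Finset.card_pos.mp (by omega)

theorem IsForest.blk_laminar {J : Finset R} {m : Finset R → ℕ} (hm : IsForest J m)
    {A B : Finset R} (hA : IsBlk m A) (hB : IsBlk m B) : A ⊆ B ∨ B ⊆ A ∨ Disjoint A B := by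
  have single : ∀ C D : Finset R, C.card = 1 → C ⊆ D ∨ Disjoint C D := by
    intro C D hC
    obtain ⟨x, rfl⟩ := Finset.card_eq_one.mp hC
    by_cases hx : x ∈ D
    · left; exact Finset.singleton_subset_iff.mpr hx
    · right; exact Finset.disjoint_singleton_left.mpr hx
  rcases hA with hA | hA
  · rcases hB with hB | hB
    · exact hm.laminar A B hA hB
    · rcases single B A hB with h | h
      · exact Or.inr (Or.inl h)
      · exact Or.inr (Or.inr h.symm)
  · rcases single A B hA with h | h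
    · exact Or.inl h
    · exact Or.inr (Or.inr h)

/-- a family of pairwise disjoint non-empty subsets of `A` has at most `A.card` members -/
theorem card_le_of_disjoint {A : Finset R} {F : Finset (Finset R)}
    (h1 : ∀ B ∈ F, B.Nonempty ∧ B ⊆ A) (h2 : ∀ B ∈ F, ∀ C ∈ F, B ≠ C → Disjoint B C) :
    F.card ≤ A.card := by
  have h3 : (F.biUnion id).card = ∑ B ∈ F, (id B : Finset R).card :=
    Finset.card_biUnion (fun B hB C hC hne => h2 B hB C hC hne)
  have h4 : F.biUnion id ⊆ A := by
    intro x hx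
    obtain ⟨B, hB, hxB⟩ := Finset.mem_biUnion.mp hx
    exact (h1 B hB).2 hxB
  calc F.card = ∑ B ∈ F, 1 := by simp
    _ ≤ ∑ B ∈ F, (id B : Finset R).card :=
        Finset.sum_le_sum fun B hB => Finset.card_pos.mpr (h1 B hB).1
    _ = (F.biUnion id).card := h3.symm
    _ ≤ A.card := Finset.card_le_card h4

theorem mem_childs {m : Finset R → ℕ} {A B : Finset R} :
    B ∈ childs m A ↔ B ⊆ A ∧ B ≠ A ∧ IsBlk m B ∧
      ∀ C, C ⊆ A → C ≠ A → IsBlk m C → B ⊆ C → C = B := by
  unfold childs
  rw [Finset.mem_filter, Finset.mem_powerset]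

theorem mem_roots {m : Finset R → ℕ} {J A : Finset R} :
    A ∈ roots m J ↔ A ⊆ J ∧ IsBlk m A ∧ ∀ B ⊆ J, IsBlk m B → A ⊆ B → B = A := by
  unfold roots
  rw [Finset.mem_filter, Finset.mem_powerset]

theorem IsForest.childs_disjoint {J : Finset R} {m : Finset R → ℕ} (hm : IsForest J m)
    {A B C : Finset R} (hB : B ∈ childs m A) (hC : C ∈ childs m A) (hne : B ≠ C) :
    Disjoint B C := by
  rw [mem_childs] at hB hC
  rcases hm.blk_laminar hB.2.2.1 hC.2.2.1 with h | h | h
  · exact absurd (hB.2.2.2 C hC.1 hC.2.1 hC.2.2.1 h).symm hne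
  · exact absurd (hC.2.2.2 B hB.1 hB.2.1 hB.2.2.1 h) hne
  · exact h

theorem IsForest.childs_card {J : Finset R} {m : Finset R → ℕ} (hm : IsForest J m)
    (A : Finset R) : (childs m A).card ≤ A.card :=
  card_le_of_disjoint
    (fun B hB => ⟨hm.blk_nonempty (mem_childs.mp hB).2.2.1, (mem_childs.mp hB).1⟩)
    (fun _ hB _ hC hne => hm.childs_disjoint hB hC hne)

theorem IsForest.le_card {J : Finset R} {m : Finset R → ℕ} (hm : IsForest J m)
    (A : Finset R) : m A ≤ A.card := by
  by_cases h : m A = 0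
  · omega
  · have h1 := hm.bound A h
    have h2 := hm.childs_card A
    omega

theorem mem_forests {σ : Equiv.Perm R} {J : Finset R} {m : Finset R → ℕ} :
    m ∈ forests σ J ↔ IsForest J m ∧ Inv σ m := by
  unfold forests
  rw [Finset.mem_filter, Fintype.mem_piFinset]
  refine ⟨fun h => h.2, fun h => ⟨fun A => ?_, h⟩⟩
  rw [Finset.mem_range]
  exact Nat.lt_succ_of_le (h.1.le_card A)

/-- every block is contained in a root -/
theorem exists_root {m : Finset R → ℕ} {J A : Finset R} (hA : IsBlk m A) (hAJ : A ⊆ J) :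
    ∃ B ∈ roots m J, A ⊆ B := by
  obtain ⟨B, hB, hmax⟩ := Finset.exists_max_image
    (J.powerset.filter (fun B => IsBlk m B ∧ A ⊆ B)) Finset.card
    ⟨A, Finset.mem_filter.mpr ⟨Finset.mem_powerset.mpr hAJ, hA, subset_rfl⟩⟩
  rw [Finset.mem_filter, Finset.mem_powerset] at hB
  refine ⟨B, mem_roots.mpr ⟨hB.1, hB.2.1, fun C hC hCb hBC => ?_⟩, hB.2.2⟩
  have h := hmax C (Finset.mem_filter.mpr
    ⟨Finset.mem_powerset.mpr hC, hCb, hB.2.2.trans hBC⟩)
  exact (Finset.eq_of_subset_of_card_le hBC h).symm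

/-- the roots of a forest on `J` form a partition of `J` -/
theorem roots_partition {J : Finset R} {m : Finset R → ℕ} (hm : IsForest J m) :
    (∀ A ∈ roots m J, A.Nonempty ∧ A ⊆ J) ∧
    (∀ A ∈ roots m J, ∀ B ∈ roots m J, A ≠ B → Disjoint A B) ∧
    (∀ x ∈ J, ∃ A ∈ roots m J, x ∈ A) ∧ (∀ A, m A ≠ 0 → ∃ B ∈ roots m J, A ⊆ B) := by
  refine ⟨fun A hA => ?_, fun A hA B hB hne => ?_, fun x hx => ?_, fun A hA => ?_⟩
  · rw [mem_roots] at hA
    exact ⟨hm.blk_nonempty hA.2.1, hA.1⟩
  · rw [mem_roots] at hA hB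
    rcases hm.blk_laminar hA.2.1 hB.2.1 with h | h | h
    · exact absurd (hA.2.2 B hB.1 hB.2.1 h).symm hne
    · exact absurd (hB.2.2 A hA.1 hA.2.1 h) hne
    · exact h
  · obtain ⟨B, hB, hxB⟩ := exists_root (m := m) (J := J) (A := {x})
      (Or.inr (Finset.card_singleton x)) (Finset.singleton_subset_iff.mpr hx)
    exact ⟨B, hB, hxB (Finset.mem_singleton_self x)⟩
  · exact exists_root (Or.inl hA) (hm.supp A hA)

/-- the roots if `J` itself carries no weight -/
theorem roots_card {J : Finset R} {m : Finset R → ℕ} (hm : IsForest J m) (hJ : 2 ≤ J.card) :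
    (m J ≠ 0 → roots m J = {J}) ∧ (m J = 0 → 2 ≤ (roots m J).card ∧ ∀ A ∈ roots m J, A ≠ J) := by
  refine ⟨fun h => ?_, fun h => ?_⟩
  · ext A
    rw [mem_roots, Finset.mem_singleton]
    constructor
    · rintro ⟨h1, _, h3⟩
      exact (h3 J subset_rfl (Or.inl h) h1).symm
    · rintro rfl
      exact ⟨subset_rfl, Or.inl h, fun B hB _ hAB => Finset.Subset.antisymm hB hAB⟩
  · have hne : ∀ A ∈ roots m J, A ≠ J := by
      rintro A hA rfl
      rcases (mem_roots.mp hA).2.1 with h1 | h1
      · exact h1 h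
      · omega
    refine ⟨?_, hne⟩
    obtain ⟨h1, h2, h3, _⟩ := roots_partition hm
    obtain ⟨x, hx⟩ : J.Nonempty := Finset.card_pos.mp (by omega)
    obtain ⟨A, hA, hxA⟩ := h3 x hx
    by_contra hlt
    have hcard : (roots m J).card = 1 := by
      have : 0 < (roots m J).card := Finset.card_pos.mpr ⟨A, hA⟩
      omega
    obtain ⟨A', hA'⟩ := Finset.card_eq_one.mp hcard
    have hAA' : A = A' := by
      rw [hA'] at hA
      exact Finset.mem_singleton.mp hA
    apply hne A hA
    apply Finset.Subset.antisymm (h1 A hA).2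
    intro y hy
    obtain ⟨B, hB, hyB⟩ := h3 y hy
    rw [hA'] at hB
    rw [hAA', ← Finset.mem_singleton.mp hB]
    exact hyB

end FORA

end Pool.Agent.Mbar
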