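import Mathlib
import Pool.Agent.Mbar.Defs

/-! # Relabelling of forests -/

set_option linter.unusedSectionVars false

noncomputable section

namespace Pool.Agent.Mbar

open scoped Classical

namespace MV

variable {R : Type} [Fintype R]

lemma map_mulp (g h : Equiv.Perm R) (A : Finset R) :
    A.map (g * h).toEmbedding = (A.map h.toEmbedding).map g.toEmbedding := by
  rw [Finset.map_map]
  rfl

lemma map_onep (A : Finset R) : A.map (1 : Equiv.Perm R).toEmbedding = A := by
  ext x
  rw [Finset.mem_map]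
  constructor
  · rintro ⟨a, ha, rfl⟩
    exact ha
  · intro h
    exact ⟨x, h, rfl⟩

lemma map_inv_mapp (g : Equiv.Perm R) (A : Finset R) :
    (A.map g.toEmbedding).map g⁻¹.toEmbedding = A := by
  rw [← map_mulp, inv_mul_cancel, map_onep]

lemma map_map_invp (g : Equiv.Perm R) (A : Finset R) :
    (A.map g⁻¹.toEmbedding).map g.toEmbedding = A := by
  rw [← map_mulp, mul_inv_cancel, map_onep]

/-- relabelling -/
def mv (g : Equiv.Perm R) (m : Finset R → ℕ) : Finset R → ℕ := fun A => m (A.map g⁻¹.toEmbedding)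

lemma mv_map (g : Equiv.Perm R) (m : Finset R → ℕ) (A : Finset R) :
    mv g m (A.map g.toEmbedding) = m A := by
  unfold mv
  rw [map_inv_mapp]

lemma mv_one (m : Finset R → ℕ) : mv 1 m = m := by
  funext A
  have := mv_map 1 m A
  rwa [map_onep] at this

lemma mv_mul (g h : Equiv.Perm R) (m : Finset R → ℕ) : mv (g * h) m = mv g (mv h m) := by
  funext A
  unfold mv
  rw [mul_inv_rev, map_mulp]

lemma mv_eq_iff (g : Equiv.Perm R) (m : Finset R → ℕ) : mv g m = m ↔ Inv g m := by
  constructor
  · intro h A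
    have := mv_map g m A
    rwa [h] at this
  · intro h
    funext A
    have h1 := h (A.map g⁻¹.toEmbedding)
    rw [map_map_invp] at h1
    exact h1.symm

lemma exists_map (g : Equiv.Perm R) (T : Finset R) : ∃ S : Finset R, T = S.map g.toEmbedding :=
  ⟨T.map g⁻¹.toEmbedding, (map_map_invp g T).symm⟩

lemma isBlk_mv (g : Equiv.Perm R) (m : Finset R → ℕ) (A : Finset R) :
    IsBlk (mv g m) (A.map g.toEmbedding) ↔ IsBlk m A := by
  unfold IsBlk
  rw [mv_map, Finset.card_map]

lemma mem_roots_mv (g : Equiv.Perm R) (m : Finset R → ℕ) (J A : Finset R) :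
    A.map g.toEmbedding ∈ roots (mv g m) (J.map g.toEmbedding) ↔ A ∈ roots m J := by
  unfold roots
  simp only [Finset.mem_filter, Finset.mem_powerset, Finset.map_subset_map]
  rw [isBlk_mv]
  refine and_congr_right fun _ => and_congr_right fun _ =>
    ⟨fun h B hBJ hB hAB => ?_, fun h B hBJ hB hAB => ?_⟩
  · exact Finset.map_injective _ (h _ (Finset.map_subset_map.mpr hBJ) ((isBlk_mv g m B).mpr hB)
      (Finset.map_subset_map.mpr hAB))
  · obtain ⟨B, rfl⟩ := exists_map g B
    rw [h B (Finset.map_subset_map.mp hBJ) ((isBlk_mv g m B).mp hB)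
      (Finset.map_subset_map.mp hAB)]

lemma roots_mv (g : Equiv.Perm R) (m : Finset R → ℕ) (J : Finset R) :
    roots (mv g m) (J.map g.toEmbedding)
      = (roots m J).map (Equiv.finsetCongr g).toEmbedding := by
  ext T
  obtain ⟨B, rfl⟩ := exists_map g T
  rw [mem_roots_mv]
  simp only [Finset.mem_map, Equiv.coe_toEmbedding, Equiv.finsetCongr_apply]
  constructor
  · intro h; exact ⟨B, h, rfl⟩
  · rintro ⟨B', h1, h2⟩
    rw [← Finset.map_injective _ h2]; exact h1

lemma mem_childs_mv (g : Equiv.Perm R) (m : Finset R → ℕ) (A B : Finset R) :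
    B.map g.toEmbedding ∈ childs (mv g m) (A.map g.toEmbedding) ↔ B ∈ childs m A := by
  unfold childs
  simp only [Finset.mem_filter, Finset.mem_powerset, Finset.map_subset_map]
  rw [isBlk_mv]
  refine and_congr Iff.rfl (and_congr ?_ (and_congr Iff.rfl ?_))
  · exact not_congr ⟨fun h => Finset.map_injective _ h, fun h => by rw [h]⟩
  · refine ⟨fun h C h1 h2 h3 h4 => ?_, fun h C h1 h2 h3 h4 => ?_⟩
    · exact Finset.map_injective _ (h _ (Finset.map_subset_map.mpr h1)
        (fun h5 => h2 (Finset.map_injective _ h5)) ((isBlk_mv g m C).mpr h3)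
        (Finset.map_subset_map.mpr h4))
    · obtain ⟨C, rfl⟩ := exists_map g C
      rw [h C (Finset.map_subset_map.mp h1) (fun h5 => h2 (by rw [h5])) ((isBlk_mv g m C).mp h3)
        (Finset.map_subset_map.mp h4)]

lemma childs_mv (g : Equiv.Perm R) (m : Finset R → ℕ) (A : Finset R) :
    childs (mv g m) (A.map g.toEmbedding)
      = (childs m A).map (Equiv.finsetCongr g).toEmbedding := by
  ext T
  obtain ⟨B, rfl⟩ := exists_map g T
  rw [mem_childs_mv]
  simp only [Finset.mem_map, Equiv.coe_toEmbedding, Equiv.finsetCongr_apply]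
  constructor
  · intro h; exact ⟨B, h, rfl⟩
  · rintro ⟨B', h1, h2⟩
    rw [← Finset.map_injective _ h2]; exact h1

lemma isForest_mv (g : Equiv.Perm R) {J : Finset R} {m : Finset R → ℕ} (hm : IsForest J m) :
    IsForest (J.map g.toEmbedding) (mv g m) := by
  refine ⟨fun A hA => ?_, fun A B hA hB => ?_, fun A hA => ?_⟩
  · obtain ⟨A, rfl⟩ := exists_map g A
    rw [mv_map] at hA
    exact Finset.map_subset_map.mpr (hm.supp A hA)
  · obtain ⟨A, rfl⟩ := exists_map g A
    obtain ⟨B, rfl⟩ := exists_map g B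
    rw [mv_map] at hA hB
    rcases hm.laminar A B hA hB with h | h | h
    · exact Or.inl (Finset.map_subset_map.mpr h)
    · exact Or.inr (Or.inl (Finset.map_subset_map.mpr h))
    · exact Or.inr (Or.inr ((Finset.disjoint_map _).mpr h))
  · obtain ⟨A, rfl⟩ := exists_map g A
    rw [mv_map] at hA
    rw [mv_map, childs_mv, Finset.card_map]
    exact hm.bound A hA

lemma isForest_mv_univ (g : Equiv.Perm R) {m : Finset R → ℕ} (hm : IsForest Finset.univ m) :
    IsForest Finset.univ (mv g m) := by
  have := isForest_mv g hm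
  rwa [Finset.map_univ_equiv] at this

lemma small_mv (g : Equiv.Perm R) {m : Finset R → ℕ} (hm : Small m) : Small (mv g m) := by
  intro A hA
  obtain ⟨A, rfl⟩ := exists_map g A
  have h := mem_roots_mv g m Finset.univ A
  rw [Finset.map_univ_equiv] at h
  rw [Finset.card_map]
  exact hm A (h.mp hA)

lemma deg_mv (g : Equiv.Perm R) (m : Finset R → ℕ) : deg (mv g m) = deg m := by
  unfold deg
  rw [← (Equiv.finsetCongr g).sum_comp (fun A => mv g m A)]
  exact Finset.sum_congr rfl fun A _ => mv_map g m A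

lemma inv_one (m : Finset R → ℕ) : Inv 1 m := fun A => by
  rw [map_onep]

end MV

end Pool.Agent.Mbar
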