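import Mathlib
import Pool.Agent.Mbar.Defs
import Pool.Agent.Mbar.DLEM

/-! # CENTROID : the centre of a stable rational curve -/

noncomputable section

namespace Pool.Agent.Mbar

open OnePoint Polynomial

open scoped Classical

section CENTROID

variable {Ω : Type} [Field Ω] {V : Type} {S : Finset V} {L : V → V → V → V → OnePoint Ω}

theorem Centroid.zero_ne_one_pt : ((0 : Ω) : OnePoint Ω) ≠ ((1 : Ω) : OnePoint Ω) := by
  intro h
  exact zero_ne_one (OnePoint.coe_injective h)

/-- the component adjacent to a block with at least two elements -/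
theorem adjacent (hL : IsSys S L) {φ : V → OnePoint Ω} (hφ : VMap S L φ) {o : V} (ho : o ∈ S)
    (h2 : ∃ b ∈ S, b ≠ o ∧ φ b = φ o) :
    ∃ a ∈ S, ∃ b ∈ S, ∃ c ∈ S, Dist3 a b c ∧ φ a = φ o ∧ φ b = φ o ∧ φ c ≠ φ o ∧
      ∀ m ∈ S, (L a b c m = L a b c c ↔ φ m ≠ φ o) := by
  -- the set of sizes
  let P : ℕ → Prop := fun n => ∃ a ∈ S, ∃ b ∈ S, ∃ c ∈ S, a ≠ b ∧ φ a = φ o ∧ φ b = φ o ∧
    φ c ≠ φ o ∧ (S.filter (fun m => L a b c m = L a b c c)).card = n
  have hP : ∃ n, P n := by
    obtain ⟨b, hb, hbo, hbφ⟩ := h2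
    obtain ⟨x, hx, y, hy, z, hz, hxy, hxz, hyz⟩ := hφ.1
    have hc : ∃ c ∈ S, φ c ≠ φ o := by
      by_cases h : φ x = φ o
      · exact ⟨y, hy, fun h' => hxy (h.trans h'.symm)⟩
      · exact ⟨x, hx, h⟩
    obtain ⟨c, hc, hcφ⟩ := hc
    exact ⟨_, o, ho, b, hb, c, hc, hbo.symm, rfl, hbφ, hcφ, rfl⟩
  obtain ⟨a, ha, b, hb, c, hc, hab, hφa, hφb, hφc, hcard⟩ := Nat.find_spec hP
  have hmin : ∀ n, P n → Nat.find hP ≤ n := fun n hn => Nat.find_min' hP hn
  have hac : a ≠ c := fun h => hφc (h ▸ hφa)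
  have hbc : b ≠ c := fun h => hφc (h ▸ hφb)
  have hd3 : Dist3 a b c := ⟨hab, hac, hbc⟩
  have h1 : L a b c c = ((1 : Ω) : OnePoint Ω) := hL.one a b c ha hb hc hd3
  have h0 : L a b c a = ((0 : Ω) : OnePoint Ω) := hL.zero a b c ha hb hc hd3
  have hi : L a b c b = ∞ := hL.infty a b c ha hb hc hd3
  refine ⟨a, ha, b, hb, c, hc, hd3, hφa, hφb, hφc, fun m hm => ⟨fun hmc hmo => ?_, fun hmo => ?_⟩⟩
  · -- `m` is in the block and in the fibre of `c`
    have hma : m ≠ a := by
      rintro rfl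
      rw [h0, h1] at hmc
      exact Centroid.zero_ne_one_pt hmc
    have hmb : m ≠ b := by
      rintro rfl
      rw [hi, h1] at hmc
      exact OnePoint.infty_ne_coe _ hmc
    have hmc' : m ≠ c := fun h => hφc (h ▸ hmo)
    have hv : VMap S L (L a b c) := vmap_self hL ha hb hc hd3
    have hdma : Dist3 m a c := ⟨hma, hmc', hac⟩
    have hdmca : Dist3 m c a := ⟨hmc', hma, hac.symm⟩
    -- lemma D for the component of `a b c`
    have hD : ∀ x ∈ S, L a b c x ≠ L a b c c → L m c a x = ((1 : Ω) : OnePoint Ω) := by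
      intro x hx hxc
      refine lemma_D hL hv hm hc ha hx hmc' hmc ?_ ?_
      · rw [hmc, h0, h1]; exact Centroid.zero_ne_one_pt
      · rw [hmc]; exact hxc
    have hsim : ∃ g : GL (Fin 2) Ω, ∀ l ∈ S, L m a c l = g • L m c a l := by
      refine hL.comp m c a hm hc ha hdmca m a c hm ha hc ?_
      rw [hL.zero m c a hm hc ha hdmca, hL.infty m c a hm hc ha hdmca, hL.one m c a hm hc ha hdmca]
      exact ⟨Centroid.zero_ne_one_pt, (OnePoint.infty_ne_coe _).symm, (OnePoint.infty_ne_coe _).symm⟩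
    have hiff : ∀ x ∈ S, L a b c x ≠ L a b c c → L m a c x = ∞ := by
      intro x hx hxc
      obtain ⟨g, hg⟩ := hsim
      rw [hg x hx, hD x hx hxc, ← hL.one m c a hm hc ha hdmca, ← hg a ha]
      exact hL.infty m a c hm ha hc hdma
    have hlt : (S.filter (fun x => L m a c x = L m a c c)).card < Nat.find hP := by
      rw [← hcard]
      refine Finset.card_lt_card ⟨fun x hx => ?_, fun hsub => ?_⟩
      · rw [Finset.mem_filter] at hx ⊢
        refine ⟨hx.1, ?_⟩
        by_contra hne
        have := hiff x hx.1 hne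
        rw [this, hL.one m a c hm ha hc hdma] at hx
        exact OnePoint.infty_ne_coe _ hx.2
      · have : m ∈ S.filter (fun x => L a b c x = L a b c c) := Finset.mem_filter.mpr ⟨hm, hmc⟩
        have := (Finset.mem_filter.mp (hsub this)).2
        rw [hL.zero m a c hm ha hc hdma, hL.one m a c hm ha hc hdma] at this
        exact Centroid.zero_ne_one_pt this
    have hge := hmin _ ⟨m, hm, a, ha, c, hc, hma, hmo, hφa, hφc, rfl⟩
    omega
  · rw [h1]
    exact lemma_D hL hφ ha hb hc hm hab (hφa.trans hφb.symm) (by rw [hφa]; exact hφc)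
      (by rw [hφa]; exact hmo)

/-- the fibres of the adjacent component -/
theorem Centroid.adjacent_fibre (hL : IsSys S L) {φ : V → OnePoint Ω} (hφ : VMap S L φ) {o : V} (ho : o ∈ S)
    (h2 : ∃ b ∈ S, b ≠ o ∧ φ b = φ o) :
    ∃ a ∈ S, ∃ b ∈ S, ∃ c ∈ S, Dist3 a b c ∧
      (∀ m ∈ S, (L a b c m = L a b c c ↔ φ m ≠ φ o)) ∧
      ∀ x ∈ S, φ x = φ o → (S.filter (fun m => L a b c m = L a b c x)).card <
        (S.filter (fun m => φ m = φ o)).card := by
  obtain ⟨a, ha, b, hb, c, hc, hd, hφa, hφb, hφc, h⟩ := adjacent hL hφ ho h2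
  refine ⟨a, ha, b, hb, c, hc, hd, h, fun x hx hxo => ?_⟩
  have hxc : L a b c x ≠ L a b c c := fun h' => (h x hx).mp h' hxo
  have h0 : L a b c a = ((0 : Ω) : OnePoint Ω) := hL.zero a b c ha hb hc hd
  have hi : L a b c b = ∞ := hL.infty a b c ha hb hc hd
  refine Finset.card_lt_card ⟨fun m hm => ?_, fun hsub => ?_⟩
  · rw [Finset.mem_filter] at hm ⊢
    refine ⟨hm.1, ?_⟩
    by_contra hne
    exact hxc (hm.2 ▸ (h m hm.1).mpr hne)
  · have h3 := (Finset.mem_filter.mp (hsub (Finset.mem_filter.mpr ⟨ha, hφa⟩))).2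
    have h4 := (Finset.mem_filter.mp (hsub (Finset.mem_filter.mpr ⟨hb, hφb⟩))).2
    rw [← h3, h0, hi] at h4
    exact OnePoint.infty_ne_coe _ h4

theorem rooted_center (hL : IsSys S L) {o : V} (ho : o ∈ S) (hS : 3 ≤ S.card) :
    ∃ i ∈ S, ∃ j ∈ S, ∃ k ∈ S, Dist3 i j k ∧ ∀ m ∈ S, L i j k m = L i j k o → m = o := by
  let P : ℕ → Prop := fun n => ∃ a ∈ S, ∃ b ∈ S, ∃ c ∈ S, Dist3 a b c ∧
    (S.filter (fun m => L a b c m = L a b c o)).card = n
  have hP : ∃ n, P n := by
    obtain ⟨a, b, c, ha, hb, hc, hab, hac, hbc⟩ := Finset.two_lt_card_iff.mp (show 2 < S.card by omega)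
    exact ⟨_, a, ha, b, hb, c, hc, ⟨hab, hac, hbc⟩, rfl⟩
  obtain ⟨i, hi, j, hj, k, hk, hd, hcard⟩ := Nat.find_spec hP
  refine ⟨i, hi, j, hj, k, hk, hd, fun m hm hmo => ?_⟩
  by_contra hne
  obtain ⟨a, ha, b, hb, c, hc, hd', h, hlt⟩ := Centroid.adjacent_fibre hL (vmap_self hL hi hj hk hd) ho
    ⟨m, hm, hne, hmo⟩
  have h1 := hlt o ho rfl
  have h2 := Nat.find_min' hP ⟨a, ha, b, hb, c, hc, hd', rfl⟩
  rw [hcard] at h1
  omega

theorem rooted_unique (hL : IsSys S L) {o : V} (ho : o ∈ S) {φ ψ : V → OnePoint Ω}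
    (h1 : VMap S L φ) (h2 : VMap S L ψ) (hφ : ∀ m ∈ S, φ m = φ o → m = o)
    (hψ : ∀ m ∈ S, ψ m = ψ o → m = o) : Sim S φ ψ := by
  rcases vmap_compare hL h1 h2 with h | ⟨a, ha, h⟩
  · exact h
  · exfalso
    by_cases hao : φ a = φ o
    · have haoe : a = o := hφ a ha hao
      subst haoe
      obtain ⟨x, hx, y, hy, z, hz, hxy, hxz, hyz⟩ := h2.1
      -- at most one of x y z is a
      have key : ∀ u ∈ S, u ≠ a → φ u ≠ φ a := fun u hu hne he => hne (hφ u hu he)
      by_cases hxa : x = a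
      · subst hxa
        exact hyz (h y hy z hz (key y hy (fun e => hxy (by rw [e]))) (key z hz (fun e => hxz (by rw [e]))))
      · by_cases hya : y = a
        · subst hya
          exact hxz (h x hx z hz (key x hx hxa) (key z hz (fun e => hyz (by rw [e]))))
        · exact hxy (h x hx y hy (key x hx hxa) (key y hy hya))
    · obtain ⟨x, hx, y, hy, z, hz, hxy, hxz, hyz⟩ := h1.1
      have hex : ∃ m ∈ S, φ m ≠ φ a ∧ φ m ≠ φ o := by
        by_contra hcon
        push Not at hcon
        have e1 := hcon x hx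
        have e2 := hcon y hy
        have e3 := hcon z hz
        by_cases hxa : φ x = φ a
        · have hya : φ y ≠ φ a := fun e => hxy (hxa.trans e.symm)
          have hza : φ z ≠ φ a := fun e => hxz (hxa.trans e.symm)
          exact hyz ((e2 hya).trans (e3 hza).symm)
        · by_cases hya : φ y = φ a
          · have hza : φ z ≠ φ a := fun e => hyz (hya.trans e.symm)
            exact hxz ((e1 hxa).trans (e3 hza).symm)
          · exact hxy ((e1 hxa).trans (e2 hya).symm)
      obtain ⟨m, hm, hma, hmo⟩ := hex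
      have := h m hm o ho hma (fun e => hao e.symm)
      exact hmo (by rw [hψ m hm this])

theorem center_exists (hL : IsSys S L) (hS : 3 ≤ S.card) :
    ∃ i ∈ S, ∃ j ∈ S, ∃ k ∈ S, Dist3 i j k ∧
      ∀ a ∈ S, 2 * (S.filter (fun x => L i j k x = L i j k a)).card ≤ S.card := by
  let P : ℕ → Prop := fun n => ∃ a ∈ S, ∃ b ∈ S, ∃ c ∈ S, Dist3 a b c ∧
    ∀ x ∈ S, (S.filter (fun m => L a b c m = L a b c x)).card ≤ n
  have hP : ∃ n, P n := by
    obtain ⟨a, b, c, ha, hb, hc, hab, hac, hbc⟩ := Finset.two_lt_card_iff.mp (show 2 < S.card by omega)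
    exact ⟨S.card, a, ha, b, hb, c, hc, ⟨hab, hac, hbc⟩, fun x _ => Finset.card_filter_le _ _⟩
  obtain ⟨i, hi, j, hj, k, hk, hd, hcard⟩ := Nat.find_spec hP
  refine ⟨i, hi, j, hj, k, hk, hd, fun o ho => ?_⟩
  by_contra hcon
  push Not at hcon
  have hJ := hcard o ho
  have hJ2 : 1 < (S.filter (fun x => L i j k x = L i j k o)).card := by omega
  have hex : ∃ b ∈ S, b ≠ o ∧ L i j k b = L i j k o := by
    obtain ⟨b, hb, hbo⟩ := Finset.exists_mem_ne hJ2 o
    rw [Finset.mem_filter] at hb
    exact ⟨b, hb.1, hbo, hb.2⟩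
  obtain ⟨a, ha, b, hb, c, hc, hd', h, hlt⟩ := Centroid.adjacent_fibre hL (vmap_self hL hi hj hk hd) ho hex
  have hpos : 0 < Nat.find hP := by omega
  have h2 : P (Nat.find hP - 1) := by
    refine ⟨a, ha, b, hb, c, hc, hd', fun x hx => ?_⟩
    by_cases hxo : L i j k x = L i j k o
    · have := hlt x hx hxo
      omega
    · have hsub : S.filter (fun m => L a b c m = L a b c x) ⊆
          S \ S.filter (fun m => L i j k m = L i j k o) := by
        intro m hm
        rw [Finset.mem_filter] at hm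
        rw [Finset.mem_sdiff, Finset.mem_filter]
        refine ⟨hm.1, fun h' => ?_⟩
        have h3 : L a b c m = L a b c c := by rw [hm.2]; exact (h x hx).mpr hxo
        exact (h m hm.1).mp h3 h'.2
      have h4 := Finset.card_le_card hsub
      rw [Finset.card_sdiff_of_subset (Finset.filter_subset _ _)] at h4
      omega
  have := Nat.find_min' hP h2
  omega

omit [Field Ω] in
/-- the complement of a block is contained in a block of a different component -/
theorem Centroid.compare_card {φ ψ : V → OnePoint Ω} {a : V}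
    (h : ∀ m ∈ S, ∀ m' ∈ S, φ m ≠ φ a → φ m' ≠ φ a → ψ m = ψ m') {m : V} (hm : m ∈ S)
    (hma : φ m ≠ φ a) :
    S \ S.filter (fun x => φ x = φ a) ⊆ S.filter (fun x => ψ x = ψ m) := by
  intro x hx
  rw [Finset.mem_sdiff, Finset.mem_filter] at hx
  rw [Finset.mem_filter]
  exact ⟨hx.1, h x hx.1 m hm (fun e => hx.2 ⟨hx.1, e⟩) hma⟩

omit [Field Ω] in
theorem Centroid.exists_off (φ : V → OnePoint Ω) (h : Sep3 S φ) (a : V) : ∃ m ∈ S, φ m ≠ φ a := by
  obtain ⟨x, hx, y, hy, z, hz, hxy, hxz, hyz⟩ := h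
  by_cases hxa : φ x = φ a
  · exact ⟨y, hy, fun e => hxy (hxa.trans e.symm)⟩
  · exact ⟨x, hx, hxa⟩

theorem center_unique (hL : IsSys S L) {φ ψ : V → OnePoint Ω} (h1 : VMap S L φ)
    (h2 : VMap S L ψ) (hφ : ∀ a ∈ S, 2 * (S.filter (fun x => φ x = φ a)).card < S.card)
    (hψ : ∀ a ∈ S, 2 * (S.filter (fun x => ψ x = ψ a)).card < S.card) : Sim S φ ψ := by
  rcases vmap_compare hL h1 h2 with h | ⟨a, ha, h⟩
  · exact h
  · exfalso
    obtain ⟨m, hm, hma⟩ := Centroid.exists_off φ h1.1 a
    have hsub := Finset.card_le_card (Centroid.compare_card h hm hma)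
    rw [Finset.card_sdiff_of_subset (Finset.filter_subset _ _)] at hsub
    have e1 := hφ a ha
    have e2 := hψ m hm
    omega

theorem half_unique (hL : IsSys S L) {φ ψ : V → OnePoint Ω} (h1 : VMap S L φ)
    (h2 : VMap S L ψ) {a b : V} (ha : a ∈ S) (hb : b ∈ S)
    (hφ : 2 * (S.filter (fun x => φ x = φ a)).card = S.card)
    (hψ : 2 * (S.filter (fun x => ψ x = ψ b)).card = S.card) :
    S.filter (fun x => ψ x = ψ b) = S.filter (fun x => φ x = φ a) ∨
      S.filter (fun x => ψ x = ψ b) = S \ S.filter (fun x => φ x = φ a) := by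
  have hcompl : (S \ S.filter (fun x => φ x = φ a)).card = (S.filter (fun x => ψ x = ψ b)).card := by
    rw [Finset.card_sdiff_of_subset (Finset.filter_subset _ _)]; omega
  have heq : (S.filter (fun x => φ x = φ a)).card = (S.filter (fun x => ψ x = ψ b)).card := by omega
  rcases vmap_compare hL h1 h2 with h | ⟨c, hc, h⟩
  · -- same component
    by_cases hba : φ b = φ a
    · left
      ext x
      simp only [Finset.mem_filter]
      refine and_congr_right fun hx => ?_
      rw [← sim_eq_iff h hx hb, hba]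
    · right
      refine Finset.eq_of_subset_of_card_le (fun x hx => ?_) (le_of_eq hcompl)
      rw [Finset.mem_filter] at hx
      rw [Finset.mem_sdiff, Finset.mem_filter]
      refine ⟨hx.1, fun h' => hba ?_⟩
      rw [← (sim_eq_iff h hx.1 hb).mpr hx.2, h'.2]
  · obtain ⟨m, hm, hmc⟩ := Centroid.exists_off φ h1.1 c
    have hsub := Centroid.compare_card h hm hmc
    by_cases hbm : ψ b = ψ m
    · rw [← hbm] at hsub
      by_cases hca : φ c = φ a
      · right
        rw [hca] at hsub
        exact (Finset.eq_of_subset_of_card_le hsub (le_of_eq hcompl.symm)).symm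
      · left
        have hsub2 : S.filter (fun x => φ x = φ a) ⊆ S.filter (fun x => ψ x = ψ b) := by
          refine Finset.Subset.trans (fun x hx => ?_) hsub
          rw [Finset.mem_filter] at hx
          rw [Finset.mem_sdiff, Finset.mem_filter]
          exact ⟨hx.1, fun h' => hca (h'.2.symm.trans hx.2)⟩
        exact (Finset.eq_of_subset_of_card_le hsub2 (le_of_eq heq.symm)).symm
    · -- the block of `b` is contained in the block of `c`
      have hsub3 : S.filter (fun x => ψ x = ψ b) ⊆ S.filter (fun x => φ x = φ c) := by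
        intro x hx
        rw [Finset.mem_filter] at hx ⊢
        refine ⟨hx.1, ?_⟩
        by_contra hne
        have : x ∈ S \ S.filter (fun x => φ x = φ c) := by
          rw [Finset.mem_sdiff, Finset.mem_filter]
          exact ⟨hx.1, fun h' => hne h'.2⟩
        have := (Finset.mem_filter.mp (hsub this)).2
        exact hbm (hx.2.symm.trans this)
      by_cases hca : φ c = φ a
      · left
        rw [hca] at hsub3
        exact Finset.eq_of_subset_of_card_le hsub3 (le_of_eq heq)
      · right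
        refine Finset.eq_of_subset_of_card_le (fun x hx => ?_) (le_of_eq hcompl)
        have hx' := Finset.mem_filter.mp (hsub3 hx)
        rw [Finset.mem_sdiff, Finset.mem_filter]
        exact ⟨hx'.1, fun h' => hca (hx'.2.symm.trans h'.2)⟩

theorem half_no_center (hL : IsSys S L) {φ ψ : V → OnePoint Ω} (h1 : VMap S L φ)
    (h2 : VMap S L ψ) {a : V} (ha : a ∈ S)
    (hφ : 2 * (S.filter (fun x => φ x = φ a)).card = S.card) :
    ¬ ∀ b ∈ S, 2 * (S.filter (fun x => ψ x = ψ b)).card < S.card := by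
  intro hψ
  rcases vmap_compare hL h1 h2 with h | ⟨c, hc, h⟩
  · have e1 := hψ a ha
    have : S.filter (fun x => ψ x = ψ a) = S.filter (fun x => φ x = φ a) := by
      ext x
      simp only [Finset.mem_filter]
      exact and_congr_right fun hx => (sim_eq_iff h hx ha).symm
    rw [this] at e1
    omega
  · obtain ⟨m, hm, hmc⟩ := Centroid.exists_off φ h1.1 c
    have hsub := Finset.card_le_card (Centroid.compare_card h hm hmc)
    rw [Finset.card_sdiff_of_subset (Finset.filter_subset _ _)] at hsub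
    have e2 := hψ m hm
    by_cases hca : φ c = φ a
    · rw [hca] at hsub
      omega
    · have hdis : S.filter (fun x => φ x = φ c) ⊆ S \ S.filter (fun x => φ x = φ a) := by
        intro x hx
        rw [Finset.mem_filter] at hx
        rw [Finset.mem_sdiff, Finset.mem_filter]
        exact ⟨hx.1, fun h' => hca (hx.2.symm.trans h'.2)⟩
      have := Finset.card_le_card hdis
      rw [Finset.card_sdiff_of_subset (Finset.filter_subset _ _)] at this
      have hle := Finset.card_filter_le S (fun x => φ x = φ c)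
      omega

end CENTROID

end Pool.Agent.Mbar
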