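import Mathlib
import Pool.Agent.Mbar.Defs
import Pool.Agent.Mbar.ONE
import Pool.Agent.Mbar.DLEM
import Pool.Agent.Mbar.CENTROID

/-! # EDEC1 : decomposition at an edge -/

noncomputable section

namespace Pool.Agent.Mbar

open OnePoint Polynomial

open scoped Classical

namespace EDEC1

variable {Ω : Type} [Field Ω] {R : Type} [Fintype R]

/-- at least two of `i, j, k` are in `J` -/
def Two (J : Finset R) (i j k : Option R) : Prop :=
  (i ∈ J.map Function.Embedding.some ∧ j ∈ J.map Function.Embedding.some) ∨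
  (i ∈ J.map Function.Embedding.some ∧ k ∈ J.map Function.Embedding.some) ∨
  (j ∈ J.map Function.Embedding.some ∧ k ∈ J.map Function.Embedding.some)

/-- everything outside of `J` is replaced by `none` -/
def pr (J : Finset R) (x : Option R) : Option R :=
  if x ∈ J.map Function.Embedding.some then x else none

/-- `none` is replaced by `c` -/
def rho (c : R) (x : Option R) : Option R := Option.some (x.getD c)

omit [Fintype R] in
theorem some_mem {J : Finset R} {x : R} :
    (Option.some x ∈ J.map Function.Embedding.some) ↔ x ∈ J := by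
  simp [Finset.mem_map]

omit [Fintype R] in
theorem none_not_mem {J : Finset R} :
    ¬ ((none : Option R) ∈ J.map Function.Embedding.some) := by
  simp [Finset.mem_map]

theorem mem_allS {x : Option R} : x ∈ allS R ↔ x ≠ none := by
  unfold allS
  cases x <;> simp [Finset.mem_map]

theorem some_allS (x : R) : Option.some x ∈ allS R := mem_allS.mpr (by simp)

omit [Fintype R] in
theorem pr_mem (J : Finset R) (x : Option R) : pr J x ∈ Finset.insertNone J := by
  unfold pr
  split_ifs with h
  · cases x with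
    | none => simp
    | some x => rw [Finset.some_mem_insertNone]; exact some_mem.mp h
  · simp

omit [Fintype R] in
theorem pr_in {J : Finset R} {x : Option R} (h : x ∈ J.map Function.Embedding.some) :
    pr J x = x := if_pos h

omit [Fintype R] in
theorem pr_out {J : Finset R} {x : Option R} (h : ¬ x ∈ J.map Function.Embedding.some) :
    pr J x = none := if_neg h

theorem rho_allS (c : R) (x : Option R) : rho c x ∈ allS R := some_allS _

omit [Fintype R] in
theorem pr_rho {J : Finset R} {c : R} (hc : c ∉ J) {x : Option R}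
    (hx : x ∈ Finset.insertNone J) : pr J (rho c x) = x := by
  cases x with
  | none =>
    unfold rho
    rw [pr_out]
    rw [some_mem]
    simpa using hc
  | some x =>
    unfold rho
    rw [pr_in]
    · rfl
    · rw [some_mem]
      simpa using (Finset.some_mem_insertNone.mp hx)

/-- complement -/
theorem two_compl {J : Finset R} {i j k : Option R} (hi : i ∈ allS R) (hj : j ∈ allS R)
    (hk : k ∈ allS R) : Two J i j k ∨ Two Jᶜ i j k := by
  rw [mem_allS] at hi hj hk
  obtain ⟨i, rfl⟩ := Option.ne_none_iff_exists'.mp hi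
  obtain ⟨j, rfl⟩ := Option.ne_none_iff_exists'.mp hj
  obtain ⟨k, rfl⟩ := Option.ne_none_iff_exists'.mp hk
  unfold Two
  simp only [some_mem, Finset.mem_compl]
  tauto

theorem not_both {J : Finset R} {i j k : Option R} :
    ¬ (Two J i j k ∧ Two Jᶜ i j k) := by
  unfold Two
  cases i <;> cases j <;> cases k <;>
    simp only [some_mem, Finset.mem_compl, none_not_mem] <;> tauto

omit [Fintype R] in
theorem pr_inj {J : Finset R} {i j k : Option R} (h : Dist3 i j k) (h2 : Two J i j k) :
    Dist3 (pr J i) (pr J j) (pr J k) := by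
  obtain ⟨h12, h13, h23⟩ := h
  unfold Two at h2
  unfold Dist3 pr
  by_cases hi : i ∈ J.map Function.Embedding.some <;>
  by_cases hj : j ∈ J.map Function.Embedding.some <;>
  by_cases hk : k ∈ J.map Function.Embedding.some <;>
    simp only [hi, hj, hk, if_false, and_true, and_false, or_false, false_or,
      or_self, if_pos] at h2 ⊢
  · exact ⟨h12, h13, h23⟩
  · refine ⟨h12, ?_, ?_⟩ <;> rintro rfl <;> [exact none_not_mem hi; exact none_not_mem hj]
  · refine ⟨?_, h13, ?_⟩ <;> intro h <;> [(subst h; exact none_not_mem hi);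
      (rw [← h] at hk; exact none_not_mem hk)]
  · refine ⟨?_, ?_, h23⟩ <;> intro h <;> [(rw [← h] at hj; exact none_not_mem hj);
      (rw [← h] at hk; exact none_not_mem hk)]

omit [Fintype R] in
/-- three labels with different projections -/
theorem two_of_pr {J : Finset R} {a b c : Option R}
    (h : Dist3 (pr J a) (pr J b) (pr J c)) : Two J a b c := by
  obtain ⟨h12, h13, h23⟩ := h
  unfold Two
  unfold pr at h12 h13 h23
  by_cases hi : a ∈ J.map Function.Embedding.some <;>
  by_cases hj : b ∈ J.map Function.Embedding.some <;>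
  by_cases hk : c ∈ J.map Function.Embedding.some <;>
    simp_all

omit [Fintype R] in
theorem rho_inj {J : Finset R} {c : R} (hc : c ∉ J) {i j k : Option R}
    (hi : i ∈ Finset.insertNone J) (hj : j ∈ Finset.insertNone J)
    (hk : k ∈ Finset.insertNone J)
    (h : Dist3 i j k) : Dist3 (rho c i) (rho c j) (rho c k) := by
  obtain ⟨h12, h13, h23⟩ := h
  refine ⟨fun e => h12 ?_, fun e => h13 ?_, fun e => h23 ?_⟩
  · rw [← pr_rho hc hi, ← pr_rho hc hj, e]
  · rw [← pr_rho hc hi, ← pr_rho hc hk, e]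
  · rw [← pr_rho hc hj, ← pr_rho hc hk, e]

omit [Fintype R] in
theorem rho_two {J : Finset R} {c : R} (hc : c ∉ J) {i j k : Option R}
    (hi : i ∈ Finset.insertNone J) (hj : j ∈ Finset.insertNone J)
    (hk : k ∈ Finset.insertNone J)
    (h : Dist3 i j k) : Two J (rho c i) (rho c j) (rho c k) := by
  apply two_of_pr
  rw [pr_rho hc hi, pr_rho hc hj, pr_rho hc hk]
  exact h

/-- `L` collapses the complement of `J` on all components on the side of `J` -/
def Half (J : Finset R) (L : Option R → Option R → Option R → Option R → OnePoint Ω) : Prop :=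
  ∀ i ∈ allS R, ∀ j ∈ allS R, ∀ k ∈ allS R, Dist3 i j k → Two J i j k →
    ∀ m m' : R, m ∉ J → m' ∉ J → L i j k (Option.some m) = L i j k (Option.some m')

/-- on the side of `J` the system `L` is given by the rooted system `s` -/
def Side (J : Finset R) (L s : Option R → Option R → Option R → Option R → OnePoint Ω) : Prop :=
  ∀ i ∈ allS R, ∀ j ∈ allS R, ∀ k ∈ allS R, Dist3 i j k → Two J i j k → ∀ l ∈ allS R,
    L i j k l = s (pr J i) (pr J j) (pr J k) (pr J l)

/-- the restriction of the system to one side -/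
def res (J : Finset R) (c : R) (L : Option R → Option R → Option R → Option R → OnePoint Ω) :
    Option R → Option R → Option R → Option R → OnePoint Ω := fun i j k l =>
  if i ∈ Finset.insertNone J ∧ j ∈ Finset.insertNone J ∧ k ∈ Finset.insertNone J ∧
    l ∈ Finset.insertNone J ∧ Dist3 i j k then L (rho c i) (rho c j) (rho c k) (rho c l) else ∞

/-- gluing of two rooted systems -/
def glue (J : Finset R) (s s' : Option R → Option R → Option R → Option R → OnePoint Ω) :
    Option R → Option R → Option R → Option R → OnePoint Ω := fun i j k l =>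
  if i ∈ allS R ∧ j ∈ allS R ∧ k ∈ allS R ∧ l ∈ allS R ∧ Dist3 i j k then
    (if Two J i j k then s (pr J i) (pr J j) (pr J k) (pr J l)
      else s' (pr Jᶜ i) (pr Jᶜ j) (pr Jᶜ k) (pr Jᶜ l)) else ∞

/-- a map with the values `0, ∞, 1` at three points is determined by similarity -/
theorem normal_eq {V : Type} {S : Finset V} {L : V → V → V → V → OnePoint Ω} (hL : IsSys S L)
    {i j k a b c : V} (hi : i ∈ S) (hj : j ∈ S) (hk : k ∈ S) (h : Dist3 i j k)
    (ha : a ∈ S) (hb : b ∈ S) (hc : c ∈ S) (h' : Dist3 a b c)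
    (h0 : L i j k a = ((0 : Ω) : OnePoint Ω)) (h1 : L i j k b = ∞)
    (h2 : L i j k c = ((1 : Ω) : OnePoint Ω)) : ∀ l ∈ S, L a b c l = L i j k l := by
  have h3 : Dist3 (((0 : Ω) : OnePoint Ω)) (∞ : OnePoint Ω) (((1 : Ω) : OnePoint Ω)) := by
    refine ⟨?_, ?_, ?_⟩
    · exact OnePoint.coe_ne_infty _
    · intro h
      exact zero_ne_one (OnePoint.coe_injective h)
    · exact OnePoint.infty_ne_coe _
  obtain ⟨g, hg⟩ := hL.comp i j k hi hj hk h a b c ha hb hc (by rw [h0, h1, h2]; exact h3)
  intro l hl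
  rw [hg l hl]
  have e0 : g • (((0 : Ω) : OnePoint Ω)) = (1 : GL (Fin 2) Ω) • (((0 : Ω) : OnePoint Ω)) := by
    rw [one_smul, ← h0, ← hg a ha, hL.zero a b c ha hb hc h', h0]
  have e1 : g • (∞ : OnePoint Ω) = (1 : GL (Fin 2) Ω) • (∞ : OnePoint Ω) := by
    rw [one_smul, ← h1, ← hg b hb, hL.infty a b c ha hb hc h', h1]
  have e2 : g • (((1 : Ω) : OnePoint Ω)) = (1 : GL (Fin 2) Ω) • (((1 : Ω) : OnePoint Ω)) := by
    rw [one_smul, ← h2, ← hg c hc, hL.one a b c ha hb hc h', h2]
  rw [gl_ext h3 e0 e1 e2, one_smul]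

/-- `x'` is `x`, or both are outside `J` -/
def Same (J : Finset R) (x x' : Option R) : Prop :=
  x' = x ∨ ((¬ x ∈ J.map Function.Embedding.some) ∧ ¬ x' ∈ J.map Function.Embedding.some)

omit [Field Ω] in
theorem half_same {J : Finset R} {L : Option R → Option R → Option R → Option R → OnePoint Ω}
    (hh : Half J L) {i j k x x' : Option R} (hi : i ∈ allS R) (hj : j ∈ allS R)
    (hk : k ∈ allS R) (h : Dist3 i j k) (h2 : Two J i j k) (hx : x ∈ allS R) (hx' : x' ∈ allS R)
    (hs : Same J x x') : L i j k x' = L i j k x := by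
  rcases hs with rfl | ⟨h3, h4⟩
  · rfl
  · rw [mem_allS] at hx hx'
    obtain ⟨x, rfl⟩ := Option.ne_none_iff_exists'.mp hx
    obtain ⟨x', rfl⟩ := Option.ne_none_iff_exists'.mp hx'
    rw [some_mem] at h3 h4
    exact hh i hi j hj k hk h h2 x' x h4 h3

theorem indep {J : Finset R} {L : Option R → Option R → Option R → Option R → OnePoint Ω}
    (hL : IsSys (allS R) L) (hh : Half J L) {i j k l i' j' k' l' : Option R} (hi : i ∈ allS R)
    (hj : j ∈ allS R) (hk : k ∈ allS R) (hl : l ∈ allS R) (h : Dist3 i j k) (h2 : Two J i j k)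
    (hi' : i' ∈ allS R) (hj' : j' ∈ allS R) (hk' : k' ∈ allS R) (hl' : l' ∈ allS R)
    (h' : Dist3 i' j' k')
    (si : Same J i i') (sj : Same J j j') (sk : Same J k k') (sl : Same J l l') :
    L i' j' k' l' = L i j k l := by
  rw [normal_eq hL hi hj hk h hi' hj' hk' h' _ _ _ l' hl', half_same hh hi hj hk h h2 hl hl' sl]
  · rw [half_same hh hi hj hk h h2 hi hi' si, hL.zero i j k hi hj hk h]
  · rw [half_same hh hi hj hk h h2 hj hj' sj, hL.infty i j k hi hj hk h]
  · rw [half_same hh hi hj hk h h2 hk hk' sk, hL.one i j k hi hj hk h]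

/-- the restriction is a rooted system -/
theorem res_sys {J : Finset R} {c : R} (hc : c ∉ J)
    {L : Option R → Option R → Option R → Option R → OnePoint Ω}
    (hL : IsSys (allS R) L) : IsSys (Finset.insertNone J) (res J c L) := by
  refine ⟨?_, ?_, ?_, ?_, ?_⟩
  · intro i j k l h
    exact if_neg h
  · intro i j k hi hj hk h
    unfold res
    rw [if_pos ⟨hi, hj, hk, hi, h⟩]
    exact hL.zero _ _ _ (rho_allS _ _) (rho_allS _ _) (rho_allS _ _) (rho_inj hc hi hj hk h)
  · intro i j k hi hj hk h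
    unfold res
    rw [if_pos ⟨hi, hj, hk, hj, h⟩]
    exact hL.infty _ _ _ (rho_allS _ _) (rho_allS _ _) (rho_allS _ _) (rho_inj hc hi hj hk h)
  · intro i j k hi hj hk h
    unfold res
    rw [if_pos ⟨hi, hj, hk, hk, h⟩]
    exact hL.one _ _ _ (rho_allS _ _) (rho_allS _ _) (rho_allS _ _) (rho_inj hc hi hj hk h)
  · intro i j k hi hj hk h a b d ha hb hd hD
    have e : ∀ l, l ∈ Finset.insertNone J → res J c L i j k l =
        L (rho c i) (rho c j) (rho c k) (rho c l) := fun l hl => if_pos ⟨hi, hj, hk, hl, h⟩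
    rw [e a ha, e b hb, e d hd] at hD
    obtain ⟨g, hg⟩ := hL.comp _ _ _ (rho_allS c i) (rho_allS c j) (rho_allS c k)
      (rho_inj hc hi hj hk h) _ _ _ (rho_allS c a) (rho_allS c b) (rho_allS c d) hD
    have hab : Dist3 a b d := by
      obtain ⟨h1, h2, h3⟩ := hD
      exact ⟨fun h => h1 (by rw [h]), fun h => h2 (by rw [h]), fun h => h3 (by rw [h])⟩
    refine ⟨g, fun l hl => ?_⟩
    rw [e l hl, ← hg _ (rho_allS c l)]
    exact if_pos ⟨ha, hb, hd, hl, hab⟩

/-- the system is recovered from its restriction -/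
theorem side_res {J : Finset R} {c : R} (hc : c ∉ J)
    {L : Option R → Option R → Option R → Option R → OnePoint Ω}
    (hL : IsSys (allS R) L) (hh : Half J L) : Side J L (res J c L) := by
  intro i hi j hj k hk h h2 l hl
  have hp := pr_inj h h2
  unfold res
  rw [if_pos ⟨pr_mem J i, pr_mem J j, pr_mem J k, pr_mem J l, hp⟩]
  have hs : ∀ x : Option R, x ∈ allS R → Same J x (rho c (pr J x)) := by
    intro x hx
    by_cases hxJ : x ∈ J.map Function.Embedding.some
    · left
      rw [pr_in hxJ]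
      rw [mem_allS] at hx
      obtain ⟨x, rfl⟩ := Option.ne_none_iff_exists'.mp hx
      rfl
    · right
      refine ⟨hxJ, ?_⟩
      rw [pr_out hxJ]
      unfold rho
      rw [some_mem]
      simpa using hc
  exact (indep hL hh hi hj hk hl h h2 (rho_allS _ _) (rho_allS _ _) (rho_allS _ _) (rho_allS _ _)
    (rho_inj hc (pr_mem J i) (pr_mem J j) (pr_mem J k) hp) (hs i hi) (hs j hj) (hs k hk)
    (hs l hl)).symm

/-- a side is determined by the system -/
theorem res_of_side {J : Finset R} {c : R} (hc : c ∉ J)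
    {L s : Option R → Option R → Option R → Option R → OnePoint Ω}
    (hs : IsSys (Finset.insertNone J) s) (h : Side J L s) : res J c L = s := by
  funext i j k l
  by_cases hh : i ∈ Finset.insertNone J ∧ j ∈ Finset.insertNone J ∧ k ∈ Finset.insertNone J ∧
    l ∈ Finset.insertNone J ∧ Dist3 i j k
  · obtain ⟨hi, hj, hk, hl, hd⟩ := hh
    unfold res
    rw [if_pos ⟨hi, hj, hk, hl, hd⟩,
      h _ (rho_allS _ _) _ (rho_allS _ _) _ (rho_allS _ _) (rho_inj hc hi hj hk hd)
        (rho_two hc hi hj hk hd) _ (rho_allS _ _), pr_rho hc hi, pr_rho hc hj, pr_rho hc hk,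
      pr_rho hc hl]
  · rw [hs.junk i j k l hh]
    exact if_neg hh

omit [Field Ω] in
theorem half_of_side {J : Finset R}
    {L s : Option R → Option R → Option R → Option R → OnePoint Ω}
    (h : Side J L s) : Half J L := by
  intro i hi j hj k hk hd h2 m m' hm hm'
  rw [h i hi j hj k hk hd h2 _ (some_allS m), h i hi j hj k hk hd h2 _ (some_allS m'),
    pr_out (fun h => hm (some_mem.mp h)), pr_out (fun h => hm' (some_mem.mp h))]

omit [Field Ω] in
/-- the side of a glued system -/
theorem glue_side (J : Finset R) (s s' : Option R → Option R → Option R → Option R → OnePoint Ω) :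
    Side J (glue J s s') s := by
  intro i hi j hj k hk h h2 l hl
  unfold glue
  rw [if_pos ⟨hi, hj, hk, hl, h⟩, if_pos h2]

omit [Field Ω] in
theorem glue_side' (J : Finset R) (s s' : Option R → Option R → Option R → Option R → OnePoint Ω) :
    Side Jᶜ (glue J s s') s' := by
  intro i hi j hj k hk h h2 l hl
  unfold glue
  rw [if_pos ⟨hi, hj, hk, hl, h⟩, if_neg (fun h1 => not_both ⟨h1, h2⟩)]

/-- a component on the side of `J` -/
theorem sys_of_sides_aux {J : Finset R}
    {L s : Option R → Option R → Option R → Option R → OnePoint Ω}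
    (hs : IsSys (Finset.insertNone J) s) (h : Side J L s)
    {i j k : Option R} (hi : i ∈ allS R) (hj : j ∈ allS R) (hk : k ∈ allS R) (hd : Dist3 i j k)
    (h2 : Two J i j k) :
    L i j k i = ((0 : Ω) : OnePoint Ω) ∧ L i j k j = ∞ ∧ L i j k k = ((1 : Ω) : OnePoint Ω) ∧
    ∀ a b c, a ∈ allS R → b ∈ allS R → c ∈ allS R →
      Dist3 (L i j k a) (L i j k b) (L i j k c) →
      ∃ g : GL (Fin 2) Ω, ∀ l ∈ allS R, L a b c l = g • L i j k l := by
  have hp := pr_inj hd h2
  refine ⟨?_, ?_, ?_, ?_⟩
  · rw [h i hi j hj k hk hd h2 i hi]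
    exact hs.zero _ _ _ (pr_mem _ _) (pr_mem _ _) (pr_mem _ _) hp
  · rw [h i hi j hj k hk hd h2 j hj]
    exact hs.infty _ _ _ (pr_mem _ _) (pr_mem _ _) (pr_mem _ _) hp
  · rw [h i hi j hj k hk hd h2 k hk]
    exact hs.one _ _ _ (pr_mem _ _) (pr_mem _ _) (pr_mem _ _) hp
  · intro a b c ha hb hc hD
    rw [h i hi j hj k hk hd h2 a ha, h i hi j hj k hk hd h2 b hb,
      h i hi j hj k hk hd h2 c hc] at hD
    obtain ⟨g, hg⟩ := hs.comp _ _ _ (pr_mem _ _) (pr_mem _ _) (pr_mem _ _) hp _ _ _
      (pr_mem J a) (pr_mem J b) (pr_mem J c) hD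
    have hpa : Dist3 (pr J a) (pr J b) (pr J c) := by
      obtain ⟨h1, h2, h3⟩ := hD
      exact ⟨fun h => h1 (by rw [h]), fun h => h2 (by rw [h]), fun h => h3 (by rw [h])⟩
    have hab : Dist3 a b c := by
      obtain ⟨h1, h2, h3⟩ := hpa
      exact ⟨fun h => h1 (by rw [h]), fun h => h2 (by rw [h]), fun h => h3 (by rw [h])⟩
    refine ⟨g, fun l hl => ?_⟩
    rw [h i hi j hj k hk hd h2 l hl, ← hg _ (pr_mem J l)]
    exact h a ha b hb c hc hab (two_of_pr hpa) l hl

theorem sys_of_sides {J : Finset R}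
    {L s s' : Option R → Option R → Option R → Option R → OnePoint Ω}
    (hjunk : ∀ i j k l, ¬ (i ∈ allS R ∧ j ∈ allS R ∧ k ∈ allS R ∧ l ∈ allS R ∧ Dist3 i j k) →
      L i j k l = ∞)
    (hs : IsSys (Finset.insertNone J) s) (hs' : IsSys (Finset.insertNone Jᶜ) s')
    (h : Side J L s) (h' : Side Jᶜ L s') : IsSys (allS R) L := by
  have key : ∀ i j k : Option R, i ∈ allS R → j ∈ allS R → k ∈ allS R → Dist3 i j k →
    L i j k i = ((0 : Ω) : OnePoint Ω) ∧ L i j k j = ∞ ∧ L i j k k = ((1 : Ω) : OnePoint Ω) ∧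
    ∀ a b c, a ∈ allS R → b ∈ allS R → c ∈ allS R →
      Dist3 (L i j k a) (L i j k b) (L i j k c) →
      ∃ g : GL (Fin 2) Ω, ∀ l ∈ allS R, L a b c l = g • L i j k l := by
    intro i j k hi hj hk hd
    rcases two_compl (J := J) hi hj hk with h2 | h2
    · exact sys_of_sides_aux hs h hi hj hk hd h2
    · exact sys_of_sides_aux hs' h' hi hj hk hd h2
  exact ⟨hjunk, fun i j k hi hj hk hd => (key i j k hi hj hk hd).1,
    fun i j k hi hj hk hd => (key i j k hi hj hk hd).2.1,
    fun i j k hi hj hk hd => (key i j k hi hj hk hd).2.2.1,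
    fun i j k hi hj hk hd => (key i j k hi hj hk hd).2.2.2⟩

/-- the edge condition -/
def Edge (J : Finset R) (L : Option R → Option R → Option R → Option R → OnePoint Ω) : Prop :=
  ∃ i ∈ allS R, ∃ j ∈ allS R, ∃ k ∈ allS R, Dist3 i j k ∧ ∃ a : R,
    ∀ x : R, (L i j k (Option.some x) = L i j k (Option.some a) ↔ x ∈ J)

/-- existence of the edge in a glued system -/
theorem edge_of_side {J : Finset R} (hJ : J.Nonempty) (hJ' : 2 ≤ Jᶜ.card)
    {L s : Option R → Option R → Option R → Option R → OnePoint Ω}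
    (hs : IsSys (Finset.insertNone Jᶜ) s) (h : Side Jᶜ L s) : Edge J L := by
  obtain ⟨c, hc⟩ := hJ
  have hc' : c ∉ Jᶜ := by simpa using hc
  obtain ⟨i, hi, j, hj, k, hk, hd, hm⟩ := rooted_center hs (o := none) (by simp)
    (by rw [Finset.card_insertNone]; omega)
  refine ⟨rho c i, rho_allS _ _, rho c j, rho_allS _ _, rho c k, rho_allS _ _,
    rho_inj hc' hi hj hk hd, c, fun x => ?_⟩
  have h2 := rho_two hc' hi hj hk hd
  have h3 := rho_inj hc' hi hj hk hd
  have e : ∀ l, l ∈ allS R → L (rho c i) (rho c j) (rho c k) l = s i j k (pr Jᶜ l) := by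
    intro l hl
    rw [h _ (rho_allS _ _) _ (rho_allS _ _) _ (rho_allS _ _) h3 h2 l hl, pr_rho hc' hi,
      pr_rho hc' hj, pr_rho hc' hk]
  rw [e _ (some_allS x), e _ (some_allS c), pr_out (x := Option.some c)
    (fun h => hc' (some_mem.mp h))]
  constructor
  · intro h4
    have h5 := hm _ (pr_mem _ _) h4
    by_contra hx
    rw [pr_in (some_mem.mpr (by simpa using hx))] at h5
    exact Option.some_ne_none _ h5
  · intro hx
    rw [pr_out (fun h => by
      have := some_mem.mp h
      rw [Finset.mem_compl] at this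
      exact this hx)]

/-- permutations of the triple do not matter for collapsing -/
theorem perm_eq {V : Type} {S : Finset V} {L : V → V → V → V → OnePoint Ω} (hL : IsSys S L)
    {i j k a b c m m' : V} (hi : i ∈ S) (hj : j ∈ S) (hk : k ∈ S) (h : Dist3 i j k)
    (ha : a ∈ S) (hb : b ∈ S) (hc : c ∈ S) (h' : Dist3 (L i j k a) (L i j k b) (L i j k c))
    (hm : m ∈ S) (hm' : m' ∈ S) :
    L a b c m = L a b c m' ↔ L i j k m = L i j k m' := by
  obtain ⟨g, hg⟩ := hL.comp i j k hi hj hk h a b c ha hb hc h'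
  rw [hg m hm, hg m' hm']
  exact ⟨fun h => gl_inj g h, fun h => by rw [h]⟩

theorem zio : Dist3 (((0 : Ω) : OnePoint Ω)) (∞ : OnePoint Ω) (((1 : Ω) : OnePoint Ω)) := by
  refine ⟨?_, ?_, ?_⟩
  · exact OnePoint.coe_ne_infty _
  · intro h
    exact zero_ne_one (OnePoint.coe_injective h)
  · exact OnePoint.infty_ne_coe _

theorem dist3_normal {V : Type} {S : Finset V} {L : V → V → V → V → OnePoint Ω} (hL : IsSys S L)
    {i j k : V} (hi : i ∈ S) (hj : j ∈ S) (hk : k ∈ S) (h : Dist3 i j k) :
    Dist3 (L i j k i) (L i j k j) (L i j k k) := by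
  rw [hL.zero i j k hi hj hk h, hL.infty i j k hi hj hk h, hL.one i j k hi hj hk h]
  exact zio

/-- from a component with fibre `J`, side of `J` -/
theorem half_of_edge {J : Finset R}
    {L : Option R → Option R → Option R → Option R → OnePoint Ω}
    (hL : IsSys (allS R) L) (he : Edge J L) : Half J L := by
  obtain ⟨i0, hi0, j0, hj0, k0, hk0, h0, a0, ha0⟩ := he
  have hv := vmap_self hL hi0 hj0 hk0 h0
  -- two labels in `J` in the first two positions
  have key : ∀ a b c : Option R, a ∈ J.map Function.Embedding.some →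
      b ∈ J.map Function.Embedding.some → c ∈ allS R → Dist3 a b c → ∀ m m' : R, m ∉ J → m' ∉ J →
      L a b c (Option.some m) = L a b c (Option.some m') := by
    intro a b c ha hb hc hd m m' hm hm'
    obtain ⟨a, ha1, rfl⟩ := Finset.mem_map.mp ha
    obtain ⟨b, hb1, rfl⟩ := Finset.mem_map.mp hb
    have e1 : L i0 j0 k0 (Option.some a) = L i0 j0 k0 (Option.some a0) := (ha0 a).mpr ha1
    have e2 : L i0 j0 k0 (Option.some b) = L i0 j0 k0 (Option.some a0) := (ha0 b).mpr hb1
    refine lemma_3 hL hv (some_allS a) (some_allS b) hc (some_allS m) (some_allS m') hd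
      (e1.trans e2.symm) ?_ ?_
    · intro h
      exact hm ((ha0 m).mp (h.trans e1))
    · intro h
      exact hm' ((ha0 m').mp (h.trans e1))
  intro i hi j hj k hk hd h2 m m' hm hm'
  have hn := dist3_normal hL hi hj hk hd
  obtain ⟨d1, d2, d3⟩ := hd
  obtain ⟨n1, n2, n3⟩ := hn
  rcases h2 with ⟨h3, h4⟩ | ⟨h3, h4⟩ | ⟨h3, h4⟩
  · exact key i j k h3 h4 hk ⟨d1, d2, d3⟩ m m' hm hm'
  · rw [← perm_eq hL hi hj hk ⟨d1, d2, d3⟩ hi hk hj ⟨n2, n1, n3.symm⟩ (some_allS m) (some_allS m')]
    exact key i k j h3 h4 hj ⟨d2, d1, d3.symm⟩ m m' hm hm'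
  · rw [← perm_eq hL hi hj hk ⟨d1, d2, d3⟩ hj hk hi ⟨n3, n1.symm, n2.symm⟩ (some_allS m)
      (some_allS m')]
    exact key j k i h3 h4 hi ⟨d3, d1.symm, d2.symm⟩ m m' hm hm'

/-- from a component with fibre `J`, the other side -/
theorem half_of_edge' {J : Finset R}
    {L : Option R → Option R → Option R → Option R → OnePoint Ω}
    (hL : IsSys (allS R) L) (he : Edge J L) : Half Jᶜ L := by
  obtain ⟨i0, hi0, j0, hj0, k0, hk0, h0, a0, ha0⟩ := he
  have hv := vmap_self hL hi0 hj0 hk0 h0
  have key : ∀ a b c : Option R, a ∈ Jᶜ.map Function.Embedding.some →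
      b ∈ Jᶜ.map Function.Embedding.some → c ∈ allS R → Dist3 a b c → ∀ m m' : R, m ∈ J → m' ∈ J →
      L a b c (Option.some m) = L a b c (Option.some m') := by
    intro a b c ha hb hc hd m m' hm hm'
    obtain ⟨a, ha1, rfl⟩ := Finset.mem_map.mp ha
    obtain ⟨b, hb1, rfl⟩ := Finset.mem_map.mp hb
    rw [Finset.mem_compl] at ha1 hb1
    have ea : L i0 j0 k0 (Option.some a) ≠ L i0 j0 k0 (Option.some a0) :=
      fun h => ha1 ((ha0 a).mp h)
    have eb : L i0 j0 k0 (Option.some b) ≠ L i0 j0 k0 (Option.some a0) :=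
      fun h => hb1 ((ha0 b).mp h)
    have em : L i0 j0 k0 (Option.some m) = L i0 j0 k0 (Option.some a0) := (ha0 m).mpr hm
    have em' : L i0 j0 k0 (Option.some m') = L i0 j0 k0 (Option.some a0) := (ha0 m').mpr hm'
    obtain ⟨d1, d2, d3⟩ := hd
    by_cases hab : L i0 j0 k0 (Option.some a) = L i0 j0 k0 (Option.some b)
    · exact lemma_3 hL hv (some_allS a) (some_allS b) hc (some_allS m) (some_allS m')
        ⟨d1, d2, d3⟩ hab (by rw [em]; exact ea.symm) (by rw [em']; exact ea.symm)
    · by_cases hac : L i0 j0 k0 (Option.some a) = L i0 j0 k0 c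
      · have h1 := lemma_3 hL hv (some_allS a) hc (some_allS b) (some_allS m) (some_allS m')
          ⟨d2, d1, d3.symm⟩ hac (by rw [em]; exact ea.symm) (by rw [em']; exact ea.symm)
        have hn := dist3_normal hL (some_allS a) hc (some_allS b) ⟨d2, d1, d3.symm⟩
        rw [← perm_eq hL (some_allS a) hc (some_allS b) ⟨d2, d1, d3.symm⟩ (some_allS a)
          (some_allS b) hc ⟨hn.2.1, hn.1, hn.2.2.symm⟩ (some_allS m) (some_allS m')] at h1
        exact h1
      · by_cases hbc : L i0 j0 k0 (Option.some b) = L i0 j0 k0 c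
        · have h1 := lemma_3 hL hv (some_allS b) hc (some_allS a) (some_allS m) (some_allS m')
            ⟨d3, d1.symm, d2.symm⟩ hbc (by rw [em]; exact eb.symm) (by rw [em']; exact eb.symm)
          have hn := dist3_normal hL (some_allS b) hc (some_allS a) ⟨d3, d1.symm, d2.symm⟩
          rw [← perm_eq hL (some_allS b) hc (some_allS a) ⟨d3, d1.symm, d2.symm⟩ (some_allS a)
            (some_allS b) hc ⟨hn.2.1.symm, hn.2.2.symm, hn.1⟩ (some_allS m) (some_allS m')] at h1
          exact h1
        · exact (perm_eq hL hi0 hj0 hk0 h0 (some_allS a) (some_allS b) hc ⟨hab, hac, hbc⟩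
            (some_allS m) (some_allS m')).mpr (em.trans em'.symm)
  intro i hi j hj k hk hd h2 m m' hm hm'
  have hn := dist3_normal hL hi hj hk hd
  rw [Finset.mem_compl, not_not] at hm hm'
  obtain ⟨d1, d2, d3⟩ := hd
  obtain ⟨n1, n2, n3⟩ := hn
  rcases h2 with ⟨h3, h4⟩ | ⟨h3, h4⟩ | ⟨h3, h4⟩
  · exact key i j k h3 h4 hk ⟨d1, d2, d3⟩ m m' hm hm'
  · rw [← perm_eq hL hi hj hk ⟨d1, d2, d3⟩ hi hk hj ⟨n2, n1, n3.symm⟩ (some_allS m) (some_allS m')]
    exact key i k j h3 h4 hj ⟨d2, d1, d3.symm⟩ m m' hm hm'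
  · rw [← perm_eq hL hi hj hk ⟨d1, d2, d3⟩ hj hk hi ⟨n3, n1.symm, n2.symm⟩ (some_allS m)
      (some_allS m')]
    exact key j k i h3 h4 hi ⟨d3, d1.symm, d2.symm⟩ m m' hm hm'

/-! ### Frobenius -/

theorem allS_map (τ : Equiv.Perm R) {x : Option R} :
    Equiv.optionCongr τ x ∈ allS R ↔ x ∈ allS R := by
  rw [mem_allS, mem_allS]
  cases x <;> simp

omit [Fintype R] in
theorem map_some_map (τ : Equiv.Perm R) {J : Finset R} {x : Option R} :
    Equiv.optionCongr τ x ∈ (J.map τ.toEmbedding).map Function.Embedding.some ↔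
      x ∈ J.map Function.Embedding.some := by
  cases x with
  | none => simp
  | some x => simp

omit [Fintype R] in
theorem insertNone_map (τ : Equiv.Perm R) {J : Finset R} {x : Option R} :
    Equiv.optionCongr τ x ∈ Finset.insertNone (J.map τ.toEmbedding) ↔
      x ∈ Finset.insertNone J := by
  cases x with
  | none => simp
  | some x => simp

omit [Fintype R] in
theorem pr_map (τ : Equiv.Perm R) (J : Finset R) (x : Option R) :
    pr (J.map τ.toEmbedding) (Equiv.optionCongr τ x) = Equiv.optionCongr τ (pr J x) := by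
  unfold pr
  by_cases h : x ∈ J.map Function.Embedding.some
  · rw [if_pos h, if_pos ((map_some_map τ).mpr h)]
  · rw [if_neg h, if_neg (fun h' => h ((map_some_map τ).mp h'))]
    rfl

theorem dist3_map {V : Type} (e : Equiv.Perm V) {i j k : V} :
    Dist3 (e i) (e j) (e k) ↔ Dist3 i j k := by
  unfold Dist3
  simp only [ne_eq, EmbeddingLike.apply_eq_iff_eq]

omit [Fintype R] in
theorem two_map (τ : Equiv.Perm R) {J : Finset R} {i j k : Option R} :
    Two (J.map τ.toEmbedding) (Equiv.optionCongr τ i) (Equiv.optionCongr τ j)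
      (Equiv.optionCongr τ k) ↔ Two J i j k := by
  unfold Two
  rw [map_some_map, map_some_map, map_some_map]

omit [Fintype R] in
theorem rho_map (τ : Equiv.Perm R) (c : R) (x : Option R) :
    rho (τ c) (Equiv.optionCongr τ x) = Equiv.optionCongr τ (rho c x) := by
  cases x <;> simp [rho]

theorem fr_infty (q : ℕ) : OnePoint.map (fun y : Ω => y ^ q) (∞ : OnePoint Ω) = ∞ := rfl

/-- the restrictions of an equivariant system are equivariant -/
theorem res_equiv {q : ℕ} (τ : Equiv.Perm R) {J : Finset R} {c c' : R} (hc : c ∉ J)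
    (hc' : c' ∉ J.map τ.toEmbedding)
    {L : Option R → Option R → Option R → Option R → OnePoint Ω}
    (hL : IsSys (allS R) L) (hh : Half (J.map τ.toEmbedding) L)
    (he : Equi q (Equiv.optionCongr τ) L) (i j k l : Option R) :
    res (J.map τ.toEmbedding) c' L (Equiv.optionCongr τ i) (Equiv.optionCongr τ j)
      (Equiv.optionCongr τ k) (Equiv.optionCongr τ l) =
        OnePoint.map (fun y => y ^ q) (res J c L i j k l) := by
  have hcτ : τ c ∉ J.map τ.toEmbedding := by simpa using hc
  have e1 : res (J.map τ.toEmbedding) c' L = res (J.map τ.toEmbedding) (τ c) L :=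
    res_of_side hc' (res_sys hcτ hL) (side_res hcτ hL hh)
  rw [e1]
  by_cases h : i ∈ Finset.insertNone J ∧ j ∈ Finset.insertNone J ∧ k ∈ Finset.insertNone J ∧
    l ∈ Finset.insertNone J ∧ Dist3 i j k
  · have h' := h
    rw [← insertNone_map τ, ← insertNone_map τ (x := j), ← insertNone_map τ (x := k),
      ← insertNone_map τ (x := l), ← dist3_map (Equiv.optionCongr τ)] at h'
    unfold res
    rw [if_pos h, if_pos h', rho_map, rho_map, rho_map, rho_map]
    exact he _ _ _ _
  · have h' := h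
    rw [← insertNone_map τ, ← insertNone_map τ (x := j), ← insertNone_map τ (x := k),
      ← insertNone_map τ (x := l), ← dist3_map (Equiv.optionCongr τ)] at h'
    unfold res
    rw [if_neg h, if_neg h', fr_infty]

/-- converse -/
theorem equi_of_sides {q : ℕ} (τ : Equiv.Perm R) {J : Finset R}
    {L s s' t t' : Option R → Option R → Option R → Option R → OnePoint Ω}
    (hjunk : ∀ i j k l, ¬ (i ∈ allS R ∧ j ∈ allS R ∧ k ∈ allS R ∧ l ∈ allS R ∧ Dist3 i j k) →
      L i j k l = ∞)
    (h : Side J L s) (h' : Side Jᶜ L s')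
    (g : Side (J.map τ.toEmbedding) L t) (g' : Side (Jᶜ.map τ.toEmbedding) L t')
    (e : ∀ i j k l, t (Equiv.optionCongr τ i) (Equiv.optionCongr τ j)
      (Equiv.optionCongr τ k) (Equiv.optionCongr τ l) =
        OnePoint.map (fun y => y ^ q) (s i j k l))
    (e' : ∀ i j k l, t' (Equiv.optionCongr τ i) (Equiv.optionCongr τ j)
      (Equiv.optionCongr τ k) (Equiv.optionCongr τ l) =
        OnePoint.map (fun y => y ^ q) (s' i j k l)) :
    Equi q (Equiv.optionCongr τ) L := by
  intro i j k l
  by_cases hh : i ∈ allS R ∧ j ∈ allS R ∧ k ∈ allS R ∧ l ∈ allS R ∧ Dist3 i j k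
  · obtain ⟨hi, hj, hk, hl, hd⟩ := hh
    rcases two_compl (J := J) hi hj hk with h2 | h2
    · rw [h i hi j hj k hk hd h2 l hl, g _ ((allS_map τ).mpr hi) _ ((allS_map τ).mpr hj) _
        ((allS_map τ).mpr hk) ((dist3_map _).mpr hd) ((two_map τ).mpr h2) _
        ((allS_map τ).mpr hl), pr_map, pr_map, pr_map, pr_map]
      exact e _ _ _ _
    · rw [h' i hi j hj k hk hd h2 l hl, g' _ ((allS_map τ).mpr hi) _ ((allS_map τ).mpr hj) _
        ((allS_map τ).mpr hk) ((dist3_map _).mpr hd) ((two_map τ).mpr h2) _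
        ((allS_map τ).mpr hl), pr_map, pr_map, pr_map, pr_map]
      exact e' _ _ _ _
  · rw [hjunk i j k l hh, fr_infty]
    apply hjunk
    rw [allS_map, allS_map, allS_map, allS_map, dist3_map]
    exact hh

omit [Field Ω] in
theorem glue_junk (J : Finset R)
    (s s' : Option R → Option R → Option R → Option R → OnePoint Ω) :
    ∀ i j k l, ¬ (i ∈ allS R ∧ j ∈ allS R ∧ k ∈ allS R ∧ l ∈ allS R ∧ Dist3 i j k) →
      glue J s s' i j k l = ∞ := by
  intro i j k l h
  exact if_neg h

end EDEC1

open EDEC1 in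
/-- The systems on all labels for which `J | Jᶜ` is an edge correspond to pairs of rooted systems,
compatibly with all Frobenius maps. -/
theorem edge_dec {Ω : Type} [Field Ω] {R : Type} [Fintype R] (J : Finset R)
    (hJ : 2 ≤ J.card) (hJ' : 2 ≤ Jᶜ.card) :
    ∃ F : {L : Option R → Option R → Option R → Option R → OnePoint Ω // IsSys (allS R) L ∧
          ∃ i ∈ allS R, ∃ j ∈ allS R, ∃ k ∈ allS R, Dist3 i j k ∧ ∃ a : R,
            ∀ x : R, (L i j k (Option.some x) = L i j k (Option.some a) ↔ x ∈ J)} ≃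
        {s : (Option R → Option R → Option R → Option R → OnePoint Ω) ×
            (Option R → Option R → Option R → Option R → OnePoint Ω) //
          IsSys (Finset.insertNone J) s.1 ∧ IsSys (Finset.insertNone Jᶜ) s.2},
      ∀ (q : ℕ) (τ : Equiv.Perm R) (_ : Setup Ω q) (L),
        (J.map τ.toEmbedding = J → (Equi q (Equiv.optionCongr τ) L.1 ↔
          Equi q (Equiv.optionCongr τ) (F L).1.1 ∧ Equi q (Equiv.optionCongr τ) (F L).1.2)) ∧
        (J.map τ.toEmbedding = Jᶜ → (Equi q (Equiv.optionCongr τ) L.1 ↔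
          (∀ i j k l, (F L).1.2 (Equiv.optionCongr τ i) (Equiv.optionCongr τ j)
            (Equiv.optionCongr τ k) (Equiv.optionCongr τ l) =
              OnePoint.map (fun y => y ^ q) ((F L).1.1 i j k l)) ∧
          (∀ i j k l, (F L).1.1 (Equiv.optionCongr τ i) (Equiv.optionCongr τ j)
            (Equiv.optionCongr τ k) (Equiv.optionCongr τ l) =
              OnePoint.map (fun y => y ^ q) ((F L).1.2 i j k l)))) := by
  have hne : J.Nonempty := Finset.card_pos.mp (by omega)
  have hne' : Jᶜ.Nonempty := Finset.card_pos.mp (by omega)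
  obtain ⟨d, hd⟩ := hne
  obtain ⟨c, hc⟩ := hne'
  rw [Finset.mem_compl] at hc
  have hd' : d ∉ Jᶜ := by simpa using hd
  have hgd : ∀ s s' : Option R → Option R → Option R → Option R → OnePoint Ω,
      IsSys (Finset.insertNone J) s → IsSys (Finset.insertNone Jᶜ) s' →
      IsSys (allS R) (glue J s s') := fun s s' hs hs' =>
    sys_of_sides (glue_junk J s s') hs hs' (glue_side J s s') (glue_side' J s s')
  have hside : ∀ L : Option R → Option R → Option R → Option R → OnePoint Ω,
      IsSys (allS R) L → Edge J L → Side J L (res J c L) ∧ Side Jᶜ L (res Jᶜ d L) :=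
    fun L hL he => ⟨side_res hc hL (half_of_edge hL he), side_res hd' hL (half_of_edge' hL he)⟩
  refine ⟨⟨fun L => ⟨(res J c L.1, res Jᶜ d L.1), res_sys hc L.2.1, res_sys hd' L.2.1⟩,
    fun s => ⟨glue J s.1.1 s.1.2, hgd _ _ s.2.1 s.2.2,
      edge_of_side ⟨d, hd⟩ hJ' s.2.2 (glue_side' J s.1.1 s.1.2)⟩, ?_, ?_⟩, ?_⟩
  · rintro ⟨L, hL, he⟩
    apply Subtype.ext
    obtain ⟨h1, h2⟩ := hside L hL he
    funext i j k l
    change glue J (res J c L) (res Jᶜ d L) i j k l = L i j k l
    by_cases hh : i ∈ allS R ∧ j ∈ allS R ∧ k ∈ allS R ∧ l ∈ allS R ∧ Dist3 i j k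
    · obtain ⟨hi, hj, hk, hl, hdd⟩ := hh
      unfold glue
      rw [if_pos ⟨hi, hj, hk, hl, hdd⟩]
      split_ifs with h3
      · exact (h1 i hi j hj k hk hdd h3 l hl).symm
      · exact (h2 i hi j hj k hk hdd ((two_compl hi hj hk).resolve_left h3) l hl).symm
    · rw [hL.junk i j k l hh]
      exact glue_junk J _ _ i j k l hh
  · rintro ⟨⟨s, s'⟩, hs, hs'⟩
    apply Subtype.ext
    exact Prod.ext (res_of_side hc hs (glue_side J s s')) (res_of_side hd' hs' (glue_side' J s s'))
  · intro q τ hset L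
    obtain ⟨L, hL, he⟩ := L
    obtain ⟨h1, h2⟩ := hside L hL he
    have hcompl : Jᶜ.map τ.toEmbedding = (J.map τ.toEmbedding)ᶜ := by
      ext x
      simp
    refine ⟨fun hJτ => ?_, fun hJτ => ?_⟩
    · have hJτ' : Jᶜ.map τ.toEmbedding = Jᶜ := by rw [hcompl, hJτ]
      constructor
      · intro hE
        refine ⟨fun i j k l => ?_, fun i j k l => ?_⟩
        · have := res_equiv (q := q) τ (J := J) (c := c) (c' := c) hc (by rw [hJτ]; exact hc) hL
            (by rw [hJτ]; exact half_of_edge hL he) hE i j k l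
          rw [hJτ] at this
          exact this
        · have := res_equiv (q := q) τ (J := Jᶜ) (c := d) (c' := d) hd'
            (by rw [hJτ']; exact hd') hL
            (by rw [hJτ']; exact half_of_edge' hL he) hE i j k l
          rw [hJτ'] at this
          exact this
      · rintro ⟨e1, e2⟩
        exact equi_of_sides τ hL.junk h1 h2 (by rw [hJτ]; exact h1) (by rw [hJτ']; exact h2) e1 e2
    · have hJτ' : Jᶜ.map τ.toEmbedding = J := by rw [hcompl, hJτ, compl_compl]
      constructor
      · intro hE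
        refine ⟨fun i j k l => ?_, fun i j k l => ?_⟩
        · have := res_equiv (q := q) τ (J := J) (c := c) (c' := d) hc (by rw [hJτ]; exact hd') hL
            (by rw [hJτ]; exact half_of_edge' hL he) hE i j k l
          rw [hJτ] at this
          exact this
        · have := res_equiv (q := q) τ (J := Jᶜ) (c := d) (c' := c) hd'
            (by rw [hJτ']; exact hc) hL
            (by rw [hJτ']; exact half_of_edge hL he) hE i j k l
          rw [hJτ'] at this
          exact this
      · rintro ⟨e1, e2⟩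
        exact equi_of_sides τ hL.junk h1 h2 (by rw [hJτ]; exact h2) (by rw [hJτ']; exact h1) e1 e2

end Pool.Agent.Mbar
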