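import Mathlib
import Pool.Agent.Mbar.Defs
import Pool.Agent.Mbar.ONE
import Pool.Agent.Mbar.DLEM
import Pool.Agent.Mbar.CENTROID
import Pool.Agent.Mbar.EDEC1

/-! # EDEC2 : systems with an edge splitting the labels into two halves -/

noncomputable section

namespace Pool.Agent.Mbar

open OnePoint Polynomial

open scoped Classical

section EDEC2

variable {Ω : Type} [Field Ω] {R : Type} [Fintype R]

/-- `J` is a block of some component -/
def EBlk (J : Finset R) (L : Option R → Option R → Option R → Option R → OnePoint Ω) : Prop :=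
  ∃ i ∈ allS R, ∃ j ∈ allS R, ∃ k ∈ allS R, Dist3 i j k ∧ ∃ a : R,
    ∀ x : R, (L i j k (Option.some x) = L i j k (Option.some a) ↔ x ∈ J)

theorem edec2_mem_allS {x : Option R} : x ∈ allS R ↔ ∃ r : R, Option.some r = x := by
  unfold allS
  simp

theorem edec2_some_mem (r : R) : Option.some r ∈ allS R := edec2_mem_allS.2 ⟨r, rfl⟩

theorem edec2_card_allS : (allS R).card = Fintype.card R := by
  unfold allS
  rw [Finset.card_map, Finset.card_univ]

/-- the filter attached to a block -/
theorem edec2_filter {J : Finset R}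
    {L : Option R → Option R → Option R → Option R → OnePoint Ω} {i j k : Option R} {a : R}
    (h : ∀ x : R, (L i j k (Option.some x) = L i j k (Option.some a) ↔ x ∈ J)) :
    (allS R).filter (fun x => L i j k x = L i j k (Option.some a)) =
      J.map Function.Embedding.some := by
  ext x
  rw [Finset.mem_filter, edec2_mem_allS, Finset.mem_map]
  constructor
  · rintro ⟨⟨r, rfl⟩, hx⟩
    exact ⟨r, (h r).1 hx, rfl⟩
  · rintro ⟨r, hr, rfl⟩
    exact ⟨⟨r, rfl⟩, (h r).2 hr⟩

theorem edec2_card_filter {J : Finset R}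
    {L : Option R → Option R → Option R → Option R → OnePoint Ω} {i j k : Option R} {a : R}
    (h : ∀ x : R, (L i j k (Option.some x) = L i j k (Option.some a) ↔ x ∈ J)) :
    ((allS R).filter (fun x => L i j k x = L i j k (Option.some a))).card = J.card := by
  rw [edec2_filter h, Finset.card_map]

theorem edec2_half_iff {q : ℕ} (τ : Equiv.Perm R)
    (L : Option R → Option R → Option R → Option R → OnePoint Ω) :
    L ∈ HalfSet Ω q τ ↔ L ∈ SysSet Ω q (Equiv.optionCongr τ) (allS R) ∧
      ∃ J : Finset R, 2 * J.card = Fintype.card R ∧ EBlk J L := by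
  constructor
  · rintro ⟨hL, i, hi, j, hj, k, hk, hd, a, ha, hc⟩
    refine ⟨hL, ?_⟩
    obtain ⟨r, rfl⟩ := edec2_mem_allS.1 ha
    have h : ∀ x : R, (L i j k (Option.some x) = L i j k (Option.some r) ↔
        x ∈ Finset.univ.filter (fun x : R => L i j k (Option.some x) = L i j k (Option.some r))) :=
      fun x => by simp
    refine ⟨_, ?_, i, hi, j, hj, k, hk, hd, r, h⟩
    rw [← edec2_card_filter h]
    exact hc
  · rintro ⟨hL, J, hJ, i, hi, j, hj, k, hk, hd, a, h⟩
    refine ⟨hL, i, hi, j, hj, k, hk, hd, Option.some a, edec2_some_mem a, ?_⟩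
    rw [edec2_card_filter h]
    exact hJ

theorem edec2_unique {L : Option R → Option R → Option R → Option R → OnePoint Ω}
    (hL : IsSys (allS R) L) {J J' : Finset R} (hJ : 2 * J.card = Fintype.card R)
    (hJ' : 2 * J'.card = Fintype.card R) (h : EBlk J L) (h' : EBlk J' L) : J' = J ∨ J' = Jᶜ := by
  obtain ⟨i, hi, j, hj, k, hk, hd, a, ha⟩ := h
  obtain ⟨i', hi', j', hj', k', hk', hd', a', ha'⟩ := h'
  have h1 := half_unique hL (vmap_self hL hi hj hk hd) (vmap_self hL hi' hj' hk' hd')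
    (edec2_some_mem a) (edec2_some_mem a')
    (by rw [edec2_card_filter ha, edec2_card_allS]; exact hJ)
    (by rw [edec2_card_filter ha', edec2_card_allS]; exact hJ')
  rw [edec2_filter ha, edec2_filter ha'] at h1
  rcases h1 with h1 | h1
  · exact Or.inl (Finset.map_injective _ h1)
  · refine Or.inr (Finset.map_injective Function.Embedding.some ?_)
    rw [h1]
    ext x
    rw [Finset.mem_map]
    constructor
    · intro hx
      obtain ⟨hx1, hx2⟩ := (@Finset.mem_sdiff _ (fun a b => Classical.propDecidable (a = b)) _ _ _).1 hx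
      obtain ⟨r, rfl⟩ := edec2_mem_allS.1 hx1
      exact ⟨r, Finset.mem_compl.2 fun hr => hx2 (Finset.mem_map.2 ⟨r, hr, rfl⟩), rfl⟩
    · rintro ⟨r, hr, rfl⟩
      refine (@Finset.mem_sdiff _ (fun a b => Classical.propDecidable (a = b)) _ _ _).2 ⟨edec2_some_mem r, fun hx => ?_⟩
      obtain ⟨r', hr', he⟩ := Finset.mem_map.1 hx
      have : r' = r := Option.some_injective _ he
      subst this
      exact (Finset.mem_compl.1 hr) hr'

theorem edec2_compl {L : Option R → Option R → Option R → Option R → OnePoint Ω}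
    (hL : IsSys (allS R) L) {J : Finset R} (hJ : 2 ≤ J.card) (h : EBlk J L) : EBlk Jᶜ L := by
  obtain ⟨i, hi, j, hj, k, hk, hd, a, ha⟩ := h
  have haJ : a ∈ J := (ha a).1 rfl
  obtain ⟨b, hb, hba⟩ := Finset.exists_mem_ne (show 1 < J.card by omega) a
  obtain ⟨a', ha', b', hb', c, hc, hd', _, _, _, hall⟩ :=
    adjacent hL (vmap_self hL hi hj hk hd) (edec2_some_mem a)
      ⟨Option.some b, edec2_some_mem b, fun he => hba (Option.some_injective _ he), (ha b).2 hb⟩
  obtain ⟨c', rfl⟩ := edec2_mem_allS.1 hc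
  refine ⟨a', ha', b', hb', Option.some c', hc, hd', c', fun x => ?_⟩
  rw [hall _ (edec2_some_mem x), Finset.mem_compl, ← ha x]

theorem edec2_map_mem {τ : Equiv.Perm R} {i : Option R} (hi : i ∈ allS R) :
    Equiv.optionCongr τ i ∈ allS R := by
  obtain ⟨r, rfl⟩ := edec2_mem_allS.1 hi
  exact edec2_some_mem (τ r)

theorem edec2_dist3 {A B : Type} (f : A → B) (hf : Function.Injective f) {i j k : A}
    (h : Dist3 i j k) : Dist3 (f i) (f j) (f k) :=
  ⟨fun h1 => h.1 (hf h1), fun h1 => h.2.1 (hf h1), fun h1 => h.2.2 (hf h1)⟩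

theorem edec2_map {q : ℕ} (hs : Setup Ω q) (τ : Equiv.Perm R)
    {L : Option R → Option R → Option R → Option R → OnePoint Ω}
    (hL : L ∈ SysSet Ω q (Equiv.optionCongr τ) (allS R)) {J : Finset R} (h : EBlk J L) :
    EBlk (J.map τ.toEmbedding) L := by
  obtain ⟨i, hi, j, hj, k, hk, hd, a, ha⟩ := h
  refine ⟨_, edec2_map_mem (τ := τ) hi, _, edec2_map_mem (τ := τ) hj, _,
    edec2_map_mem (τ := τ) hk, edec2_dist3 _ (Equiv.optionCongr τ).injective hd, τ a, fun x => ?_⟩
  have e1 : Option.some x = Equiv.optionCongr τ (Option.some (τ.symm x)) := by simp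
  have e2 : Option.some (τ a) = Equiv.optionCongr τ (Option.some a) := by simp
  rw [e1, e2, hL.2, hL.2, Finset.mem_map_equiv, ← ha]
  exact (fr_bij hs).1.eq_iff

/-- the equivariant systems with block `J` -/
def ESet (Ω : Type) [Field Ω] (q : ℕ) (τ : Equiv.Perm R) (J : Finset R) :
    Set (Option R → Option R → Option R → Option R → OnePoint Ω) :=
  {L | L ∈ SysSet Ω q (Equiv.optionCongr τ) (allS R) ∧ EBlk J L}

theorem edec2_transport {q : ℕ} (hs : Setup Ω q) {V : Type} (π : Equiv.Perm V) {T T' : Finset V}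
    (hT : ∀ x, x ∈ T ↔ π x ∈ T') {s : V → V → V → V → OnePoint Ω} (h : IsSys T s) :
    IsSys T' (fun i j k l => OnePoint.map (fun y => y ^ q)
      (s (π.symm i) (π.symm j) (π.symm k) (π.symm l))) := by
  have hq : q ≠ 0 := by
    have := hs.one_lt
    omega
  have hT' : ∀ x, x ∈ T' ↔ π.symm x ∈ T := fun x => by
    rw [hT, Equiv.apply_symm_apply]
  have hd : ∀ {i j k : V}, Dist3 i j k → Dist3 (π.symm i) (π.symm j) (π.symm k) := fun hd =>
    edec2_dist3 _ π.symm.injective hd
  refine ⟨fun i j k l hn => ?_, fun i j k hi hj hk h3 => ?_, fun i j k hi hj hk h3 => ?_,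
    fun i j k hi hj hk h3 => ?_, fun i j k hi hj hk h3 a b c ha hb hc habc => ?_⟩
  · have : s (π.symm i) (π.symm j) (π.symm k) (π.symm l) = ∞ := by
      refine h.junk _ _ _ _ fun hcon => hn ?_
      obtain ⟨h1, h2, h3, h4, h5⟩ := hcon
      refine ⟨(hT' i).2 h1, (hT' j).2 h2, (hT' k).2 h3, (hT' l).2 h4, ?_⟩
      have := edec2_dist3 _ π.injective h5
      simpa using this
    show OnePoint.map (fun y => y ^ q) (s (π.symm i) (π.symm j) (π.symm k) (π.symm l)) = ∞
    rw [this]
    rfl
  · show OnePoint.map (fun y => y ^ q) (s (π.symm i) (π.symm j) (π.symm k) (π.symm i)) = _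
    rw [h.zero _ _ _ ((hT' i).1 hi) ((hT' j).1 hj) ((hT' k).1 hk) (hd h3), OnePoint.map_some,
      zero_pow hq]
  · show OnePoint.map (fun y => y ^ q) (s (π.symm i) (π.symm j) (π.symm k) (π.symm j)) = _
    rw [h.infty _ _ _ ((hT' i).1 hi) ((hT' j).1 hj) ((hT' k).1 hk) (hd h3)]
    rfl
  · show OnePoint.map (fun y => y ^ q) (s (π.symm i) (π.symm j) (π.symm k) (π.symm k)) = _
    rw [h.one _ _ _ ((hT' i).1 hi) ((hT' j).1 hj) ((hT' k).1 hk) (hd h3), OnePoint.map_some,
      one_pow]
  · obtain ⟨g, hg⟩ := h.comp _ _ _ ((hT' i).1 hi) ((hT' j).1 hj) ((hT' k).1 hk) (hd h3)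
      (π.symm a) (π.symm b) (π.symm c) ((hT' a).1 ha) ((hT' b).1 hb) ((hT' c).1 hc)
      ⟨fun he => habc.1 (congrArg _ he), fun he => habc.2.1 (congrArg _ he),
        fun he => habc.2.2 (congrArg _ he)⟩
    obtain ⟨g', hg'⟩ := fr_smul hs g
    refine ⟨g', fun l hl => ?_⟩
    show OnePoint.map (fun y => y ^ q) (s (π.symm a) (π.symm b) (π.symm c) (π.symm l)) =
      g' • OnePoint.map (fun y => y ^ q) (s (π.symm i) (π.symm j) (π.symm k) (π.symm l))
    rw [hg _ ((hT' l).1 hl)]
    exact hg' _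

theorem edec2_mem_insertNone {J : Finset R} {τ : Equiv.Perm R} {J' : Finset R}
    (h : J.map τ.toEmbedding = J') (x : Option R) :
    x ∈ Finset.insertNone J ↔ Equiv.optionCongr τ x ∈ Finset.insertNone J' := by
  subst h
  cases x with
  | none => simp
  | some x => simp

theorem edec2_sq (τ : Equiv.Perm R) (x : Option R) :
    Equiv.optionCongr (τ ^ 2) x = Equiv.optionCongr τ (Equiv.optionCongr τ x) := by
  cases x with
  | none => simp
  | some x => simp [pow_two]

theorem edec2_fr_sq {q : ℕ} (x : OnePoint Ω) : OnePoint.map (fun y => y ^ q)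
    (OnePoint.map (fun y => y ^ q) x) = OnePoint.map (fun y => y ^ (q ^ 2)) x := by
  induction x using OnePoint.rec with
  | infty => rfl
  | coe x =>
    rw [OnePoint.map_some, OnePoint.map_some, OnePoint.map_some, ← pow_mul, pow_two]

/-- systems with block `J` -/
abbrev EX (Ω : Type) [Field Ω] {R : Type} [Fintype R] (J : Finset R) : Type :=
  {L : Option R → Option R → Option R → Option R → OnePoint Ω // IsSys (allS R) L ∧
          ∃ i ∈ allS R, ∃ j ∈ allS R, ∃ k ∈ allS R, Dist3 i j k ∧ ∃ a : R,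
            ∀ x : R, (L i j k (Option.some x) = L i j k (Option.some a) ↔ x ∈ J)}

/-- pairs of rooted systems -/
abbrev EY (Ω : Type) [Field Ω] {R : Type} [Fintype R] (J : Finset R) : Type :=
  {s : (Option R → Option R → Option R → Option R → OnePoint Ω) ×
            (Option R → Option R → Option R → Option R → OnePoint Ω) //
          IsSys (Finset.insertNone J) s.1 ∧ IsSys (Finset.insertNone Jᶜ) s.2}

/-- the unswapped case -/
theorem edec2_case_stable {q : ℕ} (hs : Setup Ω q) (τ : Equiv.Perm R) {J : Finset R}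
    (hJ : 2 ≤ J.card) (hJ' : 2 ≤ Jᶜ.card) (hst : J.map τ.toEmbedding = J)
    (hf : (SysSet Ω q (Equiv.optionCongr τ) (Finset.insertNone J)).Finite)
    (hf' : (SysSet Ω q (Equiv.optionCongr τ) (Finset.insertNone Jᶜ)).Finite) :
    (ESet Ω q τ J).Finite ∧ (ESet Ω q τ J).ncard = Kc Ω q τ J * Kc Ω q τ Jᶜ := by
  obtain ⟨F, hF⟩ := edge_dec (Ω := Ω) J hJ hJ'
  let e1 : ↥(ESet Ω q τ J) ≃
      {x : EX Ω J //
        Equi q (Equiv.optionCongr τ) x.1} :=
    { toFun := fun L => ⟨⟨L.1, L.2.1.1, L.2.2⟩, L.2.1.2⟩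
      invFun := fun x => ⟨x.1.1, ⟨x.1.2.1, x.2⟩, x.1.2.2⟩
      left_inv := fun _ => rfl
      right_inv := fun _ => rfl }
  let e2 : {x : EX Ω J // Equi q (Equiv.optionCongr τ) x.1} ≃
      {y : EY Ω J // Equi q (Equiv.optionCongr τ) y.1.1 ∧ Equi q (Equiv.optionCongr τ) y.1.2} :=
    Equiv.subtypeEquiv F (fun L => (hF q τ hs L).1 hst)
  let e3 : {y : EY Ω J //
          Equi q (Equiv.optionCongr τ) y.1.1 ∧ Equi q (Equiv.optionCongr τ) y.1.2} ≃
      ↥((SysSet Ω q (Equiv.optionCongr τ) (Finset.insertNone J)) ×ˢ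
        (SysSet Ω q (Equiv.optionCongr τ) (Finset.insertNone Jᶜ))) :=
    { toFun := fun y => ⟨y.1.1, ⟨⟨y.1.2.1, y.2.1⟩, ⟨y.1.2.2, y.2.2⟩⟩⟩
      invFun := fun y => ⟨⟨y.1, ⟨y.2.1.1, y.2.2.1⟩⟩, ⟨y.2.1.2, y.2.2.2⟩⟩
      left_inv := fun _ => rfl
      right_inv := fun _ => rfl }
  let e := (e1.trans e2).trans e3
  have hfin := hf.prod hf'
  refine ⟨?_, ?_⟩
  · have h1 : Finite ↥((SysSet Ω q (Equiv.optionCongr τ) (Finset.insertNone J)) ×ˢ
        (SysSet Ω q (Equiv.optionCongr τ) (Finset.insertNone Jᶜ))) := hfin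
    exact Finite.of_equiv _ e.symm
  · rw [← Nat.card_coe_set_eq, Nat.card_congr e, Nat.card_coe_set_eq, Set.ncard_prod]
    rfl

/-- the swapped case -/
theorem edec2_case_swap {q : ℕ} (hs : Setup Ω q) (τ : Equiv.Perm R) {J : Finset R}
    (hJ : 2 ≤ J.card) (hJ' : 2 ≤ Jᶜ.card) (hst : J.map τ.toEmbedding = Jᶜ)
    (hf : (SysSet Ω (q ^ 2) (Equiv.optionCongr (τ ^ 2)) (Finset.insertNone J)).Finite) :
    (ESet Ω q τ J).Finite ∧ (ESet Ω q τ J).ncard = Kc Ω (q ^ 2) (τ ^ 2) J := by
  obtain ⟨F, hF⟩ := edge_dec (Ω := Ω) J hJ hJ'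
  let e1 : ↥(ESet Ω q τ J) ≃
      {x : EX Ω J //
        Equi q (Equiv.optionCongr τ) x.1} :=
    { toFun := fun L => ⟨⟨L.1, L.2.1.1, L.2.2⟩, L.2.1.2⟩
      invFun := fun x => ⟨x.1.1, ⟨x.1.2.1, x.2⟩, x.1.2.2⟩
      left_inv := fun _ => rfl
      right_inv := fun _ => rfl }
  let e2 : {x : EX Ω J // Equi q (Equiv.optionCongr τ) x.1} ≃
      {y : EY Ω J //
          (∀ i j k l, y.1.2 (Equiv.optionCongr τ i) (Equiv.optionCongr τ j)
            (Equiv.optionCongr τ k) (Equiv.optionCongr τ l) =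
              OnePoint.map (fun y => y ^ q) (y.1.1 i j k l)) ∧
          (∀ i j k l, y.1.1 (Equiv.optionCongr τ i) (Equiv.optionCongr τ j)
            (Equiv.optionCongr τ k) (Equiv.optionCongr τ l) =
              OnePoint.map (fun y => y ^ q) (y.1.2 i j k l))} :=
    Equiv.subtypeEquiv F (fun L => (hF q τ hs L).2 hst)
  let e3 : {y : EY Ω J //
          (∀ i j k l, y.1.2 (Equiv.optionCongr τ i) (Equiv.optionCongr τ j)
            (Equiv.optionCongr τ k) (Equiv.optionCongr τ l) =
              OnePoint.map (fun y => y ^ q) (y.1.1 i j k l)) ∧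
          (∀ i j k l, y.1.1 (Equiv.optionCongr τ i) (Equiv.optionCongr τ j)
            (Equiv.optionCongr τ k) (Equiv.optionCongr τ l) =
              OnePoint.map (fun y => y ^ q) (y.1.2 i j k l))} ≃
      ↥(SysSet Ω (q ^ 2) (Equiv.optionCongr (τ ^ 2)) (Finset.insertNone J)) :=
    { toFun := fun y => ⟨y.1.1.1, y.1.2.1, fun i j k l => by
        rw [edec2_sq, edec2_sq, edec2_sq, edec2_sq, y.2.2, y.2.1, edec2_fr_sq]⟩
      invFun := fun y => ⟨⟨(y.1, fun i j k l => OnePoint.map (fun z => z ^ q)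
          (y.1 ((Equiv.optionCongr τ).symm i) ((Equiv.optionCongr τ).symm j)
            ((Equiv.optionCongr τ).symm k) ((Equiv.optionCongr τ).symm l))),
          ⟨y.2.1, edec2_transport hs (Equiv.optionCongr τ) (edec2_mem_insertNone hst) y.2.1⟩⟩,
          ⟨fun i j k l => by
            show OnePoint.map (fun z => z ^ q)
              (y.1 ((Equiv.optionCongr τ).symm (Equiv.optionCongr τ i))
                ((Equiv.optionCongr τ).symm (Equiv.optionCongr τ j))
                ((Equiv.optionCongr τ).symm (Equiv.optionCongr τ k))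
                ((Equiv.optionCongr τ).symm (Equiv.optionCongr τ l))) =
              OnePoint.map (fun z => z ^ q) (y.1 i j k l)
            rw [Equiv.symm_apply_apply, Equiv.symm_apply_apply, Equiv.symm_apply_apply,
              Equiv.symm_apply_apply], fun i j k l => by
            show y.1 (Equiv.optionCongr τ i) (Equiv.optionCongr τ j) (Equiv.optionCongr τ k)
              (Equiv.optionCongr τ l) =
              OnePoint.map (fun z => z ^ q) (OnePoint.map (fun z => z ^ q)
                (y.1 ((Equiv.optionCongr τ).symm i) ((Equiv.optionCongr τ).symm j)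
            ((Equiv.optionCongr τ).symm k) ((Equiv.optionCongr τ).symm l)))
            rw [edec2_fr_sq, ← y.2.2, edec2_sq, edec2_sq, edec2_sq, edec2_sq,
              Equiv.apply_symm_apply, Equiv.apply_symm_apply, Equiv.apply_symm_apply,
              Equiv.apply_symm_apply]⟩⟩
      left_inv := fun y => by
        apply Subtype.ext
        apply Subtype.ext
        refine Prod.ext rfl ?_
        funext i j k l
        show OnePoint.map (fun z => z ^ q)
          (y.1.1.1 ((Equiv.optionCongr τ).symm i) ((Equiv.optionCongr τ).symm j)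
            ((Equiv.optionCongr τ).symm k) ((Equiv.optionCongr τ).symm l)) = y.1.1.2 i j k l
        rw [← y.2.1, Equiv.apply_symm_apply, Equiv.apply_symm_apply, Equiv.apply_symm_apply,
              Equiv.apply_symm_apply]
      right_inv := fun _ => rfl }
  let e := (e1.trans e2).trans e3
  refine ⟨?_, ?_⟩
  · have h1 : Finite ↥(SysSet Ω (q ^ 2) (Equiv.optionCongr (τ ^ 2)) (Finset.insertNone J)) := hf
    exact Finite.of_equiv _ e.symm
  · rw [← Nat.card_coe_set_eq, Nat.card_congr e, Nat.card_coe_set_eq]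
    rfl

theorem edec {Ω : Type} [Field Ω] {R : Type} [Fintype R] {q : ℕ} (hs : Setup Ω q)
    (τ : Equiv.Perm R) (hR : 4 ≤ Fintype.card R)
    (hfin : ∀ J : Finset R, J.Nonempty → ∀ d, 1 ≤ d → J.map (τ ^ d).toEmbedding = J →
      (SysSet Ω (q ^ d) (Equiv.optionCongr (τ ^ d)) (Finset.insertNone J)).Finite) :
    (HalfSet Ω q τ).Finite ∧
    2 * (HalfSet Ω q τ).ncard =
      ∑ J : Finset R, if 2 * J.card = Fintype.card R then
        (if J.map τ.toEmbedding = J then Kc Ω q τ J * Kc Ω q τ Jᶜ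
          else if J.map τ.toEmbedding = Jᶜ then Kc Ω (q ^ 2) (τ ^ 2) J else 0)
        else 0 := by
  -- the sets attached to a block
  have hE : ∀ J : Finset R, 2 * J.card = Fintype.card R → (ESet Ω q τ J).Finite ∧
      (ESet Ω q τ J).ncard = (if J.map τ.toEmbedding = J then Kc Ω q τ J * Kc Ω q τ Jᶜ
          else if J.map τ.toEmbedding = Jᶜ then Kc Ω (q ^ 2) (τ ^ 2) J else 0) := by
    intro J hJ
    have hJ2 : 2 ≤ J.card := by omega
    have hJc : Jᶜ.card = J.card := by
      rw [Finset.card_compl]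
      omega
    have hJc2 : 2 ≤ Jᶜ.card := by omega
    have hne : J.Nonempty := Finset.card_pos.1 (by omega)
    have hne' : Jᶜ.Nonempty := Finset.card_pos.1 (by omega)
    by_cases h1 : J.map τ.toEmbedding = J
    · rw [if_pos h1]
      have h1' : Jᶜ.map τ.toEmbedding = Jᶜ := by
        ext x
        rw [Finset.mem_map_equiv, Finset.mem_compl, Finset.mem_compl]
        conv_rhs => rw [← h1, Finset.mem_map_equiv]
      have f1 := hfin J hne 1 le_rfl (by rw [pow_one]; exact h1)
      have f2 := hfin Jᶜ hne' 1 le_rfl (by rw [pow_one]; exact h1')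
      rw [pow_one, pow_one] at f1 f2
      exact edec2_case_stable hs τ hJ2 hJc2 h1 f1 f2
    · rw [if_neg h1]
      by_cases h2 : J.map τ.toEmbedding = Jᶜ
      · rw [if_pos h2]
        have h2' : J.map (τ ^ 2).toEmbedding = J := by
          have h3 : ∀ y, τ.symm y ∈ J ↔ y ∉ J := fun y => by
            rw [← Finset.mem_compl, ← h2, Finset.mem_map_equiv]
          ext x
          rw [Finset.mem_map_equiv]
          have h4 : (τ ^ 2).symm x = τ.symm (τ.symm x) := by
            rw [Equiv.symm_apply_eq, pow_two, Equiv.Perm.mul_apply, Equiv.apply_symm_apply,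
              Equiv.apply_symm_apply]
          rw [h4, h3, h3, not_not]
        exact edec2_case_swap hs τ hJ2 hJc2 h2 (hfin J hne 2 (by norm_num) h2')
      · rw [if_neg h2]
        have hempty : ESet Ω q τ J = ∅ := by
          rw [Set.eq_empty_iff_forall_notMem]
          rintro L ⟨hL, hB⟩
          have hB' := edec2_map hs τ hL hB
          rcases edec2_unique hL.1 hJ (by rw [Finset.card_map]; exact hJ) hB hB' with h3 | h3
          · exact h1 h3
          · exact h2 h3
        rw [hempty]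
        exact ⟨Set.finite_empty, Set.ncard_empty _⟩
  set T : Finset (Finset R) := Finset.univ.filter (fun J => 2 * J.card = Fintype.card R) with hT
  have hTmem : ∀ J, J ∈ T ↔ 2 * J.card = Fintype.card R := fun J => by simp [hT]
  have hU : HalfSet Ω q τ = ⋃ J ∈ T, ESet Ω q τ J := by
    ext L
    rw [edec2_half_iff, Set.mem_iUnion₂]
    constructor
    · rintro ⟨hL, J, hJ, hB⟩
      exact ⟨J, (hTmem J).2 hJ, hL, hB⟩
    · rintro ⟨J, hJ, hL, hB⟩
      exact ⟨hL, J, (hTmem J).1 hJ, hB⟩
  have hfinH : (HalfSet Ω q τ).Finite := by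
    rw [hU]
    exact Set.Finite.biUnion T.finite_toSet fun J hJ => (hE J ((hTmem J).1 hJ)).1
  refine ⟨hfinH, ?_⟩
  have h1 : (∑ J : Finset R, if 2 * J.card = Fintype.card R then
        (if J.map τ.toEmbedding = J then Kc Ω q τ J * Kc Ω q τ Jᶜ
          else if J.map τ.toEmbedding = Jᶜ then Kc Ω (q ^ 2) (τ ^ 2) J else 0)
        else 0) = ∑ J ∈ T, (ESet Ω q τ J).ncard := by
    rw [← Finset.sum_filter]
    exact Finset.sum_congr rfl fun J hJ => ((hE J ((hTmem J).1 hJ)).2).symm
  rw [h1]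
  set Hf := hfinH.toFinset with hHf
  have h2 : ∀ J ∈ T, (ESet Ω q τ J).ncard = ∑ L ∈ Hf, if EBlk J L then 1 else 0 := by
    intro J hJ
    rw [← Finset.card_filter, ← Set.ncard_coe_finset]
    congr 1
    ext L
    rw [Finset.coe_filter]
    constructor
    · rintro ⟨hL, hB⟩
      refine ⟨?_, hB⟩
      rw [hHf, Set.Finite.mem_toFinset, edec2_half_iff]
      exact ⟨hL, J, (hTmem J).1 hJ, hB⟩
    · rintro ⟨hL, hB⟩
      rw [hHf, Set.Finite.mem_toFinset, edec2_half_iff] at hL
      exact ⟨hL.1, hB⟩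
  rw [Finset.sum_congr rfl h2, Finset.sum_comm]
  have h3 : ∀ L ∈ Hf, (∑ J ∈ T, if EBlk J L then 1 else 0) = 2 := by
    intro L hL
    rw [hHf, Set.Finite.mem_toFinset, edec2_half_iff] at hL
    obtain ⟨hL, J, hJ, hB⟩ := hL
    rw [← Finset.card_filter]
    have hJ2 : 2 ≤ J.card := by omega
    have hJc : 2 * Jᶜ.card = Fintype.card R := by
      rw [Finset.card_compl]
      omega
    have h4 : T.filter (fun J => EBlk J L) = {J, Jᶜ} := by
      ext J'
      rw [Finset.mem_filter, hTmem, Finset.mem_insert, Finset.mem_singleton]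
      constructor
      · rintro ⟨hJ', hB'⟩
        exact edec2_unique hL.1 hJ hJ' hB hB'
      · rintro (rfl | rfl)
        · exact ⟨hJ, hB⟩
        · exact ⟨hJc, edec2_compl hL.1 hJ2 hB⟩
    rw [h4]
    refine Finset.card_pair fun he => ?_
    have hne : J.Nonempty := Finset.card_pos.1 (by omega)
    obtain ⟨x, hx⟩ := hne
    have hx' := hx
    rw [he, Finset.mem_compl] at hx'
    exact hx' hx
  rw [Finset.sum_congr rfl h3, Finset.sum_const, smul_eq_mul, mul_comm,
    Set.ncard_eq_toFinset_card _ hfinH]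

end EDEC2

end Pool.Agent.Mbar
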