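import Mathlib
import Pool.Agent.Mbar.Defs
import Pool.Agent.Mbar.FORA

/-! # Forests with one root -/

noncomputable section

namespace Pool.Agent.Mbar

open OnePoint Polynomial

open scoped Classical

section FORB

variable {R : Type} [Fintype R]

theorem isBlk_update {m : Finset R → ℕ} {J : Finset R} (k : ℕ) {B : Finset R} (hB : B ≠ J) :
    IsBlk (Function.update m J k) B ↔ IsBlk m B := by
  unfold IsBlk
  rw [Function.update_of_ne hB]

/-- the children of a proper subset do not see the weight of `J` -/
theorem childs_update {m : Finset R → ℕ} {J : Finset R} (k : ℕ) {A : Finset R} (hA : A ⊆ J) :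
    childs (Function.update m J k) A = childs m A := by
  have hne : ∀ B, B ⊆ A → B ≠ A → B ≠ J := by
    rintro B hB hBA rfl
    exact hBA (Finset.Subset.antisymm hB hA)
  ext B
  rw [mem_childs, mem_childs]
  constructor
  · rintro ⟨h1, h2, h3, h4⟩
    refine ⟨h1, h2, (isBlk_update k (hne B h1 h2)).mp h3, fun C hC hCA hCb hBC => ?_⟩
    exact h4 C hC hCA ((isBlk_update k (hne C hC hCA)).mpr hCb) hBC
  · rintro ⟨h1, h2, h3, h4⟩
    refine ⟨h1, h2, (isBlk_update k (hne B h1 h2)).mpr h3, fun C hC hCA hCb hBC => ?_⟩
    exact h4 C hC hCA ((isBlk_update k (hne C hC hCA)).mp hCb) hBC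

/-- the children of `J` are the roots if `J` carries no weight -/
theorem childs_eq_roots {m : Finset R → ℕ} {J : Finset R} (hJ : 2 ≤ J.card) (h0 : m J = 0) :
    childs m J = roots m J := by
  have hb : ¬ IsBlk m J := by
    rintro (h | h)
    · exact h h0
    · omega
  ext B
  rw [mem_childs, mem_roots]
  constructor
  · rintro ⟨h1, h2, h3, h4⟩
    exact ⟨h1, h3, fun C hC hCb hBC => h4 C hC (fun h => hb (h ▸ hCb)) hCb hBC⟩
  · rintro ⟨h1, h2, h3⟩
    exact ⟨h1, fun h => hb (h ▸ h2), h2, fun C hC _ hCb hBC => h3 C hC hCb hBC⟩

theorem inv_update {σ : Equiv.Perm R} {m : Finset R → ℕ} {J : Finset R} (k : ℕ)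
    (hσ : J.map σ.toEmbedding = J) (h : Inv σ m) : Inv σ (Function.update m J k) := by
  intro A
  by_cases hA : A = J
  · subst hA
    rw [hσ]
  · have hA' : A.map σ.toEmbedding ≠ J := by
      intro h'
      rw [← hσ] at h'
      exact hA (Finset.map_injective _ h')
    rw [Function.update_of_ne hA, Function.update_of_ne hA', h A]

theorem isForest_update {m : Finset R → ℕ} {J : Finset R} (hJ : 2 ≤ J.card) (hm : IsForest J m)
    (h0 : m J = 0) {k : ℕ} (hk : k < (roots m J).card - 1) :
    IsForest J (Function.update m J k) := by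
  have key : ∀ A, Function.update m J k A ≠ 0 → A = J ∨ m A ≠ 0 := by
    intro A hA
    by_cases h : A = J
    · exact Or.inl h
    · rw [Function.update_of_ne h] at hA
      exact Or.inr hA
  refine ⟨fun A hA => ?_, fun A B hA hB => ?_, fun A hA => ?_⟩
  · rcases key A hA with rfl | h
    · exact subset_rfl
    · exact hm.supp A h
  · rcases key A hA with rfl | h
    · rcases key B hB with rfl | h'
      · exact Or.inl subset_rfl
      · exact Or.inr (Or.inl (hm.supp B h'))
    · rcases key B hB with rfl | h'
      · exact Or.inl (hm.supp A h)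
      · exact hm.laminar A B h h'
  · by_cases h : A = J
    · subst h
      rw [childs_update k subset_rfl, childs_eq_roots hJ h0, Function.update_self]
      omega
    · rw [Function.update_of_ne h] at hA
      rw [childs_update k (hm.supp A hA), Function.update_of_ne h]
      exact hm.bound A hA

theorem isForest_erase {m : Finset R → ℕ} {J : Finset R} (hm : IsForest J m) :
    IsForest J (Function.update m J 0) := by
  have key : ∀ A, Function.update m J 0 A ≠ 0 → A ≠ J ∧ m A ≠ 0 := by
    intro A hA
    by_cases h : A = J
    · subst h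
      rw [Function.update_self] at hA
      exact absurd rfl hA
    · rw [Function.update_of_ne h] at hA
      exact ⟨h, hA⟩
  refine ⟨fun A hA => hm.supp A (key A hA).2,
    fun A B hA hB => hm.laminar A B (key A hA).2 (key B hB).2, fun A hA => ?_⟩
  obtain ⟨h1, h2⟩ := key A hA
  rw [childs_update 0 (hm.supp A h2), Function.update_of_ne h1]
  exact hm.bound A h2

theorem deg_update {m : Finset R → ℕ} {J : Finset R} (h0 : m J = 0) (k : ℕ) :
    deg (Function.update m J k) = deg m + k := by
  unfold deg
  rw [Finset.sum_update_of_mem (Finset.mem_univ J), ← Finset.add_sum_erase _ m (Finset.mem_univ J),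
    h0, Finset.sdiff_singleton_eq_erase]
  omega

end FORB

theorem forest_top {R : Type} [Fintype R] (σ : Equiv.Perm R) (J : Finset R) (hJ : 2 ≤ J.card)
    (hσ : J.map σ.toEmbedding = J) (q : ℕ) :
    ∑ m ∈ forests σ J, q ^ deg m =
      ∑ m ∈ (forests σ J).filter (fun m => m J = 0),
        q ^ deg m * ∑ i ∈ Finset.range ((roots m J).card - 1), q ^ i := by
  simp_rw [Finset.mul_sum, ← pow_add]
  rw [Finset.sum_sigma']
  refine Finset.sum_bij' (fun m _ => ⟨Function.update m J 0, m J⟩)
    (fun x _ => Function.update x.1 J x.2) ?_ ?_ ?_ ?_ ?_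
  · intro m hm
    rw [mem_forests] at hm
    have hf := isForest_erase hm.1
    have h0 : Function.update m J 0 J = 0 := Function.update_self _ _ _
    rw [Finset.mem_sigma, Finset.mem_filter, mem_forests, Finset.mem_range]
    refine ⟨⟨⟨hf, inv_update 0 hσ hm.2⟩, h0⟩, ?_⟩
    have h2 := ((roots_card hf hJ).2 h0).1
    show m J < (roots (Function.update m J 0) J).card - 1
    by_cases h : m J = 0
    · omega
    · have h3 := hm.1.bound J h
      rw [← childs_update 0 subset_rfl, childs_eq_roots hJ h0] at h3
      omega
  · rintro ⟨m, k⟩ hx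
    rw [Finset.mem_sigma, Finset.mem_filter, mem_forests, Finset.mem_range] at hx
    rw [mem_forests]
    exact ⟨isForest_update hJ hx.1.1.1 hx.1.2 hx.2, inv_update k hσ hx.1.1.2⟩
  · intro m _
    show Function.update (Function.update m J 0) J (m J) = m
    rw [Function.update_idem, Function.update_eq_self]
  · rintro ⟨m, k⟩ hx
    rw [Finset.mem_sigma, Finset.mem_filter] at hx
    have h0 : m J = 0 := hx.1.2
    have h1 : Function.update (Function.update m J k) J 0 = m := by
      rw [Function.update_idem, ← h0, Function.update_eq_self]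
    have h2 : Function.update m J k J = k := Function.update_self _ _ _
    show (⟨Function.update (Function.update m J k) J 0, Function.update m J k J⟩ :
      Σ _ : Finset R → ℕ, ℕ) = ⟨m, k⟩
    rw [h1, h2]
  · intro m _
    show q ^ deg m = q ^ (deg (Function.update m J 0) + m J)
    rw [← deg_update (Function.update_self J 0 m) (m J), Function.update_idem,
      Function.update_eq_self]

end Pool.Agent.Mbar
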