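import Mathlib
import Pool.Agent.Mbar.Defs

/-! # Merging of forests on the parts of a partition -/

noncomputable section

namespace Pool.Agent.Mbar

open OnePoint Polynomial

open scoped Classical

namespace FORC

variable {R : Type} [Fintype R]

omit [Fintype R] in
theorem childs_empty (m : Finset R → ℕ) : childs m ∅ = ∅ := by
  unfold childs
  rw [Finset.filter_eq_empty_iff]
  intro B hB h
  rw [Finset.mem_powerset, Finset.subset_empty] at hB
  exact h.1 hB

omit [Fintype R] in
theorem zero_empty {J : Finset R} {m : Finset R → ℕ} (hm : IsForest J m) : m ∅ = 0 := by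
  by_contra h
  have := hm.bound ∅ h
  rw [childs_empty, Finset.card_empty] at this
  omega

omit [Fintype R] in
theorem childs_congr {m m' : Finset R → ℕ} {A : Finset R} (h : ∀ B ⊆ A, m B = m' B) :
    childs m A = childs m' A := by
  have hb : ∀ B ⊆ A, (IsBlk m B ↔ IsBlk m' B) := fun B hB => by
    unfold IsBlk
    rw [h B hB]
  unfold childs
  apply Finset.filter_congr
  intro B hB
  rw [Finset.mem_powerset] at hB
  rw [hb B hB]
  constructor
  · rintro ⟨h1, h2, h3⟩
    exact ⟨h1, h2, fun C hC hCA hCb => h3 C hC hCA ((hb C hC).2 hCb)⟩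
  · rintro ⟨h1, h2, h3⟩
    exact ⟨h1, h2, fun C hC hCA hCb => h3 C hC hCA ((hb C hC).1 hCb)⟩

end FORC

/-- General version, with an arbitrary function `F` of the family. -/
theorem forc_gen {R : Type} [Fintype R] {B : Type} [Fintype B] (σ : Equiv.Perm R)
    (σB : Equiv.Perm B) (J : Finset R)
    (D : B → Finset R) (hne : ∀ b, (D b).Nonempty) (hdis : ∀ b b', b ≠ b' → Disjoint (D b) (D b'))
    (hun : ∀ x, x ∈ J ↔ ∃ b, x ∈ D b) (hσ : ∀ b, D (σB b) = (D b).map σ.toEmbedding)
    (F : (B → Finset R → ℕ) → ℕ) :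
    (∑ s ∈ Fintype.piFinset (fun b => forests 1 (D b)),
        if ∀ b A, s (σB b) (A.map σ.toEmbedding) = s b A then F s else 0) =
      ∑ m ∈ (forests σ J).filter (fun m => ∀ A, m A ≠ 0 → ∃ b, A ⊆ D b),
        F (fun b A => if A ⊆ D b then m A else 0) := by
  have _ := hne
  rw [← Finset.sum_filter]
  -- two parts containing a non-empty set are equal
  have huniq : ∀ {A : Finset R} {b b' : B}, A.Nonempty → A ⊆ D b → A ⊆ D b' → b = b' := by
    intro A b b' hA h h'
    by_contra hbb
    obtain ⟨x, hx⟩ := hA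
    exact Finset.disjoint_left.1 (hdis b b' hbb) (h hx) (h' hx)
  have hDJ : ∀ b, D b ⊆ J := fun b x hx => (hun x).2 ⟨b, hx⟩
  -- facts on families
  have hfam : ∀ s : B → Finset R → ℕ, (∀ b, IsForest (D b) (s b)) →
      ∀ b A, A ⊆ D b → ∑ b', s b' A = s b A := by
    intro s hs b A hA
    apply Finset.sum_eq_single b
    · intro b' _ hb'
      by_contra h0
      have h1 := (hs b').supp A h0
      rcases A.eq_empty_or_nonempty with h2 | h2
      · rw [h2] at h0
        exact h0 (FORC.zero_empty (hs b'))
      · exact hb' (huniq h2 h1 hA)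
    · intro h
      exact absurd (Finset.mem_univ b) h
  refine Finset.sum_bij' (fun s _ => fun A => ∑ b, s b A)
    (fun m _ => fun b A => if A ⊆ D b then m A else 0) ?_ ?_ ?_ ?_ ?_
  · -- the sum is a forest
    intro s hs
    rw [Finset.mem_filter, Fintype.mem_piFinset] at hs
    obtain ⟨hs1, hs2⟩ := hs
    have hF : ∀ b, IsForest (D b) (s b) := fun b => (Finset.mem_filter.1 (hs1 b)).2.1
    have hR : ∀ b A, s b A < A.card + 1 := fun b A =>
      Finset.mem_range.1 (Fintype.mem_piFinset.1 (Finset.mem_filter.1 (hs1 b)).1 A)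
    have hex : ∀ A, ∑ b, s b A ≠ 0 → ∃ b, A ⊆ D b ∧ s b A ≠ 0 := by
      intro A hA
      obtain ⟨b, _, hb⟩ := Finset.exists_ne_zero_of_sum_ne_zero hA
      exact ⟨b, (hF b).supp A hb, hb⟩
    rw [Finset.mem_filter]
    refine ⟨?_, fun A hA => (hex A hA).imp fun b h => h.1⟩
    unfold forests
    rw [Finset.mem_filter, Fintype.mem_piFinset]
    refine ⟨?_, ⟨?_, ?_, ?_⟩, ?_⟩
    · intro A
      rw [Finset.mem_range]
      by_cases h0 : ∑ b, s b A = 0
      · rw [h0]
        omega
      · obtain ⟨b, hb, _⟩ := hex A h0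
        rw [hfam s hF b A hb]
        exact hR b A
    · intro A hA
      obtain ⟨b, hb, _⟩ := hex A hA
      exact hb.trans (hDJ b)
    · intro A A' hA hA'
      obtain ⟨b, hb, hb0⟩ := hex A hA
      obtain ⟨b', hb', hb0'⟩ := hex A' hA'
      by_cases hbb : b = b'
      · subst hbb
        exact (hF b).laminar A A' hb0 hb0'
      · exact Or.inr (Or.inr (Disjoint.mono hb hb' (hdis b b' hbb)))
    · intro A hA
      obtain ⟨b, hb, hb0⟩ := hex A hA
      have h1 := (hF b).bound A hb0
      rw [FORC.childs_congr (m' := s b) (fun C hC => hfam s hF b C (hC.trans hb)),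
        hfam s hF b A hb]
      exact h1
    · intro A
      change ∑ b, s b (A.map σ.toEmbedding) = ∑ b, s b A
      rw [← Equiv.sum_comp σB]
      exact Finset.sum_congr rfl fun b _ => hs2 b A
  · -- the restrictions are forests
    intro m hm
    rw [Finset.mem_filter] at hm
    obtain ⟨hm1, hm2⟩ := hm
    unfold forests at hm1
    rw [Finset.mem_filter, Fintype.mem_piFinset] at hm1
    obtain ⟨hmR, hmF, hmI⟩ := hm1
    rw [Finset.mem_filter, Fintype.mem_piFinset]
    constructor
    · intro b
      unfold forests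
      rw [Finset.mem_filter, Fintype.mem_piFinset]
      have hsupp : ∀ A, (if A ⊆ D b then m A else 0) ≠ 0 → A ⊆ D b ∧ m A ≠ 0 := by
        intro A hA
        by_cases h : A ⊆ D b
        · rw [if_pos h] at hA
          exact ⟨h, hA⟩
        · rw [if_neg h] at hA
          exact absurd rfl hA
      refine ⟨?_, ⟨?_, ?_, ?_⟩, ?_⟩
      · intro A
        rw [Finset.mem_range]
        have := Finset.mem_range.1 (hmR A)
        split_ifs
        · exact this
        · omega
      · intro A hA
        exact (hsupp A hA).1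
      · intro A A' hA hA'
        exact hmF.laminar A A' (hsupp A hA).2 (hsupp A' hA').2
      · intro A hA
        obtain ⟨h1, h2⟩ := hsupp A hA
        rw [FORC.childs_congr (m' := m) (fun C hC => if_pos (hC.trans h1)), if_pos h1]
        exact hmF.bound A h2
      · intro A
        have : A.map (1 : Equiv.Perm R).toEmbedding = A := by
          ext x
          rw [Finset.mem_map]
          exact ⟨fun ⟨y, hy, hyx⟩ => hyx ▸ hy, fun h => ⟨x, h, rfl⟩⟩
        rw [this]
    · intro b A
      have h1 : A.map σ.toEmbedding ⊆ D (σB b) ↔ A ⊆ D b := by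
        rw [hσ b]
        exact Finset.map_subset_map
      change (if A.map σ.toEmbedding ⊆ D (σB b) then m (A.map σ.toEmbedding) else 0)
        = if A ⊆ D b then m A else 0
      by_cases h : A ⊆ D b
      · rw [if_pos h, if_pos (h1.2 h), hmI A]
      · rw [if_neg h, if_neg (fun h2 => h (h1.1 h2))]
  · -- left inverse
    intro s hs
    rw [Finset.mem_filter, Fintype.mem_piFinset] at hs
    obtain ⟨hs1, _⟩ := hs
    have hF : ∀ b, IsForest (D b) (s b) := fun b => (Finset.mem_filter.1 (hs1 b)).2.1
    funext b A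
    by_cases h : A ⊆ D b
    · rw [if_pos h]
      exact hfam s hF b A h
    · rw [if_neg h]
      by_contra h0
      exact h ((hF b).supp A (Ne.symm h0))
  · -- right inverse
    intro m hm
    rw [Finset.mem_filter] at hm
    obtain ⟨hm1, hm2⟩ := hm
    have hmF : IsForest J m := (Finset.mem_filter.1 hm1).2.1
    funext A
    change (∑ b, if A ⊆ D b then m A else 0) = m A
    by_cases h0 : m A = 0
    · rw [h0]
      exact Finset.sum_eq_zero fun b _ => ite_self 0
    · obtain ⟨b, hb⟩ := hm2 A h0
      have hA : A.Nonempty := by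
        rw [Finset.nonempty_iff_ne_empty]
        rintro rfl
        exact h0 (FORC.zero_empty hmF)
      rw [Finset.sum_eq_single b]
      · rw [if_pos hb]
      · intro b' _ hb'
        rw [if_neg fun h => hb' (huniq hA h hb)]
      · intro h
        exact absurd (Finset.mem_univ b) h
  · -- values
    intro s hs
    rw [Finset.mem_filter, Fintype.mem_piFinset] at hs
    obtain ⟨hs1, _⟩ := hs
    have hF : ∀ b, IsForest (D b) (s b) := fun b => (Finset.mem_filter.1 (hs1 b)).2.1
    congr 1
    funext b A
    by_cases h : A ⊆ D b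
    · rw [if_pos h]
      exact (hfam s hF b A h).symm
    · rw [if_neg h]
      by_contra h0
      exact h ((hF b).supp A h0)

/-- `B` indexes a partition of `J` into the non-empty sets `D b`, permuted by `σ`. -/
theorem forest_merge {R : Type} [Fintype R] {B : Type} [Fintype B] (σ : Equiv.Perm R)
    (σB : Equiv.Perm B) (J : Finset R)
    (D : B → Finset R) (hne : ∀ b, (D b).Nonempty) (hdis : ∀ b b', b ≠ b' → Disjoint (D b) (D b'))
    (hun : ∀ x, x ∈ J ↔ ∃ b, x ∈ D b) (hσ : ∀ b, D (σB b) = (D b).map σ.toEmbedding) (q : ℕ) :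
    (∑ s ∈ Fintype.piFinset (fun b => forests 1 (D b)),
        if ∀ b A, s (σB b) (A.map σ.toEmbedding) = s b A then q ^ (∑ b, deg (s b)) else 0) =
      ∑ m ∈ (forests σ J).filter (fun m => ∀ A, m A ≠ 0 → ∃ b, A ⊆ D b), q ^ deg m := by
  rw [forc_gen σ σB J D hne hdis hun hσ (fun s => q ^ (∑ b, deg (s b)))]
  refine Finset.sum_congr rfl fun m hm => ?_
  rw [Finset.mem_filter] at hm
  obtain ⟨hm1, hm2⟩ := hm
  have hmF : IsForest J m := (Finset.mem_filter.1 hm1).2.1
  congr 1
  unfold deg
  rw [Finset.sum_comm]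
  refine Finset.sum_congr rfl fun A _ => ?_
  by_cases h0 : m A = 0
  · rw [h0]
    exact Finset.sum_eq_zero fun b _ => ite_self 0
  · obtain ⟨b, hb⟩ := hm2 A h0
    have hA : A.Nonempty := by
      rw [Finset.nonempty_iff_ne_empty]
      rintro rfl
      exact h0 (FORC.zero_empty hmF)
    rw [Finset.sum_eq_single b]
    · rw [if_pos hb]
    · intro b' _ hb'
      refine if_neg fun h => ?_
      obtain ⟨x, hx⟩ := hA
      exact Finset.disjoint_left.1 (hdis b' b hb') (h hx) (hb hx)
    · intro h
      exact absurd (Finset.mem_univ b) h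

end Pool.Agent.Mbar
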