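import Mathlib
import Pool.Agent.Mbar.Defs

/-! # The twisted product lemma -/

noncomputable section

namespace Pool.Agent.Mbar

open scoped Classical

namespace TPL

variable {B X : Type} [Fintype B] (σ : Equiv.Perm B)

/-- the set of cycles -/
abbrev Q : Type := Quotient (Equiv.Perm.SameCycle.setoid σ)

/-- a representative -/
def rep (o : Q σ) : B := Quotient.out o

/-- the cycle of `b` -/
def cl (b : B) : Q σ := Quotient.mk (Equiv.Perm.SameCycle.setoid σ) b

/-- the length of the cycle -/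
def len (o : Q σ) : ℕ := Function.minimalPeriod σ (rep σ o)

omit [Fintype B] in
theorem cl_rep (o : Q σ) : cl σ (rep σ o) = o := Quotient.out_eq o

theorem exists_pow {a b : B} (h : Equiv.Perm.SameCycle σ a b) : ∃ k : ℕ, (σ ^ k) a = b := by
  obtain ⟨i, hi⟩ := h
  have h1 : σ ^ i ∈ Subgroup.zpowers σ := ⟨i, rfl⟩
  rw [← mem_powers_iff_mem_zpowers] at h1
  obtain ⟨n, hn⟩ := h1
  refine ⟨n, ?_⟩
  have hn' : σ ^ n = σ ^ i := hn
  rw [hn', hi]

theorem exists_k (b : B) : ∃ k : ℕ, (σ ^ k) (rep σ (cl σ b)) = b := by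
  refine exists_pow σ ?_
  have : cl σ (rep σ (cl σ b)) = cl σ b := cl_rep σ _
  exact Quotient.exact this

/-- the exponent of `b` -/
def kk (b : B) : ℕ := (exists_k σ b).choose

theorem kk_spec (b : B) : (σ ^ kk σ b) (rep σ (cl σ b)) = b := (exists_k σ b).choose_spec

omit [Fintype B] in
theorem cl_eq_iff (a b : B) : cl σ a = cl σ b ↔ Equiv.Perm.SameCycle σ a b :=
  ⟨fun h => Quotient.exact h, fun h => Quotient.sound h⟩

theorem cl_map (b : B) : cl σ (σ b) = cl σ b := by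
  rw [cl_eq_iff]
  exact Equiv.Perm.sameCycle_apply_left.2 (Equiv.Perm.SameCycle.refl σ b)

theorem cl_pow (k : ℕ) (b : B) : cl σ ((σ ^ k) b) = cl σ b := by
  induction k with
  | zero => simp
  | succ k ih => rw [pow_succ', Equiv.Perm.mul_apply, cl_map, ih]

theorem len_pos (o : Q σ) : 0 < len σ o := by
  refine Function.minimalPeriod_pos_of_mem_periodicPts ⟨orderOf σ, orderOf_pos σ, ?_⟩
  change (⇑σ)^[orderOf σ] _ = _
  rw [Equiv.Perm.iterate_eq_pow, pow_orderOf_eq_one]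
  rfl

omit [Fintype B] in
theorem pow_len (o : Q σ) : (σ ^ len σ o) (rep σ o) = rep σ o := by
  have := Function.iterate_minimalPeriod (f := σ) (x := rep σ o)
  rw [Equiv.Perm.iterate_eq_pow] at this
  exact this

/-- powers of a periodic point -/
theorem per_mul {T : Equiv.Perm X} {x : X} {d : ℕ} (h : (T ^ d) x = x) (n : ℕ) :
    (T ^ (d * n)) x = x := by
  induction n with
  | zero => simp
  | succ n ih => rw [Nat.mul_succ, pow_add, Equiv.Perm.mul_apply, h, ih]

omit [Fintype B] in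
theorem pow_eq {o : Q σ} {T : Equiv.Perm X} {x : X} (h : (T ^ len σ o) x = x) {k l : ℕ}
    (hkl : (σ ^ k) (rep σ o) = (σ ^ l) (rep σ o)) : (T ^ k) x = (T ^ l) x := by
  wlog hle : k ≤ l generalizing k l
  · exact (this hkl.symm (by omega)).symm
  obtain ⟨n, rfl⟩ := Nat.exists_eq_add_of_le hle
  have h1 : (σ ^ n) (rep σ o) = rep σ o := by
    rw [pow_add, Equiv.Perm.mul_apply] at hkl
    exact ((σ ^ k).injective hkl).symm
  have h2 : Function.IsPeriodicPt σ n (rep σ o) := by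
    change (⇑σ)^[n] _ = _
    rw [Equiv.Perm.iterate_eq_pow]
    exact h1
  obtain ⟨c, hc⟩ := h2.minimalPeriod_dvd
  have h3 : n = len σ o * c := hc
  rw [pow_add, Equiv.Perm.mul_apply, h3, per_mul h]

/-- restriction to the representatives -/
def fwd (s : B → X) : Q σ → X := fun o => s (rep σ o)

/-- extension by equivariance -/
def bwd (T : Equiv.Perm X) (y : Q σ → X) : B → X := fun b => (T ^ kk σ b) (y (cl σ b))

omit [Fintype B] in
theorem equi_pow {T : Equiv.Perm X} {s : B → X} (hs : ∀ b, s (σ b) = T (s b)) (k : ℕ) (b : B) :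
    s ((σ ^ k) b) = (T ^ k) (s b) := by
  induction k with
  | zero => simp
  | succ k ih =>
    rw [pow_succ', pow_succ', Equiv.Perm.mul_apply, Equiv.Perm.mul_apply, hs, ih]

theorem bwd_fwd {T : Equiv.Perm X} {s : B → X} (hs : ∀ b, s (σ b) = T (s b)) :
    bwd σ T (fwd σ s) = s := by
  funext b
  change (T ^ kk σ b) (s (rep σ (cl σ b))) = s b
  rw [← equi_pow σ hs, kk_spec]

theorem fwd_bwd {T : Equiv.Perm X} {y : Q σ → X} (hy : ∀ o, (T ^ len σ o) (y o) = y o) :
    fwd σ (bwd σ T y) = y := by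
  funext o
  change (T ^ kk σ (rep σ o)) (y (cl σ (rep σ o))) = y o
  have h1 := kk_spec σ (rep σ o)
  rw [cl_rep] at h1 ⊢
  have := pow_eq σ (hy o) (k := kk σ (rep σ o)) (l := 0) (by rw [h1]; simp)
  rw [this]
  simp

theorem fwd_per {T : Equiv.Perm X} {s : B → X} (hs : ∀ b, s (σ b) = T (s b)) (o : Q σ) :
    (T ^ len σ o) (fwd σ s o) = fwd σ s o := by
  change (T ^ len σ o) (s (rep σ o)) = s (rep σ o)
  rw [← equi_pow σ hs, pow_len]

theorem bwd_equi {T : Equiv.Perm X} {y : Q σ → X} (hy : ∀ o, (T ^ len σ o) (y o) = y o) (b : B) :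
    bwd σ T y (σ b) = T (bwd σ T y b) := by
  change (T ^ kk σ (σ b)) (y (cl σ (σ b))) = T ((T ^ kk σ b) (y (cl σ b)))
  rw [← Equiv.Perm.mul_apply, ← pow_succ']
  have h1 := kk_spec σ (σ b)
  rw [cl_map] at h1 ⊢
  refine pow_eq σ (hy _) ?_
  rw [h1, pow_succ', Equiv.Perm.mul_apply, kk_spec]

omit [Fintype B] in
theorem mem_pow {T : Equiv.Perm X} {A : B → Set X} (hA : ∀ b x, T x ∈ A (σ b) ↔ x ∈ A b) (k : ℕ)
    (b : B) (x : X) : (T ^ k) x ∈ A ((σ ^ k) b) ↔ x ∈ A b := by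
  induction k with
  | zero => simp
  | succ k ih => rw [pow_succ', pow_succ', Equiv.Perm.mul_apply, Equiv.Perm.mul_apply, hA, ih]

theorem bwd_mem {T : Equiv.Perm X} {A : B → Set X} (hA : ∀ b x, T x ∈ A (σ b) ↔ x ∈ A b)
    {y : Q σ → X} (hy : ∀ o, y o ∈ A (rep σ o)) (b : B) : bwd σ T y b ∈ A b := by
  have h1 := (mem_pow σ hA (kk σ b) (rep σ (cl σ b)) (y (cl σ b))).2 (hy _)
  rw [kk_spec] at h1
  exact h1

/-- the number of elements of a cycle -/
theorem card_fibre (o : Q σ) : (Finset.univ.filter (fun b => cl σ b = o)).card = len σ o := by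
  have h1 : Finset.univ.filter (fun b => cl σ b = o) =
      (Finset.range (len σ o)).image (fun i => (σ ^ i) (rep σ o)) := by
    ext b
    rw [Finset.mem_filter, Finset.mem_image]
    constructor
    · rintro ⟨_, hb⟩
      refine ⟨kk σ b % len σ o, Finset.mem_range.2 (Nat.mod_lt _ (len_pos σ o)), ?_⟩
      have h2 := kk_spec σ b
      rw [hb] at h2
      have h3 := Function.iterate_mod_minimalPeriod_eq (f := σ) (x := rep σ o) (n := kk σ b)
      rw [Equiv.Perm.iterate_eq_pow, Equiv.Perm.iterate_eq_pow, h2] at h3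
      exact h3
    · rintro ⟨i, _, rfl⟩
      exact ⟨Finset.mem_univ _, by rw [cl_pow, cl_rep]⟩
  rw [h1, Finset.card_image_of_injOn, Finset.card_range]
  intro i hi j hj hij
  have hi' : i < Function.minimalPeriod σ (rep σ o) := Finset.mem_range.1 (Finset.mem_coe.1 hi)
  have hj' : j < Function.minimalPeriod σ (rep σ o) := Finset.mem_range.1 (Finset.mem_coe.1 hj)
  refine Function.iterate_injOn_Iio_minimalPeriod (f := σ) (x := rep σ o) hi' hj' ?_
  change (⇑σ)^[i] _ = (⇑σ)^[j] _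
  rw [Equiv.Perm.iterate_eq_pow, Equiv.Perm.iterate_eq_pow]
  exact hij

theorem sum_deg {Y : Type} {T' : Equiv.Perm Y} {dg : Y → ℕ} (hdg : ∀ y, dg (T' y) = dg y)
    {s : B → Y} (hs : ∀ b, s (σ b) = T' (s b)) :
    ∑ b, dg (s b) = ∑ o : Q σ, len σ o * dg (fwd σ s o) := by
  have hdgp : ∀ (k : ℕ) y, dg ((T' ^ k) y) = dg y := by
    intro k y
    induction k with
    | zero => simp
    | succ k ih => rw [pow_succ', Equiv.Perm.mul_apply, hdg, ih]
  rw [← Finset.sum_fiberwise (s := Finset.univ) (g := cl σ) (f := fun b => dg (s b))]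
  refine Finset.sum_congr rfl (fun o _ => ?_)
  rw [← card_fibre, ← smul_eq_mul, ← Finset.sum_const]
  refine Finset.sum_congr rfl (fun b hb => ?_)
  have hb' : cl σ b = o := (Finset.mem_filter.1 hb).2
  have h1 := kk_spec σ b
  rw [hb'] at h1
  rw [← h1, equi_pow σ hs, hdgp]
  rfl

end TPL

theorem tpl {B X Y : Type} [Fintype B] (σ : Equiv.Perm B) (T : Equiv.Perm X)
    (T' : Equiv.Perm Y) (A : B → Set X) (A' : B → Finset Y) (dg : Y → ℕ) (q : ℕ)
    (hA : ∀ b x, T x ∈ A (σ b) ↔ x ∈ A b) (hA' : ∀ b y, T' y ∈ A' (σ b) ↔ y ∈ A' b)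
    (hdg : ∀ y, dg (T' y) = dg y)
    (h : ∀ b d, 1 ≤ d → (σ ^ d) b = b → {x | x ∈ A b ∧ (T ^ d) x = x}.Finite ∧
      {x | x ∈ A b ∧ (T ^ d) x = x}.ncard =
        ∑ y ∈ A' b, if (T' ^ d) y = y then q ^ (d * dg y) else 0) :
    {s : B → X | (∀ b, s b ∈ A b) ∧ ∀ b, s (σ b) = T (s b)}.Finite ∧
    {s : B → X | (∀ b, s b ∈ A b) ∧ ∀ b, s (σ b) = T (s b)}.ncard =
      ∑ s ∈ Fintype.piFinset A', if ∀ b, s (σ b) = T' (s b) then q ^ (∑ b, dg (s b)) else 0 := by
  have hh := fun o : TPL.Q σ => h (TPL.rep σ o) (TPL.len σ o) (TPL.len_pos σ o) (TPL.pow_len σ o)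
  set F : TPL.Q σ → Finset X := fun o => (hh o).1.toFinset with hF
  have hFm : ∀ o x, x ∈ F o ↔ x ∈ A (TPL.rep σ o) ∧ (T ^ TPL.len σ o) x = x := by
    intro o x
    rw [hF]
    simp only [Set.Finite.mem_toFinset, Set.mem_ofPred_eq]
  have hset : {s : B → X | (∀ b, s b ∈ A b) ∧ ∀ b, s (σ b) = T (s b)} =
      (((Fintype.piFinset F).image (TPL.bwd σ T) : Finset (B → X)) : Set (B → X)) := by
    ext s
    rw [Set.mem_ofPred_eq, Finset.mem_coe, Finset.mem_image]
    constructor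
    · rintro ⟨h1, h2⟩
      refine ⟨TPL.fwd σ s, ?_, TPL.bwd_fwd σ h2⟩
      rw [Fintype.mem_piFinset]
      intro o
      rw [hFm]
      exact ⟨h1 _, TPL.fwd_per σ h2 o⟩
    · rintro ⟨y, hy, rfl⟩
      rw [Fintype.mem_piFinset] at hy
      exact ⟨TPL.bwd_mem σ hA (fun o => ((hFm o _).1 (hy o)).1),
        TPL.bwd_equi σ (fun o => ((hFm o _).1 (hy o)).2)⟩
  rw [hset]
  refine ⟨Finset.finite_toSet _, ?_⟩
  rw [Set.ncard_coe_finset, Finset.card_image_of_injOn, Fintype.card_piFinset]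
  · have h1 : ∀ o : TPL.Q σ, (F o).card = ∑ y ∈ (A' (TPL.rep σ o)).filter
        (fun y => (T' ^ TPL.len σ o) y = y), q ^ (TPL.len σ o * dg y) := by
      intro o
      rw [Finset.sum_filter, ← (hh o).2, hF]
      exact (Set.ncard_eq_toFinset_card _ (hh o).1).symm
    rw [Finset.prod_congr rfl (fun o _ => h1 o), Finset.prod_univ_sum, ← Finset.sum_filter]
    refine Finset.sum_bij' (fun y _ => TPL.bwd σ T' y) (fun s _ => TPL.fwd σ s) ?_ ?_ ?_ ?_ ?_
    · intro y hy
      rw [Fintype.mem_piFinset] at hy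
      rw [Finset.mem_filter, Fintype.mem_piFinset]
      have h2 : ∀ o, (T' ^ TPL.len σ o) (y o) = y o := fun o => (Finset.mem_filter.1 (hy o)).2
      exact ⟨TPL.bwd_mem (A := fun b => ((A' b : Finset Y) : Set Y)) σ hA'
        (fun o => (Finset.mem_filter.1 (hy o)).1), TPL.bwd_equi σ h2⟩
    · intro s hs
      rw [Finset.mem_filter, Fintype.mem_piFinset] at hs
      rw [Fintype.mem_piFinset]
      intro o
      rw [Finset.mem_filter]
      exact ⟨hs.1 _, TPL.fwd_per σ hs.2 o⟩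
    · intro y hy
      rw [Fintype.mem_piFinset] at hy
      exact TPL.fwd_bwd σ (fun o => (Finset.mem_filter.1 (hy o)).2)
    · intro s hs
      exact TPL.bwd_fwd σ (Finset.mem_filter.1 hs).2
    · intro y hy
      rw [Fintype.mem_piFinset] at hy
      have h2 : ∀ o, (T' ^ TPL.len σ o) (y o) = y o := fun o => (Finset.mem_filter.1 (hy o)).2
      rw [TPL.sum_deg σ hdg (TPL.bwd_equi σ h2), TPL.fwd_bwd σ h2, Finset.prod_pow_eq_pow_sum]
  · intro y hy y' hy' hyy
    rw [Finset.mem_coe, Fintype.mem_piFinset] at hy hy'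
    rw [← TPL.fwd_bwd σ (fun o => ((hFm o _).1 (hy o)).2),
      ← TPL.fwd_bwd σ (fun o => ((hFm o _).1 (hy' o)).2)]
    exact congrArg (TPL.fwd σ) hyy

end Pool.Agent.Mbar
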