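import Mathlib
import Pool.Agent.Mbar.Defs
import Pool.Agent.Mbar.ONE
import Pool.Agent.Mbar.TPL

noncomputable section

namespace Pool.Agent.Mbar

open OnePoint Polynomial

open scoped Classical

variable {Ω : Type} [Field Ω] {P : Type} [Fintype P]

theorem mapa_fr_infty (q : ℕ) : fr (Ω := Ω) q ∞ = ∞ := rfl

theorem mapa_fr_coe (q : ℕ) (x : Ω) : fr q (x : OnePoint Ω) = ((x ^ q : Ω) : OnePoint Ω) := rfl

/-- the power map as a permutation of the projective line -/
def mapa_frPerm {q : ℕ} (hs : Setup Ω q) : Equiv.Perm (OnePoint Ω) := Equiv.ofBijective (fr q) (fr_bij hs)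

theorem mapa_frPerm_apply {q : ℕ} (hs : Setup Ω q) (x : OnePoint Ω) : mapa_frPerm hs x = fr q x := rfl

theorem mapa_frPerm_pow {q : ℕ} (hs : Setup Ω q) (d : ℕ) (x : OnePoint Ω) :
    (mapa_frPerm hs ^ d) x = fr (q ^ d) x := by
  rw [← fr_iterate d x]
  induction d generalizing x with
  | zero => rfl
  | succ d ih =>
    rw [pow_succ, Equiv.Perm.mul_apply, ih, Function.iterate_succ_apply, mapa_frPerm_apply]

theorem mapa_pow_bij {q : ℕ} (hs : Setup Ω q) : Function.Bijective (fun x : Ω => x ^ q) := by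
  constructor
  · intro x y h
    have : fr q (x : OnePoint Ω) = fr q (y : OnePoint Ω) := by
      rw [mapa_fr_coe, mapa_fr_coe]
      exact congrArg _ h
    exact OnePoint.coe_injective ((fr_bij hs).1 this)
  · intro y
    obtain ⟨z, hz⟩ := (fr_bij hs).2 (y : OnePoint Ω)
    induction z using OnePoint.rec with
    | infty =>
      rw [mapa_fr_infty] at hz
      exact absurd hz (OnePoint.infty_ne_coe y)
    | coe x =>
      rw [mapa_fr_coe] at hz
      exact ⟨x, OnePoint.coe_injective hz⟩

/-- the power map as a permutation of the field -/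
def mapa_powPerm {q : ℕ} (hs : Setup Ω q) : Equiv.Perm Ω := Equiv.ofBijective _ (mapa_pow_bij hs)

theorem mapa_powPerm_apply {q : ℕ} (hs : Setup Ω q) (x : Ω) : mapa_powPerm hs x = x ^ q := rfl

theorem mapa_powPerm_pow {q : ℕ} (hs : Setup Ω q) (d : ℕ) (x : Ω) :
    (mapa_powPerm hs ^ d) x = x ^ (q ^ d) := by
  induction d generalizing x with
  | zero => simp
  | succ d ih =>
    rw [pow_succ, Equiv.Perm.mul_apply, ih, mapa_powPerm_apply, ← pow_mul, pow_succ']

/-- rational points of the projective line -/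
theorem mapa_rat {q : ℕ} (hs : Setup Ω q) :
    {x : OnePoint Ω | fr q x = x}.Finite ∧ {x : OnePoint Ω | fr q x = x}.ncard = q + 1 := by
  have h : {x : OnePoint Ω | fr q x = x} =
      insert ∞ ((fun x : Ω => (x : OnePoint Ω)) '' {x : Ω | x ^ q = x}) := by
    ext x
    induction x using OnePoint.rec with
    | infty => simp [mapa_fr_infty]
    | coe x =>
      simp only [Set.mem_ofPred_eq, mapa_fr_coe, Set.mem_insert_iff, Set.mem_image]
      constructor
      · intro h
        exact Or.inr ⟨x, OnePoint.coe_injective h, rfl⟩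
      · rintro (h | ⟨y, hy, hyx⟩)
        · exact absurd h (OnePoint.coe_ne_infty x)
        · have := OnePoint.coe_injective hyx
          subst this
          rw [hy]
  obtain ⟨hfin, hcard⟩ := card_fixed hs
  have hfin2 := hfin.image (fun x : Ω => (x : OnePoint Ω))
  rw [h]
  refine ⟨hfin2.insert _, ?_⟩
  rw [Set.ncard_insert_of_notMem _ hfin2, Set.ncard_image_of_injective _ OnePoint.coe_injective,
    hcard]
  rintro ⟨y, -, hy⟩
  exact OnePoint.coe_ne_infty y hy

theorem emaps_all {q : ℕ} (hs : Setup Ω q) (σ : Equiv.Perm P) :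
    (EMaps Ω q σ).Finite ∧ (EMaps Ω q σ).ncard = ∑ S ∈ stab σ, q ^ S.card := by
  have h := tpl (B := P) (X := OnePoint Ω) (Y := Bool) σ (mapa_frPerm hs) 1 (fun _ => Set.univ)
    (fun _ => Finset.univ) (fun y => if y = true then 1 else 0) q (by simp) (by simp) (by simp)
    (by
      intro b d hd _
      have hr := mapa_rat (hs.pow hd)
      have e : {x : OnePoint Ω | x ∈ (Set.univ : Set (OnePoint Ω)) ∧ (mapa_frPerm hs ^ d) x = x} =
          {x : OnePoint Ω | fr (q ^ d) x = x} := by
        ext x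
        simp only [Set.mem_univ, true_and, Set.mem_ofPred_eq, mapa_frPerm_pow]
      rw [e]
      refine ⟨hr.1, ?_⟩
      rw [hr.2]
      simp)
  have e : {s : P → OnePoint Ω | (∀ b, s b ∈ (Set.univ : Set (OnePoint Ω))) ∧
      ∀ b, s (σ b) = mapa_frPerm hs (s b)} = EMaps Ω q σ := by
    ext s
    simp only [Set.mem_univ, implies_true, true_and, Set.mem_ofPred_eq, EMaps]
    rfl
  rw [e] at h
  refine ⟨h.1, ?_⟩
  rw [h.2]
  let p : (P → Bool) → Prop := fun s => ∀ b, s (σ b) = (1 : Equiv.Perm Bool) (s b)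
  let f : (P → Bool) → ℕ := fun s => q ^ ∑ b, if s b = true then 1 else 0
  have h1 : (∑ s ∈ Fintype.piFinset (fun _ : P => (Finset.univ : Finset Bool)),
      if ∀ b, s (σ b) = (1 : Equiv.Perm Bool) (s b) then
        q ^ ∑ b, (if s b = true then 1 else 0) else 0) =
      ∑ s ∈ (Fintype.piFinset (fun _ : P => (Finset.univ : Finset Bool))).filter p, f s := by
    rw [Finset.sum_filter]
  refine Eq.trans ?_ (h1.trans ?_)
  · refine Finset.sum_congr rfl fun s _ => ?_
    by_cases hp : p s
    · exact (if_pos hp).trans (if_pos hp).symm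
    · exact (if_neg hp).trans (if_neg hp).symm
  refine Finset.sum_bij' (fun s _ => Finset.univ.filter (fun x => s x = true))
    (fun S _ => fun x => decide (x ∈ S)) ?_ ?_ ?_ ?_ ?_
  · intro s hs'
    rw [Finset.mem_filter] at hs'
    unfold stab
    rw [Finset.mem_filter]
    refine ⟨Finset.mem_univ _, ?_⟩
    ext x
    simp only [Finset.mem_map_equiv, Finset.mem_filter, Finset.mem_univ, true_and]
    have := hs'.2 (σ.symm x)
    simp only [Equiv.apply_symm_apply, Equiv.Perm.coe_one, id_eq] at this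
    rw [this]
  · intro S hS
    unfold stab at hS
    rw [Finset.mem_filter] at hS
    rw [Finset.mem_filter]
    refine ⟨Fintype.mem_piFinset.mpr fun _ => Finset.mem_univ _, fun b => ?_⟩
    have : σ b ∈ S ↔ b ∈ S := by
      conv_lhs => rw [← hS.2]
      simp
    simp [this]
  · intro s _
    funext x
    simp
  · intro S _
    ext x
    simp
  · intro s _
    rw [Finset.card_filter]

/-- equivariant maps with values in the affine line -/
theorem emaps_line {q : ℕ} (hs : Setup Ω q) (σ : Equiv.Perm P) :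
    {ψ : P → Ω | ∀ x, ψ (σ x) = ψ x ^ q}.Finite ∧
    {ψ : P → Ω | ∀ x, ψ (σ x) = ψ x ^ q}.ncard = q ^ Fintype.card P := by
  have h := tpl (B := P) (X := Ω) (Y := Unit) σ (mapa_powPerm hs) 1 (fun _ => Set.univ)
    (fun _ => Finset.univ) (fun _ => 1) q (by simp) (by simp) (by simp)
    (by
      intro b d hd _
      have hr := card_fixed (hs.pow hd)
      have e : {x : Ω | x ∈ (Set.univ : Set Ω) ∧ (mapa_powPerm hs ^ d) x = x} =
          {x : Ω | x ^ (q ^ d) = x} := by
        ext x
        simp only [Set.mem_univ, true_and, Set.mem_ofPred_eq, mapa_powPerm_pow]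
      rw [e]
      refine ⟨hr.1, ?_⟩
      rw [hr.2]
      simp)
  have e : {s : P → Ω | (∀ b, s b ∈ (Set.univ : Set Ω)) ∧
      ∀ b, s (σ b) = mapa_powPerm hs (s b)} = {ψ : P → Ω | ∀ x, ψ (σ x) = ψ x ^ q} := by
    ext s
    simp only [Set.mem_univ, implies_true, true_and, Set.mem_ofPred_eq]
    rfl
  rw [e] at h
  refine ⟨h.1, ?_⟩
  rw [h.2]
  simp

end Pool.Agent.Mbar
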