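import Mathlib
import Pool.Agent.Mbar.Defs
import Pool.Agent.Mbar.ONE
import Pool.Agent.Mbar.MAPA

noncomputable section

namespace Pool.Agent.Mbar

open OnePoint Polynomial

open scoped Classical

variable {Ω : Type} [Field Ω] {P : Type} [Fintype P]

/-- a rational point can be moved to infinity by a transformation commuting with the power map -/
theorem mapb_move {q : ℕ} (hs : Setup Ω q) (α : OnePoint Ω) (hα : fr q α = α) :
    ∃ g : GL (Fin 2) Ω, g • α = ∞ ∧ ∀ x : OnePoint Ω, fr q (g • x) = g • fr q x := by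
  obtain ⟨hfin, hcard⟩ := mapa_rat hs
  have hq := hs.one_lt
  -- two more rational points
  have h3 : ∃ β γ : OnePoint Ω, fr q β = β ∧ fr q γ = γ ∧ Dist3 β α γ := by
    have h1 : 1 < ({x : OnePoint Ω | fr q x = x} \ {α}).ncard := by
      rw [Set.ncard_sdiff_singleton_of_mem (show α ∈ {x : OnePoint Ω | fr q x = x} from hα), hcard]
      omega
    obtain ⟨β, hβ, γ, hγ, hne⟩ := (Set.one_lt_ncard (hfin.sdiff)).mp h1
    exact ⟨β, γ, hβ.1, hγ.1, hβ.2, hne, fun h => hγ.2 h.symm⟩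
  obtain ⟨β, γ, hβ, hγ, hd⟩ := h3
  obtain ⟨g, g1, g2, g3⟩ := exists_gl' hd
  obtain ⟨g', hg'⟩ := fr_smul hs g
  refine ⟨g, g2, fun x => ?_⟩
  rw [hg' x]
  refine gl_ext hd ?_ ?_ ?_ _
  · have := hg' β
    rw [hβ, g1] at this
    rw [g1, ← this]
    rw [mapa_fr_coe, zero_pow (by omega)]
  · have := hg' α
    rw [hα, g2] at this
    rw [g2, ← this]
    rfl
  · have := hg' γ
    rw [hγ, g3] at this
    rw [g3, ← this]
    rw [mapa_fr_coe, one_pow]

/-- Reduction of pairs (rational point, equivariant map) to the point at infinity. -/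
theorem mapb_pairs {q : ℕ} (hs : Setup Ω q) (σ : Equiv.Perm P)
    (Q : OnePoint Ω → (P → OnePoint Ω) → Prop)
    (hQ : ∀ (g : GL (Fin 2) Ω) α ψ, Q α ψ → Q (g • α) (fun x => g • ψ x))
    (hfin : {ψ | ψ ∈ EMaps Ω q σ ∧ Q ∞ ψ}.Finite) :
    {ψ : OnePoint Ω × (P → OnePoint Ω) | OnePoint.map (fun y => y ^ q) ψ.1 = ψ.1 ∧
        ψ.2 ∈ EMaps Ω q σ ∧ Q ψ.1 ψ.2}.Finite ∧
    {ψ : OnePoint Ω × (P → OnePoint Ω) | OnePoint.map (fun y => y ^ q) ψ.1 = ψ.1 ∧
        ψ.2 ∈ EMaps Ω q σ ∧ Q ψ.1 ψ.2}.ncard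
      = (q + 1) * {ψ | ψ ∈ EMaps Ω q σ ∧ Q ∞ ψ}.ncard := by
  obtain ⟨hfin1, hcard⟩ := mapa_rat hs
  set A : Set (OnePoint Ω) := {x : OnePoint Ω | fr q x = x} with hA
  set W : Set (P → OnePoint Ω) := {ψ | ψ ∈ EMaps Ω q σ ∧ Q ∞ ψ} with hW
  set T : Set (OnePoint Ω × (P → OnePoint Ω)) := {ψ | OnePoint.map (fun y => y ^ q) ψ.1 = ψ.1 ∧
        ψ.2 ∈ EMaps Ω q σ ∧ Q ψ.1 ψ.2} with hT
  let g : OnePoint Ω → GL (Fin 2) Ω := fun α =>
    if hα : fr q α = α then (mapb_move hs α hα).choose else 1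
  have hg1 : ∀ α ∈ A, g α • α = ∞ := by
    intro α hα
    have hα' : fr q α = α := hα
    simp only [g, dif_pos hα']
    exact (mapb_move hs α hα').choose_spec.1
  have hg2 : ∀ α ∈ A, ∀ x : OnePoint Ω, fr q (g α • x) = g α • fr q x := by
    intro α hα
    have hα' : fr q α = α := hα
    simp only [g, dif_pos hα']
    exact (mapb_move hs α hα').choose_spec.2
  have hg3 : ∀ α ∈ A, ∀ x : OnePoint Ω, fr q ((g α)⁻¹ • x) = (g α)⁻¹ • fr q x := by
    intro α hα x
    have := hg2 α hα ((g α)⁻¹ • x)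
    rw [smul_inv_smul] at this
    rw [this, inv_smul_smul]
  let F : OnePoint Ω × (P → OnePoint Ω) → OnePoint Ω × (P → OnePoint Ω) :=
    fun p => (p.1, fun x => g p.1 • p.2 x)
  have hbij : Set.BijOn F T (A ×ˢ W) := by
    refine ⟨?_, ?_, ?_⟩
    · rintro ⟨α, ψ⟩ ⟨h1, h2, h3⟩
      have hα : α ∈ A := h1
      refine ⟨hα, ?_, ?_⟩
      · intro x
        show g α • ψ (σ x) = fr q (g α • ψ x)
        rw [hg2 α hα]
        exact congrArg _ (h2 x)
      · have := hQ (g α) α ψ h3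
        rw [hg1 α hα] at this
        exact this
    · rintro ⟨α, ψ⟩ _ ⟨α', ψ'⟩ _ h
      simp only [F, Prod.mk.injEq] at h
      obtain ⟨h1, h2⟩ := h
      subst h1
      refine Prod.ext rfl ?_
      funext x
      exact gl_inj (g α) (congrFun h2 x)
    · rintro ⟨α, ψ⟩ ⟨hα, h2, h3⟩
      have hα : α ∈ A := hα
      have h2 : ψ ∈ EMaps Ω q σ := h2
      have h3 : Q ∞ ψ := h3
      refine ⟨(α, fun x => (g α)⁻¹ • ψ x), ⟨hα, ?_, ?_⟩, ?_⟩
      · intro x
        show (g α)⁻¹ • ψ (σ x) = fr q ((g α)⁻¹ • ψ x)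
        rw [hg3 α hα]
        exact congrArg _ (h2 x)
      · have := hQ (g α)⁻¹ ∞ ψ h3
        rw [← hg1 α hα, inv_smul_smul] at this
        exact this
      · simp only [F]
        refine Prod.ext rfl ?_
        funext x
        exact smul_inv_smul _ _
  have hTfin : T.Finite := by
    have h1 : (F '' T).Finite := by
      rw [hbij.image_eq]
      exact hfin1.prod hfin
    exact Set.Finite.of_finite_image h1 hbij.injOn
  refine ⟨hTfin, ?_⟩
  rw [← Set.InjOn.ncard_image hbij.injOn, hbij.image_eq, Set.ncard_prod, hcard]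

/-- maps to the affine line outside a stable set -/
theorem mapb_fibre {q : ℕ} (hs : Setup Ω q) (σ : Equiv.Perm P) (S : Finset P)
    (hS : S.map σ.toEmbedding = S) :
    {ψ | ψ ∈ EMaps Ω q σ ∧ ∀ x, ψ x = ∞ ↔ x ∈ S}.Finite ∧
    {ψ | ψ ∈ EMaps Ω q σ ∧ ∀ x, ψ x = ∞ ↔ x ∈ S}.ncard = q ^ (Fintype.card P - S.card) := by
  have hmem : ∀ x, σ x ∈ S ↔ x ∈ S := by
    intro x
    conv_lhs => rw [← hS]
    simp
  let σ' : Equiv.Perm {x : P // x ∉ S} := σ.subtypePerm (fun x => by rw [hmem])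
  have hσ' : ∀ x : {x : P // x ∉ S}, ((σ' x : {x : P // x ∉ S}) : P) = σ x := fun x => rfl
  obtain ⟨hf, hc⟩ := emaps_line hs σ'
  have hcard : Fintype.card {x : P // x ∉ S} = Fintype.card P - S.card := by
    rw [Fintype.card_subtype_compl]
    simp
  set W : Set (P → OnePoint Ω) := {ψ | ψ ∈ EMaps Ω q σ ∧ ∀ x, ψ x = ∞ ↔ x ∈ S} with hW
  set B : Set ({x : P // x ∉ S} → Ω) := {ψ | ∀ x, ψ (σ' x) = ψ x ^ q} with hB
  let F : ({x : P // x ∉ S} → Ω) → (P → OnePoint Ω) := fun ψ x =>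
    if h : x ∈ S then ∞ else ((ψ ⟨x, h⟩ : Ω) : OnePoint Ω)
  have hbij : Set.BijOn F B W := by
    refine ⟨?_, ?_, ?_⟩
    · intro ψ hψ
      refine ⟨fun x => ?_, fun x => ?_⟩
      · by_cases hx : x ∈ S
        · have hx' := (hmem x).mpr hx
          simp only [F, dif_pos hx, dif_pos hx']
          rfl
        · have hx' : σ x ∉ S := fun h => hx ((hmem x).mp h)
          simp only [F, dif_neg hx, dif_neg hx']
          have := hψ ⟨x, hx⟩
          rw [OnePoint.map_some]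
          congr 1
      · by_cases hx : x ∈ S
        · simp [F, hx]
        · simp [F, hx]
    · intro ψ _ ψ' _ h
      funext x
      have := congrFun h x.1
      simp only [F, dif_neg x.2] at this
      exact OnePoint.coe_injective this
    · intro ψ hψ
      have hne : ∀ x, x ∉ S → ∃ y : Ω, (y : OnePoint Ω) = ψ x := by
        intro x hx
        have : ψ x ≠ ∞ := fun h => hx ((hψ.2 x).mp h)
        exact OnePoint.ne_infty_iff_exists.mp this
      choose f hf using hne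
      refine ⟨fun x => f x.1 x.2, ?_, ?_⟩
      · intro x
        have h1 := hψ.1 x.1
        have h2 := hf x.1 x.2
        have h3 := hf (σ' x).1 (σ' x).2
        have h4 : ψ (σ' x).1 = ((f x.1 x.2 ^ q : Ω) : OnePoint Ω) := by
          rw [hσ', h1, ← h2, OnePoint.map_some]
        exact OnePoint.coe_injective (h3.trans h4)
      · funext x
        by_cases hx : x ∈ S
        · simp only [F, dif_pos hx]
          exact ((hψ.2 x).mpr hx).symm
        · simp only [F, dif_neg hx]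
          exact hf x hx
  refine ⟨?_, ?_⟩
  · rw [← hbij.image_eq]
    exact hf.image F
  · rw [← hbij.image_eq, Set.InjOn.ncard_image hbij.injOn, hc, hcard]

/-- equivariant maps avoiding a chosen rational point, together with this point, equal to
this point exactly on a given stable set -/
theorem emaps_fibre {q : ℕ} (hs : Setup Ω q) (σ : Equiv.Perm P) (S : Finset P)
    (hS : S.map σ.toEmbedding = S) :
    {ψ : OnePoint Ω × (P → OnePoint Ω) | OnePoint.map (fun y => y ^ q) ψ.1 = ψ.1 ∧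
        ψ.2 ∈ EMaps Ω q σ ∧ ∀ x, ψ.2 x = ψ.1 ↔ x ∈ S}.Finite ∧
    {ψ : OnePoint Ω × (P → OnePoint Ω) | OnePoint.map (fun y => y ^ q) ψ.1 = ψ.1 ∧
        ψ.2 ∈ EMaps Ω q σ ∧ ∀ x, ψ.2 x = ψ.1 ↔ x ∈ S}.ncard
      = (q + 1) * q ^ (Fintype.card P - S.card) := by
  obtain ⟨h1, h2⟩ := mapb_fibre hs σ S hS
  have h := mapb_pairs hs σ (fun α ψ => ∀ x, ψ x = α ↔ x ∈ S) (by
    intro g α ψ hψ x
    rw [← hψ x]
    exact ⟨fun h => gl_inj g h, fun h => congrArg _ h⟩) h1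
  rw [h2] at h
  exact h

/-- non constant equivariant maps avoiding a chosen rational point, together with this point -/
theorem emaps_affine {q : ℕ} (hs : Setup Ω q) (σ : Equiv.Perm P) [Nonempty P] :
    {ψ : OnePoint Ω × (P → OnePoint Ω) | OnePoint.map (fun y => y ^ q) ψ.1 = ψ.1 ∧
        ψ.2 ∈ EMaps Ω q σ ∧ (∀ x, ψ.2 x ≠ ψ.1) ∧ ∃ x y, ψ.2 x ≠ ψ.2 y}.Finite ∧
    {ψ : OnePoint Ω × (P → OnePoint Ω) | OnePoint.map (fun y => y ^ q) ψ.1 = ψ.1 ∧
        ψ.2 ∈ EMaps Ω q σ ∧ (∀ x, ψ.2 x ≠ ψ.1) ∧ ∃ x y, ψ.2 x ≠ ψ.2 y}.ncard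
      = (q + 1) * (q ^ Fintype.card P - q) := by
  obtain ⟨h1, h2⟩ := mapb_fibre hs σ ∅ (by simp)
  set W : Set (P → OnePoint Ω) := {ψ | ψ ∈ EMaps Ω q σ ∧ ∀ x, ψ x = ∞ ↔ x ∈ (∅ : Finset P)}
    with hW
  -- constant maps
  let C0 : Set (P → OnePoint Ω) := (fun a : Ω => fun _ : P => (a : OnePoint Ω)) '' {x : Ω | x ^ q = x}
  obtain ⟨hfin, hcard⟩ := card_fixed hs
  have hinj : Function.Injective (fun a : Ω => fun _ : P => (a : OnePoint Ω)) := by
    intro a b hab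
    have := congrFun hab (Classical.arbitrary P)
    exact OnePoint.coe_injective this
  have hC0 : C0.ncard = q := by
    rw [Set.ncard_image_of_injective _ hinj, hcard]
  have hC0fin : C0.Finite := hfin.image _
  have hsub : C0 ⊆ W := by
    rintro _ ⟨a, ha, rfl⟩
    refine ⟨fun x => ?_, fun x => ?_⟩
    · show (a : OnePoint Ω) = OnePoint.map (fun y => y ^ q) (a : OnePoint Ω)
      rw [OnePoint.map_some, ha]
    · simp
  have hset : {ψ | ψ ∈ EMaps Ω q σ ∧ ((∀ x, ψ x ≠ ∞) ∧ ∃ x y, ψ x ≠ ψ y)} = W \ C0 := by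
    ext ψ
    constructor
    · rintro ⟨h1, h2, x, y, hxy⟩
      refine ⟨⟨h1, fun z => ?_⟩, ?_⟩
      · simp [h2 z]
      · rintro ⟨a, -, rfl⟩
        exact hxy rfl
    · rintro ⟨⟨h1, h2⟩, h3⟩
      have h4 : ∀ x, ψ x ≠ ∞ := fun x hx => by
        have := (h2 x).mp hx
        simp at this
      refine ⟨h1, h4, ?_⟩
      by_contra hcon
      push Not at hcon
      apply h3
      obtain ⟨a, ha⟩ := OnePoint.ne_infty_iff_exists.mp (h4 (Classical.arbitrary P))
      refine ⟨a, ?_, ?_⟩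
      · have h5 := h1 (Classical.arbitrary P)
        rw [hcon (σ (Classical.arbitrary P)) (Classical.arbitrary P), ← ha, OnePoint.map_some] at h5
        exact (OnePoint.coe_injective h5).symm
      · funext x
        rw [hcon x (Classical.arbitrary P)]
        exact ha
  have hfin2 : {ψ | ψ ∈ EMaps Ω q σ ∧ ((∀ x, ψ x ≠ ∞) ∧ ∃ x y, ψ x ≠ ψ y)}.Finite := by
    rw [hset]
    exact h1.sdiff
  have h := mapb_pairs hs σ (fun α ψ => (∀ x, ψ x ≠ α) ∧ ∃ x y, ψ x ≠ ψ y) (by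
    rintro g α ψ ⟨h1, x, y, hxy⟩
    exact ⟨fun x h => h1 x (gl_inj g h), x, y, fun h => hxy (gl_inj g h)⟩) hfin2
  rw [hset, Set.ncard_sdiff hsub hC0fin, h2, hC0] at h
  simpa using h

end Pool.Agent.Mbar
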