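import Mathlib
import Pool.Agent.Mbar.FORA

noncomputable section

namespace Pool.Agent.Mbar

open OnePoint Polynomial

open scoped Classical

theorem rmap {Ω : Type} [Field Ω] (q : ℕ) {R : Type} [Fintype R] (σ : Equiv.Perm R) (J : Finset R)
    (hσ : J.map σ.toEmbedding = J) (m : Finset R → ℕ) (hm : IsForest J m) (hinv : Inv σ m) :
    ∃ F : {g : R → OnePoint Ω // (∀ x, x ∉ J → g x = ∞) ∧
          (∀ x, g (σ x) = OnePoint.map (fun y => y ^ q) (g x)) ∧
          ∀ A, m A ≠ 0 → ∀ x ∈ A, ∀ y ∈ A, g x = g y} ≃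
        {ψ : {A : Finset R // A ∈ roots m J} → OnePoint Ω //
          ψ ∈ EMaps Ω q (rootPerm σ m J hinv hσ)},
      ∀ g, ∀ A : {A : Finset R // A ∈ roots m J}, ∀ x ∈ A.1, g.1 x = (F g).1 A := by
  obtain ⟨hne, hdis, hcov, hin⟩ := roots_partition hm
  have hblk : ∀ A ∈ roots m J, IsBlk m A := fun A hA => by
    unfold roots at hA
    exact (Finset.mem_filter.1 hA).2.1
  -- a map as in the statement is constant on the roots
  have hconst : ∀ g : R → OnePoint Ω, (∀ A, m A ≠ 0 → ∀ x ∈ A, ∀ y ∈ A, g x = g y) →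
      ∀ A ∈ roots m J, ∀ x ∈ A, ∀ y ∈ A, g x = g y := by
    intro g hg A hA x hx y hy
    rcases hblk A hA with h | h
    · exact hg A h x hx y hy
    · obtain ⟨z, hz⟩ := Finset.card_eq_one.1 h
      rw [hz, Finset.mem_singleton] at hx hy
      rw [hx, hy]
  have hJ : ∀ x, σ x ∈ J ↔ x ∈ J := fun x => by
    conv_lhs => rw [← hσ]
    simp
  -- the root containing a given label
  choose rt hrt hmem using hcov
  have huniq : ∀ A ∈ roots m J, ∀ x (hx : x ∈ J), x ∈ A → A = rt x hx := by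
    intro A hA x hx hxA
    by_contra hne'
    exact Finset.disjoint_left.1 (hdis A hA _ (hrt x hx) hne') hxA (hmem x hx)
  have hrtσ : ∀ x (hx : x ∈ J) (hx' : σ x ∈ J),
      (⟨rt (σ x) hx', hrt (σ x) hx'⟩ : {A : Finset R // A ∈ roots m J}) =
        rootPerm σ m J hinv hσ ⟨rt x hx, hrt x hx⟩ := by
    intro x hx hx'
    apply Subtype.ext
    rw [rootPerm_coe]
    symm
    refine huniq _ ?_ _ hx' ?_
    · exact (mem_roots_map hinv hσ _).1 (hrt x hx)
    · exact Finset.mem_map_of_mem σ.toEmbedding (hmem x hx)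
  let pt : {A : Finset R // A ∈ roots m J} → R := fun A => (hne A.1 A.2).1.choose
  have hpt : ∀ A, pt A ∈ A.1 := fun A => (hne A.1 A.2).1.choose_spec
  refine ⟨{
    toFun := fun g => ⟨fun A => g.1 (pt A), ?_⟩
    invFun := fun ψ => ⟨fun x => if hx : x ∈ J then ψ.1 ⟨rt x hx, hrt x hx⟩ else ∞, ?_, ?_, ?_⟩
    left_inv := ?_
    right_inv := ?_ }, ?_⟩
  · intro A
    rw [← g.2.2.1]
    refine hconst g.1 g.2.2.2 _ (rootPerm σ m J hinv hσ A).2 _ (hpt _) _ ?_
    rw [rootPerm_coe]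
    exact Finset.mem_map_of_mem σ.toEmbedding (hpt A)
  · intro x hx
    beta_reduce
    rw [dif_neg hx]
  · intro x
    beta_reduce
    by_cases hx : x ∈ J
    · have hx' := (hJ x).2 hx
      rw [dif_pos hx, dif_pos hx', hrtσ x hx hx']
      exact ψ.2 _
    · rw [dif_neg hx, dif_neg (fun h => hx ((hJ x).1 h))]
      rfl
  · intro A hA x hx y hy
    obtain ⟨B, hB, hAB⟩ := hin A hA
    have hBJ := (hne B hB).2
    beta_reduce
    rw [dif_pos (hBJ (hAB hx)), dif_pos (hBJ (hAB hy))]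
    refine congrArg ψ.1 (Subtype.ext ?_)
    change rt x _ = rt y _
    rw [← huniq B hB x (hBJ (hAB hx)) (hAB hx), ← huniq B hB y (hBJ (hAB hy)) (hAB hy)]
  · intro g
    apply Subtype.ext
    funext x
    change (if hx : x ∈ J then g.1 (pt ⟨rt x hx, hrt x hx⟩) else ∞) = g.1 x
    split_ifs with hx
    · exact hconst g.1 g.2.2.2 _ (hrt x hx) _ (hpt ⟨rt x hx, hrt x hx⟩) _ (hmem x hx)
    · exact (g.2.1 x hx).symm
  · intro ψ
    apply Subtype.ext
    funext A
    change (if hx : pt A ∈ J then ψ.1 ⟨rt (pt A) hx, hrt (pt A) hx⟩ else ∞) = ψ.1 A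
    have hx : pt A ∈ J := (hne A.1 A.2).2 (hpt A)
    rw [dif_pos hx]
    exact congrArg ψ.1 (Subtype.ext (huniq A.1 A.2 _ hx (hpt A)).symm)
  · intro g A x hx
    exact hconst g.1 g.2.2.2 A.1 A.2 _ hx _ (hpt A)

end Pool.Agent.Mbar
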