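import Mathlib
import Pool.Agent.Mbar.Defs
import Pool.Agent.Mbar.ONE

set_option autoImplicit false

/-! # Lang's theorem for the group `PGL₂` -/

noncomputable section

namespace Pool.Agent.Mbar

open OnePoint Polynomial

open scoped Classical

/-- a separable polynomial has as many roots as its degree -/
lemma three_le_roots {Ω : Type} [Field Ω] (hcl : IsAlgClosed Ω) (P : Polynomial Ω)
    (hsep : P.Separable) : P.roots.toFinset.card = P.natDegree := by
  rw [Multiset.toFinset_card_of_nodup (nodup_roots hsep), IsAlgClosed.card_roots_eq_natDegree]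

lemma exists_fixed {Ω : Type} [Field Ω] {q : ℕ} (hs : Setup Ω q) (g : GL (Fin 2) Ω) :
    ∃ x y z : OnePoint Ω, Dist3 x y z ∧ g • fr q x = x ∧ g • fr q y = y ∧ g • fr q z = z := by
  have hq := hs.one_lt
  obtain ⟨hcl, p, e, hp, hchar, he, hpe⟩ := hs
  have hq0 : (q : Ω) = 0 := by
    rw [hpe, Nat.cast_pow, CharP.cast_eq_zero, zero_pow (by omega)]
  set a := g 0 0 with ha
  set b := g 0 1 with hb
  set c := g 1 0 with hc
  set d := g 1 1 with hd
  have hdet : a * d - b * c ≠ 0 := by
    have := g.det_ne_zero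
    rwa [Matrix.det_fin_two] at this
  -- finite fixed points
  have hfix : ∀ x : Ω, x * (c * x ^ q + d) = a * x ^ q + b →
      g • fr q (x : OnePoint Ω) = (x : OnePoint Ω) := by
    intro x hx
    have h1 : fr q (x : OnePoint Ω) = ((x ^ q : Ω) : OnePoint Ω) := by simp [fr]
    have h2 : c * x ^ q + d ≠ 0 := by
      intro h
      rw [h, mul_zero] at hx
      apply hdet
      by_cases hc0 : c = 0
      · rw [hc0, zero_mul, zero_add] at h
        rw [h, hc0]; ring
      · have : c * (a * d - b * c) = c * (a * (c * x ^ q + d) - c * (a * x ^ q + b)) := by ring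
        rw [h, ← hx] at this
        have h3 : c * (a * d - b * c) = 0 := by rw [this]; ring
        exact (mul_eq_zero.mp h3).resolve_left hc0
    rw [h1, OnePoint.smul_some_eq_ite, if_neg h2, ← hx, mul_div_cancel_right₀ _ h2]
  by_cases hc0 : c = 0
  · -- the point at infinity is fixed
    have hinf : g • fr q (∞ : OnePoint Ω) = ∞ := by
      have : fr q (∞ : OnePoint Ω) = ∞ := by simp [fr]
      rw [this, OnePoint.smul_infty_eq_ite, if_pos hc0]
    have had : a * d ≠ 0 := by simpa [hc0] using hdet
    have ha0 : a ≠ 0 := left_ne_zero_of_mul had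
    have hd0 : d ≠ 0 := right_ne_zero_of_mul had
    set P : Polynomial Ω := C a * X ^ q + C (-d) * X + C b with hP
    have hdeg : P.natDegree = q := by
      rw [hP]
      compute_degree!
      · rw [if_neg (by omega), if_neg (by omega)]; simpa using ha0
      all_goals omega
    have hsep : P.Separable := by
      have hder : derivative P = C (-d) := by
        rw [hP]
        simp only [derivative_add, derivative_mul, derivative_C, zero_mul, zero_add,
          derivative_X_pow, derivative_X, mul_one, add_zero, hq0, map_zero, mul_zero]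
      rw [separable_def, hder]
      exact isCoprime_one_right.of_isCoprime_of_dvd_right
        (isUnit_C.mpr (neg_ne_zero.mpr hd0).isUnit |>.dvd)
    have hcard : 1 < P.roots.toFinset.card := by
      rw [three_le_roots hcl P hsep, hdeg]; exact hq
    obtain ⟨x, hx, y, hy, hxy⟩ := Finset.one_lt_card.mp hcard
    have hP0 : P ≠ 0 := hsep.ne_zero
    rw [Multiset.mem_toFinset, mem_roots hP0, IsRoot.def, hP] at hx hy
    simp only [eval_add, eval_mul, eval_C, eval_pow, eval_X] at hx hy
    refine ⟨(x : OnePoint Ω), (y : OnePoint Ω), ∞, ⟨?_, OnePoint.coe_ne_infty _,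
      OnePoint.coe_ne_infty _⟩, hfix x ?_, hfix y ?_, hinf⟩
    · rwa [Ne, OnePoint.coe_eq_coe]
    · rw [hc0]; linear_combination -hx
    · rw [hc0]; linear_combination -hy
  · set P : Polynomial Ω := C c * X ^ (q + 1) + C (-a) * X ^ q + C d * X + C (-b) with hP
    have hdeg : P.natDegree = q + 1 := by
      rw [hP]
      compute_degree!
      · have hq1 : q ≠ 0 := by omega
        simpa [hq1] using hc0
      all_goals omega
    have hsep : P.Separable := by
      have hder : derivative P = C c * X ^ q + C d := by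
        rw [hP]
        simp only [derivative_add, derivative_mul, derivative_C, zero_mul, zero_add,
          derivative_X_pow, derivative_X, mul_one, add_zero, hq0, map_zero, mul_zero,
          Nat.cast_add, Nat.cast_one, map_one, one_mul, Nat.add_sub_cancel]
      rw [separable_def, hder]
      refine ⟨C (c * (a * d - b * c)⁻¹), C (-c * (a * d - b * c)⁻¹) * X +
        C (a * (a * d - b * c)⁻¹), ?_⟩
      rw [hP]
      have hinv : C ((a * d - b * c)⁻¹) * (C a * C d - C b * C c) = (1 : Polynomial Ω) := by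
        rw [← C_mul, ← C_mul, ← C_sub, ← C_mul, inv_mul_cancel₀ hdet, C_1]
      simp only [C_mul, C_neg]
      rw [← hinv]
      ring
    have hcard : 2 < P.roots.toFinset.card := by
      rw [three_le_roots hcl P hsep, hdeg]; omega
    obtain ⟨x, y, z, hx, hy, hz, hxy, hxz, hyz⟩ := Finset.two_lt_card_iff.mp hcard
    have hP0 : P ≠ 0 := hsep.ne_zero
    rw [Multiset.mem_toFinset, mem_roots hP0, IsRoot.def, hP] at hx hy hz
    simp only [eval_add, eval_mul, eval_C, eval_pow, eval_X] at hx hy hz
    refine ⟨(x : OnePoint Ω), (y : OnePoint Ω), (z : OnePoint Ω), ⟨?_, ?_, ?_⟩, hfix x ?_, hfix y ?_,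
      hfix z ?_⟩
    · rwa [Ne, OnePoint.coe_eq_coe]
    · rwa [Ne, OnePoint.coe_eq_coe]
    · rwa [Ne, OnePoint.coe_eq_coe]
    · linear_combination hx
    · linear_combination hy
    · linear_combination hz

/-- Lang's theorem for `PGL_2`. -/
theorem lang {Ω : Type} [Field Ω] {q : ℕ} (hs : Setup Ω q) (g : GL (Fin 2) Ω) :
    ∃ h : GL (Fin 2) Ω, ∀ x : OnePoint Ω, fr q (h • x) = (h * g) • fr q x := by
  obtain ⟨x, y, z, h3, hx, hy, hz⟩ := exists_fixed hs g
  obtain ⟨h, h0, h1, h2⟩ := exists_gl' h3
  obtain ⟨h', hh'⟩ := fr_smul hs h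
  refine ⟨h, fun w => ?_⟩
  rw [hh']
  have hfr := fr_bij hs
  have hd : Dist3 (fr q x) (fr q y) (fr q z) :=
    ⟨fun e => h3.1 (hfr.1 e), fun e => h3.2.1 (hfr.1 e), fun e => h3.2.2 (hfr.1 e)⟩
  refine gl_ext hd ?_ ?_ ?_ _
  · rw [mul_smul, hx, h0, ← hh', h0]
    have hq := hs.one_lt
    simp [fr, zero_pow (by omega : q ≠ 0)]
  · rw [mul_smul, hy, h1, ← hh', h1]
    simp [fr]
  · rw [mul_smul, hz, h2, ← hh', h2]
    simp [fr]

end Pool.Agent.Mbar
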