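import Mathlib
import Pool.Agent.Mbar.Defs
import Pool.Agent.Mbar.ONE
import Pool.Agent.Mbar.LANG

/-! # Equivariant coordinates on a component stable under Frobenius -/

noncomputable section

namespace Pool.Agent.Mbar

open OnePoint Polynomial

open scoped Classical

/-- the rational points of the projective line -/
theorem torsor_points {Ω : Type} [Field Ω] {q : ℕ} (hs : Setup Ω q) :
    {x : OnePoint Ω | fr q x = x}.Finite ∧ {x : OnePoint Ω | fr q x = x}.ncard = q + 1 := by
  have hset : {x : OnePoint Ω | fr q x = x} =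
      insert (∞ : OnePoint Ω) ((fun x : Ω => (x : OnePoint Ω)) '' {x : Ω | x ^ q = x}) := by
    ext x
    induction x using OnePoint.rec with
    | infty =>
      simp only [Set.mem_ofPred_eq, Set.mem_insert_iff, true_or, iff_true]
      rfl
    | coe y =>
      simp only [Set.mem_ofPred_eq, Set.mem_insert_iff, OnePoint.coe_ne_infty, false_or,
        Set.mem_image]
      constructor
      · intro h
        exact ⟨y, OnePoint.coe_injective h, rfl⟩
      · rintro ⟨z, hz, hzy⟩
        have : z = y := OnePoint.coe_injective hzy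
        subst this
        exact congrArg _ hz
  obtain ⟨hf, hc⟩ := card_fixed hs
  have hnot : (∞ : OnePoint Ω) ∉ ((fun x : Ω => (x : OnePoint Ω)) '' {x : Ω | x ^ q = x}) := by
    rintro ⟨z, _, hz⟩
    exact OnePoint.coe_ne_infty z hz
  have hfi : ((fun x : Ω => (x : OnePoint Ω)) '' {x : Ω | x ^ q = x}).Finite := hf.image _
  refine ⟨?_, ?_⟩
  · rw [hset]
    exact hfi.insert _
  · rw [hset, Set.ncard_insert_of_notMem hnot hfi,
      Set.ncard_image_of_injective _ OnePoint.coe_injective, hc]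

theorem torsor_dist_of_inj {α β : Type} {f : α → β} (hf : Function.Injective f) {a b c : α}
    (h : Dist3 a b c) : Dist3 (f a) (f b) (f c) :=
  ⟨fun e => h.1 (hf e), fun e => h.2.1 (hf e), fun e => h.2.2 (hf e)⟩

/-- a map of the projective line commuting with Frobenius at three points commutes everywhere -/
theorem torsor_comm {Ω : Type} [Field Ω] {q : ℕ} (hs : Setup Ω q) (g : GL (Fin 2) Ω)
    {a b c : OnePoint Ω} (h3 : Dist3 a b c) (ha : fr q (g • a) = g • fr q a)
    (hb : fr q (g • b) = g • fr q b) (hc : fr q (g • c) = g • fr q c) (x : OnePoint Ω) :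
    fr q (g • x) = g • fr q x := by
  obtain ⟨g', hg'⟩ := fr_smul hs g
  have h3' : Dist3 (fr q a) (fr q b) (fr q c) := torsor_dist_of_inj (fr_bij hs).1 h3
  have := gl_ext (g := g') (h := g) h3' (by rw [← hg', ha]) (by rw [← hg', hb])
    (by rw [← hg', hc]) (fr q x)
  rw [hg', this]

/-- An equivariant system with a component stable under Frobenius has exactly `q^3 - q` equivariant
coordinates on this component. -/
theorem torsor {Ω : Type} [Field Ω] {q : ℕ} (hs : Setup Ω q) {V : Type} {S : Finset V}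
    {τ : Equiv.Perm V} (hS : ∀ x, x ∈ S ↔ τ x ∈ S) {L : V → V → V → V → OnePoint Ω}
    (hL : L ∈ SysSet Ω q τ S) {i j k : V} (hi : i ∈ S) (hj : j ∈ S) (hk : k ∈ S)
    (h : Dist3 i j k) (hst : Sim S (L i j k) (L (τ i) (τ j) (τ k))) :
    {φ : V → OnePoint Ω | EquiMap q τ S φ ∧ Sim S (L i j k) φ}.Finite ∧
    {φ : V → OnePoint Ω | EquiMap q τ S φ ∧ Sim S (L i j k) φ}.ncard = q ^ 3 - q := by
  obtain ⟨hsys, hequi⟩ := hL
  obtain ⟨g, hg⟩ := hst
  obtain ⟨u, hu⟩ := lang hs g⁻¹
  -- the basic equivariant coordinate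
  set φ1 : V → OnePoint Ω := fun x => if x ∈ S then u • L i j k x else ∞ with hφ1
  have hφ1S : ∀ x ∈ S, φ1 x = u • L i j k x := fun x hx => by simp [hφ1, hx]
  have hφ1n : ∀ x, x ∉ S → φ1 x = ∞ := fun x hx => by simp [hφ1, hx]
  have hfr1 : ∀ x ∈ S, fr q (φ1 x) = φ1 (τ x) := by
    intro x hx
    have hx' := (hS x).1 hx
    rw [hφ1S x hx, hφ1S _ hx', hu, mul_smul]
    congr 1
    have e1 : L (τ i) (τ j) (τ k) (τ x) = fr q (L i j k x) := hequi i j k x
    have e2 := hg (τ x) hx'
    rw [← e1, e2, inv_smul_smul]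
  -- three separated values
  have hd1 : Dist3 (φ1 i) (φ1 j) (φ1 k) := by
    rw [hφ1S i hi, hφ1S j hj, hφ1S k hk]
    refine torsor_dist_of_inj (gl_inj u) ?_
    rw [hsys.zero i j k hi hj hk h, hsys.infty i j k hi hj hk h, hsys.one i j k hi hj hk h]
    refine ⟨OnePoint.coe_ne_infty _, ?_, OnePoint.infty_ne_coe _⟩
    intro e
    exact zero_ne_one (OnePoint.coe_injective e)
  obtain ⟨hPf, hPc⟩ := torsor_points (Ω := Ω) hs
  set P : Set (OnePoint Ω) := {x : OnePoint Ω | fr q x = x} with hP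
  have : Finite P := hPf
  -- the matrix attached to a triple of rational points
  have hex : ∀ f : Fin 3 ↪ P, ∃ m : GL (Fin 2) Ω, m • ((0 : Ω) : OnePoint Ω) = (f 0 : OnePoint Ω) ∧
      m • (∞ : OnePoint Ω) = (f 1 : OnePoint Ω) ∧ m • ((1 : Ω) : OnePoint Ω) = (f 2 : OnePoint Ω) := by
    intro f
    apply exists_gl
    refine ⟨fun e => ?_, fun e => ?_, fun e => ?_⟩ <;>
    · have := f.injective (Subtype.ext e)
      exact absurd this (by decide)
  choose M hM0 hMi hM1 using hex
  have hbase : Dist3 ((0 : Ω) : OnePoint Ω) (∞ : OnePoint Ω) ((1 : Ω) : OnePoint Ω) := by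
    refine ⟨OnePoint.coe_ne_infty _, ?_, OnePoint.infty_ne_coe _⟩
    intro e
    exact zero_ne_one (OnePoint.coe_injective e)
  have hfr0 : fr q ((0 : Ω) : OnePoint Ω) = ((0 : Ω) : OnePoint Ω) := by
    have : (0 : Ω) ^ q = 0 := zero_pow (by have := hs.one_lt; omega)
    exact congrArg _ this
  have hfr1' : fr q ((1 : Ω) : OnePoint Ω) = ((1 : Ω) : OnePoint Ω) := by
    have : (1 : Ω) ^ q = 1 := one_pow _
    exact congrArg _ this
  have hfri : fr q (∞ : OnePoint Ω) = ∞ := rfl
  have hMcomm : ∀ (f : Fin 3 ↪ P) (x : OnePoint Ω), fr q (M f • x) = M f • fr q x := by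
    intro f x
    refine torsor_comm hs (M f) hbase ?_ ?_ ?_ x
    · rw [hM0, hfr0, hM0]; exact (f 0).2
    · rw [hMi, hfri, hMi]; exact (f 1).2
    · rw [hM1, hfr1', hM1]; exact (f 2).2
  let F : (Fin 3 ↪ P) → (V → OnePoint Ω) := fun f x => if x ∈ S then M f • φ1 x else ∞
  have hFS : ∀ f, ∀ x ∈ S, F f x = M f • φ1 x := fun f x hx => by simp [F, hx]
  have hFn : ∀ f, ∀ x, x ∉ S → F f x = ∞ := fun f x hx => by simp [F, hx]
  have hFinj : Function.Injective F := by
    intro f f' hff
    have key : ∀ x : OnePoint Ω, M f • x = M f' • x := by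
      refine gl_ext hd1 ?_ ?_ ?_
      · rw [← hFS f i hi, ← hFS f' i hi, hff]
      · rw [← hFS f j hj, ← hFS f' j hj, hff]
      · rw [← hFS f k hk, ← hFS f' k hk, hff]
    ext t
    fin_cases t
    · have := key ((0 : Ω) : OnePoint Ω)
      rw [hM0, hM0] at this
      exact this
    · have := key (∞ : OnePoint Ω)
      rw [hMi, hMi] at this
      exact this
    · have := key ((1 : Ω) : OnePoint Ω)
      rw [hM1, hM1] at this
      exact this
  have hrange : {φ : V → OnePoint Ω | EquiMap q τ S φ ∧ Sim S (L i j k) φ} = Set.range F := by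
    ext φ
    constructor
    · rintro ⟨⟨hout, heq⟩, m, hm⟩
      -- `φ = m' • φ1` on `S`
      set m' : GL (Fin 2) Ω := m * u⁻¹ with hm'
      have hφ : ∀ x ∈ S, φ x = m' • φ1 x := by
        intro x hx
        rw [hφ1S x hx, hm', mul_smul, inv_smul_smul]
        exact hm x hx
      have hcm : ∀ x ∈ S, fr q (m' • φ1 x) = m' • fr q (φ1 x) := by
        intro x hx
        rw [← hφ x hx, hfr1 x hx, ← hφ _ ((hS x).1 hx)]
        exact (heq x).symm
      have hall := torsor_comm hs m' hd1 (hcm i hi) (hcm j hj) (hcm k hk)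
      have r0 : m' • ((0 : Ω) : OnePoint Ω) ∈ P := by
        show fr q _ = _
        rw [hall, hfr0]
      have ri : m' • (∞ : OnePoint Ω) ∈ P := by
        show fr q _ = _
        rw [hall, hfri]
      have r1 : m' • ((1 : Ω) : OnePoint Ω) ∈ P := by
        show fr q _ = _
        rw [hall, hfr1']
      have hdd := torsor_dist_of_inj (gl_inj m') hbase
      have hinj : Function.Injective (![⟨_, r0⟩, ⟨_, ri⟩, ⟨_, r1⟩] : Fin 3 → P) := by
        intro s t hst
        fin_cases s <;> fin_cases t <;> first | rfl | (exfalso; revert hst; simp [Subtype.ext_iff])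
      refine ⟨⟨_, hinj⟩, ?_⟩
      funext x
      by_cases hx : x ∈ S
      · rw [hFS _ x hx, hφ x hx]
        refine gl_ext hbase ?_ ?_ ?_ _
        · rw [hM0]; rfl
        · rw [hMi]; rfl
        · rw [hM1]; rfl
      · rw [hFn _ x hx, hout x hx]
    · rintro ⟨f, rfl⟩
      refine ⟨⟨hFn f, ?_⟩, M f * u, ?_⟩
      · intro x
        by_cases hx : x ∈ S
        · have hx' := (hS x).1 hx
          rw [hFS f x hx, hFS f _ hx', ← hfr1 x hx]
          exact (hMcomm f _).symm
        · have hx' : τ x ∉ S := fun e => hx ((hS x).2 e)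
          rw [hFn f x hx, hFn f _ hx']
          rfl
      · intro x hx
        rw [hFS f x hx, hφ1S x hx, mul_smul]
  rw [hrange]
  refine ⟨Set.finite_range F, ?_⟩
  rw [← Nat.card_coe_set_eq, Nat.card_range_of_injective hFinj]
  have : Fintype P := Fintype.ofFinite P
  rw [Nat.card_eq_fintype_card, Fintype.card_embedding_eq]
  have hcP : Fintype.card P = q + 1 := by
    rw [← Nat.card_eq_fintype_card, Nat.card_coe_set_eq, hPc]
  rw [hcP, Fintype.card_fin]
  have hq := hs.one_lt
  obtain ⟨r, rfl⟩ : ∃ r, q = r + 1 := ⟨q - 1, by omega⟩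
  have e1 : (r + 1 + 1).descFactorial 3 = r * ((r + 1) * (r + 1 + 1)) := by
    simp [Nat.descFactorial]
  rw [e1]
  have : (r + 1) ^ 3 = r * ((r + 1) * (r + 1 + 1)) + (r + 1) := by ring
  omega

end Pool.Agent.Mbar
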