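import Pool.Agent.Mbar.ONE
import Pool.Agent.Mbar.DLEM

/-! # Decomposition of a system at a component -/

noncomputable section

namespace Pool.Agent.Mbar

open OnePoint Polynomial

open scoped Classical

namespace VDecAux

section general

variable {Ω : Type} [Field Ω] {V : Type} {S : Finset V} {L : V → V → V → V → OnePoint Ω}

omit [Field Ω] in
lemma map_infty' (q : ℕ) [Field Ω] :
    OnePoint.map (fun x : Ω => x ^ q) (∞ : OnePoint Ω) = ∞ := rfl

lemma dist3_01 : Dist3 ((0 : Ω) : OnePoint Ω) ∞ ((1 : Ω) : OnePoint Ω) := by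
  refine ⟨OnePoint.coe_ne_infty 0, fun h => ?_, (OnePoint.coe_ne_infty 1).symm⟩
  exact zero_ne_one (OnePoint.coe_injective h)

/-- at least two of the labels are in the fibre over `α` -/
def Two (φ : V → OnePoint Ω) (α : OnePoint Ω) (i j k : V) : Prop :=
  (φ i = α ∧ φ j = α) ∨ (φ i = α ∧ φ k = α) ∨ (φ j = α ∧ φ k = α)

lemma sys_dist (hL : IsSys S L) {i j k : V} (hi : i ∈ S) (hj : j ∈ S) (hk : k ∈ S)
    (h : Dist3 i j k) : Dist3 (L i j k i) (L i j k j) (L i j k k) := by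
  rw [hL.zero i j k hi hj hk h, hL.infty i j k hi hj hk h, hL.one i j k hi hj hk h]
  exact dist3_01

lemma const_out (hL : IsSys S L) {φ : V → OnePoint Ω} (hφ : VMap S L φ) {α : OnePoint Ω}
    {i j k m m' : V} (hi : i ∈ S) (hj : j ∈ S) (hk : k ∈ S) (hm : m ∈ S) (hm' : m' ∈ S)
    (h : Dist3 i j k) (h2 : Two φ α i j k) (h3 : φ m ≠ α) (h4 : φ m' ≠ α) :
    L i j k m = L i j k m' := by
  obtain ⟨hij, hik, hjk⟩ := h
  rcases h2 with ⟨e1, e2⟩ | ⟨e1, e2⟩ | ⟨e1, e2⟩
  · exact lemma_3 hL hφ hi hj hk hm hm' ⟨hij, hik, hjk⟩ (by rw [e1, e2]) (by rwa [e1]) (by rwa [e1])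
  · have h5 : Dist3 i k j := ⟨hik, hij, hjk.symm⟩
    have h6 := lemma_3 hL hφ hi hk hj hm hm' h5 (by rw [e1, e2]) (by rwa [e1]) (by rwa [e1])
    obtain ⟨d1, d2, d3⟩ := sys_dist hL hi hk hj h5
    obtain ⟨g, hg⟩ := hL.comp i k j hi hk hj h5 i j k hi hj hk ⟨d2, d1, d3.symm⟩
    rw [hg m hm, hg m' hm', h6]
  · have h5 : Dist3 j k i := ⟨hjk, hij.symm, hik.symm⟩
    have h6 := lemma_3 hL hφ hj hk hi hm hm' h5 (by rw [e1, e2]) (by rwa [e1]) (by rwa [e1])
    obtain ⟨d1, d2, d3⟩ := sys_dist hL hj hk hi h5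
    obtain ⟨g, hg⟩ := hL.comp j k i hj hk hi h5 i j k hi hj hk ⟨d2.symm, d3.symm, d1⟩
    rw [hg m hm, hg m' hm', h6]

lemma indep (hL : IsSys S L) {φ : V → OnePoint Ω} (hφ : VMap S L φ) {α : OnePoint Ω}
    {i j k l i' j' k' l' : V} (hi : i ∈ S) (hj : j ∈ S) (hk : k ∈ S) (hl : l ∈ S)
    (hi' : i' ∈ S) (hj' : j' ∈ S) (hk' : k' ∈ S) (hl' : l' ∈ S)
    (h : Dist3 i j k) (h' : Dist3 i' j' k') (h2 : Two φ α i j k)
    (ei : i' = i ∨ (φ i' ≠ α ∧ φ i ≠ α)) (ej : j' = j ∨ (φ j' ≠ α ∧ φ j ≠ α))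
    (ek : k' = k ∨ (φ k' ≠ α ∧ φ k ≠ α)) (el : l' = l ∨ (φ l' ≠ α ∧ φ l ≠ α)) :
    L i' j' k' l' = L i j k l := by
  have key : ∀ m m', m ∈ S → m' ∈ S → (m' = m ∨ (φ m' ≠ α ∧ φ m ≠ α)) →
      L i j k m' = L i j k m := by
    intro m m' hm hm' e
    rcases e with rfl | ⟨e1, e2⟩
    · rfl
    · exact const_out hL hφ hi hj hk hm' hm h h2 e1 e2
  have k1 := key i i' hi hi' ei
  have k2 := key j j' hj hj' ej
  have k3 := key k k' hk hk' ek
  have hd : Dist3 (L i j k i') (L i j k j') (L i j k k') := by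
    rw [k1, k2, k3]
    exact sys_dist hL hi hj hk h
  obtain ⟨g, hg⟩ := hL.comp i j k hi hj hk h i' j' k' hi' hj' hk' hd
  have hg1 : ∀ x : OnePoint Ω, g • x = (1 : GL (Fin 2) Ω) • x := by
    intro x
    refine gl_ext dist3_01 ?_ ?_ ?_ x
    · have := hg i' hi'
      rw [hL.zero i' j' k' hi' hj' hk' h', k1, hL.zero i j k hi hj hk h] at this
      rw [one_smul]; exact this.symm
    · have := hg j' hj'
      rw [hL.infty i' j' k' hi' hj' hk' h', k2, hL.infty i j k hi hj hk h] at this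
      rw [one_smul]; exact this.symm
    · have := hg k' hk'
      rw [hL.one i' j' k' hi' hj' hk' h', k3, hL.one i j k hi hj hk h] at this
      rw [one_smul]; exact this.symm
  rw [hg l' hl', hg1, one_smul]
  exact key l l' hl hl' el

/-- the common value if two of the labels have the same value -/
def two (φ : V → OnePoint Ω) (i j k : V) : OnePoint Ω :=
  if φ i = φ j then φ i else if φ i = φ k then φ i else φ j

lemma two_spec {φ : V → OnePoint Ω} {i j k : V} (h : ¬ Dist3 (φ i) (φ j) (φ k)) :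
    Two φ (two φ i j k) i j k := by
  unfold two
  by_cases h1 : φ i = φ j
  · rw [if_pos h1]
    exact Or.inl ⟨rfl, h1.symm⟩
  · rw [if_neg h1]
    by_cases h2 : φ i = φ k
    · rw [if_pos h2]
      exact Or.inr (Or.inl ⟨rfl, h2.symm⟩)
    · rw [if_neg h2]
      by_cases h3 : φ j = φ k
      · exact Or.inr (Or.inr ⟨rfl, h3.symm⟩)
      · exact absurd ⟨h1, h2, h3⟩ h

lemma two_eq {φ : V → OnePoint Ω} {α : OnePoint Ω} {i j k : V} (h : Two φ α i j k) :
    two φ i j k = α := by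
  unfold two
  rcases h with ⟨e1, e2⟩ | ⟨e1, e2⟩ | ⟨e1, e2⟩
  · rw [if_pos (by rw [e1, e2]), e1]
  · split_ifs
    · exact e1
    · exact e1
    · rename_i h1 h2; exact absurd (by rw [e1, e2]) h2
  · split_ifs with h1 h2
    · rw [h1, e1]
    · rw [h2, e2]
    · exact e1

lemma not_dist3_of_two {φ : V → OnePoint Ω} {α : OnePoint Ω} {i j k : V}
    (h : Two φ α i j k) : ¬ Dist3 (φ i) (φ j) (φ k) := by
  rintro ⟨h1, h2, h3⟩
  rcases h with ⟨e1, e2⟩ | ⟨e1, e2⟩ | ⟨e1, e2⟩
  · exact h1 (by rw [e1, e2])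
  · exact h2 (by rw [e1, e2])
  · exact h3 (by rw [e1, e2])

end general

section opt

variable {R : Type} [Fintype R] {Ω : Type} [Field Ω]

/-- the predicate of being a value on a label in `R` -/
abbrev IsV (S : Finset (Option R)) (φ : Option R → OnePoint Ω) (α : OnePoint Ω) : Prop :=
  ∃ x : R, Option.some x ∈ S ∧ φ (Option.some x) = α

/-- the labels of the block together with the root -/
abbrev T (S : Finset (Option R)) (φ : Option R → OnePoint Ω) (α : OnePoint Ω) :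
    Finset (Option R) := Finset.insertNone (blk S φ α)

/-- projection to the block -/
def pr (S : Finset (Option R)) (φ : Option R → OnePoint Ω) (α : OnePoint Ω) :
    Option R → Option R :=
  fun x => if x ∈ S ∧ φ x = α then x else none

/-- inclusion of the block -/
def inc (c : Option R) : Option R → Option R
  | none => c
  | Option.some x => Option.some x

variable {S : Finset (Option R)} {φ : Option R → OnePoint Ω} {α : OnePoint Ω}

omit [Field Ω] in
lemma mem_T {x : Option R} : x ∈ T S φ α ↔ x = none ∨ (x ∈ S ∧ φ x = α) := by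
  cases x with
  | none => simp [T]
  | some x => simp [T, blk]

omit [Fintype R] [Field Ω] in
lemma pr_of_eq {x : Option R} (hx : x ∈ S) (h : φ x = α) : pr S φ α x = x := by
  unfold pr; rw [if_pos ⟨hx, h⟩]

omit [Fintype R] [Field Ω] in
lemma pr_of_ne {x : Option R} (h : φ x ≠ α) : pr S φ α x = none := by
  unfold pr; rw [if_neg (fun h' => h h'.2)]

omit [Field Ω] in
lemma pr_mem (x : Option R) : pr S φ α x ∈ T S φ α := by
  rw [mem_T]
  unfold pr
  split_ifs with h
  · exact Or.inr h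
  · exact Or.inl rfl

/-- the standing hypothesis on the root label -/
def HN (S : Finset (Option R)) (φ : Option R → OnePoint Ω) : Prop :=
  none ∈ S → ∀ x ∈ S, φ x = φ none → x = none

omit [Fintype R] [Field Ω] in
lemma ne_none (hn : HN S φ) (hv : IsV S φ α) {x : Option R} (hx : x ∈ S) (h : φ x = α) :
    x ≠ none := by
  rintro rfl
  obtain ⟨y, hy, hy'⟩ := hv
  exact Option.some_ne_none y (hn hx _ hy (by rw [hy', h]))

omit [Fintype R] [Field Ω] in
/-- two distinct labels of the fibre over `α`: `α` is a value on `R` -/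
lemma isV_of_two (hn : HN S φ) {x y : Option R} (hx : x ∈ S) (hy : y ∈ S) (hxy : x ≠ y)
    (h1 : φ x = α) (h2 : φ y = α) : IsV S φ α := by
  cases x with
  | none =>
    exact absurd (hn hx y hy (by rw [h1, h2])).symm hxy
  | some x => exact ⟨x, hx, h1⟩

omit [Fintype R] [Field Ω] in
lemma isV_of_Two (hn : HN S φ) {i j k : Option R} (hi : i ∈ S) (hj : j ∈ S) (hk : k ∈ S)
    (h : Dist3 i j k) (h2 : Two φ α i j k) : IsV S φ α := by
  rcases h2 with ⟨e1, e2⟩ | ⟨e1, e2⟩ | ⟨e1, e2⟩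
  · exact isV_of_two hn hi hj h.1 e1 e2
  · exact isV_of_two hn hi hk h.2.1 e1 e2
  · exact isV_of_two hn hj hk h.2.2 e1 e2

omit [Fintype R] [Field Ω] in
lemma pr_ne (hn : HN S φ) (hv : IsV S φ α) {x y : Option R} (hx : x ∈ S) (hy : y ∈ S)
    (hxy : x ≠ y) (h : φ x = α ∨ φ y = α) : pr S φ α x ≠ pr S φ α y := by
  by_cases h1 : φ x = α
  · rw [pr_of_eq hx h1]
    by_cases h2 : φ y = α
    · rwa [pr_of_eq hy h2]
    · rw [pr_of_ne h2]
      exact ne_none hn hv hx h1
  · rw [pr_of_ne h1, pr_of_eq hy (h.resolve_left h1)]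
    exact (ne_none hn hv hy (h.resolve_left h1)).symm

omit [Fintype R] [Field Ω] in
lemma pr_dist (hn : HN S φ) (hv : IsV S φ α) {i j k : Option R} (hi : i ∈ S) (hj : j ∈ S)
    (hk : k ∈ S) (h : Dist3 i j k) (h2 : Two φ α i j k) :
    Dist3 (pr S φ α i) (pr S φ α j) (pr S φ α k) := by
  rcases h2 with ⟨e1, e2⟩ | ⟨e1, e2⟩ | ⟨e1, e2⟩
  · exact ⟨pr_ne hn hv hi hj h.1 (Or.inl e1), pr_ne hn hv hi hk h.2.1 (Or.inl e1),
      pr_ne hn hv hj hk h.2.2 (Or.inl e2)⟩
  · exact ⟨pr_ne hn hv hi hj h.1 (Or.inl e1), pr_ne hn hv hi hk h.2.1 (Or.inl e1),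
      pr_ne hn hv hj hk h.2.2 (Or.inr e2)⟩
  · exact ⟨pr_ne hn hv hi hj h.1 (Or.inr e1), pr_ne hn hv hi hk h.2.1 (Or.inr e2),
      pr_ne hn hv hj hk h.2.2 (Or.inl e1)⟩

omit [Fintype R] [Field Ω] in
/-- if the projections of three labels are distinct then two of the labels are in the block -/
lemma Two_of_pr_dist {i j k : Option R}
    (h : Dist3 (pr S φ α i) (pr S φ α j) (pr S φ α k)) : Two φ α i j k := by
  obtain ⟨h1, h2, h3⟩ := h
  by_cases e1 : φ i = α
  · by_cases e2 : φ j = α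
    · exact Or.inl ⟨e1, e2⟩
    · by_cases e3 : φ k = α
      · exact Or.inr (Or.inl ⟨e1, e3⟩)
      · exact absurd (by rw [pr_of_ne e2, pr_of_ne e3]) h3
  · by_cases e2 : φ j = α
    · by_cases e3 : φ k = α
      · exact Or.inr (Or.inr ⟨e2, e3⟩)
      · exact absurd (by rw [pr_of_ne e1, pr_of_ne e3]) h2
    · exact absurd (by rw [pr_of_ne e1, pr_of_ne e2]) h1

/-! #### inclusion -/

omit [Field Ω] in
lemma inc_mem {c : Option R} (hc : c ∈ S) {x : Option R} (hx : x ∈ T S φ α) : inc c x ∈ S := by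
  rcases mem_T.1 hx with rfl | ⟨h, _⟩
  · exact hc
  · cases x with
    | none => exact hc
    | some x => exact h

omit [Field Ω] in
lemma phi_inc {c : Option R} {x : Option R} (hx : x ∈ T S φ α)
    (hx' : x ≠ none) : φ (inc c x) = α := by
  cases x with
  | none => exact absurd rfl hx'
  | some x => exact ((mem_T.1 hx).resolve_left (by simp)).2

omit [Field Ω] in
lemma inc_ne {c : Option R} (hcα : φ c ≠ α) {x y : Option R} (hx : x ∈ T S φ α)
    (hy : y ∈ T S φ α) (hxy : x ≠ y) : inc c x ≠ inc c y := by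
  cases x with
  | none =>
    have := phi_inc (c := c) hy hxy.symm
    intro h
    rw [← h] at this
    exact hcα this
  | some x =>
    cases y with
    | none =>
      have := phi_inc (c := c) hx hxy
      intro h
      rw [h] at this
      exact hcα this
    | some y => exact hxy

omit [Field Ω] in
lemma inc_dist {c : Option R} (hcα : φ c ≠ α) {i j k : Option R} (hi : i ∈ T S φ α)
    (hj : j ∈ T S φ α) (hk : k ∈ T S φ α) (h : Dist3 i j k) :
    Dist3 (inc c i) (inc c j) (inc c k) :=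
  ⟨inc_ne hcα hi hj h.1, inc_ne hcα hi hk h.2.1, inc_ne hcα hj hk h.2.2⟩

omit [Field Ω] in
lemma Two_inc {c : Option R} {i j k : Option R} (hi : i ∈ T S φ α)
    (hj : j ∈ T S φ α) (hk : k ∈ T S φ α) (h : Dist3 i j k) :
    Two φ α (inc c i) (inc c j) (inc c k) := by
  by_cases h1 : i = none
  · have h2 : j ≠ none := fun e => h.1 (by rw [h1, e])
    have h3 : k ≠ none := fun e => h.2.1 (by rw [h1, e])
    exact Or.inr (Or.inr ⟨phi_inc hj h2, phi_inc hk h3⟩)
  · by_cases h2 : j = none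
    · have h3 : k ≠ none := fun e => h.2.2 (by rw [h2, e])
      exact Or.inr (Or.inl ⟨phi_inc hi h1, phi_inc hk h3⟩)
    · exact Or.inl ⟨phi_inc hi h1, phi_inc hj h2⟩

omit [Field Ω] in
lemma pr_inc {c : Option R} (hc : c ∈ S) (hcα : φ c ≠ α) {x : Option R} (hx : x ∈ T S φ α) :
    pr S φ α (inc c x) = x := by
  cases x with
  | none => exact pr_of_ne hcα
  | some x =>
    have := phi_inc (c := c) hx (by simp)
    rw [pr_of_eq (inc_mem hc hx) this]
    rfl

omit [Field Ω] in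
lemma inc_pr {c : Option R} (hcα : φ c ≠ α) (hn : HN S φ) (hv : IsV S φ α) {x : Option R}
    (hx : x ∈ S) : inc c (pr S φ α x) = x ∨ (φ (inc c (pr S φ α x)) ≠ α ∧ φ x ≠ α) := by
  by_cases h : φ x = α
  · left
    rw [pr_of_eq hx h]
    have := ne_none hn hv hx h
    cases x with
    | none => exact absurd rfl this
    | some x => rfl
  · right
    rw [pr_of_ne h]
    exact ⟨hcα, h⟩

end opt

section main

variable {R : Type} [Fintype R] {Ω : Type} [Field Ω]
variable {S : Finset (Option R)} {φ : Option R → OnePoint Ω} {α : OnePoint Ω}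
variable {L : Option R → Option R → Option R → Option R → OnePoint Ω}

/-- restriction to a block -/
def res (S : Finset (Option R)) (φ : Option R → OnePoint Ω)
    (L : Option R → Option R → Option R → Option R → OnePoint Ω) (c : Option R)
    (α : OnePoint Ω) : Option R → Option R → Option R → Option R → OnePoint Ω :=
  fun i j k l =>
    if (i ∈ T S φ α ∧ j ∈ T S φ α ∧ k ∈ T S φ α ∧ l ∈ T S φ α ∧ Dist3 i j k) then
      L (inc c i) (inc c j) (inc c k) (inc c l) else ∞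

lemma res_isSys (hL : IsSys S L) {c : Option R} (hc : c ∈ S) (hcα : φ c ≠ α) :
    IsSys (T S φ α) (res S φ L c α) := by
  have ev : ∀ {i j k l : Option R}, i ∈ T S φ α → j ∈ T S φ α → k ∈ T S φ α → l ∈ T S φ α →
      Dist3 i j k → res S φ L c α i j k l = L (inc c i) (inc c j) (inc c k) (inc c l) :=
    fun hi hj hk hl h => by unfold res; rw [if_pos ⟨hi, hj, hk, hl, h⟩]
  refine ⟨fun i j k l h => ?_, fun i j k hi hj hk h => ?_, fun i j k hi hj hk h => ?_,
    fun i j k hi hj hk h => ?_, fun i j k hi hj hk h a b d ha hb hd hdd => ?_⟩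
  · unfold res
    rw [if_neg h]
  · rw [ev hi hj hk hi h]
    exact hL.zero _ _ _ (inc_mem hc hi) (inc_mem hc hj) (inc_mem hc hk) (inc_dist hcα hi hj hk h)
  · rw [ev hi hj hk hj h]
    exact hL.infty _ _ _ (inc_mem hc hi) (inc_mem hc hj) (inc_mem hc hk) (inc_dist hcα hi hj hk h)
  · rw [ev hi hj hk hk h]
    exact hL.one _ _ _ (inc_mem hc hi) (inc_mem hc hj) (inc_mem hc hk) (inc_dist hcα hi hj hk h)
  · rw [ev hi hj hk ha h, ev hi hj hk hb h, ev hi hj hk hd h] at hdd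
    have hab : Dist3 a b d := by
      obtain ⟨d1, d2, d3⟩ := hdd
      exact ⟨fun e => d1 (by rw [e]), fun e => d2 (by rw [e]), fun e => d3 (by rw [e])⟩
    obtain ⟨g, hg⟩ := hL.comp _ _ _ (inc_mem hc hi) (inc_mem hc hj) (inc_mem hc hk)
      (inc_dist hcα hi hj hk h) _ _ _ (inc_mem hc ha) (inc_mem hc hb) (inc_mem hc hd) hdd
    refine ⟨g, fun l hl => ?_⟩
    rw [ev ha hb hd hl hab, ev hi hj hk hl h]
    exact hg _ (inc_mem hc hl)

/-- gluing of systems on the blocks -/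
def glue (S : Finset (Option R)) (φ : Option R → OnePoint Ω)
    (s : OnePoint Ω → Option R → Option R → Option R → Option R → OnePoint Ω) :
    Option R → Option R → Option R → Option R → OnePoint Ω :=
  fun i j k l =>
    if (i ∈ S ∧ j ∈ S ∧ k ∈ S ∧ l ∈ S ∧ Dist3 i j k) then
      (if h3 : Dist3 (φ i) (φ j) (φ k) then (Classical.choose (exists_gl' h3)) • φ l
        else s (two φ i j k) (pr S φ (two φ i j k) i) (pr S φ (two φ i j k) j)
          (pr S φ (two φ i j k) k) (pr S φ (two φ i j k) l))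
    else ∞

variable {s : OnePoint Ω → Option R → Option R → Option R → Option R → OnePoint Ω}

omit [Fintype R] in
lemma glue_two {i j k l : Option R} (hi : i ∈ S) (hj : j ∈ S) (hk : k ∈ S) (hl : l ∈ S)
    (h : Dist3 i j k) (h2 : Two φ α i j k) : glue S φ s i j k l =
      s α (pr S φ α i) (pr S φ α j) (pr S φ α k) (pr S φ α l) := by
  unfold glue
  rw [if_pos ⟨hi, hj, hk, hl, h⟩, dif_neg (not_dist3_of_two h2), two_eq h2]

omit [Fintype R] in
lemma glue_three {i j k : Option R} (hi : i ∈ S) (hj : j ∈ S) (hk : k ∈ S)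
    (h : Dist3 i j k) (h3 : Dist3 (φ i) (φ j) (φ k)) :
    ∃ g : GL (Fin 2) Ω, g • φ i = ((0 : Ω) : OnePoint Ω) ∧ g • φ j = ∞ ∧
      g • φ k = ((1 : Ω) : OnePoint Ω) ∧ ∀ l ∈ S, glue S φ s i j k l = g • φ l := by
  refine ⟨Classical.choose (exists_gl' h3), (Classical.choose_spec (exists_gl' h3)).1,
    (Classical.choose_spec (exists_gl' h3)).2.1, (Classical.choose_spec (exists_gl' h3)).2.2,
    fun l hl => ?_⟩
  unfold glue
  rw [if_pos ⟨hi, hj, hk, hl, h⟩, dif_pos h3]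

lemma glue_isSys (hn : HN S φ) (hs : ∀ α, IsV S φ α → IsSys (T S φ α) (s α)) :
    IsSys S (glue S φ s) := by
  refine ⟨fun i j k l h => ?_, fun i j k hi hj hk h => ?_, fun i j k hi hj hk h => ?_,
    fun i j k hi hj hk h => ?_, fun i j k hi hj hk h a b d ha hb hd hdd => ?_⟩
  · unfold glue
    rw [if_neg h]
  · by_cases h3 : Dist3 (φ i) (φ j) (φ k)
    · obtain ⟨g, g1, g2, g3, hg⟩ := glue_three (s := s) hi hj hk h h3
      rw [hg i hi, g1]
    · have h2 := two_spec h3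
      have hv := isV_of_Two hn hi hj hk h h2
      rw [glue_two hi hj hk hi h h2]
      exact (hs _ hv).zero _ _ _ (pr_mem i) (pr_mem j) (pr_mem k) (pr_dist hn hv hi hj hk h h2)
  · by_cases h3 : Dist3 (φ i) (φ j) (φ k)
    · obtain ⟨g, g1, g2, g3, hg⟩ := glue_three (s := s) hi hj hk h h3
      rw [hg j hj, g2]
    · have h2 := two_spec h3
      have hv := isV_of_Two hn hi hj hk h h2
      rw [glue_two hi hj hk hj h h2]
      exact (hs _ hv).infty _ _ _ (pr_mem i) (pr_mem j) (pr_mem k) (pr_dist hn hv hi hj hk h h2)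
  · by_cases h3 : Dist3 (φ i) (φ j) (φ k)
    · obtain ⟨g, g1, g2, g3, hg⟩ := glue_three (s := s) hi hj hk h h3
      rw [hg k hk, g3]
    · have h2 := two_spec h3
      have hv := isV_of_Two hn hi hj hk h h2
      rw [glue_two hi hj hk hk h h2]
      exact (hs _ hv).one _ _ _ (pr_mem i) (pr_mem j) (pr_mem k) (pr_dist hn hv hi hj hk h h2)
  · have hab : Dist3 a b d := by
      obtain ⟨d1, d2, d3⟩ := hdd
      exact ⟨fun e => d1 (by rw [e]), fun e => d2 (by rw [e]), fun e => d3 (by rw [e])⟩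
    by_cases h3 : Dist3 (φ i) (φ j) (φ k)
    · obtain ⟨g, g1, g2, g3, hg⟩ := glue_three (s := s) hi hj hk h h3
      have h3' : Dist3 (φ a) (φ b) (φ d) := by
        rw [hg a ha, hg b hb, hg d hd] at hdd
        obtain ⟨d1, d2, d3⟩ := hdd
        exact ⟨fun e => d1 (by rw [e]), fun e => d2 (by rw [e]), fun e => d3 (by rw [e])⟩
      obtain ⟨g', _, _, _, hg'⟩ := glue_three (s := s) ha hb hd hab h3'
      refine ⟨g' * g⁻¹, fun l hl => ?_⟩
      rw [hg' l hl, hg l hl, mul_smul, inv_smul_smul]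
    · have h2 := two_spec h3
      set α := two φ i j k with hα
      have hv := isV_of_Two hn hi hj hk h h2
      rw [glue_two hi hj hk ha h h2, glue_two hi hj hk hb h h2, glue_two hi hj hk hd h h2] at hdd
      have hpd : Dist3 (pr S φ α a) (pr S φ α b) (pr S φ α d) := by
        obtain ⟨d1, d2, d3⟩ := hdd
        exact ⟨fun e => d1 (by rw [e]), fun e => d2 (by rw [e]), fun e => d3 (by rw [e])⟩
      have h2' := Two_of_pr_dist hpd
      obtain ⟨g, hg⟩ := (hs α hv).comp _ _ _ (pr_mem i) (pr_mem j) (pr_mem k)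
        (pr_dist hn hv hi hj hk h h2) _ _ _ (pr_mem a) (pr_mem b) (pr_mem d) hdd
      refine ⟨g, fun l hl => ?_⟩
      rw [glue_two ha hb hd hl hab h2', glue_two hi hj hk hl h h2]
      exact hg _ (pr_mem l)

omit [Fintype R] in
lemma glue_vmap (hsep : Sep3 S φ) : VMap S (glue S φ s) φ := by
  refine ⟨hsep, fun a ha b hb c hc h3 => ?_⟩
  have hab : Dist3 a b c := by
    obtain ⟨d1, d2, d3⟩ := h3
    exact ⟨fun e => d1 (by rw [e]), fun e => d2 (by rw [e]), fun e => d3 (by rw [e])⟩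
  obtain ⟨g, _, _, _, hg⟩ := glue_three (s := s) ha hb hc hab h3
  exact ⟨g, hg⟩

lemma res_glue (hs : IsSys (T S φ α) (s α)) {c : Option R} (hc : c ∈ S)
    (hcα : φ c ≠ α) : res S φ (glue S φ s) c α = s α := by
  funext i j k l
  unfold res
  by_cases h : (i ∈ T S φ α ∧ j ∈ T S φ α ∧ k ∈ T S φ α ∧ l ∈ T S φ α ∧ Dist3 i j k)
  · rw [if_pos h]
    obtain ⟨hi, hj, hk, hl, hd⟩ := h
    rw [glue_two (inc_mem hc hi) (inc_mem hc hj) (inc_mem hc hk) (inc_mem hc hl)
      (inc_dist hcα hi hj hk hd) (Two_inc hi hj hk hd), pr_inc hc hcα hi, pr_inc hc hcα hj,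
      pr_inc hc hcα hk, pr_inc hc hcα hl]
  · rw [if_neg h, hs.junk i j k l h]

/-- the value of a system at a triple which is not separated by the coordinate `φ` -/
lemma eq_res (hL : IsSys S L) (hφ : VMap S L φ) (hn : HN S φ) {i j k l : Option R} (hi : i ∈ S)
    (hj : j ∈ S) (hk : k ∈ S) (hl : l ∈ S) (h : Dist3 i j k) (h2 : Two φ α i j k)
    {c : Option R} (hc : c ∈ S) (hcα : φ c ≠ α) :
    res S φ L c α (pr S φ α i) (pr S φ α j) (pr S φ α k) (pr S φ α l) = L i j k l := by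
  have hv := isV_of_Two hn hi hj hk h h2
  have hd := pr_dist hn hv hi hj hk h h2
  unfold res
  rw [if_pos ⟨pr_mem i, pr_mem j, pr_mem k, pr_mem l, hd⟩]
  exact indep hL hφ hi hj hk hl (inc_mem hc (pr_mem i)) (inc_mem hc (pr_mem j))
    (inc_mem hc (pr_mem k)) (inc_mem hc (pr_mem l)) h
    (inc_dist hcα (pr_mem i) (pr_mem j) (pr_mem k) hd) h2 (inc_pr hcα hn hv hi)
    (inc_pr hcα hn hv hj) (inc_pr hcα hn hv hk) (inc_pr hcα hn hv hl)

lemma glue_res (hL : IsSys S L) (hφ : VMap S L φ) (hn : HN S φ) {c : OnePoint Ω → Option R}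
    (hc : ∀ α, c α ∈ S ∧ φ (c α) ≠ α)
    (hs : ∀ α, IsV S φ α → s α = res S φ L (c α) α) : glue S φ s = L := by
  funext i j k l
  by_cases hm : (i ∈ S ∧ j ∈ S ∧ k ∈ S ∧ l ∈ S ∧ Dist3 i j k)
  · obtain ⟨hi, hj, hk, hl, h⟩ := hm
    by_cases h3 : Dist3 (φ i) (φ j) (φ k)
    · obtain ⟨g, g1, g2, g3, hg⟩ := glue_three (s := s) hi hj hk h h3
      rw [hg l hl]
      exact (sys_normal hL hφ hi hj hk h3 g1 g2 g3 l hl).symm
    · have h2 := two_spec h3
      have hv := isV_of_Two hn hi hj hk h h2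
      rw [glue_two hi hj hk hl h h2, hs _ hv]
      exact eq_res hL hφ hn hi hj hk hl h h2 (hc _).1 (hc _).2
  · rw [hL.junk i j k l hm]
    unfold glue
    rw [if_neg hm]

/-! #### choice of a label outside a block -/

omit [Field Ω] [Fintype R] in
lemma exists_out (hsep : Sep3 S φ) (α : OnePoint Ω) : ∃ c ∈ S, φ c ≠ α := by
  obtain ⟨a, ha, b, hb, _, _, h1, _, _⟩ := hsep
  by_cases h : φ a = α
  · exact ⟨b, hb, fun e => h1 (by rw [h, e])⟩
  · exact ⟨a, ha, h⟩

/-- a label outside the fibre over `α` -/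
def cc (hsep : Sep3 S φ) (α : OnePoint Ω) : Option R := (exists_out hsep α).choose

omit [Field Ω] [Fintype R] in
lemma cc_spec (hsep : Sep3 S φ) (α : OnePoint Ω) : cc hsep α ∈ S ∧ φ (cc hsep α) ≠ α :=
  (exists_out hsep α).choose_spec

/-! #### Frobenius -/

section frob

variable {q : ℕ} {τ : Equiv.Perm R}

lemma opt_none (x : Option R) : Equiv.optionCongr τ x = none ↔ x = none := by
  cases x <;> simp

lemma dist3_tau {i j k : Option R} : Dist3 (Equiv.optionCongr τ i) (Equiv.optionCongr τ j)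
    (Equiv.optionCongr τ k) ↔ Dist3 i j k := by
  unfold Dist3
  rw [(Equiv.optionCongr τ).injective.ne_iff, (Equiv.optionCongr τ).injective.ne_iff,
    (Equiv.optionCongr τ).injective.ne_iff]

lemma mem_T_tau (hq : Setup Ω q) (hS : ∀ x, x ∈ S ↔ Equiv.optionCongr τ x ∈ S)
    (hφ : ∀ x ∈ S, φ (Equiv.optionCongr τ x) = fr q (φ x)) {x : Option R} :
    Equiv.optionCongr τ x ∈ T S φ (fr q α) ↔ x ∈ T S φ α := by
  rw [mem_T, mem_T, opt_none, ← hS x]
  refine or_congr Iff.rfl (and_congr_right fun hx => ?_)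
  rw [hφ x hx]
  exact (fr_bij hq).1.eq_iff

lemma pr_tau (hq : Setup Ω q) (hS : ∀ x, x ∈ S ↔ Equiv.optionCongr τ x ∈ S)
    (hφ : ∀ x ∈ S, φ (Equiv.optionCongr τ x) = fr q (φ x)) {x : Option R} (hx : x ∈ S) :
    pr S φ (fr q α) (Equiv.optionCongr τ x) = Equiv.optionCongr τ (pr S φ α x) := by
  by_cases h : φ x = α
  · rw [pr_of_eq hx h, pr_of_eq ((hS x).1 hx) (by rw [hφ x hx, h])]
  · rw [pr_of_ne h, pr_of_ne (by
      rw [hφ x hx]
      exact fun e => h ((fr_bij hq).1 e))]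
    rfl

lemma Two_tau (hφ : ∀ x ∈ S, φ (Equiv.optionCongr τ x) = fr q (φ x)) {i j k : Option R}
    (hi : i ∈ S) (hj : j ∈ S) (hk : k ∈ S) (h : Two φ α i j k) :
    Two φ (fr q α) (Equiv.optionCongr τ i) (Equiv.optionCongr τ j) (Equiv.optionCongr τ k) := by
  unfold Two
  rw [hφ i hi, hφ j hj, hφ k hk]
  rcases h with ⟨e1, e2⟩ | ⟨e1, e2⟩ | ⟨e1, e2⟩
  · exact Or.inl ⟨by rw [e1], by rw [e2]⟩
  · exact Or.inr (Or.inl ⟨by rw [e1], by rw [e2]⟩)
  · exact Or.inr (Or.inr ⟨by rw [e1], by rw [e2]⟩)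

lemma inc_tau (hq : Setup Ω q) (hφ : ∀ x ∈ S, φ (Equiv.optionCongr τ x) = fr q (φ x))
    {c c' : Option R} (hc : c ∈ S) (hcα : φ c ≠ α) (hcα' : φ c' ≠ fr q α) (x : Option R) :
    Equiv.optionCongr τ (inc c x) = inc c' (Equiv.optionCongr τ x) ∨
      (φ (Equiv.optionCongr τ (inc c x)) ≠ fr q α ∧ φ (inc c' (Equiv.optionCongr τ x)) ≠ fr q α) := by
  cases x with
  | none =>
    right
    refine ⟨?_, hcα'⟩
    show φ (Equiv.optionCongr τ c) ≠ fr q α
    rw [hφ c hc]
    exact fun e => hcα ((fr_bij hq).1 e)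
  | some x => left; rfl

lemma res_equi (hq : Setup Ω q) (hS : ∀ x, x ∈ S ↔ Equiv.optionCongr τ x ∈ S)
    (hφt : ∀ x ∈ S, φ (Equiv.optionCongr τ x) = fr q (φ x)) (hL : IsSys S L) (hφ : VMap S L φ)
    (hE : Equi q (Equiv.optionCongr τ) L) {c c' : Option R} (hc : c ∈ S) (hc' : c' ∈ S)
    (hcα : φ c ≠ α) (hcα' : φ c' ≠ fr q α) (i j k l : Option R) :
    res S φ L c' (fr q α) (Equiv.optionCongr τ i) (Equiv.optionCongr τ j)
      (Equiv.optionCongr τ k) (Equiv.optionCongr τ l) = fr q (res S φ L c α i j k l) := by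
  have hiff : (Equiv.optionCongr τ i ∈ T S φ (fr q α) ∧ Equiv.optionCongr τ j ∈ T S φ (fr q α) ∧
      Equiv.optionCongr τ k ∈ T S φ (fr q α) ∧ Equiv.optionCongr τ l ∈ T S φ (fr q α) ∧
      Dist3 (Equiv.optionCongr τ i) (Equiv.optionCongr τ j) (Equiv.optionCongr τ k)) ↔
      (i ∈ T S φ α ∧ j ∈ T S φ α ∧ k ∈ T S φ α ∧ l ∈ T S φ α ∧ Dist3 i j k) := by
    rw [mem_T_tau hq hS hφt, mem_T_tau hq hS hφt, mem_T_tau hq hS hφt, mem_T_tau hq hS hφt,
      dist3_tau]
  unfold res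
  by_cases h : (i ∈ T S φ α ∧ j ∈ T S φ α ∧ k ∈ T S φ α ∧ l ∈ T S φ α ∧ Dist3 i j k)
  · rw [if_pos (hiff.2 h), if_pos h]
    obtain ⟨hi, hj, hk, hl, hd⟩ := h
    have ti := (mem_T_tau (τ := τ) hq hS hφt).2 hi
    have tj := (mem_T_tau (τ := τ) hq hS hφt).2 hj
    have tk := (mem_T_tau (τ := τ) hq hS hφt).2 hk
    have tl := (mem_T_tau (τ := τ) hq hS hφt).2 hl
    have hd' : Dist3 (Equiv.optionCongr τ i) (Equiv.optionCongr τ j) (Equiv.optionCongr τ k) :=
      dist3_tau.2 hd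
    have e1 : fr q (L (inc c i) (inc c j) (inc c k) (inc c l)) =
        L (Equiv.optionCongr τ (inc c i)) (Equiv.optionCongr τ (inc c j))
          (Equiv.optionCongr τ (inc c k)) (Equiv.optionCongr τ (inc c l)) :=
      (hE _ _ _ _).symm
    rw [e1]
    symm
    exact indep hL hφ (inc_mem hc' ti) (inc_mem hc' tj) (inc_mem hc' tk) (inc_mem hc' tl)
      ((hS _).1 (inc_mem hc hi)) ((hS _).1 (inc_mem hc hj)) ((hS _).1 (inc_mem hc hk))
      ((hS _).1 (inc_mem hc hl)) (inc_dist hcα' ti tj tk hd')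
      (dist3_tau.2 (inc_dist hcα hi hj hk hd)) (Two_inc ti tj tk hd')
      (inc_tau hq hφt hc hcα hcα' i) (inc_tau hq hφt hc hcα hcα' j)
      (inc_tau hq hφt hc hcα hcα' k) (inc_tau hq hφt hc hcα hcα' l)
  · rw [if_neg (fun h' => h (hiff.1 h')), if_neg h]
    rfl

lemma equi_of_res (hq : Setup Ω q) (hS : ∀ x, x ∈ S ↔ Equiv.optionCongr τ x ∈ S)
    (hφt : ∀ x ∈ S, φ (Equiv.optionCongr τ x) = fr q (φ x)) (hL : IsSys S L) (hφ : VMap S L φ)
    (hn : HN S φ) {c : OnePoint Ω → Option R} (hc : ∀ α, c α ∈ S ∧ φ (c α) ≠ α)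
    (h : ∀ α, IsV S φ α → ∀ i j k l,
      res S φ L (c (fr q α)) (fr q α) (Equiv.optionCongr τ i) (Equiv.optionCongr τ j)
      (Equiv.optionCongr τ k) (Equiv.optionCongr τ l) = fr q (res S φ L (c α) α i j k l)) :
    Equi q (Equiv.optionCongr τ) L := by
  intro i j k l
  show _ = fr q _
  by_cases hm : (i ∈ S ∧ j ∈ S ∧ k ∈ S ∧ l ∈ S ∧ Dist3 i j k)
  · obtain ⟨hi, hj, hk, hl, hd⟩ := hm
    have ti := (hS i).1 hi
    have tj := (hS j).1 hj
    have tk := (hS k).1 hk
    have tl := (hS l).1 hl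
    have td : Dist3 (Equiv.optionCongr τ i) (Equiv.optionCongr τ j) (Equiv.optionCongr τ k) :=
      dist3_tau.2 hd
    by_cases h3 : Dist3 (φ i) (φ j) (φ k)
    · obtain ⟨g, g1, g2, g3⟩ := exists_gl' h3
      have h3' : Dist3 (φ (Equiv.optionCongr τ i)) (φ (Equiv.optionCongr τ j))
          (φ (Equiv.optionCongr τ k)) := by
        rw [hφt i hi, hφt j hj, hφt k hk]
        exact ⟨fun e => h3.1 ((fr_bij hq).1 e), fun e => h3.2.1 ((fr_bij hq).1 e),
          fun e => h3.2.2 ((fr_bij hq).1 e)⟩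
      obtain ⟨g', g1', g2', g3'⟩ := exists_gl' h3'
      rw [sys_normal hL hφ ti tj tk h3' g1' g2' g3' _ tl, sys_normal hL hφ hi hj hk h3 g1 g2 g3 _ hl]
      obtain ⟨g'', hg''⟩ := fr_smul hq g
      rw [hg'', hφt l hl]
      refine gl_ext h3' ?_ ?_ ?_ _
      · rw [g1', hφt i hi, ← hg'', g1]
        show _ = OnePoint.map _ _
        obtain ⟨p, e, hp, _, he, hqe⟩ := hq.power
        have hq0 : q ≠ 0 := by
          rw [hqe]; exact pow_ne_zero _ hp.ne_zero
        simp [hq0]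
      · rw [g2', hφt j hj, ← hg'', g2]
        rfl
      · rw [g3', hφt k hk, ← hg'', g3]
        show _ = OnePoint.map _ _
        simp
    · have h2 := two_spec h3
      have hv := isV_of_Two hn hi hj hk hd h2
      have h2' := Two_tau (q := q) (τ := τ) hφt hi hj hk h2
      rw [← eq_res hL hφ hn ti tj tk tl td h2' (hc _).1 (hc _).2,
        ← eq_res hL hφ hn hi hj hk hl hd h2 (hc _).1 (hc _).2,
        pr_tau hq hS hφt hi, pr_tau hq hS hφt hj, pr_tau hq hS hφt hk, pr_tau hq hS hφt hl]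
      exact h _ hv _ _ _ _
  · rw [hL.junk i j k l hm, hL.junk _ _ _ _ (fun h' => hm ?_)]
    · rfl
    · rw [← hS, ← hS, ← hS, ← hS, dist3_tau] at h'
      exact h'

end frob

/-- extension of a family indexed by the values -/
def extF (s : Val S φ → (Option R → Option R → Option R → Option R → OnePoint Ω)) :
    OnePoint Ω → Option R → Option R → Option R → Option R → OnePoint Ω :=
  fun α => if h : IsV S φ α then s ⟨α, h⟩ else fun _ _ _ _ => ∞

lemma extF_eq (s : Val S φ → (Option R → Option R → Option R → Option R → OnePoint Ω))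
    {α : OnePoint Ω} (h : IsV S φ α) : extF s α = s ⟨α, h⟩ := by
  unfold extF
  rw [dif_pos h]

end main

end VDecAux

open VDecAux

/-- Vertex decomposition.  The systems on `S` with coordinate `φ` correspond to families of rooted
systems on the blocks of `φ`, compatibly with all Frobenius maps. -/
theorem vdec {R : Type} [Fintype R] {Ω : Type} [Field Ω] (S : Finset (Option R))
    (φ : Option R → OnePoint Ω)
    (hsep : Sep3 S φ) (hnone : none ∈ S → ∀ x ∈ S, φ x = φ none → x = none) :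
    ∃ F : {L : Option R → Option R → Option R → Option R → OnePoint Ω // IsSys S L ∧ VMap S L φ} ≃
        {s : Val S φ → (Option R → Option R → Option R → Option R → OnePoint Ω) //
          ∀ α, IsSys (Finset.insertNone (blk S φ α.1)) (s α)},
      ∀ (q : ℕ) (τ : Equiv.Perm R) (_ : Setup Ω q)
        (_ : ∀ x, x ∈ S ↔ Equiv.optionCongr τ x ∈ S)
        (_ : ∀ x ∈ S, φ (Equiv.optionCongr τ x) = OnePoint.map (fun y => y ^ q) (φ x)) (L),
        Equi q (Equiv.optionCongr τ) L.1 ↔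
          ∀ (α β : Val S φ), β.1 = OnePoint.map (fun y => y ^ q) α.1 → ∀ i j k l,
            (F L).1 β (Equiv.optionCongr τ i) (Equiv.optionCongr τ j) (Equiv.optionCongr τ k)
              (Equiv.optionCongr τ l) = OnePoint.map (fun y => y ^ q) ((F L).1 α i j k l) := by
  have hcc := cc_spec hsep
  refine ⟨{
    toFun := fun L => ⟨fun α => res S φ L.1 (cc hsep α.1) α.1,
      fun α => res_isSys L.2.1 (hcc α.1).1 (hcc α.1).2⟩
    invFun := fun s => ⟨glue S φ (extF s.1),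
      glue_isSys hnone (fun α hα => by rw [extF_eq s.1 hα]; exact s.2 ⟨α, hα⟩), glue_vmap hsep⟩
    left_inv := fun L => ?_
    right_inv := fun s => ?_ }, ?_⟩
  · apply Subtype.ext
    exact glue_res (c := cc hsep) L.2.1 L.2.2 hnone hcc (fun α hα => extF_eq _ hα)
  · apply Subtype.ext
    funext α
    have := res_glue (s := extF s.1) (α := α.1) (by rw [extF_eq s.1 α.2]; exact s.2 α)
      (hcc α.1).1 (hcc α.1).2
    rw [extF_eq s.1 α.2] at this
    exact this
  · intro q τ hq hS hφt L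
    constructor
    · intro hE α β hβ i j k l
      have e : β.1 = fr q α.1 := hβ
      show res S φ L.1 (cc hsep β.1) β.1 _ _ _ _ = fr q (res S φ L.1 (cc hsep α.1) α.1 i j k l)
      rw [e]
      exact res_equi hq hS hφt L.2.1 L.2.2 hE (hcc α.1).1 (hcc _).1 (hcc α.1).2 (hcc _).2 i j k l
    · intro h
      refine equi_of_res hq hS hφt L.2.1 L.2.2 hnone hcc fun α hα i j k l => ?_
      have hβ : IsV S φ (fr q α) := by
        obtain ⟨x, hx, hx'⟩ := hα
        refine ⟨τ x, (hS (Option.some x)).1 hx, ?_⟩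
        have := hφt (Option.some x) hx
        rw [hx'] at this
        exact this
      exact h ⟨α, hα⟩ ⟨fr q α, hβ⟩ rfl i j k l

end Pool.Agent.Mbar
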