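import Mathlib
import Pool.Agent.Mbar.Defs
import Pool.Agent.Mbar.ONE
import Pool.Agent.Mbar.VDEC
import Pool.Agent.Mbar.TPL
import Pool.Agent.Mbar.FORA
import Pool.Agent.Mbar.FORC

/-! # VCOUNT : systems with a given coordinate -/

noncomputable section

namespace Pool.Agent.Mbar

open OnePoint Polynomial

open scoped Classical

namespace VCOUNT

/-! ### generalities -/

section gen

variable {Ω : Type} [Field Ω] {V : Type}

theorem fr_inj {q : ℕ} (hs : Setup Ω q) {x y : OnePoint Ω} : fr q x = fr q y ↔ x = y :=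
  (fr_bij hs).injective.eq_iff

theorem fr_zero {q : ℕ} (hs : Setup Ω q) : fr q ((0 : Ω) : OnePoint Ω) = ((0 : Ω) : OnePoint Ω) := by
  have h : fr q ((0 : Ω) : OnePoint Ω) = (((0 : Ω) ^ q : Ω) : OnePoint Ω) := rfl
  rw [h, zero_pow (by have := hs.one_lt; omega)]

theorem fr_one {q : ℕ} : fr q ((1 : Ω) : OnePoint Ω) = ((1 : Ω) : OnePoint Ω) := by
  have h : fr q ((1 : Ω) : OnePoint Ω) = (((1 : Ω) ^ q : Ω) : OnePoint Ω) := rfl
  rw [h, one_pow]

theorem fr_infty {q : ℕ} : fr q (∞ : OnePoint Ω) = (∞ : OnePoint Ω) := rfl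

theorem dist3_fr {q : ℕ} (hs : Setup Ω q) {a b c : OnePoint Ω} :
    Dist3 (fr q a) (fr q b) (fr q c) ↔ Dist3 a b c := by
  unfold Dist3
  simp only [ne_eq, fr_inj hs]

/-- transport of a system by a permutation and Frobenius -/
def Tr {q : ℕ} (hs : Setup Ω q) (e : Equiv.Perm V) :
    Equiv.Perm (V → V → V → V → OnePoint Ω) where
  toFun L := fun i j k l => fr q (L (e.symm i) (e.symm j) (e.symm k) (e.symm l))
  invFun L := fun i j k l => (Equiv.ofBijective _ (fr_bij hs)).symm (L (e i) (e j) (e k) (e l))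
  left_inv L := by
    funext i j k l
    simp only [Equiv.symm_apply_apply]
    exact (Equiv.ofBijective _ (fr_bij hs)).symm_apply_apply _
  right_inv L := by
    funext i j k l
    simp only [Equiv.apply_symm_apply]
    exact (Equiv.ofBijective _ (fr_bij hs)).apply_symm_apply _

theorem Tr_apply {q : ℕ} (hs : Setup Ω q) (e : Equiv.Perm V) (L : V → V → V → V → OnePoint Ω)
    (i j k l : V) : Tr hs e L i j k l = fr q (L (e.symm i) (e.symm j) (e.symm k) (e.symm l)) := rfl

theorem Tr_apply' {q : ℕ} (hs : Setup Ω q) (e : Equiv.Perm V) (L : V → V → V → V → OnePoint Ω)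
    (i j k l : V) : Tr hs e L (e i) (e j) (e k) (e l) = fr q (L i j k l) := by
  simp only [Tr_apply, Equiv.symm_apply_apply]

theorem Tr_pow {q : ℕ} (hs : Setup Ω q) (e : Equiv.Perm V) (d : ℕ)
    (L : V → V → V → V → OnePoint Ω) (i j k l : V) :
    ((Tr hs e) ^ d) L (((e ^ d : Equiv.Perm V)) i) ((e ^ d : Equiv.Perm V) j)
      ((e ^ d : Equiv.Perm V) k) ((e ^ d : Equiv.Perm V) l) = fr (q ^ d) (L i j k l) := by
  induction d generalizing i j k l with
  | zero =>
    simp only [pow_zero, Equiv.Perm.coe_one, id_eq]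
    have := fr_iterate (Ω := Ω) (q := q) 0 (L i j k l)
    simpa using this
  | succ d ih =>
    rw [pow_succ' e d, pow_succ' (Tr hs e) d]
    simp only [Equiv.Perm.mul_apply]
    rw [Tr_apply', ih, ← fr_iterate, ← fr_iterate, Function.iterate_succ_apply']

theorem Tr_pow_eq {q : ℕ} (hs : Setup Ω q) (e : Equiv.Perm V) (d : ℕ)
    (L : V → V → V → V → OnePoint Ω) :
    ((Tr hs e) ^ d) L = L ↔ Equi (q ^ d) (e ^ d) L := by
  constructor
  · intro h i j k l
    have := Tr_pow hs e d L i j k l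
    rw [h] at this
    exact this
  · intro h
    funext i j k l
    have h1 := Tr_pow hs e d L ((e ^ d).symm i) ((e ^ d).symm j) ((e ^ d).symm k) ((e ^ d).symm l)
    have h2 := h ((e ^ d).symm i) ((e ^ d).symm j) ((e ^ d).symm k) ((e ^ d).symm l)
    simp only [Equiv.apply_symm_apply] at h1 h2
    rw [h1, h2]
    rfl

theorem isSys_Tr {q : ℕ} (hs : Setup Ω q) (e : Equiv.Perm V) {S S' : Finset V}
    (hS : ∀ x, x ∈ S ↔ e x ∈ S') (L : V → V → V → V → OnePoint Ω) :
    IsSys S' (Tr hs e L) ↔ IsSys S L := by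
  have hS' : ∀ x, x ∈ S' ↔ e.symm x ∈ S := fun x => by rw [hS, Equiv.apply_symm_apply]
  have hd : ∀ i j k : V, Dist3 (e i) (e j) (e k) ↔ Dist3 i j k := by
    intro i j k; unfold Dist3; simp only [ne_eq, e.injective.eq_iff]
  have hd' : ∀ i j k : V, Dist3 (e.symm i) (e.symm j) (e.symm k) ↔ Dist3 i j k := by
    intro i j k; unfold Dist3; simp only [ne_eq, e.symm.injective.eq_iff]
  constructor
  · intro h
    refine ⟨?_, ?_, ?_, ?_, ?_⟩
    · intro i j k l hn
      have := h.junk (e i) (e j) (e k) (e l) (by rw [← hS, ← hS, ← hS, ← hS, hd]; exact hn)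
      rw [Tr_apply'] at this
      exact (fr_inj hs).mp (this.trans fr_infty.symm)
    · intro i j k hi hj hk hD
      have := h.zero (e i) (e j) (e k) ((hS i).mp hi) ((hS j).mp hj) ((hS k).mp hk) ((hd _ _ _).mpr hD)
      rw [Tr_apply'] at this
      exact (fr_inj hs).mp (this.trans (fr_zero hs).symm)
    · intro i j k hi hj hk hD
      have := h.infty (e i) (e j) (e k) ((hS i).mp hi) ((hS j).mp hj) ((hS k).mp hk) ((hd _ _ _).mpr hD)
      rw [Tr_apply'] at this
      exact (fr_inj hs).mp (this.trans fr_infty.symm)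
    · intro i j k hi hj hk hD
      have := h.one (e i) (e j) (e k) ((hS i).mp hi) ((hS j).mp hj) ((hS k).mp hk) ((hd _ _ _).mpr hD)
      rw [Tr_apply'] at this
      exact (fr_inj hs).mp (this.trans fr_one.symm)
    · intro i j k hi hj hk hD a b c ha hb hc hD2
      obtain ⟨g', hg'⟩ := h.comp (e i) (e j) (e k) ((hS i).mp hi) ((hS j).mp hj) ((hS k).mp hk)
        ((hd _ _ _).mpr hD) (e a) (e b) (e c) ((hS a).mp ha) ((hS b).mp hb) ((hS c).mp hc) (by
          rw [Tr_apply', Tr_apply', Tr_apply', dist3_fr hs]; exact hD2)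
      have hg : ∀ l ∈ S, fr q (L a b c l) = g' • fr q (L i j k l) := by
        intro l hl
        have := hg' (e l) ((hS l).mp hl)
        rwa [Tr_apply', Tr_apply'] at this
      obtain ⟨g, g1, g2, g3⟩ := exists_gl' hD2
      obtain ⟨g'', hg''⟩ := fr_smul hs g
      have hab : Dist3 a b c := by
        obtain ⟨x, y, z⟩ := hD2
        exact ⟨fun h => x (by rw [h]), fun h => y (by rw [h]), fun h => z (by rw [h])⟩
      have z0 : L a b c a = ((0 : Ω) : OnePoint Ω) := by
        have := h.zero (e a) (e b) (e c) ((hS a).mp ha) ((hS b).mp hb) ((hS c).mp hc) ((hd _ _ _).mpr hab)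
        rw [Tr_apply'] at this
        exact (fr_inj hs).mp (this.trans (fr_zero hs).symm)
      have zi : L a b c b = ∞ := by
        have := h.infty (e a) (e b) (e c) ((hS a).mp ha) ((hS b).mp hb) ((hS c).mp hc) ((hd _ _ _).mpr hab)
        rw [Tr_apply'] at this
        exact (fr_inj hs).mp (this.trans fr_infty.symm)
      have z1 : L a b c c = ((1 : Ω) : OnePoint Ω) := by
        have := h.one (e a) (e b) (e c) ((hS a).mp ha) ((hS b).mp hb) ((hS c).mp hc) ((hd _ _ _).mpr hab)
        rw [Tr_apply'] at this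
        exact (fr_inj hs).mp (this.trans fr_one.symm)
      have hext : ∀ x : OnePoint Ω, g' • x = g'' • x := by
        refine gl_ext ((dist3_fr hs).mpr hD2) ?_ ?_ ?_
        · rw [← hg a ha, ← hg'', g1, z0]
        · rw [← hg b hb, ← hg'', g2, zi]
        · rw [← hg c hc, ← hg'', g3, z1]
      refine ⟨g, fun l hl => (fr_inj hs).mp ?_⟩
      rw [hg l hl, hg'', hext]
  · intro h
    refine ⟨?_, ?_, ?_, ?_, ?_⟩
    · intro i j k l hn
      rw [Tr_apply, h.junk _ _ _ _ (by rw [← hS', ← hS', ← hS', ← hS', hd']; exact hn)]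
      exact fr_infty
    · intro i j k hi hj hk hD
      rw [Tr_apply, h.zero _ _ _ ((hS' i).mp hi) ((hS' j).mp hj) ((hS' k).mp hk) ((hd' _ _ _).mpr hD)]
      exact fr_zero hs
    · intro i j k hi hj hk hD
      rw [Tr_apply, h.infty _ _ _ ((hS' i).mp hi) ((hS' j).mp hj) ((hS' k).mp hk) ((hd' _ _ _).mpr hD)]
      exact fr_infty
    · intro i j k hi hj hk hD
      rw [Tr_apply, h.one _ _ _ ((hS' i).mp hi) ((hS' j).mp hj) ((hS' k).mp hk) ((hd' _ _ _).mpr hD)]
      exact fr_one
    · intro i j k hi hj hk hD a b c ha hb hc hD2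
      rw [Tr_apply, Tr_apply, Tr_apply, dist3_fr hs] at hD2
      obtain ⟨g, hg⟩ := h.comp _ _ _ ((hS' i).mp hi) ((hS' j).mp hj) ((hS' k).mp hk)
        ((hd' _ _ _).mpr hD) _ _ _ ((hS' a).mp ha) ((hS' b).mp hb) ((hS' c).mp hc) hD2
      obtain ⟨g', hg'⟩ := fr_smul hs g
      refine ⟨g', fun l hl => ?_⟩
      rw [Tr_apply, Tr_apply, hg _ ((hS' l).mp hl), hg']

end gen

/-! ### forests -/

section forest

variable {R : Type} [Fintype R]

/-- transport of a forest by a permutation -/
def Tf' (τ : Equiv.Perm R) : Equiv.Perm (Finset R → ℕ) :=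
  Equiv.arrowCongr (Equiv.finsetCongr τ) (Equiv.refl ℕ)

theorem Tf'_apply (τ : Equiv.Perm R) (m : Finset R → ℕ) (A : Finset R) :
    Tf' τ m (A.map τ.toEmbedding) = m A := by
  unfold Tf'
  simp only [Equiv.arrowCongr_apply, Function.comp_apply, Equiv.refl_apply]
  congr 1
  rw [← Equiv.finsetCongr_apply, Equiv.symm_apply_apply]

theorem map_surj (τ : Equiv.Perm R) (A : Finset R) : ∃ B : Finset R, B.map τ.toEmbedding = A :=
  ⟨A.map τ.symm.toEmbedding, by ext x; simp⟩

theorem Tf'_eq_iff (τ : Equiv.Perm R) (m m' : Finset R → ℕ) :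
    m' = Tf' τ m ↔ ∀ A : Finset R, m' (A.map τ.toEmbedding) = m A := by
  constructor
  · rintro rfl A
    exact Tf'_apply τ m A
  · intro h
    funext A
    obtain ⟨B, rfl⟩ := map_surj τ A
    rw [h, Tf'_apply]

theorem map_map_pow (τ : Equiv.Perm R) (d : ℕ) (A : Finset R) :
    (A.map (τ ^ d : Equiv.Perm R).toEmbedding).map τ.toEmbedding =
      A.map (τ ^ (d + 1) : Equiv.Perm R).toEmbedding := by
  ext x
  simp only [Finset.mem_map_equiv]
  rw [pow_succ']
  rfl

theorem Tf'_pow (τ : Equiv.Perm R) (m : Finset R → ℕ) (d : ℕ) (A : Finset R) :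
    ((Tf' τ) ^ d) m (A.map (τ ^ d : Equiv.Perm R).toEmbedding) = m A := by
  induction d with
  | zero =>
    have : A.map (τ ^ 0 : Equiv.Perm R).toEmbedding = A := by
      ext x
      rw [Finset.mem_map_equiv]
      exact Iff.rfl
    rw [this]; rfl
  | succ d ih =>
    rw [← map_map_pow, pow_succ' (Tf' τ) d]
    simp only [Equiv.Perm.mul_apply]
    rw [Tf'_apply, ih]

theorem Tf'_pow_eq (τ : Equiv.Perm R) (m : Finset R → ℕ) (d : ℕ) :
    ((Tf' τ) ^ d) m = m ↔ Inv (τ ^ d) m := by
  constructor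
  · intro h A
    have := Tf'_pow τ m d A
    rw [h] at this
    exact this
  · intro h
    funext A
    obtain ⟨B, rfl⟩ := map_surj (τ ^ d) A
    rw [Tf'_pow, h]

theorem isBlk_T (τ : Equiv.Perm R) {m m' : Finset R → ℕ}
    (h : ∀ A : Finset R, m' (A.map τ.toEmbedding) = m A) (A : Finset R) :
    IsBlk m' (A.map τ.toEmbedding) ↔ IsBlk m A := by
  unfold IsBlk
  rw [h, Finset.card_map]

theorem childs_T (τ : Equiv.Perm R) {m m' : Finset R → ℕ}
    (h : ∀ A : Finset R, m' (A.map τ.toEmbedding) = m A) (A : Finset R) :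
    (childs m' (A.map τ.toEmbedding)).card = (childs m A).card := by
  symm
  refine Finset.card_bij (fun B _ => B.map τ.toEmbedding) ?_ ?_ ?_
  · intro B hB
    unfold childs at hB ⊢
    rw [Finset.mem_filter, Finset.mem_powerset] at hB ⊢
    obtain ⟨h1, h2, h3, h4⟩ := hB
    refine ⟨Finset.map_subset_map.mpr h1, fun hh => h2 (Finset.map_injective _ hh),
      (isBlk_T τ h B).mpr h3, ?_⟩
    intro C hC1 hC2 hC3 hC4
    obtain ⟨C, rfl⟩ := map_surj τ C
    rw [h4 C (Finset.map_subset_map.mp hC1) (fun hh => hC2 (by rw [hh]))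
      ((isBlk_T τ h C).mp hC3) (Finset.map_subset_map.mp hC4)]
  · intro B _ C _ hBC
    exact Finset.map_injective _ hBC
  · intro B hB
    obtain ⟨B, rfl⟩ := map_surj τ B
    refine ⟨B, ?_, rfl⟩
    unfold childs at hB ⊢
    rw [Finset.mem_filter, Finset.mem_powerset] at hB ⊢
    obtain ⟨h1, h2, h3, h4⟩ := hB
    refine ⟨Finset.map_subset_map.mp h1, fun hh => h2 (by rw [hh]), (isBlk_T τ h B).mp h3, ?_⟩
    intro C hC1 hC2 hC3 hC4
    have := h4 (C.map τ.toEmbedding) (Finset.map_subset_map.mpr hC1)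
      (fun hh => hC2 (Finset.map_injective _ hh)) ((isBlk_T τ h C).mpr hC3)
      (Finset.map_subset_map.mpr hC4)
    exact Finset.map_injective _ this

theorem isForest_T (τ : Equiv.Perm R) {m m' : Finset R → ℕ} {J : Finset R}
    (h : ∀ A : Finset R, m' (A.map τ.toEmbedding) = m A) :
    IsForest (J.map τ.toEmbedding) m' ↔ IsForest J m := by
  constructor
  · intro hm
    refine ⟨?_, ?_, ?_⟩
    · intro A hA
      have := hm.supp (A.map τ.toEmbedding) (by rwa [h])
      exact Finset.map_subset_map.mp this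
    · intro A B hA hB
      have := hm.laminar (A.map τ.toEmbedding) (B.map τ.toEmbedding) (by rwa [h]) (by rwa [h])
      rw [Finset.map_subset_map, Finset.map_subset_map, Finset.disjoint_map] at this
      exact this
    · intro A hA
      have := hm.bound (A.map τ.toEmbedding) (by rwa [h])
      rwa [h, childs_T τ h] at this
  · intro hm
    refine ⟨?_, ?_, ?_⟩
    · intro A hA
      obtain ⟨A, rfl⟩ := map_surj τ A
      rw [h] at hA
      exact Finset.map_subset_map.mpr (hm.supp A hA)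
    · intro A B hA hB
      obtain ⟨A, rfl⟩ := map_surj τ A
      obtain ⟨B, rfl⟩ := map_surj τ B
      rw [h] at hA hB
      rw [Finset.map_subset_map, Finset.map_subset_map, Finset.disjoint_map]
      exact hm.laminar A B hA hB
    · intro A hA
      obtain ⟨A, rfl⟩ := map_surj τ A
      rw [h] at hA ⊢
      rw [childs_T τ h]
      exact hm.bound A hA

theorem deg_T (τ : Equiv.Perm R) (m : Finset R → ℕ) : deg (Tf' τ m) = deg m := by
  unfold deg
  rw [← Equiv.sum_comp (Equiv.finsetCongr τ) (fun A => Tf' τ m A)]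
  refine Finset.sum_congr rfl fun A _ => ?_
  rw [Equiv.finsetCongr_apply, Tf'_apply]

theorem inv_one (m : Finset R → ℕ) : Inv 1 m := by
  intro A
  congr 1
  ext x
  rw [Finset.mem_map_equiv]
  exact Iff.rfl

theorem mem_forests_one {J : Finset R} {m : Finset R → ℕ} :
    m ∈ forests 1 J ↔ IsForest J m := by
  rw [mem_forests]
  exact ⟨fun h => h.1, fun h => ⟨h, inv_one m⟩⟩

theorem nonempty_of_ne {J : Finset R} {m : Finset R → ℕ} (hm : IsForest J m) {A : Finset R}
    (hA : m A ≠ 0) : A.Nonempty := by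
  rw [Finset.nonempty_iff_ne_empty]
  rintro rfl
  have := hm.bound ∅ hA
  have h0 : childs m ∅ = ∅ := by
    unfold childs
    rw [Finset.filter_eq_empty_iff]
    intro B hB
    rw [Finset.mem_powerset, Finset.subset_empty] at hB
    exact fun h => h.1 hB
  rw [h0, Finset.card_empty] at this
  omega

end forest

end VCOUNT

open VCOUNT

theorem vcount {R : Type} [Fintype R] {Ω : Type} [Field Ω] {q : ℕ} (hs : Setup Ω q)
    (τ : Equiv.Perm R) (J : Finset R) (hτ : J.map τ.toEmbedding = J) (S : Finset (Option R))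
    (hS : S = Finset.insertNone J ∨ S = J.map Function.Embedding.some)
    (φ : Option R → OnePoint Ω) (hφ : EquiMap q (Equiv.optionCongr τ) S φ) (hsep : Sep3 S φ)
    (hnone : none ∈ S → ∀ x ∈ S, φ x = φ none → x = none)
    (HK : ∀ J' : Finset R, J' ⊂ J → J'.Nonempty → ∀ d, 1 ≤ d → J'.map (τ ^ d).toEmbedding = J' →
      KFormula Ω (q ^ d) (τ ^ d) J') :
    {L | L ∈ SysSet Ω q (Equiv.optionCongr τ) S ∧ VMap S L φ}.Finite ∧
    {L | L ∈ SysSet Ω q (Equiv.optionCongr τ) S ∧ VMap S L φ}.ncard =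
      ∑ m ∈ (forests τ J).filter (fun m => ∀ A, m A ≠ 0 → ∀ x ∈ A, ∀ y ∈ A,
        φ (Option.some x) = φ (Option.some y)), q ^ deg m := by
  set e : Equiv.Perm (Option R) := Equiv.optionCongr τ with he
  have hsome : ∀ x : R, Option.some x ∈ S ↔ x ∈ J := by
    intro x
    rcases hS with h | h
    · rw [h]; simp
    · rw [h]; simp
  have hnoneS : none ∈ S ↔ e none ∈ S := by
    simp [he]
  have hJτ : ∀ x, x ∈ J ↔ τ x ∈ J := by
    intro x
    conv_rhs => rw [← hτ]
    simp
  have hSe : ∀ x, x ∈ S ↔ e x ∈ S := by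
    intro x
    cases x with
    | none => exact hnoneS
    | some x =>
      have : e (Option.some x) = Option.some (τ x) := by simp [he]
      rw [this, hsome, hsome]
      exact hJτ x
  have hφe : ∀ x, φ (e x) = fr q (φ x) := hφ.2
  have hφτ : ∀ x : R, φ (Option.some (τ x)) = fr q (φ (Option.some x)) := by
    intro x
    have := hφe (Option.some x)
    simpa [he] using this
  have : Finite (Val S φ) := by
    refine Finite.of_surjective
      (fun x : {x : R // Option.some x ∈ S} => (⟨φ (Option.some x.1), x.1, x.2, rfl⟩ : Val S φ)) ?_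
    rintro ⟨α, x, hx, rfl⟩
    exact ⟨⟨x, hx⟩, rfl⟩
  have : Fintype (Val S φ) := Fintype.ofFinite _
  -- the permutation of the blocks
  let f : Val S φ → Val S φ := fun α => ⟨fr q α.1, by
    obtain ⟨x, hx, hx'⟩ := α.2
    refine ⟨τ x, ?_, ?_⟩
    · rw [hsome] at hx ⊢
      exact (hJτ x).mp hx
    · rw [hφτ, hx']⟩
  have hf : Function.Bijective f := by
    rw [← Finite.injective_iff_bijective]
    intro α β h
    have h2 := congrArg Subtype.val h
    exact Subtype.ext ((fr_inj hs).mp h2)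
  let σB : Equiv.Perm (Val S φ) := Equiv.ofBijective f hf
  have hσB : ∀ α : Val S φ, (σB α).1 = fr q α.1 := fun α => rfl
  -- the blocks
  let D : Val S φ → Finset R := fun α => blk S φ α.1
  have hDmem : ∀ α x, x ∈ D α ↔ x ∈ J ∧ φ (Option.some x) = α.1 := by
    intro α x
    simp only [D, blk, Finset.mem_filter, Finset.mem_univ, true_and, hsome]
  have hne : ∀ b, (D b).Nonempty := by
    rintro ⟨α, x, hx, hx'⟩
    exact ⟨x, (hDmem _ _).mpr ⟨(hsome x).mp hx, hx'⟩⟩
  have hdis : ∀ b b', b ≠ b' → Disjoint (D b) (D b') := by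
    intro b b' hbb
    rw [Finset.disjoint_left]
    intro x hx hx'
    rw [hDmem] at hx hx'
    exact hbb (Subtype.ext (hx.2.symm.trans hx'.2))
  have hun : ∀ x, x ∈ J ↔ ∃ b, x ∈ D b := by
    intro x
    constructor
    · intro hx
      exact ⟨⟨φ (Option.some x), x, (hsome x).mpr hx, rfl⟩, (hDmem _ _).mpr ⟨hx, rfl⟩⟩
    · rintro ⟨b, hb⟩
      exact ((hDmem _ _).mp hb).1
  have hσ : ∀ b, D (σB b) = (D b).map τ.toEmbedding := by
    intro b
    ext x
    rw [Finset.mem_map_equiv, hDmem, hDmem, hσB]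
    have h1 : x ∈ J ↔ τ.symm x ∈ J := by rw [hJτ (τ.symm x), Equiv.apply_symm_apply]
    have h2 : φ (Option.some x) = fr q (φ (Option.some (τ.symm x))) := by
      rw [← hφτ, Equiv.apply_symm_apply]
    rw [h1, h2, fr_inj hs]
  have hss : ∀ b, D b ⊂ J := by
    intro b
    rw [Finset.ssubset_iff_subset_ne]
    refine ⟨fun x hx => ((hDmem _ _).mp hx).1, fun hbJ => ?_⟩
    -- all labels of `J` have the same value
    have hall : ∀ x ∈ J, φ (Option.some x) = b.1 := by
      intro x hx
      rw [← hbJ] at hx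
      exact ((hDmem _ _).mp hx).2
    obtain ⟨a, ha, b', hb', c, hc, h1, h2, h3⟩ := hsep
    have hc3 : ∀ x y : Option R, x ∈ S → y ∈ S → φ x ≠ φ y → x = none ∨ y = none := by
      intro x y hx hy hxy
      cases x with
      | none => exact Or.inl rfl
      | some x =>
        cases y with
        | none => exact Or.inr rfl
        | some y =>
          exact absurd ((hall x ((hsome x).mp hx)).trans (hall y ((hsome y).mp hy)).symm) hxy
    rcases hc3 a b' ha hb' h1 with h | h
    · rcases hc3 b' c hb' hc h3 with h' | h'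
      · exact h1 (by rw [h, h'])
      · exact h2 (by rw [h, h'])
    · rcases hc3 a c ha hc h2 with h' | h'
      · exact h1 (by rw [h, h'])
      · exact h3 (by rw [h, h'])
  -- the twisted product lemma
  have hA : ∀ b x, Tr hs e x ∈ {L | IsSys (Finset.insertNone (D (σB b))) L} ↔
      x ∈ {L | IsSys (Finset.insertNone (D b)) L} := by
    intro b x
    simp only [Set.mem_ofPred_eq]
    refine isSys_Tr hs e ?_ x
    intro y
    rw [hσ]
    cases y with
    | none => simp [he]
    | some y => simp [he]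
  have hA' : ∀ b y, Tf' τ y ∈ forests 1 (D (σB b)) ↔ y ∈ forests 1 (D b) := by
    intro b y
    rw [mem_forests_one, mem_forests_one, hσ]
    exact isForest_T τ (fun A => Tf'_apply τ y A)
  have hpow : ∀ d : ℕ, (e ^ d : Equiv.Perm (Option R)) = Equiv.optionCongr (τ ^ d) := by
    intro d
    induction d with
    | zero =>
      ext x
      simp
    | succ d ih =>
      rw [pow_succ', ih, pow_succ', he]
      apply Equiv.ext
      intro x
      cases x with
      | none => simp
      | some x => simp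
  have hDpow : ∀ (d : ℕ) b, D ((σB ^ d) b) = (D b).map (τ ^ d : Equiv.Perm R).toEmbedding := by
    intro d b
    induction d with
    | zero =>
      ext x
      rw [Finset.mem_map_equiv]
      exact Iff.rfl
    | succ d ih =>
      rw [pow_succ', Equiv.Perm.mul_apply, hσ, ih, map_map_pow]
  obtain ⟨t1, t2⟩ := tpl σB (Tr hs e) (Tf' τ) (fun b => {L | IsSys (Finset.insertNone (D b)) L})
    (fun b => forests 1 (D b)) deg q hA hA' (deg_T τ) (by
    intro b d hd hb
    have hset : {x | x ∈ {L | IsSys (Finset.insertNone (D b)) L} ∧ ((Tr hs e) ^ d) x = x} =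
        SysSet Ω (q ^ d) (Equiv.optionCongr (τ ^ d)) (Finset.insertNone (D b)) := by
      ext x
      simp only [SysSet, Set.mem_ofPred_eq]
      rw [Tr_pow_eq, hpow]
    obtain ⟨k1, k2⟩ := HK (D b) (hss b) (hne b) d hd (by rw [← hDpow, hb])
    rw [hset]
    refine ⟨k1, ?_⟩
    have hfil : forests (τ ^ d) (D b) = (forests 1 (D b)).filter (fun y => ((Tf' τ) ^ d) y = y) := by
      ext y
      rw [Finset.mem_filter, mem_forests_one, mem_forests, Tf'_pow_eq]
    rw [k2, hfil, Finset.sum_filter]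
    refine Finset.sum_congr rfl fun y _ => ?_
    by_cases hy : ((Tf' τ) ^ d) y = y
    · rw [if_pos hy, if_pos hy, pow_mul]
    · rw [if_neg hy, if_neg hy])
  -- the vertex decomposition
  obtain ⟨F, hF⟩ := vdec S φ hsep hnone
  have hFe : ∀ L : {L : Option R → Option R → Option R → Option R → OnePoint Ω //
      IsSys S L ∧ VMap S L φ}, Equi q e L.1 ↔ ∀ b, (F L).1 (σB b) = Tr hs e ((F L).1 b) := by
    intro L
    rw [he, hF q τ hs hSe (fun x _ => hφ.2 x) L]
    constructor
    · intro h b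
      funext i j k l
      have := h b (σB b) rfl (e.symm i) (e.symm j) (e.symm k) (e.symm l)
      simp only [← he, Equiv.apply_symm_apply] at this
      exact this
    · intro h α β hβ i j k l
      have h1 : β = σB α := Subtype.ext hβ
      rw [h1, h α]
      exact Tr_apply' hs e _ i j k l
  have hequiv : {L | L ∈ SysSet Ω q e S ∧ VMap S L φ} ≃
      {s : Val S φ → (Option R → Option R → Option R → Option R → OnePoint Ω) |
        (∀ b, s b ∈ {L | IsSys (Finset.insertNone (D b)) L}) ∧ ∀ b, s (σB b) = Tr hs e (s b)} := by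
    refine ⟨fun L => ⟨(F ⟨L.1, L.2.1.1, L.2.2⟩).1, (F ⟨L.1, L.2.1.1, L.2.2⟩).2,
        (hFe ⟨L.1, L.2.1.1, L.2.2⟩).mp L.2.1.2⟩,
      fun s => ⟨(F.symm ⟨s.1, s.2.1⟩).1, ⟨(F.symm ⟨s.1, s.2.1⟩).2.1, ?_⟩,
        (F.symm ⟨s.1, s.2.1⟩).2.2⟩, ?_, ?_⟩
    · rw [hFe, Equiv.apply_symm_apply]
      exact s.2.2
    · intro L
      apply Subtype.ext
      simp
    · intro s
      apply Subtype.ext
      simp
  have hfin : {L | L ∈ SysSet Ω q e S ∧ VMap S L φ}.Finite := by
    have := t1.to_subtype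
    have := Finite.of_equiv _ hequiv.symm
    exact Set.toFinite _
  refine ⟨hfin, ?_⟩
  have hcard : {L | L ∈ SysSet Ω q e S ∧ VMap S L φ}.ncard =
      {s : Val S φ → (Option R → Option R → Option R → Option R → OnePoint Ω) |
        (∀ b, s b ∈ {L | IsSys (Finset.insertNone (D b)) L}) ∧ ∀ b, s (σB b) = Tr hs e (s b)}.ncard := by
    rw [← Nat.card_coe_set_eq, ← Nat.card_coe_set_eq]
    exact Nat.card_congr hequiv
  rw [hcard, t2]
  refine Eq.trans ?_ ((forest_merge τ σB J D hne hdis hun hσ q).trans ?_)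
  · refine Finset.sum_congr rfl fun s _ => ?_
    by_cases h : ∀ b A, s (σB b) (A.map τ.toEmbedding) = s b A
    · rw [if_pos h, if_pos (fun b => (Tf'_eq_iff τ (s b) (s (σB b))).mpr (h b))]
    · rw [if_neg h, if_neg (fun h' => h (fun b => (Tf'_eq_iff τ (s b) (s (σB b))).mp (h' b)))]
  refine Finset.sum_congr ?_ fun _ _ => rfl
  ext m
  rw [Finset.mem_filter, Finset.mem_filter]
  refine and_congr_right fun hm => forall_congr' fun A => ?_
  have hmF := (mem_forests.mp hm).1
  constructor
  · intro h hA x hx y hy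
    obtain ⟨b, hb⟩ := h hA
    rw [((hDmem _ _).mp (hb hx)).2, ((hDmem _ _).mp (hb hy)).2]
  · intro h hA
    obtain ⟨x, hx⟩ := nonempty_of_ne hmF hA
    have hxJ := hmF.supp A hA hx
    refine ⟨⟨φ (Option.some x), x, (hsome x).mpr hxJ, rfl⟩, fun y hy => ?_⟩
    exact (hDmem _ _).mpr ⟨hmF.supp A hA hy, h hA y hy x hx⟩

end Pool.Agent.Mbar
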