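import Mathlib
import Pool.Agent.Mbar.ONE
import Pool.Agent.Mbar.DLEM
import Pool.Agent.Mbar.FORA
import Pool.Agent.Mbar.FORB
import Pool.Agent.Mbar.RMAP
import Pool.Agent.Mbar.MAPB
import Pool.Agent.Mbar.TORSOR
import Pool.Agent.Mbar.CENTROID
import Pool.Agent.Mbar.VCOUNT

set_option autoImplicit false

/-! # The formula for rooted systems -/

noncomputable section

namespace Pool.Agent.Mbar

open OnePoint Polynomial

open scoped Classical

namespace KT

/-- fibrewise counting -/
theorem ncard_fib {Z X : Type} (T : Set Z) (hT : T.Finite) (f : Z → X) (A : Finset X)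
    (hA : ∀ z ∈ T, f z ∈ A) : T.ncard = ∑ x ∈ A, {z | z ∈ T ∧ f z = x}.ncard := by
  obtain ⟨F, rfl⟩ := hT.exists_finset_coe
  rw [Set.ncard_coe_finset]
  rw [Finset.card_eq_sum_card_fiberwise (f := f) (t := A) (fun t ht => hA t ht)]
  refine Finset.sum_congr rfl fun x _ => ?_
  have : {z | z ∈ (F : Set Z) ∧ f z = x} = ((F.filter (fun t => f t = x) : Finset Z) : Set Z) := by
    ext y; simp
  rw [this, Set.ncard_coe_finset]

variable {Ω : Type} [Field Ω] {R : Type} [Fintype R]

/-- the coordinates of root components -/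
def Phi (Ω : Type) [Field Ω] (q : ℕ) {R : Type} (σ : Equiv.Perm R) (J : Finset R) :
    Set (Option R → OnePoint Ω) :=
  {φ | EquiMap q (Equiv.optionCongr σ) (Finset.insertNone J) φ ∧ Sep3 (Finset.insertNone J) φ ∧
    ∀ x ∈ Finset.insertNone J, φ x = φ none → x = none}

/-- `φ` is constant on the blocks of `m` -/
def Comp (m : Finset R → ℕ) (φ : Option R → OnePoint Ω) : Prop :=
  ∀ A, m A ≠ 0 → ∀ x ∈ A, ∀ y ∈ A, φ (Option.some x) = φ (Option.some y)

/-- the pairs of a rational point and an equivariant map of the roots -/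
def EE (Ω : Type) [Field Ω] (q : ℕ) {P : Type} (ρ : Equiv.Perm P) :
    Set (OnePoint Ω × (P → OnePoint Ω)) :=
  {ψ | OnePoint.map (fun y => y ^ q) ψ.1 = ψ.1 ∧
        ψ.2 ∈ EMaps Ω q ρ ∧ (∀ x, ψ.2 x ≠ ψ.1) ∧ ∃ x y, ψ.2 x ≠ ψ.2 y}

theorem phi_equiv {q : ℕ} (σ : Equiv.Perm R) (J : Finset R)
    (hσ : J.map σ.toEmbedding = J) (m : Finset R → ℕ) (hm : IsForest J m) (hinv : Inv σ m) :
    Nonempty ({φ : Option R → OnePoint Ω // φ ∈ Phi Ω q σ J ∧ Comp m φ} ≃
      {ψ : OnePoint Ω × ({A : Finset R // A ∈ roots m J} → OnePoint Ω) //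
        ψ ∈ EE Ω q (rootPerm σ m J hinv hσ)}) := by
  obtain ⟨F, hF⟩ := rmap (Ω := Ω) q σ J hσ m hm hinv
  obtain ⟨hR1, hR2, hR3, hR4⟩ := roots_partition hm
  -- the restriction of a coordinate
  have hg : ∀ φ : Option R → OnePoint Ω, φ ∈ Phi Ω q σ J ∧ Comp m φ →
      (∀ x, x ∉ J → φ (Option.some x) = ∞) ∧
      (∀ x, φ (Option.some (σ x)) = OnePoint.map (fun y => y ^ q) (φ (Option.some x))) ∧
          ∀ A, m A ≠ 0 → ∀ x ∈ A, ∀ y ∈ A, φ (Option.some x) = φ (Option.some y) := by
    rintro φ ⟨⟨h1, _, _⟩, h4⟩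
    refine ⟨fun x hx => h1.1 _ (by simpa using hx), fun x => ?_, h4⟩
    have := h1.2 (Option.some x)
    simpa using this
  have hsome : ∀ (g : {g : R → OnePoint Ω // (∀ x, x ∉ J → g x = ∞) ∧
          (∀ x, g (σ x) = OnePoint.map (fun y => y ^ q) (g x)) ∧
          ∀ A, m A ≠ 0 → ∀ x ∈ A, ∀ y ∈ A, g x = g y}) (x : R), x ∈ J →
      ∃ A : {A : Finset R // A ∈ roots m J}, x ∈ A.1 ∧ g.1 x = (F g).1 A := by
    intro g x hx
    obtain ⟨A, hA, hxA⟩ := hR3 x hx
    exact ⟨⟨A, hA⟩, hxA, hF g ⟨A, hA⟩ x hxA⟩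
  refine ⟨{
    toFun := fun φ => ⟨(φ.1 none, (F ⟨fun x => φ.1 (Option.some x), hg φ.1 φ.2⟩).1), ?_⟩
    invFun := fun e => ⟨fun o => o.elim e.1.1 (F.symm ⟨e.1.2, e.2.2.1⟩).1, ?_⟩
    left_inv := ?_
    right_inv := ?_ }⟩
  · obtain ⟨φ, hφ⟩ := φ
    have h1 := hφ.1.1
    have h2 := hφ.1.2.1
    have h3 := hφ.1.2.2
    set g : {g : R → OnePoint Ω // (∀ x, x ∉ J → g x = ∞) ∧
          (∀ x, g (σ x) = OnePoint.map (fun y => y ^ q) (g x)) ∧
          ∀ A, m A ≠ 0 → ∀ x ∈ A, ∀ y ∈ A, g x = g y} :=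
      ⟨fun x => φ (Option.some x), hg φ hφ⟩ with hgdef
    refine ⟨?_, (F g).2, ?_, ?_⟩
    · have := h1.2 none
      simpa using this.symm
    · intro A hA
      obtain ⟨x, hx⟩ := (hR1 A.1 A.2).1
      have hxJ : x ∈ J := (hR1 A.1 A.2).2 hx
      have e1 : g.1 x = (F g).1 A := hF g A x hx
      have e2 : φ (Option.some x) = φ none := e1.trans hA
      have := h3 (Option.some x) (by simpa using hxJ) e2
      exact Option.some_ne_none x this
    · have key : ∃ x ∈ J, ∃ y ∈ J, φ (Option.some x) ≠ φ (Option.some y) := by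
        obtain ⟨a, ha, b, hb, c, hc, hab, hac, hbc⟩ := h2
        rcases a with _ | a
        · rcases b with _ | b
          · exact absurd rfl hab
          · rcases c with _ | c
            · exact absurd rfl hac
            · exact ⟨b, by simpa using hb, c, by simpa using hc, hbc⟩
        · rcases b with _ | b
          · rcases c with _ | c
            · exact absurd rfl hbc
            · exact ⟨a, by simpa using ha, c, by simpa using hc, hac⟩
          · exact ⟨a, by simpa using ha, b, by simpa using hb, hab⟩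
      obtain ⟨x, hx, y, hy, hxy⟩ := key
      obtain ⟨A, _, hA⟩ := hsome g x hx
      obtain ⟨B, _, hB⟩ := hsome g y hy
      refine ⟨A, B, ?_⟩
      show (F g).1 A ≠ (F g).1 B
      rw [← hA, ← hB]
      exact hxy
  · obtain ⟨⟨α, ψ⟩, h1, h2, h3, h4⟩ := e
    set g := F.symm ⟨ψ, h2⟩ with hgdef
    have hFg : F g = ⟨ψ, h2⟩ := by rw [hgdef, Equiv.apply_symm_apply]
    have hval : ∀ x ∈ J, ∃ A : {A : Finset R // A ∈ roots m J}, x ∈ A.1 ∧ g.1 x = ψ A := by
      intro x hx
      obtain ⟨A, hxA, hA⟩ := hsome g x hx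
      exact ⟨A, hxA, by rw [hA, hFg]⟩
    refine ⟨⟨⟨?_, ?_⟩, ?_, ?_⟩, ?_⟩
    · intro x hx
      rcases x with _ | x
      · simp at hx
      · exact g.2.1 x (by simpa using hx)
    · intro x
      rcases x with _ | x
      · exact h1.symm
      · exact g.2.2.1 x
    · obtain ⟨A, B, hAB⟩ := h4
      obtain ⟨x, hx⟩ := (hR1 A.1 A.2).1
      obtain ⟨y, hy⟩ := (hR1 B.1 B.2).1
      have hxJ : x ∈ J := (hR1 A.1 A.2).2 hx
      have hyJ : y ∈ J := (hR1 B.1 B.2).2 hy
      have ex : g.1 x = ψ A := by rw [hF g A x hx, hFg]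
      have ey : g.1 y = ψ B := by rw [hF g B y hy, hFg]
      refine ⟨none, by simp, Option.some x, by simpa using hxJ, Option.some y, by simpa using hyJ,
        ?_, ?_, ?_⟩
      · show α ≠ g.1 x
        rw [ex]; exact (h3 A).symm
      · show α ≠ g.1 y
        rw [ey]; exact (h3 B).symm
      · show g.1 x ≠ g.1 y
        rw [ex, ey]; exact hAB
    · intro x hx hx2
      rcases x with _ | x
      · rfl
      · exfalso
        obtain ⟨A, _, hA⟩ := hval x (by simpa using hx)
        have : g.1 x = α := hx2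
        rw [hA] at this
        exact h3 A this
    · intro A hA x hx y hy
      exact g.2.2.2 A hA x hx y hy
  · rintro ⟨φ, hφ⟩
    apply Subtype.ext
    funext o
    rcases o with _ | x
    · rfl
    · show (F.symm ⟨(F ⟨fun x => φ (Option.some x), hg φ hφ⟩).1, _⟩).1 x = φ (Option.some x)
      rw [Subtype.coe_eta, Equiv.symm_apply_apply]
  · rintro ⟨⟨α, ψ⟩, h⟩
    apply Subtype.ext
    refine Prod.ext rfl ?_
    show (F ⟨fun x => (F.symm ⟨ψ, _⟩).1 x, _⟩).1 = ψ
    have : (⟨fun x => (F.symm ⟨ψ, h.2.1⟩).1 x, (F.symm ⟨ψ, h.2.1⟩).2⟩ :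
        {g : R → OnePoint Ω // (∀ x, x ∉ J → g x = ∞) ∧
          (∀ x, g (σ x) = OnePoint.map (fun y => y ^ q) (g x)) ∧
          ∀ A, m A ≠ 0 → ∀ x ∈ A, ∀ y ∈ A, g x = g y}) = F.symm ⟨ψ, h.2.1⟩ := rfl
    rw [this, Equiv.apply_symm_apply]

theorem phi_count {q : ℕ} (hs : Setup Ω q) (σ : Equiv.Perm R) (J : Finset R)
    (hJ : J.Nonempty) (hσ : J.map σ.toEmbedding = J) (m : Finset R → ℕ) (hm : IsForest J m)
    (hinv : Inv σ m) :
    {φ : Option R → OnePoint Ω | φ ∈ Phi Ω q σ J ∧ Comp m φ}.Finite ∧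
    {φ : Option R → OnePoint Ω | φ ∈ Phi Ω q σ J ∧ Comp m φ}.ncard =
      (q + 1) * (q ^ (roots m J).card - q) := by
  obtain ⟨e⟩ := phi_equiv (Ω := Ω) (q := q) σ J hσ m hm hinv
  have hne : Nonempty {A : Finset R // A ∈ roots m J} := by
    obtain ⟨x, hx⟩ := hJ
    obtain ⟨A, hA, _⟩ := (roots_partition hm).2.2.1 x hx
    exact ⟨⟨A, hA⟩⟩
  obtain ⟨h1, h2⟩ := emaps_affine hs (rootPerm σ m J hinv hσ)
  have hfin : Finite {ψ : OnePoint Ω × ({A : Finset R // A ∈ roots m J} → OnePoint Ω) //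
        ψ ∈ EE Ω q (rootPerm σ m J hinv hσ)} := h1.to_subtype
  constructor
  · have : Finite {φ : Option R → OnePoint Ω // φ ∈ Phi Ω q σ J ∧ Comp m φ} := Finite.of_equiv _ e.symm
    exact Set.finite_coe_iff.mp this
  · have e1 : {φ : Option R → OnePoint Ω | φ ∈ Phi Ω q σ J ∧ Comp m φ}.ncard =
        (EE Ω q (rootPerm σ m J hinv hσ)).ncard := by
      rw [← Nat.card_coe_set_eq, ← Nat.card_coe_set_eq]
      exact Nat.card_congr e
    rw [e1]
    have e2 : (EE Ω q (rootPerm σ m J hinv hσ)).ncard =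
      (q + 1) * (q ^ Fintype.card {A : Finset R // A ∈ roots m J} - q) := h2
    rw [e2, Fintype.card_coe]

/-- the base case -/
theorem base {q : ℕ} (σ : Equiv.Perm R) (J : Finset R) (hJ : J.card = 1) :
    KFormula Ω q σ J := by
  obtain ⟨x, rfl⟩ := Finset.card_eq_one.mp hJ
  have hS : ∀ i j k : Option R, i ∈ Finset.insertNone {x} → j ∈ Finset.insertNone {x} →
      k ∈ Finset.insertNone {x} → ¬ Dist3 i j k := by
    intro i j k hi hj hk h
    have hmem : ∀ o : Option R, o ∈ Finset.insertNone {x} → o = none ∨ o = Option.some x := by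
      intro o ho
      rcases o with _ | y
      · exact Or.inl rfl
      · right
        have : y = x := by simpa using ho
        rw [this]
    obtain ⟨h1, h2, h3⟩ := h
    rcases hmem i hi with rfl | rfl <;> rcases hmem j hj with rfl | rfl <;>
      rcases hmem k hk with rfl | rfl <;> simp_all
  have hset : SysSet Ω q (Equiv.optionCongr σ) (Finset.insertNone {x}) = {fun _ _ _ _ => ∞} := by
    ext L
    rw [Set.mem_singleton_iff]
    constructor
    · rintro ⟨hL, _⟩
      funext i j k l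
      exact hL.junk i j k l (fun ⟨hi, hj, hk, _, h⟩ => hS i j k hi hj hk h)
    · rintro rfl
      refine ⟨⟨fun _ _ _ _ _ => rfl, fun i j k hi hj hk h => absurd h (hS i j k hi hj hk),
        fun i j k hi hj hk h => absurd h (hS i j k hi hj hk),
        fun i j k hi hj hk h => absurd h (hS i j k hi hj hk),
        fun i j k hi hj hk h => absurd h (hS i j k hi hj hk)⟩, fun _ _ _ _ => rfl⟩
  have hfor : forests σ {x} = {fun _ => 0} := by
    ext m
    rw [mem_forests, Finset.mem_singleton]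
    constructor
    · rintro ⟨hm, _⟩
      have h0 : m ∅ = 0 := by
        by_contra h
        have h1 := hm.bound ∅ h
        have h2 : childs m ∅ = ∅ := by
          unfold childs
          rw [Finset.filter_eq_empty_iff]
          intro B hB h3
          rw [Finset.mem_powerset, Finset.subset_empty] at hB
          exact h3.1 hB
        rw [h2, Finset.card_empty] at h1
        omega
      funext A
      by_contra hA
      have hA' : m A ≠ 0 := hA
      have h1 := hm.supp A hA'
      rw [Finset.subset_singleton_iff] at h1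
      rcases h1 with rfl | rfl
      · exact hA' h0
      · have h2 := hm.bound {x} hA'
        have h3 : childs m {x} = ∅ := by
          unfold childs
          rw [Finset.filter_eq_empty_iff]
          intro B hB h3
          rw [Finset.mem_powerset, Finset.subset_singleton_iff] at hB
          rcases hB with rfl | rfl
          · rcases h3.2.1 with h4 | h4
            · exact h4 h0
            · simp at h4
          · exact h3.1 rfl
        rw [h3, Finset.card_empty] at h2
        omega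
    · rintro rfl
      exact ⟨⟨fun A h => absurd rfl h, fun A B h => absurd rfl h, fun A h => absurd rfl h⟩,
        fun A => rfl⟩
  constructor
  · rw [hset]; exact Set.finite_singleton _
  · rw [hset, hfor, Set.ncard_singleton, Finset.sum_singleton]
    simp [deg]

/-- the arithmetic identity -/
theorem arith {q : ℕ} (hq : 1 < q) (k : ℕ) :
    (q + 1) * (q ^ (k + 1) - q) = (q ^ 3 - q) * ∑ i ∈ Finset.range k, q ^ i := by
  have h1 : q ≤ q ^ (k + 1) := by
    calc q = q ^ 1 := (pow_one q).symm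
      _ ≤ q ^ (k + 1) := Nat.pow_le_pow_right (by omega) (by omega)
  have h2 : q ≤ q ^ 3 := by
    calc q = q ^ 1 := (pow_one q).symm
      _ ≤ q ^ 3 := Nat.pow_le_pow_right (by omega) (by omega)
  zify [h1, h2]
  have h3 := mul_geom_sum (q : ℤ) k
  have h4 : ((q : ℤ) ^ 3 - q) = (q + 1) * q * (q - 1) := by ring
  rw [h4, mul_assoc, h3]
  ring

end KT

theorem kformula {Ω : Type} [Field Ω] {q : ℕ} (hs : Setup Ω q) {R : Type} [Fintype R]
    (σ : Equiv.Perm R) (J : Finset R) (hJ : J.Nonempty) (hσ : J.map σ.toEmbedding = J) :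
    KFormula Ω q σ J := by
  induction hn : J.card using Nat.strong_induction_on generalizing q σ J with
  | _ n ih =>
  rcases Nat.lt_or_ge 1 J.card with h1 | h1
  swap
  · have : J.card = 1 := le_antisymm h1 (Finset.card_pos.mpr hJ)
    exact KT.base σ J this
  -- notation
  set S : Finset (Option R) := Finset.insertNone J with hSdef
  set τ' : Equiv.Perm (Option R) := Equiv.optionCongr σ with hτ'
  have hScard : 3 ≤ S.card := by
    rw [hSdef, Finset.card_insertNone]; omega
  have hnS : (none : Option R) ∈ S := by rw [hSdef]; simp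
  have hSσ : ∀ x, x ∈ S ↔ τ' x ∈ S := by
    intro x
    rcases x with _ | x
    · simp [hSdef, hτ']
    · have : x ∈ J ↔ σ x ∈ J := by
        conv_rhs => rw [← hσ]
        simp
      simpa [hSdef, hτ'] using this
  have HK : ∀ J' : Finset R, J' ⊂ J → J'.Nonempty → ∀ d, 1 ≤ d → J'.map (σ ^ d).toEmbedding = J' →
      KFormula Ω (q ^ d) (σ ^ d) J' := by
    intro J' hJ' hne d hd hst
    exact ih J'.card (by rw [← hn]; exact Finset.card_lt_card hJ') (hs.pow hd) (σ ^ d) J' hne hst rfl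
  -- the coordinates of the root component
  have h0F : (fun _ => 0 : Finset R → ℕ) ∈ forests σ J := by
    rw [mem_forests]
    exact ⟨⟨fun A h => absurd rfl h, fun A B h => absurd rfl h, fun A h => absurd rfl h⟩,
        fun A => rfl⟩
  have hPhi : (KT.Phi Ω q σ J).Finite := by
    have h2 := (KT.phi_count hs σ J hJ hσ _ (mem_forests.mp h0F).1 (mem_forests.mp h0F).2).1
    refine h2.subset ?_
    intro φ hφ
    exact ⟨hφ, fun A h => absurd rfl h⟩
  -- the systems with a given coordinate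
  have hV : ∀ φ ∈ KT.Phi Ω q σ J,
      {L | L ∈ SysSet Ω q τ' S ∧ VMap S L φ}.Finite ∧
      {L | L ∈ SysSet Ω q τ' S ∧ VMap S L φ}.ncard =
        ∑ m ∈ (forests σ J).filter (fun m => KT.Comp m φ), q ^ deg m := by
    intro φ hφ
    have hvc := vcount hs σ J hσ S (Or.inl rfl) φ hφ.1 hφ.2.1 (fun _ => hφ.2.2) HK
    refine ⟨hvc.1, ?_⟩
    rw [hvc.2]
    refine Finset.sum_congr ?_ fun _ _ => rfl
    ext m
    rw [Finset.mem_filter, Finset.mem_filter, KT.Comp]
  -- the coordinates of the root component of a given system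
  have hW : ∀ L ∈ SysSet Ω q τ' S,
      {φ | φ ∈ KT.Phi Ω q σ J ∧ VMap S L φ}.ncard = q ^ 3 - q := by
    intro L hL
    obtain ⟨i, hi, j, hj, k, hk, h3, hroot⟩ := rooted_center hL.1 hnS hScard
    have hv := vmap_self hL.1 hi hj hk h3
    -- the component is stable
    have h3' : Dist3 (τ' i) (τ' j) (τ' k) :=
      ⟨fun h => h3.1 (τ'.injective h), fun h => h3.2.1 (τ'.injective h),
        fun h => h3.2.2 (τ'.injective h)⟩
    have hv' := vmap_self hL.1 ((hSσ i).mp hi) ((hSσ j).mp hj) ((hSσ k).mp hk) h3'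
    have hst : Sim S (L i j k) (L (τ' i) (τ' j) (τ' k)) := by
      refine rooted_unique hL.1 hnS hv hv' hroot ?_
      intro m hm hm2
      obtain ⟨m', rfl⟩ := τ'.surjective m
      have e1 : τ' (none : Option R) = none := by simp [hτ']
      have e2 := hL.2 i j k m'
      have e3 := hL.2 i j k none
      rw [e1] at e3
      rw [e2, e3] at hm2
      have e4 : L i j k m' = L i j k none := (fr_bij hs).1 hm2
      have e5 := hroot m' ((hSσ m').mpr hm) e4
      rw [e5, e1]
    have ht := torsor hs hSσ hL hi hj hk h3 hst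
    rw [← ht.2]
    congr 1
    ext φ
    constructor
    · rintro ⟨h4, h5⟩
      exact ⟨h4.1, rooted_unique hL.1 hnS hv h5 hroot h4.2.2⟩
    · rintro ⟨h4, h5⟩
      have h6 := vmap_sim hv h5
      refine ⟨⟨h4, h6.1, ?_⟩, h6⟩
      intro m hm h7
      exact hroot m hm ((sim_eq_iff h5 hm hnS).mpr h7)
  -- the pairs
  set T : Set ((Option R → Option R → Option R → Option R → OnePoint Ω) × (Option R → OnePoint Ω)) :=
    {t | t.1 ∈ SysSet Ω q τ' S ∧ VMap S t.1 t.2 ∧ t.2 ∈ KT.Phi Ω q σ J} with hTdef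
  have hTfin : T.Finite := by
    have h2 : T ⊆ ⋃ φ ∈ KT.Phi Ω q σ J, (fun L => (L, φ)) '' {L | L ∈ SysSet Ω q τ' S ∧ VMap S L φ} := by
      rintro ⟨L, φ⟩ ⟨h3, h4, h5⟩
      simp only [Set.mem_iUnion]
      exact ⟨φ, h5, L, ⟨h3, h4⟩, rfl⟩
    exact (hPhi.biUnion fun φ hφ => ((hV φ hφ).1.image _)).subset h2
  have hq := hs.one_lt
  have hq3 : 0 < q ^ 3 - q := by
    have : q ^ 1 < q ^ 3 := Nat.pow_lt_pow_right hq (by norm_num)
    rw [pow_one] at this
    omega
  have hSysFin : (SysSet Ω q τ' S).Finite := by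
    refine (hTfin.image Prod.fst).subset ?_
    intro L hL
    have h2 := hW L hL
    have h3 : {φ | φ ∈ KT.Phi Ω q σ J ∧ VMap S L φ}.Nonempty := by
      rw [Set.nonempty_iff_ne_empty]
      intro h4
      rw [h4, Set.ncard_empty] at h2
      omega
    obtain ⟨φ, h4, h5⟩ := h3
    exact ⟨(L, φ), ⟨hL, h5, h4⟩, rfl⟩
  refine ⟨hSysFin, ?_⟩
  -- first count
  have c1 : T.ncard = (SysSet Ω q τ' S).ncard * (q ^ 3 - q) := by
    rw [KT.ncard_fib T hTfin Prod.fst hSysFin.toFinset
      (fun t ht => hSysFin.mem_toFinset.mpr ht.1)]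
    have h2 : ∀ L ∈ hSysFin.toFinset, {z | z ∈ T ∧ z.1 = L}.ncard = q ^ 3 - q := by
      intro L hL
      rw [hSysFin.mem_toFinset] at hL
      rw [← hW L hL]
      symm
      refine Set.ncard_congr (fun φ _ => (L, φ)) ?_ ?_ ?_
      · intro φ hφ
        exact ⟨⟨hL, hφ.2, hφ.1⟩, rfl⟩
      · intro a b _ _ hab
        exact (Prod.ext_iff.mp hab).2
      · rintro ⟨L', φ⟩ ⟨h3, h4⟩
        have h4' : L' = L := h4
        subst h4'
        exact ⟨φ, ⟨h3.2.2, h3.2.1⟩, rfl⟩
    rw [Finset.sum_congr rfl h2, Finset.sum_const, smul_eq_mul, Set.ncard_eq_toFinset_card _ hSysFin]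
  -- second count
  have c2 : T.ncard = ∑ m ∈ forests σ J, q ^ deg m * ((q + 1) * (q ^ (roots m J).card - q)) := by
    rw [KT.ncard_fib T hTfin Prod.snd hPhi.toFinset
      (fun t ht => hPhi.mem_toFinset.mpr ht.2.2)]
    have h2 : ∀ φ ∈ hPhi.toFinset, {z | z ∈ T ∧ z.2 = φ}.ncard =
        ∑ m ∈ forests σ J, if KT.Comp m φ then q ^ deg m else 0 := by
      intro φ hφ
      rw [hPhi.mem_toFinset] at hφ
      rw [← Finset.sum_filter, ← (hV φ hφ).2]
      symm
      refine Set.ncard_congr (fun L _ => (L, φ)) ?_ ?_ ?_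
      · intro L hL
        exact ⟨⟨hL.1, hL.2, hφ⟩, rfl⟩
      · intro a b _ _ hab
        exact (Prod.ext_iff.mp hab).1
      · rintro ⟨L, φ'⟩ ⟨h3, h4⟩
        have h4' : φ' = φ := h4
        subst h4'
        exact ⟨L, ⟨h3.1, h3.2.1⟩, rfl⟩
    rw [Finset.sum_congr rfl h2, Finset.sum_comm]
    refine Finset.sum_congr rfl fun m hm => ?_
    rw [mem_forests] at hm
    rw [← (KT.phi_count hs σ J hJ hσ m hm.1 hm.2).2, ← Finset.sum_filter, Finset.sum_const,
      smul_eq_mul, mul_comm]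
    congr 1
    rw [← Set.ncard_coe_finset]
    congr 1
    ext φ
    simp
  -- comparison
  have c3 : ∑ m ∈ forests σ J, q ^ deg m * ((q + 1) * (q ^ (roots m J).card - q)) =
      (∑ m ∈ forests σ J, q ^ deg m) * (q ^ 3 - q) := by
    rw [forest_top σ J h1 hσ q, Finset.sum_filter, Finset.sum_mul]
    refine Finset.sum_congr rfl fun m hm => ?_
    rw [mem_forests] at hm
    have hr := roots_card hm.1 h1
    by_cases h2 : m J = 0
    · rw [if_pos h2]
      obtain ⟨k, hk⟩ : ∃ k, (roots m J).card = k + 1 := ⟨(roots m J).card - 1, by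
        have := (hr.2 h2).1; omega⟩
      rw [hk, KT.arith hq k, Nat.add_sub_cancel]
      ring
    · rw [if_neg h2, (hr.1 h2), Finset.card_singleton, pow_one, Nat.sub_self]
      simp
  have c4 : (SysSet Ω q τ' S).ncard * (q ^ 3 - q) =
      (∑ m ∈ forests σ J, q ^ deg m) * (q ^ 3 - q) := by
    rw [← c1, c2, c3]
  exact Nat.eq_of_mul_eq_mul_right hq3 c4

end Pool.Agent.Mbar
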