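import Mathlib
import Pool.Agent.Mbar.Defs
import Pool.Agent.Mbar.MV
import Pool.Agent.Mbar.FORA
import Pool.Agent.Mbar.FORB
import Pool.Agent.Mbar.FORC
import Pool.Agent.Mbar.KTHM
import Pool.Agent.Mbar.EDEC2

/-! # The contribution of the curves with a node splitting the labels into two halves -/

set_option linter.unusedSectionVars false

noncomputable section

namespace Pool.Agent.Mbar

open OnePoint Polynomial

open scoped Classical

namespace NEDGEaux

open MV

variable {R : Type} [Fintype R]

/-- the part of `m` inside `J` -/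
def rs (m : Finset R → ℕ) (J : Finset R) : Finset R → ℕ := fun A => if A ⊆ J then m A else 0

/-- number of roots inside `J` -/
def nr (m : Finset R → ℕ) (J : Finset R) : ℕ := (roots m J).card

/-- geometric sum in `ℕ` -/
def gn (q k : ℕ) : ℕ := ∑ i ∈ Finset.range k, q ^ i

lemma roots_rs (m : Finset R → ℕ) (J : Finset R) : roots (rs m J) J = roots m J := by
  have h : ∀ A, A ⊆ J → (IsBlk (rs m J) A ↔ IsBlk m A) := by
    intro A hA
    unfold IsBlk rs
    rw [if_pos hA]
  unfold roots
  ext A
  simp only [Finset.mem_filter, Finset.mem_powerset]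
  refine and_congr_right fun hA => ?_
  rw [h A hA]
  refine and_congr_right fun _ => ⟨fun h1 B hB hb => h1 B hB ((h B hB).mpr hb),
    fun h1 B hB hb => h1 B hB ((h B hB).mp hb)⟩

lemma m_empty {J : Finset R} {m : Finset R → ℕ} (hm : IsForest J m) : m ∅ = 0 := by
  by_contra h
  have h1 := hm.bound ∅ h
  have h2 : childs m (∅ : Finset R) = ∅ := by
    unfold childs
    ext A
    simp only [Finset.mem_filter, Finset.mem_powerset, Finset.subset_empty, Finset.notMem_empty,
      iff_false, not_and]
    intro h3 h4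
    exact absurd h3 h4
  rw [h2] at h1
  simp at h1

lemma sum_roots {m : Finset R → ℕ} (hm : IsForest Finset.univ m) :
    ∑ A ∈ roots m Finset.univ, A.card = Fintype.card R := by
  obtain ⟨-, h2, h3, -⟩ := roots_partition hm
  rw [← Finset.card_univ, ← Finset.card_biUnion (fun A hA B hB h => h2 A hA B hB h)]
  congr 1
  ext x
  simp only [Finset.mem_biUnion, Finset.mem_univ, iff_true]
  obtain ⟨A, hA, hx⟩ := h3 x (Finset.mem_univ x)
  exact ⟨A, hA, hx⟩

lemma wt_roots {m : Finset R → ℕ} (hm : IsForest Finset.univ m) :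
    wt (fun A : {A : Finset R // A ∈ roots m Finset.univ} => A.1.card) Finset.univ
      = Fintype.card R := by
  unfold wt
  rw [← sum_roots hm, Finset.sum_coe_sort (roots m Finset.univ) (fun A => A.card)]

/-! ### sets of roots and unions of roots -/

/-- the union of a set of roots -/
def un {m : Finset R → ℕ} (S : Finset {A : Finset R // A ∈ roots m Finset.univ}) : Finset R :=
  Finset.univ.filter (fun x => ∃ A ∈ S, x ∈ A.1)

/-- `J` is a union of blocks -/
def UB (m : Finset R → ℕ) (J : Finset R) : Prop := ∀ A, m A ≠ 0 → A ⊆ J ∨ A ⊆ Jᶜ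

lemma mem_un {m : Finset R → ℕ} {S : Finset {A : Finset R // A ∈ roots m Finset.univ}} {x : R} :
    x ∈ un S ↔ ∃ A ∈ S, x ∈ A.1 := by
  unfold un
  rw [Finset.mem_filter]
  exact ⟨fun h => h.2, fun h => ⟨Finset.mem_univ _, h⟩⟩

variable {m : Finset R → ℕ}

lemma root_unique (hm : IsForest Finset.univ m) {A B : {A : Finset R // A ∈ roots m Finset.univ}}
    {x : R} (hA : x ∈ A.1) (hB : x ∈ B.1) : A = B := by
  by_contra h
  have h1 := (roots_partition hm).2.1 A.1 A.2 B.1 B.2 (fun h2 => h (Subtype.ext h2))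
  exact (Finset.disjoint_left.mp h1) hA hB

lemma mem_un_iff (hm : IsForest Finset.univ m)
    (S : Finset {A : Finset R // A ∈ roots m Finset.univ})
    (A : {A : Finset R // A ∈ roots m Finset.univ}) {x : R} (hx : x ∈ A.1) :
    x ∈ un S ↔ A ∈ S := by
  rw [mem_un]
  constructor
  · rintro ⟨B, hB, hxB⟩
    rw [root_unique hm hx hxB]
    exact hB
  · intro h
    exact ⟨A, h, hx⟩

lemma exists_root (hm : IsForest Finset.univ m) (x : R) :
    ∃ A : {A : Finset R // A ∈ roots m Finset.univ}, x ∈ A.1 := by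
  obtain ⟨A, hA, hx⟩ := (roots_partition hm).2.2.1 x (Finset.mem_univ x)
  exact ⟨⟨A, hA⟩, hx⟩

lemma root_nonempty (hm : IsForest Finset.univ m)
    (A : {A : Finset R // A ∈ roots m Finset.univ}) : A.1.Nonempty :=
  ((roots_partition hm).1 A.1 A.2).1

lemma un_inj (hm : IsForest Finset.univ m)
    {S T : Finset {A : Finset R // A ∈ roots m Finset.univ}} (h : un S = un T) : S = T := by
  ext A
  obtain ⟨x, hx⟩ := root_nonempty hm A
  rw [← mem_un_iff hm S A hx, ← mem_un_iff hm T A hx, h]

lemma un_compl (hm : IsForest Finset.univ m)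
    (S : Finset {A : Finset R // A ∈ roots m Finset.univ}) : un Sᶜ = (un S)ᶜ := by
  ext x
  obtain ⟨A, hA⟩ := exists_root hm x
  rw [Finset.mem_compl, mem_un_iff hm _ A hA, mem_un_iff hm _ A hA, Finset.mem_compl]

lemma un_map (hm : IsForest Finset.univ m) {τ : Equiv.Perm R} (hi : Inv τ m)
    (S : Finset {A : Finset R // A ∈ roots m Finset.univ}) :
    un (S.map (rootPerm τ m Finset.univ hi (univ_stable τ)).toEmbedding)
      = (un S).map τ.toEmbedding := by
  ext x
  obtain ⟨A, hA⟩ := exists_root hm (τ⁻¹ x)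
  have hx : x ∈ (rootPerm τ m Finset.univ hi (univ_stable τ) A).1 := by
    rw [rootPerm_coe, Finset.mem_map]
    exact ⟨τ⁻¹ x, hA, by simp⟩
  rw [mem_un_iff hm _ _ hx]
  have h1 : x ∈ (un S).map τ.toEmbedding ↔ τ⁻¹ x ∈ un S := by
    rw [Finset.mem_map]
    constructor
    · rintro ⟨y, hy, rfl⟩
      simpa using hy
    · intro h
      exact ⟨_, h, by simp⟩
  rw [h1, mem_un_iff hm _ A hA, Finset.mem_map]
  constructor
  · rintro ⟨B, hB, h2⟩
    rw [← (Equiv.injective _) h2]
    exact hB
  · intro h
    exact ⟨A, h, rfl⟩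

lemma UB_un (hm : IsForest Finset.univ m)
    (S : Finset {A : Finset R // A ∈ roots m Finset.univ}) : UB m (un S) := by
  intro A hA
  obtain ⟨B, hB, hAB⟩ := (roots_partition hm).2.2.2 A hA
  by_cases h : (⟨B, hB⟩ : {A : Finset R // A ∈ roots m Finset.univ}) ∈ S
  · left
    intro x hx
    exact (mem_un_iff hm S ⟨B, hB⟩ (hAB hx)).mpr h
  · right
    intro x hx
    rw [Finset.mem_compl, mem_un_iff hm S ⟨B, hB⟩ (hAB hx)]
    exact h

lemma blk_UB {J : Finset R} (hU : UB m J) {A : Finset R} (hA : IsBlk m A) :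
    A ⊆ J ∨ A ⊆ Jᶜ := by
  rcases hA with h | h
  · exact hU A h
  · obtain ⟨x, rfl⟩ := Finset.card_eq_one.mp h
    by_cases hx : x ∈ J
    · exact Or.inl (Finset.singleton_subset_iff.mpr hx)
    · exact Or.inr (Finset.singleton_subset_iff.mpr (Finset.mem_compl.mpr hx))

lemma mem_roots {J A : Finset R} : A ∈ roots m J ↔ A ⊆ J ∧ IsBlk m A ∧
    ∀ B ⊆ J, IsBlk m B → A ⊆ B → B = A := by
  unfold roots
  rw [Finset.mem_filter, Finset.mem_powerset]

lemma root_isBlk {J A : Finset R} (hA : A ∈ roots m J) : IsBlk m A := (mem_roots.mp hA).2.1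

lemma exists_un (hm : IsForest Finset.univ m) {J : Finset R} (hU : UB m J) :
    ∃ S : Finset {A : Finset R // A ∈ roots m Finset.univ}, un S = J := by
  refine ⟨Finset.univ.filter (fun A => A.1 ⊆ J), ?_⟩
  ext x
  obtain ⟨A, hA⟩ := exists_root hm x
  rw [mem_un_iff hm _ A hA, Finset.mem_filter]
  constructor
  · intro h
    exact h.2 hA
  · intro h
    refine ⟨Finset.mem_univ _, ?_⟩
    rcases blk_UB hU (root_isBlk A.2) with h1 | h1
    · exact h1
    · exact absurd h (Finset.mem_compl.mp (h1 hA))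

/-- the roots inside a union of roots -/
lemma roots_un (hm : IsForest Finset.univ m)
    (S : Finset {A : Finset R // A ∈ roots m Finset.univ}) :
    roots m (un S) = S.map (Function.Embedding.subtype _) := by
  have hUB := UB_un hm S
  ext A
  rw [mem_roots, Finset.mem_map]
  constructor
  · rintro ⟨h1, h2, h3⟩
    have hne : A.Nonempty := by
      rcases h2 with h2 | h2
      · rw [Finset.nonempty_iff_ne_empty]
        rintro rfl
        exact h2 (m_empty hm)
      · exact Finset.card_pos.mp (by omega)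
    obtain ⟨x, hx⟩ := hne
    have hA : A ∈ roots m Finset.univ := by
      rw [mem_roots]
      refine ⟨Finset.subset_univ _, h2, fun B _ hB hAB => ?_⟩
      rcases blk_UB hUB hB with h4 | h4
      · exact h3 B h4 hB hAB
      · exact absurd (h1 hx) (Finset.mem_compl.mp (h4 (hAB hx)))
    exact ⟨⟨A, hA⟩, (mem_un_iff hm S ⟨A, hA⟩ hx).mp (h1 hx), rfl⟩
  · rintro ⟨B, hB, rfl⟩
    have h1 := mem_roots.mp B.2
    refine ⟨fun x hx => (mem_un_iff hm S B hx).mpr hB, h1.2.1, fun C _ hC hBC => ?_⟩
    exact h1.2.2 C (Finset.subset_univ _) hC hBC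

lemma card_un (hm : IsForest Finset.univ m)
    (S : Finset {A : Finset R // A ∈ roots m Finset.univ}) :
    (un S).card = wt (fun A : {A : Finset R // A ∈ roots m Finset.univ} => A.1.card) S := by
  unfold wt
  have h : un S = S.biUnion (fun A => A.1) := by
    ext x
    rw [mem_un, Finset.mem_biUnion]
  rw [h, Finset.card_biUnion]
  intro A _ B _ hAB
  change Disjoint A.1 B.1
  rw [Finset.disjoint_left]
  intro x hA hB
  exact hAB (root_unique hm hA hB)

/-- the bijection between sets of roots and unions of blocks -/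
def unEquiv (hm : IsForest Finset.univ m) :
    Finset {A : Finset R // A ∈ roots m Finset.univ} ≃ {J : Finset R // UB m J} :=
  Equiv.ofBijective (fun S => ⟨un S, UB_un hm S⟩)
    ⟨fun S T h => un_inj hm (congrArg Subtype.val h),
      fun J => by
        obtain ⟨S, hS⟩ := exists_un hm J.2
        exact ⟨S, Subtype.ext hS⟩⟩

lemma sum_un (hm : IsForest Finset.univ m) (f : Finset R → ℤ) :
    ∑ S : Finset {A : Finset R // A ∈ roots m Finset.univ}, f (un S)
      = ∑ J : Finset R, if UB m J then f J else 0 := by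
  rw [← Finset.sum_filter, Finset.sum_subtype (p := fun J => UB m J) _ (by simp)]
  exact (unEquiv hm).sum_comp (fun J => f J.1)

/-! ### the exceptional contribution of a forest -/

/-- contribution of `J` -/
def ce (q : ℕ) (τ : Equiv.Perm R) (m : Finset R → ℕ) (J : Finset R) : ℕ :=
  if 2 * J.card = Fintype.card R then
    (if J.map τ.toEmbedding = J then gn q (nr m J - 1) * gn q (nr m Jᶜ - 1)
      else if J.map τ.toEmbedding = Jᶜ then gn (q ^ 2) (nr m J - 1) else 0)
  else 0

lemma eval_geo (q k : ℕ) : (geo k).eval (q : ℤ) = (gn q k : ℤ) := by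
  unfold geo gn
  rw [eval_finsetSum]
  push_cast
  exact Finset.sum_congr rfl fun i _ => by rw [eval_pow, eval_X]

lemma eval_geo2 (q k : ℕ) : ((geo k).comp (X ^ 2)).eval (q : ℤ) = (gn (q ^ 2) k : ℤ) := by
  rw [eval_comp, eval_pow, eval_X, ← eval_geo]
  push_cast
  rfl

lemma compl_ne {J : Finset R} (h : Nonempty R) : J ≠ Jᶜ := by
  intro h1
  obtain ⟨x⟩ := h
  by_cases hx : x ∈ J
  · have := hx
    rw [h1, Finset.mem_compl] at this
    exact this hx
  · have := hx
    rw [h1, Finset.mem_compl, not_not] at this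
    exact hx this

lemma mem_anti {P : Type} [Fintype P] (σ : Equiv.Perm P) (S : Finset P) :
    S ∈ anti σ ↔ ∀ x, x ∈ S.map σ.toEmbedding ↔ x ∉ S := by
  unfold anti
  rw [Finset.mem_filter, Finset.ext_iff]
  simp only [Finset.mem_univ, true_and, Finset.mem_compl]

lemma un_map_compl (hm : IsForest Finset.univ m)
    {S T : Finset {A : Finset R // A ∈ roots m Finset.univ}} :
    (∀ x, x ∈ T ↔ x ∉ S) ↔ un T = un Sᶜ := by
  constructor
  · intro h
    congr 1
    ext x
    rw [Finset.mem_compl]
    exact h x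
  · intro h x
    rw [un_inj hm h, Finset.mem_compl]

lemma contribE_eval [Nonempty R] (q : ℕ) (τ : Equiv.Perm R) (hm : IsForest Finset.univ m)
    (hi : Inv τ m) :
    (contribE τ m).eval (q : ℤ) = ∑ J : Finset R, if UB m J then (ce q τ m J : ℤ) else 0 := by
  rw [← sum_un hm]
  unfold contribE
  rw [dif_pos hi]
  set ρ := rootPerm τ m Finset.univ hi (univ_stable τ) with hρ
  have m1 : ∀ S : Finset {A : Finset R // A ∈ roots m Finset.univ},
      S ∈ stab ρ ↔ (un S).map τ.toEmbedding = un S := by
    intro S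
    rw [← un_map hm hi, ← hρ]
    simp only [stab, Finset.mem_filter, Finset.mem_univ, true_and]
    exact ⟨fun h => by rw [h], fun h => un_inj hm h⟩
  have m2 : ∀ S : Finset {A : Finset R // A ∈ roots m Finset.univ},
      S ∈ anti ρ ↔ (un S).map τ.toEmbedding = (un S)ᶜ := by
    intro S
    rw [← un_map hm hi, ← un_compl hm, ← hρ, mem_anti, ← un_map_compl hm]
  unfold exc
  rw [wt_roots hm, eval_add, eval_finsetSum, eval_finsetSum, Finset.sum_filter, Finset.sum_filter,
    ← Finset.univ_inter (stab ρ), ← Finset.sum_ite_mem, ← Finset.univ_inter (anti ρ),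
    ← Finset.sum_ite_mem, ← Finset.sum_add_distrib]
  refine Finset.sum_congr rfl fun S _ => ?_
  have e3 : nr m (un S) = S.card := by
    unfold nr
    rw [roots_un hm, Finset.card_map]
  have e4 : nr m (un S)ᶜ = Fintype.card {A : Finset R // A ∈ roots m Finset.univ} - S.card := by
    unfold nr
    rw [← un_compl hm, roots_un hm, Finset.card_map, Finset.card_compl]
  rw [← card_un hm]
  unfold ce
  rw [e3, e4]
  by_cases h0 : 2 * (un S).card = Fintype.card R
  · by_cases h1 : (un S).map τ.toEmbedding = un S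
    · have h2 : ¬ ((un S).map τ.toEmbedding = (un S)ᶜ) := by
        rw [h1]
        exact compl_ne inferInstance
      rw [if_pos ((m1 S).mpr h1), if_neg (fun h => h2 ((m2 S).mp h)), if_pos h0, if_pos h0,
        if_pos h1, add_zero, eval_mul, eval_geo, eval_geo]
      push_cast
      rfl
    · by_cases h2 : (un S).map τ.toEmbedding = (un S)ᶜ
      · rw [if_neg (fun h => h1 ((m1 S).mp h)), if_pos ((m2 S).mpr h2), if_pos h0, if_pos h0,
          if_neg h1, if_pos h2, zero_add, eval_geo2]
      · rw [if_neg (fun h => h1 ((m1 S).mp h)), if_neg (fun h => h2 ((m2 S).mp h)), if_pos h0,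
          if_neg h1, if_neg h2, add_zero]
        rfl
  · rw [if_neg h0, if_neg h0, if_neg h0, ite_self, ite_self, add_zero]
    rfl

/-! ### small forests -/

lemma small_iff (hm : IsForest Finset.univ m) {J : Finset R} (hU : UB m J)
    (hJ : 2 * J.card = Fintype.card R) (hJ2 : 2 ≤ J.card) :
    Small m ↔ m J = 0 ∧ m Jᶜ = 0 := by
  have hJc : 2 * Jᶜ.card = Fintype.card R := by
    rw [Finset.card_compl]
    omega
  constructor
  · intro hs
    have key : ∀ K : Finset R, 2 * K.card = Fintype.card R → m K = 0 := by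
      intro K hK
      by_contra h
      obtain ⟨B, hB, hKB⟩ := (roots_partition hm).2.2.2 K h
      have h1 := hs B hB
      have h2 := Finset.card_le_card hKB
      omega
    exact ⟨key J hJ, key _ hJc⟩
  · rintro ⟨h1, h2⟩ A hA
    by_contra h
    have hb := root_isBlk hA
    have hcase : ∀ K : Finset R, 2 * K.card = Fintype.card R → m K = 0 → ¬ A ⊆ K := by
      intro K hK hK0 hAK
      have h3 : A = K := Finset.eq_of_subset_of_card_le hAK (by omega)
      subst h3
      rcases hb with h4 | h4
      · exact h4 hK0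
      · omega
    rcases blk_UB hU hb with h3 | h3
    · exact hcase J hJ h1 h3
    · exact hcase _ hJc h2 h3

/-! ### degrees -/

lemma deg_split (hm : IsForest Finset.univ m) {J : Finset R} (hU : UB m J) :
    deg m = deg (rs m J) + deg (rs m Jᶜ) := by
  unfold deg rs
  rw [← Finset.sum_add_distrib]
  refine Finset.sum_congr rfl fun A _ => ?_
  by_cases hA : m A = 0
  · simp [hA]
  · rcases hU A hA with h | h
    · have h' : ¬ A ⊆ Jᶜ := by
        intro h2
        have h3 : A = ∅ := by
          rw [Finset.eq_empty_iff_forall_notMem]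
          intro x hx
          exact (Finset.mem_compl.mp (h2 hx)) (h hx)
        rw [h3] at hA
        exact hA (m_empty hm)
      rw [if_pos h, if_neg h', add_zero]
    · have h' : ¬ A ⊆ J := by
        intro h2
        have h3 : A = ∅ := by
          rw [Finset.eq_empty_iff_forall_notMem]
          intro x hx
          exact (Finset.mem_compl.mp (h hx)) (h2 hx)
        rw [h3] at hA
        exact hA (m_empty hm)
      rw [if_neg h', if_pos h, zero_add]

lemma deg_swap {τ : Equiv.Perm R} (hi : Inv τ m) {J : Finset R}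
    (hJ : J.map τ.toEmbedding = Jᶜ) : deg (rs m Jᶜ) = deg (rs m J) := by
  have h : rs m Jᶜ = mv τ (rs m J) := by
    funext A
    obtain ⟨A, rfl⟩ := exists_map τ A
    rw [mv_map]
    unfold rs
    rw [← hJ, hi]
    by_cases h : A ⊆ J
    · rw [if_pos h, if_pos (Finset.map_subset_map.mpr h)]
    · rw [if_neg h, if_neg (fun h' => h (Finset.map_subset_map.mp h'))]
  rw [h, deg_mv]

/-! ### the two sums -/

/-- local weight for `J` -/
def lw (q : ℕ) (J : Finset R) (m : Finset R → ℕ) : ℕ :=
  if m J = 0 then q ^ deg m * gn q (nr m J - 1) else 0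

/-- the two halves, indexed by `Bool` -/
def DD (J : Finset R) : Bool → Finset R := fun b => if b then J else Jᶜ

lemma DD_disj (J : Finset R) : ∀ b b', b ≠ b' → Disjoint (DD J b) (DD J b') := by
  intro b b' h
  unfold DD
  cases b <;> cases b' <;> simp at h ⊢
  · exact disjoint_compl_left
  · exact disjoint_compl_right

lemma DD_un (J : Finset R) : ∀ x, x ∈ (Finset.univ : Finset R) ↔ ∃ b, x ∈ DD J b := by
  intro x
  simp only [Finset.mem_univ, true_iff]
  by_cases h : x ∈ J
  · exact ⟨true, h⟩
  · exact ⟨false, Finset.mem_compl.mpr h⟩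

lemma UB_iff (J : Finset R) : (∀ A, m A ≠ 0 → ∃ b, A ⊆ DD J b) ↔ UB m J := by
  unfold UB DD
  refine forall_congr' fun A => imp_congr_right fun _ => ?_
  rw [Bool.exists_bool]
  simp only [Bool.false_eq_true, if_false, if_true]
  exact or_comm

lemma kc_lw {Ω : Type} [Field Ω] {q : ℕ} (hs : Setup Ω q) (τ : Equiv.Perm R) {J : Finset R}
    (hJ2 : 2 ≤ J.card) (hJ : J.map τ.toEmbedding = J) :
    Kc Ω q τ J = ∑ m ∈ forests τ J, lw q J m := by
  have hne : J.Nonempty := Finset.card_pos.mp (by omega)
  unfold Kc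
  rw [(kformula hs τ J hne hJ).2, forest_top τ J hJ2 hJ q, Finset.sum_filter]
  rfl

lemma stable_case {Ω : Type} [Field Ω] {q : ℕ} (hs : Setup Ω q) (τ : Equiv.Perm R) {J : Finset R}
    (hJ2 : 2 ≤ J.card) (hJc2 : 2 ≤ Jᶜ.card) (hJ : J.map τ.toEmbedding = J) :
    Kc Ω q τ J * Kc Ω q τ Jᶜ = ∑ m ∈ (forests τ Finset.univ).filter (fun m => UB m J),
      if m J = 0 ∧ m Jᶜ = 0 then q ^ deg m * (gn q (nr m J - 1) * gn q (nr m Jᶜ - 1)) else 0 := by
  have hJc : (Jᶜ).map τ.toEmbedding = Jᶜ := by
    ext x
    rw [Finset.mem_map_equiv, Finset.mem_compl, Finset.mem_compl, not_iff_not]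
    conv_rhs => rw [← hJ]
    rw [Finset.mem_map_equiv]
  have hDD : ∀ b, DD J ((1 : Equiv.Perm Bool) b) = (DD J b).map τ.toEmbedding := by
    intro b
    cases b
    · exact hJc.symm
    · exact hJ.symm
  have hne : ∀ b, (DD J b).Nonempty := by
    intro b
    cases b
    · exact Finset.card_pos.mp (by change 0 < Jᶜ.card; omega)
    · exact Finset.card_pos.mp (by change 0 < J.card; omega)
  rw [kc_lw hs τ hJ2 hJ, kc_lw hs τ hJc2 hJc]
  have h1 : (∑ m ∈ forests τ J, lw q J m) * (∑ m ∈ forests τ Jᶜ, lw q Jᶜ m)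
      = ∏ b : Bool, ∑ m ∈ forests τ (DD J b), lw q (DD J b) m := by
    rw [Fintype.prod_bool]
    rfl
  rw [h1, Finset.prod_univ_sum]
  have h2 : ∑ s ∈ Fintype.piFinset (fun b => forests τ (DD J b)), ∏ b, lw q (DD J b) (s b)
      = ∑ s ∈ Fintype.piFinset (fun b => forests 1 (DD J b)),
        if ∀ b A, s ((1 : Equiv.Perm Bool) b) (A.map τ.toEmbedding) = s b A then
          (∏ b, lw q (DD J b) (s b)) else 0 := by
    rw [← Finset.sum_filter]
    refine Finset.sum_congr ?_ fun _ _ => rfl
    ext s
    rw [Finset.mem_filter, Fintype.mem_piFinset, Fintype.mem_piFinset]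
    constructor
    · intro h
      exact ⟨fun b => mem_forests.mpr ⟨(mem_forests.mp (h b)).1, inv_one _⟩,
        fun b A => (mem_forests.mp (h b)).2 A⟩
    · rintro ⟨h3, h4⟩ b
      exact mem_forests.mpr ⟨(mem_forests.mp (h3 b)).1, fun A => h4 b A⟩
  have h3 := forc_gen τ 1 Finset.univ (DD J) hne (DD_disj J) (DD_un J) hDD
    (fun s => ∏ b, lw q (DD J b) (s b))
  rw [h2]
  refine (Eq.trans ?_ h3).trans ?_
  · refine Finset.sum_congr ?_ fun s _ => ?_
    · ext s
      simp only [Fintype.mem_piFinset]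
    · split_ifs <;> rfl
  refine Finset.sum_congr (by ext m; simp only [Finset.mem_filter, UB_iff])
    fun m hm => ?_
  rw [Finset.mem_filter, mem_forests] at hm
  have hU : UB m J := hm.2
  rw [Fintype.prod_bool]
  change lw q J (rs m J) * lw q Jᶜ (rs m Jᶜ) = _
  unfold lw
  have e1 : rs m J J = m J := by unfold rs; rw [if_pos subset_rfl]
  have e2 : rs m Jᶜ Jᶜ = m Jᶜ := by unfold rs; rw [if_pos subset_rfl]
  have e3 : nr (rs m J) J = nr m J := by unfold nr; rw [roots_rs]
  have e4 : nr (rs m Jᶜ) Jᶜ = nr m Jᶜ := by unfold nr; rw [roots_rs]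
  rw [e1, e2, e3, e4, deg_split hm.1.1 hU, pow_add]
  by_cases h5 : m J = 0
  · by_cases h6 : m Jᶜ = 0
    · rw [if_pos h5, if_pos h6, if_pos ⟨h5, h6⟩]
      ring
    · rw [if_neg h6, mul_zero, if_neg (fun h : m J = 0 ∧ m Jᶜ = 0 => h6 h.2)]
  · rw [if_neg h5, zero_mul, if_neg (fun h : m J = 0 ∧ m Jᶜ = 0 => h5 h.1)]

lemma swap_case {Ω : Type} [Field Ω] {q : ℕ} (hs : Setup Ω (q ^ 2)) (τ : Equiv.Perm R)
    {J : Finset R} (hJ2 : 2 ≤ J.card) (hJc2 : 2 ≤ Jᶜ.card) (hJ : J.map τ.toEmbedding = Jᶜ) :
    Kc Ω (q ^ 2) (τ ^ 2) J = ∑ m ∈ (forests τ Finset.univ).filter (fun m => UB m J),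
      if m J = 0 ∧ m Jᶜ = 0 then q ^ deg m * gn (q ^ 2) (nr m J - 1) else 0 := by
  have hJc : (Jᶜ).map τ.toEmbedding = J := by
    ext x
    rw [Finset.mem_map_equiv, Finset.mem_compl]
    have h : x ∈ J ↔ x ∉ J.map τ.toEmbedding := by
      rw [hJ, Finset.mem_compl, not_not]
    rw [h, Finset.mem_map_equiv]
  have hJ22 : J.map (τ ^ 2).toEmbedding = J := by
    rw [pow_two, map_mulp, hJ, hJc]
  let sB : Equiv.Perm Bool := Equiv.boolNot
  have hDD : ∀ b, DD J (sB b) = (DD J b).map τ.toEmbedding := by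
    intro b
    cases b
    · exact hJc.symm
    · exact hJ.symm
  have hne : ∀ b, (DD J b).Nonempty := by
    intro b
    cases b
    · exact Finset.card_pos.mp (by change 0 < Jᶜ.card; omega)
    · exact Finset.card_pos.mp (by change 0 < J.card; omega)
  rw [kc_lw hs (τ ^ 2) hJ2 hJ22]
  have h2 : ∑ m ∈ forests (τ ^ 2) J, lw (q ^ 2) J m
      = ∑ s ∈ Fintype.piFinset (fun b => forests 1 (DD J b)),
        if ∀ b A, s (sB b) (A.map τ.toEmbedding) = s b A then
          lw (q ^ 2) J (s true) else 0 := by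
    rw [← Finset.sum_filter]
    refine Finset.sum_bij' (fun m _ => fun b => if b then m else mv τ m) (fun s _ => s true)
      ?_ ?_ ?_ ?_ ?_
    · intro m hm
      rw [mem_forests] at hm
      have hm2 : mv τ (mv τ m) = m := by
        rw [← mv_mul, ← pow_two]
        exact (mv_eq_iff _ _).mpr hm.2
      rw [Finset.mem_filter, Fintype.mem_piFinset]
      refine ⟨fun b => ?_, fun b A => ?_⟩
      · cases b
        · refine mem_forests.mpr ⟨?_, inv_one _⟩
          change IsForest Jᶜ (mv τ m)
          rw [← hJ]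
          exact isForest_mv τ hm.1
        · exact mem_forests.mpr ⟨hm.1, inv_one _⟩
      · cases b
        · change m (A.map τ.toEmbedding) = mv τ m A
          conv_lhs => rw [← hm2]
          exact mv_map τ _ A
        · change mv τ m (A.map τ.toEmbedding) = m A
          exact mv_map τ m A
    · intro s hs'
      rw [Finset.mem_filter, Fintype.mem_piFinset] at hs'
      refine mem_forests.mpr ⟨(mem_forests.mp (hs'.1 true)).1, fun A => ?_⟩
      rw [pow_two, map_mulp]
      have h3 := hs'.2 true A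
      have h4 := hs'.2 false (A.map τ.toEmbedding)
      exact h4.trans h3
    · intro m hm
      rfl
    · intro s hs'
      rw [Finset.mem_filter, Fintype.mem_piFinset] at hs'
      funext b
      cases b
      · change mv τ (s true) = s false
        funext A
        obtain ⟨A, rfl⟩ := exists_map τ A
        rw [mv_map]
        exact (hs'.2 true A).symm
      · rfl
    · intro m hm
      rfl
  have h3 := forc_gen τ sB Finset.univ (DD J) hne (DD_disj J) (DD_un J) hDD
    (fun s => lw (q ^ 2) J (s true))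
  rw [h2]
  refine (Eq.trans ?_ h3).trans ?_
  · refine Finset.sum_congr ?_ fun s _ => ?_
    · ext s
      simp only [Fintype.mem_piFinset]
    · split_ifs <;> rfl
  refine Finset.sum_congr (by ext m; simp only [Finset.mem_filter, UB_iff])
    fun m hm => ?_
  rw [Finset.mem_filter, mem_forests] at hm
  have hU : UB m J := hm.2
  change lw (q ^ 2) J (rs m J) = _
  unfold lw
  have e1 : rs m J J = m J := by unfold rs; rw [if_pos subset_rfl]
  have e3 : nr (rs m J) J = nr m J := by unfold nr; rw [roots_rs]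
  have e5 : m Jᶜ = m J := by rw [← hJ]; exact hm.1.2 J
  rw [e1, e3, deg_split hm.1.1 hU, deg_swap hm.1.2 hJ, ← two_mul, pow_mul]
  by_cases h5 : m J = 0
  · rw [if_pos h5, if_pos ⟨h5, e5.trans h5⟩]
  · rw [if_neg h5, if_neg (fun h : m J = 0 ∧ m Jᶜ = 0 => h5 h.1)]

end NEDGEaux

open NEDGEaux

theorem nedge {R : Type} [Fintype R] {Ω : Type} [Field Ω] {q : ℕ} (hs : Setup Ω q)
    (τ : Equiv.Perm R) (hR : 3 ≤ Fintype.card R) :
    (HalfSet Ω q τ).Finite ∧
    2 * ((HalfSet Ω q τ).ncard : ℤ) =
      ∑ m ∈ (forests τ Finset.univ).filter Small, (q : ℤ) ^ deg m * (contribE τ m).eval (q : ℤ) := by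
  have hne : Nonempty R := Fintype.card_pos_iff.mp (by omega)
  -- the right hand side
  have hrhs : ∑ m ∈ (forests τ Finset.univ).filter Small,
      (q : ℤ) ^ deg m * (contribE τ m).eval (q : ℤ)
      = ∑ J : Finset R, ∑ m ∈ (forests τ Finset.univ).filter (fun m => UB m J),
        (if Small m then ((q ^ deg m * ce q τ m J : ℕ) : ℤ) else 0) := by
    have h1 : ∀ J : Finset R, ∑ m ∈ (forests τ Finset.univ).filter (fun m => UB m J),
        (if Small m then ((q ^ deg m * ce q τ m J : ℕ) : ℤ) else 0)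
        = ∑ m ∈ (forests τ Finset.univ).filter Small,
          (q : ℤ) ^ deg m * (if UB m J then (ce q τ m J : ℤ) else 0) := by
      intro J
      rw [Finset.sum_filter, Finset.sum_filter]
      refine Finset.sum_congr rfl fun m _ => ?_
      by_cases h2 : Small m
      · by_cases h3 : UB m J
        · rw [if_pos h3, if_pos h2, if_pos h2, if_pos h3]
          push_cast
          rfl
        · rw [if_neg h3, if_pos h2, if_neg h3, mul_zero]
      · rw [if_neg h2, if_neg h2, ite_self]
    rw [Finset.sum_congr rfl (fun J _ => h1 J), Finset.sum_comm]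
    refine Finset.sum_congr rfl fun m hm => ?_
    rw [Finset.mem_filter, mem_forests] at hm
    rw [contribE_eval q τ hm.1.1 hm.1.2, Finset.mul_sum]
  rw [hrhs]
  by_cases h4 : 4 ≤ Fintype.card R
  · obtain ⟨h5, h6⟩ := edec hs τ h4 (fun J hJ d hd hJd => (kformula (hs.pow hd) (τ ^ d) J hJ hJd).1)
    refine ⟨h5, ?_⟩
    have h7 : 2 * ((HalfSet Ω q τ).ncard : ℤ) = ((2 * (HalfSet Ω q τ).ncard : ℕ) : ℤ) := by
      push_cast
      rfl
    rw [h7, h6]
    push_cast
    refine Finset.sum_congr rfl fun J _ => ?_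
    by_cases hJ : 2 * J.card = Fintype.card R
    · have hJ2 : 2 ≤ J.card := by omega
      have hJc2 : 2 ≤ Jᶜ.card := by
        rw [Finset.card_compl]
        omega
      rw [if_pos hJ]
      by_cases hst : J.map τ.toEmbedding = J
      · rw [if_pos hst]
        have h8 := stable_case hs τ hJ2 hJc2 hst
        have h9 : (Kc Ω q τ J : ℤ) * (Kc Ω q τ Jᶜ : ℤ) = ((Kc Ω q τ J * Kc Ω q τ Jᶜ : ℕ) : ℤ) := by
          push_cast
          rfl
        rw [h9, h8, Nat.cast_sum]
        refine Finset.sum_congr rfl fun m hm => ?_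
        rw [Finset.mem_filter, mem_forests] at hm
        have h10 := small_iff hm.1.1 hm.2 hJ hJ2
        unfold ce
        rw [if_pos hJ, if_pos hst]
        by_cases h11 : Small m
        · rw [if_pos h11, if_pos (h10.mp h11)]
          push_cast
          rfl
        · rw [if_neg h11, if_neg (fun h => h11 (h10.mpr h))]
          rfl
      · rw [if_neg hst]
        by_cases hsw : J.map τ.toEmbedding = Jᶜ
        · rw [if_pos hsw, swap_case (hs.pow (by norm_num : 1 ≤ 2)) τ hJ2 hJc2 hsw, Nat.cast_sum]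
          refine Finset.sum_congr rfl fun m hm => ?_
          rw [Finset.mem_filter, mem_forests] at hm
          have h10 := small_iff hm.1.1 hm.2 hJ hJ2
          unfold ce
          rw [if_pos hJ, if_neg hst, if_pos hsw]
          by_cases h11 : Small m
          · rw [if_pos h11, if_pos (h10.mp h11)]
            push_cast
            rfl
          · rw [if_neg h11, if_neg (fun h => h11 (h10.mpr h))]
            rfl
        · rw [if_neg hsw]
          symm
          refine Finset.sum_eq_zero fun m _ => ?_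
          unfold ce
          rw [if_pos hJ, if_neg hst, if_neg hsw, Nat.cast_zero, mul_zero, ite_self]
    · rw [if_neg hJ]
      symm
      refine Finset.sum_eq_zero fun m _ => ?_
      unfold ce
      rw [if_neg hJ, Nat.cast_zero, mul_zero, ite_self]
  · have h5 : HalfSet Ω q τ = ∅ := by
      rw [Set.eq_empty_iff_forall_notMem]
      rintro L ⟨-, i, -, j, -, k, -, -, a, -, h⟩
      omega
    rw [h5]
    refine ⟨Set.finite_empty, ?_⟩
    rw [Set.ncard_empty, Nat.cast_zero, mul_zero]
    symm
    refine Finset.sum_eq_zero fun J _ => Finset.sum_eq_zero fun m _ => ?_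
    unfold ce
    have h6 : ¬ 2 * J.card = Fintype.card R := by omega
    rw [if_neg h6, mul_zero, Nat.cast_zero, ite_self]

end Pool.Agent.Mbar
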