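import Mathlib
import Pool.Agent.Mbar.Defs
import Pool.Agent.Mbar.ONE
import Pool.Agent.Mbar.MAPA
import Pool.Agent.Mbar.MAPB

/-! # MAPC : equivariant maps all of whose fibres are small -/

noncomputable section

namespace Pool.Agent.Mbar

open OnePoint Polynomial

open scoped Classical

section MAPC

variable {Ω : Type} [Field Ω] {P : Type} [Fintype P]

namespace MapC

/-- rational points of the projective line -/
def ratPts (Ω : Type) [Field Ω] (q : ℕ) : Set (OnePoint Ω) :=
  {α | OnePoint.map (fun y => y ^ q) α = α}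

theorem ratPts_card {q : ℕ} (hs : Setup Ω q) :
    (ratPts Ω q).Finite ∧ (ratPts Ω q).ncard = q + 1 := by
  obtain ⟨hf, hc⟩ := card_fixed hs
  have heq : ratPts Ω q = insert ∞ ((fun x : Ω => (x : OnePoint Ω)) '' {x : Ω | x ^ q = x}) := by
    ext α
    unfold ratPts
    induction α using OnePoint.rec with
    | infty => simp
    | coe x =>
      simp only [Set.mem_ofPred_eq, OnePoint.map_some, OnePoint.coe_eq_coe, Set.mem_insert_iff,
        OnePoint.coe_ne_infty, Set.mem_image, exists_eq_right, false_or]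
  have hfin : ((fun x : Ω => (x : OnePoint Ω)) '' {x : Ω | x ^ q = x}).Finite := hf.image _
  rw [heq]
  refine ⟨hfin.insert _, ?_⟩
  rw [Set.ncard_insert_of_notMem _ hfin, Set.ncard_image_of_injective _ OnePoint.coe_injective, hc]
  rintro ⟨x, _, hx⟩
  exact OnePoint.coe_ne_infty x hx

theorem frm_injective {q : ℕ} (hs : Setup Ω q) :
    Function.Injective (OnePoint.map (fun y : Ω => y ^ q)) := (fr_bij hs).1

/-- `S` is the fibre over a rational point -/
def RS (q : ℕ) (S : Finset P) (ψ : P → OnePoint Ω) : Prop :=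
  ∃ α, OnePoint.map (fun y => y ^ q) α = α ∧ ∀ x, ψ x = α ↔ x ∈ S

/-- `S` and its complement are the fibres over rational points -/
def TS (q : ℕ) (S : Finset P) (ψ : P → OnePoint Ω) : Prop :=
  ∃ α β, OnePoint.map (fun y => y ^ q) α = α ∧ OnePoint.map (fun y => y ^ q) β = β ∧ α ≠ β ∧
    ∀ x, ψ x = if x ∈ S then α else β

/-- `S` and its complement are the fibres over conjugate points -/
def AS (q : ℕ) (S : Finset P) (ψ : P → OnePoint Ω) : Prop :=
  ∃ α, OnePoint.map (fun y => y ^ q) α ≠ α ∧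
    OnePoint.map (fun y => y ^ q) (OnePoint.map (fun y => y ^ q) α) = α ∧
    ∀ x, ψ x = if x ∈ S then α else OnePoint.map (fun y => y ^ q) α

omit [Fintype P] in
theorem mem_map_perm (σ : Equiv.Perm P) (S : Finset P) (x : P) :
    σ x ∈ S.map σ.toEmbedding ↔ x ∈ S := by
  simp

theorem count_RS {q : ℕ} (hs : Setup Ω q) (σ : Equiv.Perm P) (S : Finset P)
    (hS : S.map σ.toEmbedding = S) (hne : S.Nonempty) :
    {ψ | ψ ∈ EMaps Ω q σ ∧ RS q S ψ}.ncard = (q + 1) * q ^ (Fintype.card P - S.card) := by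
  rw [← (emaps_fibre hs σ S hS).2]
  obtain ⟨x0, hx0⟩ := hne
  symm
  have : {ψ | ψ ∈ EMaps Ω q σ ∧ RS q S ψ} = Prod.snd ''
      {ψ : OnePoint Ω × (P → OnePoint Ω) | OnePoint.map (fun y => y ^ q) ψ.1 = ψ.1 ∧
        ψ.2 ∈ EMaps Ω q σ ∧ ∀ x, ψ.2 x = ψ.1 ↔ x ∈ S} := by
    ext ψ
    constructor
    · rintro ⟨h1, α, h2, h3⟩
      exact ⟨(α, ψ), ⟨h2, h1, h3⟩, rfl⟩
    · rintro ⟨⟨α, ψ'⟩, ⟨h2, h1, h3⟩, rfl⟩
      exact ⟨h1, α, h2, h3⟩
  rw [this, Set.InjOn.ncard_image]
  rintro ⟨α, ψ⟩ ⟨_, _, h3⟩ ⟨β, ψ'⟩ ⟨_, _, h6⟩ h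
  simp only at h h3 h6
  subst h
  rw [Prod.mk.injEq]
  exact ⟨((h3 x0).mpr hx0).symm.trans ((h6 x0).mpr hx0), rfl⟩

theorem count_TS {q : ℕ} (hs : Setup Ω q) (σ : Equiv.Perm P) (S : Finset P)
    (hS : S.map σ.toEmbedding = S) (hne : S.Nonempty) (hne' : ∃ x, x ∉ S) :
    {ψ : P → OnePoint Ω | ψ ∈ EMaps Ω q σ ∧ TS q S ψ}.ncard = (q + 1) * q := by
  obtain ⟨x0, hx0⟩ := hne
  obtain ⟨x1, hx1⟩ := hne'
  obtain ⟨hf, hc⟩ := ratPts_card hs
  have hmem : ∀ x, σ x ∈ S ↔ x ∈ S := fun x => by
    conv_lhs => rw [← hS]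
    exact mem_map_perm σ S x
  have : {ψ : P → OnePoint Ω | ψ ∈ EMaps Ω q σ ∧ TS q S ψ} =
      (fun p : OnePoint Ω × OnePoint Ω => fun x : P => if x ∈ S then p.1 else p.2) ''
        (hf.toFinset.offDiag : Set (OnePoint Ω × OnePoint Ω)) := by
    ext ψ
    constructor
    · rintro ⟨_, α, β, h1, h2, h3, h4⟩
      refine ⟨(α, β), ?_, (funext h4).symm⟩
      rw [Finset.mem_coe, Finset.mem_offDiag, Set.Finite.mem_toFinset, Set.Finite.mem_toFinset]
      exact ⟨h1, h2, h3⟩
    · rintro ⟨⟨α, β⟩, hab, rfl⟩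
      rw [Finset.mem_coe, Finset.mem_offDiag, Set.Finite.mem_toFinset, Set.Finite.mem_toFinset] at hab
      refine ⟨fun x => ?_, α, β, hab.1, hab.2.1, hab.2.2, fun x => rfl⟩
      have h1 : OnePoint.map (fun y => y ^ q) α = α := hab.1
      have h2 : OnePoint.map (fun y => y ^ q) β = β := hab.2.1
      by_cases hx : x ∈ S
      · simp only [if_pos hx, if_pos ((hmem x).mpr hx), h1]
      · simp only [if_neg hx, if_neg (fun h => hx ((hmem x).mp h)), h2]
  rw [this, Set.InjOn.ncard_image, Set.ncard_coe_finset, Finset.offDiag_card,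
    ← Set.ncard_eq_toFinset_card _ hf, hc]
  · rw [Nat.mul_succ, Nat.add_sub_cancel]
  · rintro ⟨α, β⟩ _ ⟨α', β'⟩ _ h
    have h0 := congrFun h x0
    have h1 := congrFun h x1
    simp only [if_pos hx0, if_neg hx1] at h0 h1
    rw [h0, h1]

theorem count_AS {q : ℕ} (hs : Setup Ω q) (σ : Equiv.Perm P) (S : Finset P)
    (hS : S.map σ.toEmbedding = Sᶜ) (hne : S.Nonempty) :
    {ψ : P → OnePoint Ω | ψ ∈ EMaps Ω q σ ∧ AS q S ψ}.ncard = q ^ 2 - q := by
  obtain ⟨x0, hx0⟩ := hne
  obtain ⟨hf, hc⟩ := ratPts_card hs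
  obtain ⟨hf2, hc2⟩ := ratPts_card (hs.pow (d := 2) (by norm_num))
  have hmem : ∀ x, σ x ∈ S ↔ x ∉ S := fun x => by
    have h := mem_map_perm σ S x
    rw [hS, Finset.mem_compl] at h
    tauto
  have hff : ∀ α : OnePoint Ω, OnePoint.map (fun y => y ^ q) (OnePoint.map (fun y => y ^ q) α) =
      OnePoint.map (fun y => y ^ (q ^ 2)) α := by
    intro α
    induction α using OnePoint.rec with
    | infty => simp
    | coe x => simp only [OnePoint.map_some]; rw [← pow_mul, pow_two]
  have hsub : ratPts Ω q ⊆ ratPts Ω (q ^ 2) := by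
    intro α hα
    have hα' : OnePoint.map (fun y => y ^ q) α = α := hα
    change OnePoint.map (fun y => y ^ (q ^ 2)) α = α
    rw [← hff, hα', hα']
  have : {ψ : P → OnePoint Ω | ψ ∈ EMaps Ω q σ ∧ AS q S ψ} =
      (fun α : OnePoint Ω => fun x : P => if x ∈ S then α else OnePoint.map (fun y => y ^ q) α) ''
        (ratPts Ω (q ^ 2) \ ratPts Ω q) := by
    ext ψ
    constructor
    · rintro ⟨_, α, h1, h2, h4⟩
      refine ⟨α, ⟨?_, h1⟩, (funext h4).symm⟩
      change OnePoint.map (fun y => y ^ (q ^ 2)) α = α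
      rw [← hff]; exact h2
    · rintro ⟨α, ⟨h1, h2⟩, rfl⟩
      have h1' : OnePoint.map (fun y => y ^ q) (OnePoint.map (fun y => y ^ q) α) = α := by
        rw [hff]; exact h1
      refine ⟨fun x => ?_, α, h2, h1', fun x => rfl⟩
      by_cases hx : x ∈ S
      · simp only [if_pos hx, if_neg (fun h => (hmem x).mp h hx)]
      · simp only [if_neg hx, if_pos ((hmem x).mpr hx), h1']
  rw [this, Set.InjOn.ncard_image, Set.ncard_sdiff hsub hf, hc, hc2]
  · omega
  · intro α _ β _ h
    have h0 := congrFun h x0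
    simpa only [if_pos hx0] using h0

/-- the fibre of `ψ` through `x` -/
def fb (ψ : P → OnePoint Ω) (x : P) : Finset P := Finset.univ.filter (fun y => ψ y = ψ x)

omit [Field Ω] in
theorem mem_fb {ψ : P → OnePoint Ω} {x y : P} : y ∈ fb ψ x ↔ ψ y = ψ x := by
  unfold fb; simp

theorem self_mem_fb (ψ : P → OnePoint Ω) (x : P) : x ∈ fb ψ x := mem_fb.mpr rfl

theorem fb_eq_of {ψ : P → OnePoint Ω} {x y : P} (h : ψ x = ψ y) : fb ψ x = fb ψ y := by
  ext z; rw [mem_fb, mem_fb, h]

theorem map_fb {q : ℕ} (hs : Setup Ω q) {σ : Equiv.Perm P} {ψ : P → OnePoint Ω}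
    (hψ : ψ ∈ EMaps Ω q σ) (x : P) : (fb ψ x).map σ.toEmbedding = fb ψ (σ x) := by
  ext y
  obtain ⟨z, rfl⟩ := σ.surjective y
  rw [mem_map_perm, mem_fb, mem_fb, hψ z, hψ x]
  exact ⟨fun h => by rw [h], fun h => frm_injective hs h⟩

omit [Fintype P] in
theorem wt_map {σ : Equiv.Perm P} {w : P → ℕ} (hw : ∀ x, w (σ x) = w x) (S : Finset P) :
    wt w (S.map σ.toEmbedding) = wt w S := by
  unfold wt
  rw [Finset.sum_map]
  exact Finset.sum_congr rfl fun x _ => hw x

theorem wt_compl (w : P → ℕ) (S : Finset P) : wt w S + wt w Sᶜ = wt w Finset.univ :=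
  Finset.sum_add_sum_compl S w

theorem RS_iff {q : ℕ} {S : Finset P} {ψ : P → OnePoint Ω} (hne : S.Nonempty) :
    RS q S ψ ↔ ∃ x, S = fb ψ x ∧ OnePoint.map (fun y => y ^ q) (ψ x) = ψ x := by
  constructor
  · rintro ⟨α, h1, h2⟩
    obtain ⟨x, hx⟩ := hne
    have hxα : ψ x = α := (h2 x).mpr hx
    refine ⟨x, ?_, by rw [hxα]; exact h1⟩
    ext y
    rw [mem_fb, hxα]; exact (h2 y).symm
  · rintro ⟨x, rfl, h⟩
    exact ⟨ψ x, h, fun y => mem_fb.symm⟩

theorem TS_iff {q : ℕ} {S : Finset P} {ψ : P → OnePoint Ω} (hne : S.Nonempty)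
    (hne' : Sᶜ.Nonempty) :
    TS q S ψ ↔ ∃ x y, ψ x ≠ ψ y ∧ S = fb ψ x ∧ Sᶜ = fb ψ y ∧
      OnePoint.map (fun y => y ^ q) (ψ x) = ψ x ∧ OnePoint.map (fun y => y ^ q) (ψ y) = ψ y := by
  constructor
  · rintro ⟨α, β, h1, h2, h3, h4⟩
    obtain ⟨x, hx⟩ := hne
    obtain ⟨y, hy⟩ := hne'
    rw [Finset.mem_compl] at hy
    have hxα : ψ x = α := by rw [h4 x, if_pos hx]
    have hyβ : ψ y = β := by rw [h4 y, if_neg hy]
    refine ⟨x, y, by rw [hxα, hyβ]; exact h3, ?_, ?_, by rw [hxα, h1], by rw [hyβ, h2]⟩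
    · ext z
      rw [mem_fb, hxα, h4 z]
      by_cases hz : z ∈ S
      · simp [hz]
      · simp [hz, h3.symm]
    · ext z
      rw [mem_fb, hyβ, h4 z, Finset.mem_compl]
      by_cases hz : z ∈ S
      · simp [hz, h3]
      · simp [hz]
  · rintro ⟨x, y, hxy, hS, hS', h1, h2⟩
    refine ⟨ψ x, ψ y, h1, h2, hxy, fun z => ?_⟩
    by_cases hz : z ∈ S
    · rw [if_pos hz]; rw [hS] at hz; exact mem_fb.mp hz
    · rw [if_neg hz]; rw [← Finset.mem_compl, hS'] at hz; exact mem_fb.mp hz

theorem AS_iff {q : ℕ} {S : Finset P} {ψ : P → OnePoint Ω} (hne : S.Nonempty)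
    (hne' : Sᶜ.Nonempty) :
    AS q S ψ ↔ ∃ x y, ψ x ≠ ψ y ∧ S = fb ψ x ∧ Sᶜ = fb ψ y ∧
      OnePoint.map (fun y => y ^ q) (ψ x) = ψ y ∧ OnePoint.map (fun y => y ^ q) (ψ y) = ψ x := by
  constructor
  · rintro ⟨α, h1, h2, h4⟩
    obtain ⟨x, hx⟩ := hne
    obtain ⟨y, hy⟩ := hne'
    rw [Finset.mem_compl] at hy
    have hxα : ψ x = α := by rw [h4 x, if_pos hx]
    have hyβ : ψ y = OnePoint.map (fun y => y ^ q) α := by rw [h4 y, if_neg hy]
    refine ⟨x, y, by rw [hxα, hyβ]; exact h1.symm, ?_, ?_, by rw [hxα, hyβ], by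
      rw [hyβ, h2, hxα]⟩
    · ext z
      rw [mem_fb, hxα, h4 z]
      by_cases hz : z ∈ S
      · simp [hz]
      · simp [hz, h1]
    · ext z
      rw [mem_fb, hyβ, h4 z, Finset.mem_compl]
      by_cases hz : z ∈ S
      · simp [hz, h1.symm]
      · simp [hz]
  · rintro ⟨x, y, hxy, hS, hS', h1, h2⟩
    refine ⟨ψ x, by rw [h1]; exact hxy.symm, by rw [h1, h2], fun z => ?_⟩
    by_cases hz : z ∈ S
    · rw [if_pos hz]; rw [hS] at hz; exact mem_fb.mp hz
    · rw [if_neg hz, h1]; rw [← Finset.mem_compl, hS'] at hz; exact mem_fb.mp hz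

/-- the pointwise identity -/
theorem pointwise {q : ℕ} (hs : Setup Ω q) {σ : Equiv.Perm P} {w : P → ℕ}
    (hw : ∀ x, w (σ x) = w x) (hw0 : ∀ x, 0 < w x) [Nonempty P] {ψ : P → OnePoint Ω}
    (hψ : ψ ∈ EMaps Ω q σ) :
    2 * (if (∀ x, 2 * wt w (Finset.univ.filter (fun y => ψ y = ψ x)) < wt w Finset.univ)
        then (1 : ℤ) else 0) =
      2 - 2 * (((((stab σ).filter (fun S => wt w Finset.univ ≤ 2 * wt w S)).filter
          (fun S => RS q S ψ)).card : ℕ) : ℤ)
        + ((((stab σ).filter (fun S => 2 * wt w S = wt w Finset.univ)).filter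
          (fun S => TS q S ψ)).card : ℕ)
        - ((((anti σ).filter (fun S => 2 * wt w S = wt w Finset.univ)).filter
          (fun S => AS q S ψ)).card : ℕ) := by
  have hW : 0 < wt w Finset.univ := by
    obtain ⟨x⟩ := ‹Nonempty P›
    have := Finset.single_le_sum (f := w) (fun i _ => Nat.zero_le _) (Finset.mem_univ x)
    have := hw0 x
    unfold wt
    omega
  -- non-emptiness
  have hne : ∀ S : Finset P, wt w Finset.univ ≤ 2 * wt w S → S.Nonempty := by
    intro S hS
    rw [Finset.nonempty_iff_ne_empty]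
    rintro rfl
    unfold wt at hS hW
    simp only [Finset.sum_empty] at hS
    omega
  have hne' : ∀ S : Finset P, 2 * wt w S = wt w Finset.univ → S.Nonempty ∧ Sᶜ.Nonempty := by
    intro S hS
    have h1 := wt_compl w S
    exact ⟨hne S hS.ge, hne _ (by omega)⟩
  have hfbw : ∀ x, wt w (fb ψ (σ x)) = wt w (fb ψ x) := fun x => by
    rw [← map_fb hs hψ, wt_map hw]
  change 2 * (if (∀ x, 2 * wt w (fb ψ x) < wt w Finset.univ) then (1 : ℤ) else 0) = _
  by_cases hsmall : ∀ x, 2 * wt w (fb ψ x) < wt w Finset.univ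
  · -- all fibres are small
    have e1 : ((stab σ).filter (fun S => wt w Finset.univ ≤ 2 * wt w S)).filter
        (fun S => RS q S ψ) = ∅ := by
      rw [Finset.filter_eq_empty_iff]
      intro S hS hR
      rw [Finset.mem_filter] at hS
      obtain ⟨x, rfl, _⟩ := (RS_iff (hne S hS.2)).mp hR
      have := hsmall x
      omega
    have e2 : ((stab σ).filter (fun S => 2 * wt w S = wt w Finset.univ)).filter
        (fun S => TS q S ψ) = ∅ := by
      rw [Finset.filter_eq_empty_iff]
      intro S hS hR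
      rw [Finset.mem_filter] at hS
      obtain ⟨x, y, _, rfl, _⟩ := (TS_iff (hne' S hS.2).1 (hne' S hS.2).2).mp hR
      have := hsmall x
      omega
    have e3 : ((anti σ).filter (fun S => 2 * wt w S = wt w Finset.univ)).filter
        (fun S => AS q S ψ) = ∅ := by
      rw [Finset.filter_eq_empty_iff]
      intro S hS hR
      rw [Finset.mem_filter] at hS
      obtain ⟨x, y, _, rfl, _⟩ := (AS_iff (hne' S hS.2).1 (hne' S hS.2).2).mp hR
      have := hsmall x
      omega
    rw [if_pos hsmall, e1, e2, e3]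
    simp
  · rw [if_neg hsmall]
    push Not at hsmall
    obtain ⟨x, hx⟩ := hsmall
    -- the weights of two different fibres
    have htwo : ∀ a b, ψ a ≠ ψ b → wt w Finset.univ ≤ 2 * wt w (fb ψ a) →
        wt w Finset.univ ≤ 2 * wt w (fb ψ b) → (fb ψ a)ᶜ = fb ψ b ∧
          2 * wt w (fb ψ a) = wt w Finset.univ ∧ 2 * wt w (fb ψ b) = wt w Finset.univ := by
      intro a b hab ha hb
      have h1 := wt_compl w (fb ψ a)
      have hsub : fb ψ b ⊆ (fb ψ a)ᶜ := by
        intro z hz
        rw [Finset.mem_compl, mem_fb]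
        rw [mem_fb] at hz
        intro h
        exact hab (h.symm.trans hz)
      have h2 : wt w (fb ψ b) + wt w ((fb ψ a)ᶜ \ fb ψ b) = wt w (fb ψ a)ᶜ := by
        unfold wt
        rw [add_comm]
        exact Finset.sum_sdiff hsub
      have h3 : wt w ((fb ψ a)ᶜ \ fb ψ b) = 0 := by omega
      have h4 : (fb ψ a)ᶜ \ fb ψ b = ∅ := by
        by_contra hcon
        obtain ⟨z, hz⟩ := Finset.nonempty_iff_ne_empty.mpr hcon
        have := Finset.single_le_sum (f := w) (fun i _ => Nat.zero_le _) hz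
        have h5 := hw0 z
        unfold wt at h3
        omega
      refine ⟨Finset.Subset.antisymm (Finset.sdiff_eq_empty_iff_subset.mp h4) hsub, ?_, ?_⟩ <;> omega
    by_cases hy : ∃ y, ψ x ≠ ψ y ∧ wt w Finset.univ ≤ 2 * wt w (fb ψ y)
    · -- two fibres of half weight
      obtain ⟨y, hxy, hyw⟩ := hy
      obtain ⟨hc, hwx, hwy⟩ := htwo x y hxy hx hyw
      have hc' : (fb ψ y)ᶜ = fb ψ x := by rw [← hc, compl_compl]
      have hval : ∀ z, ψ z = ψ x ∨ ψ z = ψ y := by
        intro z
        by_cases h : z ∈ fb ψ x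
        · exact Or.inl (mem_fb.mp h)
        · rw [← Finset.mem_compl, hc] at h
          exact Or.inr (mem_fb.mp h)
      have hfb : ∀ z, fb ψ z = fb ψ x ∨ fb ψ z = fb ψ y := fun z =>
        (hval z).imp fb_eq_of fb_eq_of
      have hxy' : fb ψ x ≠ fb ψ y := by
        intro h
        have := self_mem_fb ψ x
        rw [h] at this
        exact hxy (mem_fb.mp this)
      have hpair : ((({fb ψ x, fb ψ y} : Finset (Finset P)).card : ℕ) : ℤ) = 2 := by
        rw [Finset.card_pair hxy']; norm_num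
      have hσx : ψ (σ x) = OnePoint.map (fun y => y ^ q) (ψ x) := hψ x
      have hσy : ψ (σ y) = OnePoint.map (fun y => y ^ q) (ψ y) := hψ y
      rcases hval (σ x) with h | h
      · -- rational values
        have hx1 : OnePoint.map (fun y => y ^ q) (ψ x) = ψ x := hσx.symm.trans h
        have hy1 : OnePoint.map (fun y => y ^ q) (ψ y) = ψ y := by
          rcases hval (σ y) with h' | h'
          · exfalso
            exact hxy (frm_injective hs (hx1.trans (h'.symm.trans hσy)))
          · exact hσy.symm.trans h'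
        have hsx : (fb ψ x).map σ.toEmbedding = fb ψ x := by
          rw [map_fb hs hψ]; exact fb_eq_of h
        have hsy : (fb ψ y).map σ.toEmbedding = fb ψ y := by
          rw [map_fb hs hψ]; exact fb_eq_of (hσy.trans hy1)
        have e1 : ((stab σ).filter (fun S => wt w Finset.univ ≤ 2 * wt w S)).filter
            (fun S => RS q S ψ) = {fb ψ x, fb ψ y} := by
          ext S
          rw [Finset.mem_filter, Finset.mem_filter, Finset.mem_insert, Finset.mem_singleton]
          constructor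
          · rintro ⟨⟨_, h2⟩, h3⟩
            obtain ⟨z, rfl, _⟩ := (RS_iff (hne S h2)).mp h3
            exact hfb z
          · rintro (rfl | rfl)
            · exact ⟨⟨by unfold stab; simpa using hsx, hx⟩, (RS_iff (hne _ hx)).mpr ⟨x, rfl, hx1⟩⟩
            · exact ⟨⟨by unfold stab; simpa using hsy, hyw⟩, (RS_iff (hne _ hyw)).mpr ⟨y, rfl, hy1⟩⟩
        have e2 : ((stab σ).filter (fun S => 2 * wt w S = wt w Finset.univ)).filter
            (fun S => TS q S ψ) = {fb ψ x, fb ψ y} := by
          ext S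
          rw [Finset.mem_filter, Finset.mem_filter, Finset.mem_insert, Finset.mem_singleton]
          constructor
          · rintro ⟨⟨_, h2⟩, h3⟩
            obtain ⟨z, _, _, rfl, _⟩ := (TS_iff (hne' S h2).1 (hne' S h2).2).mp h3
            exact hfb z
          · rintro (rfl | rfl)
            · exact ⟨⟨by unfold stab; simpa using hsx, hwx⟩,
                (TS_iff (hne' _ hwx).1 (hne' _ hwx).2).mpr ⟨x, y, hxy, rfl, hc, hx1, hy1⟩⟩
            · exact ⟨⟨by unfold stab; simpa using hsy, hwy⟩,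
                (TS_iff (hne' _ hwy).1 (hne' _ hwy).2).mpr ⟨y, x, hxy.symm, rfl, hc', hy1, hx1⟩⟩
        have e3 : ((anti σ).filter (fun S => 2 * wt w S = wt w Finset.univ)).filter
            (fun S => AS q S ψ) = ∅ := by
          rw [Finset.filter_eq_empty_iff]
          intro S hS hR
          rw [Finset.mem_filter] at hS
          obtain ⟨z, z', hzz, rfl, _, h5, _⟩ := (AS_iff (hne' S hS.2).1 (hne' S hS.2).2).mp hR
          rcases hval z with hz | hz
          · rw [hz, hx1] at h5; exact hzz (by rw [hz, h5])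
          · rw [hz, hy1] at h5; exact hzz (by rw [hz, h5])
        rw [e1, e2, e3, hpair]
        simp
      · -- conjugate values
        have hx1 : OnePoint.map (fun y => y ^ q) (ψ x) = ψ y := hσx.symm.trans h
        have hy1 : OnePoint.map (fun y => y ^ q) (ψ y) = ψ x := by
          rcases hval (σ y) with h' | h'
          · exact hσy.symm.trans h'
          · exfalso
            exact hxy (frm_injective hs (hx1.trans (h'.symm.trans hσy)))
        have hsx : (fb ψ x).map σ.toEmbedding = (fb ψ x)ᶜ := by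
          rw [map_fb hs hψ, hc]; exact fb_eq_of h
        have hsy : (fb ψ y).map σ.toEmbedding = (fb ψ y)ᶜ := by
          rw [map_fb hs hψ, hc']; exact fb_eq_of (hσy.trans hy1)
        have e1 : ((stab σ).filter (fun S => wt w Finset.univ ≤ 2 * wt w S)).filter
            (fun S => RS q S ψ) = ∅ := by
          rw [Finset.filter_eq_empty_iff]
          intro S hS hR
          rw [Finset.mem_filter] at hS
          obtain ⟨z, rfl, h5⟩ := (RS_iff (hne S hS.2)).mp hR
          rcases hval z with hz | hz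
          · rw [hz, hx1] at h5; exact hxy h5.symm
          · rw [hz, hy1] at h5; exact hxy h5
        have e2 : ((stab σ).filter (fun S => 2 * wt w S = wt w Finset.univ)).filter
            (fun S => TS q S ψ) = ∅ := by
          rw [Finset.filter_eq_empty_iff]
          intro S hS hR
          rw [Finset.mem_filter] at hS
          obtain ⟨z, z', hzz, rfl, _, h5, _⟩ := (TS_iff (hne' S hS.2).1 (hne' S hS.2).2).mp hR
          rcases hval z with hz | hz
          · rw [hz, hx1] at h5; exact hxy h5.symm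
          · rw [hz, hy1] at h5; exact hxy h5
        have e3 : ((anti σ).filter (fun S => 2 * wt w S = wt w Finset.univ)).filter
            (fun S => AS q S ψ) = {fb ψ x, fb ψ y} := by
          ext S
          rw [Finset.mem_filter, Finset.mem_filter, Finset.mem_insert, Finset.mem_singleton]
          constructor
          · rintro ⟨⟨_, h2⟩, h3⟩
            obtain ⟨z, _, _, rfl, _⟩ := (AS_iff (hne' S h2).1 (hne' S h2).2).mp h3
            exact hfb z
          · rintro (rfl | rfl)
            · exact ⟨⟨by unfold anti; simpa using hsx, hwx⟩,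
                (AS_iff (hne' _ hwx).1 (hne' _ hwx).2).mpr ⟨x, y, hxy, rfl, hc, hx1, hy1⟩⟩
            · exact ⟨⟨by unfold anti; simpa using hsy, hwy⟩,
                (AS_iff (hne' _ hwy).1 (hne' _ hwy).2).mpr ⟨y, x, hxy.symm, rfl, hc', hy1, hx1⟩⟩
        rw [e1, e2, e3, hpair]
        simp
    · -- one big fibre
      push Not at hy
      have huniq : ∀ z, wt w Finset.univ ≤ 2 * wt w (fb ψ z) → ψ x = ψ z := by
        intro z hz
        by_contra hne
        have := hy z hne
        omega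
      have hx1 : OnePoint.map (fun y => y ^ q) (ψ x) = ψ x := by
        rw [← hψ x]
        exact (huniq (σ x) (by rw [hfbw]; exact hx)).symm
      have hsx : (fb ψ x).map σ.toEmbedding = fb ψ x := by
        rw [map_fb hs hψ]; exact fb_eq_of ((hψ x).trans hx1)
      have e1 : ((stab σ).filter (fun S => wt w Finset.univ ≤ 2 * wt w S)).filter
          (fun S => RS q S ψ) = {fb ψ x} := by
        ext S
        rw [Finset.mem_filter, Finset.mem_filter, Finset.mem_singleton]
        constructor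
        · rintro ⟨⟨_, h2⟩, h3⟩
          obtain ⟨z, rfl, _⟩ := (RS_iff (hne S h2)).mp h3
          exact (fb_eq_of (huniq z h2)).symm
        · rintro rfl
          exact ⟨⟨by unfold stab; simpa using hsx, hx⟩, (RS_iff (hne _ hx)).mpr ⟨x, rfl, hx1⟩⟩
      have hno : ∀ S : Finset P, 2 * wt w S = wt w Finset.univ → ∀ z z', ψ z ≠ ψ z' →
          S = fb ψ z → Sᶜ = fb ψ z' → False := by
        intro S hS z z' hzz h1 h2
        have h3 := wt_compl w S
        rw [h2] at h3
        rw [h1] at hS h3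
        exact hzz ((huniq z hS.ge).symm.trans (huniq z' (by omega)))
      have e2 : ((stab σ).filter (fun S => 2 * wt w S = wt w Finset.univ)).filter
          (fun S => TS q S ψ) = ∅ := by
        rw [Finset.filter_eq_empty_iff]
        intro S hS hR
        rw [Finset.mem_filter] at hS
        obtain ⟨z, z', hzz, h5, h6, _⟩ := (TS_iff (hne' S hS.2).1 (hne' S hS.2).2).mp hR
        exact hno S hS.2 z z' hzz h5 h6
      have e3 : ((anti σ).filter (fun S => 2 * wt w S = wt w Finset.univ)).filter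
          (fun S => AS q S ψ) = ∅ := by
        rw [Finset.filter_eq_empty_iff]
        intro S hS hR
        rw [Finset.mem_filter] at hS
        obtain ⟨z, z', hzz, h5, h6, _⟩ := (AS_iff (hne' S hS.2).1 (hne' S hS.2).2).mp hR
        exact hno S hS.2 z z' hzz h5 h6
      rw [e1, e2, e3]
      simp

/-- double counting -/
theorem double_count {α β : Type} (E : Finset α) (T : Finset β) (r : β → α → Prop) :
    ∑ a ∈ E, (((T.filter (fun b => r b a)).card : ℕ) : ℤ) =
      ∑ b ∈ T, (((E.filter (fun a => r b a)).card : ℕ) : ℤ) := by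
  simp only [Finset.card_filter, Nat.cast_sum]
  rw [Finset.sum_comm]

end MapC

open MapC in
/-- equivariant maps all of whose fibres have less than half of the total weight -/
theorem emaps_small {q : ℕ} (hs : Setup Ω q) (σ : Equiv.Perm P) (w : P → ℕ)
    (hw : ∀ x, w (σ x) = w x) (hw0 : ∀ x, 0 < w x) [Nonempty P] :
    2 * (({ψ | ψ ∈ EMaps Ω q σ ∧ ∀ x, 2 * wt w (Finset.univ.filter (fun y => ψ y = ψ x)) <
      wt w Finset.univ}.ncard : ℕ) : ℤ) = (numV σ w).eval (q : ℤ) := by
  obtain ⟨hf, hc⟩ := emaps_all hs σ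
  have hW : 0 < wt w Finset.univ := by
    obtain ⟨x⟩ := ‹Nonempty P›
    have := Finset.single_le_sum (f := w) (fun i _ => Nat.zero_le _) (Finset.mem_univ x)
    have := hw0 x
    unfold wt
    omega
  have hne : ∀ S : Finset P, wt w Finset.univ ≤ 2 * wt w S → S.Nonempty := by
    intro S hS
    rw [Finset.nonempty_iff_ne_empty]
    rintro rfl
    unfold wt at hS hW
    simp only [Finset.sum_empty] at hS
    omega
  set E : Finset (P → OnePoint Ω) := hf.toFinset with hE
  have hmemE : ∀ ψ, ψ ∈ E ↔ ψ ∈ EMaps Ω q σ := fun ψ => by rw [hE, Set.Finite.mem_toFinset]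
  have hEc : E.card = ∑ S ∈ stab σ, q ^ S.card := by
    rw [← hc, Set.ncard_eq_toFinset_card _ hf]
  have hcard : ∀ p : (P → OnePoint Ω) → Prop,
      {ψ | ψ ∈ EMaps Ω q σ ∧ p ψ}.ncard = (E.filter p).card := by
    intro p
    rw [← Set.ncard_coe_finset]
    congr 1
    ext ψ
    simp only [Set.mem_ofPred_eq, Finset.coe_filter, hmemE]
  have hsum := Finset.sum_congr rfl (fun ψ (h : ψ ∈ E) =>
    pointwise hs hw hw0 ((hmemE ψ).mp h))
  rw [← Finset.mul_sum, Finset.sum_boole] at hsum
  rw [hcard]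
  refine Eq.trans (by congr!) (hsum.trans ?_)
  rw [Finset.sum_sub_distrib, Finset.sum_add_distrib, Finset.sum_sub_distrib, ← Finset.mul_sum,
    double_count E _ (fun S ψ => RS q S ψ), double_count E _ (fun S ψ => TS q S ψ),
    double_count E _ (fun S ψ => AS q S ψ), Finset.sum_const, hEc]
  have e1 : ∑ S ∈ (stab σ).filter (fun S => wt w Finset.univ ≤ 2 * wt w S),
      (((E.filter (fun ψ => RS q S ψ)).card : ℕ) : ℤ) =
      ((q : ℤ) + 1) * ∑ S ∈ (stab σ).filter (fun S => wt w Finset.univ ≤ 2 * wt w S),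
        (q : ℤ) ^ (Fintype.card P - S.card) := by
    rw [Finset.mul_sum]
    refine Finset.sum_congr rfl fun S hS => ?_
    rw [Finset.mem_filter] at hS
    have hS1 : S.map σ.toEmbedding = S := by
      have := hS.1
      unfold stab at this
      simpa using this
    rw [← hcard, count_RS hs σ S hS1 (hne S hS.2)]
    push_cast
    ring
  have hne' : ∀ S : Finset P, 2 * wt w S = wt w Finset.univ → S.Nonempty ∧ Sᶜ.Nonempty := by
    intro S hS
    have h1 := wt_compl w S
    exact ⟨hne S hS.ge, hne _ (by omega)⟩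
  have e2 : ∑ S ∈ (stab σ).filter (fun S => 2 * wt w S = wt w Finset.univ),
      (((E.filter (fun ψ => TS q S ψ)).card : ℕ) : ℤ) =
      ((q : ℤ) ^ 2 + q) *
        (((stab σ).filter (fun S => 2 * wt w S = wt w Finset.univ)).card : ℤ) := by
    rw [mul_comm, ← nsmul_eq_mul, ← Finset.sum_const]
    refine Finset.sum_congr rfl fun S hS => ?_
    rw [Finset.mem_filter] at hS
    have hS1 : S.map σ.toEmbedding = S := by
      have := hS.1
      unfold stab at this
      simpa using this
    obtain ⟨y, hy⟩ := (hne' S hS.2).2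
    rw [← hcard, count_TS hs σ S hS1 (hne' S hS.2).1 ⟨y, Finset.mem_compl.mp hy⟩]
    push_cast
    ring
  have e3 : ∑ S ∈ (anti σ).filter (fun S => 2 * wt w S = wt w Finset.univ),
      (((E.filter (fun ψ => AS q S ψ)).card : ℕ) : ℤ) =
      ((q : ℤ) ^ 2 - q) *
        (((anti σ).filter (fun S => 2 * wt w S = wt w Finset.univ)).card : ℤ) := by
    rw [mul_comm, ← nsmul_eq_mul, ← Finset.sum_const]
    refine Finset.sum_congr rfl fun S hS => ?_
    rw [Finset.mem_filter] at hS
    have hS1 : S.map σ.toEmbedding = Sᶜ := by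
      have := hS.1
      unfold anti at this
      simpa using this
    rw [← hcard, count_AS hs σ S hS1 (hne' S hS.2).1]
    have h1 := hs.one_lt
    have h2 : q ≤ q ^ 2 := by nlinarith
    push_cast [h2]
    ring
  rw [e1, e2, e3]
  unfold numV
  simp only [Polynomial.eval_add, Polynomial.eval_sub, Polynomial.eval_mul, Polynomial.eval_pow,
    Polynomial.eval_X, Polynomial.eval_finsetSum, Polynomial.eval_one, Polynomial.eval_natCast,
    Polynomial.eval_ofNat, nsmul_eq_mul]
  push_cast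
  ring

end MAPC

end Pool.Agent.Mbar
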