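import Mathlib
import Pool.Agent.Mbar.Defs
import Pool.Agent.Mbar.ONE
import Pool.Agent.Mbar.DLEM
import Pool.Agent.Mbar.CENTROID
import Pool.Agent.Mbar.TORSOR
import Pool.Agent.Mbar.FORA
import Pool.Agent.Mbar.RMAP
import Pool.Agent.Mbar.MAPA
import Pool.Agent.Mbar.MAPC
import Pool.Agent.Mbar.VCOUNT
import Pool.Agent.Mbar.KTHM

/-! # NVERT: the systems without a half block, counted through the coordinates of the centre -/

noncomputable section

namespace Pool.Agent.Mbar

namespace NV

open OnePoint Polynomial Pool.Agent.Mbar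

open scoped Classical

/-! ### counting lemmas -/

theorem ncard_fiber {α β : Type} (P : Set (α × β)) {Y : Set β} (hY : Y.Finite)
    (h1 : ∀ p ∈ P, p.2 ∈ Y) (h2 : ∀ b ∈ Y, {a | (a, b) ∈ P}.Finite) :
    P.Finite ∧ P.ncard = ∑ b ∈ hY.toFinset, {a | (a, b) ∈ P}.ncard := by
  have hP : P = ⋃ b ∈ Y, (fun a => (a, b)) '' {a | (a, b) ∈ P} := by
    ext ⟨a, b⟩
    simp only [Set.mem_iUnion, Set.mem_image, Set.mem_setOf_eq, Prod.mk.injEq]
    constructor
    · intro h
      exact ⟨b, h1 _ h, a, h, rfl, rfl⟩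
    · rintro ⟨b', _, a', h, rfl, rfl⟩
      exact h
  have hfin : P.Finite := by
    rw [hP]
    exact hY.biUnion fun b hb => (h2 b hb).image _
  refine ⟨hfin, ?_⟩
  rw [Set.ncard_eq_toFinset_card P hfin,
    Finset.card_eq_sum_card_fiberwise (f := fun p : α × β => p.2) (t := hY.toFinset)
      (fun p hp => by
        rw [Finset.mem_coe, Set.Finite.mem_toFinset] at hp ⊢
        exact h1 p hp)]
  refine Finset.sum_congr rfl fun b hb => ?_
  rw [Set.Finite.mem_toFinset] at hb
  have h3 : (hfin.toFinset.filter (fun p : α × β => p.2 = b))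
      = (h2 b hb).toFinset.image (fun a => (a, b)) := by
    ext ⟨a, b'⟩
    simp only [Finset.mem_filter, Set.Finite.mem_toFinset, Finset.mem_image, Set.mem_setOf_eq,
      Prod.mk.injEq]
    constructor
    · rintro ⟨h, rfl⟩
      exact ⟨a, h, rfl, rfl⟩
    · rintro ⟨a', h, rfl, rfl⟩
      exact ⟨h, rfl⟩
  rw [h3, Finset.card_image_of_injective _ (fun a a' h => (Prod.mk.injEq _ _ _ _ ▸ h).1),
    Set.ncard_eq_toFinset_card _ (h2 b hb)]

/-- all fibres of `P` over `X` have the same number of elements -/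
theorem ncard_const {α β : Type} (P : Set (α × β)) (hP : P.Finite) {X : Set α} {N : ℕ} (hN : 0 < N)
    (h1 : ∀ p ∈ P, p.1 ∈ X) (h2 : ∀ a ∈ X, {b | (a, b) ∈ P}.ncard = N) :
    X.Finite ∧ P.ncard = X.ncard * N := by
  have hX : X.Finite := by
    refine (hP.image Prod.fst).subset fun a ha => ?_
    have h3 : {b | (a, b) ∈ P}.Nonempty := by
      by_contra h
      rw [Set.not_nonempty_iff_eq_empty] at h
      have := h2 a ha
      rw [h, Set.ncard_empty] at this
      omega
    obtain ⟨b, hb⟩ := h3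
    exact ⟨(a, b), hb, rfl⟩
  refine ⟨hX, ?_⟩
  have hswap : P.ncard = (Prod.swap '' P).ncard :=
    (Set.ncard_image_of_injective _ Prod.swap_injective).symm
  have h4 := ncard_fiber (Prod.swap '' P) hX
    (by
      rintro _ ⟨p, hp, rfl⟩
      exact h1 p hp)
    (fun a _ => by
      refine ((hP.image Prod.snd).subset fun b hb => ?_)
      obtain ⟨p, hp, hp'⟩ := hb
      refine ⟨p, hp, ?_⟩
      have := congrArg Prod.fst hp'
      exact this)
  rw [hswap, h4.2, Set.ncard_eq_toFinset_card X hX, ← smul_eq_mul, ← Finset.sum_const]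
  refine Finset.sum_congr rfl fun a ha => ?_
  rw [Set.Finite.mem_toFinset] at ha
  rw [← h2 a ha]
  congr 1
  ext b
  constructor
  · rintro ⟨p, hp, hp'⟩
    have h5 : p = (a, b) := Prod.swap_injective (hp'.trans rfl)
    rw [h5] at hp
    exact hp
  · intro hb
    exact ⟨(a, b), hb, rfl⟩

/-! ### coordinates of the centre -/

section centre

variable {Ω : Type} [Field Ω] {V : Type} {S : Finset V} {L : V → V → V → V → OnePoint Ω}

/-- all fibres of `φ` have less than half of the labels -/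
def SmallFib (S : Finset V) (φ : V → OnePoint Ω) : Prop :=
  ∀ a ∈ S, 2 * (S.filter (fun x => φ x = φ a)).card < S.card

theorem smallFib_sim {φ ψ : V → OnePoint Ω} (h : Sim S φ ψ) (hφ : SmallFib S φ) :
    SmallFib S ψ := by
  intro a ha
  have h1 : S.filter (fun x => ψ x = ψ a) = S.filter (fun x => φ x = φ a) := by
    refine Finset.filter_congr fun x hx => ?_
    exact (sim_eq_iff h hx ha).symm
  rw [h1]
  exact hφ a ha

/-- the number of coordinates of the centre -/
theorem centre_torsor {q : ℕ} (hs : Setup Ω q) {τ : Equiv.Perm V} (hS : ∀ x, x ∈ S ↔ τ x ∈ S)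
    (hL : L ∈ SysSet Ω q τ S) (hc : 3 ≤ S.card)
    (hno : ¬ ∃ i ∈ S, ∃ j ∈ S, ∃ k ∈ S, Dist3 i j k ∧ ∃ a ∈ S,
      2 * (S.filter (fun x => L i j k x = L i j k a)).card = S.card) :
    {φ : V → OnePoint Ω | EquiMap q τ S φ ∧ VMap S L φ ∧ SmallFib S φ}.Finite ∧
    {φ : V → OnePoint Ω | EquiMap q τ S φ ∧ VMap S L φ ∧ SmallFib S φ}.ncard = q ^ 3 - q := by
  obtain ⟨i, hi, j, hj, k, hk, hd, hle⟩ := center_exists hL.1 hc
  have hsm : SmallFib S (L i j k) := fun a ha =>
    lt_of_le_of_ne (hle a ha) fun h => hno ⟨i, hi, j, hj, k, hk, hd, a, ha, h⟩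
  have hv : VMap S L (L i j k) := vmap_self hL.1 hi hj hk hd
  have hd' : Dist3 (τ i) (τ j) (τ k) :=
    ⟨τ.injective.ne hd.1, τ.injective.ne hd.2.1, τ.injective.ne hd.2.2⟩
  have hv' : VMap S L (L (τ i) (τ j) (τ k)) :=
    vmap_self hL.1 ((hS _).1 hi) ((hS _).1 hj) ((hS _).1 hk) hd'
  have hSmap : S.map τ.toEmbedding = S := by
    ext x
    rw [Finset.mem_map_equiv]
    rw [hS (τ.symm x), Equiv.apply_symm_apply]
  have hfr : Function.Injective (fr (Ω := Ω) q) := (fr_bij hs).1
  have hsm' : SmallFib S (L (τ i) (τ j) (τ k)) := by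
    intro a ha
    have h1 : S.filter (fun x => L (τ i) (τ j) (τ k) x = L (τ i) (τ j) (τ k) a)
        = (S.filter (fun x => L i j k x = L i j k (τ.symm a))).map τ.toEmbedding := by
      ext x
      rw [Finset.mem_map_equiv, Finset.mem_filter, Finset.mem_filter, hS (τ.symm x),
        Equiv.apply_symm_apply]
      refine and_congr_right fun _ => ?_
      have h2 := hL.2 i j k (τ.symm x)
      have h3 := hL.2 i j k (τ.symm a)
      rw [Equiv.apply_symm_apply] at h2 h3
      rw [h2, h3]
      exact ⟨fun h => hfr h, fun h => by rw [h]⟩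
    rw [h1, Finset.card_map]
    exact hsm _ ((hS _).2 (by rwa [Equiv.apply_symm_apply]))
  have hsim : Sim S (L i j k) (L (τ i) (τ j) (τ k)) := center_unique hL.1 hv hv' hsm hsm'
  have hset : {φ : V → OnePoint Ω | EquiMap q τ S φ ∧ VMap S L φ ∧ SmallFib S φ}
      = {φ : V → OnePoint Ω | EquiMap q τ S φ ∧ Sim S (L i j k) φ} := by
    ext φ
    refine and_congr_right fun _ => ⟨fun h => center_unique hL.1 hv h.1 hsm h.2, fun h =>
      ⟨vmap_sim hv h, smallFib_sim h hsm⟩⟩
  rw [hset]
  exact torsor hs hS hL hi hj hk hd hsim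

/-- a map with small fibres separates three labels -/
theorem sep3_of_smallFib {φ : V → OnePoint Ω} (h : SmallFib S φ) (hc : 1 ≤ S.card) :
    Sep3 S φ := by
  obtain ⟨a, ha⟩ := Finset.card_pos.1 hc
  -- a second value
  have h1 : ∃ b ∈ S, φ b ≠ φ a := by
    by_contra hcon
    push Not at hcon
    have := h a ha
    rw [Finset.filter_true_of_mem hcon] at this
    omega
  obtain ⟨b, hb, hba⟩ := h1
  have h2 : ∃ c ∈ S, φ c ≠ φ a ∧ φ c ≠ φ b := by
    by_contra hcon
    push Not at hcon
    have h3 : S ⊆ S.filter (fun x => φ x = φ a) ∪ S.filter (fun x => φ x = φ b) := by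
      intro x hx
      rw [Finset.mem_union, Finset.mem_filter, Finset.mem_filter]
      by_cases hxa : φ x = φ a
      · exact Or.inl ⟨hx, hxa⟩
      · exact Or.inr ⟨hx, hcon x hx hxa⟩
    have h4 := (Finset.card_le_card h3).trans (Finset.card_union_le _ _)
    have h5 := h a ha
    have h6 := h b hb
    omega
  obtain ⟨c, hc, hca, hcb⟩ := h2
  exact ⟨a, ha, b, hb, c, hc, hba.symm, hca.symm, hcb.symm⟩

end centre

/-! ### maps compatible with a forest -/

section maps

variable {R : Type} [Fintype R] {Ω : Type} [Field Ω]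

/-- `φ` is constant on the blocks of `m` -/
def Compat (m : Finset R → ℕ) (φ : Option R → OnePoint Ω) : Prop :=
  ∀ A, m A ≠ 0 → ∀ x ∈ A, ∀ y ∈ A, φ (Option.some x) = φ (Option.some y)

omit [Field Ω] in
theorem wt_roots {m : Finset R → ℕ} (hm : IsForest Finset.univ m)
    (p : {A : Finset R // A ∈ roots m Finset.univ} → Prop) :
    wt (fun A : {A : Finset R // A ∈ roots m Finset.univ} => A.1.card) (Finset.univ.filter p)
      = (Finset.univ.filter fun x : R => ∃ B : {A : Finset R // A ∈ roots m Finset.univ},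
          p B ∧ x ∈ B.1).card := by
  obtain ⟨h1, h2, h3, -⟩ := roots_partition hm
  have h4 : (Finset.univ.filter fun x : R => ∃ B : {A : Finset R // A ∈ roots m Finset.univ},
      p B ∧ x ∈ B.1) = (Finset.univ.filter p).biUnion fun B => B.1 := by
    ext x
    simp only [Finset.mem_filter, Finset.mem_univ, true_and, Finset.mem_biUnion]
  rw [h4, Finset.card_biUnion]
  · rfl
  · intro A _ B _ hAB
    exact h2 A.1 A.2 B.1 B.2 fun h => hAB (Subtype.ext h)

omit [Field Ω] in
theorem wt_roots_univ {m : Finset R → ℕ} (hm : IsForest Finset.univ m) :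
    wt (fun A : {A : Finset R // A ∈ roots m Finset.univ} => A.1.card) Finset.univ
      = Fintype.card R := by
  have h1 := wt_roots hm (fun _ => True)
  obtain ⟨-, -, h3, -⟩ := roots_partition hm
  rw [Finset.filter_true] at h1
  rw [h1, ← Finset.card_univ]
  congr 1
  ext x
  simp only [Finset.mem_filter, Finset.mem_univ, true_and, iff_true]
  obtain ⟨A, hA, hx⟩ := h3 x (Finset.mem_univ x)
  exact ⟨⟨A, hA⟩, hx⟩

omit [Field Ω] in
theorem mem_allS (x : R) : Option.some x ∈ allS R := by
  simp [allS]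

omit [Field Ω] in
theorem none_notMem_allS : (none : Option R) ∉ allS R := by
  simp [allS]

omit [Field Ω] in
theorem card_allS : (allS R).card = Fintype.card R := by
  rw [allS, Finset.card_map, Finset.card_univ]

/-- fibres over labels -/
theorem card_fib (φ : Option R → OnePoint Ω) (v : OnePoint Ω) :
    ((allS R).filter fun x => φ x = v).card
      = (Finset.univ.filter fun x : R => φ (Option.some x) = v).card := by
  rw [allS, Finset.filter_map, Finset.card_map]
  rfl

theorem count_forest {q : ℕ} (hs : Setup Ω q) (τ : Equiv.Perm R) (hR : 3 ≤ Fintype.card R)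
    {m : Finset R → ℕ} (hm : IsForest Finset.univ m) (hinv : Inv τ m) :
    2 * (({φ : Option R → OnePoint Ω | EquiMap q (Equiv.optionCongr τ) (allS R) φ ∧
        SmallFib (allS R) φ ∧ Compat m φ}.ncard : ℕ) : ℤ)
      = if Small m then (contribV τ m).eval (q : ℤ) else 0 := by
  obtain ⟨h1, h2, h3, -⟩ := roots_partition hm
  obtain ⟨F, hF⟩ := rmap (Ω := Ω) q τ Finset.univ (univ_stable τ) m hm hinv
  -- the map
  have hg : ∀ φ : Option R → OnePoint Ω, EquiMap q (Equiv.optionCongr τ) (allS R) φ →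
      Compat m φ → ((∀ x, x ∉ (Finset.univ : Finset R) → φ (Option.some x) = ∞) ∧
          (∀ x, φ (Option.some (τ x)) = OnePoint.map (fun y => y ^ q) (φ (Option.some x))) ∧
          ∀ A, m A ≠ 0 → ∀ x ∈ A, ∀ y ∈ A, φ (Option.some x) = φ (Option.some y)) := by
    intro φ hφ hc
    refine ⟨fun x hx => absurd (Finset.mem_univ x) hx, fun x => ?_, hc⟩
    have := hφ.2 (Option.some x)
    rwa [Equiv.optionCongr_apply, Option.map_some] at this
  -- value on roots
  have hval : ∀ (φ : Option R → OnePoint Ω) (h : EquiMap q (Equiv.optionCongr τ) (allS R) φ)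
      (hc : Compat m φ) (A : {A : Finset R // A ∈ roots m Finset.univ}) (x : R), x ∈ A.1 →
      φ (Option.some x) = (F ⟨fun x => φ (Option.some x), hg φ h hc⟩).1 A := by
    intro φ h hc A x hx
    exact hF ⟨fun x => φ (Option.some x), hg φ h hc⟩ A x hx
  -- fibres
  have hfib : ∀ (φ : Option R → OnePoint Ω) (h : EquiMap q (Equiv.optionCongr τ) (allS R) φ)
      (hc : Compat m φ) (A : {A : Finset R // A ∈ roots m Finset.univ}) (x : R), x ∈ A.1 →
      ((allS R).filter fun y => φ y = φ (Option.some x)).card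
        = wt (fun A : {A : Finset R // A ∈ roots m Finset.univ} => A.1.card)
            (Finset.univ.filter fun B => (F ⟨fun x => φ (Option.some x), hg φ h hc⟩).1 B
              = (F ⟨fun x => φ (Option.some x), hg φ h hc⟩).1 A) := by
    intro φ h hc A x hx
    rw [card_fib, wt_roots hm]
    congr 1
    ext y
    simp only [Finset.mem_filter, Finset.mem_univ, true_and]
    constructor
    · intro hy
      obtain ⟨B, hB, hyB⟩ := h3 y (Finset.mem_univ y)
      refine ⟨⟨B, hB⟩, ?_, hyB⟩
      rw [← hval φ h hc ⟨B, hB⟩ y hyB, ← hval φ h hc A x hx, hy]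
    · rintro ⟨B, hB, hyB⟩
      rw [hval φ h hc B y hyB, hB, ← hval φ h hc A x hx]
  by_cases hsmall : Small m
  · rw [if_pos hsmall, contribV, dif_pos hinv]
    have hne : Nonempty {A : Finset R // A ∈ roots m Finset.univ} := by
      have : 0 < Fintype.card R := by omega
      obtain ⟨x⟩ := Fintype.card_pos_iff.1 this
      obtain ⟨A, hA, -⟩ := h3 x (Finset.mem_univ x)
      exact ⟨⟨A, hA⟩⟩
    rw [← emaps_small hs (rootPerm τ m Finset.univ hinv (univ_stable τ)) (fun A => A.1.card)
      (fun A => by rw [rootPerm_coe, Finset.card_map])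
      (fun A => Finset.card_pos.2 (h1 A.1 A.2).1)]
    congr 2
    refine Set.ncard_congr (fun φ hφ => (F ⟨fun x => φ (Option.some x), hg φ hφ.1 hφ.2.2⟩).1)
      ?_ ?_ ?_
    · intro φ hφ
      refine ⟨(F ⟨fun x => φ (Option.some x), hg φ hφ.1 hφ.2.2⟩).2, fun A => ?_⟩
      obtain ⟨x, hx⟩ := (h1 A.1 A.2).1
      rw [← hfib φ hφ.1 hφ.2.2 A x hx, wt_roots_univ hm, ← card_allS]
      exact hφ.2.1 _ (mem_allS x)
    · intro φ φ' hφ hφ' h
      have h4 := F.injective (Subtype.ext h)
      have h5 := congrArg Subtype.val h4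
      funext o
      cases o with
      | none => rw [hφ.1.1 _ none_notMem_allS, hφ'.1.1 _ none_notMem_allS]
      | some x => exact congrFun h5 x
    · intro ψ hψ
      obtain ⟨g, hgF⟩ := F.surjective ⟨ψ, hψ.1⟩
      let φ : Option R → OnePoint Ω := fun o => o.elim ∞ g.1
      have hφ1 : EquiMap q (Equiv.optionCongr τ) (allS R) φ := by
        refine ⟨fun o ho => ?_, fun o => ?_⟩
        · cases o with
          | none => rfl
          | some x => exact absurd (mem_allS x) ho
        · cases o with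
          | none => rfl
          | some x => exact g.2.2.1 x
      have hφ2 : Compat m φ := g.2.2.2
      have hgφ : (⟨fun x => φ (Option.some x), hg φ hφ1 hφ2⟩ : {g : R → OnePoint Ω //
          (∀ x, x ∉ (Finset.univ : Finset R) → g x = ∞) ∧
          (∀ x, g (τ x) = OnePoint.map (fun y => y ^ q) (g x)) ∧
          ∀ A, m A ≠ 0 → ∀ x ∈ A, ∀ y ∈ A, g x = g y}) = g := Subtype.ext rfl
      have hφ3 : SmallFib (allS R) φ := by
        intro o ho
        cases o with
        | none => exact absurd ho none_notMem_allS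
        | some x =>
          obtain ⟨A, hA, hx⟩ := h3 x (Finset.mem_univ x)
          rw [hfib φ hφ1 hφ2 ⟨A, hA⟩ x hx, hgφ, hgF, card_allS, ← wt_roots_univ hm]
          exact hψ.2 ⟨A, hA⟩
      refine ⟨φ, ⟨hφ1, hφ3, hφ2⟩, ?_⟩
      change (F ⟨fun x => φ (Option.some x), hg φ hφ1 hφ2⟩).1 = ψ
      rw [hgφ, hgF]
  · rw [if_neg hsmall]
    have hempty : {φ : Option R → OnePoint Ω | EquiMap q (Equiv.optionCongr τ) (allS R) φ ∧
        SmallFib (allS R) φ ∧ Compat m φ} = ∅ := by
      rw [Set.eq_empty_iff_forall_notMem]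
      rintro φ ⟨hφ1, hφ2, hφ3⟩
      apply hsmall
      intro A hA
      obtain ⟨x, hx⟩ := (h1 A hA).1
      have h4 := hφ2 _ (mem_allS x)
      rw [card_fib, card_allS] at h4
      refine lt_of_le_of_lt (Nat.mul_le_mul_left 2 (Finset.card_le_card ?_)) h4
      intro y hy
      rw [Finset.mem_filter]
      refine ⟨Finset.mem_univ y, ?_⟩
      rw [hval φ hφ1 hφ3 ⟨A, hA⟩ x hx, hval φ hφ1 hφ3 ⟨A, hA⟩ y hy]
    rw [hempty, Set.ncard_empty]
    simp

end maps

end NV

open OnePoint Polynomial NV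

open scoped Classical

/-! ### the theorem -/

theorem nvert {R : Type} [Fintype R] {Ω : Type} [Field Ω] {q : ℕ} (hs : Setup Ω q)
    (τ : Equiv.Perm R) (hR : 3 ≤ Fintype.card R) :
    (SysSet Ω q (Equiv.optionCongr τ) (allS R) \ HalfSet Ω q τ).Finite ∧
    2 * ((q : ℤ) ^ 3 - q) *
      ((SysSet Ω q (Equiv.optionCongr τ) (allS R) \ HalfSet Ω q τ).ncard : ℤ) =
      ∑ m ∈ (forests τ Finset.univ).filter Small, (q : ℤ) ^ deg m * (contribV τ m).eval (q : ℤ) := by
  have hq : 1 < q := hs.one_lt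
  have hqq : 0 < q ^ 3 - q := by
    have : q ^ 1 < q ^ 3 := Nat.pow_lt_pow_right hq (by norm_num)
    rw [pow_one] at this
    omega
  have hTS : ∀ x, x ∈ allS R ↔ Equiv.optionCongr τ x ∈ allS R := by
    intro x
    cases x with
    | none => simp [allS]
    | some x => simp [allS]
  let P : Set ((Option R → Option R → Option R → Option R → OnePoint Ω) ×
      (Option R → OnePoint Ω)) :=
    {p | p.1 ∈ SysSet Ω q (Equiv.optionCongr τ) (allS R) \ HalfSet Ω q τ ∧
      EquiMap q (Equiv.optionCongr τ) (allS R) p.2 ∧ VMap (allS R) p.1 p.2 ∧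
      SmallFib (allS R) p.2}
  let Y : Set (Option R → OnePoint Ω) :=
    {φ | EquiMap q (Equiv.optionCongr τ) (allS R) φ ∧ SmallFib (allS R) φ}
  have hY : Y.Finite := by
    refine Set.Finite.of_finite_image (f := fun φ : Option R → OnePoint Ω => fun x : R =>
      φ (Option.some x)) ((emaps_all hs τ).1.subset ?_) ?_
    · rintro _ ⟨φ, hφ, rfl⟩ x
      exact hφ.1.2 (Option.some x)
    · intro φ hφ φ' hφ' h
      funext o
      cases o with
      | none => rw [hφ.1.1 _ none_notMem_allS, hφ'.1.1 _ none_notMem_allS]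
      | some x => exact congrFun h x
  -- fibres over the maps
  have hfibre : ∀ φ ∈ Y, {L | (L, φ) ∈ P}
      = {L | L ∈ SysSet Ω q (Equiv.optionCongr τ) (allS R) ∧ VMap (allS R) L φ} := by
    intro φ hφ
    ext L
    constructor
    · rintro ⟨h1, -, h3, -⟩
      exact ⟨h1.1, h3⟩
    · rintro ⟨h1, h2⟩
      refine ⟨⟨h1, ?_⟩, hφ.1, h2, hφ.2⟩
      rintro ⟨-, i, hi, j, hj, k, hk, hd, a, ha, hcard⟩
      refine half_no_center h1.1 (vmap_self h1.1 hi hj hk hd) h2 ha ?_ hφ.2
      rw [hcard, card_allS]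
  have hcount : ∀ φ ∈ Y, {L | (L, φ) ∈ P}.Finite ∧ {L | (L, φ) ∈ P}.ncard =
      ∑ m ∈ (forests τ Finset.univ).filter (fun m => Compat m φ), q ^ deg m := by
    intro φ hφ
    have h1 := vcount hs τ Finset.univ (univ_stable τ) (allS R) (Or.inr rfl) φ hφ.1
      (sep3_of_smallFib hφ.2 (by rw [card_allS]; omega))
      (fun h => absurd h none_notMem_allS)
      (fun J' _ hne d hd hst => kformula (hs.pow hd) (τ ^ d) J' hne hst)
    have h2 : (forests τ Finset.univ).filter (fun m => Compat m φ) =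
        (forests τ Finset.univ).filter (fun m => ∀ A, m A ≠ 0 → ∀ x ∈ A, ∀ y ∈ A,
          φ (Option.some x) = φ (Option.some y)) := Finset.filter_congr fun m _ => Iff.rfl
    rw [hfibre φ hφ, h2]
    exact h1
  obtain ⟨hPfin, hPcard⟩ := ncard_fiber P hY (fun p hp => ⟨hp.2.1, hp.2.2.2⟩)
    (fun φ hφ => (hcount φ hφ).1)
  -- fibres over the systems
  obtain ⟨hX, hXcard⟩ := ncard_const P hPfin (X := SysSet Ω q (Equiv.optionCongr τ) (allS R) \
    HalfSet Ω q τ) hqq (fun p hp => hp.1) (by
      intro L hL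
      have h1 := centre_torsor hs hTS hL.1 (by rw [card_allS]; exact hR) (by
        rintro ⟨i, hi, j, hj, k, hk, hd, a, ha, hcard⟩
        exact hL.2 ⟨hL.1, i, hi, j, hj, k, hk, hd, a, ha, by rw [hcard, card_allS]⟩)
      rw [← h1.2]
      congr 1
      ext φ
      exact ⟨fun h => h.2, fun h => ⟨hL, h⟩⟩)
  refine ⟨hX, ?_⟩
  -- exchange the sums
  have hsum : P.ncard = ∑ m ∈ forests τ Finset.univ, q ^ deg m *
      {φ : Option R → OnePoint Ω | EquiMap q (Equiv.optionCongr τ) (allS R) φ ∧
        SmallFib (allS R) φ ∧ Compat m φ}.ncard := by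
    rw [hPcard, Finset.sum_congr rfl fun φ hφ => (hcount φ ((Set.Finite.mem_toFinset hY).1 hφ)).2]
    simp only [Finset.sum_filter]
    rw [Finset.sum_comm]
    refine Finset.sum_congr rfl fun m _ => ?_
    rw [← Finset.sum_filter, Finset.sum_const, smul_eq_mul, mul_comm]
    congr 1
    have h1 : {φ : Option R → OnePoint Ω | EquiMap q (Equiv.optionCongr τ) (allS R) φ ∧
        SmallFib (allS R) φ ∧ Compat m φ} = ↑(hY.toFinset.filter fun φ => Compat m φ) := by
      ext φ
      rw [Finset.coe_filter]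
      simp only [Set.Finite.mem_toFinset, Set.mem_setOf_eq, Y, and_assoc]
    rw [h1, Set.ncard_coe_finset]
  have hcast : ((q ^ 3 - q : ℕ) : ℤ) = (q : ℤ) ^ 3 - q := by
    rw [Nat.cast_sub (by omega)]
    push_cast
    ring
  rw [mul_assoc, ← hcast, ← Nat.cast_mul, mul_comm (q ^ 3 - q), ← hXcard, hsum, Finset.sum_filter]
  push_cast
  rw [Finset.mul_sum]
  refine Finset.sum_congr rfl fun m hm => ?_
  obtain ⟨hm1, hm2⟩ := mem_forests.1 hm
  have h1 := count_forest hs τ hR hm1 hm2
  rw [mul_left_comm, h1]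
  split_ifs <;> simp

end Pool.Agent.Mbar
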