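import Mathlib

/-! # Signed permutation characters -/

noncomputable section

namespace Pool.Agent.Mbar

open scoped Classical
open MulAction

/-- A finite signed `G`-set: a finite `G`-set with a sign cocycle. -/
structure SSet (G : Type) [Group G] where
  B : Type
  fin : Fintype B
  act : MulAction G B
  ε : G → B → ℤˣ
  mul : ∀ g h b, ε (g * h) b = ε g (h • b) * ε h b

attribute [instance] SSet.fin SSet.act

/-- The trace of `g` on the signed permutation representation. -/
def SSet.tr {G : Type} [Group G] (S : SSet G) (g : G) : ℤ :=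
  ∑ b : S.B, if g • b = b then (S.ε g b : ℤ) else 0

/-- `t` is the character of a signed permutation representation. -/
def IsSP {G : Type} [Group G] (t : G → ℤ) : Prop := ∃ S : SSet G, ∀ g, t g = S.tr g

section basics

variable {G : Type} [Group G]

lemma SSet.tr_def (S : SSet G) (g : G) :
    S.tr g = ∑ b : S.B, if g • b = b then (S.ε g b : ℤ) else 0 := rfl

/-- permutation characters -/
def permSet (G : Type) [Group G] (X : Type) [fX : Fintype X] [aX : MulAction G X] : SSet G where
  B := X
  fin := fX
  act := aX
  ε := fun _ _ => 1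
  mul := fun _ _ _ => by rw [mul_one]

lemma permSet_tr (X : Type) [Fintype X] [MulAction G X] (g : G) :
    (permSet G X).tr g = Fintype.card {x : X // g • x = x} := by
  rw [SSet.tr_def, Fintype.card_subtype, Finset.card_filter]
  push_cast
  rfl

lemma IsSP.perm (X : Type) [Fintype X] [MulAction G X] :
    IsSP (fun g : G => (Fintype.card {x : X // g • x = x} : ℤ)) :=
  ⟨permSet G X, fun g => (permSet_tr X g).symm⟩

lemma IsSP.congr {t t' : G → ℤ} (h : IsSP t) (e : ∀ g, t' g = t g) : IsSP t' := by
  obtain ⟨S, hS⟩ := h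
  exact ⟨S, fun g => (e g).trans (hS g)⟩

/-- the number of fixed elements of a finite `G`-set -/
lemma IsSP.natCard (X : Type) [Finite X] [MulAction G X] :
    IsSP (fun g : G => (Nat.card {x : X // g • x = x} : ℤ)) := by
  cases nonempty_fintype X
  exact (IsSP.perm X).congr fun g => by rw [Nat.card_eq_fintype_card]

/-- the number of fixed elements with an invariant property -/
lemma IsSP.natCard_pred (X : Type) [Finite X] [MulAction G X] (P : X → Prop)
    (hP : ∀ (g : G) x, P x → P (g • x)) :
    IsSP (fun g : G => (Nat.card {x : X // P x ∧ g • x = x} : ℤ)) := by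
  let _ : MulAction G {x : X // P x} :=
    { smul := fun g x => ⟨g • x.1, hP g x.1 x.2⟩
      one_smul := fun x => Subtype.ext (one_smul G x.1)
      mul_smul := fun g h x => Subtype.ext (mul_smul g h x.1) }
  refine (IsSP.natCard (G := G) {x : X // P x}).congr fun g => ?_
  norm_cast
  refine Nat.card_congr ⟨fun x => ⟨⟨x.1, x.2.1⟩, Subtype.ext x.2.2⟩,
    fun x => ⟨x.1.1, x.1.2, congrArg Subtype.val x.2⟩, fun x => rfl, fun x => rfl⟩

lemma IsSP.zero : IsSP (fun _ : G => 0) := by
  let _ : MulAction G Empty :=
    { smul := fun _ x => x, one_smul := fun x => x.elim, mul_smul := fun _ _ x => x.elim }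
  refine (IsSP.perm (G := G) Empty).congr fun g => ?_
  simp

lemma IsSP.one : IsSP (fun _ : G => 1) := by
  let _ : MulAction G Unit :=
    { smul := fun _ x => x, one_smul := fun _ => rfl, mul_smul := fun _ _ _ => rfl }
  refine (IsSP.natCard (G := G) Unit).congr fun g => ?_
  have : Unique {x : Unit // g • x = x} := ⟨⟨⟨(), rfl⟩⟩, fun x => Subtype.ext rfl⟩
  rw [Nat.card_unique, Nat.cast_one]

lemma IsSP.add {t t' : G → ℤ} (h : IsSP t) (h' : IsSP t') : IsSP (fun g => t g + t' g) := by
  obtain ⟨S, hS⟩ := h
  obtain ⟨T, hT⟩ := h'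
  refine ⟨⟨S.B ⊕ T.B, inferInstance, inferInstance, fun g => Sum.elim (S.ε g) (T.ε g), ?_⟩, ?_⟩
  · rintro g h (b | b)
    · exact S.mul g h b
    · exact T.mul g h b
  · intro g
    simp only [SSet.tr_def, Fintype.sum_sum_type]
    rw [hS g, hT g, SSet.tr_def, SSet.tr_def]
    congr 1
    · refine Finset.sum_congr rfl fun b _ => ?_
      have : (g • (Sum.inl b : S.B ⊕ T.B) = Sum.inl b) ↔ g • b = b :=
        ⟨fun h => Sum.inl_injective h, fun h => congrArg Sum.inl h⟩
      by_cases h : g • b = b
      · rw [if_pos h, if_pos (this.mpr h)]; rfl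
      · rw [if_neg h, if_neg (fun h' => h (this.mp h'))]
    · refine Finset.sum_congr rfl fun b _ => ?_
      have : (g • (Sum.inr b : S.B ⊕ T.B) = Sum.inr b) ↔ g • b = b :=
        ⟨fun h => Sum.inr_injective h, fun h => congrArg Sum.inr h⟩
      by_cases h : g • b = b
      · rw [if_pos h, if_pos (this.mpr h)]; rfl
      · rw [if_neg h, if_neg (fun h' => h (this.mp h'))]

lemma IsSP.mul {t t' : G → ℤ} (h : IsSP t) (h' : IsSP t') : IsSP (fun g => t g * t' g) := by
  obtain ⟨S, hS⟩ := h
  obtain ⟨T, hT⟩ := h'
  refine ⟨⟨S.B × T.B, inferInstance, inferInstance, fun g b => S.ε g b.1 * T.ε g b.2, ?_⟩, ?_⟩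
  · rintro g h ⟨b, c⟩
    simp only [S.mul g h b, T.mul g h c]
    exact mul_mul_mul_comm _ _ _ _
  · intro g
    simp only [SSet.tr_def]
    rw [hS g, hT g, SSet.tr_def, SSet.tr_def, Fintype.sum_mul_sum, Fintype.sum_prod_type]
    refine Finset.sum_congr rfl fun b _ => Finset.sum_congr rfl fun c _ => ?_
    have : (g • ((b, c) : S.B × T.B) = (b, c)) ↔ g • b = b ∧ g • c = c := Prod.ext_iff
    by_cases h1 : g • b = b
    · by_cases h2 : g • c = c
      · rw [if_pos h1, if_pos h2, if_pos (this.mpr ⟨h1, h2⟩)]
        push_cast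
        rfl
      · rw [if_neg h2, if_neg (fun h' => h2 (this.mp h').2), mul_zero]
    · rw [if_neg h1, if_neg (fun h' => h1 (this.mp h').1), zero_mul]

lemma IsSP.sum {ι : Type*} (s : Finset ι) (t : ι → G → ℤ) (h : ∀ i ∈ s, IsSP (t i)) :
    IsSP (fun g => ∑ i ∈ s, t i g) := by
  induction s using Finset.induction_on with
  | empty => exact IsSP.zero.congr fun g => Finset.sum_empty
  | insert a s ha ih =>
    exact ((h a (Finset.mem_insert_self a s)).add
      (ih fun i hi => h i (Finset.mem_insert_of_mem hi))).congr fun g => Finset.sum_insert ha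

lemma IsSP.nat_mul (m : ℕ) {t : G → ℤ} (h : IsSP t) : IsSP (fun g => (m : ℤ) * t g) := by
  have := IsSP.sum (Finset.range m) (fun _ => t) (fun _ _ => h)
  exact this.congr fun _ => by simp

lemma IsSP.natCast (m : ℕ) : IsSP (fun _ : G => (m : ℤ)) :=
  (IsSP.one.nat_mul m).congr fun g => (mul_one _).symm

/-- restriction along a homomorphism -/
lemma IsSP.comap {G' : Type} [Group G'] (φ : G' →* G) {t : G → ℤ} (h : IsSP t) :
    IsSP (fun g => t (φ g)) := by
  obtain ⟨S, hS⟩ := h
  let a : MulAction G' S.B := MulAction.compHom S.B φ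
  refine ⟨⟨S.B, inferInstance, a, fun g b => S.ε (φ g) b, ?_⟩, ?_⟩
  · intro g h b
    simp only [map_mul]
    exact S.mul _ _ _
  · intro g
    simp only [hS (φ g), SSet.tr_def]
    rfl

end basics

section invol

variable {G : Type} [Group G]

/-- **Free involutions give signed sets.** For a finite `G`-set `Z` with an equivariant involution
`ι` the function `(#Fix g - #{z | g z = ι z}) / 2` is a signed permutation character. -/
theorem IsSP.invol (Z : Type) [Finite Z] [MulAction G Z] (ι : Z → Z) (hι : ∀ z, ι (ι z) = z)
    (hg : ∀ (g : G) z, g • ι z = ι (g • z)) (t : G → ℤ)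
    (ht : ∀ g, 2 * t g = (Nat.card {z : Z // g • z = z} : ℤ) - Nat.card {z : Z // g • z = ι z}) :
    IsSP t := by
  cases nonempty_fintype Z
  let s : Setoid Z :=
    { r := fun z w => w = z ∨ w = ι z
      iseqv := by
        refine ⟨fun z => Or.inl rfl, ?_, ?_⟩
        · rintro z w (h | h)
          · exact Or.inl h.symm
          · exact Or.inr (by rw [h, hι])
        · rintro z w u (h | h) (h' | h')
          · exact Or.inl (by rw [h', h])
          · exact Or.inr (by rw [h', h])
          · exact Or.inr (by rw [h', h])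
          · exact Or.inl (by rw [h', h, hι]) }
  have hs : ∀ z w : Z, (Quotient.mk s z = Quotient.mk s w) ↔ (w = z ∨ w = ι z) := by
    intro z w
    rw [Quotient.eq]
    rfl
  let act : MulAction G (Quotient s) :=
    { smul := fun g => Quotient.map (fun z => g • z) (by
        rintro z w (h | h)
        · exact Or.inl (by rw [h])
        · exact Or.inr (by rw [h, hg]))
      one_smul := by
        intro b
        induction b using Quotient.inductionOn with | _ z
        exact congrArg (Quotient.mk s) (one_smul G z)
      mul_smul := by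
        intro g h b
        induction b using Quotient.inductionOn with | _ z
        exact congrArg (Quotient.mk s) (mul_smul g h z) }
  have hact : ∀ (g : G) (z : Z), g • (Quotient.mk s z) = Quotient.mk s (g • z) := fun g z => rfl
  let B := {b : Quotient s // ι b.out ≠ b.out}
  have hB : ∀ z : Z, (ι (Quotient.mk s z).out ≠ (Quotient.mk s z).out) ↔ ι z ≠ z := by
    intro z
    have h1 : Quotient.mk s (Quotient.mk s z).out = Quotient.mk s z := Quotient.out_eq _
    rw [hs] at h1
    rcases h1 with h1 | h1
    · rw [← h1]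
    · constructor
      · intro h h2
        apply h
        have h3 : (Quotient.mk s z).out = z := by
          have h4 := congrArg ι h1
          rw [hι, h2] at h4
          exact h4.symm
        rw [h3, h2]
      · intro h h2
        apply h
        rw [h2] at h1
        rw [h1, h2]
  have hBstab : ∀ (g : G) (b : Quotient s), ι b.out ≠ b.out → ι (g • b).out ≠ (g • b).out := by
    intro g b
    induction b using Quotient.inductionOn with | _ z
    rw [hact, hB, hB]
    intro h h2
    apply h
    have h3 := congrArg (fun x => g⁻¹ • x) h2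
    simp only [← hg, inv_smul_smul] at h3
    exact h3
  let actB : MulAction G B :=
    { smul := fun g b => ⟨g • b.1, hBstab g b.1 b.2⟩
      one_smul := fun b => Subtype.ext (one_smul G b.1)
      mul_smul := fun g h b => Subtype.ext (mul_smul g h b.1) }
  have hactB : ∀ (g : G) (b : B), (g • b).1 = g • b.1 := fun g b => rfl
  -- the sign
  let sg : G → B → ℤˣ := fun g b => if g • b.1.out = (g • b.1).out then 1 else -1
  have hout : ∀ (g : G) (b : Quotient s), (g • b).out = g • b.out ∨ (g • b).out = ι (g • b.out) := by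
    intro g b
    have h1 : Quotient.mk s (g • b.out) = Quotient.mk s (g • b).out := by
      rw [Quotient.out_eq, ← hact, Quotient.out_eq]
    exact (hs _ _).mp h1
  have hne : ∀ (g : G) (b : B), ι (g • b.1.out) ≠ g • b.1.out := by
    intro g b h2
    apply b.2
    have h3 := congrArg (fun x => g⁻¹ • x) h2
    simp only [← hg, inv_smul_smul] at h3
    exact h3
  refine ⟨⟨B, inferInstance, actB, sg, ?_⟩, ?_⟩
  · intro g h b
    simp only [sg, hactB]
    have e1 := hout h b.1
    have e2 := hout g (h • b.1)
    have e3 : (g * h) • b.1 = g • h • b.1 := mul_smul _ _ _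
    have e4 : (g * h) • b.1.out = g • h • b.1.out := mul_smul _ _ _
    have n1 := hne h b
    have n2 := hne g (h • b)
    rw [e3, e4]
    have n3 : ι (g • (h • b.1).out) ≠ g • (h • b.1).out := n2
    rcases e1 with e1 | e1
    · rw [if_pos e1.symm, e1, mul_one]
    · have n4 : h • b.1.out ≠ (h • b.1).out := by
        rw [e1]
        exact n1.symm
      rw [if_neg n4]
      have e5 : h • b.1.out = ι (h • b.1).out := by rw [e1, hι]
      rw [e5, hg]
      rcases e2 with e2 | e2
      · rw [e2, if_neg n3, if_pos rfl, one_mul]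
      · rw [e2, if_pos rfl, if_neg n3.symm]
        rfl
  · intro g
    have h2 : (2 : ℤ) ≠ 0 := by norm_num
    apply mul_left_cancel₀ h2
    rw [ht g, SSet.tr_def]
    -- count over the points of `Z`
    have c1 : (Nat.card {z : Z // g • z = z} : ℤ) - Nat.card {z : Z // g • z = ι z}
        = ∑ z : Z, ((if g • z = z then 1 else 0) - (if g • z = ι z then 1 else 0)) := by
      rw [Finset.sum_sub_distrib, Nat.card_eq_fintype_card, Nat.card_eq_fintype_card,
        Fintype.card_subtype, Fintype.card_subtype, Finset.card_filter, Finset.card_filter]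
      push_cast
      rfl
    rw [c1, ← Finset.sum_fiberwise Finset.univ (fun z : Z => Quotient.mk s z)]
    have c2 : ∀ b : Quotient s, ∑ z ∈ Finset.univ.filter (fun z => Quotient.mk s z = b),
        (((if g • z = z then 1 else 0) - (if g • z = ι z then 1 else 0)) : ℤ)
        = if h : ι b.out ≠ b.out then
            2 * (if g • (⟨b, h⟩ : B) = ⟨b, h⟩ then (sg g ⟨b, h⟩ : ℤ) else 0) else 0 := by
      intro b
      have hfil : Finset.univ.filter (fun z => Quotient.mk s z = b) = {b.out, ι b.out} := by
        ext z
        rw [Finset.mem_filter, Finset.mem_insert, Finset.mem_singleton]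
        constructor
        · rintro ⟨-, h⟩
          have h3 : Quotient.mk s b.out = Quotient.mk s z := by rw [Quotient.out_eq, h]
          exact (hs _ _).mp h3
        · intro h
          refine ⟨Finset.mem_univ _, ?_⟩
          have h3 := (hs _ _).mpr h
          rw [← h3, Quotient.out_eq]
      rw [hfil]
      by_cases h : ι b.out ≠ b.out
      · rw [dif_pos h, Finset.sum_pair h.symm]
        have f1 : (g • (⟨b, h⟩ : B) = ⟨b, h⟩) ↔ (g • b.out = b.out ∨ g • b.out = ι b.out) := by
          rw [Subtype.ext_iff, hactB]
          change (g • b = b) ↔ _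
          have f2 : g • b = Quotient.mk s (g • b.out) := by rw [← hact, Quotient.out_eq]
          rw [f2]
          constructor
          · intro h4
            have h5 : Quotient.mk s b.out = Quotient.mk s (g • b.out) := by
              rw [h4, Quotient.out_eq]
            exact (hs _ _).mp h5
          · intro h4
            rw [← (hs _ _).mpr h4, Quotient.out_eq]
        have f3 : g • ι b.out = ι b.out ↔ g • b.out = b.out := by
          rw [hg]
          constructor
          · intro h4
            have := congrArg ι h4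
            rwa [hι, hι] at this
          · intro h4
            rw [h4]
        have f4 : g • ι b.out = ι (ι b.out) ↔ g • b.out = ι b.out := by
          rw [hg]
          constructor
          · intro h4
            have := congrArg ι h4
            rwa [hι, hι] at this
          · intro h4
            rw [h4]
        simp only [f3, f4]
        by_cases h5 : g • b.out = b.out
        · have h6 : ¬ (g • b.out = ι b.out) := by
            rw [h5]; exact h.symm
          have h7 : g • (⟨b, h⟩ : B) = ⟨b, h⟩ := f1.mpr (Or.inl h5)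
          have h8 : g • b = b := congrArg Subtype.val h7
          rw [if_pos h5, if_neg h6, if_pos h7]
          simp only [sg]
          rw [h8, if_pos h5]
          norm_num
        · by_cases h6 : g • b.out = ι b.out
          · have h7 : g • (⟨b, h⟩ : B) = ⟨b, h⟩ := f1.mpr (Or.inr h6)
            have h8 : g • b = b := congrArg Subtype.val h7
            rw [if_neg h5, if_pos h6, if_pos h7]
            simp only [sg]
            rw [h8, if_neg h5]
            norm_num
          · have h7 : ¬ (g • (⟨b, h⟩ : B) = ⟨b, h⟩) := fun h8 => by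
              rcases f1.mp h8 with h9 | h9
              · exact h5 h9
              · exact h6 h9
            rw [if_neg h5, if_neg h6, if_neg h7]
            norm_num
      · rw [dif_neg h]
        push Not at h
        rw [h]
        simp only [Finset.pair_eq_singleton, Finset.sum_singleton]
        rw [h, sub_self]
    rw [Finset.sum_congr rfl (fun b _ => c2 b), Finset.mul_sum]
    have c3 := Finset.sum_subtype_of_mem (s := Finset.univ.filter fun b : Quotient s => ι b.out ≠ b.out)
      (fun b => if h : ι b.out ≠ b.out then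
            2 * (if g • (⟨b, h⟩ : B) = ⟨b, h⟩ then (sg g ⟨b, h⟩ : ℤ) else 0) else 0)
      (fun b hb => (Finset.mem_filter.mp hb).2)
    rw [← Finset.sum_filter_add_sum_filter_not Finset.univ (fun b : Quotient s => ι b.out ≠ b.out)]
    rw [← c3]
    have c4 : ∑ b ∈ Finset.univ.filter (fun b : Quotient s => ¬ (ι b.out ≠ b.out)),
        (if h : ι b.out ≠ b.out then
            2 * (if g • (⟨b, h⟩ : B) = ⟨b, h⟩ then (sg g ⟨b, h⟩ : ℤ) else 0) else 0) = 0 :=
      Finset.sum_eq_zero fun b hb => dif_neg (Finset.mem_filter.mp hb).2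
    rw [c4, add_zero]
    refine Finset.sum_bij (fun x _ => (x : B)) ?_ ?_ ?_ ?_
    · intro x _
      exact Finset.mem_univ _
    · intro x _ y _ h
      exact h
    · intro x _
      exact ⟨x, by
        rw [Finset.mem_subtype, Finset.mem_filter]
        exact ⟨Finset.mem_univ _, x.2⟩, rfl⟩
    · intro x _
      rw [dif_pos x.2]
      by_cases h9 : g • (x : B) = x
      · rw [if_pos h9, if_pos h9]
      · rw [if_neg h9, if_neg h9]

end invol

section ind

variable {G : Type} [Group G]

/-- induction for one orbit -/
lemma IsSP.ind_orbit (X : Type) [Fintype X] [MulAction G X] (t : G → X → ℤ)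
    (hconj : ∀ (g h : G) (x : X), h • x = x → t (g * h * g⁻¹) (g • x) = t h x) (x₀ : X)
    (hx : IsSP (fun h : stabilizer G x₀ => t h x₀)) :
    IsSP (fun g => ∑ x : orbit G x₀, if g • x = x then t g x else 0) := by
  obtain ⟨S, hS⟩ := hx
  have hc : ∀ x : orbit G x₀, ∃ c : G, c • x₀ = x := fun x => x.2
  choose c hc using hc
  have hstab : ∀ (g : G) (x : orbit G x₀), (c (g • x))⁻¹ * g * c x ∈ stabilizer G x₀ := by
    intro g x
    rw [mem_stabilizer_iff, mul_smul, mul_smul, hc, inv_smul_eq_iff, hc]
    rfl
  let k : G → orbit G x₀ → stabilizer G x₀ := fun g x => ⟨_, hstab g x⟩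
  have kmul : ∀ (g h : G) (x : orbit G x₀), k (g * h) x = k g (h • x) * k h x := by
    intro g h x
    apply Subtype.ext
    change (c ((g * h) • x))⁻¹ * (g * h) * c x
      = ((c (g • h • x))⁻¹ * g * c (h • x)) * ((c (h • x))⁻¹ * h * c x)
    rw [mul_smul]
    group
  have kone : ∀ x : orbit G x₀, k 1 x = 1 := by
    intro x
    apply Subtype.ext
    change (c ((1 : G) • x))⁻¹ * 1 * c x = 1
    rw [one_smul, mul_one, inv_mul_cancel]
  let act : MulAction G (orbit G x₀ × S.B) :=
    { smul := fun g b => (g • b.1, k g b.1 • b.2)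
      one_smul := by
        rintro ⟨x, b⟩
        change ((1 : G) • x, k 1 x • b) = (x, b)
        rw [one_smul, kone, one_smul]
      mul_smul := by
        rintro g h ⟨x, b⟩
        change ((g * h) • x, k (g * h) x • b) = (g • h • x, k g (h • x) • k h x • b)
        rw [mul_smul, kmul, mul_smul] }
  refine ⟨⟨orbit G x₀ × S.B, inferInstance, act, fun g b => S.ε (k g b.1) b.2, ?_⟩, ?_⟩
  · rintro g h ⟨x, b⟩
    change S.ε (k (g * h) x) b = S.ε (k g (h • x)) (k h x • b) * S.ε (k h x) b
    rw [kmul, S.mul]
  · intro g
    rw [SSet.tr_def]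
    change _ = ∑ b : orbit G x₀ × S.B, @ite ℤ ((g • b.1, k g b.1 • b.2) = b)
      (Classical.propDecidable _) (S.ε (k g b.1) b.2 : ℤ) 0
    rw [Fintype.sum_prod_type]
    refine Finset.sum_congr rfl fun x _ => ?_
    by_cases h : g • x = x
    · rw [if_pos h]
      have e1 : ∀ b : S.B, ((g • x, k g x • b) = ((x, b) : orbit G x₀ × S.B)) ↔ k g x • b = b := by
        intro b
        rw [Prod.mk.injEq]
        exact ⟨fun h' => h'.2, fun h' => ⟨h, h'⟩⟩
      have e2 : ∑ b : S.B, (@ite ℤ ((g • x, k g x • b) = ((x, b) : orbit G x₀ × S.B))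
          (Classical.propDecidable _) (S.ε (k g x) b : ℤ) 0) = S.tr (k g x) := by
        rw [SSet.tr_def]
        refine Finset.sum_congr rfl fun b _ => ?_
        by_cases h2 : k g x • b = b
        · rw [if_pos h2, if_pos ((e1 b).mpr h2)]
        · rw [if_neg h2, if_neg (fun h3 => h2 ((e1 b).mp h3))]
      rw [e2, ← hS]
      have e3 := hconj (c x) (k g x) x₀ (k g x).2
      have e4 : c x * (k g x : G) * (c x)⁻¹ = g := by
        change c x * ((c (g • x))⁻¹ * g * c x) * (c x)⁻¹ = g
        rw [h]
        group
      rw [e4, hc] at e3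
      exact e3
    · rw [if_neg h]
      symm
      refine Finset.sum_eq_zero fun b _ => if_neg fun h' => h (Prod.mk.inj h').1

/-- **Induction.** Sum over the fixed points in a finite `G`-set of local signed permutation
characters of the stabilisers. -/
theorem IsSP.ind (X : Type) [Fintype X] [MulAction G X] (t : G → X → ℤ)
    (hconj : ∀ (g h : G) (x : X), h • x = x → t (g * h * g⁻¹) (g • x) = t h x)
    (hx : ∀ x : X, IsSP (fun h : stabilizer G x => t h x)) :
    IsSP (fun g => ∑ x : X, if g • x = x then t g x else 0) := by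
  have h1 := IsSP.sum (G := G) (Finset.univ : Finset (orbitRel.Quotient G X))
    (fun ω g => ∑ x : orbit G ω.out, if g • x = x then t g x else 0)
    (fun ω _ => IsSP.ind_orbit X t hconj ω.out (hx ω.out))
  refine h1.congr fun g => ?_
  rw [← Finset.sum_fiberwise Finset.univ (fun x : X => (Quotient.mk _ x : orbitRel.Quotient G X))]
  refine Finset.sum_congr rfl fun ω _ => ?_
  have hmem : ∀ x : X, x ∈ Finset.univ.filter (fun x : X => (Quotient.mk _ x : orbitRel.Quotient G X) = ω)
      ↔ x ∈ orbit G ω.out := by
    intro x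
    rw [Finset.mem_filter]
    constructor
    · rintro ⟨-, h⟩
      have h2 : (Quotient.mk _ x : orbitRel.Quotient G X) = Quotient.mk _ ω.out := by
        rw [h, Quotient.out_eq]
      exact (Quotient.eq (r := orbitRel G X)).mp h2
    · intro h
      refine ⟨Finset.mem_univ _, ?_⟩
      have h2 : (Quotient.mk _ x : orbitRel.Quotient G X) = Quotient.mk _ ω.out :=
        (Quotient.eq (r := orbitRel G X)).mpr h
      rw [h2, Quotient.out_eq]
  rw [Finset.sum_subtype _ hmem]
  refine Finset.sum_congr rfl fun x _ => ?_
  have e1 : g • x = x ↔ g • (x : X) = x := by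
    rw [Subtype.ext_iff]
    rfl
  by_cases h : g • (x : X) = x
  · rw [if_pos h, if_pos (e1.mpr h)]
  · rw [if_neg h, if_neg (fun h' => h (e1.mp h'))]

end ind

section poly

open Polynomial

variable {G : Type} [Group G]

/-- a function to polynomials all of whose coefficients are signed permutation characters -/
def IsSPP {G : Type} [Group G] (t : G → ℤ[X]) : Prop := ∀ k, IsSP (fun g => (t g).coeff k)

lemma IsSPP.congr {t t' : G → ℤ[X]} (h : IsSPP t) (e : ∀ g, t' g = t g) : IsSPP t' :=
  fun k => (h k).congr fun g => by rw [e g]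

lemma IsSPP.zero : IsSPP (fun _ : G => (0 : ℤ[X])) :=
  fun k => IsSP.zero.congr fun _ => coeff_zero k

lemma IsSPP.C {t : G → ℤ} (h : IsSP t) : IsSPP (fun g => C (t g)) := by
  intro k
  by_cases hk : k = 0
  · subst hk
    exact h.congr fun g => coeff_C_zero
  · exact IsSP.zero.congr fun g => coeff_C_of_ne_zero hk

lemma IsSPP.one : IsSPP (fun _ : G => (1 : ℤ[X])) := (IsSPP.C IsSP.one).congr fun _ => C_1.symm

lemma IsSPP.add {t t' : G → ℤ[X]} (h : IsSPP t) (h' : IsSPP t') : IsSPP (fun g => t g + t' g) :=
  fun k => ((h k).add (h' k)).congr fun _ => coeff_add _ _ _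

lemma IsSPP.mul {t t' : G → ℤ[X]} (h : IsSPP t) (h' : IsSPP t') : IsSPP (fun g => t g * t' g) := by
  intro k
  refine (IsSP.sum (Finset.HasAntidiagonal.antidiagonal k) (fun x g => (t g).coeff x.1 * (t' g).coeff x.2)
    (fun x _ => (h x.1).mul (h' x.2))).congr fun g => ?_
  exact coeff_mul _ _ _

lemma IsSPP.sum {ι : Type*} (s : Finset ι) (t : ι → G → ℤ[X]) (h : ∀ i ∈ s, IsSPP (t i)) :
    IsSPP (fun g => ∑ i ∈ s, t i g) := by
  intro k
  refine (IsSP.sum s (fun i g => (t i g).coeff k) (fun i hi => h i hi k)).congr fun g => ?_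
  exact finsetSum_coeff _ _ _

lemma IsSPP.monomial (m : ℕ) : IsSPP (fun _ : G => (X ^ m : ℤ[X])) := by
  intro k
  by_cases hk : k = m
  · subst hk
    exact IsSP.one.congr fun _ => by rw [coeff_X_pow_self]
  · exact IsSP.zero.congr fun _ => by rw [coeff_X_pow, if_neg hk]

/-- polynomials with non-negative coefficients -/
lemma IsSPP.const (P : ℤ[X]) (h : ∀ k, 0 ≤ P.coeff k) : IsSPP (fun _ : G => P) := by
  intro k
  exact (IsSP.natCast (P.coeff k).toNat).congr fun _ => (Int.toNat_of_nonneg (h k)).symm

lemma IsSPP.comap {G' : Type} [Group G'] (φ : G' →* G) {t : G → ℤ[X]} (h : IsSPP t) :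
    IsSPP (fun g => t (φ g)) := fun k => (h k).comap φ

/-- **Induction** for polynomials -/
theorem IsSPP.ind (X : Type) [Fintype X] [MulAction G X] (t : G → X → ℤ[X])
    (hconj : ∀ (g h : G) (x : X), h • x = x → t (g * h * g⁻¹) (g • x) = t h x)
    (hx : ∀ x : X, IsSPP (fun h : stabilizer G x => t h x)) :
    IsSPP (fun g => ∑ x : X, if g • x = x then t g x else 0) := by
  intro k
  refine (IsSP.ind X (fun g x => (t g x).coeff k) (fun g h x hx => by rw [hconj g h x hx])
    (fun x => hx x k)).congr fun g => ?_
  rw [finsetSum_coeff]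
  refine Finset.sum_congr rfl fun x _ => ?_
  split_ifs
  · rfl
  · exact coeff_zero k

end poly

end Pool.Agent.Mbar
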