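import Mathlib
import Pool.Agent.Mbar.Defs
import Pool.Agent.Mbar.SSet

/-! # CLASSES: the classes of equal weight and the sign functions -/

noncomputable section

namespace Pool.Agent.Mbar

open Polynomial

open scoped Classical

variable {H : Type} [Group H] {P : Type} [Fintype P] [MulAction H P]

omit [Fintype P] in
theorem classes_mem_uni (l : List (Finset P)) (x : P) : x ∈ uni l ↔ ∃ U ∈ l, x ∈ U := by
  induction l with
  | nil => simp [uni]
  | cons U l ih =>
    rw [uni, Finset.mem_union, ih]
    simp

theorem classes_mem (w : P → ℕ) (U : Finset P) :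
    U ∈ classes w ↔ ∃ x : P, U = Finset.univ.filter (fun y => w y = w x) := by
  unfold classes
  rw [List.mem_map]
  constructor
  · rintro ⟨v, hv, rfl⟩
    rw [Finset.mem_sort, Finset.mem_image] at hv
    obtain ⟨x, -, rfl⟩ := hv
    exact ⟨x, rfl⟩
  · rintro ⟨x, rfl⟩
    refine ⟨w x, ?_, rfl⟩
    rw [Finset.mem_sort]
    exact Finset.mem_image_of_mem w (Finset.mem_univ x)

theorem classes_good (w : P → ℕ) (hw : ∀ (g : H) x, w (g • x) = w x) : GoodList H (classes w) := by
  refine ⟨?_, ?_, ?_⟩
  · intro U hU g x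
    obtain ⟨y, rfl⟩ := (classes_mem w U).mp hU
    simp only [Finset.mem_filter, Finset.mem_univ, true_and, hw]
  · intro U hU
    obtain ⟨y, rfl⟩ := (classes_mem w U).mp hU
    exact ⟨y, by simp⟩
  · unfold classes
    rw [List.pairwise_map]
    have hn : ((Finset.univ.image w).sort (fun a b => b ≤ a)).Nodup := Finset.sort_nodup _ _
    refine List.Pairwise.imp ?_ hn
    intro a b hab
    rw [Finset.disjoint_left]
    intro x hx hx'
    simp only [Finset.mem_filter, Finset.mem_univ, true_and] at hx hx'
    exact hab (hx.symm.trans hx')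

theorem uni_classes (w : P → ℕ) : uni (classes w) = (Finset.univ : Finset P) := by
  ext x
  rw [classes_mem_uni]
  simp only [Finset.mem_univ, iff_true]
  exact ⟨_, (classes_mem w _).mpr ⟨x, rfl⟩, by simp⟩

theorem classes_card_compl_inter (S U : Finset P) :
    (Sᶜ ∩ U).card + (S ∩ U).card = U.card := by
  have h := Finset.card_sdiff_add_card_inter U S
  rw [Finset.inter_comm S U, ← h]
  congr 2
  ext x
  simp only [Finset.mem_inter, Finset.mem_compl, Finset.mem_sdiff]
  tauto

/-- basic properties of the lexicographic sign -/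
theorem lexs_compl (l : List (Finset P)) (S : Finset P) : lexs l Sᶜ = - lexs l S := by
  induction l with
  | nil => simp [lexs]
  | cons U l ih =>
    have h := classes_card_compl_inter S U
    unfold lexs
    by_cases h1 : 2 * (S ∩ U).card = U.card
    · rw [if_pos h1, if_pos (by omega), ih]
    · rw [if_neg h1, if_neg (by omega)]
      have h' : ((Sᶜ ∩ U).card : ℤ) + ((S ∩ U).card : ℤ) = (U.card : ℤ) := by exact_mod_cast h
      linarith

omit [Fintype P] in
theorem classes_map_inter {U : Finset P} (hU : HStable H U) (g : H) (S : Finset P) :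
    S.map (pm P g).toEmbedding ∩ U = (S ∩ U).map (pm P g).toEmbedding := by
  ext x
  simp only [Finset.mem_inter, Finset.mem_map_equiv]
  refine and_congr_right fun _ => ?_
  have h1 := hU g ((Equiv.symm (pm P g)) x)
  have h2 : g • ((Equiv.symm (pm P g)) x) = x := (pm P g).apply_symm_apply x
  rw [h2] at h1
  exact h1.symm

theorem lexs_map (l : List (Finset P)) (hl : GoodList H l) (g : H) (S : Finset P) :
    lexs l (S.map (pm P g).toEmbedding) = lexs l S := by
  induction l with
  | nil => rfl
  | cons U l ih =>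
    have hl' : GoodList H l := ⟨fun V hV => hl.stable V (List.mem_cons_of_mem U hV),
      fun V hV => hl.nonempty V (List.mem_cons_of_mem U hV), (List.pairwise_cons.mp hl.disj).2⟩
    have h : (S.map (pm P g).toEmbedding ∩ U).card = (S ∩ U).card := by
      rw [classes_map_inter (hl.stable U List.mem_cons_self), Finset.card_map]
    unfold lexs
    rw [h, ih hl']

theorem classes_sum_compl (w : P → ℕ) (θ : ℕ) (S : Finset P) :
    (∑ x, if θ < w x then ((w x : ℤ) - θ) * (if x ∈ Sᶜ then 1 else -1) else 0) =
      - ∑ x, if θ < w x then ((w x : ℤ) - θ) * (if x ∈ S then 1 else -1) else 0 := by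
  rw [← Finset.sum_neg_distrib]
  refine Finset.sum_congr rfl fun x _ => ?_
  by_cases h : θ < w x
  · by_cases h' : x ∈ S
    · simp [h, h']
    · simp [h, h']
  · simp [h]

theorem sgW_compl (w : P → ℕ) (θ : ℕ) (S : Finset P) : sgW w θ Sᶜ = - sgW w θ S := by
  unfold sgW
  rw [classes_sum_compl, lexs_compl]
  by_cases h : (∑ x, if θ < w x then ((w x : ℤ) - θ) * (if x ∈ S then 1 else -1) else 0) = 0
  · rw [if_pos h, if_pos (by rw [h, neg_zero])]
  · rw [if_neg h, if_neg (fun h' => h (neg_eq_zero.mp h'))]

theorem classes_sum_map (w : P → ℕ) (hw : ∀ (g : H) x, w (g • x) = w x) (θ : ℕ) (g : H)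
    (S : Finset P) :
    (∑ x, if θ < w x then ((w x : ℤ) - θ) * (if x ∈ S.map (pm P g).toEmbedding then 1 else -1)
      else 0) =
      ∑ x, if θ < w x then ((w x : ℤ) - θ) * (if x ∈ S then 1 else -1) else 0 := by
  rw [← Equiv.sum_comp (pm P g)]
  refine Finset.sum_congr rfl fun x _ => ?_
  have h1 : w ((pm P g) x) = w x := hw g x
  have h2 : (pm P g) x ∈ S.map (pm P g).toEmbedding ↔ x ∈ S := by
    rw [Finset.mem_map_equiv, Equiv.symm_apply_apply]
  rw [h1]
  by_cases h' : x ∈ S
  · rw [if_pos h', if_pos (h2.mpr h')]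
  · rw [if_neg h', if_neg (fun h => h' (h2.mp h))]

theorem sgW_map (w : P → ℕ) (hw : ∀ (g : H) x, w (g • x) = w x) (θ : ℕ) (g : H) (S : Finset P) :
    sgW w θ (S.map (pm P g).toEmbedding) = sgW w θ S := by
  unfold sgW
  rw [classes_sum_map w hw, lexs_map _ (classes_good w hw)]

theorem numS_lexs (w : P → ℕ) (g : H) : numS (lexs (classes w)) g = numL (classes w) g := by
  unfold numS numL
  rw [uni_classes, Finset.card_univ]

end Pool.Agent.Mbar
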