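import Mathlib
import Pool.Agent.Mbar.SSet
import Pool.Agent.Mbar.Defs

/-! # Fixed subsets -/

noncomputable section

namespace Pool.Agent.Mbar

open Polynomial

open scoped Classical

variable {H : Type} [Group H] {P : Type} [Fintype P] [MulAction H P]

section HALFA

/-- the action of the group on the subsets -/
@[instance_reducible]
def HALFA.act (H : Type) [Group H] (P : Type) [MulAction H P] : MulAction H (Finset P) where
  smul := fun g S => S.map (pm P g).toEmbedding
  one_smul := fun S => by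
    change S.map (pm P (1 : H)).toEmbedding = S
    ext x
    simp
  mul_smul := fun g h S => by
    change S.map (pm P (g * h)).toEmbedding =
      (S.map (pm P h).toEmbedding).map (pm P g).toEmbedding
    rw [Finset.map_map]
    congr 1
    ext x
    simp [mul_smul]

omit [Fintype P] in
theorem HALFA.subset_map {U : Finset P} (hU : HStable H U) (g : H) {S : Finset P} (hS : S ⊆ U) :
    S.map (pm P g).toEmbedding ⊆ U := by
  intro x hx
  rw [Finset.mem_map] at hx
  obtain ⟨y, hy, rfl⟩ := hx
  exact (hU g y).1 (hS hy)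

omit [Fintype P] in
theorem HALFA.map_stable {U : Finset P} (hU : HStable H U) (g : H) :
    U.map (pm P g).toEmbedding = U := by
  apply Finset.eq_of_subset_of_card_le (HALFA.subset_map hU g (Finset.Subset.refl U))
  rw [Finset.card_map]

omit [Fintype P] in
theorem HALFA.mem_fx {U S : Finset P} {g : H} :
    S ∈ fx U g ↔ S ⊆ U ∧ S.map (pm P g).toEmbedding = S := by
  unfold fx
  rw [Finset.mem_filter, Finset.mem_powerset]

theorem Fx_eq (U : Finset P) (g : H) :
    Fx U g = ∑ a ∈ Finset.range (U.card + 1), C (Mx U a g) * X ^ a := by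
  unfold Fx
  rw [← Finset.sum_fiberwise_of_maps_to (t := Finset.range (U.card + 1)) (g := Finset.card)]
  · refine Finset.sum_congr rfl fun a _ => ?_
    unfold Mx
    rw [Finset.sum_congr rfl (fun S hS => by rw [(Finset.mem_filter.1 hS).2] :
      ∀ S ∈ (fx U g).filter (fun S => S.card = a), (X ^ S.card : ℤ[X]) = X ^ a)]
    rw [Finset.sum_const, nsmul_eq_mul]
    simp
  · intro S hS
    rw [Finset.mem_range, Nat.lt_succ_iff]
    exact Finset.card_le_card (HALFA.mem_fx.1 hS).1

theorem Mx_symm {U : Finset P} (hU : HStable H U) (a : ℕ) (ha : a ≤ U.card) (g : H) :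
    Mx U (U.card - a) g = Mx U a g := by
  unfold Mx
  congr 1
  refine Finset.card_bij' (fun S _ => U \ S) (fun S _ => U \ S) ?_ ?_ ?_ ?_
  · intro S hS
    rw [Finset.mem_filter, HALFA.mem_fx] at hS ⊢
    obtain ⟨⟨h1, h2⟩, h3⟩ := hS
    refine ⟨⟨Finset.sdiff_subset, ?_⟩, ?_⟩
    · rw [Finset.map_sdiff, HALFA.map_stable hU, h2]
    · rw [Finset.card_sdiff_of_subset h1, h3]
      omega
  · intro S hS
    rw [Finset.mem_filter, HALFA.mem_fx] at hS ⊢
    obtain ⟨⟨h1, h2⟩, h3⟩ := hS
    refine ⟨⟨Finset.sdiff_subset, ?_⟩, ?_⟩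
    · rw [Finset.map_sdiff, HALFA.map_stable hU, h2]
    · rw [Finset.card_sdiff_of_subset h1, h3]
  · intro S hS
    rw [Finset.mem_filter, HALFA.mem_fx] at hS
    exact Finset.sdiff_sdiff_eq_self hS.1.1
  · intro S hS
    rw [Finset.mem_filter, HALFA.mem_fx] at hS
    exact Finset.sdiff_sdiff_eq_self hS.1.1

theorem HALFA.sp_card (F : Finset P → Prop)
    (hF : ∀ (g : H) S, F (S.map (pm P g).toEmbedding) ↔ F S) (U : Finset P) (hU : HStable H U)
    (k : ℕ) :
    IsSP (fun g : H => ((((fx U g).filter F).filter (fun S => S.card = k)).card : ℤ)) := by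
  let _ : MulAction H (Finset P) := HALFA.act H P
  refine (IsSP.natCard_pred (G := H) (Finset P) (fun S => S ⊆ U ∧ F S ∧ S.card = k) ?_).congr ?_
  · rintro g S ⟨h1, h2, h3⟩
    exact ⟨HALFA.subset_map hU g h1, (hF g S).2 h2, (Finset.card_map _).trans h3⟩
  · intro g
    rw [Nat.card_eq_fintype_card, Fintype.card_subtype]
    congr 2
    ext S
    rw [Finset.mem_filter, Finset.mem_filter, HALFA.mem_fx, Finset.mem_filter]
    constructor
    · rintro ⟨⟨⟨h1, h2⟩, h3⟩, h4⟩
      exact ⟨Finset.mem_univ _, ⟨h1, h3, h4⟩, h2⟩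
    · rintro ⟨_, ⟨h1, h3, h4⟩, h2⟩
      exact ⟨⟨⟨h1, h2⟩, h3⟩, h4⟩

theorem sp_Mx {U : Finset P} (hU : HStable H U) (a : ℕ) : IsSP (fun g : H => Mx U a g) := by
  refine (HALFA.sp_card (fun _ => True) (fun _ _ => Iff.rfl) U hU a).congr fun g => ?_
  unfold Mx
  congr 2
  rw [Finset.filter_true]

/-- `(1+X)^(U ∪ W) = (1+X)^U (1+X)^W` -/
theorem Fx_union {U W : Finset P} (hU : HStable H U) (hW : HStable H W) (hd : Disjoint U W)
    (g : H) : Fx (U ∪ W) g = Fx U g * Fx W g := by
  unfold Fx
  rw [Finset.sum_mul_sum, ← Finset.sum_product']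
  refine Finset.sum_bij' (fun S _ => (S ∩ U, S ∩ W)) (fun x _ => x.1 ∪ x.2) ?_ ?_ ?_ ?_ ?_
  · intro S hS
    rw [HALFA.mem_fx] at hS
    rw [Finset.mem_product, HALFA.mem_fx, HALFA.mem_fx]
    refine ⟨⟨Finset.inter_subset_right, ?_⟩, ⟨Finset.inter_subset_right, ?_⟩⟩
    · simp only
      rw [Finset.map_inter, hS.2, HALFA.map_stable hU]
    · simp only
      rw [Finset.map_inter, hS.2, HALFA.map_stable hW]
  · rintro ⟨A, B⟩ h
    rw [Finset.mem_product, HALFA.mem_fx, HALFA.mem_fx] at h
    rw [HALFA.mem_fx]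
    refine ⟨Finset.union_subset_union h.1.1 h.2.1, ?_⟩
    simp only
    rw [Finset.map_union, h.1.2, h.2.2]
  · intro S hS
    rw [HALFA.mem_fx] at hS
    simp only
    rw [← Finset.inter_union_distrib_left]
    exact Finset.inter_eq_left.2 hS.1
  · rintro ⟨A, B⟩ h
    rw [Finset.mem_product, HALFA.mem_fx, HALFA.mem_fx] at h
    obtain ⟨⟨h1, _⟩, ⟨h2, _⟩⟩ := h
    simp only at h1 h2
    simp only [Prod.mk.injEq]
    constructor
    · rw [Finset.union_inter_distrib_right, Finset.inter_eq_left.2 h1,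
        Finset.disjoint_iff_inter_eq_empty.1 (hd.symm.mono_left h2), Finset.union_empty]
    · rw [Finset.union_inter_distrib_right, Finset.inter_eq_left.2 h2,
        Finset.disjoint_iff_inter_eq_empty.1 (hd.mono_left h1), Finset.empty_union]
  · intro S hS
    rw [HALFA.mem_fx] at hS
    simp only
    rw [← pow_add, ← Finset.card_union_of_disjoint, ← Finset.inter_union_distrib_left,
      Finset.inter_eq_left.2 hS.1]
    exact hd.mono Finset.inter_subset_right Finset.inter_subset_right

/-- invariant families of subsets -/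
theorem sp_family (F : Finset P → Prop) (hF : ∀ (g : H) S, F (S.map (pm P g).toEmbedding) ↔ F S)
    (U : Finset P) (hU : HStable H U) :
    IsSPP (fun g : H => ∑ S ∈ (fx U g).filter F, X ^ S.card) := by
  intro k
  refine (HALFA.sp_card F hF U hU k).congr fun g => ?_
  rw [finsetSum_coeff]
  simp only [coeff_X_pow]
  rw [Finset.sum_ite, Finset.sum_const_zero, add_zero, Finset.sum_const, nsmul_eq_mul, mul_one]
  congr 2
  ext S
  simp only [Finset.mem_filter]
  exact and_congr_right fun _ => eq_comm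

end HALFA

end Pool.Agent.Mbar
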