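import Mathlib
import Pool.Agent.Mbar.SSet
import Pool.Agent.Mbar.Defs
import Pool.Agent.Mbar.HALFA

/-! # Half subsets -/

noncomputable section

namespace Pool.Agent.Mbar

open Polynomial

open scoped Classical

variable {H : Type} [Group H] {P : Type} [Fintype P] [MulAction H P]

section HALFB

/-- a stable subset is mapped to its complement by some division of the cycles or contains a
stable subset with an odd number of elements -/
theorem HALFB.dichotomy (σ : Equiv.Perm P) : ∀ (n : ℕ) (U : Finset P), U.card = n →
    U.map σ.toEmbedding = U →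
    (∃ A ⊆ U, A.map σ.toEmbedding = U \ A) ∨
      (∃ c ⊆ U, c.map σ.toEmbedding = c ∧ Odd c.card) := by
  intro n
  induction n using Nat.strong_induction_on with
  | _ n ih =>
    intro U hn hU
    rcases U.eq_empty_or_nonempty with rfl | ⟨x, hx⟩
    · exact Or.inl ⟨∅, Finset.Subset.refl _, by simp⟩
    · have hmap : ∀ y, y ∈ U ↔ σ y ∈ U := by
        intro y
        conv_rhs => rw [← hU]
        simp
      have hz : ∀ (k : ℤ) y, y ∈ U → (σ ^ k) y ∈ U := by
        intro k
        have hp : ∀ (j : ℕ) y, y ∈ U → (σ ^ j) y ∈ U := by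
          intro j
          induction j with
          | zero => intro y hy; simpa using hy
          | succ j ihj =>
            intro y hy
            rw [pow_succ', Equiv.Perm.mul_apply]
            exact (hmap _).1 (ihj y hy)
        have hq : ∀ (j : ℕ) y, y ∈ U → ((σ ^ j)⁻¹) y ∈ U := by
          intro j
          induction j with
          | zero => intro y hy; simpa using hy
          | succ j ihj =>
            intro y hy
            rw [pow_succ, mul_inv_rev, Equiv.Perm.mul_apply]
            rw [hmap, ← Equiv.Perm.mul_apply, mul_inv_cancel, Equiv.Perm.one_apply]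
            exact ihj y hy
        intro y hy
        rcases k with j | j
        · exact hp j y hy
        · exact hq (j + 1) y hy
      -- the cycle of x
      let O : Finset P := Finset.univ.filter (fun y => ∃ i : ℤ, (σ ^ i) x = y)
      have hOU : O ⊆ U := by
        intro y hy
        obtain ⟨i, rfl⟩ := (Finset.mem_filter.1 hy).2
        exact hz i x hx
      have hO : O.map σ.toEmbedding = O := by
        apply Finset.eq_of_subset_of_card_le
        · intro y hy
          rw [Finset.mem_map] at hy
          obtain ⟨z, hz1, rfl⟩ := hy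
          obtain ⟨i, rfl⟩ := (Finset.mem_filter.1 hz1).2
          refine Finset.mem_filter.2 ⟨Finset.mem_univ _, 1 + i, ?_⟩
          rw [zpow_add, zpow_one]
          rfl
        · rw [Finset.card_map]
      have hxO : x ∈ O := Finset.mem_filter.2 ⟨Finset.mem_univ _, 0, by simp⟩
      have hcard : O.card = Function.minimalPeriod (fun y => σ y) x := by
        have h1 := MulAction.minimalPeriod_eq_card (a := σ) (b := x)
        rw [← Nat.card_eq_fintype_card] at h1
        have h2 : Function.minimalPeriod (fun y => σ y) x =
            Function.minimalPeriod (fun y => σ • y) x := rfl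
        rw [h2, h1, ← Fintype.card_coe, ← Nat.card_eq_fintype_card]
        refine Nat.card_congr (Equiv.subtypeEquivRight fun y => ?_)
        rw [Finset.mem_filter, MulAction.mem_orbit_iff]
        constructor
        · rintro ⟨_, i, hi⟩
          exact ⟨⟨σ ^ i, ⟨i, rfl⟩⟩, hi⟩
        · rintro ⟨⟨_, ⟨i, rfl⟩⟩, hi⟩
          exact ⟨Finset.mem_univ _, i, hi⟩
      -- induction
      have hUO : (U \ O).map σ.toEmbedding = U \ O := by
        rw [Finset.map_sdiff, hU, hO]
      have hlt : (U \ O).card < n := by
        rw [← hn]
        exact Finset.card_lt_card (Finset.ssubset_iff_of_subset Finset.sdiff_subset |>.2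
          ⟨x, hx, fun h => (Finset.mem_sdiff.1 h).2 hxO⟩)
      rcases ih _ hlt (U \ O) rfl hUO with ⟨A, hA, hA2⟩ | ⟨c, hc, hc2⟩
      swap
      · exact Or.inr ⟨c, hc.trans Finset.sdiff_subset, hc2⟩
      · by_cases hodd : Odd O.card
        · exact Or.inr ⟨O, hOU, hO, hodd⟩
        · left
          let B : Finset P := Finset.univ.filter (fun y => ∃ i : ℤ, (σ ^ (2 * i)) x = y)
          have hBO : B ⊆ O := by
            intro y hy
            obtain ⟨i, rfl⟩ := (Finset.mem_filter.1 hy).2
            exact Finset.mem_filter.2 ⟨Finset.mem_univ _, 2 * i, rfl⟩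
          have hB : B.map σ.toEmbedding = O \ B := by
            ext y
            rw [Finset.mem_map, Finset.mem_sdiff]
            constructor
            · rintro ⟨z, hz1, rfl⟩
              obtain ⟨i, rfl⟩ := (Finset.mem_filter.1 hz1).2
              refine ⟨?_, ?_⟩
              · refine Finset.mem_filter.2 ⟨Finset.mem_univ _, 1 + 2 * i, ?_⟩
                rw [zpow_add, zpow_one]
                rfl
              · intro h
                obtain ⟨j, hj⟩ := (Finset.mem_filter.1 h).2
                apply hodd
                have h1 : (σ ^ (2 * j - (1 + 2 * i))) • x = x := by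
                  have h2 : (σ ^ (2 * j)) x = (σ ^ (1 + 2 * i)) x := by
                    rw [hj, zpow_add, zpow_one]
                    rfl
                  change (σ ^ (2 * j - (1 + 2 * i))) x = x
                  rw [sub_eq_neg_add, zpow_add, Equiv.Perm.mul_apply, h2,
                    ← Equiv.Perm.mul_apply, ← zpow_add, neg_add_cancel, zpow_zero]
                  rfl
                rw [MulAction.zpow_smul_eq_iff_minimalPeriod_dvd] at h1
                rw [hcard]
                have h3 : Function.minimalPeriod (fun y => σ y) x =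
                    Function.minimalPeriod (fun y => σ • y) x := rfl
                rw [h3]
                rw [Nat.odd_iff]
                by_contra h4
                have h5 : (2 : ℤ) ∣ (Function.minimalPeriod (fun y => σ • y) x : ℤ) := by
                  have : 2 ∣ Function.minimalPeriod (fun y => σ • y) x := by omega
                  exact_mod_cast this
                have h6 := h5.trans h1
                omega
            · rintro ⟨h1, h2⟩
              obtain ⟨i, rfl⟩ := (Finset.mem_filter.1 h1).2
              rcases Int.even_or_odd' i with ⟨j, hj | hj⟩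
              · exfalso
                apply h2
                exact Finset.mem_filter.2 ⟨Finset.mem_univ _, j, by rw [hj]⟩
              · refine ⟨(σ ^ (2 * j)) x, Finset.mem_filter.2 ⟨Finset.mem_univ _, j, rfl⟩, ?_⟩
                rw [hj, add_comm, zpow_add, zpow_one]
                rfl
          refine ⟨B ∪ A, Finset.union_subset (hBO.trans hOU) (hA.trans Finset.sdiff_subset), ?_⟩
          rw [Finset.map_union, hB, hA2]
          ext y
          simp only [Finset.mem_union, Finset.mem_sdiff]
          have k1 : y ∈ B → y ∈ O := fun h => hBO h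
          have k2 : y ∈ A → y ∈ U ∧ y ∉ O := fun h => Finset.mem_sdiff.1 (hA h)
          have k3 : y ∈ O → y ∈ U := fun h => hOU h
          tauto

omit [Fintype P] in
theorem HALFB.mem_ax {U S : Finset P} {g : H} :
    S ∈ ax U g ↔ S ⊆ U ∧ S.map (pm P g).toEmbedding = U \ S := by
  unfold ax
  rw [Finset.mem_filter, Finset.mem_powerset]

omit [Fintype P] in
theorem HALFB.even_of_anti (σ : Equiv.Perm P) {U A S : Finset P}
    (hA2 : A.map σ.toEmbedding = U \ A) (hS : S ⊆ U) (hS2 : S.map σ.toEmbedding = S) :
    Even S.card := by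
  have h1 : (S ∩ A).map σ.toEmbedding = S \ A := by
    rw [Finset.map_inter, hS2, hA2]
    ext y
    simp only [Finset.mem_inter, Finset.mem_sdiff]
    constructor
    · rintro ⟨a, _, c⟩; exact ⟨a, c⟩
    · rintro ⟨a, c⟩; exact ⟨a, hS a, c⟩
  have h2 : (S \ A).card = (S ∩ A).card := by rw [← h1, Finset.card_map]
  have h3 := Finset.card_inter_add_card_sdiff S A
  rw [h2] at h3
  exact ⟨_, h3.symm⟩

/-- `(1+X)^U` is divisible by `1+X` up to the unstable subsets -/
theorem Fx_neg_one {U : Finset P} (hU : HStable H U) (g : H) :
    (Fx U g).eval (-1) = Ax U g := by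
  unfold Fx Ax
  rw [eval_finsetSum]
  simp only [eval_pow, eval_X]
  rcases HALFB.dichotomy (pm P g) _ U rfl (HALFA.map_stable hU g) with ⟨A, hA, hA2⟩ | ⟨c, hc, hc2, hc3⟩
  · have h1 : ∀ S ∈ fx U g, ((-1 : ℤ) ^ S.card) = 1 := by
      intro S hS
      rw [HALFA.mem_fx] at hS
      exact (HALFB.even_of_anti (pm P g) hA2 hS.1 hS.2).neg_one_pow
    rw [Finset.sum_congr rfl h1, Finset.sum_const, nsmul_eq_mul, mul_one]
    congr 1
    refine Finset.card_bij' (fun S _ => symmDiff S A) (fun S _ => symmDiff S A) ?_ ?_ ?_ ?_
    · intro S hS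
      rw [HALFA.mem_fx] at hS
      rw [HALFB.mem_ax]
      have k1 : ∀ y, y ∈ S → y ∈ U := fun y h => hS.1 h
      have k2 : ∀ y, y ∈ A → y ∈ U := fun y h => hA h
      constructor
      · intro y hy
        rw [Finset.mem_symmDiff] at hy
        rcases hy with h | h
        · exact k1 y h.1
        · exact k2 y h.1
      · have : (symmDiff S A).map (pm P g).toEmbedding =
            symmDiff (S.map (pm P g).toEmbedding) (A.map (pm P g).toEmbedding) := by
          unfold symmDiff
          simp only [Finset.sup_eq_union]
          rw [Finset.map_union, Finset.map_sdiff, Finset.map_sdiff]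
        rw [this, hS.2, hA2]
        ext y
        simp only [Finset.mem_symmDiff, Finset.mem_sdiff]
        have := k1 y
        have := k2 y
        tauto
    · intro S hS
      rw [HALFB.mem_ax] at hS
      rw [HALFA.mem_fx]
      have k1 : ∀ y, y ∈ S → y ∈ U := fun y h => hS.1 h
      have k2 : ∀ y, y ∈ A → y ∈ U := fun y h => hA h
      constructor
      · intro y hy
        rw [Finset.mem_symmDiff] at hy
        rcases hy with h | h
        · exact k1 y h.1
        · exact k2 y h.1
      · have : (symmDiff S A).map (pm P g).toEmbedding =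
            symmDiff (S.map (pm P g).toEmbedding) (A.map (pm P g).toEmbedding) := by
          unfold symmDiff
          simp only [Finset.sup_eq_union]
          rw [Finset.map_union, Finset.map_sdiff, Finset.map_sdiff]
        rw [this, hS.2, hA2]
        ext y
        simp only [Finset.mem_symmDiff, Finset.mem_sdiff]
        have := k1 y
        have := k2 y
        tauto
    · intro S _
      simp only [symmDiff_symmDiff_cancel_right]
    · intro S _
      simp only [symmDiff_symmDiff_cancel_right]
  · have h0 : ax U g = ∅ := by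
      rw [Finset.eq_empty_iff_forall_notMem]
      intro A hA
      rw [HALFB.mem_ax] at hA
      have := HALFB.even_of_anti (pm P g) hA.2 hc hc2
      exact (Nat.not_even_iff_odd.2 hc3) this
    rw [h0, Finset.card_empty, Nat.cast_zero]
    have hmap : ∀ S : Finset P, (symmDiff S c).map (pm P g).toEmbedding =
        symmDiff (S.map (pm P g).toEmbedding) (c.map (pm P g).toEmbedding) := by
      intro S
      unfold symmDiff
      simp only [Finset.sup_eq_union]
      rw [Finset.map_union, Finset.map_sdiff, Finset.map_sdiff]
    have hcne : c.Nonempty := by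
      rw [← Finset.card_pos]
      exact hc3.pos
    refine Finset.sum_involution (fun S _ => symmDiff S c) ?_ ?_ ?_ ?_
    · intro S _
      have h2 : (symmDiff S c).card + 2 * (S ∩ c).card = S.card + c.card := by
        have e1 : (symmDiff S c).card = (S \ c).card + (c \ S).card := by
          unfold symmDiff
          rw [Finset.sup_eq_union, Finset.card_union_of_disjoint]
          exact disjoint_sdiff_sdiff
        have e2 := Finset.card_inter_add_card_sdiff S c
        have e3 := Finset.card_inter_add_card_sdiff c S
        rw [Finset.inter_comm c S] at e3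
        omega
      have h3 : (-1 : ℤ) ^ (symmDiff S c).card = (-1) ^ (S.card + c.card) := by
        rw [← h2, pow_add, pow_mul]
        simp
      rw [h3, pow_add, hc3.neg_one_pow]
      ring
    · intro S _ _ h
      have : c = ∅ := by
        have h1 : symmDiff S (symmDiff S c) = symmDiff S S := by rw [h]
        rw [symmDiff_symmDiff_cancel_left, symmDiff_self] at h1
        exact h1
      rw [this] at hcne
      exact Finset.not_nonempty_empty hcne
    · intro S hS
      rw [HALFA.mem_fx] at hS ⊢
      constructor
      · intro y hy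
        rw [Finset.mem_symmDiff] at hy
        rcases hy with h | h
        · exact hS.1 h.1
        · exact hc h.1
      · rw [hmap, hS.2, hc2]
    · intro S _
      simp only [symmDiff_symmDiff_cancel_right]

/-- alternating sum of the numbers of fixed subsets -/
theorem alt_sum {U : Finset P} (hU : HStable H U) (g : H) :
    ∑ a ∈ Finset.range (U.card + 1), (-1) ^ a * Mx U a g = Ax U g := by
  rw [← Fx_neg_one hU g, Fx_eq, eval_finsetSum]
  refine Finset.sum_congr rfl fun a _ => ?_
  rw [eval_mul, eval_C, eval_pow, eval_X, mul_comm]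

/-- the set of orbits of a free equivariant involution -/
theorem HALFB.quot_invol {G : Type} [Group G] (Z : Type) [Fintype Z] [MulAction G Z] (ι : Z → Z)
    (hι : ∀ z, ι (ι z) = z) (hfree : ∀ z, ι z ≠ z) (hg : ∀ (g : G) z, g • ι z = ι (g • z))
    (t : G → ℤ)
    (ht : ∀ g, 2 * t g = (Nat.card {z : Z // g • z = z} : ℤ) + Nat.card {z : Z // g • z = ι z}) :
    IsSP t := by
  have hpair : ∀ z w : Z, ({z, ι z} : Finset Z) = {w, ι w} ↔ z = w ∨ z = ι w := by
    intro z w
    constructor
    · intro h
      have : z ∈ ({w, ι w} : Finset Z) := by rw [← h]; simp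
      simpa using this
    · rintro (rfl | rfl)
      · rfl
      · rw [hι, Finset.pair_comm]
  let _ : MulAction G (Finset Z) := HALFA.act G Z
  have hact : ∀ (g : G) (z : Z), g • ({z, ι z} : Finset Z) = {g • z, ι (g • z)} := by
    intro g z
    change ({z, ι z} : Finset Z).map (pm Z g).toEmbedding = _
    rw [Finset.map_insert, Finset.map_singleton]
    simp only [Equiv.toEmbedding_apply, MulAction.toPerm_apply]
    rw [hg]
  refine (IsSP.natCard_pred (G := G) (Finset Z) (fun p => ∃ z, p = {z, ι z}) ?_).congr ?_
  · rintro g _ ⟨z, rfl⟩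
    exact ⟨g • z, hact g z⟩
  · intro g
    have h2 : (2 : ℤ) ≠ 0 := by norm_num
    apply mul_left_cancel₀ h2
    rw [ht g]
    simp only [Nat.card_eq_fintype_card]
    rw [Fintype.card_subtype, Fintype.card_subtype, Fintype.card_subtype]
    norm_cast
    rw [← Finset.card_union_of_disjoint]
    · rw [Finset.card_eq_sum_card_fiberwise (f := fun z => ({z, ι z} : Finset Z))
        (t := Finset.univ.filter (fun p : Finset Z => (∃ z, p = {z, ι z}) ∧ g • p = p))]
      · rw [mul_comm, ← smul_eq_mul, ← Finset.sum_const]
        refine Finset.sum_congr rfl fun p hp => ?_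
        obtain ⟨⟨z, rfl⟩, hz⟩ := (Finset.mem_filter.1 hp).2
        rw [hact, hpair] at hz
        have : ((Finset.univ.filter (fun z => g • z = z) ∪
            Finset.univ.filter (fun z => g • z = ι z)).filter
              (fun w => ({w, ι w} : Finset Z) = {z, ι z})) = {z, ι z} := by
          ext w
          rw [Finset.mem_filter, hpair]
          simp only [Finset.mem_union, Finset.mem_filter, Finset.mem_univ, true_and,
            Finset.mem_insert, Finset.mem_singleton]
          constructor
          · exact fun h => h.2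
          · rintro (rfl | rfl)
            · exact ⟨hz, Or.inl rfl⟩
            · refine ⟨?_, Or.inr rfl⟩
              rw [hg, hι]
              rcases hz with h | h
              · left; rw [h]
              · right; rw [h, hι]
        rw [this, Finset.card_pair (hfree z).symm]
      · intro z hz
        simp only [Finset.coe_filter, Finset.mem_univ, true_and, Set.mem_ofPred_eq]
        simp only [Finset.coe_union, Finset.coe_filter, Finset.mem_univ, true_and,
          Set.mem_union, Set.mem_ofPred_eq] at hz
        refine ⟨⟨z, rfl⟩, ?_⟩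
        rw [hact, hpair]
        exact hz
    · rw [Finset.disjoint_filter]
      intro z _ h1 h2
      rw [h1] at h2
      exact hfree z h2.symm

omit [Fintype P] in
theorem HALFB.half_count (T : Finset (Finset P)) {U : Finset P} (h1 : ∀ S ∈ T, S ⊆ U)
    (h2 : ∀ S ∈ T, U \ S ∈ T) {x : P} (hx : x ∈ U) :
    T.card = 2 * (T.filter (fun S => x ∈ S)).card := by
  rw [← Finset.card_filter_add_card_filter_not (s := T) (fun S => x ∈ S), two_mul]
  congr 1
  refine Finset.card_bij' (fun S _ => U \ S) (fun S _ => U \ S) ?_ ?_ ?_ ?_
  · intro S hS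
    rw [Finset.mem_filter] at hS ⊢
    exact ⟨h2 S hS.1, Finset.mem_sdiff.2 ⟨hx, hS.2⟩⟩
  · intro S hS
    rw [Finset.mem_filter] at hS ⊢
    exact ⟨h2 S hS.1, fun h => (Finset.mem_sdiff.1 h).2 hS.2⟩
  · intro S hS
    exact Finset.sdiff_sdiff_eq_self (h1 S (Finset.mem_filter.1 hS).1)
  · intro S hS
    exact Finset.sdiff_sdiff_eq_self (h1 S (Finset.mem_filter.1 hS).1)

/-- the symmetric and antisymmetric parts of the subsets containing half of the elements -/
theorem sp_half {U : Finset P} (hU : HStable H U) {m : ℕ} (hm : U.card = 2 * m) (hm1 : 1 ≤ m) :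
    ∃ Hp Hm : H → ℤ, IsSP Hp ∧ IsSP Hm ∧
      (∀ g, 2 * Hp g = Mx U m g + Ax U g) ∧ (∀ g, 2 * Hm g = Mx U m g - Ax U g) := by
  have hne : U.Nonempty := by
    rw [← Finset.card_pos]; omega
  obtain ⟨x, hx⟩ := hne
  let F : H → Finset (Finset P) := fun g => (fx U g).filter (fun S => S.card = m)
  have hF1 : ∀ g, ∀ S ∈ F g, S ⊆ U := by
    intro g S hS
    simp only [F, Finset.mem_filter, HALFA.mem_fx] at hS
    exact hS.1.1
  have hF2 : ∀ g, ∀ S ∈ F g, U \ S ∈ F g := by
    intro g S hS
    simp only [F, Finset.mem_filter, HALFA.mem_fx] at hS ⊢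
    refine ⟨⟨Finset.sdiff_subset, ?_⟩, ?_⟩
    · rw [Finset.map_sdiff, HALFA.map_stable hU, hS.1.2]
    · rw [Finset.card_sdiff_of_subset hS.1.1, hS.2, hm]; omega
  have hA1 : ∀ g : H, ∀ S ∈ ax U g, S ⊆ U := fun g S hS => (HALFB.mem_ax.1 hS).1
  have hA2 : ∀ g : H, ∀ S ∈ ax U g, U \ S ∈ ax U g := by
    intro g S hS
    rw [HALFB.mem_ax] at hS ⊢
    refine ⟨Finset.sdiff_subset, ?_⟩
    rw [Finset.map_sdiff, HALFA.map_stable hU, hS.2]
  have hA3 : ∀ g : H, ∀ S ∈ ax U g, S.card = m := by
    intro g S hS
    rw [HALFB.mem_ax] at hS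
    have h1 := congrArg Finset.card hS.2
    rw [Finset.card_map, Finset.card_sdiff_of_subset hS.1, hm] at h1
    have := Finset.card_le_card hS.1
    omega
  have hFc := fun g => HALFB.half_count (F g) (hF1 g) (hF2 g) hx
  have hAc := fun g : H => HALFB.half_count (ax U g) (hA1 g) (hA2 g) hx
  -- the set of half subsets
  let _ : MulAction H (Finset P) := HALFA.act H P
  let Z := {S : Finset P // S ⊆ U ∧ S.card = m}
  let _ : MulAction H Z :=
    { smul := fun g S => ⟨g • S.1, HALFA.subset_map hU g S.2.1, (Finset.card_map _).trans S.2.2⟩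
      one_smul := fun S => Subtype.ext (one_smul H S.1)
      mul_smul := fun g h S => Subtype.ext (mul_smul g h S.1) }
  let ι : Z → Z := fun S => ⟨U \ S.1, Finset.sdiff_subset, by
    rw [Finset.card_sdiff_of_subset S.2.1, S.2.2, hm]; omega⟩
  have hι : ∀ z, ι (ι z) = z := fun z => Subtype.ext (Finset.sdiff_sdiff_eq_self z.2.1)
  have hfree : ∀ z, ι z ≠ z := by
    intro z h
    have h1 : U \ z.1 = z.1 := congrArg Subtype.val h
    by_cases h2 : x ∈ z.1
    · have h3 := h2
      rw [← h1] at h3
      exact (Finset.mem_sdiff.1 h3).2 h2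
    · apply h2
      rw [← h1]
      exact Finset.mem_sdiff.2 ⟨hx, h2⟩
  have hgι : ∀ (g : H) z, g • ι z = ι (g • z) := by
    intro g z
    apply Subtype.ext
    change (U \ z.1).map (pm P g).toEmbedding = U \ (z.1.map (pm P g).toEmbedding)
    rw [Finset.map_sdiff, HALFA.map_stable hU]
  have hc1 : ∀ g : H, Nat.card {z : Z // g • z = z} = (F g).card := by
    intro g
    rw [← Fintype.card_coe, ← Nat.card_eq_fintype_card]
    refine Nat.card_congr ⟨fun z => ⟨z.1.1, ?_⟩, fun S => ⟨⟨S.1, ?_⟩, ?_⟩, fun z => rfl,
      fun S => rfl⟩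
    · simp only [F, Finset.mem_filter, HALFA.mem_fx]
      exact ⟨⟨z.1.2.1, congrArg Subtype.val z.2⟩, z.1.2.2⟩
    · have := S.2
      simp only [F, Finset.mem_filter, HALFA.mem_fx] at this
      exact ⟨this.1.1, this.2⟩
    · have := S.2
      simp only [F, Finset.mem_filter, HALFA.mem_fx] at this
      exact Subtype.ext this.1.2
  have hc2 : ∀ g : H, Nat.card {z : Z // g • z = ι z} = (ax U g).card := by
    intro g
    rw [← Fintype.card_coe, ← Nat.card_eq_fintype_card]
    refine Nat.card_congr ⟨fun z => ⟨z.1.1, ?_⟩, fun S => ⟨⟨S.1, ?_⟩, ?_⟩, fun z => rfl,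
      fun S => rfl⟩
    · rw [HALFB.mem_ax]
      exact ⟨z.1.2.1, congrArg Subtype.val z.2⟩
    · exact ⟨(HALFB.mem_ax.1 S.2).1, hA3 g S.1 S.2⟩
    · exact Subtype.ext (HALFB.mem_ax.1 S.2).2
  have e1 : ∀ g : H, Mx U m g = ((F g).card : ℤ) := fun g => rfl
  have e2 : ∀ g : H, Ax U g = ((ax U g).card : ℤ) := fun g => rfl
  refine ⟨fun g => (((F g).filter (fun S => x ∈ S)).card : ℤ) +
      (((ax U g).filter (fun S => x ∈ S)).card : ℤ),
    fun g => (((F g).filter (fun S => x ∈ S)).card : ℤ) -
      (((ax U g).filter (fun S => x ∈ S)).card : ℤ), ?_, ?_, ?_, ?_⟩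
  · refine HALFB.quot_invol Z ι hι hfree hgι _ fun g => ?_
    rw [hc1, hc2, hFc g, hAc g]
    push_cast
    ring
  · refine IsSP.invol Z ι hι hgι _ fun g => ?_
    rw [hc1, hc2, hFc g, hAc g]
    push_cast
    ring
  · intro g
    rw [e1, e2, hFc g, hAc g]
    push_cast
    ring
  · intro g
    rw [e1, e2, hFc g, hAc g]
    push_cast
    ring

end HALFB

end Pool.Agent.Mbar
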