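import Mathlib
import Pool.Agent.Mbar.CLASSES
import Pool.Agent.Mbar.HALFA
import Pool.Agent.Mbar.HALFB

/-! # LEXEVEN: all classes have even cardinality -/

noncomputable section

namespace Pool.Agent.Mbar

open Polynomial

open scoped Classical

namespace LexEven

/-- `1 + X^2 + ... + X^(2(k-1))` -/
def geo2 (k : ℕ) : ℤ[X] := ∑ i ∈ Finset.range k, X ^ (2 * i)

theorem geo_mul (k : ℕ) : (X - 1) * geo k = X ^ k - 1 := by
  unfold geo
  rw [mul_comm, geom_sum_mul]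

theorem geo2_mul (k : ℕ) : (X ^ 2 - 1) * geo2 k = X ^ (2 * k) - 1 := by
  have h := geom_sum_mul (X ^ 2 : ℤ[X]) k
  unfold geo2
  rw [mul_comm]
  simp only [pow_mul]
  exact h

theorem geo_comp (k : ℕ) : (geo k).comp (X ^ 2) = geo2 k := by
  unfold geo geo2
  rw [Polynomial.sum_comp]
  refine Finset.sum_congr rfl fun i _ => ?_
  rw [X_pow_comp, pow_mul]

section nn

variable (H : Type) [Group H]

/-- polynomials with nonnegative coefficients, as constant functions -/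
def NN (c : ℤ[X]) : Prop := IsSPP (fun _ : H => c)

variable {H}

theorem NN.geo (k : ℕ) : NN H (geo k) :=
  IsSPP.sum _ _ fun i _ => IsSPP.monomial i

theorem NN.geo2 (k : ℕ) : NN H (geo2 k) :=
  IsSPP.sum _ _ fun i _ => IsSPP.monomial (2 * i)

theorem NN.mul {a b : ℤ[X]} (ha : NN H a) (hb : NN H b) : NN H (a * b) := IsSPP.mul ha hb

theorem NN.add {a b : ℤ[X]} (ha : NN H a) (hb : NN H b) : NN H (a + b) := IsSPP.add ha hb

theorem NN.pow (k : ℕ) : NN H (X ^ k) := IsSPP.monomial k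

theorem coef_even (k s : ℕ) : ∃ c1 c2 c3 c4 : ℤ[X], NN H c1 ∧ NN H c2 ∧ NN H c3 ∧ NN H c4 ∧
    (X - 1) * (X ^ 2 - 1) * c1 = (X * X ^ (2 * k + 1) - 1) * (X ^ (2 * k + 1) * (X ^ (s + 1)) ^ 2 - X) ∧
    X * ((X - 1) * (X ^ 2 - 1)) * c2 =
      (X * X ^ (2 * k + 1) - 1) * (X ^ (2 * k + 1) * (X ^ (s + 1)) ^ 2 - X ^ 3) ∧
    (X - 1) * (X ^ 2 - 1) * c3 =
      (X * X ^ (2 * k + 1) - 1) * (X ^ (2 * k + 1) * (X ^ (s + 1)) ^ 2 - X ^ 3)
        + X * (X ^ 2 - 1) * (X ^ (2 * k + 1) * X ^ (s + 1) - 1) ∧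
    (X - 1) * (X ^ 2 - 1) * c4 =
      (X ^ (2 * k + 1) - X) * (X ^ (2 * k + 1) * (X ^ (s + 1)) ^ 2 - X ^ 3)
        + X * (X ^ 2 - 1) * (X ^ (2 * k + 1) * X ^ (s + 1) - X) := by
  have a1 := geo2_mul (k + 1)
  have a0 := geo2_mul k
  have b1 := geo_mul (2 * k + 2 * s + 2)
  have b2 := geo_mul (2 * k + 2 * s)
  have b3 := geo_mul (2 * k + s + 2)
  have b4 := geo_mul (2 * k + s + 1)
  refine ⟨X ^ 1 * (geo2 (k + 1) * geo (2 * k + 2 * s + 2)),
    X ^ 2 * (geo2 (k + 1) * geo (2 * k + 2 * s)),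
    X ^ 3 * (geo2 (k + 1) * geo (2 * k + 2 * s)) + X ^ 1 * geo (2 * k + s + 2),
    X ^ 4 * (geo2 k * geo (2 * k + 2 * s)) + X ^ 2 * geo (2 * k + s + 1), ?_, ?_, ?_, ?_, ?_, ?_, ?_, ?_⟩
  · exact (NN.pow _).mul ((NN.geo2 _).mul (NN.geo _))
  · exact (NN.pow _).mul ((NN.geo2 _).mul (NN.geo _))
  · exact ((NN.pow _).mul ((NN.geo2 _).mul (NN.geo _))).add ((NN.pow _).mul (NN.geo _))
  · exact ((NN.pow _).mul ((NN.geo2 _).mul (NN.geo _))).add ((NN.pow _).mul (NN.geo _))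
  · linear_combination (X * (X - 1) * geo (2 * k + 2 * s + 2)) * a1 + (X * (X ^ (2 * (k + 1)) - 1)) * b1
  · linear_combination (X ^ 3 * (X - 1) * geo (2 * k + 2 * s)) * a1 + (X ^ 3 * (X ^ (2 * (k + 1)) - 1)) * b2
  · linear_combination (X ^ 3 * (X - 1) * geo (2 * k + 2 * s)) * a1 + (X ^ 3 * (X ^ (2 * (k + 1)) - 1)) * b2
      + X * (X ^ 2 - 1) * b3
  · linear_combination (X ^ 4 * (X - 1) * geo (2 * k + 2 * s)) * a0 + (X ^ 4 * (X ^ (2 * k) - 1)) * b2
      + X ^ 2 * (X ^ 2 - 1) * b4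

theorem coef_even0 (k : ℕ) : ∃ c1 c4 : ℤ[X], NN H c1 ∧ NN H c4 ∧
    (X - 1) * (X ^ 2 - 1) * c1 = (X * X ^ (2 * k + 1) - 1) * (X ^ (2 * k + 1) - X) ∧
    (X - 1) * (X ^ 2 - 1) * c4 =
      (X ^ (2 * k + 1) - X) * (X ^ (2 * k + 1) - X ^ 3)
        + X * (X ^ 2 - 1) * (X ^ (2 * k + 1) - X) := by
  have a1 := geo2_mul (k + 1)
  have a0 := geo2_mul k
  have b1 := geo_mul (2 * k)
  refine ⟨X ^ 1 * (geo2 (k + 1) * geo (2 * k)), X ^ 2 * (geo2 k * geo (2 * k)), ?_, ?_, ?_, ?_⟩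
  · exact (NN.pow _).mul ((NN.geo2 _).mul (NN.geo _))
  · exact (NN.pow _).mul ((NN.geo2 _).mul (NN.geo _))
  · linear_combination (X * (X - 1) * geo (2 * k)) * a1 + (X * (X ^ (2 * (k + 1)) - 1)) * b1
  · linear_combination (X ^ 2 * (X - 1) * geo (2 * k)) * a0 + (X ^ 2 * (X ^ (2 * k) - 1)) * b1

theorem coef_odd (k s : ℕ) : ∃ c1 c2 c3 c4 : ℤ[X], NN H c1 ∧ NN H c2 ∧ NN H c3 ∧ NN H c4 ∧
    (X - 1) * (X ^ 2 - 1) * c1 = X * (X ^ (2 * k) - 1) * (X ^ (2 * k) * (X ^ (s + 1)) ^ 2 - X ^ 2)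
      + X * (X ^ 2 - 1) * (X ^ (2 * k) * X ^ (s + 1) - 1) ∧
    (X - 1) * (X ^ 2 - 1) * c2 = (X ^ (2 * k) - 1) * (X ^ (2 * k) * (X ^ (s + 1)) ^ 2 - X ^ 4)
      + X * (X ^ 2 - 1) * (X ^ (2 * k) * X ^ (s + 1) - X) ∧
    X * ((X - 1) * (X ^ 2 - 1)) * c3 =
      (X ^ 2 * X ^ (2 * k) - 1) * (X ^ (2 * k) * (X ^ (s + 1)) ^ 2 - X ^ 2) ∧
    (X - 1) * (X ^ 2 - 1) * c4 =
      (X ^ (2 * k) - 1) * (X ^ (2 * k) * (X ^ (s + 1)) ^ 2 - X ^ 2) := by
  have a1 := geo2_mul (k + 1)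
  have a0 := geo2_mul k
  have b1 := geo_mul (2 * k + 2 * s)
  have b2 := geo_mul (2 * k + s + 1)
  have b3 := geo_mul (2 * k + s)
  refine ⟨X ^ 3 * (geo2 k * geo (2 * k + 2 * s)) + X ^ 1 * geo (2 * k + s + 1),
    X ^ 4 * (geo2 k * geo (2 * (k - 1) + 2 * s)) + X ^ 2 * geo (2 * k + s),
    X ^ 1 * (geo2 (k + 1) * geo (2 * k + 2 * s)),
    X ^ 2 * (geo2 k * geo (2 * k + 2 * s)), ?_, ?_, ?_, ?_, ?_, ?_, ?_, ?_⟩
  · exact ((NN.pow _).mul ((NN.geo2 _).mul (NN.geo _))).add ((NN.pow _).mul (NN.geo _))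
  · exact ((NN.pow _).mul ((NN.geo2 _).mul (NN.geo _))).add ((NN.pow _).mul (NN.geo _))
  · exact (NN.pow _).mul ((NN.geo2 _).mul (NN.geo _))
  · exact (NN.pow _).mul ((NN.geo2 _).mul (NN.geo _))
  · linear_combination (X ^ 3 * (X - 1) * geo (2 * k + 2 * s)) * a0 + (X ^ 3 * (X ^ (2 * k) - 1)) * b1
      + X * (X ^ 2 - 1) * b2
  · rcases k with _ | k
    · have : geo2 0 = 0 := by simp [geo2]
      rw [this]
      linear_combination X ^ 2 * (X ^ 2 - 1) * b3
    · have b4 := geo_mul (2 * (k + 1 - 1) + 2 * s)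
      rw [Nat.add_sub_cancel] at b4 ⊢
      linear_combination (X ^ 4 * (X - 1) * geo (2 * k + 2 * s)) * a0
        + (X ^ 4 * (X ^ (2 * (k + 1)) - 1)) * b4 + X ^ 2 * (X ^ 2 - 1) * b3
  · linear_combination (X ^ 2 * (X - 1) * geo (2 * k + 2 * s)) * a1 + (X ^ 2 * (X ^ (2 * (k + 1)) - 1)) * b1
  · linear_combination (X ^ 2 * (X - 1) * geo (2 * k + 2 * s)) * a0 + (X ^ 2 * (X ^ (2 * k) - 1)) * b1

theorem coef_odd0 (k : ℕ) : ∃ c1 c4 : ℤ[X], NN H c1 ∧ NN H c4 ∧
    (X - 1) * (X ^ 2 - 1) * c1 = X * (X ^ (2 * k) - 1) * (X ^ (2 * k) - X ^ 2)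
      + X * (X ^ 2 - 1) * (X ^ (2 * k) - 1) ∧
    (X - 1) * (X ^ 2 - 1) * c4 = (X ^ (2 * k) - 1) * (X ^ (2 * k) - X ^ 2) := by
  have a0 := geo2_mul k
  have b1 := geo_mul (2 * k)
  refine ⟨X ^ 1 * (geo2 k * geo (2 * k)), X ^ 2 * (geo2 k * geo (2 * (k - 1))), ?_, ?_, ?_, ?_⟩
  · exact (NN.pow _).mul ((NN.geo2 _).mul (NN.geo _))
  · exact (NN.pow _).mul ((NN.geo2 _).mul (NN.geo _))
  · linear_combination (X * (X - 1) * geo (2 * k)) * a0 + (X * (X ^ (2 * k) - 1)) * b1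
  · rcases k with _ | k
    · have : geo2 0 = 0 := by simp [geo2]
      rw [this]
      ring
    · have b4 := geo_mul (2 * (k + 1 - 1))
      rw [Nat.add_sub_cancel] at b4 ⊢
      linear_combination (X ^ 2 * (X - 1) * geo (2 * k)) * a0 + (X ^ 2 * (X ^ (2 * (k + 1)) - 1)) * b4

/-- the polynomial `(X^(2k-1)-1)/(X^2-1)` up to one exponent -/
theorem exists_p (k : ℕ) (hk : 1 ≤ k) : ∃ p : ℤ[X], NN H p ∧
    (Odd k → (X ^ 2 - 1) * p + (X - 1) * X ^ (k - 1) + 1 = X ^ (2 * k - 1)) ∧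
    (Even k → (X ^ 2 - 1) * p + (X - 1) * X ^ k + 1 = X ^ (2 * k - 1)) := by
  rcases Nat.even_or_odd' k with ⟨r, rfl | rfl⟩
  · obtain ⟨r, rfl⟩ : ∃ s, r = s + 1 := ⟨r - 1, by omega⟩
    have a0 := geo2_mul r
    have a1 := geo2_mul (r + 1)
    refine ⟨geo2 (r + 1) + X ^ (2 * r + 3) * geo2 r, (NN.geo2 _).add ((NN.pow _).mul (NN.geo2 _)), ?_, ?_⟩
    · intro h
      exact absurd h (by rw [Nat.not_odd_iff_even]; exact even_two_mul _)
    · intro _
      have e : 2 * (2 * (r + 1)) - 1 = 4 * r + 3 := by omega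
      rw [e]
      linear_combination a1 + X ^ (2 * r + 3) * a0
  · have a0 := geo2_mul r
    refine ⟨geo2 r + X ^ (2 * r + 1) * geo2 r, (NN.geo2 _).add ((NN.pow _).mul (NN.geo2 _)), ?_, ?_⟩
    · intro _
      have e : 2 * (2 * r + 1) - 1 = 4 * r + 1 := by omega
      rw [e, Nat.add_sub_cancel]
      linear_combination a0 + X ^ (2 * r + 1) * a0
    · intro h
      exact absurd h (by rw [Nat.not_even_iff_odd]; exact odd_two_mul_add_one r)

end nn


theorem lexeven_core_even {R : Type*} [CommRing R] [IsDomain R]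
    (x w v F N Λ τ A Y S1 Hp Hm Ep Em c1 c2 c3 c4 h h2 g g2 : R)
    (hx : x ≠ 0) (hx1 : x - 1 ≠ 0)
    (r1 : (x ^ 3 - x) * (A + w * Y) = S1 - (x ^ 2 - x) * w * Hm)
    (r3 : F = N + (1 + x) * Λ + (Ep + Em) * v)
    (r4 : 2 * (x ^ 3 - x) * τ = 2 * N + (Ep + Em) * (x ^ 2 + x - 2 * (x * v)) - (Ep - Em) * (x ^ 2 - x)
      + (x ^ 3 - x) * ((Ep + Em) * h ^ 2 + (Ep - Em) * h2))
    (g1 : (x - 1) * g = w * v - 1) (g2' : (x ^ 2 - 1) * g2 = w ^ 2 * v ^ 2 - 1)
    (h1 : x * (x - 1) * h = v - x) (h2' : x ^ 2 * (x ^ 2 - 1) * h2 = v ^ 2 - x ^ 2)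
    (e1 : (x - 1) * (x ^ 2 - 1) * c1 = (x * w - 1) * (w * v ^ 2 - x))
    (e2 : x * ((x - 1) * (x ^ 2 - 1)) * c2 = (x * w - 1) * (w * v ^ 2 - x ^ 3))
    (e3 : (x - 1) * (x ^ 2 - 1) * c3 = (x * w - 1) * (w * v ^ 2 - x ^ 3) + x * (x ^ 2 - 1) * (w * v - 1))
    (e4 : (x - 1) * (x ^ 2 - 1) * c4 = (w - x) * (w * v ^ 2 - x ^ 3) + x * (x ^ 2 - 1) * (w * v - x)) :
    2 * (x ^ 3 - x) * (F * A + F * w * Y + w * Hm * (Λ + x ^ 2 * τ) + x * w * Hp * τ
        + c1 * (Hp * Ep) + c2 * (Hp * Em) + c3 * (Hm * Em) + c4 * (Hm * Ep)) =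
      2 * (F * S1 + (Hp + Hm) * (x * w) * N) + (Hp + Hm) * (Ep + Em) * (x ^ 2 + x - 2 * (x ^ 2 * w * v))
        - (Hp - Hm) * (Ep - Em) * (x ^ 2 - x)
        + (x ^ 3 - x) * ((Hp + Hm) * (Ep + Em) * g ^ 2 + (Hp - Hm) * (Ep - Em) * g2) := by
  have hK : x ^ 2 * (x - 1) ^ 2 ≠ 0 := mul_ne_zero (pow_ne_zero _ hx) (pow_ne_zero _ hx1)
  apply mul_left_cancel₀ hK
  linear_combination (x ^ 2 * (x - 1) ^ 2 * 2 * F) * r1 - (x ^ 2 * (x - 1) ^ 2 * 2 * (x ^ 2 - x) * w * Hm) * r3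
    + (x ^ 2 * (x - 1) ^ 2 * (w * x ^ 2 * Hm + x * w * Hp)) * r4
    + (2 * x ^ 3 * (x - 1) * Hp * Ep) * e1 + (2 * x ^ 2 * (x - 1) * Hp * Em) * e2
    + (2 * x ^ 3 * (x - 1) * Hm * Em) * e3 + (2 * x ^ 3 * (x - 1) * Hm * Ep) * e4
    + ((w * x ^ 2 * Hm + x * w * Hp) * (x ^ 3 - x) * (Ep + Em) * (x * (x - 1) * h + (v - x))) * h1
    + ((w * x ^ 2 * Hm + x * w * Hp) * x * (x - 1) ^ 2 * (Ep - Em)) * h2'
    - ((Hp + Hm) * (Ep + Em) * x ^ 2 * (x ^ 3 - x) * ((x - 1) * g + (w * v - 1))) * g1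
    - ((Hp - Hm) * (Ep - Em) * x ^ 3 * (x - 1) ^ 2) * g2'

theorem lexeven_core_odd {R : Type*} [CommRing R] [IsDomain R]
    (x w v F N Λ τ A Y S1 Hp Hm Ep Em c1 c2 c3 c4 h h2 g g2 : R)
    (hx : x ≠ 0) (hx1 : x - 1 ≠ 0)
    (r1 : (x ^ 3 - x) * (A + w * Y) = S1 - (x ^ 2 - x) * w * Hp)
    (r3 : F = N + (1 + x) * Λ + (Ep + Em) * v)
    (r4 : 2 * (x ^ 3 - x) * τ = 2 * N + (Ep + Em) * (x ^ 2 + x - 2 * (x * v)) - (Ep - Em) * (x ^ 2 - x)
      + (x ^ 3 - x) * ((Ep + Em) * h ^ 2 + (Ep - Em) * h2))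
    (g1 : (x - 1) * g = w * v - 1) (g2' : (x ^ 2 - 1) * g2 = w ^ 2 * v ^ 2 - 1)
    (h1 : x * (x - 1) * h = v - x) (h2' : x ^ 2 * (x ^ 2 - 1) * h2 = v ^ 2 - x ^ 2)
    (e1 : (x - 1) * (x ^ 2 - 1) * c1 = x * (w - 1) * (w * v ^ 2 - x ^ 2) + x * (x ^ 2 - 1) * (w * v - 1))
    (e2 : (x - 1) * (x ^ 2 - 1) * c2 = (w - 1) * (w * v ^ 2 - x ^ 4) + x * (x ^ 2 - 1) * (w * v - x))
    (e3 : x * ((x - 1) * (x ^ 2 - 1)) * c3 = (x ^ 2 * w - 1) * (w * v ^ 2 - x ^ 2))
    (e4 : (x - 1) * (x ^ 2 - 1) * c4 = (w - 1) * (w * v ^ 2 - x ^ 2)) :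
    2 * (x ^ 3 - x) * (F * A + F * w * Y + w * Hp * (Λ + x ^ 2 * τ) + x * w * Hm * τ
        + c1 * (Hp * Ep) + c2 * (Hp * Em) + c3 * (Hm * Em) + c4 * (Hm * Ep)) =
      2 * (F * S1 + (Hp + Hm) * (x * w) * N) + (Hp + Hm) * (Ep + Em) * (x ^ 2 + x - 2 * (x ^ 2 * w * v))
        - (Hp - Hm) * (Ep - Em) * (x ^ 2 - x)
        + (x ^ 3 - x) * ((Hp + Hm) * (Ep + Em) * g ^ 2 + (Hp - Hm) * (Ep - Em) * g2) := by
  have hK : x ^ 2 * (x - 1) ^ 2 ≠ 0 := mul_ne_zero (pow_ne_zero _ hx) (pow_ne_zero _ hx1)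
  apply mul_left_cancel₀ hK
  linear_combination (x ^ 2 * (x - 1) ^ 2 * 2 * F) * r1 - (x ^ 2 * (x - 1) ^ 2 * 2 * (x ^ 2 - x) * w * Hp) * r3
    + (x ^ 2 * (x - 1) ^ 2 * (w * x ^ 2 * Hp + x * w * Hm)) * r4
    + (2 * x ^ 3 * (x - 1) * Hp * Ep) * e1 + (2 * x ^ 3 * (x - 1) * Hp * Em) * e2
    + (2 * x ^ 2 * (x - 1) * Hm * Em) * e3 + (2 * x ^ 3 * (x - 1) * Hm * Ep) * e4
    + ((w * x ^ 2 * Hp + x * w * Hm) * (x ^ 3 - x) * (Ep + Em) * (x * (x - 1) * h + (v - x))) * h1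
    + ((w * x ^ 2 * Hp + x * w * Hm) * x * (x - 1) ^ 2 * (Ep - Em)) * h2'
    - ((Hp + Hm) * (Ep + Em) * x ^ 2 * (x ^ 3 - x) * ((x - 1) * g + (w * v - 1))) * g1
    - ((Hp - Hm) * (Ep - Em) * x ^ 3 * (x - 1) ^ 2) * g2'

theorem lexeven_core_even0 {R : Type*} [CommRing R] [IsDomain R]
    (x w A Y S1 Hp Hm c1 c4 g g2 : R)
    (hx : x ≠ 0) (hx1 : x - 1 ≠ 0)
    (r1 : (x ^ 3 - x) * (A + w * Y) = S1 - (x ^ 2 - x) * w * Hm)
    (g1 : (x - 1) * g = w - 1) (g2' : (x ^ 2 - 1) * g2 = w ^ 2 - 1)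
    (e1 : (x - 1) * (x ^ 2 - 1) * c1 = (x * w - 1) * (w - x))
    (e4 : (x - 1) * (x ^ 2 - 1) * c4 = (w - x) * (w - x ^ 3) + x * (x ^ 2 - 1) * (w - x)) :
    2 * (x ^ 3 - x) * (A + w * Y + c1 * Hp + c4 * Hm) =
      2 * S1 + (Hp + Hm) * (x ^ 2 + x - 2 * (x ^ 2 * w))
        - (Hp - Hm) * (x ^ 2 - x)
        + (x ^ 3 - x) * ((Hp + Hm) * g ^ 2 + (Hp - Hm) * g2) := by
  have hK : x ^ 2 * (x - 1) ^ 2 ≠ 0 := mul_ne_zero (pow_ne_zero _ hx) (pow_ne_zero _ hx1)
  apply mul_left_cancel₀ hK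
  linear_combination (x ^ 2 * (x - 1) ^ 2 * 2) * r1
    + (2 * x ^ 3 * (x - 1) * Hp) * e1 
    + (2 * x ^ 3 * (x - 1) * Hm) * e4
    - ((Hp + Hm) * x ^ 2 * (x ^ 3 - x) * ((x - 1) * g + (w - 1))) * g1
    - ((Hp - Hm) * x ^ 3 * (x - 1) ^ 2) * g2'

theorem lexeven_core_odd0 {R : Type*} [CommRing R] [IsDomain R]
    (x w A Y S1 Hp Hm c1 c4 g g2 : R)
    (hx : x ≠ 0) (hx1 : x - 1 ≠ 0)
    (r1 : (x ^ 3 - x) * (A + w * Y) = S1 - (x ^ 2 - x) * w * Hp)
    (g1 : (x - 1) * g = w - 1) (g2' : (x ^ 2 - 1) * g2 = w ^ 2 - 1)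
    (e1 : (x - 1) * (x ^ 2 - 1) * c1 = x * (w - 1) * (w - x ^ 2) + x * (x ^ 2 - 1) * (w - 1))
    (e4 : (x - 1) * (x ^ 2 - 1) * c4 = (w - 1) * (w - x ^ 2)) :
    2 * (x ^ 3 - x) * (A + w * Y + c1 * Hp + c4 * Hm) =
      2 * S1 + (Hp + Hm) * (x ^ 2 + x - 2 * (x ^ 2 * w))
        - (Hp - Hm) * (x ^ 2 - x)
        + (x ^ 3 - x) * ((Hp + Hm) * g ^ 2 + (Hp - Hm) * g2) := by
  have hK : x ^ 2 * (x - 1) ^ 2 ≠ 0 := mul_ne_zero (pow_ne_zero _ hx) (pow_ne_zero _ hx1)
  apply mul_left_cancel₀ hK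
  linear_combination (x ^ 2 * (x - 1) ^ 2 * 2) * r1
    + (2 * x ^ 3 * (x - 1) * Hp) * e1 
    + (2 * x ^ 3 * (x - 1) * Hm) * e4
    - ((Hp + Hm) * x ^ 2 * (x ^ 3 - x) * ((x - 1) * g + (w - 1))) * g1
    - ((Hp - Hm) * x ^ 3 * (x - 1) ^ 2) * g2'

section struct

variable {H : Type} [Group H] {P : Type} [Fintype P] [MulAction H P]

omit [Fintype P] in
theorem mem_uni (l : List (Finset P)) (x : P) : x ∈ uni l ↔ ∃ U ∈ l, x ∈ U := by
  induction l with
  | nil => simp [uni]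
  | cons U l ih =>
    rw [uni, Finset.mem_union, ih]
    simp

theorem good_tail {U : Finset P} {l : List (Finset P)} (hl : GoodList H (U :: l)) : GoodList H l :=
  ⟨fun V hV => hl.stable V (List.mem_cons_of_mem U hV),
    fun V hV => hl.nonempty V (List.mem_cons_of_mem U hV), (List.pairwise_cons.mp hl.disj).2⟩

theorem uni_stable {l : List (Finset P)} (hl : GoodList H l) : HStable H (uni l) := by
  intro g x
  rw [mem_uni, mem_uni]
  constructor
  · rintro ⟨U, hU, hx⟩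
    exact ⟨U, hU, (hl.stable U hU g x).mp hx⟩
  · rintro ⟨U, hU, hx⟩
    exact ⟨U, hU, (hl.stable U hU g x).mpr hx⟩

theorem uni_disj {U : Finset P} {l : List (Finset P)} (hl : GoodList H (U :: l)) :
    Disjoint U (uni l) := by
  rw [Finset.disjoint_left]
  intro x hx hx'
  rw [mem_uni] at hx'
  obtain ⟨V, hV, hx'⟩ := hx'
  exact Finset.disjoint_left.mp ((List.pairwise_cons.mp hl.disj).1 V hV) hx hx'

omit [Fintype P] in
theorem lexs_congr (l : List (Finset P)) {S S' : Finset P}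
    (h : ∀ x, x ∈ uni l → (x ∈ S ↔ x ∈ S')) : lexs l S = lexs l S' := by
  induction l with
  | nil => rfl
  | cons U l ih =>
    have h1 : S ∩ U = S' ∩ U := by
      ext x
      simp only [Finset.mem_inter]
      refine and_congr_left fun hx => h x ?_
      rw [uni]
      exact Finset.mem_union_left _ hx
    have h2 := ih (fun x hx => h x (by rw [uni]; exact Finset.mem_union_right _ hx))
    unfold lexs
    rw [h1, h2]

theorem lexs_sdiff (l : List (Finset P)) (S : Finset P) : lexs l (uni l \ S) = - lexs l S := by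
  rw [← lexs_compl]
  refine lexs_congr l fun x hx => ?_
  simp [hx]

theorem lexs_zero_card {l : List (Finset P)} (hl : GoodList H l) {S : Finset P}
    (h : lexs l S = 0) : 2 * (S ∩ uni l).card = (uni l).card := by
  induction l with
  | nil => simp [uni]
  | cons U l ih =>
    unfold lexs at h
    by_cases h1 : 2 * (S ∩ U).card = U.card
    · rw [if_pos h1] at h
      have h2 := ih (good_tail hl) h
      have hd := uni_disj hl
      rw [uni, Finset.inter_union_distrib_left, Finset.card_union_of_disjoint hd,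
        Finset.card_union_of_disjoint (hd.mono Finset.inter_subset_right Finset.inter_subset_right)]
      omega
    · rw [if_neg h1] at h
      omega

/-- sums over the fixed subsets of a union -/
theorem sum_fx_union {M : Type} [AddCommMonoid M] {U W : Finset P} (hU : HStable H U)
    (hW : HStable H W) (hd : Disjoint U W) (g : H) (f : Finset P → M) :
    ∑ S ∈ fx (U ∪ W) g, f S = ∑ A ∈ fx U g, ∑ B ∈ fx W g, f (A ∪ B) := by
  rw [← Finset.sum_product']
  refine Finset.sum_bij' (fun S _ => (S ∩ U, S ∩ W)) (fun x _ => x.1 ∪ x.2) ?_ ?_ ?_ ?_ ?_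
  · intro S hS
    rw [HALFA.mem_fx] at hS
    rw [Finset.mem_product, HALFA.mem_fx, HALFA.mem_fx]
    refine ⟨⟨Finset.inter_subset_right, ?_⟩, ⟨Finset.inter_subset_right, ?_⟩⟩
    · simp only
      rw [Finset.map_inter, hS.2, HALFA.map_stable hU]
    · simp only
      rw [Finset.map_inter, hS.2, HALFA.map_stable hW]
  · rintro ⟨A, B⟩ h
    rw [Finset.mem_product, HALFA.mem_fx, HALFA.mem_fx] at h
    rw [HALFA.mem_fx]
    refine ⟨Finset.union_subset_union h.1.1 h.2.1, ?_⟩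
    simp only
    rw [Finset.map_union, h.1.2, h.2.2]
  · intro S hS
    rw [HALFA.mem_fx] at hS
    simp only
    rw [← Finset.inter_union_distrib_left]
    exact Finset.inter_eq_left.2 hS.1
  · rintro ⟨A, B⟩ h
    rw [Finset.mem_product, HALFA.mem_fx, HALFA.mem_fx] at h
    obtain ⟨⟨h1, _⟩, ⟨h2, _⟩⟩ := h
    simp only at h1 h2
    simp only [Prod.mk.injEq]
    constructor
    · rw [Finset.union_inter_distrib_right, Finset.inter_eq_left.2 h1,
        Finset.disjoint_iff_inter_eq_empty.1 (hd.symm.mono_left h2), Finset.union_empty]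
    · rw [Finset.union_inter_distrib_right, Finset.inter_eq_left.2 h2,
        Finset.disjoint_iff_inter_eq_empty.1 (hd.mono_left h1), Finset.empty_union]
  · intro S hS
    rw [HALFA.mem_fx] at hS
    simp only
    rw [← Finset.inter_union_distrib_left, Finset.inter_eq_left.2 hS.1]

omit [Fintype P] in
theorem mem_ax {U S : Finset P} {g : H} :
    S ∈ ax U g ↔ S ⊆ U ∧ S.map (pm P g).toEmbedding = U \ S := by
  unfold ax
  rw [Finset.mem_filter, Finset.mem_powerset]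

/-- sums over the reversed subsets of a union -/
theorem sum_ax_union {M : Type} [AddCommMonoid M] {U W : Finset P} (hU : HStable H U)
    (hW : HStable H W) (hd : Disjoint U W) (g : H) (f : Finset P → M) :
    ∑ S ∈ ax (U ∪ W) g, f S = ∑ A ∈ ax U g, ∑ B ∈ ax W g, f (A ∪ B) := by
  have key : ∀ x, x ∈ U → x ∉ W := fun x hx hx' => Finset.disjoint_left.mp hd hx hx'
  rw [← Finset.sum_product']
  refine Finset.sum_bij' (fun S _ => (S ∩ U, S ∩ W)) (fun x _ => x.1 ∪ x.2) ?_ ?_ ?_ ?_ ?_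
  · intro S hS
    rw [mem_ax] at hS
    rw [Finset.mem_product, mem_ax, mem_ax]
    refine ⟨⟨Finset.inter_subset_right, ?_⟩, ⟨Finset.inter_subset_right, ?_⟩⟩
    · simp only
      rw [Finset.map_inter, hS.2, HALFA.map_stable hU]
      ext x
      simp only [Finset.mem_inter, Finset.mem_sdiff, Finset.mem_union]
      tauto
    · simp only
      rw [Finset.map_inter, hS.2, HALFA.map_stable hW]
      ext x
      simp only [Finset.mem_inter, Finset.mem_sdiff, Finset.mem_union]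
      tauto
  · rintro ⟨A, B⟩ h
    rw [Finset.mem_product, mem_ax, mem_ax] at h
    rw [mem_ax]
    refine ⟨Finset.union_subset_union h.1.1 h.2.1, ?_⟩
    simp only
    obtain ⟨⟨hA, hA'⟩, ⟨hB, hB'⟩⟩ := h
    simp only at hA hA' hB hB'
    rw [Finset.map_union, hA', hB']
    ext x
    have k1 := key x
    have k2 : x ∈ A → x ∈ U := fun h => hA h
    have k3 : x ∈ B → x ∈ W := fun h => hB h
    simp only [Finset.mem_sdiff, Finset.mem_union]
    tauto
  · intro S hS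
    rw [mem_ax] at hS
    simp only
    rw [← Finset.inter_union_distrib_left]
    exact Finset.inter_eq_left.2 hS.1
  · rintro ⟨A, B⟩ h
    rw [Finset.mem_product, mem_ax, mem_ax] at h
    obtain ⟨⟨h1, _⟩, ⟨h2, _⟩⟩ := h
    simp only at h1 h2
    simp only [Prod.mk.injEq]
    constructor
    · rw [Finset.union_inter_distrib_right, Finset.inter_eq_left.2 h1,
        Finset.disjoint_iff_inter_eq_empty.1 (hd.symm.mono_left h2), Finset.union_empty]
    · rw [Finset.union_inter_distrib_right, Finset.inter_eq_left.2 h2,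
        Finset.disjoint_iff_inter_eq_empty.1 (hd.mono_left h1), Finset.empty_union]
  · intro S hS
    rw [mem_ax] at hS
    simp only
    rw [← Finset.inter_union_distrib_left, Finset.inter_eq_left.2 hS.1]

/-- the sign of a union -/
theorem lexs_union {U : Finset P} {l : List (Finset P)} (hl : GoodList H (U :: l)) {A B : Finset P}
    (hA : A ⊆ U) (hB : B ⊆ uni l) :
    lexs (U :: l) (A ∪ B) = if 2 * A.card = U.card then lexs l B
      else 2 * (A.card : ℤ) - (U.card : ℤ) := by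
  have hd := uni_disj hl
  have h1 : (A ∪ B) ∩ U = A := by
    rw [Finset.union_inter_distrib_right, Finset.inter_eq_left.2 hA,
      Finset.disjoint_iff_inter_eq_empty.1 (hd.symm.mono_left hB), Finset.union_empty]
  have h2 : lexs l (A ∪ B) = lexs l B := by
    refine lexs_congr l fun x hx => ?_
    have : x ∉ A := fun hxA => Finset.disjoint_left.mp hd (hA hxA) hx
    simp [this]
  rw [lexs, h1, h2]

/-- sums over fixed subsets of a function of the cardinality -/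
theorem sum_fx_card (U : Finset P) (g : H) (φ : ℕ → ℤ[X]) :
    ∑ A ∈ fx U g, φ A.card = ∑ a ∈ Finset.range (U.card + 1), C (Mx U a g) * φ a := by
  rw [← Finset.sum_fiberwise_of_maps_to (t := Finset.range (U.card + 1)) (g := Finset.card)]
  · refine Finset.sum_congr rfl fun a _ => ?_
    unfold Mx
    rw [Finset.sum_congr rfl (fun S hS => by rw [(Finset.mem_filter.1 hS).2] :
      ∀ S ∈ (fx U g).filter (fun S => S.card = a), φ S.card = φ a)]
    rw [Finset.sum_const, nsmul_eq_mul]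
    simp
  · intro S hS
    rw [Finset.mem_range, Nat.lt_succ_iff]
    exact Finset.card_le_card (HALFA.mem_fx.1 hS).1

/-- sums over fixed subsets, complement -/
theorem sum_fx_compl {M : Type} [AddCommMonoid M] {U : Finset P} (hU : HStable H U) (g : H)
    (f : Finset P → M) : ∑ S ∈ fx U g, f (U \ S) = ∑ S ∈ fx U g, f S := by
  refine Finset.sum_bij' (fun S _ => U \ S) (fun S _ => U \ S) ?_ ?_ ?_ ?_ ?_
  · intro S hS
    rw [HALFA.mem_fx] at hS ⊢
    exact ⟨Finset.sdiff_subset, by rw [Finset.map_sdiff, HALFA.map_stable hU, hS.2]⟩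
  · intro S hS
    rw [HALFA.mem_fx] at hS ⊢
    exact ⟨Finset.sdiff_subset, by rw [Finset.map_sdiff, HALFA.map_stable hU, hS.2]⟩
  · intro S hS
    exact Finset.sdiff_sdiff_eq_self (HALFA.mem_fx.1 hS).1
  · intro S hS
    exact Finset.sdiff_sdiff_eq_self (HALFA.mem_fx.1 hS).1
  · intro S _
    rfl

theorem sum_fx_pow_compl {U : Finset P} (hU : HStable H U) (g : H) :
    ∑ S ∈ fx U g, (X ^ (U.card - S.card) : ℤ[X]) = Fx U g := by
  unfold Fx
  rw [← sum_fx_compl hU g]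
  refine Finset.sum_congr rfl fun S hS => ?_
  rw [Finset.card_sdiff_of_subset (HALFA.mem_fx.1 hS).1]
  have h := Finset.card_le_card (HALFA.mem_fx.1 hS).1
  congr 1
  omega

/-- relation (r3) -/
theorem Fx_eq_numL {l : List (Finset P)} (hl : GoodList H l) {t : ℕ} (ht : (uni l).card = 2 * t)
    (g : H) : Fx (uni l) g = numL l g + (1 + X) * Lam l g + C (Tf l g) * X ^ t := by
  have hst := uni_stable hl
  have h1 : Fx (uni l) g = ∑ S ∈ fx (uni l) g, ((if lexs l S < 0 then X ^ S.card else 0)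
      + (if lexs l S < 0 then X ^ ((uni l).card - S.card) else 0)
      + (if lexs l S = 0 then X ^ t else 0)) := by
    have h2 : Fx (uni l) g = ∑ S ∈ fx (uni l) g, ((if lexs l S < 0 then X ^ S.card else 0)
      + (if 0 < lexs l S then X ^ S.card else 0)
      + (if lexs l S = 0 then X ^ t else 0)) := by
      unfold Fx
      refine Finset.sum_congr rfl fun S hS => ?_
      rcases lt_trichotomy (lexs l S) 0 with h | h | h
      · rw [if_pos h, if_neg (by omega), if_neg (by omega)]; ring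
      · rw [if_neg (by omega), if_neg (by omega), if_pos h]
        have h3 := lexs_zero_card hl h
        rw [Finset.inter_eq_left.2 (HALFA.mem_fx.1 hS).1, ht] at h3
        have h4 : S.card = t := by omega
        rw [h4]; ring
      · rw [if_neg (by omega), if_pos h, if_neg (by omega)]; ring
    rw [h2]
    simp only [Finset.sum_add_distrib]
    congr 2
    rw [← sum_fx_compl hst g (fun S => if 0 < lexs l S then (X ^ S.card : ℤ[X]) else 0)]
    refine Finset.sum_congr rfl fun S hS => ?_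
    rw [lexs_sdiff, Finset.card_sdiff_of_subset (HALFA.mem_fx.1 hS).1]
    by_cases h : lexs l S < 0
    · rw [if_pos h, if_pos (by omega)]
    · rw [if_neg h, if_neg (by omega)]
  rw [h1]
  unfold numL Lam Tf
  simp only [Finset.sum_add_distrib, Finset.sum_sub_distrib, ← Finset.sum_filter, Finset.sum_const,
    nsmul_eq_mul, pow_succ]
  rw [← Finset.sum_mul]
  simp only [Int.cast_natCast, map_natCast]
  ring

end struct

section cons

variable {H : Type} [Group H] {P : Type} [Fintype P] [MulAction H P]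

theorem numL_cons {U : Finset P} {l : List (Finset P)} (hl : GoodList H (U :: l)) {m : ℕ}
    (hm : U.card = 2 * m) (g : H) :
    numL (U :: l) g = Fx (uni l) g * (∑ a ∈ Finset.range m,
        C (Mx U a g) * (X ^ (2 * m - a) - X ^ (a + 1)))
      + C (Mx U m g) * X ^ m * numL l g := by
  have hU := hl.stable U List.mem_cons_self
  have hW := uni_stable (good_tail hl)
  have hd := uni_disj hl
  set N := (uni l).card with hN
  have hcard : (uni (U :: l)).card = 2 * m + N := by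
    rw [uni, Finset.card_union_of_disjoint hd, hm]
  obtain ⟨φ, hφ⟩ : ∃ φ : ℕ → ℤ[X], ∀ a, φ a = ∑ B ∈ fx (uni l) g,
      (if (if a = m then lexs l B else 2 * (a : ℤ) - ((2 * m : ℕ) : ℤ)) < 0 then
        (X ^ (2 * m + N - (a + B.card)) - X ^ (a + B.card + 1)) else 0) := ⟨_, fun _ => rfl⟩
  have h1 : numL (U :: l) g = ∑ A ∈ fx U g, φ A.card := by
    unfold numL
    rw [hcard, Finset.sum_filter]
    have h2 : fx (uni (U :: l)) g = fx (U ∪ uni l) g := rfl
    rw [h2, sum_fx_union hU hW hd]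
    refine Finset.sum_congr rfl fun A hA => ?_
    rw [hφ]
    refine Finset.sum_congr rfl fun B hB => ?_
    have hA' := (HALFA.mem_fx.1 hA).1
    have hB' := (HALFA.mem_fx.1 hB).1
    have hc : (2 * A.card = 2 * m) ↔ A.card = m := by omega
    rw [lexs_union hl hA' hB', Finset.card_union_of_disjoint (hd.mono hA' hB'), hm]
    simp only [hc]
  have h3 : ∑ i ∈ Finset.range m, C (Mx U (m + (i + 1)) g) * φ (m + (i + 1)) = 0 := by
    refine Finset.sum_eq_zero fun i _ => ?_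
    have : φ (m + (i + 1)) = 0 := by
      rw [hφ]
      refine Finset.sum_eq_zero fun B _ => ?_
      rw [if_neg (show ¬ (m + (i + 1) = m) by omega), if_neg]
      push_cast
      omega
    rw [this, mul_zero]
  have h6 : ∑ a ∈ Finset.range m, C (Mx U a g) * φ a = Fx (uni l) g * (∑ a ∈ Finset.range m,
        C (Mx U a g) * (X ^ (2 * m - a) - X ^ (a + 1))) := by
    rw [Finset.mul_sum]
    refine Finset.sum_congr rfl fun a ha => ?_
    rw [Finset.mem_range] at ha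
    have h4 : φ a = (X ^ (2 * m - a) - X ^ (a + 1)) * Fx (uni l) g := by
      have h5 : ∀ B ∈ fx (uni l) g,
          (if (if a = m then lexs l B else 2 * (a : ℤ) - ((2 * m : ℕ) : ℤ)) < 0 then
            (X ^ (2 * m + N - (a + B.card)) - X ^ (a + B.card + 1) : ℤ[X]) else 0) =
          X ^ (2 * m - a) * X ^ ((uni l).card - B.card) - X ^ (a + 1) * X ^ B.card := by
        intro B hB
        have hB' := Finset.card_le_card (HALFA.mem_fx.1 hB).1
        rw [if_neg (show ¬ (a = m) by omega), if_pos (by push_cast; omega), ← pow_add, ← pow_add]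
        congr 2
        · omega
        · omega
      rw [hφ, Finset.sum_congr rfl h5, Finset.sum_sub_distrib, ← Finset.mul_sum, ← Finset.mul_sum,
        sum_fx_pow_compl hW]
      unfold Fx
      ring
    rw [h4]
    ring
  have h7 : φ m = X ^ m * numL l g := by
    unfold numL
    rw [Finset.sum_filter, Finset.mul_sum, hφ]
    refine Finset.sum_congr rfl fun B hB => ?_
    have hB' := Finset.card_le_card (HALFA.mem_fx.1 hB).1
    rw [if_pos rfl]
    by_cases h : lexs l B < 0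
    · rw [if_pos h, if_pos h, mul_sub, ← pow_add, ← pow_add]
      congr 2
      omega
    · rw [if_neg h, if_neg h, mul_zero]
  rw [h1, sum_fx_card, hm, show 2 * m + 1 = m + (m + 1) by ring, Finset.sum_range_add,
    Finset.sum_range_succ', h3, zero_add, add_zero, h6, h7]
  ring

theorem Tf_eq (l : List (Finset P)) (g : H) :
    Tf l g = ∑ S ∈ fx (uni l) g, if lexs l S = 0 then 1 else 0 := by
  unfold Tf
  rw [Finset.card_filter]
  push_cast
  rfl

theorem Ta_eq (l : List (Finset P)) (g : H) :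
    Ta l g = ∑ S ∈ ax (uni l) g, if lexs l S = 0 then 1 else 0 := by
  unfold Ta
  rw [Finset.card_filter]
  push_cast
  rfl

theorem Tf_cons {U : Finset P} {l : List (Finset P)} (hl : GoodList H (U :: l)) {m : ℕ}
    (hm : U.card = 2 * m) (g : H) : Tf (U :: l) g = Mx U m g * Tf l g := by
  have hU := hl.stable U List.mem_cons_self
  have hW := uni_stable (good_tail hl)
  have hd := uni_disj hl
  rw [Tf_eq, Tf_eq]
  have h2 : fx (uni (U :: l)) g = fx (U ∪ uni l) g := rfl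
  rw [h2, sum_fx_union hU hW hd]
  unfold Mx
  rw [Finset.card_filter]
  push_cast
  rw [Finset.sum_mul_sum]
  refine Finset.sum_congr rfl fun A hA => Finset.sum_congr rfl fun B hB => ?_
  have hA' := (HALFA.mem_fx.1 hA).1
  have hB' := (HALFA.mem_fx.1 hB).1
  have hc : (2 * A.card = 2 * m) ↔ A.card = m := by omega
  rw [lexs_union hl hA' hB', hm]
  simp only [hc]
  by_cases h : A.card = m
  · simp only [h, if_true, one_mul]
  · rw [if_neg h, if_neg h, zero_mul, if_neg]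
    push_cast
    omega

theorem Ta_cons {U : Finset P} {l : List (Finset P)} (hl : GoodList H (U :: l)) (g : H) :
    Ta (U :: l) g = Ax U g * Ta l g := by
  have hU := hl.stable U List.mem_cons_self
  have hW := uni_stable (good_tail hl)
  have hd := uni_disj hl
  rw [Ta_eq, Ta_eq]
  have h2 : ax (uni (U :: l)) g = ax (U ∪ uni l) g := rfl
  rw [h2, sum_ax_union hU hW hd]
  unfold Ax
  rw [Finset.card_eq_sum_ones]
  push_cast
  rw [Finset.sum_mul_sum]
  refine Finset.sum_congr rfl fun A hA => Finset.sum_congr rfl fun B hB => ?_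
  have hA' := (mem_ax.1 hA).1
  have hB' := (mem_ax.1 hB).1
  have hA2 : 2 * A.card = U.card := by
    have h3 := congrArg Finset.card (mem_ax.1 hA).2
    rw [Finset.card_map, Finset.card_sdiff_of_subset hA'] at h3
    have h4 := Finset.card_le_card hA'
    omega
  rw [lexs_union hl hA' hB', if_pos hA2, one_mul]

theorem spp_Lam {l : List (Finset P)} (hl : GoodList H l) : IsSPP (fun g : H => Lam l g) := by
  refine (sp_family (fun S => lexs l S < 0) (fun g S => by rw [lexs_map l hl]) (uni l)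
    (uni_stable hl)).congr fun g => ?_
  unfold Lam
  refine Finset.sum_congr ?_ fun S _ => rfl
  ext S
  simp only [Finset.mem_filter]

theorem spp_Fx {U : Finset P} (hU : HStable H U) : IsSPP (fun g : H => Fx U g) := by
  refine (sp_family (fun _ => True) (fun _ _ => Iff.rfl) U hU).congr fun g => ?_
  unfold Fx
  refine Finset.sum_congr ?_ fun S _ => rfl
  ext S
  simp only [Finset.mem_filter, and_true]

/-- relation (H) -/
theorem alt_half {U : Finset P} (hU : HStable H U) {m : ℕ} (hm : U.card = 2 * m) (g : H) :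
    2 * (∑ a ∈ Finset.range m, (if Odd (m - a) then Mx U a g else 0)
      - ∑ a ∈ Finset.range m, (if Even (m - a) then Mx U a g else 0)) =
      Mx U m g - (-1) ^ m * Ax U g := by
  have h1 := alt_sum hU g
  rw [hm, show 2 * m + 1 = m + (m + 1) by ring, Finset.sum_range_add, Finset.sum_range_succ'] at h1
  rw [add_zero] at h1
  have h2 : ∑ i ∈ Finset.range m, (-1 : ℤ) ^ (m + (i + 1)) * Mx U (m + (i + 1)) g =
      ∑ a ∈ Finset.range m, (-1 : ℤ) ^ a * Mx U a g := by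
    rw [← Finset.sum_range_reflect (fun a => (-1 : ℤ) ^ a * Mx U a g)]
    refine Finset.sum_congr rfl fun i hi => ?_
    rw [Finset.mem_range] at hi
    have h3 := Mx_symm hU (m - 1 - i) (by omega) g
    rw [hm, show 2 * m - (m - 1 - i) = m + (i + 1) by omega] at h3
    rw [h3]
    congr 1
    have h4 : (-1 : ℤ) ^ (m + (i + 1)) = (-1) ^ (m - 1 - i) * (-1) ^ (2 * (i + 1)) := by
      rw [← pow_add]
      congr 1
      omega
    rw [h4, pow_mul]
    norm_num
  rw [h2] at h1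
  have h5 : ∑ a ∈ Finset.range m, (if Odd (m - a) then Mx U a g else 0)
      - ∑ a ∈ Finset.range m, (if Even (m - a) then Mx U a g else 0) =
      - (-1) ^ m * ∑ a ∈ Finset.range m, (-1 : ℤ) ^ a * Mx U a g := by
    rw [Finset.mul_sum, ← Finset.sum_sub_distrib]
    refine Finset.sum_congr rfl fun a ha => ?_
    rw [Finset.mem_range] at ha
    have h6 : (-1 : ℤ) ^ m * (-1) ^ a = (-1) ^ (m - a) := by
      rw [← pow_add, show m + a = (m - a) + 2 * a by omega, pow_add, pow_mul]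
      norm_num
    rcases Nat.even_or_odd (m - a) with h | h
    · rw [if_neg (by rw [Nat.not_odd_iff_even]; exact h), if_pos h]
      rw [h.neg_one_pow] at h6
      linear_combination (Mx U a g) * h6
    · rw [if_pos h, if_neg (by rw [Nat.not_even_iff_odd]; exact h)]
      rw [h.neg_one_pow] at h6
      linear_combination (Mx U a g) * h6
  have h7 : (-1 : ℤ) ^ m * (-1) ^ m = 1 := by
    rw [← mul_pow]
    norm_num
  rw [h5]
  linear_combination (-(-1 : ℤ) ^ m) * h1 + Mx U m g * h7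

end cons

section main

variable {H : Type} [Group H] {P : Type} [Fintype P] [MulAction H P]

theorem X_sub_one_ne : (X - 1 : ℤ[X]) ≠ 0 := by
  intro h
  have := congrArg (Polynomial.eval 2) h
  simp at this

theorem exists_AY {U : Finset P} (hU : HStable H U) {m : ℕ} :
    ∃ A Y : H → ℤ[X], IsSPP A ∧ IsSPP Y ∧ ∀ g,
      (X ^ 3 - X) * (A g + X ^ (m - 1) * Y g) =
        (∑ a ∈ Finset.range m, C (Mx U a g) * (X ^ (2 * m - a) - X ^ (a + 1)))
        - (X ^ 2 - X) * X ^ (m - 1) *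
          C (∑ a ∈ Finset.range m, (if Odd (m - a) then Mx U a g else 0)
            - ∑ a ∈ Finset.range m, (if Even (m - a) then Mx U a g else 0)) := by
  have hp : ∀ k : ℕ, ∃ p : ℤ[X], NN H p ∧ (1 ≤ k →
    (Odd k → (X ^ 2 - 1) * p + (X - 1) * X ^ (k - 1) + 1 = X ^ (2 * k - 1)) ∧
    (Even k → (X ^ 2 - 1) * p + (X - 1) * X ^ k + 1 = X ^ (2 * k - 1))) := by
    intro k
    by_cases hk : 1 ≤ k
    · obtain ⟨p, h1, h2⟩ := exists_p (H := H) k hk
      exact ⟨p, h1, fun _ => h2⟩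
    · exact ⟨0, IsSPP.zero, fun h => absurd h hk⟩
  choose p hp1 hp2 using hp
  refine ⟨fun g => ∑ a ∈ Finset.range m, C (Mx U a g) * (X ^ a * p (m - a)),
    fun g => ∑ a ∈ Finset.range m, C (Mx U a g) * (if Even (m - a) then 1 else 0), ?_, ?_, ?_⟩
  · refine IsSPP.sum _ _ fun a _ => ?_
    exact (IsSPP.C (sp_Mx hU a)).mul ((NN.pow a).mul (hp1 _))
  · refine IsSPP.sum _ _ fun a _ => ?_
    refine (IsSPP.C (sp_Mx hU a)).mul ?_
    by_cases h : Even (m - a)
    · simp only [if_pos h]; exact IsSPP.one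
    · simp only [if_neg h]; exact IsSPP.zero
  · intro g
    rw [← Finset.sum_sub_distrib, map_sum, Finset.mul_sum, Finset.mul_sum, mul_add, Finset.mul_sum,
      Finset.mul_sum, ← Finset.sum_add_distrib, ← Finset.sum_sub_distrib]
    refine Finset.sum_congr rfl fun a ha => ?_
    rw [Finset.mem_range] at ha
    obtain ⟨h1, h2⟩ := hp2 (m - a) (by omega)
    have e0 : (X : ℤ[X]) ^ (2 * m - a) = X ^ (a + 1) * X ^ (2 * (m - a) - 1) := by
      rw [← pow_add]
      congr 1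
      omega
    have e2 : (X : ℤ[X]) * X ^ (m - 1) = X ^ m := by
      rw [← pow_succ']
      congr 1
      omega
    rcases Nat.even_or_odd (m - a) with h | h
    · have h3 := h2 h
      rw [if_pos h, if_pos h, if_neg (by rw [Nat.not_odd_iff_even]; exact h), e0, ← h3]
      have e1 : (X : ℤ[X]) ^ a * X ^ (m - a) = X ^ m := by
        rw [← pow_add]
        congr 1
        omega
      rw [zero_sub, map_neg]
      linear_combination (C (Mx U a g) * (X - 1) * X) * (e2 - e1)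
    · have h3 := h1 h
      have hne : ¬ Even (m - a) := by rw [Nat.not_even_iff_odd]; exact h
      simp only [if_neg hne, if_pos h]
      rw [e0, ← h3]
      have e1 : (X : ℤ[X]) ^ (a + 1) * X ^ (m - a - 1) = X ^ m := by
        rw [← pow_add]
        congr 1
        omega
      rw [sub_zero]
      linear_combination (C (Mx U a g) * (X - 1)) * (e2 - e1)

theorem uni_nil_facts (g : H) : Fx (uni ([] : List (Finset P))) g = 1 ∧
    numL ([] : List (Finset P)) g = 0 ∧ Lam ([] : List (Finset P)) g = 0 ∧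
    Tf ([] : List (Finset P)) g = 1 ∧ Ta ([] : List (Finset P)) g = 1 := by
  have h1 : fx (∅ : Finset P) g = {∅} := by
    ext S
    rw [HALFA.mem_fx, Finset.mem_singleton]
    constructor
    · rintro ⟨h, -⟩
      exact Finset.subset_empty.mp h
    · rintro rfl
      exact ⟨Finset.Subset.refl _, Finset.map_empty _⟩
  have h2 : ax (∅ : Finset P) g = {∅} := by
    ext S
    rw [mem_ax, Finset.mem_singleton]
    constructor
    · rintro ⟨h, -⟩
      exact Finset.subset_empty.mp h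
    · rintro rfl
      exact ⟨Finset.Subset.refl _, by rw [Finset.map_empty, Finset.sdiff_self]⟩
  refine ⟨?_, ?_, ?_, ?_, ?_⟩
  · simp [Fx, uni, h1]
  · simp [numL, uni, h1, lexs]
  · simp [Lam, uni, h1, lexs]
  · simp [Tf, uni, h1, lexs]
  · simp [Ta, uni, h2, lexs]

/-- the right hand side of the formula -/
def RR (l : List (Finset P)) (M : ℕ) (g : H) : ℤ[X] :=
  2 * numL l g
      + C (Tf l g) * (X ^ 2 + X - 2 * X ^ (M + 1)) - C (Ta l g) * (X ^ 2 - X)
      + (X ^ 3 - X) * (C (Tf l g) * geo (M - 1) ^ 2 + C (Ta l g) * (geo (M - 1)).comp (X ^ 2))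

/-- the strengthened statement -/
def Good (H : Type) [Group H] {P : Type} [Fintype P] [MulAction H P] (l : List (Finset P)) : Prop :=
  ∃ (t : H → ℤ[X]) (Ep Em : H → ℤ), IsSPP t ∧ IsSP Ep ∧ IsSP Em ∧
    (∀ g, Tf l g = Ep g + Em g) ∧ (∀ g, Ta l g = Ep g - Em g) ∧
    ∀ M, (uni l).card = 2 * M → ∀ g, 2 * (X ^ 3 - X) * t g = RR l M g

theorem spp_small {A Y : H → ℤ[X]} {Hp Hm : H → ℤ} {c1 c4 : ℤ[X]} (n : ℕ) (sA : IsSPP A)
    (sY : IsSPP Y) (sHp : IsSP Hp) (sHm : IsSP Hm) (n1 : NN H c1) (n4 : NN H c4) :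
    IsSPP (fun g => A g + X ^ n * Y g + c1 * C (Hp g) + c4 * C (Hm g)) := by
  have q1 : IsSPP (fun g => X ^ n * Y g) := IsSPP.mul (IsSPP.monomial n) sY
  have q2 : IsSPP (fun g => c1 * C (Hp g)) := IsSPP.mul n1 (IsSPP.C sHp)
  have q3 : IsSPP (fun g => c4 * C (Hm g)) := IsSPP.mul n4 (IsSPP.C sHm)
  exact ((sA.add q1).add q2).add q3

theorem spp_big {F A Y L t : H → ℤ[X]} {Ha Hb Hp Hm Ep Em : H → ℤ} {c1 c2 c3 c4 : ℤ[X]} (n : ℕ)
    (sF : IsSPP F) (sA : IsSPP A) (sY : IsSPP Y) (sL : IsSPP L) (st : IsSPP t)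
    (sHa : IsSP Ha) (sHb : IsSP Hb) (sHp : IsSP Hp) (sHm : IsSP Hm) (sEp : IsSP Ep) (sEm : IsSP Em)
    (n1 : NN H c1) (n2 : NN H c2) (n3 : NN H c3) (n4 : NN H c4) :
    IsSPP (fun g => F g * A g + F g * X ^ n * Y g + X ^ n * C (Hb g) * (L g + X ^ 2 * t g)
      + X * X ^ n * C (Ha g) * t g + c1 * (C (Hp g) * C (Ep g)) + c2 * (C (Hp g) * C (Em g))
      + c3 * (C (Hm g) * C (Em g)) + c4 * (C (Hm g) * C (Ep g))) := by
  have q0 : IsSPP (fun g => F g * A g) := IsSPP.mul sF sA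
  have qX : IsSPP (fun _ : H => (X ^ n : ℤ[X])) := IsSPP.monomial n
  have qX2 : IsSPP (fun _ : H => (X ^ 2 : ℤ[X])) := IsSPP.monomial 2
  have qX1 : IsSPP (fun _ : H => (X * X ^ n : ℤ[X])) :=
    (IsSPP.monomial (n + 1)).congr fun _ => by ring
  have q1 : IsSPP (fun g => F g * X ^ n * Y g) := IsSPP.mul (IsSPP.mul sF qX) sY
  have q2 : IsSPP (fun g => L g + X ^ 2 * t g) := IsSPP.add sL (IsSPP.mul qX2 st)
  have q3 : IsSPP (fun g => X ^ n * C (Hb g) * (L g + X ^ 2 * t g)) :=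
    IsSPP.mul (IsSPP.mul qX (IsSPP.C sHb)) q2
  have q4 : IsSPP (fun g => X * X ^ n * C (Ha g) * t g) :=
    IsSPP.mul (IsSPP.mul qX1 (IsSPP.C sHa)) st
  have q5 : IsSPP (fun g => c1 * (C (Hp g) * C (Ep g))) :=
    IsSPP.mul n1 (IsSPP.mul (IsSPP.C sHp) (IsSPP.C sEp))
  have q6 : IsSPP (fun g => c2 * (C (Hp g) * C (Em g))) :=
    IsSPP.mul n2 (IsSPP.mul (IsSPP.C sHp) (IsSPP.C sEm))
  have q7 : IsSPP (fun g => c3 * (C (Hm g) * C (Em g))) :=
    IsSPP.mul n3 (IsSPP.mul (IsSPP.C sHm) (IsSPP.C sEm))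
  have q8 : IsSPP (fun g => c4 * (C (Hm g) * C (Ep g))) :=
    IsSPP.mul n4 (IsSPP.mul (IsSPP.C sHm) (IsSPP.C sEp))
  exact ((((((q0.add q1).add q3).add q4).add q5).add q6).add q7).add q8

theorem step_nil {U : Finset P} (hl : GoodList H [U]) {m : ℕ} (hm1 : 1 ≤ m) (hm : U.card = 2 * m) :
    Good H [U] := by
  have hU := hl.stable U List.mem_cons_self
  obtain ⟨Hp, Hm, sHp, sHm, hHp, hHm⟩ := sp_half hU hm hm1
  obtain ⟨A, Y, sA, sY, hAY⟩ := exists_AY hU (m := m)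
  have hMx : ∀ g, Mx U m g = Hp g + Hm g := fun g => by linarith [hHp g, hHm g]
  have hAx : ∀ g, Ax U g = Hp g - Hm g := fun g => by linarith [hHp g, hHm g]
  have hTf : ∀ g : H, Tf [U] g = Hp g + Hm g := fun g => by
    rw [Tf_cons hl hm, (uni_nil_facts g).2.2.2.1, mul_one, hMx]
  have hTa : ∀ g : H, Ta [U] g = Hp g - Hm g := fun g => by
    rw [Ta_cons hl, (uni_nil_facts g).2.2.2.2, mul_one, hAx]
  have hnum : ∀ g : H, numL [U] g = ∑ a ∈ Finset.range m, C (Mx U a g) * (X ^ (2 * m - a) - X ^ (a + 1)) :=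
    fun g => by
      rw [numL_cons hl hm, (uni_nil_facts g).1, (uni_nil_facts g).2.1, mul_zero, add_zero, one_mul]
  have hM : ∀ M, (uni [U]).card = 2 * M → M = m := fun M h => by
    have : uni [U] = U := by simp [uni]
    rw [this, hm] at h
    omega
  rcases Nat.even_or_odd' m with ⟨k, hk | hk⟩
  · obtain ⟨k, rfl⟩ : ∃ j, k = j + 1 := ⟨k - 1, by omega⟩
    obtain ⟨c1, c4, n1, n4, e1, e4⟩ := coef_even0 (H := H) k
    refine ⟨fun g => A g + X ^ (2 * k + 1) * Y g + c1 * C (Hp g) + c4 * C (Hm g), Hp, Hm,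
      spp_small _ sA sY sHp sHm n1 n4, sHp, sHm, hTf, hTa, ?_⟩
    intro M h g
    obtain rfl := hM M h
    subst hk
    have e5 : 2 * (k + 1) - 1 = 2 * k + 1 := by omega
    have r1 := hAY g
    have hal := alt_half hU hm g
    rw [hMx, hAx, Even.neg_one_pow (even_two_mul _)] at hal
    have hal2 : ∑ a ∈ Finset.range (2 * (k + 1)), (if Odd (2 * (k + 1) - a) then Mx U a g else 0)
      - ∑ a ∈ Finset.range (2 * (k + 1)), (if Even (2 * (k + 1) - a) then Mx U a g else 0) = Hm g := by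
      linarith
    rw [hal2, e5] at r1
    have g1 := geo_mul (2 * k + 1)
    have g2 := geo2_mul (2 * k + 1)
    have core := lexeven_core_even0 (X : ℤ[X]) (X ^ (2 * k + 1)) (A g) (Y g) _ (C (Hp g)) (C (Hm g))
      c1 c4 (geo (2 * k + 1)) (geo2 (2 * k + 1)) X_ne_zero X_sub_one_ne r1 g1
      (by rw [g2]; ring) e1 e4
    unfold RR
    rw [hTf, hTa, hnum, e5, geo_comp, core]
    simp only [map_add, map_sub]
    ring
  · obtain ⟨c1, c4, n1, n4, e1, e4⟩ := coef_odd0 (H := H) k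
    refine ⟨fun g => A g + X ^ (2 * k) * Y g + c1 * C (Hp g) + c4 * C (Hm g), Hp, Hm,
      spp_small _ sA sY sHp sHm n1 n4, sHp, sHm, hTf, hTa, ?_⟩
    intro M h g
    obtain rfl := hM M h
    subst hk
    have e5 : 2 * k + 1 - 1 = 2 * k := by omega
    have r1 := hAY g
    have hal := alt_half hU hm g
    rw [hMx, hAx, Odd.neg_one_pow (odd_two_mul_add_one k)] at hal
    have hal2 : ∑ a ∈ Finset.range (2 * k + 1), (if Odd (2 * k + 1 - a) then Mx U a g else 0)
      - ∑ a ∈ Finset.range (2 * k + 1), (if Even (2 * k + 1 - a) then Mx U a g else 0) = Hp g := by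
      linarith
    rw [hal2, e5] at r1
    have g1 := geo_mul (2 * k)
    have g2 := geo2_mul (2 * k)
    have core := lexeven_core_odd0 (X : ℤ[X]) (X ^ (2 * k)) (A g) (Y g) _ (C (Hp g)) (C (Hm g))
      c1 c4 (geo (2 * k)) (geo2 (2 * k)) X_ne_zero X_sub_one_ne r1 g1
      (by rw [g2]; ring) e1 e4
    unfold RR
    rw [hTf, hTa, hnum, e5, geo_comp, core]
    simp only [map_add, map_sub]
    ring

theorem step_cons {U : Finset P} {T : List (Finset P)} (hl : GoodList H (U :: T)) {m s : ℕ}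
    (hm1 : 1 ≤ m) (hm : U.card = 2 * m) (hs : (uni T).card = 2 * (s + 1)) (ih : Good H T) :
    Good H (U :: T) := by
  have hU := hl.stable U List.mem_cons_self
  have hl' := good_tail hl
  have hd := uni_disj hl
  obtain ⟨t, Ep, Em, st, sEp, sEm, hEp, hEm, iht⟩ := ih
  obtain ⟨Hp, Hm, sHp, sHm, hHp, hHm⟩ := sp_half hU hm hm1
  obtain ⟨A, Y, sA, sY, hAY⟩ := exists_AY hU (m := m)
  have sF := spp_Fx (uni_stable hl')
  have sL := spp_Lam hl'
  have hMx : ∀ g, Mx U m g = Hp g + Hm g := fun g => by linarith [hHp g, hHm g]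
  have hAx : ∀ g, Ax U g = Hp g - Hm g := fun g => by linarith [hHp g, hHm g]
  have hTf : ∀ g : H, Tf (U :: T) g = (Hp g + Hm g) * (Ep g + Em g) := fun g => by
    rw [Tf_cons hl hm, hMx, hEp]
  have hTa : ∀ g : H, Ta (U :: T) g = (Hp g - Hm g) * (Ep g - Em g) := fun g => by
    rw [Ta_cons hl, hAx, hEm]
  have hM : ∀ M, (uni (U :: T)).card = 2 * M → M = m + (s + 1) := fun M h => by
    have h2 : (uni (U :: T)).card = 2 * m + (uni T).card := by
      rw [uni, Finset.card_union_of_disjoint hd, hm]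
    omega
  have sP1 : IsSP (fun g => Hp g * Ep g + Hm g * Em g) := (sHp.mul sEp).add (sHm.mul sEm)
  have sP2 : IsSP (fun g => Hp g * Em g + Hm g * Ep g) := (sHp.mul sEm).add (sHm.mul sEp)
  have hT1 : ∀ g : H, Tf (U :: T) g = (Hp g * Ep g + Hm g * Em g) + (Hp g * Em g + Hm g * Ep g) :=
    fun g => by rw [hTf]; ring
  have hT2 : ∀ g : H, Ta (U :: T) g = (Hp g * Ep g + Hm g * Em g) - (Hp g * Em g + Hm g * Ep g) :=
    fun g => by rw [hTa]; ring
  rcases Nat.even_or_odd' m with ⟨k, hk | hk⟩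
  · obtain ⟨k, rfl⟩ : ∃ j, k = j + 1 := ⟨k - 1, by omega⟩
    obtain ⟨c1, c2, c3, c4, n1, n2, n3, n4, e1, e2, e3, e4⟩ := coef_even (H := H) k s
    refine ⟨_, _, _, spp_big (2 * k + 1) sF sA sY sL st sHp sHm sHp sHm sEp sEm n1 n2 n3 n4,
      sP1, sP2, hT1, hT2, ?_⟩
    intro M h g
    have hMM := hM M h
    subst hk
    have e5 : 2 * (k + 1) - 1 = 2 * k + 1 := by omega
    have r1 := hAY g
    have hal := alt_half hU hm g
    rw [hMx, hAx, Even.neg_one_pow (even_two_mul _)] at hal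
    have hal2 : ∑ a ∈ Finset.range (2 * (k + 1)), (if Odd (2 * (k + 1) - a) then Mx U a g else 0)
      - ∑ a ∈ Finset.range (2 * (k + 1)), (if Even (2 * (k + 1) - a) then Mx U a g else 0)
        = Hm g := by
      linarith
    rw [hal2, e5] at r1
    have r3 := Fx_eq_numL hl' hs g
    rw [hEp, map_add] at r3
    have r4 := iht (s + 1) hs g
    unfold RR at r4
    rw [hEp, hEm, Nat.add_sub_cancel, geo_comp, map_add, map_sub] at r4
    have e6 : M - 1 = 2 * k + s + 2 := by omega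
    have g1 := geo_mul (2 * k + s + 2)
    have g2 := geo2_mul (2 * k + s + 2)
    have h1 := geo_mul s
    have h2 := geo2_mul s
    have core := lexeven_core_even (X : ℤ[X]) (X ^ (2 * k + 1)) (X ^ (s + 1)) (Fx (uni T) g)
      (numL T g) (Lam T g) (t g) (A g) (Y g) _ (C (Hp g)) (C (Hm g)) (C (Ep g))
      (C (Em g)) c1 c2 c3 c4 (geo s) (geo2 s) (geo (2 * k + s + 2)) (geo2 (2 * k + s + 2))
      X_ne_zero X_sub_one_ne r1 r3 (by rw [r4]; ring) (by rw [g1]; ring) (by rw [g2]; ring)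
      (by linear_combination X * h1) (by linear_combination X ^ 2 * h2) e1 e2 e3 e4
    unfold RR
    rw [hTf, hTa, numL_cons hl hm, hMx, e6, geo_comp, core, hMM]
    simp only [map_add, map_sub, map_mul]
    ring
  · obtain ⟨c1, c2, c3, c4, n1, n2, n3, n4, e1, e2, e3, e4⟩ := coef_odd (H := H) k s
    refine ⟨_, _, _, spp_big (2 * k) sF sA sY sL st sHm sHp sHp sHm sEp sEm n1 n2 n3 n4,
      sP1, sP2, hT1, hT2, ?_⟩
    intro M h g
    have hMM := hM M h
    subst hk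
    have e5 : 2 * k + 1 - 1 = 2 * k := by omega
    have r1 := hAY g
    have hal := alt_half hU hm g
    rw [hMx, hAx, Odd.neg_one_pow (odd_two_mul_add_one k)] at hal
    have hal2 : ∑ a ∈ Finset.range (2 * k + 1), (if Odd (2 * k + 1 - a) then Mx U a g else 0)
      - ∑ a ∈ Finset.range (2 * k + 1), (if Even (2 * k + 1 - a) then Mx U a g else 0)
        = Hp g := by
      linarith
    rw [hal2, e5] at r1
    have r3 := Fx_eq_numL hl' hs g
    rw [hEp, map_add] at r3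
    have r4 := iht (s + 1) hs g
    unfold RR at r4
    rw [hEp, hEm, Nat.add_sub_cancel, geo_comp, map_add, map_sub] at r4
    have e6 : M - 1 = 2 * k + s + 1 := by omega
    have g1 := geo_mul (2 * k + s + 1)
    have g2 := geo2_mul (2 * k + s + 1)
    have h1 := geo_mul s
    have h2 := geo2_mul s
    have core := lexeven_core_odd (X : ℤ[X]) (X ^ (2 * k)) (X ^ (s + 1)) (Fx (uni T) g)
      (numL T g) (Lam T g) (t g) (A g) (Y g) _ (C (Hp g)) (C (Hm g)) (C (Ep g))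
      (C (Em g)) c1 c2 c3 c4 (geo s) (geo2 s) (geo (2 * k + s + 1)) (geo2 (2 * k + s + 1))
      X_ne_zero X_sub_one_ne r1 r3 (by rw [r4]; ring) (by rw [g1]; ring) (by rw [g2]; ring)
      (by linear_combination X * h1) (by linear_combination X ^ 2 * h2) e1 e2 e3 e4
    unfold RR
    rw [hTf, hTa, numL_cons hl hm, hMx, e6, geo_comp, core, hMM]
    simp only [map_add, map_sub, map_mul]
    ring

theorem good_all (l : List (Finset P)) (hl : GoodList H l) (hne : l ≠ [])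
    (heven : ∀ U ∈ l, Even U.card) : Good H l ∧ ∃ s, (uni l).card = 2 * (s + 1) := by
  induction l with
  | nil => exact absurd rfl hne
  | cons U T ih =>
    have hU : 0 < U.card := Finset.card_pos.mpr (hl.nonempty U List.mem_cons_self)
    obtain ⟨m, hm⟩ := heven U List.mem_cons_self
    have hm2 : U.card = 2 * m := by omega
    rcases T with _ | ⟨V, T⟩
    · refine ⟨step_nil hl (by omega) hm2, m - 1, ?_⟩
      have : uni [U] = U := by simp [uni]
      rw [this, hm2]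
      omega
    · obtain ⟨h1, s, hs⟩ := ih (good_tail hl) (List.cons_ne_nil _ _)
        (fun W hW => heven W (List.mem_cons_of_mem U hW))
      refine ⟨step_cons hl (by omega) hm2 hs h1, m + s, ?_⟩
      rw [uni, Finset.card_union_of_disjoint (uni_disj hl), hm2, hs]
      omega

end main

end LexEven

/-- `2 M` is the total number of elements. -/
theorem lex_even {H : Type} [Group H] {P : Type} [Fintype P] [MulAction H P]
    (l : List (Finset P)) (hl : GoodList H l) (hne : l ≠ [])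
    (heven : ∀ U ∈ l, Even U.card) {M : ℕ} (hM : (uni l).card = 2 * M) :
    ∃ t : H → ℤ[X], IsSPP t ∧ ∀ g, 2 * (X ^ 3 - X) * t g = 2 * numL l g
      + C (Tf l g) * (X ^ 2 + X - 2 * X ^ (M + 1)) - C (Ta l g) * (X ^ 2 - X)
      + (X ^ 3 - X) * (C (Tf l g) * geo (M - 1) ^ 2 + C (Ta l g) * (geo (M - 1)).comp (X ^ 2)) := by
  obtain ⟨⟨t, -, -, st, -, -, -, -, h⟩, -⟩ := LexEven.good_all l hl hne heven
  exact ⟨t, st, h M hM⟩

end Pool.Agent.Mbar
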