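import Mathlib
import Pool.Agent.Mbar.SSet
import Pool.Agent.Mbar.Defs
import Pool.Agent.Mbar.HALFA
import Pool.Agent.Mbar.HALFB
import Pool.Agent.Mbar.CLASSES

/-! # Positivity for the lexicographic order, some class of odd cardinality -/

noncomputable section

namespace Pool.Agent.Mbar

open Polynomial

open scoped Classical

variable {H : Type} [Group H] {P : Type} [Fintype P] [MulAction H P]

namespace LexOdd

/-! ### bookkeeping for subsets -/

theorem hstable_union {U R : Finset P} (hU : HStable H U) (hR : HStable H R) :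
    HStable H (U ∪ R) := by
  intro g x
  rw [Finset.mem_union, Finset.mem_union, ← hU g x, ← hR g x]

theorem map_mem_iff (g : H) (S : Finset P) (x : P) :
    g • x ∈ S.map (pm P g).toEmbedding ↔ x ∈ S := by
  constructor
  · intro h
    obtain ⟨y, hy, hyx⟩ := Finset.mem_map.1 h
    have : g • y = g • x := hyx
    rw [smul_left_cancel g this] at hy
    exact hy
  · intro h
    exact Finset.mem_map.2 ⟨x, h, rfl⟩

theorem map_eq_iff (g : H) (S T : Finset P) :
    S.map (pm P g).toEmbedding = T ↔ ∀ x, x ∈ S ↔ g • x ∈ T := by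
  constructor
  · rintro rfl x
    exact (map_mem_iff g S x).symm
  · intro h
    ext y
    obtain ⟨x, rfl⟩ : ∃ x, g • x = y := ⟨g⁻¹ • y, smul_inv_smul g y⟩
    rw [map_mem_iff, h]

theorem mem_fx {U : Finset P} {g : H} {S : Finset P} :
    S ∈ fx U g ↔ S ⊆ U ∧ ∀ x, x ∈ S ↔ g • x ∈ S := by
  unfold fx
  rw [Finset.mem_filter, Finset.mem_powerset, map_eq_iff]

theorem sum_fx_union {U R : Finset P} (hU : HStable H U) (hR : HStable H R) (hd : Disjoint U R)
    (g : H) {A : Type} [AddCommMonoid A] (φ : Finset P → A) :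
    ∑ S ∈ fx (U ∪ R) g, φ S = ∑ V ∈ fx U g, ∑ W ∈ fx R g, φ (V ∪ W) := by
  rw [← Finset.sum_product']
  refine Finset.sum_bij' (fun S _ => (S ∩ U, S ∩ R)) (fun p _ => p.1 ∪ p.2) ?_ ?_ ?_ ?_ ?_
  · intro S hS
    rw [mem_fx] at hS
    rw [Finset.mem_product, mem_fx, mem_fx]
    refine ⟨⟨Finset.inter_subset_right, fun x => ?_⟩, ⟨Finset.inter_subset_right, fun x => ?_⟩⟩
    · rw [Finset.mem_inter, Finset.mem_inter, ← hS.2 x, ← hU g x]
    · rw [Finset.mem_inter, Finset.mem_inter, ← hS.2 x, ← hR g x]
  · intro p hp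
    rw [Finset.mem_product, mem_fx, mem_fx] at hp
    rw [mem_fx]
    refine ⟨Finset.union_subset_union hp.1.1 hp.2.1, fun x => ?_⟩
    rw [Finset.mem_union, Finset.mem_union, ← hp.1.2 x, ← hp.2.2 x]
  · intro S hS
    rw [mem_fx] at hS
    rw [← Finset.inter_union_distrib_left]
    exact Finset.inter_eq_left.2 hS.1
  · intro p hp
    rw [Finset.mem_product, mem_fx, mem_fx] at hp
    obtain ⟨V, W⟩ := p
    simp only at hp
    have h1 : (V ∪ W) ∩ U = V := by
      rw [Finset.union_inter_distrib_right, Finset.inter_eq_left.2 hp.1.1]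
      rw [Finset.disjoint_iff_inter_eq_empty.1 (Disjoint.mono_left hp.2.1 hd.symm),
        Finset.union_empty]
    have h2 : (V ∪ W) ∩ R = W := by
      rw [Finset.union_inter_distrib_right, Finset.inter_eq_left.2 hp.2.1]
      rw [Finset.disjoint_iff_inter_eq_empty.1 (Disjoint.mono_left hp.1.1 hd),
        Finset.empty_union]
    exact Prod.ext h1 h2
  · intro S hS
    rw [mem_fx] at hS
    simp only
    rw [← Finset.inter_union_distrib_left, Finset.inter_eq_left.2 hS.1]

theorem sum_fx_card {U : Finset P} (g : H) (φ : ℕ → ℤ[X]) :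
    ∑ V ∈ fx U g, φ V.card = ∑ a ∈ Finset.range (U.card + 1), C (Mx U a g) * φ a := by
  have h : ∀ V ∈ fx U g, V.card ∈ Finset.range (U.card + 1) := by
    intro V hV
    rw [mem_fx] at hV
    exact Finset.mem_range.2 (Nat.lt_succ_of_le (Finset.card_le_card hV.1))
  rw [← Finset.sum_fiberwise_of_maps_to h]
  refine Finset.sum_congr rfl fun a _ => ?_
  rw [Finset.sum_congr rfl (g := fun _ => φ a)
    (fun V hV => by rw [(Finset.mem_filter.1 hV).2]), Finset.sum_const]
  unfold Mx
  rw [nsmul_eq_mul]
  simp

/-- complement inside a stable set -/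
theorem sum_fx_compl {R : Finset P} (hR : HStable H R) (g : H) {A : Type} [AddCommMonoid A]
    (φ : Finset P → A) : ∑ W ∈ fx R g, φ (R \ W) = ∑ W ∈ fx R g, φ W := by
  have hmem : ∀ W ∈ fx R g, R \ W ∈ fx R g := by
    intro W hW
    rw [mem_fx] at hW ⊢
    refine ⟨Finset.sdiff_subset, fun x => ?_⟩
    rw [Finset.mem_sdiff, Finset.mem_sdiff, ← hW.2 x, ← hR g x]
  have hinv : ∀ W ∈ fx R g, R \ (R \ W) = W := by
    intro W hW
    rw [mem_fx] at hW
    exact Finset.sdiff_sdiff_eq_self hW.1
  exact Finset.sum_bij' (fun W _ => R \ W) (fun W _ => R \ W) hmem hmem hinv hinv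
    (fun W _ => rfl)

/-! ### the lexicographic sign -/

theorem subset_uni {l : List (Finset P)} {U : Finset P} (h : U ∈ l) : U ⊆ uni l := by
  induction l with
  | nil => cases h
  | cons V l ih =>
    rcases List.mem_cons.1 h with rfl | h
    · exact Finset.subset_union_left
    · exact (ih h).trans Finset.subset_union_right

theorem lexs_congr {l : List (Finset P)} {S S' : Finset P}
    (h : ∀ U ∈ l, S ∩ U = S' ∩ U) : lexs l S = lexs l S' := by
  induction l with
  | nil => rfl
  | cons V l ih =>
    have h1 := h V List.mem_cons_self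
    have h2 := ih fun U hU => h U (List.mem_cons_of_mem V hU)
    simp only [lexs, h1, h2]

theorem lexs_inter (l : List (Finset P)) (S : Finset P) : lexs l (S ∩ uni l) = lexs l S := by
  apply lexs_congr
  intro U hU
  rw [Finset.inter_assoc, Finset.inter_eq_right.2 (subset_uni hU)]

theorem lexs_sdiff (l : List (Finset P)) (S : Finset P) : lexs l (uni l \ S) = - lexs l S := by
  have h : uni l \ S = Sᶜ ∩ uni l := by
    ext x
    simp only [Finset.mem_sdiff, Finset.mem_inter, Finset.mem_compl]
    tauto
  rw [h, lexs_inter, lexs_compl]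

theorem lexs_ne_zero {l : List (Finset P)} (hodd : ∃ U ∈ l, Odd U.card) (S : Finset P) :
    lexs l S ≠ 0 := by
  induction l with
  | nil => obtain ⟨U, hU, -⟩ := hodd; cases hU
  | cons V l ih =>
    simp only [lexs]
    split_ifs with h
    · apply ih
      obtain ⟨U, hU, hU1⟩ := hodd
      rcases List.mem_cons.1 hU with rfl | hU
      · exfalso
        obtain ⟨k, hk⟩ := hU1
        omega
      · exact ⟨U, hU, hU1⟩
    · intro h1
      apply h
      omega

theorem goodList_tail {U : Finset P} {T : List (Finset P)} (h : GoodList H (U :: T)) :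
    GoodList H T where
  stable := fun V hV => h.stable V (List.mem_cons_of_mem U hV)
  nonempty := fun V hV => h.nonempty V (List.mem_cons_of_mem U hV)
  disj := (List.pairwise_cons.1 h.disj).2

theorem hstable_uni {l : List (Finset P)} (h : GoodList H l) : HStable H (uni l) := by
  induction l with
  | nil => intro g x; simp [uni]
  | cons U T ih => exact hstable_union (h.stable U List.mem_cons_self) (ih (goodList_tail h))

theorem disj_uni {U : Finset P} {T : List (Finset P)} (h : ∀ V ∈ T, Disjoint U V) :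
    Disjoint U (uni T) := by
  induction T with
  | nil => exact Finset.disjoint_empty_right U
  | cons V T ih =>
    exact Finset.disjoint_union_right.2 ⟨h V List.mem_cons_self,
      ih fun V' hV' => h V' (List.mem_cons_of_mem V hV')⟩

theorem disj_head {U : Finset P} {T : List (Finset P)} (h : GoodList H (U :: T)) :
    Disjoint U (uni T) := disj_uni (List.pairwise_cons.1 h.disj).1

theorem lexs_union {U : Finset P} {T : List (Finset P)} (h : GoodList H (U :: T))
    {V W : Finset P} (hV : V ⊆ U) (hW : W ⊆ uni T) :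
    lexs (U :: T) (V ∪ W) = if 2 * V.card = U.card then lexs T W
      else 2 * (V.card : ℤ) - (U.card : ℤ) := by
  have hd := disj_head h
  have h1 : (V ∪ W) ∩ U = V := by
    rw [Finset.union_inter_distrib_right, Finset.inter_eq_left.2 hV,
      Finset.disjoint_iff_inter_eq_empty.1 (Disjoint.mono_left hW hd.symm), Finset.union_empty]
  have h2 : lexs T (V ∪ W) = lexs T W := by
    rw [← lexs_inter T (V ∪ W), Finset.union_inter_distrib_right,
      Finset.disjoint_iff_inter_eq_empty.1 (Disjoint.mono_left hV hd), Finset.empty_union,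
      lexs_inter]
  simp only [lexs, h1, h2]

theorem card_union' {U : Finset P} {T : List (Finset P)} (h : GoodList H (U :: T))
    {V W : Finset P} (hV : V ⊆ U) (hW : W ⊆ uni T) : (V ∪ W).card = V.card + W.card :=
  Finset.card_union_of_disjoint (Disjoint.mono hV hW (disj_head h))

/-- the sum of `X^(r-|W|)` -/
theorem sum_reflect {R : Finset P} (hR : HStable H R) (g : H) :
    ∑ W ∈ fx R g, (X : ℤ[X]) ^ (R.card - W.card) = Fx R g := by
  have h := sum_fx_compl hR g (fun W => (X : ℤ[X]) ^ W.card)
  unfold Fx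
  rw [← h]
  refine Finset.sum_congr rfl fun W hW => ?_
  rw [Finset.card_sdiff_of_subset (mem_fx.1 hW).1]

/-- the numerator of a list -/
theorem numL_cons {U : Finset P} {T : List (Finset P)} (h : GoodList H (U :: T)) (g : H) :
    numL (U :: T) g =
      (∑ a ∈ (Finset.range (U.card + 1)).filter (fun a => 2 * a < U.card),
        C (Mx U a g) * (Fx (uni T) g * (X ^ (U.card - a) - X ^ (a + 1))))
      + ∑ a ∈ (Finset.range (U.card + 1)).filter (fun a => 2 * a = U.card),
        C (Mx U a g) * (X ^ a * numL T g) := by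
  have hU := h.stable U List.mem_cons_self
  have hT := hstable_uni (goodList_tail h)
  have hd := disj_head h
  set R := uni T with hRdef
  have huni : uni (U :: T) = U ∪ R := rfl
  have hcard : (uni (U :: T)).card = U.card + R.card := Finset.card_union_of_disjoint hd
  have hnum : numL (U :: T) g = ∑ S ∈ (fx (uni (U :: T)) g).filter (fun S => lexs (U :: T) S < 0),
    (X ^ ((uni (U :: T)).card - S.card) - X ^ (S.card + 1)) := rfl
  rw [hnum, Finset.sum_filter, huni, sum_fx_union hU hT hd g]
  rw [← huni, hcard]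
  -- inner sums
  have key : ∀ V ∈ fx U g, (∑ W ∈ fx R g, if lexs (U :: T) (V ∪ W) < 0 then
      ((X : ℤ[X]) ^ (U.card + R.card - (V ∪ W).card) - X ^ ((V ∪ W).card + 1)) else 0)
      = (if 2 * V.card < U.card then
          Fx R g * (X ^ (U.card - V.card) - X ^ (V.card + 1)) else 0)
        + (if 2 * V.card = U.card then X ^ V.card * numL T g else 0) := by
    intro V hV
    have hVU := (mem_fx.1 hV).1
    have hVc : V.card ≤ U.card := Finset.card_le_card hVU
    have hW : ∀ W ∈ fx R g, (if lexs (U :: T) (V ∪ W) < 0 then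
      ((X : ℤ[X]) ^ (U.card + R.card - (V ∪ W).card) - X ^ ((V ∪ W).card + 1)) else 0)
      = if (if 2 * V.card = U.card then lexs T W else 2 * (V.card : ℤ) - (U.card : ℤ)) < 0 then
        ((X : ℤ[X]) ^ (U.card - V.card) * X ^ (R.card - W.card)
          - X ^ (V.card + 1) * X ^ W.card) else 0 := by
      intro W hW
      have hWR := (mem_fx.1 hW).1
      have hWc : W.card ≤ R.card := Finset.card_le_card hWR
      rw [lexs_union h hVU hWR, card_union' h hVU hWR, ← pow_add, ← pow_add]
      have e1 : U.card + R.card - (V.card + W.card) = U.card - V.card + (R.card - W.card) := by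
        omega
      have e2 : V.card + W.card + 1 = V.card + 1 + W.card := by omega
      rw [e1, e2]
    rw [Finset.sum_congr rfl hW]
    rcases lt_trichotomy (2 * V.card) U.card with hlt | heq | hgt
    · rw [if_pos hlt, if_neg hlt.ne, add_zero]
      have h3 : ∀ W ∈ fx R g, (if (if 2 * V.card = U.card then lexs T W
          else 2 * (V.card : ℤ) - (U.card : ℤ)) < 0 then
        ((X : ℤ[X]) ^ (U.card - V.card) * X ^ (R.card - W.card)
          - X ^ (V.card + 1) * X ^ W.card) else 0) =
          (X : ℤ[X]) ^ (U.card - V.card) * X ^ (R.card - W.card)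
          - X ^ (V.card + 1) * X ^ W.card := by
        intro W _
        rw [if_neg hlt.ne, if_pos (by omega)]
      rw [Finset.sum_congr rfl h3, Finset.sum_sub_distrib, ← Finset.mul_sum, ← Finset.mul_sum,
        sum_reflect hT g]
      unfold Fx
      ring
    · rw [if_neg heq.not_lt, if_pos heq, zero_add]
      unfold numL
      rw [Finset.sum_filter, Finset.mul_sum]
      refine Finset.sum_congr rfl fun W _ => ?_
      rw [if_pos heq]
      by_cases h4 : lexs T W < 0
      · rw [if_pos h4, if_pos h4]
        have e3 : U.card - V.card = V.card := by omega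
        rw [e3]
        ring
      · rw [if_neg h4, if_neg h4, mul_zero]
    · rw [if_neg (by omega), if_neg (by omega), add_zero]
      apply Finset.sum_eq_zero
      intro W _
      rw [if_neg (by omega : ¬ 2 * V.card = U.card), if_neg (by omega)]
  rw [Finset.sum_congr rfl key]
  have h5 := sum_fx_card (U := U) g (fun a => (if 2 * a < U.card then
          Fx R g * (X ^ (U.card - a) - X ^ (a + 1)) else 0)
        + (if 2 * a = U.card then X ^ a * numL T g else 0))
  rw [h5, Finset.sum_filter, Finset.sum_filter, ← Finset.sum_add_distrib]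
  refine Finset.sum_congr rfl fun a _ => ?_
  split_ifs with h6 h7
  · omega
  · ring
  · ring
  · ring

/-- `(1+X)^R = numL + (1+X) Lam` if there are no perfect halves -/
theorem Fx_eq_numL {T : List (Finset P)} (h : GoodList H T) (hodd : ∃ U ∈ T, Odd U.card) (g : H) :
    Fx (uni T) g = numL T g + (X + 1) * Lam T g := by
  have hT := hstable_uni h
  set R := uni T with hR
  have h1 : Fx R g = Lam T g + ∑ W ∈ (fx R g).filter (fun W => 0 < lexs T W), (X : ℤ[X]) ^ W.card := by
    unfold Fx Lam
    rw [← Finset.sum_filter_add_sum_filter_not (fx R g) (fun W => lexs T W < 0)]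
    congr 1
    refine Finset.sum_congr ?_ fun _ _ => rfl
    apply Finset.filter_congr
    intro W _
    have := lexs_ne_zero hodd W
    omega
  have h2 : ∑ W ∈ (fx R g).filter (fun W => 0 < lexs T W), (X : ℤ[X]) ^ W.card
      = ∑ W ∈ (fx R g).filter (fun W => lexs T W < 0), (X : ℤ[X]) ^ (R.card - W.card) := by
    rw [Finset.sum_filter, Finset.sum_filter,
      ← sum_fx_compl hT g (fun W => if 0 < lexs T W then (X : ℤ[X]) ^ W.card else 0)]
    refine Finset.sum_congr rfl fun W hW => ?_
    rw [lexs_sdiff, Finset.card_sdiff_of_subset (mem_fx.1 hW).1]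
    by_cases h3 : lexs T W < 0
    · rw [if_pos h3, if_pos (by omega)]
    · rw [if_neg h3, if_neg (by omega)]
  rw [h1, h2]
  unfold numL Lam
  rw [Finset.sum_sub_distrib, Finset.mul_sum]
  have h4 : ∑ S ∈ (fx R g).filter (fun S => lexs T S < 0), ((X : ℤ[X]) + 1) * X ^ S.card
      = ∑ S ∈ (fx R g).filter (fun S => lexs T S < 0), (X : ℤ[X]) ^ S.card
        + ∑ S ∈ (fx R g).filter (fun S => lexs T S < 0), (X : ℤ[X]) ^ (S.card + 1) := by
    rw [← Finset.sum_add_distrib]
    refine Finset.sum_congr rfl fun S _ => ?_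
    ring
  rw [h4]
  ring

/-! ### polynomial identities -/

/-- the split of `1 + X + ... + X^(2(h+d))` without the exponent `2h` -/
def EE (h d : ℕ) : ℤ[X] :=
  ∑ i ∈ Finset.range h, X ^ (2 * i) + ∑ i ∈ Finset.range d, X ^ (2 * (h + i) + 1)

theorem EE_nonneg (h d : ℕ) : IsSPP (fun _ : H => EE h d) := by
  unfold EE
  exact IsSPP.add (IsSPP.sum _ _ fun i _ => IsSPP.monomial _)
    (IsSPP.sum _ _ fun i _ => IsSPP.monomial _)

theorem EE_spec (h d : ℕ) :
    (X ^ 2 - 1) * EE h d = X ^ (2 * (h + d) + 1) - 1 - (X - 1) * X ^ (2 * h) := by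
  unfold EE
  rw [mul_add, Finset.mul_sum, Finset.mul_sum]
  have h1 : ∑ i ∈ Finset.range h, ((X : ℤ[X]) ^ 2 - 1) * X ^ (2 * i) = X ^ (2 * h) - 1 := by
    induction h with
    | zero => simp
    | succ n ih => rw [Finset.sum_range_succ, ih]; ring
  have h2 : ∑ i ∈ Finset.range d, ((X : ℤ[X]) ^ 2 - 1) * X ^ (2 * (h + i) + 1)
      = X ^ (2 * (h + d) + 1) - X ^ (2 * h + 1) := by
    induction d with
    | zero => simp
    | succ n ih => rw [Finset.sum_range_succ, ih]; ring
  rw [h1, h2]
  ring

theorem filter_lt (m : ℕ) : (Finset.range (2 * m + 1)).filter (fun a => 2 * a < 2 * m)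
    = Finset.range m := by
  ext a
  simp only [Finset.mem_filter, Finset.mem_range]
  omega

theorem filter_eq (m : ℕ) : (Finset.range (2 * m + 1)).filter (fun a => 2 * a = 2 * m) = {m} := by
  ext a
  simp only [Finset.mem_filter, Finset.mem_range, Finset.mem_singleton]
  omega

theorem filter_lt_odd (k : ℕ) :
    (Finset.range (2 * k + 1 + 1)).filter (fun a => 2 * a < 2 * k + 1) = Finset.range (k + 1) := by
  ext a
  simp only [Finset.mem_filter, Finset.mem_range]
  omega

theorem filter_eq_odd (k : ℕ) :
    (Finset.range (2 * k + 1 + 1)).filter (fun a => 2 * a = 2 * k + 1) = ∅ := by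
  ext a
  simp only [Finset.mem_filter, Finset.mem_range, Finset.notMem_empty, iff_false]
  omega

/-- the alternating sum of the numbers of subsets with less than half of the elements -/
theorem half_alt {U : Finset P} (hU : HStable H U) {m : ℕ} (hm : U.card = 2 * m) (hm1 : 1 ≤ m) :
    ∃ Ha Hb : H → ℤ, IsSP Ha ∧ IsSP Hb ∧ (∀ g : H, Ha g + Hb g = Mx U m g) ∧
      ∀ g : H, Hb g + ∑ a ∈ (Finset.range m).filter (fun a => Even (m - a)), Mx U a g
        = ∑ a ∈ (Finset.range m).filter (fun a => ¬ Even (m - a)), Mx U a g := by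
  obtain ⟨Hp, Hm, sHp, sHm, hp, hmm⟩ := sp_half hU hm hm1
  have halt : ∀ g : H, 2 * ∑ a ∈ Finset.range m, (-1) ^ a * Mx U a g + (-1) ^ m * Mx U m g
      = Ax U g := by
    intro g
    rw [← alt_sum hU g, hm]
    have e1 : 2 * m + 1 = m + (m + 1) := by ring
    rw [e1, Finset.sum_range_add, Finset.sum_range_succ', two_mul]
    have e2 : ∑ k ∈ Finset.range m, (-1 : ℤ) ^ (m + (k + 1)) * Mx U (m + (k + 1)) g
        = ∑ a ∈ Finset.range m, (-1) ^ a * Mx U a g := by
      rw [← Finset.sum_range_reflect]
      refine Finset.sum_congr rfl fun j hj => ?_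
      have hj' := Finset.mem_range.1 hj
      have e3 : m + (m - 1 - j + 1) = U.card - j := by omega
      rw [e3, Mx_symm hU j (by omega) g]
      congr 1
      have e4 : U.card - j = j + 2 * (m - j) := by omega
      rw [e4, pow_add, pow_mul]
      simp
    rw [e2, add_zero]
    ring
  have hsgn : ∀ g : H, ∑ a ∈ Finset.range m, (-1 : ℤ) ^ a * Mx U a g
      = (-1) ^ m * (∑ a ∈ (Finset.range m).filter (fun a => Even (m - a)), Mx U a g
        - ∑ a ∈ (Finset.range m).filter (fun a => ¬ Even (m - a)), Mx U a g) := by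
    intro g
    rw [← Finset.sum_filter_add_sum_filter_not (Finset.range m) (fun a => Even (m - a)),
      mul_sub, Finset.mul_sum, Finset.mul_sum, sub_eq_add_neg, ← Finset.sum_neg_distrib]
    congr 1
    · refine Finset.sum_congr rfl fun a ha => ?_
      obtain ⟨h1, h2⟩ := Finset.mem_filter.1 ha
      have h1' := Finset.mem_range.1 h1
      have e5 : (-1 : ℤ) ^ m = (-1) ^ (m - a) * (-1) ^ a := by
        rw [← pow_add]; congr 1; omega
      rw [e5, h2.neg_one_pow, one_mul]
    · refine Finset.sum_congr rfl fun a ha => ?_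
      obtain ⟨h1, h2⟩ := Finset.mem_filter.1 ha
      have h1' := Finset.mem_range.1 h1
      have e5 : (-1 : ℤ) ^ m = (-1) ^ (m - a) * (-1) ^ a := by
        rw [← pow_add]; congr 1; omega
      rw [e5, (Nat.not_even_iff_odd.1 h2).neg_one_pow]
      ring
  rcases Nat.even_or_odd m with hme | hmo
  · refine ⟨Hp, Hm, sHp, sHm, fun g => ?_, fun g => ?_⟩
    · have := hp g; have := hmm g; omega
    · have h1 := halt g
      have h2 := hmm g
      rw [hsgn g, hme.neg_one_pow] at h1
      linarith
  · refine ⟨Hm, Hp, sHm, sHp, fun g => ?_, fun g => ?_⟩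
    · have := hp g; have := hmm g; omega
    · have h1 := halt g
      have h2 := hp g
      rw [hsgn g, hmo.neg_one_pow] at h1
      linarith

theorem sp_Lam {T : List (Finset P)} (hT : GoodList H T) : IsSPP (fun g : H => Lam T g) := by
  refine (sp_family (fun S => lexs T S < 0) (fun g S => by rw [lexs_map T hT]) (uni T)
    (hstable_uni hT)).congr fun g => ?_
  unfold Lam
  refine Finset.sum_congr ?_ fun _ _ => rfl
  ext S
  simp only [Finset.mem_filter]

theorem sp_Fx {R : Finset P} (hR : HStable H R) : IsSPP (fun g : H => Fx R g) := by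
  refine (sp_family (fun _ => True) (fun g S => Iff.rfl) R hR).congr fun g => ?_
  unfold Fx
  refine Finset.sum_congr ?_ fun _ _ => rfl
  ext S
  simp only [Finset.mem_filter, and_true]

end LexOdd

open LexOdd in
theorem lex_odd (l : List (Finset P)) (hl : GoodList H l) (hodd : ∃ U ∈ l, Odd U.card) :
    ∃ t : H → ℤ[X], IsSPP t ∧ ∀ g, (X ^ 3 - X) * t g = numL l g := by
  induction l with
  | nil => obtain ⟨U, hU, -⟩ := hodd; cases hU
  | cons U T ih =>
    have hU := hl.stable U List.mem_cons_self
    have hgT := goodList_tail hl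
    have hT := hstable_uni hgT
    rcases Nat.even_or_odd U.card with hev | hod
    · obtain ⟨m0, hm0⟩ := hev
      have hpos := (hl.nonempty U List.mem_cons_self).card_pos
      obtain ⟨n, rfl⟩ : ∃ n, m0 = n + 1 := ⟨m0 - 1, by omega⟩
      have hm2 : U.card = 2 * (n + 1) := by omega
      have hoddT : ∃ U ∈ T, Odd U.card := by
        obtain ⟨V, hV, hV1⟩ := hodd
        rcases List.mem_cons.1 hV with rfl | hV
        · exfalso
          obtain ⟨k, hk⟩ := hV1
          omega
        · exact ⟨V, hV, hV1⟩
      obtain ⟨tT, htT, htT1⟩ := ih hgT hoddT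
      obtain ⟨Ha, Hb, sHa, sHb, hsum, hY⟩ := half_alt hU hm2 (by omega)
      set Y : H → ℤ := fun g => ∑ a ∈ (Finset.range (n + 1)).filter (fun a => Even (n + 1 - a)),
        Mx U a g with hYdef
      have sY : IsSP Y := IsSP.sum _ _ fun a _ => sp_Mx hU a
      refine ⟨fun g => (∑ a ∈ Finset.range (n + 1), C (Mx U a g) * (X ^ a * (Fx (uni T) g *
          EE ((n + 1 - a) / 2) (n + 1 - a - 1 - (n + 1 - a) / 2))))
          + X ^ n * (C (Y g) * Fx (uni T) g)
          + X ^ n * (C (Hb g) * (X ^ 2 * tT g + Lam T g))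
          + X ^ (n + 1) * (C (Ha g) * tT g), ?_, ?_⟩
      · refine IsSPP.add (IsSPP.add (IsSPP.add ?_ ?_) ?_) ?_
        · exact IsSPP.sum _ _ fun a _ => IsSPP.mul (IsSPP.C (sp_Mx hU a))
            (IsSPP.mul (IsSPP.monomial a) (IsSPP.mul (sp_Fx hT) (EE_nonneg _ _)))
        · exact IsSPP.mul (IsSPP.monomial n) (IsSPP.mul (IsSPP.C sY) (sp_Fx hT))
        · exact IsSPP.mul (IsSPP.monomial n) (IsSPP.mul (IsSPP.C sHb)
            (IsSPP.add (IsSPP.mul (IsSPP.monomial 2) htT) (sp_Lam hgT)))
        · exact IsSPP.mul (IsSPP.monomial (n + 1)) (IsSPP.mul (IsSPP.C sHa) htT)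
      · intro g
        rw [numL_cons hl g, hm2, filter_lt, filter_eq, Finset.sum_singleton]
        have hF := Fx_eq_numL hgT hoddT g
        have hterm : ∀ a ∈ Finset.range (n + 1), (X ^ 3 - X : ℤ[X]) * (C (Mx U a g) *
            (X ^ a * (Fx (uni T) g * EE ((n + 1 - a) / 2) (n + 1 - a - 1 - (n + 1 - a) / 2))))
            = C (Mx U a g) * (Fx (uni T) g * (X ^ (2 * (n + 1) - a) - X ^ (a + 1)))
              - (X ^ 2 - X) * Fx (uni T) g *
                (C (Mx U a g) * X ^ (if Even (n + 1 - a) then n + 1 else n)) := by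
          intro a ha
          have ha' := Finset.mem_range.1 ha
          have h1 := EE_spec ((n + 1 - a) / 2) (n + 1 - a - 1 - (n + 1 - a) / 2)
          have e1 : 2 * ((n + 1 - a) / 2 + (n + 1 - a - 1 - (n + 1 - a) / 2)) + 1
              = 2 * (n + 1 - a) - 1 := by omega
          rw [e1] at h1
          have e2 : (X : ℤ[X]) ^ (2 * (n + 1) - a) = X ^ (a + 1) * X ^ (2 * (n + 1 - a) - 1) := by
            rw [← pow_add]; congr 1; omega
          have e3 : (X : ℤ[X]) ^ (if Even (n + 1 - a) then n + 1 else n)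
              = X ^ a * X ^ (2 * ((n + 1 - a) / 2)) := by
            rw [← pow_add]
            congr 1
            split_ifs with h
            · obtain ⟨c, hc⟩ := h
              omega
            · obtain ⟨c, hc⟩ := Nat.not_even_iff_odd.1 h
              omega
          rw [e2, e3]
          have e4 : (X ^ 3 - X : ℤ[X]) * (C (Mx U a g) *
            (X ^ a * (Fx (uni T) g * EE ((n + 1 - a) / 2) (n + 1 - a - 1 - (n + 1 - a) / 2))))
            = C (Mx U a g) * X ^ (a + 1) * Fx (uni T) g * ((X ^ 2 - 1) *
              EE ((n + 1 - a) / 2) (n + 1 - a - 1 - (n + 1 - a) / 2)) := by ring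
          rw [e4, h1]
          ring
        have hsplit : ∑ a ∈ Finset.range (n + 1), C (Mx U a g) *
            (X : ℤ[X]) ^ (if Even (n + 1 - a) then n + 1 else n)
            = C (Y g) * X ^ (n + 1) + C (Hb g + Y g) * X ^ n := by
          rw [hY g, ← Finset.sum_filter_add_sum_filter_not (Finset.range (n + 1))
            (fun a => Even (n + 1 - a)), hYdef]
          simp only [map_sum, Finset.sum_mul]
          congr 1
          · refine Finset.sum_congr rfl fun a ha => ?_
            rw [if_pos (Finset.mem_filter.1 ha).2]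
          · refine Finset.sum_congr rfl fun a ha => ?_
            rw [if_neg (Finset.mem_filter.1 ha).2]
        rw [mul_add, mul_add, mul_add, Finset.mul_sum, Finset.sum_congr rfl hterm,
          Finset.sum_sub_distrib, ← Finset.mul_sum, hsplit, ← hsum g, ← htT1 g]
        rw [← htT1 g] at hF
        rw [map_add, map_add]
        generalize ∑ a ∈ Finset.range (n + 1), C (Mx U a g) *
          (Fx (uni T) g * (X ^ (2 * (n + 1) - a) - X ^ (a + 1))) = N1
        rw [hF]
        ring
    · obtain ⟨k, hk⟩ := hod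
      refine ⟨fun g => ∑ v ∈ Finset.range (k + 1), C (Mx U v g) * (X ^ v * (Fx (uni T) g *
        ∑ i ∈ Finset.range (k - v), X ^ (2 * i))), ?_, ?_⟩
      · exact IsSPP.sum _ _ fun a _ => IsSPP.mul (IsSPP.C (sp_Mx hU a))
            (IsSPP.mul (IsSPP.monomial a) (IsSPP.mul (sp_Fx hT)
              (IsSPP.sum _ _ fun i _ => IsSPP.monomial (2 * i))))
      · intro g
        rw [numL_cons hl g, hk, filter_lt_odd, filter_eq_odd, Finset.sum_empty, add_zero,
          Finset.mul_sum]
        refine Finset.sum_congr rfl fun v hv => ?_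
        have hv' := Finset.mem_range.1 hv
        have h1 : (X ^ 2 - 1 : ℤ[X]) * ∑ i ∈ Finset.range (k - v), X ^ (2 * i)
            = X ^ (2 * (k - v)) - 1 := by
          generalize k - v = d
          rw [Finset.mul_sum]
          induction d with
          | zero => simp
          | succ d ih => rw [Finset.sum_range_succ, ih]; ring
        have e2 : (X : ℤ[X]) ^ (2 * k + 1 - v) = X ^ (v + 1) * X ^ (2 * (k - v)) := by
          rw [← pow_add]; congr 1; omega
        rw [e2]
        have e4 : (X ^ 3 - X : ℤ[X]) * (C (Mx U v g) * (X ^ v * (Fx (uni T) g *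
            ∑ i ∈ Finset.range (k - v), X ^ (2 * i))))
            = C (Mx U v g) * X ^ (v + 1) * Fx (uni T) g * ((X ^ 2 - 1) *
              ∑ i ∈ Finset.range (k - v), X ^ (2 * i)) := by ring
        rw [e4, h1]
        ring

end Pool.Agent.Mbar
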