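import Mathlib
import Pool.Agent.Mbar.SSet
import Pool.Agent.Mbar.Defs

/-! # Wall-crossing -/

noncomputable section

namespace Pool.Agent.Mbar

open Polynomial

open scoped Classical

namespace WALL

variable {H : Type} [Group H] {P : Type} [Fintype P] [MulAction H P]

omit [Fintype P] in
theorem map_stable {U : Finset P} (hU : HStable H U) (g : H) :
    U.map (pm P g).toEmbedding = U := by
  ext x
  rw [Finset.mem_map_equiv]
  have h1 : (pm P g).symm x = g⁻¹ • x := rfl
  rw [h1]
  exact (hU g⁻¹ x).symm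

omit [Fintype P] in
theorem mem_fx {U S : Finset P} {g : H} :
    S ∈ fx U g ↔ S ⊆ U ∧ S.map (pm P g).toEmbedding = S := by
  rw [fx, Finset.mem_filter, Finset.mem_powerset]

/-- the number of fixed sets of an invariant family -/
theorem sp_count (F : Finset P → Prop) [DecidablePred F] (hF : ∀ (g : H) S, F (S.map (pm P g).toEmbedding) ↔ F S)
    (U : Finset P) (hU : HStable H U) :
    IsSP (fun g : H => (((fx U g).filter F).card : ℤ)) := by
  let _ : MulAction H (Finset P) :=
    { smul := fun g S => S.map (pm P g).toEmbedding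
      one_smul := fun S => by
        change S.map (pm P (1 : H)).toEmbedding = S
        ext x
        rw [Finset.mem_map_equiv]
        have : (pm P (1 : H)).symm x = x := by
          change (1 : H)⁻¹ • x = x
          simp
        rw [this]
      mul_smul := fun g h S => by
        change S.map (pm P (g * h)).toEmbedding = (S.map (pm P h).toEmbedding).map (pm P g).toEmbedding
        ext x
        rw [Finset.mem_map_equiv, Finset.mem_map_equiv, Finset.mem_map_equiv]
        have : (pm P (g * h)).symm x = (pm P h).symm ((pm P g).symm x) := by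
          change (g * h)⁻¹ • x = h⁻¹ • g⁻¹ • x
          rw [mul_inv_rev, mul_smul]
        rw [this] }
  have key := IsSP.natCard_pred (G := H) (Finset P) (fun S => S ⊆ U ∧ F S) (fun g S hS => by
    refine ⟨?_, ?_⟩
    · change S.map (pm P g).toEmbedding ⊆ U
      have := Finset.map_subset_map (f := (pm P g).toEmbedding).2 hS.1
      rwa [map_stable hU] at this
    · exact (hF g S).2 hS.2)
  refine key.congr (fun g => ?_)
  norm_cast
  rw [Nat.card_eq_fintype_card, Fintype.card_subtype]
  congr 1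
  ext S
  rw [Finset.mem_filter, Finset.mem_filter, mem_fx]
  have : (g • S = S) ↔ (S.map (pm P g).toEmbedding = S) := Iff.rfl
  rw [this]
  constructor
  · rintro ⟨⟨h1, h2⟩, h3⟩
    exact ⟨Finset.mem_univ _, ⟨h1, h3⟩, h2⟩
  · rintro ⟨_, ⟨h1, h3⟩, h2⟩
    exact ⟨⟨h1, h2⟩, h3⟩

/-- sums over the fixed sets of an invariant family of a function of the cardinality -/
theorem spp_family (F : Finset P → Prop) [DecidablePred F] (hF : ∀ (g : H) S, F (S.map (pm P g).toEmbedding) ↔ F S)
    (U : Finset P) (hU : HStable H U) (f : ℕ → ℤ[X]) (hf : ∀ a k, 0 ≤ (f a).coeff k) :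
    IsSPP (fun g : H => ∑ S ∈ (fx U g).filter F, f S.card) := by
  have h1 : ∀ a ∈ Finset.range (U.card + 1), IsSPP (fun g : H =>
      C ((((fx U g).filter (fun S => F S ∧ S.card = a)).card : ℕ) : ℤ) * f a) := by
    intro a _
    exact (IsSPP.C (sp_count (H := H) (fun S => F S ∧ S.card = a) (fun g S => by
      rw [hF, Finset.card_map]) U hU)).mul (IsSPP.const (f a) (hf a))
  refine (IsSPP.sum _ _ h1).congr (fun g => ?_)
  rw [← Finset.sum_fiberwise_of_maps_to (s := (fx U g).filter F) (t := Finset.range (U.card + 1))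
    (g := fun S => S.card) (f := fun S => f S.card)]
  · refine Finset.sum_congr rfl (fun a _ => ?_)
    rw [Finset.filter_filter]
    rw [Finset.sum_congr rfl (g := fun _ => f a) (fun S hS => by
      rw [((Finset.mem_filter.1 hS).2).2])]
    rw [Finset.sum_const, nsmul_eq_mul]
    simp
  · intro S hS
    rw [Finset.mem_filter, mem_fx] at hS
    rw [Finset.mem_range]
    have := Finset.card_le_card hS.1.1
    omega

theorem compl_map (g : H) (S : Finset P) :
    Sᶜ.map (pm P g).toEmbedding = (S.map (pm P g).toEmbedding)ᶜ := by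
  ext x
  rw [Finset.mem_map_equiv, Finset.mem_compl, Finset.mem_compl, Finset.mem_map_equiv]

omit [Fintype P] in
theorem inter_map (g : H) (S U : Finset P) :
    (S ∩ U).map (pm P g).toEmbedding =
      S.map (pm P g).toEmbedding ∩ U.map (pm P g).toEmbedding := by
  ext x
  simp only [Finset.mem_map_equiv, Finset.mem_inter]

omit [Fintype P] in
theorem sdiff_map (g : H) (S U : Finset P) :
    (S \ U).map (pm P g).toEmbedding =
      S.map (pm P g).toEmbedding \ U.map (pm P g).toEmbedding := by
  ext x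
  simp only [Finset.mem_map_equiv, Finset.mem_sdiff]

omit [Fintype P] in
theorem union_map (g : H) (S U : Finset P) :
    (S ∪ U).map (pm P g).toEmbedding =
      S.map (pm P g).toEmbedding ∪ U.map (pm P g).toEmbedding := by
  ext x
  simp only [Finset.mem_map_equiv, Finset.mem_union]

theorem stable_compl {U : Finset P} (hU : HStable H U) : HStable H Uᶜ := by
  intro g x
  rw [Finset.mem_compl, Finset.mem_compl, hU g x]

omit [Fintype P] in
/-- `V ↦ U \ V` on the fixed subsets of `U` -/
theorem sum_sdiff {U : Finset P} (hU : HStable H U) (g : H) :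
    ∑ V ∈ fx U g, (X : ℤ[X]) ^ (U.card - V.card) = ∑ V ∈ fx U g, (X : ℤ[X]) ^ V.card := by
  refine Finset.sum_bij' (fun V _ => U \ V) (fun V _ => U \ V) ?_ ?_ ?_ ?_ ?_
  · intro V hV
    rw [mem_fx] at hV ⊢
    refine ⟨Finset.sdiff_subset, ?_⟩
    rw [sdiff_map, map_stable hU, hV.2]
  · intro V hV
    rw [mem_fx] at hV ⊢
    refine ⟨Finset.sdiff_subset, ?_⟩
    rw [sdiff_map, map_stable hU, hV.2]
  · intro V hV
    rw [mem_fx] at hV
    exact Finset.sdiff_sdiff_eq_self hV.1
  · intro V hV
    rw [mem_fx] at hV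
    exact Finset.sdiff_sdiff_eq_self hV.1
  · intro V hV
    rw [mem_fx] at hV
    rw [Finset.card_sdiff_of_subset hV.1]

/-- decomposition of the fixed subsets along a stable set -/
theorem sum_split {Q : Finset P} (hQ : HStable H Q) (g : H) (cr : Finset P → Prop)
    [DecidablePred cr] (f : ℕ → ℤ[X]) :
    ∑ S ∈ (fx (Finset.univ : Finset P) g).filter (fun S => cr (S ∩ Q)), f S.card =
      ∑ S' ∈ (fx Q g).filter cr, ∑ V ∈ fx Qᶜ g, f (S'.card + V.card) := by
  rw [← Finset.sum_product']
  refine Finset.sum_bij' (fun S _ => (S ∩ Q, S \ Q)) (fun p _ => p.1 ∪ p.2) ?_ ?_ ?_ ?_ ?_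
  · intro S hS
    rw [Finset.mem_filter, mem_fx] at hS
    rw [Finset.mem_product, Finset.mem_filter, mem_fx, mem_fx]
    refine ⟨⟨⟨Finset.inter_subset_right, ?_⟩, hS.2⟩, ?_, ?_⟩
    · rw [inter_map, map_stable hQ, hS.1.2]
    · intro x hx
      rw [Finset.mem_sdiff] at hx
      exact Finset.mem_compl.2 hx.2
    · rw [sdiff_map, map_stable hQ, hS.1.2]
  · rintro ⟨S', V⟩ hp
    rw [Finset.mem_product, Finset.mem_filter, mem_fx, mem_fx] at hp
    rw [Finset.mem_filter, mem_fx]
    have h1 : (S' ∪ V) ∩ Q = S' := by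
      ext x
      simp only [Finset.mem_inter, Finset.mem_union]
      constructor
      · rintro ⟨h | h, h'⟩
        · exact h
        · exact absurd h' (Finset.mem_compl.1 (hp.2.1 h))
      · intro h
        exact ⟨Or.inl h, hp.1.1.1 h⟩
    refine ⟨⟨Finset.subset_univ _, ?_⟩, ?_⟩
    · rw [union_map, hp.1.1.2, hp.2.2]
    · change cr ((S' ∪ V) ∩ Q)
      rw [h1]
      exact hp.1.2
  · intro S _
    change S ∩ Q ∪ S \ Q = S
    ext x
    simp only [Finset.mem_union, Finset.mem_inter, Finset.mem_sdiff]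
    tauto
  · rintro ⟨S', V⟩ hp
    rw [Finset.mem_product, Finset.mem_filter, mem_fx, mem_fx] at hp
    have hS' : S' ⊆ Q := hp.1.1.1
    have hV : V ⊆ Qᶜ := hp.2.1
    refine Prod.ext ?_ ?_
    · change (S' ∪ V) ∩ Q = S'
      ext x
      simp only [Finset.mem_inter, Finset.mem_union]
      constructor
      · rintro ⟨h | h, h'⟩
        · exact h
        · exact absurd h' (Finset.mem_compl.1 (hV h))
      · intro h
        exact ⟨Or.inl h, hS' h⟩
    · change (S' ∪ V) \ Q = V
      ext x
      simp only [Finset.mem_sdiff, Finset.mem_union]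
      constructor
      · rintro ⟨h | h, h'⟩
        · exact absurd (hS' h) h'
        · exact h
      · intro h
        exact ⟨Or.inr h, Finset.mem_compl.1 (hV h)⟩
  · intro S _
    change f S.card = f ((S ∩ Q).card + (S \ Q).card)
    rw [Finset.card_inter_add_card_sdiff]

theorem geo_mul (k : ℕ) : geo k * (X - 1) = X ^ k - 1 := geom_sum_mul _ _

theorem geo_coeff (k j : ℕ) : 0 ≤ (geo k).coeff j := by
  rw [geo, finsetSum_coeff]
  refine Finset.sum_nonneg (fun i _ => ?_)
  rw [coeff_X_pow]
  split_ifs <;> norm_num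

theorem term_eq {n a : ℕ} (h1 : 1 ≤ a) (h2 : 2 * a < n) :
    (1 + X : ℤ[X]) * (X ^ (n - a) - X ^ a) = (X ^ 3 - X) * (X ^ (a - 1) * geo (n - 2 * a)) := by
  have e1 : n - a = a + (n - 2 * a) := by omega
  have e2 : (X : ℤ[X]) ^ a = X * X ^ (a - 1) := by
    rw [← pow_succ']
    congr 1
    omega
  rw [e1, pow_add, e2]
  have := geo_mul (n - 2 * a)
  linear_combination (-(1 + X) * X * X ^ (a - 1)) * this

end WALL

variable {H : Type} [Group H] {P : Type} [Fintype P] [MulAction H P]

/-- one wall-crossing: `s` and `s'` are sign functions; a set `S` changes from long to short iff its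
intersection with `Q` belongs to the family `cr`, whose members have less than half of the elements
of `Q`. -/
theorem wall (Q : Finset P) (hQ : HStable H Q) (s s' : Finset P → ℤ)
    (hs : ∀ S, s Sᶜ = - s S) (hs' : ∀ S, s' Sᶜ = - s' S)
    (hinv : ∀ (g : H) S, s (S.map (pm P g).toEmbedding) = s S)
    (hinv' : ∀ (g : H) S, s' (S.map (pm P g).toEmbedding) = s' S)
    (cr : Finset P → Prop) (hcr : ∀ (g : H) S, cr (S.map (pm P g).toEmbedding) ↔ cr S)
    (hcr1 : ∀ S, S ⊆ Q → cr S → 1 ≤ S.card ∧ 2 * S.card < Q.card)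
    (h1 : ∀ S, cr (S ∩ Q) → 0 < s S ∧ s' S < 0)
    (h2 : ∀ S, ¬ cr (S ∩ Q) → ¬ cr (Q \ S) → (s S < 0 ↔ s' S < 0)) :
    ∃ u : H → ℤ[X], IsSPP u ∧ ∀ g, (X ^ 3 - X) * u g = numS s' g - numS s g := by
  refine ⟨fun g => (∑ V ∈ (fx Qᶜ g).filter (fun _ => True), X ^ V.card) *
    ∑ S ∈ (fx Q g).filter cr, X ^ (S.card - 1) * geo (Q.card - 2 * S.card), ?_, ?_⟩
  · have g1 : ∀ a k : ℕ, 0 ≤ ((fun a => X ^ a : ℕ → ℤ[X]) a).coeff k := by
      intro a k
      change 0 ≤ ((X : ℤ[X]) ^ a).coeff k
      rw [coeff_X_pow]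
      split_ifs <;> norm_num
    have g2 : ∀ a k : ℕ,
        0 ≤ ((fun a => X ^ (a - 1) * geo (Q.card - 2 * a) : ℕ → ℤ[X]) a).coeff k := by
      intro a k
      change 0 ≤ ((X : ℤ[X]) ^ (a - 1) * geo (Q.card - 2 * a)).coeff k
      rw [coeff_X_pow_mul']
      split_ifs
      · exact WALL.geo_coeff _ _
      · exact le_rfl
    exact IsSPP.mul (WALL.spp_family (fun _ => True) (fun _ _ => Iff.rfl) Qᶜ
      (WALL.stable_compl hQ) _ g1) (WALL.spp_family cr hcr Q hQ _ g2)
  · intro g
    set N := Fintype.card P with hN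
    set t : Finset P → ℤ[X] := fun S => X ^ (N - S.card) - X ^ (S.card + 1) with ht
    have hb : ∀ S, cr (Q \ S) → s S < 0 ∧ 0 < s' S := by
      intro S hS
      have e : Sᶜ ∩ Q = Q \ S := by
        ext x
        simp only [Finset.mem_inter, Finset.mem_compl, Finset.mem_sdiff]
        tauto
      have := h1 Sᶜ (by rw [e]; exact hS)
      rw [hs, hs'] at this
      constructor <;> linarith [this.1, this.2]
    have d1 : numS s' g - numS s g =
        ∑ S ∈ fx (Finset.univ : Finset P) g, (if cr (S ∩ Q) then t S else 0) -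
        ∑ S ∈ fx (Finset.univ : Finset P) g, (if cr (Q \ S) then t S else 0) := by
      rw [numS, numS, Finset.sum_filter, Finset.sum_filter, ← Finset.sum_sub_distrib,
        ← Finset.sum_sub_distrib]
      refine Finset.sum_congr rfl (fun S _ => ?_)
      change (if s' S < 0 then t S else 0) - (if s S < 0 then t S else 0) = _
      by_cases c1 : cr (S ∩ Q)
      · have a1 := h1 S c1
        have c2 : ¬ cr (Q \ S) := fun c2 => by
          have := hb S c2
          linarith [a1.1, this.1]
        rw [if_pos a1.2, if_neg (by linarith [a1.1] : ¬ s S < 0), if_pos c1, if_neg c2]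
      · by_cases c2 : cr (Q \ S)
        · have a2 := hb S c2
          rw [if_neg (by linarith [a2.2] : ¬ s' S < 0), if_pos a2.1, if_neg c1, if_pos c2]
        · rw [if_neg c1, if_neg c2]
          by_cases c3 : s S < 0
          · rw [if_pos c3, if_pos ((h2 S c1 c2).1 c3)]; ring
          · rw [if_neg c3, if_neg (fun h => c3 ((h2 S c1 c2).2 h))]
    have d2 : ∑ S ∈ fx (Finset.univ : Finset P) g, (if cr (Q \ S) then t S else 0) =
        ∑ S ∈ fx (Finset.univ : Finset P) g,
          (if cr (S ∩ Q) then (X ^ S.card - X ^ (N - S.card + 1)) else 0) := by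
      refine Finset.sum_bij' (fun S _ => Sᶜ) (fun S _ => Sᶜ) ?_ ?_ ?_ ?_ ?_
      · intro S hS
        rw [WALL.mem_fx] at hS ⊢
        exact ⟨Finset.subset_univ _, by rw [WALL.compl_map, hS.2]⟩
      · intro S hS
        rw [WALL.mem_fx] at hS ⊢
        exact ⟨Finset.subset_univ _, by rw [WALL.compl_map, hS.2]⟩
      · intro S _
        exact compl_compl S
      · intro S _
        exact compl_compl S
      · intro S _
        have e : Sᶜ ∩ Q = Q \ S := by
          ext x
          simp only [Finset.mem_inter, Finset.mem_compl, Finset.mem_sdiff]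
          tauto
        have hc : S.card ≤ N := Finset.card_le_univ S
        rw [e, Finset.card_compl, ← hN, Nat.sub_sub_self hc]
    have d3 : numS s' g - numS s g =
        ∑ S ∈ (fx (Finset.univ : Finset P) g).filter (fun S => cr (S ∩ Q)),
          (fun k => (1 + X) * (X ^ (N - k) - X ^ k) : ℕ → ℤ[X]) S.card := by
      rw [d1, d2, ← Finset.sum_sub_distrib, Finset.sum_filter]
      refine Finset.sum_congr rfl (fun S _ => ?_)
      split_ifs
      · simp only [ht, pow_succ]
        ring
      · ring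
    rw [d3, WALL.sum_split hQ g cr (fun k => (1 + X) * (X ^ (N - k) - X ^ k))]
    change (X ^ 3 - X) * ((∑ V ∈ (fx Qᶜ g).filter (fun _ => True), X ^ V.card) *
      ∑ S ∈ (fx Q g).filter cr, X ^ (S.card - 1) * geo (Q.card - 2 * S.card)) = _
    rw [Finset.mul_sum, Finset.mul_sum]
    refine Finset.sum_congr rfl (fun S' hS' => ?_)
    rw [Finset.mem_filter, WALL.mem_fx] at hS'
    obtain ⟨a1, a2⟩ := hcr1 S' hS'.1.1 hS'.2
    have hsum : ∑ V ∈ fx Qᶜ g, (X : ℤ[X]) ^ (N - (S'.card + V.card)) =
        X ^ (Q.card - S'.card) * ∑ V ∈ fx Qᶜ g, (X : ℤ[X]) ^ V.card := by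
      rw [← WALL.sum_sdiff (WALL.stable_compl hQ), Finset.mul_sum]
      refine Finset.sum_congr rfl (fun V hV => ?_)
      rw [WALL.mem_fx] at hV
      have b1 := Finset.card_le_card hV.1
      have b2 := Finset.card_le_card hS'.1.1
      have b3 : Q.card + Qᶜ.card = N := Finset.card_add_card_compl Q
      rw [← pow_add]
      congr 1
      omega
    have hsum2 : ∑ V ∈ fx Qᶜ g, (X : ℤ[X]) ^ (S'.card + V.card) =
        X ^ S'.card * ∑ V ∈ fx Qᶜ g, (X : ℤ[X]) ^ V.card := by
      rw [Finset.mul_sum]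
      exact Finset.sum_congr rfl (fun V _ => pow_add _ _ _)
    have hT : ∑ V ∈ (fx Qᶜ g).filter (fun _ => True), (X : ℤ[X]) ^ V.card =
        ∑ V ∈ fx Qᶜ g, (X : ℤ[X]) ^ V.card := by
      rw [Finset.filter_true]
    rw [← Finset.mul_sum, Finset.sum_sub_distrib, hsum, hsum2, hT]
    have := WALL.term_eq a1 a2
    linear_combination (-(∑ V ∈ fx Qᶜ g, (X : ℤ[X]) ^ V.card)) * this

end Pool.Agent.Mbar
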