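import Mathlib
import Pool.Agent.Mbar.Defs
import Pool.Agent.Mbar.SSet
import Pool.Agent.Mbar.CLASSES
import Pool.Agent.Mbar.WALL

/-! # PATHW: the chain of wall-crossings -/

noncomputable section

namespace Pool.Agent.Mbar

open Polynomial

open scoped Classical

variable {H : Type} [Group H] {P : Type} [Fintype P] [MulAction H P]

/-- the class of the elements of weight `v` -/
def pathwCls (w : P → ℕ) (v : ℕ) : Finset P := Finset.univ.filter (fun x => w x = v)

/-- the weighted sum at the threshold `θ` -/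
def pathwF (w : P → ℕ) (θ : ℕ) (S : Finset P) : ℤ :=
  ∑ x, if θ < w x then ((w x : ℤ) - θ) * (if x ∈ S then 1 else -1) else 0

theorem pathw_sgW (w : P → ℕ) (θ : ℕ) (S : Finset P) :
    sgW w θ S = if pathwF w θ S = 0 then lexs (classes w) S else pathwF w θ S := rfl

/-- the elements of weight more than `θ` -/
def pathwQ (w : P → ℕ) (θ : ℕ) : Finset P := Finset.univ.filter (fun x => θ < w x)

theorem pathw_mem_Q (w : P → ℕ) (θ : ℕ) (x : P) : x ∈ pathwQ w θ ↔ θ < w x := by
  unfold pathwQ
  rw [Finset.mem_filter]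
  exact ⟨fun h => h.2, fun h => ⟨Finset.mem_univ _, h⟩⟩

omit [Fintype P] in
theorem pathw_sum_eps (Q S : Finset P) :
    (∑ x ∈ Q, (if x ∈ S then (1 : ℤ) else -1)) = 2 * ((S ∩ Q).card : ℤ) - (Q.card : ℤ) := by
  have h1 : (∑ x ∈ Q, (if x ∈ S then (1 : ℤ) else -1))
      = ∑ x ∈ Q, (2 * (if x ∈ S then (1 : ℤ) else 0) - 1) := by
    refine Finset.sum_congr rfl fun x _ => ?_
    split_ifs <;> norm_num
  rw [h1, Finset.sum_sub_distrib, ← Finset.mul_sum, ← Finset.sum_filter]
  simp only [Finset.sum_const, nsmul_eq_mul, mul_one]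
  have h2 : Q.filter (fun x => x ∈ S) = S ∩ Q := by
    ext x
    rw [Finset.mem_filter, Finset.mem_inter]
    exact and_comm
  rw [h2]

theorem pathw_step (w : P → ℕ) (θ : ℕ) (S : Finset P) :
    pathwF w θ S = pathwF w (θ + 1) S
      + (2 * ((S ∩ pathwQ w θ).card : ℤ) - ((pathwQ w θ).card : ℤ)) := by
  rw [← pathw_sum_eps]
  unfold pathwF pathwQ
  rw [Finset.sum_filter, ← Finset.sum_add_distrib]
  refine Finset.sum_congr rfl fun x _ => ?_
  by_cases h : θ < w x
  · rw [if_pos h, if_pos h]
    by_cases h' : θ + 1 < w x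
    · rw [if_pos h']
      push_cast
      ring
    · rw [if_neg h']
      have h3 : w x = θ + 1 := by omega
      rw [h3]
      push_cast
      ring
  · rw [if_neg h, if_neg h, if_neg (by omega)]
    ring

/-- the weighted sums depend only on the intersection with the heavy elements -/
theorem pathw_F_inter (w : P → ℕ) {θ θ' : ℕ} (h : θ' ≤ θ) (S : Finset P) :
    pathwF w θ (S ∩ pathwQ w θ') = pathwF w θ S := by
  unfold pathwF
  refine Finset.sum_congr rfl fun x _ => ?_
  by_cases hx : θ < w x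
  · rw [if_pos hx, if_pos hx]
    have h1 : x ∈ S ∩ pathwQ w θ' ↔ x ∈ S := by
      rw [Finset.mem_inter, pathw_mem_Q]
      exact ⟨fun h => h.1, fun h' => ⟨h', lt_of_le_of_lt h hx⟩⟩
    simp only [h1]
  · rw [if_neg hx, if_neg hx]

/-- if all classes where `c` does not vanish are balanced then the weighted sum is zero -/
theorem pathw_balanced (w : P → ℕ) (c : ℕ → ℤ) (S : Finset P)
    (h : ∀ v, c v ≠ 0 → 2 * (S ∩ pathwCls w v).card = (pathwCls w v).card) :
    (∑ x, c (w x) * (if x ∈ S then (1 : ℤ) else -1)) = 0 := by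
  rw [← Finset.sum_fiberwise_of_maps_to (s := Finset.univ) (t := Finset.univ.image w) (g := w)
    (fun x _ => Finset.mem_image_of_mem w (Finset.mem_univ x))]
  refine Finset.sum_eq_zero fun v _ => ?_
  have h1 : (∑ x ∈ Finset.univ.filter (fun x => w x = v), c (w x) * (if x ∈ S then (1 : ℤ) else -1))
      = c v * ∑ x ∈ pathwCls w v, (if x ∈ S then (1 : ℤ) else -1) := by
    rw [Finset.mul_sum]
    refine Finset.sum_congr rfl fun x hx => ?_
    rw [(Finset.mem_filter.mp hx).2]
  rw [h1, pathw_sum_eps]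
  by_cases hc : c v = 0
  · rw [hc, zero_mul]
  · have h2 := h v hc
    have h3 : 2 * ((S ∩ pathwCls w v).card : ℤ) = ((pathwCls w v).card : ℤ) := by exact_mod_cast h2
    rw [h3, sub_self, mul_zero]

theorem pathw_F_balanced (w : P → ℕ) (θ : ℕ) (S : Finset P)
    (h : ∀ v, θ < v → 2 * (S ∩ pathwCls w v).card = (pathwCls w v).card) :
    pathwF w θ S = 0 := by
  have h1 : pathwF w θ S
      = ∑ x, (fun v : ℕ => if θ < v then (v : ℤ) - θ else 0) (w x) * (if x ∈ S then (1 : ℤ) else -1) := by
    unfold pathwF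
    refine Finset.sum_congr rfl fun x _ => ?_
    beta_reduce
    split_ifs <;> ring
  rw [h1]
  refine pathw_balanced w (fun v : ℕ => if θ < v then (v : ℤ) - θ else 0) S fun v hv => h v ?_
  by_contra hcon
  exact hv (if_neg hcon)

theorem pathw_e_balanced (w : P → ℕ) (θ : ℕ) (S : Finset P)
    (h : ∀ v, θ < v → 2 * (S ∩ pathwCls w v).card = (pathwCls w v).card) :
    2 * ((S ∩ pathwQ w θ).card : ℤ) - ((pathwQ w θ).card : ℤ) = 0 := by
  have h1 : 2 * ((S ∩ pathwQ w θ).card : ℤ) - ((pathwQ w θ).card : ℤ)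
      = ∑ x, (fun v : ℕ => if θ < v then (1 : ℤ) else 0) (w x) * (if x ∈ S then (1 : ℤ) else -1) := by
    rw [← pathw_sum_eps]
    unfold pathwQ
    rw [Finset.sum_filter]
    refine Finset.sum_congr rfl fun x _ => ?_
    beta_reduce
    split_ifs <;> ring
  rw [h1]
  refine pathw_balanced w (fun v : ℕ => if θ < v then (1 : ℤ) else 0) S fun v hv => h v ?_
  by_contra hcon
  exact hv (if_neg hcon)

omit [Fintype P] in
theorem pathw_lexs_zero {l : List (Finset P)} {S : Finset P} (h : lexs l S = 0) :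
    ∀ U ∈ l, 2 * (S ∩ U).card = U.card := by
  induction l with
  | nil => intro U hU; cases hU
  | cons V l ih =>
    intro U hU
    unfold lexs at h
    by_cases h1 : 2 * (S ∩ V).card = V.card
    · rw [if_pos h1] at h
      rcases List.mem_cons.mp hU with rfl | hU
      · exact h1
      · exact ih h U hU
    · rw [if_neg h1] at h
      exfalso
      apply h1
      omega

theorem pathw_lexs_zero_cls (w : P → ℕ) {S : Finset P} (h : lexs (classes w) S = 0) (v : ℕ) :
    2 * (S ∩ pathwCls w v).card = (pathwCls w v).card := by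
  by_cases hv : ∃ x, w x = v
  · obtain ⟨x, rfl⟩ := hv
    exact pathw_lexs_zero h _ ((classes_mem w _).mpr ⟨x, rfl⟩)
  · have h0 : pathwCls w v = ∅ := by
      unfold pathwCls
      rw [Finset.filter_eq_empty_iff]
      intro x _ hx
      exact hv ⟨x, hx⟩
    rw [h0, Finset.inter_empty, Finset.card_empty]

theorem pathw_sgW_zero_iff (w : P → ℕ) (θ : ℕ) (S : Finset P) :
    sgW w θ S = 0 ↔ lexs (classes w) S = 0 := by
  rw [pathw_sgW]
  constructor
  · intro h
    by_cases h1 : pathwF w θ S = 0
    · rwa [if_pos h1] at h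
    · rw [if_neg h1] at h
      exact absurd h h1
  · intro h
    rw [if_pos (pathw_F_balanced w θ S fun v _ => pathw_lexs_zero_cls w h v)]
    exact h

/-- the lexicographic sign depends only on the heavy elements if some heavy class is unbalanced -/
theorem pathw_lexs_inter (w : P → ℕ) (θ : ℕ) (S : Finset P) (L : List ℕ)
    (hL : L.Pairwise (fun a b => b ≤ a))
    (h : ∃ v ∈ L, θ < v ∧ 2 * (S ∩ pathwCls w v).card ≠ (pathwCls w v).card) :
    lexs (L.map (pathwCls w)) (S ∩ pathwQ w θ) = lexs (L.map (pathwCls w)) S := by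
  induction L with
  | nil => obtain ⟨v, hv, -⟩ := h; cases hv
  | cons v L ih =>
    have hv : θ < v := by
      obtain ⟨v', hv', hθ, -⟩ := h
      rcases List.mem_cons.mp hv' with rfl | hv'
      · exact hθ
      · exact lt_of_lt_of_le hθ ((List.pairwise_cons.mp hL).1 v' hv')
    have h1 : (S ∩ pathwQ w θ) ∩ pathwCls w v = S ∩ pathwCls w v := by
      ext x
      rw [Finset.mem_inter, Finset.mem_inter, Finset.mem_inter, pathw_mem_Q]
      constructor
      · rintro ⟨⟨h1, -⟩, h2⟩
        exact ⟨h1, h2⟩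
      · rintro ⟨h1, h2⟩
        have h3 : w x = v := (Finset.mem_filter.mp h2).2
        exact ⟨⟨h1, by rw [h3]; exact hv⟩, h2⟩
    rw [List.map_cons]
    unfold lexs
    rw [h1]
    by_cases h2 : 2 * (S ∩ pathwCls w v).card = (pathwCls w v).card
    · rw [if_pos h2, if_pos h2]
      apply ih (List.pairwise_cons.mp hL).2
      obtain ⟨v', hv', hθ, hne⟩ := h
      rcases List.mem_cons.mp hv' with rfl | hv'
      · exact absurd h2 hne
      · exact ⟨v', hv', hθ, hne⟩
    · rw [if_neg h2, if_neg h2]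

theorem pathw_lexs_inter' (w : P → ℕ) (θ : ℕ) (S : Finset P)
    (he : 2 * ((S ∩ pathwQ w θ).card : ℤ) - ((pathwQ w θ).card : ℤ) ≠ 0) :
    lexs (classes w) (S ∩ pathwQ w θ) = lexs (classes w) S := by
  have h1 : ∃ v, θ < v ∧ 2 * (S ∩ pathwCls w v).card ≠ (pathwCls w v).card := by
    by_contra hcon
    push Not at hcon
    exact he (pathw_e_balanced w θ S hcon)
  obtain ⟨v, hv, hne⟩ := h1
  have h2 : v ∈ (Finset.univ.image w).sort (fun a b => b ≤ a) := by
    rw [Finset.mem_sort, Finset.mem_image]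
    by_contra hcon
    have h0 : pathwCls w v = ∅ := by
      unfold pathwCls
      rw [Finset.filter_eq_empty_iff]
      intro x _ hx
      exact hcon ⟨x, Finset.mem_univ _, hx⟩
    rw [h0, Finset.inter_empty, Finset.card_empty] at hne
    exact hne rfl
  have h3 : ((Finset.univ.image w).sort (fun a b => b ≤ a)).Pairwise (fun a b => b ≤ a) :=
    Finset.pairwise_sort _ _
  exact pathw_lexs_inter w θ S _ h3 ⟨v, h2, hv, hne⟩

omit [Fintype P] in
theorem pathw_lexs_empty (l : List (Finset P)) : lexs l (∅ : Finset P) ≤ 0 := by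
  induction l with
  | nil => exact le_refl _
  | cons U l ih =>
    unfold lexs
    split_ifs
    · exact ih
    · rw [Finset.empty_inter, Finset.card_empty]
      push_cast
      have : (0 : ℤ) ≤ (U.card : ℤ) := Int.natCast_nonneg _
      linarith

/-- the crossing condition -/
def pathwCr (w : P → ℕ) (θ : ℕ) (S : Finset P) : Prop := 0 < sgW w (θ + 1) S ∧ sgW w θ S < 0

/-- crossing forces the set to contain less than half of the heavy elements -/
theorem pathw_cr_lt (w : P → ℕ) (θ : ℕ) (S : Finset P) (h : pathwCr w θ S) :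
    2 * ((S ∩ pathwQ w θ).card : ℤ) - ((pathwQ w θ).card : ℤ) < 0 := by
  obtain ⟨h1, h2⟩ := h
  rw [pathw_sgW] at h1 h2
  have h3 := pathw_step w θ S
  by_contra hcon
  push Not at hcon
  by_cases a : pathwF w (θ + 1) S = 0
  · rw [if_pos a] at h1
    by_cases b : pathwF w θ S = 0
    · rw [if_pos b] at h2
      linarith
    · rw [if_neg b] at h2
      linarith
  · rw [if_neg a] at h1
    by_cases b : pathwF w θ S = 0
    · linarith
    · rw [if_neg b] at h2
      linarith

theorem pathw_cr_inter (w : P → ℕ) (θ : ℕ) (S : Finset P) :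
    pathwCr w θ (S ∩ pathwQ w θ) ↔ pathwCr w θ S := by
  have hQ : (S ∩ pathwQ w θ) ∩ pathwQ w θ = S ∩ pathwQ w θ := by
    rw [Finset.inter_assoc, Finset.inter_self]
  by_cases he : 2 * ((S ∩ pathwQ w θ).card : ℤ) - ((pathwQ w θ).card : ℤ) = 0
  · constructor
    · intro h
      have := pathw_cr_lt w θ _ h
      rw [hQ] at this
      linarith
    · intro h
      have := pathw_cr_lt w θ _ h
      linarith
  · unfold pathwCr
    rw [pathw_sgW, pathw_sgW, pathw_sgW, pathw_sgW, pathw_F_inter w (Nat.le_succ θ),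
      pathw_F_inter w (le_refl θ), pathw_lexs_inter' w θ S he]

/-- one step of the path -/
theorem pathw_one (w : P → ℕ) (hw : ∀ (g : H) x, w (g • x) = w x) (θ : ℕ) :
    ∃ u : H → ℤ[X], IsSPP u ∧ ∀ g,
      (X ^ 3 - X) * u g = numS (sgW w θ) g - numS (sgW w (θ + 1)) g := by
  have hstab : HStable H (pathwQ w θ) := by
    intro g x
    rw [pathw_mem_Q, pathw_mem_Q, hw]
  refine wall (pathwQ w θ) hstab (sgW w (θ + 1)) (sgW w θ) (sgW_compl w (θ + 1)) (sgW_compl w θ)
    (sgW_map w hw (θ + 1)) (sgW_map w hw θ) (pathwCr w θ) ?_ ?_ ?_ ?_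
  · intro g S
    unfold pathwCr
    rw [sgW_map w hw, sgW_map w hw]
  · intro S hS h
    have h1 := pathw_cr_lt w θ S h
    rw [Finset.inter_eq_left.mpr hS] at h1
    refine ⟨?_, by omega⟩
    rw [Nat.one_le_iff_ne_zero]
    intro h0
    rw [Finset.card_eq_zero] at h0
    subst h0
    have h2 := h.1
    rw [pathw_sgW] at h2
    have h3 : pathwF w (θ + 1) (∅ : Finset P) ≤ 0 := by
      unfold pathwF
      refine Finset.sum_nonpos fun x _ => ?_
      split_ifs with h4 h5
      · exact absurd h5 (Finset.notMem_empty x)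
      · have : ((θ + 1 : ℕ) : ℤ) < (w x : ℤ) := by exact_mod_cast h4
        linarith
      · exact le_refl _
    by_cases a : pathwF w (θ + 1) (∅ : Finset P) = 0
    · rw [if_pos a] at h2
      have := pathw_lexs_empty (classes w)
      linarith
    · rw [if_neg a] at h2
      linarith
  · intro S h
    exact (pathw_cr_inter w θ S).mp h
  · intro S h1 h2
    have h1' : ¬ pathwCr w θ S := fun h => h1 ((pathw_cr_inter w θ S).mpr h)
    have h3 : pathwQ w θ \ S = Sᶜ ∩ pathwQ w θ := by
      ext x
      rw [Finset.mem_sdiff, Finset.mem_inter, Finset.mem_compl]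
      exact and_comm
    have h2' : ¬ pathwCr w θ Sᶜ := by
      intro h
      rw [h3] at h2
      exact h2 ((pathw_cr_inter w θ Sᶜ).mpr h)
    unfold pathwCr at h1' h2'
    rw [sgW_compl, sgW_compl] at h2'
    constructor
    · intro hs
      by_contra hcon
      push Not at hcon
      rcases hcon.lt_or_eq with h4 | h4
      · exact h2' ⟨by linarith, by linarith⟩
      · have h5 := (pathw_sgW_zero_iff w θ S).mp h4.symm
        have h6 := (pathw_sgW_zero_iff w (θ + 1) S).mpr h5
        linarith
    · intro hs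
      by_contra hcon
      push Not at hcon
      rcases hcon.lt_or_eq with h4 | h4
      · exact h1' ⟨h4, hs⟩
      · have h5 := (pathw_sgW_zero_iff w (θ + 1) S).mp h4.symm
        have h6 := (pathw_sgW_zero_iff w θ S).mpr h5
        linarith

theorem path (w : P → ℕ) (hw : ∀ (g : H) x, w (g • x) = w x) :
    ∃ u : H → ℤ[X], IsSPP u ∧ ∀ g,
      (X ^ 3 - X) * u g = numS (sgW w 0) g - numS (lexs (classes w)) g := by
  have hind : ∀ n : ℕ, ∃ u : H → ℤ[X], IsSPP u ∧ ∀ g,
      (X ^ 3 - X) * u g = numS (sgW w 0) g - numS (sgW w n) g := by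
    intro n
    induction n with
    | zero => exact ⟨fun _ => 0, IsSPP.zero, fun g => by rw [mul_zero, sub_self]⟩
    | succ n ih =>
      obtain ⟨u, hu, hu'⟩ := ih
      obtain ⟨v, hv, hv'⟩ := pathw_one (H := H) w hw n
      refine ⟨fun g => u g + v g, hu.add hv, fun g => ?_⟩
      rw [mul_add, hu', hv']
      ring
  obtain ⟨u, hu, hu'⟩ := hind (Finset.univ.sup w)
  refine ⟨u, hu, fun g => ?_⟩
  rw [hu' g]
  have h1 : sgW w (Finset.univ.sup w) = lexs (classes w) := by
    funext S
    rw [pathw_sgW]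
    have h2 : pathwF w (Finset.univ.sup w) S = 0 := by
      unfold pathwF
      refine Finset.sum_eq_zero fun x _ => ?_
      rw [if_neg]
      exact not_lt.mpr (Finset.le_sup (f := w) (Finset.mem_univ x))
    rw [if_pos h2]
  rw [h1]

end Pool.Agent.Mbar
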