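import Mathlib
import Pool.Agent.Mbar.Defs
import Pool.Agent.Mbar.SSet
import Pool.Agent.Mbar.CLASSES

/-! # TIES: splitting off the ties which are not perfect halves -/

noncomputable section

namespace Pool.Agent.Mbar

open Polynomial

open scoped Classical

variable {H : Type} [Group H] {P : Type} [Fintype P] [MulAction H P]

theorem ties_fx (g : H) : fx (Finset.univ : Finset P) g = stab (pm P g) := by
  ext S
  simp [stab, fx]

theorem ties_ax (g : H) : ax (Finset.univ : Finset P) g = anti (pm P g) := by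
  ext S
  simp [anti, ax, Finset.compl_eq_univ_sdiff]

theorem ties_map_compl (σ : Equiv.Perm P) (S : Finset P) :
    Sᶜ.map σ.toEmbedding = (S.map σ.toEmbedding)ᶜ := by
  ext x
  simp [Finset.mem_map_equiv]

theorem ties_stab_compl (σ : Equiv.Perm P) (S : Finset P) : Sᶜ ∈ stab σ ↔ S ∈ stab σ := by
  unfold stab
  simp only [Finset.mem_filter, Finset.mem_univ, true_and, ties_map_compl]
  exact compl_inj_iff

/-- reindexing by the complement -/
theorem ties_sum_compl (σ : Equiv.Perm P) (f : Finset P → ℤ[X]) :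
    ∑ S ∈ stab σ, f S = ∑ S ∈ stab σ, f Sᶜ := by
  refine Finset.sum_nbij' (fun S => Sᶜ) (fun S => Sᶜ) ?_ ?_ ?_ ?_ ?_
  · intro S hS
    exact (ties_stab_compl σ S).mpr hS
  · intro S hS
    exact (ties_stab_compl σ S).mpr hS
  · intro S _
    exact compl_compl S
  · intro S _
    exact compl_compl S
  · intro S _
    rw [compl_compl]

/-- a sum of antisymmetric terms vanishes -/
theorem ties_sum_zero (σ : Equiv.Perm P) (f : Finset P → ℤ[X])
    (h : ∀ S ∈ stab σ, f S + f Sᶜ = 0) : ∑ S ∈ stab σ, f S = 0 := by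
  have h1 := ties_sum_compl σ f
  have h2 : ∑ S ∈ stab σ, f S + ∑ S ∈ stab σ, f Sᶜ = 0 := by
    rw [← Finset.sum_add_distrib]
    exact Finset.sum_eq_zero h
  rw [← h1] at h2
  have h3 : (2 : ℤ[X]) * ∑ S ∈ stab σ, f S = 0 := by linear_combination h2
  rcases mul_eq_zero.mp h3 with h4 | h4
  · exfalso
    have h5 := congrArg (fun p : ℤ[X] => p.eval 0) h4
    simp at h5
  · exact h4

/-- the counting functions of invariant families of subsets -/
theorem ties_sp (F : Finset P → Prop) [DecidablePred F] (hF : ∀ (g : H) S, F (S.map (pm P g).toEmbedding) ↔ F S) :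
    IsSP (fun g : H => (((stab (pm P g)).filter F).card : ℤ)) := by
  let _ : MulAction H (Finset P) :=
    { smul := fun g S => S.map (pm P g).toEmbedding
      one_smul := by
        intro S
        change S.map (pm P (1 : H)).toEmbedding = S
        ext x
        rw [Finset.mem_map_equiv]
        have : (Equiv.symm (pm P (1 : H))) x = x := by
          rw [Equiv.symm_apply_eq]
          exact (one_smul H x).symm
        rw [this]
      mul_smul := by
        intro g h S
        change S.map (pm P (g * h)).toEmbedding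
          = (S.map (pm P h).toEmbedding).map (pm P g).toEmbedding
        ext x
        rw [Finset.mem_map_equiv, Finset.mem_map_equiv, Finset.mem_map_equiv]
        have : (Equiv.symm (pm P (g * h))) x = (Equiv.symm (pm P h)) ((Equiv.symm (pm P g)) x) := by
          rw [Equiv.symm_apply_eq]
          have h1 : (pm P (g * h)) ((Equiv.symm (pm P h)) ((Equiv.symm (pm P g)) x))
              = (pm P g) ((pm P h) ((Equiv.symm (pm P h)) ((Equiv.symm (pm P g)) x))) :=
            mul_smul g h _
          rw [h1, Equiv.apply_symm_apply, Equiv.apply_symm_apply]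
        rw [this] }
  refine (IsSP.natCard_pred (G := H) (Finset P) F (fun g S h => (hF g S).mpr h)).congr fun g => ?_
  rw [Nat.card_eq_fintype_card, Fintype.card_subtype]
  congr 2
  ext S
  unfold stab
  simp only [Finset.mem_filter, Finset.mem_univ, true_and]
  exact and_comm

/-! ### perfect halves -/

omit [Fintype P] in
theorem ties_lexs_zero (l : List (Finset P)) (S : Finset P) (h : lexs l S = 0) :
    ∀ U ∈ l, 2 * (S ∩ U).card = U.card := by
  induction l with
  | nil => intro U hU; simp at hU
  | cons V l ih =>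
    unfold lexs at h
    by_cases h1 : 2 * (S ∩ V).card = V.card
    · rw [if_pos h1] at h
      intro U hU
      rcases List.mem_cons.mp hU with h2 | h2
      · rw [h2]; exact h1
      · exact ih h U h2
    · exfalso
      rw [if_neg h1] at h
      apply h1
      omega

theorem ties_half (w : P → ℕ) (S : Finset P) (h : lexs (classes w) S = 0) (φ : ℕ → ℕ) :
    2 * ∑ x ∈ S, φ (w x) = ∑ x, φ (w x) := by
  have h1 := ties_lexs_zero _ S h
  have e1 : ∀ T : Finset P, ∑ x ∈ T, φ (w x)
      = ∑ v ∈ Finset.univ.image w, (T ∩ Finset.univ.filter (fun x => w x = v)).card * φ v := by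
    intro T
    rw [← Finset.sum_fiberwise_of_maps_to (s := T) (t := Finset.univ.image w) (g := w)
      (fun x _ => Finset.mem_image_of_mem w (Finset.mem_univ x))]
    refine Finset.sum_congr rfl fun v _ => ?_
    have e2 : T ∩ Finset.univ.filter (fun x => w x = v) = T.filter (fun x => w x = v) := by
      ext x
      simp
    rw [e2, Finset.card_eq_sum_ones, Finset.sum_mul]
    refine Finset.sum_congr rfl fun x hx => ?_
    rw [(Finset.mem_filter.mp hx).2, one_mul]
  rw [e1 S, e1 Finset.univ, Finset.mul_sum]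
  refine Finset.sum_congr rfl fun v hv => ?_
  obtain ⟨x, -, rfl⟩ := Finset.mem_image.mp hv
  have h2 := h1 _ ((classes_mem w _).mpr ⟨x, rfl⟩)
  rw [← mul_assoc, h2, Finset.univ_inter]

theorem ties_half_wt (w : P → ℕ) (S : Finset P) (h : lexs (classes w) S = 0) :
    2 * wt w S = wt w Finset.univ := ties_half w S h id

theorem ties_half_card (w : P → ℕ) (S : Finset P) (h : lexs (classes w) S = 0) :
    2 * S.card = Fintype.card P := by
  have h1 := ties_half w S h (fun _ => 1)
  simpa using h1

theorem ties_wt_compl (w : P → ℕ) (S : Finset P) : wt w S + wt w Sᶜ = wt w Finset.univ := by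
  unfold wt
  exact Finset.sum_add_sum_compl S w

/-- the sign at the threshold zero -/
theorem ties_sgW (w : P → ℕ) (S : Finset P) :
    sgW w 0 S = if 2 * wt w S = wt w Finset.univ then lexs (classes w) S
      else 2 * (wt w S : ℤ) - (wt w Finset.univ : ℤ) := by
  have h1 : (∑ x, if 0 < w x then ((w x : ℤ) - (0 : ℕ)) * (if x ∈ S then 1 else -1) else 0)
      = 2 * (wt w S : ℤ) - (wt w Finset.univ : ℤ) := by
    have h2 : ∀ x, (if 0 < w x then ((w x : ℤ) - (0 : ℕ)) * (if x ∈ S then 1 else -1) else 0)
        = 2 * (if x ∈ S then (w x : ℤ) else 0) - (w x : ℤ) := by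
      intro x
      by_cases h : 0 < w x
      · by_cases h' : x ∈ S
        · rw [if_pos h, if_pos h', if_pos h']; push_cast; ring
        · rw [if_pos h, if_neg h', if_neg h']; push_cast; ring
      · have h0 : w x = 0 := by omega
        simp [h0]
    rw [Finset.sum_congr rfl (fun x _ => h2 x), Finset.sum_sub_distrib, ← Finset.mul_sum,
      Finset.sum_ite_mem, Finset.univ_inter]
    unfold wt
    push_cast
    rfl
  unfold sgW
  rw [h1]
  by_cases h : 2 * wt w S = wt w Finset.univ
  · rw [if_pos h, if_pos (by rw [← h]; push_cast; ring)]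
  · rw [if_neg h, if_neg (fun h' => h (by omega))]

/-! ### polynomial identities -/

theorem ties_geo (k : ℕ) : (X - 1) * geo k = X ^ k - 1 := by
  unfold geo
  exact mul_geom_sum X k

theorem ties_geo_succ (k : ℕ) : geo (k + 1) = 1 + X * geo k := by
  unfold geo
  rw [Finset.sum_range_succ', Finset.mul_sum, pow_zero, add_comm]
  congr 1
  exact Finset.sum_congr rfl fun i _ => by ring

theorem ties_geo_nonneg (k n : ℕ) : 0 ≤ (geo k).coeff n := by
  unfold geo
  rw [finsetSum_coeff]
  refine Finset.sum_nonneg fun i _ => ?_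
  rw [coeff_X_pow]
  split_ifs
  · exact zero_le_one
  · exact le_refl 0

theorem ties_spp_geo (k : ℕ) : IsSPP (fun _ : H => geo k) := IsSPP.const _ (ties_geo_nonneg k)

theorem ties_spp_X : IsSPP (fun _ : H => (X : ℤ[X])) :=
  (IsSPP.monomial 1).congr fun _ => (pow_one X).symm

theorem ties_card_two (w : P → ℕ) (hw0 : ∀ x, 0 < w x)
    (hsmall : ∀ x, 2 * w x < wt w Finset.univ) (S : Finset P)
    (h : 2 * wt w S = wt w Finset.univ) (h' : lexs (classes w) S < 0) :
    2 ≤ S.card ∧ 1 ≤ (Sᶜ : Finset P).card := by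
  have hne : Nonempty P := by
    by_contra hE
    rw [not_nonempty_iff] at hE
    have h1 := lexs_compl (classes w) S
    have h2 : Sᶜ = S := by
      ext x
      exact hE.elim x
    rw [h2] at h1
    omega
  obtain ⟨x₀⟩ := hne
  have hW : 0 < wt w Finset.univ := by
    unfold wt
    exact Finset.sum_pos (fun x _ => hw0 x) ⟨x₀, Finset.mem_univ _⟩
  have hc := ties_wt_compl w S
  constructor
  · by_contra hlt
    have h1 : S.card = 0 ∨ S.card = 1 := by omega
    rcases h1 with h1 | h1
    · rw [Finset.card_eq_zero] at h1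
      rw [h1] at h
      have : wt w (∅ : Finset P) = 0 := by simp [wt]
      omega
    · rw [Finset.card_eq_one] at h1
      obtain ⟨x, hx⟩ := h1
      rw [hx] at h
      have : wt w ({x} : Finset P) = w x := by simp [wt]
      have := hsmall x
      omega
  · by_contra hlt
    have h1 : (Sᶜ : Finset P).card = 0 := by omega
    rw [Finset.card_eq_zero] at h1
    rw [h1] at hc
    have : wt w (∅ : Finset P) = 0 := by simp [wt]
    omega

/-- the difference of the two sides for one set -/
def tiesD (w : P → ℕ) (S : Finset P) : ℤ[X] :=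
  2 * X ^ S.card
    - 2 * (X + 1) * (if wt w Finset.univ ≤ 2 * wt w S then X ^ (Fintype.card P - S.card) else 0)
    + (X ^ 2 + X) * (if 2 * wt w S = wt w Finset.univ then 1 else 0)
    + (X ^ 3 - X) * (if 2 * wt w S = wt w Finset.univ then
        geo (S.card - 1) * geo (Fintype.card P - S.card - 1) else 0)
    - 2 * (if sgW w 0 S < 0 then X ^ (Fintype.card P - S.card) - X ^ (S.card + 1) else 0)
    - (if lexs (classes w) S = 0 then 1 else 0) * (X ^ 2 + X - 2 * X ^ (Fintype.card P / 2 + 1)
        + (X ^ 3 - X) * geo (Fintype.card P / 2 - 1) ^ 2)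
    - 2 * (X ^ 3 - X) * (if 2 * wt w S = wt w Finset.univ ∧ lexs (classes w) S < 0 then
        X * geo (S.card - 2) * geo (Fintype.card P - S.card - 1) else 0)

theorem tiesD_aux (w : P → ℕ) (hw0 : ∀ x, 0 < w x)
    (hsmall : ∀ x, 2 * w x < wt w Finset.univ) (S : Finset P)
    (h : 2 * wt w S < wt w Finset.univ ∨
      2 * wt w S = wt w Finset.univ ∧ lexs (classes w) S ≤ 0) :
    tiesD w S + tiesD w Sᶜ = 0 := by
  have hc := ties_wt_compl w S
  have hl := lexs_compl (classes w) S
  have hcard : S.card + (Sᶜ : Finset P).card = Fintype.card P := Finset.card_add_card_compl S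
  obtain ⟨a, ha⟩ : ∃ a, a = S.card := ⟨_, rfl⟩
  obtain ⟨b, hb⟩ : ∃ b, b = (Sᶜ : Finset P).card := ⟨_, rfl⟩
  have hP : Fintype.card P = a + b := by omega
  unfold tiesD
  rw [ties_sgW, ties_sgW, hl, ← ha, ← hb, hP]
  have e1 : a + b - a = b := by omega
  have e2 : a + b - b = a := by omega
  rw [e1, e2]
  rcases h with h | ⟨h, h'⟩
  · have n1 : ¬ wt w Finset.univ ≤ 2 * wt w S := by omega
    have n2 : wt w Finset.univ ≤ 2 * wt w Sᶜ := by omega
    have n3 : ¬ 2 * wt w S = wt w Finset.univ := by omega
    have n4 : ¬ 2 * wt w Sᶜ = wt w Finset.univ := by omega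
    have n5 : ¬ lexs (classes w) S = 0 := fun h0 => n3 (ties_half_wt w S h0)
    have n6 : ¬ - lexs (classes w) S = 0 := fun h0 => n5 (neg_eq_zero.mp h0)
    have n7 : 2 * (wt w S : ℤ) - (wt w Finset.univ : ℤ) < 0 := by omega
    have n8 : ¬ 2 * (wt w Sᶜ : ℤ) - (wt w Finset.univ : ℤ) < 0 := by omega
    simp only [n1, n2, n3, n4, n5, n6, n7, n8, if_true, if_false, false_and]
    ring
  · have h2 : 2 * wt w Sᶜ = wt w Finset.univ := by omega
    have n1 : wt w Finset.univ ≤ 2 * wt w S := by omega
    have n2 : wt w Finset.univ ≤ 2 * wt w Sᶜ := by omega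
    rcases lt_or_eq_of_le h' with h3 | h3
    · obtain ⟨c1, c2⟩ := ties_card_two w hw0 hsmall S h h3
      have n5 : ¬ lexs (classes w) S = 0 := by omega
      have n6 : ¬ - lexs (classes w) S = 0 := by omega
      have n7 : ¬ - lexs (classes w) S < 0 := by omega
      simp only [h, h2, le_refl, n5, n6, n7, h3, if_true, if_false, and_true, and_false]
      obtain ⟨a', rfl⟩ : ∃ a', a = a' + 2 := ⟨a - 2, by omega⟩
      obtain ⟨b', rfl⟩ : ∃ b', b = b' + 1 := ⟨b - 1, by omega⟩
      have e3 : a' + 2 - 1 = a' + 1 := by omega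
      have e4 : a' + 2 - 2 = a' := by omega
      have e5 : b' + 1 - 1 = b' := by omega
      rw [e3, e4, e5, ties_geo_succ a']
      have g1 := ties_geo b'
      linear_combination 2 * (X ^ 2 + X) * g1
    · have hc2 := ties_half_card w S h3
      have hab : a = b := by omega
      subst hab
      have e3 : (a + a) / 2 = a := by omega
      rw [e3]
      simp only [h, h2, h3, le_refl, neg_zero, lt_self_iff_false, and_false, ↓reduceIte]
      ring

theorem tiesD_zero (w : P → ℕ) (hw0 : ∀ x, 0 < w x)
    (hsmall : ∀ x, 2 * w x < wt w Finset.univ) (S : Finset P) :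
    tiesD w S + tiesD w Sᶜ = 0 := by
  have hc := ties_wt_compl w S
  have hl := lexs_compl (classes w) S
  by_cases h : 2 * wt w S < wt w Finset.univ ∨
      2 * wt w S = wt w Finset.univ ∧ lexs (classes w) S ≤ 0
  · exact tiesD_aux w hw0 hsmall S h
  · have h1 := tiesD_aux w hw0 hsmall Sᶜ (by omega)
    rw [compl_compl] at h1
    rw [add_comm]
    exact h1

theorem ties_anti_half (w : P → ℕ) (hw : ∀ (g : H) x, w (g • x) = w x) (g : H) (S : Finset P)
    (hS : S ∈ anti (pm P g)) : lexs (classes w) S = 0 := by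
  have h1 := lexs_map (classes w) (classes_good w hw) g S
  rw [(Finset.mem_filter.mp hS).2, lexs_compl] at h1
  omega

/-- the correction term -/
def tiesV (w : P → ℕ) (g : H) : ℤ[X] :=
  ∑ S ∈ (stab (pm P g)).filter
    (fun S => 2 * wt w S = wt w Finset.univ ∧ lexs (classes w) S < 0),
      X * geo (S.card - 2) * geo (Fintype.card P - S.card - 1)

theorem tiesV_spp (w : P → ℕ) (hw : ∀ (g : H) x, w (g • x) = w x) :
    IsSPP (fun g : H => tiesV w g) := by
  have hwt : ∀ (g : H) (S : Finset P), wt w (S.map (pm P g).toEmbedding) = wt w S := by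
    intro g S
    unfold wt
    rw [Finset.sum_map]
    exact Finset.sum_congr rfl fun x _ => hw g x
  have h1 : IsSPP (fun g : H => ∑ a ∈ Finset.range (Fintype.card P + 1),
      X * geo (a - 2) * geo (Fintype.card P - a - 1) *
        C ((((stab (pm P g)).filter
          (fun S => (2 * wt w S = wt w Finset.univ ∧ lexs (classes w) S < 0) ∧
            S.card = a)).card : ℕ) : ℤ)) := by
    refine IsSPP.sum _ _ fun a _ => ?_
    refine IsSPP.mul (IsSPP.mul (IsSPP.mul ties_spp_X (ties_spp_geo _)) (ties_spp_geo _))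
      (IsSPP.C (ties_sp _ ?_))
    intro g S
    rw [hwt, lexs_map _ (classes_good w hw), Finset.card_map]
  refine h1.congr fun g => ?_
  unfold tiesV
  rw [← Finset.sum_fiberwise_of_maps_to (t := Finset.range (Fintype.card P + 1))
    (g := fun S : Finset P => S.card)
    (fun S _ => Finset.mem_range.mpr (Nat.lt_succ_of_le (Finset.card_le_univ S)))]
  refine Finset.sum_congr rfl fun a _ => ?_
  rw [Finset.filter_filter, Finset.sum_congr rfl (g := fun _ : Finset P =>
    X * geo (a - 2) * geo (Fintype.card P - a - 1))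
    (fun S hS => by rw [(Finset.mem_filter.mp hS).2.2]), Finset.sum_const, nsmul_eq_mul, mul_comm]
  simp

/-- **ties** -/
theorem ties (w : P → ℕ) (hw : ∀ (g : H) x, w (g • x) = w x) (hw0 : ∀ x, 0 < w x)
    (hsmall : ∀ x, 2 * w x < wt w Finset.univ) :
    ∃ v : H → ℤ[X], IsSPP v ∧ ∀ g,
      numV (pm P g) w + (X ^ 3 - X) * exc (pm P g) w = 2 * numS (sgW w 0) g
      + C (Tf (classes w) g) * (X ^ 2 + X - 2 * X ^ (Fintype.card P / 2 + 1))
      - C (Ta (classes w) g) * (X ^ 2 - X)
      + (X ^ 3 - X) * (C (Tf (classes w) g) * geo (Fintype.card P / 2 - 1) ^ 2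
          + C (Ta (classes w) g) * (geo (Fintype.card P / 2 - 1)).comp (X ^ 2))
      + 2 * (X ^ 3 - X) * v g := by
  refine ⟨fun g => tiesV w g, tiesV_spp w hw, fun g => ?_⟩
  obtain ⟨σ, hσ⟩ : ∃ σ, σ = pm P g := ⟨_, rfl⟩
  -- the antisymmetric part
  have hTa : Ta (classes w) g = ((anti σ).card : ℤ) := by
    unfold Ta
    rw [uni_classes, ties_ax, ← hσ, Finset.filter_true_of_mem]
    intro S hS
    exact ties_anti_half w hw g S (by rw [← hσ]; exact hS)
  have hantiF : (anti σ).filter (fun S => 2 * wt w S = wt w Finset.univ) = anti σ := by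
    rw [Finset.filter_true_of_mem]
    intro S hS
    exact ties_half_wt w S (ties_anti_half w hw g S (by rw [← hσ]; exact hS))
  have hA : ∑ S ∈ anti σ, (geo (S.card - 1)).comp (X ^ 2)
      = ((anti σ).card : ℤ[X]) * (geo (Fintype.card P / 2 - 1)).comp (X ^ 2) := by
    rw [← nsmul_eq_mul, ← Finset.sum_const]
    refine Finset.sum_congr rfl fun S hS => ?_
    have h1 := ties_half_card w S (ties_anti_half w hw g S (by rw [← hσ]; exact hS))
    have h2 : Fintype.card P / 2 = S.card := by omega
    rw [h2]
  have hTf : Tf (classes w) g = (((stab σ).filter (fun S => lexs (classes w) S = 0)).card : ℤ) := by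
    unfold Tf
    rw [uni_classes, ties_fx, ← hσ]
  have hC : ∀ n : ℕ, C ((n : ℤ)) = (n : ℤ[X]) := fun n => by simp
  have hcf : ∀ (Q : Finset P → Prop) [DecidablePred Q], (((stab σ).filter Q).card : ℤ[X])
      = ∑ S ∈ stab σ, if Q S then (1 : ℤ[X]) else 0 := by
    intro Q _
    rw [Finset.card_filter]
    push_cast
    rfl
  have hD := ties_sum_zero σ (tiesD w) (fun S _ => tiesD_zero w hw0 hsmall S)
  have hV : (fun g => tiesV w g) g = ∑ S ∈ (stab σ).filter
    (fun S => 2 * wt w S = wt w Finset.univ ∧ lexs (classes w) S < 0),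
      X * geo (S.card - 2) * geo (Fintype.card P - S.card - 1) := by rw [hσ]; rfl
  rw [hV]
  unfold numV exc numS
  rw [← hσ, hantiF, hA, hTa, hTf, hC, hC, ties_fx, ← hσ]
  rw [hcf, hcf, Finset.sum_filter, Finset.sum_filter, Finset.sum_filter, Finset.sum_filter]
  unfold tiesD at hD
  simp only [Finset.sum_add_distrib, Finset.sum_sub_distrib, ← Finset.mul_sum,
    ← Finset.sum_mul] at hD
  linear_combination hD

end Pool.Agent.Mbar
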