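import Mathlib
import Pool.Agent.Mbar.CLASSES
import Pool.Agent.Mbar.PATHW
import Pool.Agent.Mbar.TIES
import Pool.Agent.Mbar.LEXODD
import Pool.Agent.Mbar.LEXEVEN

/-! # Positivity of the centre contributions -/

noncomputable section

namespace Pool.Agent.Mbar

open Polynomial

open scoped Classical

variable {H : Type} [Group H] {P : Type} [Fintype P] [MulAction H P]

lemma half_of_lexs_zero {P : Type} (l : List (Finset P)) (S : Finset P) (h : lexs l S = 0) :
    ∀ U ∈ l, 2 * (S ∩ U).card = U.card := by
  induction l with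
  | nil => intro U hU; simp at hU
  | cons V l ih =>
    intro U hU
    unfold lexs at h
    by_cases h1 : 2 * (S ∩ V).card = V.card
    · rw [if_pos h1] at h
      rcases List.mem_cons.mp hU with rfl | h2
      · exact h1
      · exact ih h U h2
    · rw [if_neg h1] at h
      omega

lemma Tf_odd (l : List (Finset P)) (hodd : ∃ U ∈ l, Odd U.card) (g : H) : Tf l g = 0 := by
  obtain ⟨U, hU, hU2⟩ := hodd
  unfold Tf
  rw [Finset.filter_eq_empty_iff.mpr]
  · simp
  · intro S _ h
    have := half_of_lexs_zero l S h U hU
    rcases hU2 with ⟨k, hk⟩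
    omega

lemma Ta_odd (l : List (Finset P)) (hodd : ∃ U ∈ l, Odd U.card) (g : H) : Ta l g = 0 := by
  obtain ⟨U, hU, hU2⟩ := hodd
  unfold Ta
  rw [Finset.filter_eq_empty_iff.mpr]
  · simp
  · intro S _ h
    have := half_of_lexs_zero l S h U hU
    rcases hU2 with ⟨k, hk⟩
    omega

theorem positivity (w : P → ℕ) (hw : ∀ (g : H) x, w (g • x) = w x) (hw0 : ∀ x, 0 < w x)
    (hsmall : ∀ x, 2 * w x < wt w Finset.univ) (hP : 3 ≤ Fintype.card P) :
    ∃ t : H → ℤ[X], IsSPP t ∧ ∀ g,
      2 * (X ^ 3 - X) * t g = numV (pm P g) w + (X ^ 3 - X) * exc (pm P g) w := by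
  obtain ⟨u, hu, hu2⟩ := path (H := H) w hw
  obtain ⟨v, hv, hv2⟩ := ties (H := H) w hw hw0 hsmall
  by_cases hodd : ∃ U ∈ classes w, Odd U.card
  · obtain ⟨t, ht, ht2⟩ := lex_odd (H := H) (classes w) (classes_good w hw) hodd
    refine ⟨fun g => t g + (u g + v g), ht.add (hu.add hv), fun g => ?_⟩
    have h1 := hu2 g
    have h2 := hv2 g
    have h3 := ht2 g
    rw [numS_lexs] at h1
    rw [Tf_odd _ hodd, Ta_odd _ hodd] at h2
    rw [h2]
    simp only [map_zero, zero_mul, add_zero, sub_zero, mul_zero]
    linear_combination 2 * h1 + 2 * h3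
  · have heven : ∀ U ∈ classes w, Even U.card := fun U hU => by
      by_contra h
      exact hodd ⟨U, hU, Nat.not_even_iff_odd.mp h⟩
    have hne : classes w ≠ [] := by
      intro h
      have h1 := uni_classes w
      rw [h] at h1
      have h2 : (Finset.univ : Finset P).card = 0 := by
        rw [← h1]; rfl
      rw [Finset.card_univ] at h2
      omega
    have hevP : Even (uni (classes w)).card := by
      have key : ∀ l : List (Finset P), l.Pairwise Disjoint → (∀ U ∈ l, Even U.card) →
          Even (uni l).card ∧ ∀ V : Finset P, (∀ U ∈ l, Disjoint V U) → Disjoint V (uni l) := by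
        intro l
        induction l with
        | nil => intro _ _; exact ⟨by simp [uni], fun V _ => by simp [uni]⟩
        | cons U l ih =>
          intro h1 h2
          rw [List.pairwise_cons] at h1
          obtain ⟨h3, h4⟩ := ih h1.2 (fun W hW => h2 W (List.mem_cons_of_mem _ hW))
          have h5 : Disjoint U (uni l) := h4 U h1.1
          refine ⟨?_, fun V hV => ?_⟩
          · show Even (U ∪ uni l).card
            rw [Finset.card_union_of_disjoint h5]
            exact (h2 U List.mem_cons_self).add h3
          · show Disjoint V (U ∪ uni l)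
            rw [Finset.disjoint_union_right]
            exact ⟨hV U List.mem_cons_self, h4 V (fun W hW => hV W (List.mem_cons_of_mem _ hW))⟩
      exact (key _ (classes_good w hw).disj heven).1
    obtain ⟨M, hM⟩ := hevP
    have hM2 : (uni (classes w)).card = 2 * M := by omega
    have hM3 : Fintype.card P / 2 = M := by
      rw [uni_classes, Finset.card_univ] at hM2
      omega
    obtain ⟨t, ht, ht2⟩ := lex_even (H := H) (classes w) (classes_good w hw) hne heven hM2
    refine ⟨fun g => t g + (u g + v g), ht.add (hu.add hv), fun g => ?_⟩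
    have h1 := hu2 g
    have h2 := hv2 g
    have h3 := ht2 g
    rw [numS_lexs] at h1
    rw [hM3] at h2
    rw [h2]
    linear_combination 2 * h1 + h3

end Pool.Agent.Mbar
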