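import Mathlib
import Pool.Agent.Mbar.SSet
import Pool.Agent.Mbar.Defs
import Pool.Agent.Mbar.MV
import Pool.Agent.Mbar.FORA
import Pool.Agent.Mbar.CRS2
import Pool.Agent.Mbar.NVERT
import Pool.Agent.Mbar.NEDGE
import Pool.Agent.Mbar.POSASM

/-! # Assembly: the signed permutation theorem -/

set_option linter.unusedSectionVars false

noncomputable section

namespace Pool.Agent.Mbar

open Polynomial

open scoped Classical

namespace ASMaux

/-! ### transport of the centre polynomials along a bijection -/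

section transport

variable {P P' : Type} [Fintype P] [Fintype P']

lemma wt_map (e : P ≃ P') (w : P → ℕ) (w' : P' → ℕ) (hw : ∀ x, w' (e x) = w x) (S : Finset P) :
    wt w' (S.map e.toEmbedding) = wt w S := by
  unfold wt
  rw [Finset.sum_map]
  exact Finset.sum_congr rfl fun x _ => hw x

lemma wt_univ (e : P ≃ P') (w : P → ℕ) (w' : P' → ℕ) (hw : ∀ x, w' (e x) = w x) :
    wt w' Finset.univ = wt w Finset.univ := by
  rw [← wt_map e w w' hw Finset.univ, Finset.map_univ_equiv]

lemma map_conj (e : P ≃ P') (σ : Equiv.Perm P) (σ' : Equiv.Perm P')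
    (hσ : ∀ x, σ' (e x) = e (σ x)) (S : Finset P) :
    (S.map e.toEmbedding).map σ'.toEmbedding = (S.map σ.toEmbedding).map e.toEmbedding := by
  rw [Finset.map_map, Finset.map_map]
  congr 1
  ext x
  exact hσ x

lemma map_compl (e : P ≃ P') (S : Finset P) :
    (S.map e.toEmbedding)ᶜ = (Sᶜ).map e.toEmbedding := by
  ext x
  simp

lemma stab_map (e : P ≃ P') (σ : Equiv.Perm P) (σ' : Equiv.Perm P')
    (hσ : ∀ x, σ' (e x) = e (σ x)) :
    stab σ' = (stab σ).map (Equiv.finsetCongr e).toEmbedding := by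
  ext T
  obtain ⟨S, rfl⟩ : ∃ S : Finset P, T = S.map e.toEmbedding :=
    ⟨T.map e.symm.toEmbedding, by ext x; simp⟩
  simp only [stab, Finset.mem_filter, Finset.mem_univ, true_and, Finset.mem_map,
    Equiv.coe_toEmbedding, Equiv.finsetCongr_apply]
  rw [map_conj e σ σ' hσ]
  constructor
  · intro h
    exact ⟨S, Finset.map_injective _ h, rfl⟩
  · rintro ⟨S', h1, h2⟩
    rw [← Finset.map_injective _ h2, h1]

lemma anti_map (e : P ≃ P') (σ : Equiv.Perm P) (σ' : Equiv.Perm P')
    (hσ : ∀ x, σ' (e x) = e (σ x)) :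
    anti σ' = (anti σ).map (Equiv.finsetCongr e).toEmbedding := by
  ext T
  obtain ⟨S, rfl⟩ : ∃ S : Finset P, T = S.map e.toEmbedding :=
    ⟨T.map e.symm.toEmbedding, by ext x; simp⟩
  simp only [anti, Finset.mem_filter, Finset.mem_univ, true_and, Finset.mem_map,
    Equiv.coe_toEmbedding, Equiv.finsetCongr_apply]
  rw [map_conj e σ σ' hσ, map_compl]
  constructor
  · intro h
    exact ⟨S, Finset.map_injective _ h, rfl⟩
  · rintro ⟨S', h1, h2⟩
    rw [← Finset.map_injective _ h2, h1]

lemma numV_transport (e : P ≃ P') (σ : Equiv.Perm P) (σ' : Equiv.Perm P')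
    (hσ : ∀ x, σ' (e x) = e (σ x)) (w : P → ℕ) (w' : P' → ℕ) (hw : ∀ x, w' (e x) = w x) :
    numV σ' w' = numV σ w := by
  unfold numV
  rw [stab_map e σ σ' hσ, anti_map e σ σ' hσ, wt_univ e w w' hw]
  simp only [Finset.sum_map, Finset.filter_map, Finset.card_map, Function.comp_def,
    Equiv.coe_toEmbedding, Equiv.finsetCongr_apply, wt_map e w w' hw, Fintype.card_congr e]

lemma exc_transport (e : P ≃ P') (σ : Equiv.Perm P) (σ' : Equiv.Perm P')
    (hσ : ∀ x, σ' (e x) = e (σ x)) (w : P → ℕ) (w' : P' → ℕ) (hw : ∀ x, w' (e x) = w x) :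
    exc σ' w' = exc σ w := by
  unfold exc
  rw [stab_map e σ σ' hσ, anti_map e σ σ' hσ, wt_univ e w w' hw]
  simp only [Finset.sum_map, Finset.filter_map, Finset.card_map, Function.comp_def,
    Equiv.coe_toEmbedding, Equiv.finsetCongr_apply, wt_map e w w' hw, Fintype.card_congr e]

end transport

/-! ### the action on forests -/

section act

open MV

variable {R : Type} [Fintype R]

/-- the forests all of whose roots are small -/
abbrev SF (R : Type) [Fintype R] : Type :=
  {m : Finset R → ℕ // m ∈ (forests (1 : Equiv.Perm R) Finset.univ).filter Small}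

lemma mem_SF {m : Finset R → ℕ} :
    m ∈ (forests (1 : Equiv.Perm R) Finset.univ).filter Small ↔
      IsForest Finset.univ m ∧ Small m := by
  rw [Finset.mem_filter, mem_forests]
  exact ⟨fun h => ⟨h.1.1, h.2⟩, fun h => ⟨⟨h.1, inv_one m⟩, h.2⟩⟩

instance actSF : MulAction (Equiv.Perm R) (SF R) where
  smul g m := ⟨mv g m.1, mem_SF.mpr ⟨isForest_mv_univ g (mem_SF.mp m.2).1, small_mv g (mem_SF.mp m.2).2⟩⟩
  one_smul m := Subtype.ext (mv_one m.1)
  mul_smul g h m := Subtype.ext (mv_mul g h m.1)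

lemma smul_SF (g : Equiv.Perm R) (m : SF R) : (g • m).1 = mv g m.1 := rfl

lemma smul_eq_iff (g : Equiv.Perm R) (m : SF R) : g • m = m ↔ Inv g m.1 := by
  rw [← mv_eq_iff, ← smul_SF, Subtype.ext_iff]

/-- the bijection between the roots -/
def rootEquiv (g : Equiv.Perm R) (m : Finset R → ℕ) :
    {A : Finset R // A ∈ roots m Finset.univ} ≃ {A : Finset R // A ∈ roots (mv g m) Finset.univ} :=
  (Equiv.finsetCongr g).subtypeEquiv (fun A => by
    have h := mem_roots_mv g m Finset.univ A
    rw [Finset.map_univ_equiv] at h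
    exact h.symm)

lemma inv_conj {g h : Equiv.Perm R} {m : Finset R → ℕ} (hm : Inv h m) :
    Inv (g * h * g⁻¹) (mv g m) := by
  rw [← mv_eq_iff] at hm ⊢
  rw [← mv_mul, inv_mul_cancel_right, mv_mul, hm]

lemma contribV_conj (g h : Equiv.Perm R) (m : Finset R → ℕ) (hm : Inv h m) :
    contribV (g * h * g⁻¹) (mv g m) = contribV h m := by
  unfold contribV
  rw [dif_pos hm, dif_pos (inv_conj hm)]
  refine numV_transport (rootEquiv g m) _ _ (fun A => Subtype.ext ?_) _ _ (fun A => ?_)
  · rw [rootPerm_coe]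
    change (A.1.map g.toEmbedding).map (g * h * g⁻¹).toEmbedding
      = (A.1.map h.toEmbedding).map g.toEmbedding
    rw [map_mulp, map_mulp, map_inv_mapp]
  · exact Finset.card_map _

lemma contribE_conj (g h : Equiv.Perm R) (m : Finset R → ℕ) (hm : Inv h m) :
    contribE (g * h * g⁻¹) (mv g m) = contribE h m := by
  unfold contribE
  rw [dif_pos hm, dif_pos (inv_conj hm)]
  refine exc_transport (rootEquiv g m) _ _ (fun A => Subtype.ext ?_) _ _ (fun A => ?_)
  · rw [rootPerm_coe]
    change (A.1.map g.toEmbedding).map (g * h * g⁻¹).toEmbedding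
      = (A.1.map h.toEmbedding).map g.toEmbedding
    rw [map_mulp, map_mulp, map_inv_mapp]
  · exact Finset.card_map _

/-! ### the quotient -/

/-- `c` is the centre polynomial -/
def IsC (g : Equiv.Perm R) (m : Finset R → ℕ) (c : ℤ[X]) : Prop :=
  2 * (X ^ 3 - X) * c = contribV g m + (X ^ 3 - X) * contribE g m

lemma X3_ne : (2 * (X ^ 3 - X) : ℤ[X]) ≠ 0 := by
  intro h
  have := congrArg (eval 2) h
  simp at this

lemma IsC.unique {g : Equiv.Perm R} {m : Finset R → ℕ} {c c' : ℤ[X]} (h : IsC g m c)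
    (h' : IsC g m c') : c = c' := by
  unfold IsC at h h'
  exact mul_left_cancel₀ X3_ne (h.trans h'.symm)

/-- the centre polynomial -/
def cc (g : Equiv.Perm R) (m : Finset R → ℕ) : ℤ[X] :=
  if h : ∃ c, IsC g m c then h.choose else 0

lemma cc_eq {g : Equiv.Perm R} {m : Finset R → ℕ} {c : ℤ[X]} (h : IsC g m c) : cc g m = c := by
  have h' : ∃ c, IsC g m c := ⟨c, h⟩
  unfold cc
  rw [dif_pos h']
  exact h'.choose_spec.unique h

lemma cc_conj (g h : Equiv.Perm R) (m : Finset R → ℕ) (hm : Inv h m) :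
    cc (g * h * g⁻¹) (mv g m) = cc h m := by
  have e : IsC (g * h * g⁻¹) (mv g m) = IsC h m := by
    funext c
    unfold IsC
    rw [contribV_conj g h m hm, contribE_conj g h m hm]
  unfold cc
  rw [e]

/-! ### the weights of the roots -/

lemma sum_roots {m : Finset R → ℕ} (hm : IsForest Finset.univ m) :
    ∑ A ∈ roots m Finset.univ, A.card = Fintype.card R := by
  obtain ⟨-, h2, h3, -⟩ := roots_partition hm
  rw [← Finset.card_univ, ← Finset.card_biUnion (fun A hA B hB h => h2 A hA B hB h)]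
  congr 1
  ext x
  simp only [Finset.mem_biUnion, Finset.mem_univ, iff_true]
  obtain ⟨A, hA, hx⟩ := h3 x (Finset.mem_univ x)
  exact ⟨A, hA, hx⟩

lemma wt_roots {m : Finset R → ℕ} (hm : IsForest Finset.univ m) :
    wt (fun A : {A : Finset R // A ∈ roots m Finset.univ} => A.1.card) Finset.univ
      = Fintype.card R := by
  unfold wt
  rw [← sum_roots hm, Finset.sum_coe_sort (roots m Finset.univ) (fun A => A.card)]

lemma three_roots {m : Finset R → ℕ} (hm : IsForest Finset.univ m) (hs : Small m)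
    (hR : 3 ≤ Fintype.card R) :
    3 ≤ Fintype.card {A : Finset R // A ∈ roots m Finset.univ} := by
  rw [Fintype.card_coe]
  by_contra hlt
  have h1 : 2 * ∑ A ∈ roots m Finset.univ, A.card ≤ (roots m Finset.univ).card * (Fintype.card R - 1) := by
    rw [Finset.mul_sum, ← smul_eq_mul, ← Finset.sum_const]
    refine Finset.sum_le_sum fun A hA => ?_
    have := hs A hA
    omega
  rw [sum_roots hm] at h1
  have h2 : (roots m Finset.univ).card ≤ 2 := by omega
  have h3 : (roots m Finset.univ).card * (Fintype.card R - 1) ≤ 2 * (Fintype.card R - 1) :=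
    Nat.mul_le_mul_right _ h2
  omega

/-! ### positivity of the centre polynomials -/

/-- the stabiliser of a forest acts on its roots -/
@[instance_reducible] def actRoots (m : SF R) : MulAction (MulAction.stabilizer (Equiv.Perm R) m)
    {A : Finset R // A ∈ roots m.1 Finset.univ} where
  smul g A := rootPerm g.1 m.1 Finset.univ ((smul_eq_iff g.1 m).mp g.2) (univ_stable _) A
  one_smul A := Subtype.ext (by
    change A.1.map (1 : Equiv.Perm R).toEmbedding = A.1
    exact map_onep A.1)
  mul_smul g h A := Subtype.ext (by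
    change A.1.map ((g.1 * h.1 : Equiv.Perm R)).toEmbedding
      = (A.1.map h.1.toEmbedding).map g.1.toEmbedding
    exact map_mulp g.1 h.1 A.1)

lemma cc_spec (hR : 3 ≤ Fintype.card R) (m : SF R) :
    IsSPP (fun g : MulAction.stabilizer (Equiv.Perm R) m => cc g.1 m.1) ∧
      ∀ g : Equiv.Perm R, g • m = m → IsC g m.1 (cc g m.1) := by
  have hm := mem_SF.mp m.2
  let _ := actRoots m
  obtain ⟨t, ht, h⟩ := positivity (H := MulAction.stabilizer (Equiv.Perm R) m)
    (P := {A : Finset R // A ∈ roots m.1 Finset.univ}) (fun A => A.1.card)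
    (fun g A => Finset.card_map _)
    (fun A => ((roots_partition hm.1).1 A.1 A.2).1.card_pos)
    (fun A => by rw [wt_roots hm.1]; exact hm.2 A.1 A.2)
    (three_roots hm.1 hm.2 hR)
  have key : ∀ g : MulAction.stabilizer (Equiv.Perm R) m, IsC g.1 m.1 (t g) := by
    intro g
    have hg : Inv g.1 m.1 := (smul_eq_iff g.1 m).mp g.2
    unfold IsC contribV contribE
    rw [dif_pos hg, dif_pos hg, h g]
    rfl
  refine ⟨ht.congr fun g => cc_eq (key g), fun g hg => ?_⟩
  rw [cc_eq (key ⟨g, hg⟩)]
  exact key ⟨g, hg⟩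

end act

end ASMaux

open ASMaux MV

/-- the signed permutation theorem for the moduli spaces of stable rational curves -/
theorem signed_perm (R : Type) [Fintype R] (hR : 3 ≤ Fintype.card R) :
    ∃ t : Equiv.Perm R → ℤ[X], IsSPP t ∧
      ∀ (Ω : Type) [Field Ω] (q : ℕ), Setup Ω q → ∀ τ : Equiv.Perm R,
        (crCount Ω q τ : ℤ) = (t τ).eval (q : ℤ) := by
  refine ⟨fun g => ∑ m : SF R, if g • m = m then X ^ deg m.1 * cc g m.1 else 0, ?_, ?_⟩
  · have h0 := IsSPP.ind (G := Equiv.Perm R) (SF R) (fun g m => X ^ deg m.1 * cc g m.1)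
      (fun g h m hm => by
        change X ^ deg (g • m).1 * cc (g * h * g⁻¹) (g • m).1 = _
        rw [smul_SF, deg_mv, cc_conj g h m.1 ((smul_eq_iff h m).mp hm)])
      (fun m => (IsSPP.monomial _).mul (cc_spec hR m).1)
    refine h0.congr fun g => Finset.sum_congr rfl fun m _ => ?_
    by_cases h : g • m = m
    · rw [if_pos h, if_pos h]
    · rw [if_neg h, if_neg h]
  · intro Ω _ q hs τ
    have hV := nvert hs τ hR
    have hE := nedge hs τ hR
    have hsub : HalfSet Ω q τ ⊆ SysSet Ω q (Equiv.optionCongr τ) (allS R) := fun L hL => hL.1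
    have hcard : (crCount Ω q τ : ℤ)
        = ((SysSet Ω q (Equiv.optionCongr τ) (allS R) \ HalfSet Ω q τ).ncard : ℤ)
          + ((HalfSet Ω q τ).ncard : ℤ) := by
      have hfin : (SysSet Ω q (Equiv.optionCongr τ) (allS R)).Finite := by
        rw [← Set.sdiff_union_of_subset hsub]
        exact hV.1.union hE.1
      have h0 := Set.ncard_sdiff_add_ncard_of_subset hsub hfin
      have h1 : crCount Ω q τ = (SysSet Ω q (Equiv.optionCongr τ) (allS R)).ncard :=
        crCount_eq hs τ
      rw [h1, ← h0]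
      exact Nat.cast_add _ _
    have hq : (2 : ℤ) ≤ q := by exact_mod_cast hs.one_lt
    have hne : 2 * ((q : ℤ) ^ 3 - q) ≠ 0 := by
      have e1 : 2 * ((q : ℤ) ^ 3 - q) = 2 * q * (q - 1) * (q + 1) := by ring
      have e2 : (0 : ℤ) < q := by linarith
      have e3 : (0 : ℤ) < q - 1 := by linarith
      have e4 : (0 : ℤ) < q + 1 := by linarith
      rw [e1]
      positivity
    apply mul_left_cancel₀ hne
    have h1 : 2 * ((q : ℤ) ^ 3 - q) * (crCount Ω q τ : ℤ)
        = ∑ m ∈ (forests τ Finset.univ).filter Small, (q : ℤ) ^ deg m *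
          ((contribV τ m).eval (q : ℤ) + ((q : ℤ) ^ 3 - q) * (contribE τ m).eval (q : ℤ)) := by
      rw [hcard, mul_add, hV.2]
      have : 2 * ((q : ℤ) ^ 3 - q) * ((HalfSet Ω q τ).ncard : ℤ)
          = ((q : ℤ) ^ 3 - q) * (2 * ((HalfSet Ω q τ).ncard : ℤ)) := by ring
      rw [this, hE.2, Finset.mul_sum, ← Finset.sum_add_distrib]
      exact Finset.sum_congr rfl fun m _ => by ring
    rw [h1, eval_finsetSum, Finset.mul_sum]
    have h2 : ∀ m : SF R, 2 * ((q : ℤ) ^ 3 - q) *
        (eval (q : ℤ) (if τ • m = m then X ^ deg m.1 * cc τ m.1 else 0))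
        = if Inv τ m.1 then (q : ℤ) ^ deg m.1 *
          ((contribV τ m.1).eval (q : ℤ) + ((q : ℤ) ^ 3 - q) * (contribE τ m.1).eval (q : ℤ))
          else 0 := by
      intro m
      by_cases h : τ • m = m
      · rw [if_pos h, if_pos ((smul_eq_iff τ m).mp h)]
        have h3 := congrArg (eval (q : ℤ)) ((cc_spec hR m).2 τ h)
        simp only [eval_mul, eval_add, eval_sub, eval_pow, eval_X, eval_ofNat] at h3
        rw [eval_mul, eval_pow, eval_X, ← h3]
        ring
      · rw [if_neg h, if_neg (fun h' => h ((smul_eq_iff τ m).mpr h')), eval_zero, mul_zero]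
    rw [Finset.sum_congr rfl (fun m _ => h2 m),
      Finset.sum_coe_sort ((forests (1 : Equiv.Perm R) Finset.univ).filter Small)
        (fun m => if Inv τ m then (q : ℤ) ^ deg m *
          ((contribV τ m).eval (q : ℤ) + ((q : ℤ) ^ 3 - q) * (contribE τ m).eval (q : ℤ)) else 0),
      ← Finset.sum_filter]
    refine Finset.sum_congr ?_ fun m _ => rfl
    ext m
    rw [Finset.mem_filter, Finset.mem_filter, mem_SF, mem_forests]
    tauto

end Pool.Agent.Mbar
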