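import Mathlib
import Pool.Agent.helper4.Core

/-! # L-functions from point counts: signed permutation form -/

set_option linter.unusedSectionVars false

noncomputable section

namespace Pool.Agent.Mbar

open Pool.Agent.Helper4 Filter Topology NumberField nonZeroDivisors IsDedekindDomain Module
  Polynomial

open scoped Classical

section core

variable {β : Type} [Fintype β] (deg : β → ℕ) (A : β → Multiset ℂ)

/-- the Frobenius eigenvalues -/
def specD (p i : ℕ) : Multiset ℂ :=
  if Even i then ∑ b, (if i / 2 = deg b then (A b).map (fun α => (p : ℂ) ^ (i / 2) * α) else 0)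
  else 0

theorem isFrobSpec_specD (p : ℕ) [Fact p.Prime] (hA : ∀ b, ∀ α ∈ A b, ‖α‖ = 1) (N : ℕ → ℕ)
    (hN : ∀ r, 1 ≤ r → (N r : ℂ) = ∑ b, ((p : ℂ) ^ r) ^ (deg b) *
      ((A b).map (fun α => α ^ r)).sum) :
    IsFrobSpec p N (specD deg A p) := by
  obtain ⟨D, hD⟩ : ∃ D, ∀ b, deg b < D := by
    refine ⟨∑ b, deg b + 1, fun b => ?_⟩
    have := Finset.single_le_sum (f := deg) (fun _ _ => Nat.zero_le _) (Finset.mem_univ b)
    omega
  have hzero : ∀ j, 2 * D ≤ j → specD deg A p j = 0 := by
    intro j hj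
    unfold specD
    split_ifs with h1
    · refine Finset.sum_eq_zero fun b _ => if_neg ?_
      have := hD b
      omega
    · rfl
  refine ⟨?_, ⟨2 * D, hzero⟩, ?_⟩
  · intro j α hα
    unfold specD at hα
    by_cases h : Even j
    · rw [if_pos h] at hα
      obtain ⟨k, rfl⟩ := h
      have e1 : (k + k) / 2 = k := by omega
      rw [e1] at hα
      push_cast
      rw [add_self_div_two, Real.rpow_natCast]
      rw [Multiset.mem_sum] at hα
      obtain ⟨b, -, hα⟩ := hα
      by_cases h1 : k = deg b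
      · rw [if_pos h1, Multiset.mem_map] at hα
        obtain ⟨γ, hγ, rfl⟩ := hα
        rw [norm_mul, hA b γ hγ, mul_one, norm_pow, Complex.norm_natCast]
      · rw [if_neg h1] at hα
        simp at hα
    · rw [if_neg h] at hα
      simp at hα
  · intro r hr
    have h2 : ∑ᶠ j, (-1 : ℂ) ^ j * ((specD deg A p j).map (fun α => α ^ r)).sum
        = ∑ k ∈ Finset.range D,
          ((specD deg A p (2 * k)).map (fun α => α ^ r)).sum := by
      rw [finsum_eq_sum_of_support_subset (s := (Finset.range D).image (fun k => 2 * k))]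
      · rw [Finset.sum_image]
        · refine Finset.sum_congr rfl fun k _ => ?_
          rw [pow_mul]; simp
        · intro x _ y _ hxy
          simp only at hxy
          omega
      · intro j hj
        rw [Function.mem_support] at hj
        rw [Finset.coe_image, Set.mem_image]
        by_cases hev : Even j
        · obtain ⟨k, rfl⟩ := hev
          refine ⟨k, ?_, by omega⟩
          rw [Finset.coe_range, Set.mem_Iio]
          by_contra h3
          apply hj
          rw [hzero _ (by omega)]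
          simp
        · exfalso
          apply hj
          unfold specD
          rw [if_neg hev]
          simp
    rw [h2, hN r hr]
    have h3 : ∀ k, ((specD deg A p (2 * k)).map (fun α => α ^ r)).sum
        = ∑ b, if k = deg b then ((p : ℂ) ^ r) ^ (deg b) * ((A b).map (fun α => α ^ r)).sum
          else 0 := by
      intro k
      unfold specD
      rw [if_pos (even_two_mul k), Nat.mul_div_cancel_left k two_pos, sum_map_finset_sum]
      refine Finset.sum_congr rfl fun b _ => ?_
      split_ifs with h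
      · rw [Multiset.map_map, ← Multiset.sum_map_mul_left, h]
        congr 1
        apply Multiset.map_congr rfl
        intro α _
        simp only [Function.comp]
        rw [mul_pow, ← pow_mul, ← pow_mul, mul_comm (deg b) r]
      · simp
    rw [Finset.sum_congr rfl (fun k _ => h3 k), Finset.sum_comm]
    refine Finset.sum_congr rfl fun b _ => ?_
    rw [Finset.sum_ite_eq' (Finset.range D) (deg b), if_pos (Finset.mem_range.mpr (hD b))]

/-- Euler factors of the Frobenius eigenvalues -/
lemma prod_specD {p : ℕ} (hp : p.Prime) (i : ℕ) (s : ℂ) :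
    ((specD deg A p i).map (fun α => (1 - α * (p : ℂ) ^ (-s))⁻¹)).prod
      = ∏ b, if Even i ∧ i / 2 = deg b then
          ((A b).map (fun α => (1 - α * (p : ℂ) ^ (-(s - (i : ℂ) / 2)))⁻¹)).prod else 1 := by
  unfold specD
  by_cases h : Even i
  · rw [if_pos h, prod_map_finset_sum]
    obtain ⟨k, rfl⟩ := h
    have e1 : (k + k) / 2 = k := by omega
    rw [e1]
    refine Finset.prod_congr rfl fun b _ => ?_
    by_cases h1 : k = deg b
    · rw [if_pos h1, if_pos ⟨⟨k, rfl⟩, h1⟩, Multiset.map_map]
      congr 1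
      apply Multiset.map_congr rfl
      intro α _
      simp only [Function.comp]
      rw [cpow_shift hp]
      ring
    · rw [if_neg h1, if_neg (fun h2 => h1 h2.2)]
      simp
  · rw [if_neg h]
    simp [h]

end core

lemma prod_smul_multiset (c : ℕ) (B : Multiset ℂ) (g : ℂ → ℂ) :
    ((c • B).map g).prod = ((B.map g).prod) ^ c := by
  rw [Multiset.map_nsmul, Multiset.prod_nsmul]

/-- Euler factor of the signed part -/
lemma prod_signed {M F : Type} [Field M] [NumberField M] [Field F] [NumberField F] (c : ℕ) {p : ℕ}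
    [hp : Fact p.Prime] (A : Multiset ℂ) (hA : ∀ α ∈ A, ‖α‖ = 1)
    (h : ∀ r, 1 ≤ r → (A.map (fun α => α ^ r)).sum = (c : ℂ) * Nat.card (𝓞 M →+* GaloisField p r)
      - Nat.card (𝓞 F →+* GaloisField p r)) {s : ℂ} (hs : 0 < s.re) :
    (A.map (fun α => (1 - α * (p : ℂ) ^ (-s))⁻¹)).prod = zl M s p ^ c * (zl F s p)⁻¹ := by
  have h1 : A + specF F p (fun _ => 1) = c • specF M p (fun _ => 1) := by
    apply multiset_eq_of_power_sums hp.out.one_lt
      (N := fun r => c * Nat.card (𝓞 M →+* GaloisField p r))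
    · intro α hα
      rw [Multiset.mem_add] at hα
      rcases hα with h | h
      · exact hA α h
      · exact norm_of_mem_specF hp.out (fun _ _ => by simp) h
    · intro α hα
      exact norm_of_mem_specF hp.out (fun _ _ => by simp) (Multiset.mem_of_mem_nsmul hα)
    · intro r hr
      have hcard : Nat.card (GaloisField p r) = p ^ r := GaloisField.card p r (by omega)
      rw [Multiset.map_add, Multiset.sum_add, h r hr, sum_pow_specF_one hp.out (GaloisField p r) r hcard]
      push_cast
      ring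
    · intro r hr
      have hcard : Nat.card (GaloisField p r) = p ^ r := GaloisField.card p r (by omega)
      rw [Multiset.map_nsmul, Multiset.sum_nsmul, sum_pow_specF_one hp.out (GaloisField p r) r hcard]
      push_cast
      rw [nsmul_eq_mul]
  have h2 := congrArg (fun B : Multiset ℂ => (B.map (fun α => (1 - α * (p : ℂ) ^ (-s))⁻¹)).prod) h1
  rw [Multiset.map_add, Multiset.prod_add, prod_smul_multiset, prod_specF hp.out,
    prod_specF hp.out] at h2
  have e1 : ∀ (K : Type) [Field K] [NumberField K],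
      locF (fun q : PK K => (1 : ℂ) * (Ideal.absNorm q.asIdeal : ℂ) ^ (-s)) p = zl K s p := by
    intro K _ _
    unfold zl
    simp only [one_mul]
  rw [e1, e1] at h2
  rw [← h2, mul_assoc, mul_inv_cancel₀ (zl_ne_zero hp.out.ne_zero hs), mul_one]

theorem core3 {β : Type} [Fintype β] (deg : β → ℕ) (M F : β → Type) [iM : ∀ b, Field (M b)]
    [iMN : ∀ b, NumberField (M b)] [iF : ∀ b, Field (F b)] [iFN : ∀ b, NumberField (F b)]
    (c : β → ℕ)
    (hq : ∀ b, ∃ (H : ℂ → ℂ) (e : ℕ), Differentiable ℂ H ∧ ∀ s : ℂ, 1 < s.re →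
      HasProd (fun p : Nat.Primes => zl (M b) s p ^ (c b) * (zl (F b) s p)⁻¹)
        (H s / (s - 1) ^ e))
    (Z : Set ℕ) (N : ∀ (p : ℕ) [Fact p.Prime], ℕ → ℕ)
    (hA : ∀ (p : ℕ) [Fact p.Prime], p ∉ Z → ∃ A : β → Multiset ℂ, (∀ b, ∀ α ∈ A b, ‖α‖ = 1) ∧
      ∀ b r, 1 ≤ r → ((A b).map (fun α => α ^ r)).sum
        = (c b : ℂ) * Nat.card (𝓞 (M b) →+* GaloisField p r)
          - Nat.card (𝓞 (F b) →+* GaloisField p r))
    (hN : ∀ (p : ℕ) [Fact p.Prime], p ∉ Z → ∀ r, 1 ≤ r → (N p r : ℂ)
      = ∑ b, ((p : ℂ) ^ r) ^ (deg b) * ((c b : ℂ) * Nat.card (𝓞 (M b) →+* GaloisField p r)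
          - Nat.card (𝓞 (F b) →+* GaloisField p r))) : Q1Sys Z N := by
  have hspec : ∀ (p : ℕ) [Fact p.Prime], p ∉ Z → ∃ A : β → Multiset ℂ, (∀ b, ∀ α ∈ A b, ‖α‖ = 1) ∧
      (∀ b r, 1 ≤ r → ((A b).map (fun α => α ^ r)).sum
        = (c b : ℂ) * Nat.card (𝓞 (M b) →+* GaloisField p r)
          - Nat.card (𝓞 (F b) →+* GaloisField p r)) ∧ IsFrobSpec p (N p) (specD deg A p) := by
    intro p hp hpZ
    obtain ⟨A, hA1, hA2⟩ := hA p hpZ
    refine ⟨A, hA1, hA2, isFrobSpec_specD deg A p hA1 (N p) fun r hr => ?_⟩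
    rw [hN p hpZ r hr]
    refine Finset.sum_congr rfl fun b _ => ?_
    rw [hA2 b r hr]
  refine ⟨fun p hp hpZ => ?_, ?_⟩
  · obtain ⟨A, -, -, h⟩ := hspec p hpZ
    exact ⟨_, h, fun B hB => hB.unique hp.out.one_lt h⟩
  choose H e h2 h3 using hq
  -- the fields
  let K : β ⊕ β → Type := Sum.elim M F
  let iK : ∀ l, Field (K l) := fun l => match l with
    | Sum.inl b => iM b
    | Sum.inr b => iF b
  let iKN : ∀ l, @NumberField (K l) (iK l) := fun l => match l with
    | Sum.inl b => iMN b
    | Sum.inr b => iFN b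
  let mm : β ⊕ β → ℕ → ℤ := fun l i => match l with
    | Sum.inl b => if Even i ∧ i / 2 = deg b then (c b : ℤ) else 0
    | Sum.inr b => if Even i ∧ i / 2 = deg b then -1 else 0
  have key : ∀ (i : ℕ) (s : ℂ) (p : ℕ), ∏ l, zl (K l) (s - (i : ℂ) / 2) p ^ mm l i
      = ∏ b, if Even i ∧ i / 2 = deg b then
          (zl (M b) (s - (i : ℂ) / 2) p ^ (c b) * (zl (F b) (s - (i : ℂ) / 2) p)⁻¹) else 1 := by
    intro i s p
    rw [Fintype.prod_sum_type, ← Finset.prod_mul_distrib]
    refine Finset.prod_congr rfl fun b _ => ?_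
    have f1 : zl (K (Sum.inl b)) (s - (i : ℂ) / 2) p ^ mm (Sum.inl b) i
        = zl (M b) (s - (i : ℂ) / 2) p ^ (if Even i ∧ i / 2 = deg b then (c b : ℤ) else 0) := rfl
    have f2 : zl (K (Sum.inr b)) (s - (i : ℂ) / 2) p ^ mm (Sum.inr b) i
        = zl (F b) (s - (i : ℂ) / 2) p ^ (if Even i ∧ i / 2 = deg b then (-1 : ℤ) else 0) := rfl
    rw [f1, f2]
    by_cases h : Even i ∧ i / 2 = deg b
    · rw [if_pos h, if_pos h, if_pos h, zpow_natCast, zpow_neg_one]
    · rw [if_neg h, if_neg h, if_neg h, zpow_zero, zpow_zero, one_mul]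
  refine ⟨β ⊕ β, inferInstance, K, iK, iKN, mm, ?_, ?_⟩
  · intro p hp B hpZ hB i s hs
    obtain ⟨A, hA1, hA2, hA3⟩ := hspec p hpZ
    rw [hB.unique hp.out.one_lt hA3, prod_specD deg A hp.out, key]
    have hs0 : 0 < (s - (i : ℂ) / 2).re := by
      rw [re_sub_half]; linarith
    refine Finset.prod_congr rfl fun b _ => ?_
    split_ifs
    · exact prod_signed (c b) (A b) (hA1 b) (hA2 b) hs0
    · rfl
  · intro i
    refine ⟨fun s => ∏ b, if Even i ∧ i / 2 = deg b then H b (s - (i : ℂ) / 2) else 1,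
      ∑ b, if Even i ∧ i / 2 = deg b then e b else 0, ?_, ?_, ?_⟩
    · refine Differentiable.fun_finsetProd fun b _ => ?_
      split_ifs
      · exact (h2 b).comp (differentiable_id.sub_const _)
      · exact differentiable_const _
    · intro hodd
      refine Finset.sum_eq_zero fun b _ => if_neg ?_
      rintro ⟨h, -⟩
      exact (Nat.not_even_iff_odd.mpr hodd) h
    · intro s hs
      simp only [key]
      have hs1 : 1 < (s - (i : ℂ) / 2).re := by
        rw [re_sub_half]; linarith
      have e0 : s - ((i : ℂ) / 2 + 1) = s - (i : ℂ) / 2 - 1 := by ring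
      rw [e0]
      have k1 : HasProd (fun p : Nat.Primes => ∏ b, if Even i ∧ i / 2 = deg b then
          (zl (M b) (s - (i : ℂ) / 2) p ^ (c b) * (zl (F b) (s - (i : ℂ) / 2) p)⁻¹) else 1)
          (∏ b, if Even i ∧ i / 2 = deg b then
            (H b (s - (i : ℂ) / 2) / (s - (i : ℂ) / 2 - 1) ^ e b) else 1) := by
        refine hasProd_prod fun b _ => ?_
        split_ifs
        · exact h3 b _ hs1
        · exact hasProd_one
      have k2 : (∏ b, if Even i ∧ i / 2 = deg b then
            (H b (s - (i : ℂ) / 2) / (s - (i : ℂ) / 2 - 1) ^ e b) else 1)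
          = (∏ b, if Even i ∧ i / 2 = deg b then H b (s - (i : ℂ) / 2) else 1) /
            (s - (i : ℂ) / 2 - 1) ^ (∑ b, if Even i ∧ i / 2 = deg b then e b else 0) := by
        rw [← Finset.prod_pow_eq_pow_sum, ← Finset.prod_div_distrib]
        refine Finset.prod_congr rfl fun b _ => ?_
        split_ifs
        · rfl
        · rw [pow_zero, div_one]
      rw [← k2]
      exact k1

end Pool.Agent.Mbar
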