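import Mathlib
import Pool.Agent.helper4.SubsetCount

/-! # Homomorphisms of rings of integers of fixed fields to finite fields -/

set_option linter.unusedSectionVars false

noncomputable section

namespace Pool.Agent.Mbar

open Pool.Agent.Helper4 Polynomial NumberField

/-! ### Homomorphisms agreeing on the invariants are conjugate -/

lemma exists_conj' {B Ω H : Type*} [CommRing B] [Group H] [Finite H] [MulSemiringAction H B]
    [CommRing Ω] [IsDomain Ω] (φ ψ : B →+* Ω)
    (hinv : ∀ x : B, (∀ h : H, h • x = x) → φ x = ψ x) (b : B[X]) :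
    ∃ h : H, b.map ψ = (h • b).map φ := by
  classical
  cases nonempty_fintype H
  set P : B[X][X] := MulSemiringAction.charpoly H b with hP
  have h1 : ∀ n m : ℕ, φ ((P.coeff n).coeff m) = ψ ((P.coeff n).coeff m) := by
    intro n m
    apply hinv
    intro g
    have h2 := MulSemiringAction.smul_coeff_charpoly b n g
    have h3 : (g • P.coeff n).coeff m = g • (P.coeff n).coeff m := Polynomial.coeff_smul _ _ _
    rw [← h3, hP, h2]
  have hmap : P.map (mapRingHom ψ) = P.map (mapRingHom φ) := by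
    ext n m
    simp only [coeff_map, coe_mapRingHom]
    exact (h1 n m).symm
  have hzero : P.eval b = 0 := MulSemiringAction.eval_charpoly _ _
  have h5 : (P.map (mapRingHom φ)).eval (b.map ψ) = 0 := by
    rw [← hmap]
    have : b.map ψ = mapRingHom ψ b := rfl
    rw [this, eval_map, eval₂_at_apply, hzero, map_zero]
  rw [hP, MulSemiringAction.charpoly_eq, Polynomial.map_prod, eval_prod,
    Finset.prod_eq_zero_iff] at h5
  obtain ⟨g, -, hg⟩ := h5
  refine ⟨g, ?_⟩
  simp only [Polynomial.map_sub, map_X, map_C, eval_sub, eval_X, eval_C, coe_mapRingHom] at hg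
  exact sub_eq_zero.mp hg

lemma exists_conj_hom' {B Ω H : Type*} [CommRing B] [Group H] [Finite H] [MulSemiringAction H B]
    [CommRing Ω] [IsDomain Ω] [Module.Finite ℤ B] (φ ψ : B →+* Ω)
    (hinv : ∀ x : B, (∀ h : H, h • x = x) → φ x = ψ x) :
    ∃ h : H, ∀ x : B, ψ x = φ (h • x) := by
  classical
  obtain ⟨m, s, hs⟩ := Module.Finite.exists_fin (R := ℤ) (M := B)
  set b : B[X] := ∑ j : Fin m, monomial (j : ℕ) (s j) with hb
  obtain ⟨g, hg⟩ := exists_conj' φ ψ hinv b
  refine ⟨g, ?_⟩
  have hcoef : ∀ j : Fin m, b.coeff j = s j := by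
    intro j
    rw [hb, finsetSum_coeff, Finset.sum_eq_single j]
    · rw [coeff_monomial, if_pos rfl]
    · intro k _ hk
      rw [coeff_monomial, if_neg]
      intro h
      exact hk (Fin.ext h)
    · intro h
      exact absurd (Finset.mem_univ j) h
  have h1 : ∀ j : Fin m, ψ (s j) = φ (g • s j) := by
    intro j
    have := congrArg (fun p : Polynomial Ω => p.coeff j) hg
    simp only [coeff_map, Polynomial.coeff_smul, hcoef] at this
    exact this
  set A : Submodule ℤ B := AddSubgroup.toIntSubmodule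
    (AddMonoidHom.eqLocus ψ.toAddMonoidHom
      (φ.toAddMonoidHom.comp ((MulSemiringAction.toRingHom H B g).toAddMonoidHom))) with hA
  have h2 : (⊤ : Submodule ℤ B) ≤ A := by
    rw [← hs, Submodule.span_le]
    rintro _ ⟨j, rfl⟩
    exact h1 j
  intro x
  exact h2 Submodule.mem_top

variable {f : ℤ[X]}

/-! ### Fixed fields -/

/-- the fixed field of a group of automorphisms of the ring of integers of the splitting field -/
def fieldH (H : Subgroup (GalR f)) : IntermediateField ℚ (LL f) :=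
  IntermediateField.fixedField (H.comap (galRestrict ℤ ℚ (LL f) (𝓞 (LL f))).toMonoidHom)

/-- inclusion of rings of integers -/
def inclH (H : Subgroup (GalR f)) : 𝓞 (fieldH H) →+* 𝓞 (LL f) :=
  algebraMap (𝓞 (fieldH H)) (𝓞 (LL f))

lemma inclH_coe (H : Subgroup (GalR f)) (x : 𝓞 (fieldH H)) :
    ((inclH H x : 𝓞 (LL f)) : LL f) = ((x : fieldH H) : LL f) := rfl

lemma inclH_injective (H : Subgroup (GalR f)) : Function.Injective (inclH H) := by
  intro x y h
  have h2 : ((inclH H x : 𝓞 (LL f)) : LL f) = ((inclH H y : 𝓞 (LL f)) : LL f) := by rw [h]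
  rw [inclH_coe, inclH_coe] at h2
  exact RingOfIntegers.coe_injective (Subtype.ext h2)

lemma mem_fieldH (H : Subgroup (GalR f)) (x : 𝓞 (LL f)) :
    (x : LL f) ∈ fieldH H ↔ ∀ h ∈ H, h • x = x := by
  unfold fieldH
  rw [IntermediateField.mem_fixedField_iff]
  constructor
  · intro h g hg
    have h1 := h ((galRestrict ℤ ℚ (LL f) (𝓞 (LL f))).symm g) (by
      rw [Subgroup.mem_comap]
      have : (galRestrict ℤ ℚ (LL f) (𝓞 (LL f))).toMonoidHom
        ((galRestrict ℤ ℚ (LL f) (𝓞 (LL f))).symm g) = g :=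
        (galRestrict ℤ ℚ (LL f) (𝓞 (LL f))).apply_symm_apply g
      rw [this]
      exact hg)
    have h2 : ((galRestrict ℤ ℚ (LL f) (𝓞 (LL f))).symm g) (x : LL f)
        = ((g • x : 𝓞 (LL f)) : LL f) := galRestrict_symm_algebraMap_apply ℤ ℚ g x
    rw [h2] at h1
    exact RingOfIntegers.coe_injective h1
  · intro h σ hσ
    rw [Subgroup.mem_comap] at hσ
    have h1 := h _ hσ
    have h2 : ((((galRestrict ℤ ℚ (LL f) (𝓞 (LL f))).toMonoidHom σ) • x : 𝓞 (LL f)) : LL f)
        = σ (x : LL f) := algebraMap_galRestrict_apply ℤ σ x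
    rw [h1] at h2
    exact h2.symm

lemma smul_inclH (H : Subgroup (GalR f)) (x : 𝓞 (fieldH H)) {h : GalR f} (hh : h ∈ H) :
    h • inclH H x = inclH H x :=
  (mem_fieldH H (inclH H x)).mp (by rw [inclH_coe]; exact (x : fieldH H).2) h hh

lemma exists_inclH (H : Subgroup (GalR f)) (x : 𝓞 (LL f)) (hx : ∀ h ∈ H, h • x = x) :
    ∃ y, inclH H y = x := by
  have hx' := (mem_fieldH H x).mpr hx
  have hint : IsIntegral ℤ (⟨_, hx'⟩ : fieldH H) := by
    have h2 : IsIntegral ℤ (x : LL f) := RingOfIntegers.isIntegral_coe _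
    have hinj : Function.Injective (algebraMap (fieldH H) (LL f)) :=
      (algebraMap (fieldH H) (LL f)).injective
    exact (isIntegral_algebraMap_iff hinj).mp h2
  exact ⟨⟨_, hint⟩, RingOfIntegers.coe_injective rfl⟩

/-- Galois automorphisms are determined by their action on the roots. -/
lemma ext_roots (hf : f.Monic) (g g' : GalR f)
    (h : ∀ α ∈ rootsR f, g • α = g' • α) : g = g' := by
  set σ := (galRestrict ℤ ℚ (LL f) (𝓞 (LL f))).symm g with hσ
  set σ' := (galRestrict ℤ ℚ (LL f) (𝓞 (LL f))).symm g' with hσ'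
  have e1 : ∀ x : 𝓞 (LL f), σ (x : LL f) = ((g • x : 𝓞 (LL f)) : LL f) := fun x =>
    galRestrict_symm_algebraMap_apply ℤ ℚ g x
  have e2 : ∀ x : 𝓞 (LL f), σ' (x : LL f) = ((g' • x : 𝓞 (LL f)) : LL f) := fun x =>
    galRestrict_symm_algebraMap_apply ℤ ℚ g' x
  have htop : Algebra.adjoin ℚ ((f.map (Int.castRingHom ℚ)).rootSet (LL f)) = ⊤ :=
    SplittingField.adjoin_rootSet _
  have hroot : ∀ β ∈ (f.map (Int.castRingHom ℚ)).rootSet (LL f), ∃ α ∈ rootsR f, (α : LL f) = β := by
    intro β hβ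
    have hβ1 : f.eval₂ (Int.castRingHom (LL f)) β = 0 := by
      rw [mem_rootSet] at hβ
      have h3 := hβ.2
      rw [aeval_def, eval₂_map] at h3
      have e : (algebraMap ℚ (LL f)).comp (Int.castRingHom ℚ) = Int.castRingHom (LL f) :=
        RingHom.ext_int _ _
      rw [e] at h3
      exact h3
    have hI : IsIntegral ℤ β := ⟨f, hf, by
      have : algebraMap ℤ (LL f) = Int.castRingHom (LL f) := RingHom.ext_int _ _
      rw [this]; exact hβ1⟩
    refine ⟨⟨β, hI⟩, ?_, rfl⟩
    rw [mem_rootsR hf, IsRoot.def, eval_map]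
    have hinj : Function.Injective (algebraMap (𝓞 (LL f)) (LL f)) :=
      RingOfIntegers.coe_injective
    apply hinj
    rw [hom_eval₂, castRingHom_comp, map_zero]
    exact hβ1
  have hσσ : ∀ y : LL f, σ y = σ' y := by
    intro y
    have hy : y ∈ Algebra.adjoin ℚ ((f.map (Int.castRingHom ℚ)).rootSet (LL f)) := by
      rw [htop]; trivial
    induction hy using Algebra.adjoin_induction with
    | mem x hx =>
      obtain ⟨α, hα, rfl⟩ := hroot x hx
      rw [e1, e2, h α hα]
    | algebraMap x => exact (map_ratCast σ x).trans (map_ratCast σ' x).symm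
    | add x y _ _ hx hy => rw [map_add, map_add, hx, hy]
    | mul x y _ _ hx hy => rw [map_mul, map_mul, hx, hy]
  have : σ = σ' := AlgEquiv.ext hσσ
  rw [hσ, hσ'] at this
  exact (galRestrict ℤ ℚ (LL f) (𝓞 (LL f))).symm.injective this

/-! ### Counting homomorphisms -/

section Omega

variable {Ω : Type*} [Field Ω] (φ₀ : 𝓞 (LL f) →+* Ω)

/-- two automorphisms give the same homomorphism on the fixed ring iff they are in the same
coset -/
lemma restrict_eq_iff (hf : f.Monic) (hsep : (f.map (Int.castRingHom ℚ)).Separable)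
    (hsep2 : (f.map (Int.castRingHom Ω)).Separable) (H : Subgroup (GalR f)) (a b : GalR f) :
    (∀ x, φ₀ (a • inclH H x) = φ₀ (b • inclH H x)) ↔ b⁻¹ * a ∈ H := by
  constructor
  · intro h
    obtain ⟨h', hh⟩ := exists_conj_hom' (H := H) (B := 𝓞 (LL f))
      (φ₀.comp (MulSemiringAction.toRingHom (GalR f) _ b))
      (φ₀.comp (MulSemiringAction.toRingHom (GalR f) _ a)) (by
        intro x hx
        obtain ⟨y, rfl⟩ := exists_inclH H x (fun h hh => hx ⟨h, hh⟩)
        exact (h y).symm)
    have e : a = b * (h' : GalR f) := by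
      apply ext_roots hf
      intro α hα
      apply injOn_roots φ₀ hf hsep hsep2 (smul_mem_rootsR hf _ hα) (smul_mem_rootsR hf _ hα)
      have := hh α
      rw [mul_smul]
      exact this
    rw [e, inv_mul_cancel_left]
    exact h'.2
  · intro h x
    have h1 := smul_inclH H x h
    rw [mul_smul, inv_smul_eq_iff] at h1
    rw [h1]

end Omega

/-- **Counting homomorphisms**: `τ` is a Frobenius element for `φ₀`. -/
theorem card_hom_fieldH (hf : f.Monic) (hsep : (f.map (Int.castRingHom ℚ)).Separable)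
    {p : ℕ} [hp : Fact p.Prime] {Ω : Type*} [Field Ω] [IsAlgClosed Ω] [CharP Ω p]
    (hsep2 : (f.map (Int.castRingHom Ω)).Separable)
    (φ₀ : 𝓞 (LL f) →+* Ω) (τ : GalR f) (hτ : ∀ x, φ₀ (τ • x) = φ₀ x ^ p)
    (H : Subgroup (GalR f)) (r : ℕ) (hr : 1 ≤ r) :
    Nat.card H * Nat.card (𝓞 (fieldH H) →+* GaloisField p r)
      = Nat.card {a : GalR f // a⁻¹ * τ ^ r * a ∈ H} := by
  classical
  have hfin : Finite (𝓞 (fieldH H) →+* GaloisField p r) := finite_hom _ _
  cases nonempty_fintype (GalR f)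
  have : Fintype (GaloisField p r) := Fintype.ofFinite _
  let _ : Algebra (ZMod p) Ω := ZMod.algebra _ p
  have : Algebra.IsAlgebraic (ZMod p) (GaloisField p r) := inferInstance
  let j : GaloisField p r →+* Ω := (IsAlgClosed.lift : GaloisField p r →ₐ[ZMod p] Ω).toRingHom
  let _ : Algebra (GaloisField p r) Ω := j.toAlgebra
  have hcard : Nat.card (GaloisField p r) = p ^ r := GaloisField.card p r (by omega)
  have hcard' : Fintype.card (GaloisField p r) = p ^ r := by rw [← hcard, Nat.card_eq_fintype_card]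
  have hτr : ∀ (r : ℕ) x, φ₀ (τ ^ r • x) = φ₀ x ^ (p ^ r) := by
    intro r
    induction r with
    | zero => intro x; simp
    | succ r ih =>
      intro x
      rw [pow_succ, mul_smul, ih, hτ, ← pow_mul, ← pow_succ']
  -- the map
  have key : ∀ a : GalR f, a⁻¹ * τ ^ r * a ∈ H ↔ ∀ x, φ₀ (a • inclH H x) ^ (p ^ r) = φ₀ (a • inclH H x) := by
    intro a
    rw [show a⁻¹ * τ ^ r * a = a⁻¹ * (τ ^ r * a) by group,
      ← restrict_eq_iff φ₀ hf hsep hsep2 H (τ ^ r * a) a]
    refine forall_congr' fun x => ?_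
    rw [mul_smul, hτr]
  have hrange : ∀ (a : GalR f), a⁻¹ * τ ^ r * a ∈ H → ∃ φ : 𝓞 (fieldH H) →+* GaloisField p r,
      ∀ x, j (φ x) = φ₀ (a • inclH H x) := by
    intro a ha
    have h1 := (key a).mp ha
    have h2 : ∀ x, ∃ y : GaloisField p r, j y = φ₀ (a • inclH H x) := fun x =>
      mem_range_of_pow_eq (F := GaloisField p r) (Ω := Ω) _ (by rw [hcard']; exact h1 x)
    choose y hy using h2
    refine ⟨{ toFun := y, map_one' := ?_, map_mul' := ?_, map_zero' := ?_, map_add' := ?_ }, hy⟩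
    · apply j.injective; rw [hy, map_one, smul_one, map_one, map_one]
    · intro u v; apply j.injective; rw [hy, map_mul, smul_mul', map_mul, map_mul, hy, hy]
    · apply j.injective; rw [hy, map_zero, smul_zero, map_zero, map_zero]
    · intro u v; apply j.injective; rw [hy, map_add, smul_add, map_add, map_add, hy, hy]
  choose F hF using hrange
  let m : {a : GalR f // a⁻¹ * τ ^ r * a ∈ H} → (𝓞 (fieldH H) →+* GaloisField p r) :=
    fun a => F a.1 a.2
  have hm : ∀ a x, j (m a x) = φ₀ (a.1 • inclH H x) := fun a x => hF a.1 a.2 x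
  have hfib : ∀ φ : 𝓞 (fieldH H) →+* GaloisField p r,
      Nat.card {a // m a = φ} = Nat.card H := by
    intro φ
    obtain ⟨a₀, ha₀⟩ := exists_conj_hom (G := GalR f) (inclH H) (inclH_injective H) φ₀ (j.comp φ)
      (galR_invariant f)
    have ha₀' : a₀⁻¹ * τ ^ r * a₀ ∈ H := by
      rw [key]
      intro x
      rw [← ha₀, RingHom.comp_apply, ← map_pow]
      congr 1
      rw [← hcard']
      exact FiniteField.pow_card _
    symm
    refine Nat.card_congr ⟨fun h => ⟨⟨a₀ * h, ?_⟩, ?_⟩, fun a => ⟨a₀⁻¹ * a.1.1, ?_⟩, ?_, ?_⟩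
    · have e : (a₀ * (h : GalR f))⁻¹ * τ ^ r * (a₀ * h)
          = (h : GalR f)⁻¹ * (a₀⁻¹ * τ ^ r * a₀) * h := by group
      rw [e]
      exact H.mul_mem (H.mul_mem (H.inv_mem h.2) ha₀') h.2
    · ext x
      apply j.injective
      rw [hm]
      have := ha₀ x
      rw [RingHom.comp_apply] at this
      rw [this]
      simp only
      rw [mul_smul, smul_inclH H x h.2]
    · rw [← restrict_eq_iff φ₀ hf hsep hsep2 H]
      intro x
      rw [← hm, a.2]
      exact ha₀ x
    · intro h
      apply Subtype.ext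
      simp
    · rintro ⟨⟨a, ha⟩, h⟩
      apply Subtype.ext
      apply Subtype.ext
      simp
  have hfin2 : Fintype (𝓞 (fieldH H) →+* GaloisField p r) := Fintype.ofFinite _
  have h1 := Nat.card_congr (Equiv.sigmaFiberEquiv m)
  rw [← h1, Nat.card_sigma, Finset.sum_congr rfl (fun φ _ => hfib φ), Finset.sum_const,
    Finset.card_univ, Nat.card_eq_fintype_card (α := 𝓞 (fieldH H) →+* GaloisField p r),
    smul_eq_mul, mul_comm]

end Pool.Agent.Mbar
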