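import Mathlib
import Pool.Agent.Mbar.FixedField
import Pool.Agent.helper4.QuadData

/-! # Quotients of zeta functions of fixed fields -/

set_option linter.unusedSectionVars false

noncomputable section

namespace Pool.Agent.Mbar

open Pool.Agent.Helper4 Polynomial NumberField Module
open scoped Classical

variable {f : ℤ[X]}

/-- kernel of a sign character of a subgroup -/
def kerH (H : Subgroup (GalR f)) (χ : H →* ℤˣ) : Subgroup (GalR f) := χ.ker.map H.subtype

lemma mem_kerH (H : Subgroup (GalR f)) (χ : H →* ℤˣ) (g : GalR f) :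
    g ∈ kerH H χ ↔ ∃ h : g ∈ H, χ ⟨g, h⟩ = 1 := by
  unfold kerH
  rw [Subgroup.mem_map]
  constructor
  · rintro ⟨x, hx, rfl⟩
    exact ⟨x.2, hx⟩
  · rintro ⟨h, h1⟩
    exact ⟨⟨g, h⟩, h1, rfl⟩

lemma kerH_le (H : Subgroup (GalR f)) (χ : H →* ℤˣ) : kerH H χ ≤ H := by
  intro g hg
  exact ((mem_kerH H χ g).mp hg).1

lemma kerH_of_trivial (H : Subgroup (GalR f)) (χ : H →* ℤˣ) (h : ∀ x, χ x = 1) : kerH H χ = H := by
  apply le_antisymm (kerH_le H χ)
  intro g hg
  exact (mem_kerH H χ g).mpr ⟨hg, h _⟩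

lemma finrank_fieldH (H : Subgroup (GalR f)) : finrank (fieldH H) (LL f) = Nat.card H := by
  unfold fieldH
  rw [IntermediateField.finrank_fixedField_eq_card]
  apply Nat.card_congr
  exact (Equiv.subtypeEquiv (galRestrict ℤ ℚ (LL f) (𝓞 (LL f))).toEquiv (by
    intro a
    exact Subgroup.mem_comap))

lemma card_kerH (H : Subgroup (GalR f)) (χ : H →* ℤˣ) (h : ¬ ∀ x, χ x = 1) :
    Nat.card H = 2 * Nat.card (kerH H χ) := by
  have h1 : Nat.card (kerH H χ) = Nat.card χ.ker := by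
    unfold kerH
    exact Nat.card_congr (χ.ker.equivMapOfInjective H.subtype (Subgroup.subtype_injective H)).symm.toEquiv
  have hsurj : Function.Surjective χ := by
    push Not at h
    obtain ⟨x, hx⟩ := h
    intro u
    rcases Int.units_eq_one_or u with rfl | rfl
    · exact ⟨1, map_one χ⟩
    · exact ⟨x, (Int.units_eq_one_or _).resolve_left hx⟩
  have h2 : χ.ker.index = 2 := by
    rw [Subgroup.index_ker, MonoidHom.range_eq_top.mpr hsurj]
    have : Nat.card (⊤ : Subgroup ℤˣ) = Nat.card ℤˣ := Subgroup.card_top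
    rw [this]
    simp
  rw [h1, ← χ.ker.card_mul_index, h2, mul_comm]

/-- the quadratic extension of a sign character -/
lemma isQuad_kerH (H : Subgroup (GalR f)) (χ : H →* ℤˣ) (h : ¬ ∀ x, χ x = 1) :
    ∃ (_ : Algebra (fieldH H) (fieldH (kerH H χ))) (d : 𝓞 (fieldH H)) (δ : 𝓞 (fieldH (kerH H χ))),
      IsQuad d δ := by
  have hle : fieldH H ≤ fieldH (kerH H χ) := by
    unfold fieldH
    apply IntermediateField.fixedField_antitone
    exact Subgroup.comap_mono (kerH_le H χ)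
  let alg : Algebra (fieldH H) (fieldH (kerH H χ)) := (IntermediateField.inclusion hle).toRingHom.toAlgebra
  have hmapL : ∀ a : fieldH H, ((algebraMap (fieldH H) (fieldH (kerH H χ)) a : fieldH (kerH H χ)) : LL f)
      = (a : LL f) := fun a => rfl
  have tower : IsScalarTower (fieldH H) (fieldH (kerH H χ)) (LL f) :=
    IsScalarTower.of_algebraMap_eq fun x => rfl
  have hfr : finrank (fieldH H) (fieldH (kerH H χ)) = 2 := by
    have h1 := finrank_mul_finrank (fieldH H) (fieldH (kerH H χ)) (LL f)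
    rw [finrank_fieldH, finrank_fieldH, card_kerH H χ h] at h1
    have hpos : 0 < Nat.card (kerH H χ) := Nat.card_pos
    exact Nat.eq_of_mul_eq_mul_right hpos h1
  obtain ⟨⟨h₀, hh₀⟩, hχ₀⟩ : ∃ x, χ x = -1 := by
    push Not at h
    obtain ⟨x, hx⟩ := h
    exact ⟨x, (Int.units_eq_one_or _).resolve_left hx⟩
  -- an element of `M` not in `F`
  have hex : ∃ y : fieldH (kerH H χ), (y : LL f) ∉ fieldH H := by
    by_contra hc
    push Not at hc
    have h2 : finrank (fieldH H) (fieldH (kerH H χ)) = 1 := by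
      rw [finrank_eq_one_iff']
      refine ⟨1, one_ne_zero, fun w => ⟨⟨(w : LL f), hc w⟩, ?_⟩⟩
      apply Subtype.ext
      rw [Algebra.smul_def, mul_one]
      rfl
    omega
  obtain ⟨y, hy⟩ := hex
  obtain ⟨n, hn, hint⟩ : ∃ n : ℤ, n ≠ 0 ∧ IsIntegral ℤ ((n : LL f) * (y : LL f)) := by
    have halg : IsAlgebraic ℤ (y : LL f) := by
      have : IsAlgebraic ℚ (y : LL f) := Algebra.IsAlgebraic.isAlgebraic _
      exact (IsFractionRing.isAlgebraic_iff ℤ ℚ (LL f)).mpr this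
    obtain ⟨n, hn, h3⟩ := halg.exists_integral_multiple
    refine ⟨n, hn, ?_⟩
    have e : (n : LL f) * (y : LL f) = n • (y : LL f) := (zsmul_eq_mul _ _).symm
    rw [e]
    exact h3
  set x : 𝓞 (LL f) := ⟨(n : LL f) * (y : LL f), hint⟩ with hx
  have hxL : (x : LL f) = (n : LL f) * (y : LL f) := rfl
  have hxK : ∀ g ∈ kerH H χ, g • x = x := by
    rw [← mem_fieldH, hxL]
    exact (fieldH (kerH H χ)).mul_mem (intCast_mem _ n) y.2
  have hxH : ¬ (h₀ • x = x) := by
    intro hc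
    have h4 : ∀ g ∈ H, g • x = x := by
      intro g hg
      rcases Int.units_eq_one_or (χ ⟨g, hg⟩) with h5 | h5
      · exact hxK g ((mem_kerH H χ g).mpr ⟨hg, h5⟩)
      · have h6 : h₀⁻¹ * g ∈ kerH H χ := by
          rw [mem_kerH]
          refine ⟨H.mul_mem (H.inv_mem hh₀) hg, ?_⟩
          have h7 : (⟨h₀⁻¹ * g, H.mul_mem (H.inv_mem hh₀) hg⟩ : H) = (⟨h₀, hh₀⟩ : H)⁻¹ * ⟨g, hg⟩ := rfl
          rw [h7, map_mul, map_inv, hχ₀, h5]
          norm_num
        have h8 := hxK _ h6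
        rw [mul_smul, inv_smul_eq_iff, hc] at h8
        exact h8
    rw [← mem_fieldH, hxL] at h4
    apply hy
    have hn' : (n : LL f) ≠ 0 := by exact_mod_cast hn
    have h9 : (y : LL f) = (n : LL f)⁻¹ * ((n : LL f) * (y : LL f)) := by
      rw [inv_mul_cancel_left₀ hn']
    rw [h9]
    exact (fieldH H).mul_mem ((fieldH H).inv_mem (intCast_mem _ n)) h4
  set D : 𝓞 (LL f) := x - h₀ • x with hD
  have hD0 : D ≠ 0 := by
    intro h5
    exact hxH (sub_eq_zero.mp h5).symm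
  have hsq : h₀ • h₀ • x = x := by
    rw [← mul_smul]
    apply hxK
    rw [mem_kerH]
    refine ⟨H.mul_mem hh₀ hh₀, ?_⟩
    have h7 : (⟨h₀ * h₀, H.mul_mem hh₀ hh₀⟩ : H) = (⟨h₀, hh₀⟩ : H) * ⟨h₀, hh₀⟩ := rfl
    rw [h7, map_mul, hχ₀]
    norm_num
  have hDneg : h₀ • D = -D := by
    rw [hD, smul_sub, hsq]
    ring
  have hDK : ∀ g ∈ kerH H χ, g • D = D := by
    intro g hg
    have h6 : h₀⁻¹ * g * h₀ ∈ kerH H χ := by
      obtain ⟨hgH, hg1⟩ := (mem_kerH H χ g).mp hg
      rw [mem_kerH]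
      refine ⟨H.mul_mem (H.mul_mem (H.inv_mem hh₀) hgH) hh₀, ?_⟩
      have h7 : (⟨h₀⁻¹ * g * h₀, H.mul_mem (H.mul_mem (H.inv_mem hh₀) hgH) hh₀⟩ : H)
        = (⟨h₀, hh₀⟩ : H)⁻¹ * ⟨g, hgH⟩ * ⟨h₀, hh₀⟩ := rfl
      rw [h7, map_mul, map_mul, map_inv, hχ₀, hg1]
      norm_num
    have h8 := hxK _ h6
    rw [mul_smul, mul_smul, inv_smul_eq_iff] at h8
    rw [hD, smul_sub, hxK g hg, h8]
  have hDH : ∀ g ∈ H, g • D ^ 2 = D ^ 2 := by
    intro g hg
    rcases Int.units_eq_one_or (χ ⟨g, hg⟩) with h5 | h5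
    · rw [smul_pow', hDK g ((mem_kerH H χ g).mpr ⟨hg, h5⟩)]
    · have h6 : h₀⁻¹ * g ∈ kerH H χ := by
        rw [mem_kerH]
        refine ⟨H.mul_mem (H.inv_mem hh₀) hg, ?_⟩
        have h7 : (⟨h₀⁻¹ * g, H.mul_mem (H.inv_mem hh₀) hg⟩ : H) = (⟨h₀, hh₀⟩ : H)⁻¹ * ⟨g, hg⟩ := rfl
        rw [h7, map_mul, map_inv, hχ₀, h5]
        norm_num
      have h8 := hDK _ h6
      rw [mul_smul, inv_smul_eq_iff] at h8
      rw [smul_pow', h8, hDneg]
      ring
  obtain ⟨δ, hδ⟩ := exists_inclH (kerH H χ) D hDK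
  obtain ⟨d, hd⟩ := exists_inclH H (D ^ 2) hDH
  refine ⟨alg, d, δ, ?_, hfr, ?_⟩
  · apply Subtype.ext
    rw [hmapL]
    have e1 : (((δ : fieldH (kerH H χ)) ^ 2 : fieldH (kerH H χ)) : LL f) = (D : LL f) ^ 2 := by
      rw [← hδ]
      rfl
    have e2 : ((d : fieldH H) : LL f) = (D : LL f) ^ 2 := by
      have := congrArg (fun z : 𝓞 (LL f) => (z : LL f)) hd
      exact this
    rw [e1, e2]
  · intro a ha
    have e1 : (a : LL f) = (D : LL f) := by
      have h10 := congrArg (fun z : fieldH (kerH H χ) => (z : LL f)) ha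
      have h11 : ((δ : fieldH (kerH H χ)) : LL f) = (D : LL f) := by
        rw [← hδ]
        rfl
      rw [← h11]
      exact h10
    have h12 : (D : LL f) ∈ fieldH H := by
      rw [← e1]
      exact a.2
    rw [mem_fieldH] at h12
    have h13 := h12 h₀ hh₀
    rw [hDneg] at h13
    apply hD0
    have h14 : (2 : 𝓞 (LL f)) * D = 0 := by linear_combination -h13
    exact (mul_eq_zero.mp h14).resolve_left two_ne_zero

/-- multiplicity of the bigger field -/
def multH (H : Subgroup (GalR f)) (χ : H →* ℤˣ) : ℕ := if ∀ x, χ x = 1 then 2 else 1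

lemma card_multH (H : Subgroup (GalR f)) (χ : H →* ℤˣ) :
    multH H χ * Nat.card H = 2 * Nat.card (kerH H χ) := by
  unfold multH
  split_ifs with h
  · rw [kerH_of_trivial H χ h]
  · rw [one_mul, card_kerH H χ h]

theorem quot_data (H : Subgroup (GalR f)) (χ : H →* ℤˣ) :
    ∃ (Hf : ℂ → ℂ) (e : ℕ), Differentiable ℂ Hf ∧ ∀ s : ℂ, 1 < s.re →
      HasProd (fun p : Nat.Primes => zl (fieldH (kerH H χ)) s p ^ (multH H χ) *
        (zl (fieldH H) s p)⁻¹) (Hf s / (s - 1) ^ e) := by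
  by_cases h : ∀ x, χ x = 1
  · refine ⟨HDed (fieldH H), 1, differentiable_HDed _, fun s hs => ?_⟩
    rw [pow_one]
    have h1 := hasProd_dedekind (fieldH H) hs
    refine h1.congr_fun ?_ |> fun h => h
    intro p
    unfold multH
    rw [if_pos h, kerH_of_trivial H χ h, sq, mul_assoc,
      mul_inv_cancel₀ (zl_ne_zero p.2.ne_zero (by linarith)), mul_one]
    rfl
  · obtain ⟨alg, d, δ, hq⟩ := isQuad_kerH H χ h
    obtain ⟨Hf, hH, hHe⟩ := quad_entire hq
    refine ⟨Hf, 0, hH, fun s hs => ?_⟩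
    have h1 := hasProd_dedekind (fieldH (kerH H χ)) hs
    have h2 := hasProd_inv₀ (hasProd_dedekind (fieldH H) hs) (HDed_ne_zero (fieldH H) hs)
    have h3 := h1.mul h2
    have h4 : HDed (fieldH (kerH H χ)) s / (s - 1) * (HDed (fieldH H) s / (s - 1))⁻¹
        = Hf s / (s - 1) ^ 0 := by
      have h5 := HDed_ne_zero (fieldH H) hs
      have h6 : HDed (fieldH H) s ≠ 0 := fun h => h5 (by rw [h, zero_div])
      have h7 : s - 1 ≠ 0 := fun h => h5 (by rw [h, div_zero])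
      rw [hHe s hs, pow_zero, div_one]
      field_simp
    rw [h4] at h3
    refine h3.congr_fun ?_ |> fun h => h
    intro p
    unfold multH
    rw [if_neg h, pow_one]
    rfl

end Pool.Agent.Mbar
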