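import Mathlib
import Pool.Agent.Mbar.SSet
import Pool.Agent.helper4.LocalFactor

/-! # Eigenvalues of signed permutations -/

set_option linter.unusedSectionVars false

noncomputable section

namespace Pool.Agent.Mbar

open Pool.Agent.Helper4 MulAction
open scoped Classical

variable {G : Type} [Group G]

/-- the signed permutation characters, over any ring -/
lemma SSet.eps_one (S : SSet G) (b : S.B) : S.ε 1 b = 1 := by
  have h := S.mul 1 1 b
  rw [one_mul, one_smul] at h
  exact (left_eq_mul.mp h)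

lemma SSet.eps_pow (S : SSet G) (g : G) (b : S.B) (h : g • b = b) (m : ℕ) :
    S.ε (g ^ m) b = S.ε g b ^ m := by
  induction m with
  | zero => rw [pow_zero, pow_zero, S.eps_one]
  | succ m ih => rw [pow_succ, S.mul, h, ih, pow_succ]

/-- the sign of a cycle does not depend on the starting point -/
lemma SSet.eps_conj (S : SSet G) (g : G) (b : S.B) (l : ℕ) (h : g ^ l • b = b) :
    S.ε (g ^ l) (g • b) = S.ε (g ^ l) b := by
  have h1 := S.mul (g ^ l) g b
  have h2 := S.mul g (g ^ l) b
  rw [h, ← pow_succ'] at h2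
  rw [← pow_succ, h2, mul_comm (S.ε g b)] at h1
  exact (mul_right_cancel h1).symm

theorem exists_spec (S : SSet G) (g : G) : ∃ A : Multiset ℂ, (∀ α ∈ A, ‖α‖ = 1) ∧
    ∀ r, 1 ≤ r → (A.map (fun α => α ^ r)).sum = ((S.tr (g ^ r) : ℤ) : ℂ) := by
  -- cycles
  let Z := Subgroup.zpowers g
  let l : S.B → ℕ := fun b => Function.minimalPeriod (g • ·) b
  have hfin : ∀ b : S.B, Function.minimalPeriod (g • ·) b = Fintype.card (orbit Z b) := by
    intro b
    have h := minimalPeriod_eq_card g b
    rw [h]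
  have lpos : ∀ b, 0 < l b := by
    intro b
    change 0 < Function.minimalPeriod (g • ·) b
    rw [hfin]
    have : Nonempty (orbit Z b) := ⟨⟨b, mem_orbit_self b⟩⟩
    exact Fintype.card_pos
  have hl : ∀ (b : S.B) (r : ℕ), g ^ r • b = b ↔ l b ∣ r := by
    intro b r
    rw [pow_smul_eq_iff_minimalPeriod_dvd]
  have hstep : ∀ b, l (g • b) = l b := by
    intro b
    change Function.minimalPeriod (g • ·) (g • b) = Function.minimalPeriod (g • ·) b
    apply Nat.dvd_antisymm
    · rw [← pow_smul_eq_iff_minimalPeriod_dvd]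
      rw [← mul_smul, ← pow_succ, pow_succ', mul_smul, (hl b _).mpr dvd_rfl]
    · rw [← pow_smul_eq_iff_minimalPeriod_dvd]
      have h1 : g ^ l (g • b) • (g • b) = g • b := (hl (g • b) _).mpr dvd_rfl
      rw [← mul_smul, ← pow_succ, pow_succ', mul_smul] at h1
      exact MulAction.injective g h1
  let F : ℕ → S.B → ℤ := fun r b => if g ^ r • b = b then (S.ε (g ^ r) b : ℤ) else 0
  have hFstep : ∀ r b, F r (g • b) = F r b := by
    intro r b
    simp only [F]
    by_cases h : g ^ r • b = b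
    · have h2 : g ^ r • (g • b) = g • b := by
        rw [← mul_smul, ← pow_succ, pow_succ', mul_smul, h]
      rw [if_pos h, if_pos h2, S.eps_conj g b r h]
    · have h2 : ¬ (g ^ r • (g • b) = g • b) := by
        intro h3
        apply h
        rw [← mul_smul, ← pow_succ, pow_succ', mul_smul] at h3
        exact MulAction.injective g h3
      rw [if_neg h, if_neg h2]
  have hFpow : ∀ (r m : ℕ) b, F r (g ^ m • b) = F r b := by
    intro r m
    induction m with
    | zero => intro b; rw [pow_zero, one_smul]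
    | succ m ih => intro b; rw [pow_succ, mul_smul, ih, hFstep]
  have hZfin : ∀ b : S.B, ∀ c ∈ orbit Z b, ∃ m : ℕ, c = g ^ m • b := by
    rintro b c ⟨⟨z, hz⟩, rfl⟩
    obtain ⟨i, rfl⟩ := Subgroup.mem_zpowers_iff.mp hz
    refine ⟨(i % (l b : ℤ)).toNat, ?_⟩
    have h0 : 0 ≤ i % (l b : ℤ) := Int.emod_nonneg _ (by have := lpos b; omega)
    change g ^ i • b = g ^ (i % (l b : ℤ)).toNat • b
    have h1 : g ^ i = g ^ (i % (l b : ℤ)).toNat * (g ^ (l b)) ^ (i / (l b : ℤ)) := by
      rw [← zpow_natCast, Int.toNat_of_nonneg h0, ← zpow_natCast, ← zpow_mul, ← zpow_add,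
        Int.emod_add_mul_ediv]
    rw [h1, mul_smul]
    have h2 : (g ^ l b) ∈ stabilizer G b := (hl b _).mpr dvd_rfl
    have h3 : (g ^ l b) ^ (i / (l b : ℤ)) ∈ stabilizer G b := Subgroup.zpow_mem _ h2 _
    rw [mem_stabilizer_iff.mp h3]
  have hForb : ∀ (r : ℕ) (b c : S.B), c ∈ orbit Z b → F r c = F r b := by
    intro r b c hc
    obtain ⟨m, rfl⟩ := hZfin b c hc
    exact hFpow r m b
  let Ω := orbitRel.Quotient Z S.B
  let η : S.B → ℂ := fun b => ((S.ε (g ^ l b) b : ℤ) : ℂ)
  have hη : ∀ b, ‖η b‖ = 1 := by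
    intro b
    rcases Int.units_eq_one_or (S.ε (g ^ l b) b) with h | h
    · simp only [η, h]; simp
    · simp only [η, h]; simp
  have hFη : ∀ (r : ℕ) (b : S.B), ((F r b : ℤ) : ℂ) = if l b ∣ r then η b ^ (r / l b) else 0 := by
    intro r b
    simp only [F]
    by_cases h : g ^ r • b = b
    · have h1 := (hl b r).mp h
      rw [if_pos h, if_pos h1]
      obtain ⟨m, rfl⟩ := h1
      rw [Nat.mul_div_cancel_left m (lpos b), pow_mul,
        S.eps_pow (g ^ l b) b ((hl b _).mpr dvd_rfl)]
      simp only [η]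
      push_cast
      rfl
    · rw [if_neg h, if_neg (fun h1 => h ((hl b r).mpr h1))]
      simp
  refine ⟨∑ ω : Ω, rootsOf (l ω.out) (η ω.out), ?_, ?_⟩
  · intro α hα
    rw [Multiset.mem_sum] at hα
    obtain ⟨ω, -, hω⟩ := hα
    exact norm_of_mem_rootsOf (lpos _) (hη _) hω
  · intro r hr
    rw [sum_map_finset_sum, SSet.tr_def]
    have h1 : ((∑ b : S.B, (if g ^ r • b = b then (S.ε (g ^ r) b : ℤ) else 0) : ℤ) : ℂ)
        = ∑ b : S.B, ((F r b : ℤ) : ℂ) := Int.cast_sum _ _
    rw [h1, ← Finset.sum_fiberwise Finset.univ (fun b : S.B => (Quotient.mk _ b : Ω))]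
    refine Finset.sum_congr rfl fun ω _ => ?_
    rw [sum_pow_rootsOf (lpos _)]
    have hmem : ∀ b : S.B, b ∈ Finset.univ.filter (fun b : S.B => (Quotient.mk _ b : Ω) = ω)
        ↔ b ∈ orbit Z ω.out := by
      intro b
      rw [Finset.mem_filter]
      constructor
      · rintro ⟨-, h⟩
        have h2 : (Quotient.mk _ b : Ω) = Quotient.mk _ ω.out := by
          rw [h, Quotient.out_eq]
        exact (Quotient.eq (r := orbitRel Z S.B)).mp h2
      · intro h
        refine ⟨Finset.mem_univ _, ?_⟩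
        have h2 : (Quotient.mk _ b : Ω) = Quotient.mk _ ω.out :=
          (Quotient.eq (r := orbitRel Z S.B)).mpr h
        rw [h2, Quotient.out_eq]
    rw [Finset.sum_subtype _ hmem]
    have h3 : ∀ b : orbit Z ω.out, ((F r (b : S.B) : ℤ) : ℂ) = ((F r ω.out : ℤ) : ℂ) := by
      intro b
      rw [hForb r ω.out b b.2]
    have h4 : ∑ b : orbit Z ω.out, ((F r (b : S.B) : ℤ) : ℂ) = (l ω.out : ℂ) * ((F r ω.out : ℤ) : ℂ) := by
      rw [Finset.sum_congr rfl (fun b _ => h3 b), Finset.sum_const, Finset.card_univ, nsmul_eq_mul]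
      congr 2
      exact (hfin ω.out).symm
    rw [h4, hFη]
    split_ifs with h5
    · rfl
    · rw [mul_zero]

end Pool.Agent.Mbar
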