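import Mathlib
import Pool.Agent.Mbar.Spec
import Pool.Agent.Mbar.Quot
import Pool.Agent.Mbar.Core3

/-! # L-functions from signed permutation characters of the Galois group -/

set_option linter.unusedSectionVars false

noncomputable section

namespace Pool.Agent.Mbar

open Pool.Agent.Helper4 Polynomial NumberField Module MulAction
open scoped Classical

section orbits

variable {G : Type} [Group G] {B : Type} [Fintype B] [MulAction G B]

lemma sum_orbits {R : Type*} [AddCommMonoid R] (F : B → R) :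
    ∑ b, F b = ∑ ω : orbitRel.Quotient G B, ∑ c : orbit G ω.out, F c := by
  rw [← Finset.sum_fiberwise Finset.univ (fun b : B => (Quotient.mk _ b : orbitRel.Quotient G B))]
  refine Finset.sum_congr rfl fun ω _ => ?_
  have hmem : ∀ x : B, x ∈ Finset.univ.filter (fun x : B => (Quotient.mk _ x : orbitRel.Quotient G B) = ω)
      ↔ x ∈ orbit G ω.out := by
    intro x
    rw [Finset.mem_filter]
    constructor
    · rintro ⟨-, h⟩
      have h2 : (Quotient.mk _ x : orbitRel.Quotient G B) = Quotient.mk _ ω.out := by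
        rw [h, Quotient.out_eq]
      exact (Quotient.eq (r := orbitRel G B)).mp h2
    · intro h
      refine ⟨Finset.mem_univ _, ?_⟩
      have h2 : (Quotient.mk _ x : orbitRel.Quotient G B) = Quotient.mk _ ω.out :=
        (Quotient.eq (r := orbitRel G B)).mpr h
      rw [h2, Quotient.out_eq]
  rw [Finset.sum_subtype _ hmem]

lemma orbit_sum [Fintype G] (b : B) (F : B → ℤ) :
    ∑ a : G, F (a • b) = (Nat.card (stabilizer G b) : ℤ) * ∑ c : orbit G b, F c := by
  rw [← Finset.sum_fiberwise Finset.univ (fun a : G => (⟨a • b, mem_orbit b a⟩ : orbit G b)),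
    Finset.mul_sum]
  refine Finset.sum_congr rfl fun c _ => ?_
  have h1 : ∀ a ∈ Finset.univ.filter (fun a : G => (⟨a • b, mem_orbit b a⟩ : orbit G b) = c),
      F (a • b) = F c := by
    intro a ha
    rw [← (Finset.mem_filter.mp ha).2]
  rw [Finset.sum_congr rfl h1, Finset.sum_const, nsmul_eq_mul]
  congr 2
  obtain ⟨a₀, ha₀⟩ := c.2
  have ha₀' : a₀ • b = c := ha₀
  rw [← Fintype.card_subtype, ← Nat.card_eq_fintype_card]
  symm
  refine Nat.card_congr ⟨fun h => ⟨a₀ * h, ?_⟩, fun a => ⟨a₀⁻¹ * a.1, ?_⟩, ?_, ?_⟩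
  · apply Subtype.ext
    change (a₀ * (h : G)) • b = c
    rw [mul_smul, mem_stabilizer_iff.mp h.2, ha₀']
  · rw [mem_stabilizer_iff, mul_smul, inv_smul_eq_iff, ha₀']
    exact congrArg Subtype.val a.2
  · intro h
    apply Subtype.ext
    simp
  · intro a
    apply Subtype.ext
    simp

end orbits

section chi

variable {G : Type} [Group G] (S : SSet G)

/-- the sign character of a stabiliser -/
def chiS (b : S.B) : stabilizer G b →* ℤˣ where
  toFun h := S.ε h b
  map_one' := S.eps_one b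
  map_mul' g h := by
    have h1 := S.mul g h b
    rw [mem_stabilizer_iff.mp h.2] at h1
    exact h1

/-- one orbit -/
def orbS (b : S.B) : SSet G where
  B := orbit G b
  fin := inferInstance
  act := inferInstance
  ε := fun g c => S.ε g c
  mul := fun g h c => S.mul g h c

lemma tr_orbS (b : S.B) (g : G) :
    (orbS S b).tr g = ∑ c : orbit G b, if g • (c : S.B) = c then (S.ε g c : ℤ) else 0 := by
  rw [SSet.tr_def]
  change (∑ c : orbit G b, @ite ℤ (g • c = c) (Classical.propDecidable _) (S.ε g c : ℤ) 0) = _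
  refine Finset.sum_congr rfl fun c _ => ?_
  have e1 : g • c = c ↔ g • (c : S.B) = c := by
    rw [Subtype.ext_iff]
    rfl
  by_cases h : g • (c : S.B) = c
  · rw [if_pos h]
    exact if_pos (e1.mpr h)
  · rw [if_neg h]
    exact if_neg (fun h' => h (e1.mp h'))

lemma tr_eq_sum_orbS (g : G) :
    S.tr g = ∑ ω : orbitRel.Quotient G S.B, (orbS S ω.out).tr g := by
  rw [SSet.tr_def, sum_orbits (G := G)]
  refine Finset.sum_congr rfl fun ω _ => ?_
  rw [tr_orbS]

/-- pullback -/
def pullS {G' : Type} [Group G'] (φ : G' →* G) : SSet G' where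
  B := S.B
  fin := inferInstance
  act := MulAction.compHom S.B φ
  ε := fun g b => S.ε (φ g) b
  mul := by
    intro g h b
    rw [map_mul]
    exact S.mul _ _ _

lemma tr_pullS {G' : Type} [Group G'] (φ : G' →* G) (g : G') : (pullS S φ).tr g = S.tr (φ g) := rfl

end chi

variable {f : ℤ[X]}

lemma card_mul_tr (S : SSet (GalR f)) (b : S.B) (g : GalR f) :
    (Nat.card (stabilizer (GalR f) b) : ℤ) * (orbS S b).tr g
      = 2 * Nat.card {a : GalR f // a⁻¹ * g * a ∈ kerH (stabilizer (GalR f) b) (chiS S b)}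
        - Nat.card {a : GalR f // a⁻¹ * g * a ∈ stabilizer (GalR f) b} := by
  cases nonempty_fintype (GalR f)
  rw [tr_orbS, ← orbit_sum b (fun c => if g • c = c then (S.ε g c : ℤ) else 0)]
  rw [Nat.card_eq_fintype_card, Nat.card_eq_fintype_card, Fintype.card_subtype,
    Fintype.card_subtype, Finset.card_filter, Finset.card_filter]
  push_cast
  rw [Finset.mul_sum, ← Finset.sum_sub_distrib]
  refine Finset.sum_congr rfl fun a _ => ?_
  have e1 : g • a • b = a • b ↔ a⁻¹ * g * a ∈ stabilizer (GalR f) b := by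
    rw [mem_stabilizer_iff, mul_smul, mul_smul, inv_smul_eq_iff]
  by_cases h : a⁻¹ * g * a ∈ stabilizer (GalR f) b
  · rw [if_pos h, if_pos (e1.mpr h)]
    have e2 : S.ε g (a • b) = S.ε (a⁻¹ * g * a) b := by
      have h1 := S.mul a (a⁻¹ * g * a) b
      rw [mem_stabilizer_iff.mp h, show a * (a⁻¹ * g * a) = g * a by group, S.mul g a b,
        mul_comm (S.ε g (a • b))] at h1
      exact mul_left_cancel h1
    rw [e2]
    have e3 : a⁻¹ * g * a ∈ kerH (stabilizer (GalR f) b) (chiS S b) ↔ S.ε (a⁻¹ * g * a) b = 1 := by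
      rw [mem_kerH]
      exact ⟨fun h => h.2, fun h' => ⟨h, h'⟩⟩
    rcases Int.units_eq_one_or (S.ε (a⁻¹ * g * a) b) with h2 | h2
    · rw [if_pos (e3.mpr h2), h2]
      norm_num
    · have h3 : ¬ (a⁻¹ * g * a ∈ kerH (stabilizer (GalR f) b) (chiS S b)) := by
        rw [e3, h2]
        decide
      rw [if_neg h3, h2]
      norm_num
  · have h3 : ¬ (a⁻¹ * g * a ∈ kerH (stabilizer (GalR f) b) (chiS S b)) := fun h4 => h (kerH_le _ _ h4)
    rw [if_neg h, if_neg h3, if_neg (fun h4 => h (e1.mp h4))]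
    norm_num

/-- the trace of a Frobenius power on an orbit counts points of two number fields -/
lemma tr_orbS_eq (hf : f.Monic) (hsep : (f.map (Int.castRingHom ℚ)).Separable)
    {p : ℕ} [hp : Fact p.Prime] {Ω : Type*} [Field Ω] [IsAlgClosed Ω] [CharP Ω p]
    (hsep2 : (f.map (Int.castRingHom Ω)).Separable)
    (φ₀ : 𝓞 (LL f) →+* Ω) (τ : GalR f) (hτ : ∀ x, φ₀ (τ • x) = φ₀ x ^ p)
    (S : SSet (GalR f)) (b : S.B) (r : ℕ) (hr : 1 ≤ r) :
    (orbS S b).tr (τ ^ r) = (multH (stabilizer (GalR f) b) (chiS S b) : ℤ) *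
      Nat.card (𝓞 (fieldH (kerH (stabilizer (GalR f) b) (chiS S b))) →+* GaloisField p r)
      - Nat.card (𝓞 (fieldH (stabilizer (GalR f) b)) →+* GaloisField p r) := by
  have h1 := card_mul_tr S b (τ ^ r)
  rw [← card_hom_fieldH hf hsep hsep2 φ₀ τ hτ _ r hr,
    ← card_hom_fieldH hf hsep hsep2 φ₀ τ hτ _ r hr] at h1
  have h2 := card_multH (stabilizer (GalR f) b) (chiS S b)
  have h3 : (Nat.card (stabilizer (GalR f) b) : ℤ) ≠ 0 := by
    exact_mod_cast Nat.card_pos.ne'
  apply mul_left_cancel₀ h3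
  rw [h1]
  have h4 : ((multH (stabilizer (GalR f) b) (chiS S b) : ℤ) * Nat.card (stabilizer (GalR f) b))
      = 2 * Nat.card (kerH (stabilizer (GalR f) b) (chiS S b)) := by exact_mod_cast h2
  push_cast
  linear_combination (-(Nat.card (𝓞 (fieldH (kerH (stabilizer (GalR f) b) (chiS S b))) →+*
    GaloisField p r) : ℤ)) * h4

/-- **L-functions from signed permutation characters.** -/
theorem L_main (hf : f.Monic) (hsep : (f.map (Int.castRingHom ℚ)).Separable) {n : ℕ}
    (hn : f.natDegree = n) (D : ℕ) (S : ℕ → SSet (Equiv.Perm (Fin n)))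
    (N : (p : ℕ) → [Fact p.Prime] → ℕ → ℕ)
    (hN : ∀ (p : ℕ) [Fact p.Prime], (f.map (Int.castRingHom (ZMod p))).Separable →
      ∀ (e : Fin n ≃ {x : AlgebraicClosure (ZMod p) // f.eval₂ (Int.castRingHom _) x = 0})
        (τ : Equiv.Perm (Fin n)), (∀ i, (e (τ i)).1 = (e i).1 ^ p) → ∀ r, 1 ≤ r →
        (N p r : ℤ) = ∑ k ∈ Finset.range D, (p : ℤ) ^ (r * k) * (S k).tr (τ ^ r)) :
    Q1Sys {p | p.Prime ∧ ¬ (f.map (Int.castRingHom (ZMod p))).Separable} N := by
  -- the roots
  have hcardR : Fintype.card {α // α ∈ rootsR f} = n := by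
    rw [Fintype.card_coe, (rootsR_facts hf hsep).1, hn]
  let e₀ : Fin n ≃ {α // α ∈ rootsR f} := (Fintype.equivFinOfCardEq hcardR).symm
  let act : MulAction (GalR f) {α // α ∈ rootsR f} :=
    { smul := fun g α => ⟨g • α.1, smul_mem_rootsR hf g α.2⟩
      one_smul := fun α => Subtype.ext (one_smul _ α.1)
      mul_smul := fun g h α => Subtype.ext (mul_smul g h α.1) }
  let ρ : GalR f →* Equiv.Perm (Fin n) :=
    (e₀.symm.permCongrHom.toMonoidHom).comp (MulAction.toPermHom (GalR f) {α // α ∈ rootsR f})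
  have hρ : ∀ g i, ((e₀ (ρ g i)).1 : 𝓞 (LL f)) = g • (e₀ i).1 := by
    intro g i
    have : ρ g i = e₀.symm (g • e₀ i) := rfl
    rw [this, Equiv.apply_symm_apply]
    rfl
  let T : ℕ → SSet (GalR f) := fun k => pullS (S k) ρ
  let β := Σ k : Fin D, orbitRel.Quotient (GalR f) (T k).B
  -- Frobenius
  have hfrob : ∀ (p : ℕ) [Fact p.Prime], (f.map (Int.castRingHom (ZMod p))).Separable →
      ∃ (φ₀ : 𝓞 (LL f) →+* AlgebraicClosure (ZMod p)) (τ : GalR f),
        (∀ x, φ₀ (τ • x) = φ₀ x ^ p) ∧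
        (f.map (Int.castRingHom (AlgebraicClosure (ZMod p)))).Separable ∧
        ∀ r, 1 ≤ r → (N p r : ℤ) = ∑ k ∈ Finset.range D, (p : ℤ) ^ (r * k) * (T k).tr (τ ^ r) := by
    intro p hp hsepp
    let Ω := AlgebraicClosure (ZMod p)
    have : CharP Ω p := charP_of_injective_algebraMap (algebraMap (ZMod p) Ω).injective p
    obtain ⟨φ₀⟩ := exists_hom_of_char (LL f) p Ω
    have hsepΩ : (f.map (Int.castRingHom Ω)).Separable := by
      have h1 := hsepp.map (f := algebraMap (ZMod p) Ω)
      rw [Polynomial.map_map] at h1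
      have h3 : (algebraMap (ZMod p) Ω).comp (Int.castRingHom (ZMod p)) = Int.castRingHom Ω :=
        RingHom.ext_int _ _
      rwa [h3] at h1
    obtain ⟨τ, hτ⟩ := exists_conj_hom (G := GalR f) (RingHom.id (𝓞 (LL f)))
      Function.injective_id φ₀ ((frobenius Ω p).comp φ₀) (galR_invariant f)
    have hτ' : ∀ x, φ₀ (τ • x) = φ₀ x ^ p := fun x => (hτ x).symm
    refine ⟨φ₀, τ, hτ', hsepΩ, ?_⟩
    have hinj : Set.InjOn φ₀ (rootsR f) := injOn_roots φ₀ hf hsep hsepΩ
    have hroot : ∀ α ∈ rootsR f, f.eval₂ (Int.castRingHom Ω) (φ₀ α) = 0 := by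
      intro α hα
      rw [mem_rootsR hf, IsRoot.def, eval_map] at hα
      have h1 := congrArg φ₀ hα
      rw [hom_eval₂, map_zero] at h1
      have h3 : φ₀.comp (Int.castRingHom (𝓞 (LL f))) = Int.castRingHom Ω := RingHom.ext_int _ _
      rwa [h3] at h1
    let m : Fin n → {x : Ω // f.eval₂ (Int.castRingHom Ω) x = 0} := fun i =>
      ⟨φ₀ (e₀ i).1, hroot _ (e₀ i).2⟩
    have hm : Function.Bijective m := by
      constructor
      · intro i j h
        have h1 := hinj (e₀ i).2 (e₀ j).2 (congrArg Subtype.val h)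
        exact e₀.injective (Subtype.ext h1)
      · rintro ⟨x, hx⟩
        have h2 : f.map (Int.castRingHom Ω) = ∏ α ∈ rootsR f, (X - C (φ₀ α)) := by
          have h3 : (f.map (Int.castRingHom (𝓞 (LL f)))).map φ₀ = f.map (Int.castRingHom Ω) := by
            rw [Polynomial.map_map]
            congr 1
            exact RingHom.ext_int _ _
          rw [← h3, (rootsR_facts hf hsep).2, Polynomial.map_prod]
          simp
        rw [← eval_map, h2, eval_prod, Finset.prod_eq_zero_iff] at hx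
        obtain ⟨α, hα, hα2⟩ := hx
        rw [eval_sub, eval_X, eval_C, sub_eq_zero] at hα2
        refine ⟨e₀.symm ⟨α, hα⟩, Subtype.ext ?_⟩
        simp only [m]
        rw [Equiv.apply_symm_apply]
        exact hα2.symm
    let e : Fin n ≃ {x : Ω // f.eval₂ (Int.castRingHom Ω) x = 0} := Equiv.ofBijective m hm
    intro r hr
    have h5 := hN p hsepp e (ρ τ) (by
      intro i
      change φ₀ (e₀ (ρ τ i)).1 = (φ₀ (e₀ i).1) ^ p
      rw [hρ, hτ']) r hr
    rw [h5]
    refine Finset.sum_congr rfl fun k _ => ?_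
    congr 1
    change (S k).tr (ρ τ ^ r) = (pullS (S k) ρ).tr (τ ^ r)
    rw [tr_pullS, map_pow]
  refine core3 (β := β) (fun b => (b.1 : ℕ))
    (fun b => fieldH (kerH (stabilizer (GalR f) b.2.out) (chiS (T b.1) b.2.out)))
    (fun b => fieldH (stabilizer (GalR f) b.2.out))
    (fun b => multH (stabilizer (GalR f) b.2.out) (chiS (T b.1) b.2.out)) (fun b => quot_data _ _)
    _ N ?_ ?_
  · intro p hp hpZ
    have hsepp : (f.map (Int.castRingHom (ZMod p))).Separable := by
      by_contra h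
      exact hpZ ⟨hp.out, h⟩
    obtain ⟨φ₀, τ, hτ, hsepΩ, -⟩ := hfrob p hsepp
    have : CharP (AlgebraicClosure (ZMod p)) p :=
      charP_of_injective_algebraMap (algebraMap (ZMod p) (AlgebraicClosure (ZMod p))).injective p
    choose A hA1 hA2 using fun b : β => exists_spec (orbS (T b.1) b.2.out) τ
    refine ⟨A, hA1, fun b r hr => ?_⟩
    rw [hA2 b r hr, tr_orbS_eq hf hsep hsepΩ φ₀ τ hτ (T b.1) b.2.out r hr]
    push_cast
    rfl
  · intro p hp hpZ r hr
    have hsepp : (f.map (Int.castRingHom (ZMod p))).Separable := by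
      by_contra h
      exact hpZ ⟨hp.out, h⟩
    obtain ⟨φ₀, τ, hτ, hsepΩ, hNr⟩ := hfrob p hsepp
    have : CharP (AlgebraicClosure (ZMod p)) p :=
      charP_of_injective_algebraMap (algebraMap (ZMod p) (AlgebraicClosure (ZMod p))).injective p
    have h1 : (N p r : ℂ) = ((N p r : ℤ) : ℂ) := by push_cast; rfl
    rw [h1, hNr r hr, Fintype.sum_sigma, Finset.sum_range]
    push_cast
    refine Finset.sum_congr rfl fun k _ => ?_
    rw [tr_eq_sum_orbS, ← pow_mul]
    push_cast
    rw [Finset.mul_sum]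
    refine Finset.sum_congr rfl fun ω _ => ?_
    rw [tr_orbS_eq hf hsep hsepΩ φ₀ τ hτ (T k) ω.out r hr]
    push_cast
    rfl

end Pool.Agent.Mbar
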