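import Mathlib
import Pool.Agent.Mbar.ASM
import Pool.Agent.Mbar.LMain
import Pool.Agent.helper4.FiniteBad

/-! # L-functions of the twisted forms of the moduli spaces of stable rational curves -/

noncomputable section

namespace Pool.Agent.Mbar

open Pool.Agent.Helper4 Polynomial

open scoped Classical

section transport

variable {Ω : Type} [Field Ω] {R R' : Type}

lemma IsCR.comp_equiv {lam : R' → R' → R' → R' → OnePoint Ω} (h : IsCR lam) (e : R ≃ R') :
    IsCR (fun i j k l => lam (e i) (e j) (e k) (e l)) := by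
  have hD : ∀ i j k, Dist3 i j k ↔ Dist3 (e i) (e j) (e k) := fun i j k => by
    unfold Dist3
    simp only [ne_eq, EmbeddingLike.apply_eq_iff_eq]
  have hO : ∀ l i j k, Out l i j k ↔ Out (e l) (e i) (e j) (e k) := fun l i j k => by
    unfold Out
    simp only [ne_eq, EmbeddingLike.apply_eq_iff_eq]
  constructor
  · intro i j k l h1
    exact h.junk _ _ _ _ (by rwa [← hD, ← hO])
  · intro i j k l h1 h2
    exact h.inv _ _ _ _ ((hD _ _ _).mp h1) ((hO _ _ _ _).mp h2)
  · intro i j k l h1 h2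
    exact h.swap _ _ _ _ ((hD _ _ _).mp h1) ((hO _ _ _ _).mp h2)
  · intro i j k l h1 h2
    exact h.one_sub _ _ _ _ ((hD _ _ _).mp h1) ((hO _ _ _ _).mp h2)
  · intro i j k l m h1 h2 h3 h4
    exact h.mul _ _ _ _ _ ((hD _ _ _).mp h1) ((hO _ _ _ _).mp h2) ((hO _ _ _ _).mp h3)
      (fun h5 => h4 (e.injective h5))

/-- the number of points depends only on the permutation up to relabelling -/
lemma crCount_congr (q : ℕ) (e : R ≃ R') (τ : Equiv.Perm R) (τ' : Equiv.Perm R')
    (h : ∀ i, e (τ i) = τ' (e i)) : crCount Ω q τ = crCount Ω q τ' := by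
  unfold crCount
  have h' : ∀ i, e.symm (τ' i) = τ (e.symm i) := fun i => by
    rw [Equiv.symm_apply_eq, h, Equiv.apply_symm_apply]
  refine Nat.card_congr ⟨fun lam => ⟨fun i j k l => lam.1 (e.symm i) (e.symm j) (e.symm k)
    (e.symm l), lam.2.1.comp_equiv e.symm, fun i j k l => ?_⟩,
    fun lam => ⟨fun i j k l => lam.1 (e i) (e j) (e k) (e l), lam.2.1.comp_equiv e,
    fun i j k l => ?_⟩, fun lam => ?_, fun lam => ?_⟩
  · show lam.1 (e.symm (τ' i)) (e.symm (τ' j)) (e.symm (τ' k)) (e.symm (τ' l)) = _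
    rw [h', h', h', h']
    exact lam.2.2 _ _ _ _
  · show lam.1 (e (τ i)) (e (τ j)) (e (τ k)) (e (τ l)) = _
    rw [h, h, h, h]
    exact lam.2.2 _ _ _ _
  · apply Subtype.ext
    funext i j k l
    simp
  · apply Subtype.ext
    funext i j k l
    simp

end transport

/-- the graded pieces of a polynomial of signed permutation characters -/
lemma exists_family {G : Type} [Group G] [Finite G] {t : G → ℤ[X]} (h : IsSPP t) :
    ∃ (D : ℕ) (S : ℕ → SSet G), ∀ (g : G) (q : ℤ),
      (t g).eval q = ∑ k ∈ Finset.range D, q ^ k * (S k).tr g := by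
  cases nonempty_fintype G
  choose S hS using h
  refine ⟨(Finset.univ.sup fun g : G => (t g).natDegree) + 1, S, fun g q => ?_⟩
  rw [eval_eq_sum_range' (n := (Finset.univ.sup fun g : G => (t g).natDegree) + 1)]
  · refine Finset.sum_congr rfl fun k _ => ?_
    have h1 : (t g).coeff k = (S k).tr g := hS k g
    rw [h1, mul_comm]
  · have := Finset.le_sup (f := fun g : G => (t g).natDegree) (Finset.mem_univ g)
    exact Nat.lt_succ_of_le this

/-- the roots of `f` in an algebraic closure of the prime field -/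
abbrev RootsIn (f : ℤ[X]) (p : ℕ) [Fact p.Prime] : Type :=
  {x : AlgebraicClosure (ZMod p) // f.eval₂ (Int.castRingHom _) x = 0}

/-- the number of points over the field with `p ^ r` elements of the twist of the moduli space of
stable rational curves by the polynomial `f` -/
def mbarCount (f : ℤ[X]) (p : ℕ) [Fact p.Prime] (r : ℕ) : ℕ :=
  Nat.card {lam : RootsIn f p → RootsIn f p → RootsIn f p → RootsIn f p →
      OnePoint (AlgebraicClosure (ZMod p)) // IsCR lam ∧
    ∀ i j k l i' j' k' l' : RootsIn f p, i'.1 = i.1 ^ (p ^ r) → j'.1 = j.1 ^ (p ^ r) →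
      k'.1 = k.1 ^ (p ^ r) → l'.1 = l.1 ^ (p ^ r) →
      lam i' j' k' l' = OnePoint.map (fun x => x ^ (p ^ r)) (lam i j k l)}

lemma mbarCount_eq (f : ℤ[X]) (p : ℕ) [Fact p.Prime] (r : ℕ) {n : ℕ} (e : Fin n ≃ RootsIn f p)
    (τ : Equiv.Perm (Fin n)) (hτ : ∀ i, (e (τ i)).1 = (e i).1 ^ p) :
    mbarCount f p r = crCount (AlgebraicClosure (ZMod p)) (p ^ r) (τ ^ r) := by
  have h1 : ∀ i, (e ((τ ^ r) i)).1 = (e i).1 ^ (p ^ r) := by
    induction r with
    | zero => intro i; simp
    | succ r ih =>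
      intro i
      rw [pow_succ', Equiv.Perm.mul_apply, hτ, ih, ← pow_mul, pow_succ]
  rw [crCount_congr (p ^ r) e (τ ^ r) ((e.symm.trans (τ ^ r)).trans e) (fun i => by simp)]
  unfold mbarCount crCount
  have h2 : ∀ x y : RootsIn f p, y.1 = x.1 ^ (p ^ r) ↔
      y = ((e.symm.trans (τ ^ r)).trans e) x := by
    intro x y
    have h3 : (((e.symm.trans (τ ^ r)).trans e) x).1 = x.1 ^ (p ^ r) := by
      show (e ((τ ^ r) (e.symm x))).1 = x.1 ^ (p ^ r)
      rw [h1, Equiv.apply_symm_apply]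
    rw [← h3]
    exact ⟨fun h => Subtype.ext h, fun h => congrArg Subtype.val h⟩
  refine Nat.card_congr (Equiv.subtypeEquivRight fun lam => and_congr_right fun _ => ?_)
  constructor
  · intro h i j k l
    exact h i j k l _ _ _ _ ((h2 _ _).mpr rfl) ((h2 _ _).mpr rfl) ((h2 _ _).mpr rfl)
      ((h2 _ _).mpr rfl)
  · intro h i j k l i' j' k' l' hi hj hk hl
    rw [(h2 _ _).mp hi, (h2 _ _).mp hj, (h2 _ _).mp hk, (h2 _ _).mp hl]
    exact h i j k l

/-- the moduli space of stable rational curves: signed permutation characters and L-functions -/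
theorem mbar_main (n : ℕ) (hn : 3 ≤ n) :
    ∃ (D : ℕ) (S : ℕ → SSet (Equiv.Perm (Fin n))),
      (∀ (Ω : Type) [Field Ω] (q : ℕ), Setup Ω q → ∀ τ : Equiv.Perm (Fin n),
        (crCount Ω q τ : ℤ) = ∑ k ∈ Finset.range D, (q : ℤ) ^ k * (S k).tr τ) ∧
      ∀ f : ℤ[X], f.Monic → (f.map (Int.castRingHom ℚ)).Separable → f.natDegree = n →
        Q1Sys {p | p.Prime ∧ ¬ (f.map (Int.castRingHom (ZMod p))).Separable}
          (fun p _ r => mbarCount f p r) := by
  obtain ⟨t, ht, ht2⟩ := signed_perm (Fin n) (by rwa [Fintype.card_fin])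
  obtain ⟨D, S, hS⟩ := exists_family ht
  refine ⟨D, S, fun Ω _ q hq τ => by rw [ht2 Ω q hq τ, hS], fun f hf hsep hdeg => ?_⟩
  refine L_main hf hsep hdeg D S _ ?_
  intro p hp hsepp e τ hτ r hr
  show (mbarCount f p r : ℤ) = _
  rw [mbarCount_eq f p r e τ hτ]
  have hset : Setup (AlgebraicClosure (ZMod p)) (p ^ r) :=
    ⟨inferInstance, p, r, hp.out,
      charP_of_injective_algebraMap (algebraMap (ZMod p) (AlgebraicClosure (ZMod p))).injective p,
      hr, rfl⟩
  rw [ht2 _ _ hset, hS]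
  refine Finset.sum_congr rfl fun k _ => ?_
  push_cast
  rw [pow_mul]

end Pool.Agent.Mbar
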