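import Mathlib
import Pool.Agent.Mbar.SSet
import Pool.Agent.Mbar.Defs

/-! # Lexicographic centre spaces: recursion -/

set_option linter.unusedSectionVars false
set_option linter.unusedVariables false

noncomputable section

namespace Pool.Agent.Mbar

open Polynomial

open scoped Classical

variable {H : Type} [Group H] {P : Type} [Fintype P] [MulAction H P]

section generic

lemma map_union_pm (g : H) (S T : Finset P) :
    (S ∪ T).map (pm P g).toEmbedding = S.map (pm P g).toEmbedding ∪ T.map (pm P g).toEmbedding := by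
  rw [Finset.map_union]

lemma HStable.map_eq {U : Finset P} (hU : HStable H U) (g : H) :
    U.map (pm P g).toEmbedding = U := by
  ext x
  rw [Finset.mem_map_equiv]
  have h1 : (pm P g).symm x = g⁻¹ • x := rfl
  rw [h1, hU g, smul_inv_smul]

lemma HStable.map_subset {U : Finset P} (hU : HStable H U) (g : H) {S : Finset P} (h : S ⊆ U) :
    S.map (pm P g).toEmbedding ⊆ U := by
  have h1 := Finset.map_subset_map (f := (pm P g).toEmbedding).mpr h
  rwa [hU.map_eq g] at h1

lemma mem_fx {U S : Finset P} {g : H} :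
    S ∈ fx U g ↔ S ⊆ U ∧ S.map (pm P g).toEmbedding = S := by
  unfold fx
  rw [Finset.mem_filter, Finset.mem_powerset]

lemma mem_ax {U S : Finset P} {g : H} :
    S ∈ ax U g ↔ S ⊆ U ∧ S.map (pm P g).toEmbedding = U \ S := by
  unfold ax
  rw [Finset.mem_filter, Finset.mem_powerset]

lemma union_inter_left {U W S1 S2 : Finset P} (hd : Disjoint U W) (h1 : S1 ⊆ U) (h2 : S2 ⊆ W) :
    (S1 ∪ S2) ∩ U = S1 := by
  ext x
  rw [Finset.mem_inter, Finset.mem_union]
  constructor
  · rintro ⟨h | h, hU⟩
    · exact h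
    · exact absurd (h2 h) (Finset.disjoint_left.mp hd hU)
  · intro h
    exact ⟨Or.inl h, h1 h⟩

lemma union_inter_right {U W S1 S2 : Finset P} (hd : Disjoint U W) (h1 : S1 ⊆ U) (h2 : S2 ⊆ W) :
    (S1 ∪ S2) ∩ W = S2 := by
  rw [Finset.union_comm]
  exact union_inter_left hd.symm h2 h1

/-- fixed subsets of a disjoint union -/
lemma sum_fx_union {R : Type*} [AddCommMonoid R] {U W : Finset P} (hU : HStable H U)
    (hW : HStable H W) (hd : Disjoint U W) (g : H) (φ : Finset P → R) :
    ∑ S ∈ fx (U ∪ W) g, φ S = ∑ S1 ∈ fx U g, ∑ S2 ∈ fx W g, φ (S1 ∪ S2) := by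
  rw [← Finset.sum_product']
  symm
  refine Finset.sum_bij (fun x _ => x.1 ∪ x.2) ?_ ?_ ?_ ?_
  · rintro ⟨S1, S2⟩ h
    rw [Finset.mem_product, mem_fx, mem_fx] at h
    rw [mem_fx]
    refine ⟨Finset.union_subset_union h.1.1 h.2.1, ?_⟩
    rw [map_union_pm, h.1.2, h.2.2]
  · rintro ⟨S1, S2⟩ h ⟨T1, T2⟩ h' he
    rw [Finset.mem_product, mem_fx, mem_fx] at h h'
    simp only at he h h'
    have e1 : S1 = T1 := by
      rw [← union_inter_left hd h.1.1 h.2.1, he, union_inter_left hd h'.1.1 h'.2.1]
    have e2 : S2 = T2 := by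
      rw [← union_inter_right hd h.1.1 h.2.1, he, union_inter_right hd h'.1.1 h'.2.1]
    rw [e1, e2]
  · intro S h
    rw [mem_fx] at h
    refine ⟨(S ∩ U, S ∩ W), ?_, ?_⟩
    · rw [Finset.mem_product, mem_fx, mem_fx]
      refine ⟨⟨Finset.inter_subset_right, ?_⟩, ⟨Finset.inter_subset_right, ?_⟩⟩
      · rw [Finset.map_inter, h.2, hU.map_eq]
      · rw [Finset.map_inter, h.2, hW.map_eq]
    · simp only
      rw [← Finset.inter_union_distrib_left]
      exact Finset.inter_eq_left.mpr h.1
  · rintro ⟨S1, S2⟩ _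
    rfl

/-- subsets of a disjoint union mapped to their complement -/
lemma sum_ax_union {R : Type*} [AddCommMonoid R] {U W : Finset P} (hU : HStable H U)
    (hW : HStable H W) (hd : Disjoint U W) (g : H) (φ : Finset P → R) :
    ∑ S ∈ ax (U ∪ W) g, φ S = ∑ S1 ∈ ax U g, ∑ S2 ∈ ax W g, φ (S1 ∪ S2) := by
  rw [← Finset.sum_product']
  symm
  refine Finset.sum_bij (fun x _ => x.1 ∪ x.2) ?_ ?_ ?_ ?_
  · rintro ⟨S1, S2⟩ h
    rw [Finset.mem_product, mem_ax, mem_ax] at h
    rw [mem_ax]
    refine ⟨Finset.union_subset_union h.1.1 h.2.1, ?_⟩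
    rw [map_union_pm, h.1.2, h.2.2]
    ext x
    simp only [Finset.mem_union, Finset.mem_sdiff]
    constructor
    · rintro (⟨h3, h4⟩ | ⟨h3, h4⟩)
      · exact ⟨Or.inl h3, fun h5 => h5.elim h4 (fun h6 => Finset.disjoint_left.mp hd h3 (h.2.1 h6))⟩
      · exact ⟨Or.inr h3, fun h5 => h5.elim (fun h6 => Finset.disjoint_left.mp hd (h.1.1 h6) h3) h4⟩
    · rintro ⟨h3 | h3, h4⟩
      · exact Or.inl ⟨h3, fun h5 => h4 (Or.inl h5)⟩
      · exact Or.inr ⟨h3, fun h5 => h4 (Or.inr h5)⟩
  · rintro ⟨S1, S2⟩ h ⟨T1, T2⟩ h' he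
    rw [Finset.mem_product, mem_ax, mem_ax] at h h'
    simp only at he h h'
    have e1 : S1 = T1 := by
      rw [← union_inter_left hd h.1.1 h.2.1, he, union_inter_left hd h'.1.1 h'.2.1]
    have e2 : S2 = T2 := by
      rw [← union_inter_right hd h.1.1 h.2.1, he, union_inter_right hd h'.1.1 h'.2.1]
    rw [e1, e2]
  · intro S h
    rw [mem_ax] at h
    refine ⟨(S ∩ U, S ∩ W), ?_, ?_⟩
    · rw [Finset.mem_product, mem_ax, mem_ax]
      refine ⟨⟨Finset.inter_subset_right, ?_⟩, ⟨Finset.inter_subset_right, ?_⟩⟩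
      · rw [Finset.map_inter, h.2, hU.map_eq]
        ext x
        simp only [Finset.mem_inter, Finset.mem_sdiff, Finset.mem_union]
        tauto
      · rw [Finset.map_inter, h.2, hW.map_eq]
        ext x
        simp only [Finset.mem_inter, Finset.mem_sdiff, Finset.mem_union]
        tauto
    · simp only
      rw [← Finset.inter_union_distrib_left]
      exact Finset.inter_eq_left.mpr h.1
  · rintro ⟨S1, S2⟩ _
    rfl

/-- complements of fixed subsets -/
lemma sum_fx_compl {R : Type*} [AddCommMonoid R] {U : Finset P} (hU : HStable H U) (g : H)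
    (φ : Finset P → R) : ∑ S ∈ fx U g, φ S = ∑ S ∈ fx U g, φ (U \ S) := by
  have hmem : ∀ S ∈ fx U g, U \ S ∈ fx U g := by
    intro S h
    rw [mem_fx] at h ⊢
    refine ⟨Finset.sdiff_subset, ?_⟩
    rw [Finset.map_sdiff, hU.map_eq, h.2]
  refine Finset.sum_bij (fun S _ => U \ S) hmem ?_ ?_ ?_
  · intro S h T h' he
    rw [mem_fx] at h h'
    rw [← Finset.sdiff_sdiff_eq_self h.1, he, Finset.sdiff_sdiff_eq_self h'.1]
  · intro S h
    refine ⟨U \ S, hmem S h, ?_⟩
    exact Finset.sdiff_sdiff_eq_self (mem_fx.mp h).1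
  · intro S h
    rw [Finset.sdiff_sdiff_eq_self (mem_fx.mp h).1]

lemma card_le_of_mem_fx {U S : Finset P} {g : H} (h : S ∈ fx U g) : S.card ≤ U.card :=
  Finset.card_le_card (mem_fx.mp h).1

/-- sums over fixed subsets of a function of the cardinality -/
lemma sum_fx_card (U : Finset P) (g : H) (ψ : ℕ → ℤ[X]) :
    ∑ S ∈ fx U g, ψ S.card = ∑ a ∈ Finset.range (U.card + 1), C (Mx U a g) * ψ a := by
  rw [← Finset.sum_fiberwise_of_maps_to (s := fx U g) (t := Finset.range (U.card + 1))
    (g := fun S => S.card) (fun S h => Finset.mem_range.mpr (by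
      have := card_le_of_mem_fx h
      omega))]
  refine Finset.sum_congr rfl fun a _ => ?_
  have h1 : ∀ S ∈ (fx U g).filter (fun S => S.card = a), ψ S.card = ψ a := by
    intro S hS
    rw [(Finset.mem_filter.mp hS).2]
  rw [Finset.sum_congr rfl h1, Finset.sum_const, nsmul_eq_mul]
  unfold Mx
  simp

lemma uni_stable {l : List (Finset P)} (hl : GoodList H l) : HStable H (uni l) := by
  induction l with
  | nil => intro g x; simp [uni]
  | cons U l ih =>
    have h1 : GoodList H l := ⟨fun V hV => hl.stable V (List.mem_cons_of_mem _ hV),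
      fun V hV => hl.nonempty V (List.mem_cons_of_mem _ hV), (List.pairwise_cons.mp hl.disj).2⟩
    intro g x
    change x ∈ U ∪ uni l ↔ g • x ∈ U ∪ uni l
    rw [Finset.mem_union, Finset.mem_union, hl.stable U List.mem_cons_self g x, ih h1 g x]

lemma GoodList.tail {U : Finset P} {l : List (Finset P)} (hl : GoodList H (U :: l)) :
    GoodList H l := ⟨fun V hV => hl.stable V (List.mem_cons_of_mem _ hV),
      fun V hV => hl.nonempty V (List.mem_cons_of_mem _ hV), (List.pairwise_cons.mp hl.disj).2⟩

lemma GoodList.head {U : Finset P} {l : List (Finset P)} (hl : GoodList H (U :: l)) :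
    HStable H U := hl.stable U List.mem_cons_self

lemma disjoint_uni {U : Finset P} {l : List (Finset P)} (h : ∀ V ∈ l, Disjoint U V) :
    Disjoint U (uni l) := by
  induction l with
  | nil => exact Finset.disjoint_empty_right U
  | cons V l ih =>
    change Disjoint U (V ∪ uni l)
    rw [Finset.disjoint_union_right]
    exact ⟨h V List.mem_cons_self, ih fun W hW => h W (List.mem_cons_of_mem _ hW)⟩

lemma GoodList.disj' {U : Finset P} {l : List (Finset P)} (hl : GoodList H (U :: l)) :
    Disjoint U (uni l) := disjoint_uni (List.pairwise_cons.mp hl.disj).1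

lemma card_uni_cons {U : Finset P} {l : List (Finset P)} (hl : GoodList H (U :: l)) :
    (uni (U :: l)).card = U.card + (uni l).card := Finset.card_union_of_disjoint hl.disj'

/-- `lexs` only depends on the part in the union of the list -/
lemma lexs_congr (l : List (Finset P)) (S T : Finset P) (h : ∀ U ∈ l, S ∩ U = T ∩ U) :
    lexs l S = lexs l T := by
  induction l with
  | nil => rfl
  | cons U l ih =>
    unfold lexs
    rw [h U List.mem_cons_self, ih fun V hV => h V (List.mem_cons_of_mem _ hV)]

lemma subset_uni {U : Finset P} {l : List (Finset P)} (h : U ∈ l) : U ⊆ uni l := by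
  induction l with
  | nil => simp at h
  | cons V l ih =>
    change U ⊆ V ∪ uni l
    rcases List.mem_cons.mp h with rfl | h
    · exact Finset.subset_union_left
    · exact (ih h).trans Finset.subset_union_right

lemma lexs_union {U : Finset P} {l : List (Finset P)} (hl : GoodList H (U :: l)) {S1 S2 : Finset P}
    (h1 : S1 ⊆ U) (h2 : S2 ⊆ uni l) : lexs l (S1 ∪ S2) = lexs l S2 := by
  apply lexs_congr
  intro V hV
  have hd : Disjoint U V := (List.pairwise_cons.mp hl.disj).1 V hV
  rw [Finset.union_inter_distrib_right]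
  have : S1 ∩ V = ∅ := Finset.disjoint_iff_inter_eq_empty.mp (hd.mono_left h1)
  rw [this, Finset.empty_union]

lemma lexs_cons_union {U : Finset P} {l : List (Finset P)} (hl : GoodList H (U :: l))
    {S1 S2 : Finset P} (h1 : S1 ⊆ U) (h2 : S2 ⊆ uni l) :
    lexs (U :: l) (S1 ∪ S2) = if 2 * S1.card = U.card then lexs l S2
      else 2 * (S1.card : ℤ) - (U.card : ℤ) := by
  have e : (S1 ∪ S2) ∩ U = S1 := union_inter_left hl.disj' h1 h2
  have e2 := lexs_union hl h1 h2
  conv_lhs => unfold lexs
  rw [e, e2]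

lemma lexs_sdiff (l : List (Finset P)) (S : Finset P) : lexs l (uni l \ S) = - lexs l S := by
  have key : ∀ (W : Finset P) (l : List (Finset P)) (_ : ∀ U ∈ l, U ⊆ W),
      lexs l (W \ S) = - lexs l S := by
    intro W l
    induction l with
    | nil => intro _; rfl
    | cons U l ih =>
      intro h
      have hU : U ⊆ W := h U List.mem_cons_self
      have e1 : (W \ S) ∩ U = U \ (S ∩ U) := by
        ext x
        simp only [Finset.mem_inter, Finset.mem_sdiff]
        constructor
        · rintro ⟨⟨-, h1⟩, h2⟩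
          exact ⟨h2, fun h3 => h1 h3.1⟩
        · rintro ⟨h1, h2⟩
          exact ⟨⟨hU h1, fun h3 => h2 ⟨h3, h1⟩⟩, h1⟩
      have e2 : (U \ (S ∩ U)).card + (S ∩ U).card = U.card := by
        rw [Finset.card_sdiff_add_card_eq_card Finset.inter_subset_right]
      unfold lexs
      rw [e1, ih fun V hV => h V (List.mem_cons_of_mem _ hV)]
      by_cases h3 : 2 * (S ∩ U).card = U.card
      · rw [if_pos h3, if_pos (by omega)]
      · rw [if_neg h3, if_neg (by omega)]
        omega
  exact key (uni l) l fun U hU => subset_uni hU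

/-- if all sets are halved the cardinality of the list is even and `S` has half of the elements -/
lemma card_of_lexs_zero {l : List (Finset P)} (hl : GoodList H l) {S : Finset P} (hS : S ⊆ uni l)
    (h : lexs l S = 0) : 2 * S.card = (uni l).card ∧ ∀ U ∈ l, Even U.card := by
  induction l generalizing S with
  | nil =>
    have : S = ∅ := Finset.subset_empty.mp hS
    rw [this]
    exact ⟨rfl, fun U hU => by simp at hU⟩
  | cons U l ih =>
    have hS' : S ⊆ U ∪ uni l := hS
    have e0 : S = (S ∩ U) ∪ (S ∩ uni l) := by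
      rw [← Finset.inter_union_distrib_left]
      exact (Finset.inter_eq_left.mpr hS').symm
    have h1 := lexs_cons_union hl (S1 := S ∩ U) (S2 := S ∩ uni l) Finset.inter_subset_right
      Finset.inter_subset_right
    rw [← e0, h] at h1
    by_cases h2 : 2 * (S ∩ U).card = U.card
    · rw [if_pos h2] at h1
      obtain ⟨h3, h4⟩ := ih hl.tail Finset.inter_subset_right h1.symm
      have e1 : S.card = (S ∩ U).card + (S ∩ uni l).card := by
        conv_lhs => rw [e0]
        exact Finset.card_union_of_disjoint (hl.disj'.mono Finset.inter_subset_right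
          Finset.inter_subset_right)
      refine ⟨?_, ?_⟩
      · rw [card_uni_cons hl]
        omega
      · intro V hV
        rcases List.mem_cons.mp hV with rfl | hV
        · exact ⟨(S ∩ V).card, by omega⟩
        · exact h4 V hV
    · rw [if_neg h2] at h1
      omega

end generic

section recursion

variable {l : List (Finset P)}

/-- perfect halves -/
lemma perf_eq (hl : GoodList H l) (g : H) {M : ℕ} (hM : (uni l).card = 2 * M) :
    ∑ S ∈ (fx (uni l) g).filter (fun S => lexs l S = 0), (X : ℤ[X]) ^ S.card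
      = C (Tf l g) * X ^ M := by
  have h1 : ∀ S ∈ (fx (uni l) g).filter (fun S => lexs l S = 0), (X : ℤ[X]) ^ S.card = X ^ M := by
    intro S hS
    rw [Finset.mem_filter, mem_fx] at hS
    have := (card_of_lexs_zero hl hS.1.1 hS.2).1
    congr 1
    omega
  rw [Finset.sum_congr rfl h1, Finset.sum_const, nsmul_eq_mul]
  unfold Tf
  simp

/-- the total of `(1+X)^l` -/
lemma total_eq (hl : GoodList H l) (g : H) :
    Fx (uni l) g = numL l g + (1 + X) * Lam l g
      + ∑ S ∈ (fx (uni l) g).filter (fun S => lexs l S = 0), X ^ S.card := by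
  have hU := uni_stable hl
  have hlong : ∑ S ∈ (fx (uni l) g).filter (fun S => 0 < lexs l S), (X : ℤ[X]) ^ S.card
      = ∑ S ∈ (fx (uni l) g).filter (fun S => lexs l S < 0), X ^ ((uni l).card - S.card) := by
    rw [Finset.sum_filter, Finset.sum_filter, sum_fx_compl hU]
    refine Finset.sum_congr rfl fun S hS => ?_
    rw [lexs_sdiff, Finset.card_sdiff_of_subset (mem_fx.mp hS).1]
    by_cases h : lexs l S < 0
    · rw [if_pos (by omega), if_pos h]
    · rw [if_neg (by omega), if_neg h]
  have hsplit : Fx (uni l) g = ∑ S ∈ (fx (uni l) g).filter (fun S => lexs l S < 0), X ^ S.card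
      + ∑ S ∈ (fx (uni l) g).filter (fun S => 0 < lexs l S), X ^ S.card
      + ∑ S ∈ (fx (uni l) g).filter (fun S => lexs l S = 0), X ^ S.card := by
    unfold Fx
    rw [Finset.sum_filter, Finset.sum_filter, Finset.sum_filter, ← Finset.sum_add_distrib,
      ← Finset.sum_add_distrib]
    refine Finset.sum_congr rfl fun S _ => ?_
    rcases lt_trichotomy (lexs l S) 0 with h | h | h
    · rw [if_pos h, if_neg (by omega), if_neg (by omega)]; ring
    · rw [if_neg (by omega), if_neg (by omega), if_pos h]; ring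
    · rw [if_neg (by omega), if_pos h, if_neg (by omega)]; ring
  rw [hsplit, hlong]
  unfold numL Lam
  rw [Finset.sum_sub_distrib, Finset.mul_sum]
  have e1 : ∑ S ∈ (fx (uni l) g).filter (fun S => lexs l S < 0), (1 + X) * (X : ℤ[X]) ^ S.card
      = ∑ S ∈ (fx (uni l) g).filter (fun S => lexs l S < 0), (X : ℤ[X]) ^ S.card
        + ∑ S ∈ (fx (uni l) g).filter (fun S => lexs l S < 0), (X : ℤ[X]) ^ (S.card + 1) := by
    rw [← Finset.sum_add_distrib]
    refine Finset.sum_congr rfl fun S _ => ?_
    ring
  rw [e1]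
  ring

lemma Fx_rev {U : Finset P} (hU : HStable H U) (g : H) :
    ∑ S ∈ fx U g, (X : ℤ[X]) ^ (U.card - S.card) = Fx U g := by
  unfold Fx
  rw [sum_fx_compl hU]
  refine Finset.sum_congr rfl fun S hS => ?_
  rw [Finset.card_sdiff_of_subset (mem_fx.mp hS).1]
  congr 1
  have := card_le_of_mem_fx hS
  omega

/-- recursion for the numerator -/
lemma numL_cons {U : Finset P} (hl : GoodList H (U :: l)) (g : H) :
    numL (U :: l) g = (∑ a ∈ (Finset.range (U.card + 1)).filter (fun a => 2 * a < U.card),
        C (Mx U a g) * (X ^ (U.card - a) - X ^ (a + 1))) * Fx (uni l) g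
      + (∑ a ∈ (Finset.range (U.card + 1)).filter (fun a => 2 * a = U.card),
        C (Mx U a g) * X ^ a) * numL l g := by
  have hcard := card_uni_cons hl
  have hu : uni (U :: l) = U ∪ uni l := rfl
  unfold numL
  rw [Finset.sum_filter, hu, sum_fx_union hl.head (uni_stable hl.tail) hl.disj']
  rw [hu] at hcard
  have h1 : ∀ S1 ∈ fx U g, ∑ S2 ∈ fx (uni l) g, (if lexs (U :: l) (S1 ∪ S2) < 0 then
      ((X : ℤ[X]) ^ ((U ∪ uni l).card - (S1 ∪ S2).card) - X ^ ((S1 ∪ S2).card + 1)) else 0)
      = (if 2 * S1.card < U.card then (X ^ (U.card - S1.card) - X ^ (S1.card + 1)) * Fx (uni l) g else 0)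
        + (if 2 * S1.card = U.card then X ^ S1.card *
          ∑ S ∈ (fx (uni l) g).filter (fun S => lexs l S < 0),
            (X ^ ((uni l).card - S.card) - X ^ (S.card + 1)) else 0) := by
    intro S1 hS1
    have h2 : ∀ S2 ∈ fx (uni l) g, (if lexs (U :: l) (S1 ∪ S2) < 0 then
        ((X : ℤ[X]) ^ ((U ∪ uni l).card - (S1 ∪ S2).card) - X ^ ((S1 ∪ S2).card + 1)) else 0)
        = (if 2 * S1.card < U.card then (X ^ (U.card - S1.card) * X ^ ((uni l).card - S2.card)
            - X ^ (S1.card + 1) * X ^ S2.card) else 0)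
          + (if 2 * S1.card = U.card then X ^ S1.card * (if lexs l S2 < 0 then
            (X ^ ((uni l).card - S2.card) - X ^ (S2.card + 1)) else 0) else 0) := by
      intro S2 hS2
      have g1 := (mem_fx.mp hS1).1
      have g2 := (mem_fx.mp hS2).1
      have c1 := Finset.card_le_card g1
      have c2 := Finset.card_le_card g2
      have hc : (S1 ∪ S2).card = S1.card + S2.card :=
        Finset.card_union_of_disjoint (hl.disj'.mono g1 g2)
      rw [lexs_cons_union hl g1 g2, hcard, hc]
      rcases lt_trichotomy (2 * S1.card) U.card with h | h | h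
      · rw [if_neg (by omega : ¬ 2 * S1.card = U.card), if_pos (by omega), if_pos h,
          if_neg (by omega : ¬ 2 * S1.card = U.card), add_zero]
        rw [← pow_add, ← pow_add]
        congr 2
        · omega
        · ring
      · rw [if_pos h, if_neg (by omega : ¬ 2 * S1.card < U.card), if_pos h, zero_add]
        split_ifs with h3
        · rw [mul_sub, ← pow_add, ← pow_add]
          congr 2
          omega
        · rw [mul_zero]
      · rw [if_neg (by omega : ¬ 2 * S1.card = U.card), if_neg (by omega), if_neg (by omega),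
          if_neg (by omega), add_zero]
    rw [Finset.sum_congr rfl h2, Finset.sum_add_distrib]
    congr 1
    · split_ifs
      · rw [Finset.sum_sub_distrib, ← Finset.mul_sum, ← Finset.mul_sum, Fx_rev (uni_stable hl.tail)]
        unfold Fx
        ring
      · exact Finset.sum_const_zero
    · split_ifs
      · rw [← Finset.mul_sum, Finset.sum_filter]
      · exact Finset.sum_const_zero
  rw [Finset.sum_congr rfl h1]
  generalize (∑ S ∈ (fx (uni l) g).filter (fun S => lexs l S < 0),
            ((X : ℤ[X]) ^ ((uni l).card - S.card) - X ^ (S.card + 1))) = NL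
  rw [sum_fx_card U g (fun a => (if 2 * a < U.card then
      ((X : ℤ[X]) ^ (U.card - a) - X ^ (a + 1)) * Fx (uni l) g else 0)
        + (if 2 * a = U.card then X ^ a * NL else 0))]
  rw [Finset.sum_filter, Finset.sum_filter, Finset.sum_mul, Finset.sum_mul, ← Finset.sum_add_distrib]
  refine Finset.sum_congr rfl fun a _ => ?_
  split_ifs <;> ring

/-- recursion for the perfect halves -/
lemma Tf_cons {U : Finset P} (hl : GoodList H (U :: l)) (g : H) {m : ℕ} (hm : U.card = 2 * m) :
    Tf (U :: l) g = Mx U m g * Tf l g := by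
  have hu : uni (U :: l) = U ∪ uni l := rfl
  unfold Tf Mx
  rw [Finset.card_filter, Finset.card_filter, Finset.card_filter, hu,
    sum_fx_union hl.head (uni_stable hl.tail) hl.disj']
  push_cast
  rw [Finset.sum_mul_sum]
  refine Finset.sum_congr rfl fun S1 hS1 => Finset.sum_congr rfl fun S2 hS2 => ?_
  rw [lexs_cons_union hl (mem_fx.mp hS1).1 (mem_fx.mp hS2).1]
  by_cases h : S1.card = m
  · rw [if_pos (by omega : 2 * S1.card = U.card), if_pos h, one_mul]
  · rw [if_neg (by omega : ¬ 2 * S1.card = U.card), if_neg (by omega), if_neg h, zero_mul]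

lemma card_of_mem_ax {U S : Finset P} {g : H} (h : S ∈ ax U g) : 2 * S.card = U.card := by
  rw [mem_ax] at h
  have h1 := congrArg Finset.card h.2
  rw [Finset.card_map, Finset.card_sdiff_of_subset h.1] at h1
  have := Finset.card_le_card h.1
  omega

lemma Ta_cons {U : Finset P} (hl : GoodList H (U :: l)) (g : H) :
    Ta (U :: l) g = Ax U g * Ta l g := by
  have hu : uni (U :: l) = U ∪ uni l := rfl
  have hA : Ax U g = ∑ S ∈ ax U g, (1 : ℤ) := by
    unfold Ax
    simp
  rw [hA]
  unfold Ta
  rw [Finset.card_filter, Finset.card_filter, hu,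
    sum_ax_union hl.head (uni_stable hl.tail) hl.disj']
  push_cast
  rw [Finset.sum_mul_sum]
  refine Finset.sum_congr rfl fun S1 hS1 => Finset.sum_congr rfl fun S2 hS2 => ?_
  rw [lexs_cons_union hl (mem_ax.mp hS1).1 (mem_ax.mp hS2).1, if_pos (card_of_mem_ax hS1), one_mul]

lemma Tf_nil (g : H) : Tf ([] : List (Finset P)) g = 1 := by
  have : (fx (uni ([] : List (Finset P))) g).filter (fun S => lexs [] S = 0) = {∅} := by
    ext S
    rw [Finset.mem_filter, mem_fx, Finset.mem_singleton]
    constructor
    · rintro ⟨⟨h, -⟩, -⟩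
      exact Finset.subset_empty.mp h
    · rintro rfl
      exact ⟨⟨Finset.Subset.refl _, Finset.map_empty _⟩, rfl⟩
  unfold Tf
  rw [this]
  rfl

lemma Ta_nil (g : H) : Ta ([] : List (Finset P)) g = 1 := by
  have : (ax (uni ([] : List (Finset P))) g).filter (fun S => lexs [] S = 0) = {∅} := by
    ext S
    rw [Finset.mem_filter, mem_ax, Finset.mem_singleton]
    constructor
    · rintro ⟨⟨h, -⟩, -⟩
      exact Finset.subset_empty.mp h
    · rintro rfl
      exact ⟨⟨Finset.Subset.refl _, by simp [uni]⟩, rfl⟩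
  unfold Ta
  rw [this]
  rfl

lemma numL_nil (g : H) : numL ([] : List (Finset P)) g = 0 := by
  unfold numL
  apply Finset.sum_eq_zero
  intro S hS
  have := (Finset.mem_filter.mp hS).2
  simp [lexs] at this

lemma Lam_nil (g : H) : Lam ([] : List (Finset P)) g = 0 := by
  unfold Lam
  apply Finset.sum_eq_zero
  intro S hS
  have := (Finset.mem_filter.mp hS).2
  simp [lexs] at this

end recursion

end Pool.Agent.Mbar
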